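import Pool.Agent.Lib.MP_a17b09_nt.HY.Stmts20
import Pool.Agent.Lib.MP_a17b09_nt.CH.Lat28

/-!
Project HY (MP_a17b09): (A1) counting in the sector.
-/

set_option autoImplicit false

open Filter Topology Finset

namespace Pool.Agent.Lib.MP_a17b09_nt.HY

open Pool.Agent.Lib.MP_a17b09_nt.CH

namespace Cnt84

/-- the sector is contained in a box -/
theorem box (d : ℕ) (Q : Form) (hQ : Hyp d Q) (T : ℝ) (hT : 0 < T) : ∃ B : ℝ, 1 ≤ B ∧
    ∀ (n : ℝ) (v : V), Sec Q T v → (Q.q v : ℝ) ≤ n →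
      |(v.1 : ℝ)| ≤ B * √n ∧ |(v.2 : ℝ)| ≤ B * √n := by
  have hsa := hQ.sa
  have hsd := hQ.sd
  have hc : 1 ≤ Real.cosh T := Real.one_le_cosh T
  set s : ℝ := √(Q.a : ℝ) with hs
  set e : ℝ := √(d : ℝ) with he
  refine ⟨1 + 2 * s * Real.cosh T / e + (1 + |(Q.b : ℝ)| / e) * Real.cosh T / s, ?_, ?_⟩
  · have h1 : 0 ≤ 2 * s * Real.cosh T / e := by positivity
    have h2 : 0 ≤ (1 + |(Q.b : ℝ)| / e) * Real.cosh T / s := by positivity
    linarith
  · intro n v hv hn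
    obtain ⟨hcn, hp0, hpT⟩ := hv
    obtain ⟨hX1, hY1⟩ := polar hQ hcn
    have hq0 : (0 : ℝ) < Q.q v := by exact_mod_cast hcn.q_pos hQ
    have hn0 : 0 < n := hq0.trans_le hn
    have hsq : √(Q.q v : ℝ) ≤ √n := Real.sqrt_le_sqrt hn
    have hcosh : Real.cosh (ps Q v) ≤ Real.cosh T := by
      rw [Real.cosh_le_cosh, abs_of_nonneg hp0, abs_of_pos hT]
      exact hpT.le
    have hsinh0 : 0 ≤ Real.sinh (ps Q v) := Real.sinh_nonneg_iff.2 hp0
    have hsinh : Real.sinh (ps Q v) ≤ Real.cosh T :=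
      (Real.sinh_lt_cosh (ps Q v)).le.trans hcosh
    have hXb : |hX Q v| ≤ Real.cosh T * √n := by
      rw [hX1, abs_mul, abs_of_nonneg (Real.sqrt_nonneg _),
        abs_of_pos (Real.cosh_pos _), mul_comm]
      gcongr
    have hYb : |hY Q v| ≤ Real.cosh T * √n := by
      rw [hY1, abs_mul, abs_of_nonneg (Real.sqrt_nonneg _),
        abs_of_nonneg hsinh0, mul_comm]
      gcongr
    have e2 : (v.2 : ℝ) = 2 * s / e * hY Q v := by
      rw [hQ.hY_eq, ← hs, ← he]
      field_simp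
    have e1 : (v.1 : ℝ) = (hX Q v - Q.b / e * hY Q v) / s := by
      rw [hQ.hY_eq, ← hs, ← he]
      unfold hX
      rw [← hs]
      field_simp
      ring
    have hsn : 0 ≤ √n := Real.sqrt_nonneg _
    have b2 : |(v.2 : ℝ)| ≤ (2 * s * Real.cosh T / e) * √n := by
      rw [e2, abs_mul, abs_of_pos (show (0 : ℝ) < 2 * s / e by positivity)]
      calc 2 * s / e * |hY Q v| ≤ 2 * s / e * (Real.cosh T * √n) := by gcongr
        _ = _ := by ring
    have b1 : |(v.1 : ℝ)| ≤ ((1 + |(Q.b : ℝ)| / e) * Real.cosh T / s) * √n := by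
      rw [e1, abs_div, abs_of_pos hsa]
      have h1 : |hX Q v - Q.b / e * hY Q v| ≤ (1 + |(Q.b : ℝ)| / e) * (Real.cosh T * √n) := by
        calc _ ≤ |hX Q v| + |Q.b / e * hY Q v| := abs_sub _ _
          _ = |hX Q v| + |(Q.b : ℝ)| / e * |hY Q v| := by
              rw [abs_mul, abs_div, abs_of_pos hsd]
          _ ≤ Real.cosh T * √n + |(Q.b : ℝ)| / e * (Real.cosh T * √n) := by gcongr
          _ = _ := by ring
      rw [div_le_iff₀ hsa]
      refine h1.trans (le_of_eq ?_)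
      field_simp
    have c1 : 0 ≤ (2 * s * Real.cosh T / e) * √n := by positivity
    have c2 : 0 ≤ ((1 + |(Q.b : ℝ)| / e) * Real.cosh T / s) * √n := by positivity
    constructor
    · nlinarith
    · nlinarith

theorem mem_box {B s : ℝ} {x : ℤ} (h : |(x : ℝ)| ≤ B * s) :
    x ∈ Finset.Icc (-((⌈B * s⌉₊ : ℕ) : ℤ)) ((⌈B * s⌉₊ : ℕ) : ℤ) := by
  have h1 : |(x : ℝ)| ≤ ((⌈B * s⌉₊ : ℕ) : ℝ) := h.trans (Nat.le_ceil _)
  have h2 : |x| ≤ ((⌈B * s⌉₊ : ℕ) : ℤ) := by exact_mod_cast h1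
  rw [Finset.mem_Icc]
  exact abs_le.1 h2

theorem par {v' u : V} (h : Prim v') (hw : wd u v' = 0) : ∃ t : ℤ, u = (t * v'.1, t * v'.2) := by
  unfold Prim at h
  rw [← Int.isCoprime_iff_gcd_eq_one] at h
  obtain ⟨a, b, hab⟩ := h
  unfold wd at hw
  refine ⟨a * u.1 + b * u.2, Prod.ext ?_ ?_⟩
  · simp only
    linear_combination (-u.1) * hab + b * hw
  · simp only
    linear_combination (-u.2) * hab - a * hw

/-- vectors on a line -/
theorem line (d : ℕ) (Q : Form) (hQ : Hyp d Q) (δ : ℝ) (hδ : 0 < δ) (n : ℝ) (v : V) (k : ℤ)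
    (hn : 0 < n) (hv : Prim v) (hcv : Cn Q v) (hq : δ ^ 2 * n ≤ (Q.q v : ℝ)) :
    {v' : V | Cn Q v' ∧ (Q.q v' : ℝ) ≤ n ∧ wd v v' = k}.Finite ∧
    ({v' : V | Cn Q v' ∧ (Q.q v' : ℝ) ≤ n ∧ wd v v' = k}.ncard : ℝ) ≤ 2 * (1 / δ) + 3 := by
  set S : Set V := {v' : V | Cn Q v' ∧ (Q.q v' : ℝ) ≤ n ∧ wd v v' = k} with hS
  rcases Set.eq_empty_or_nonempty S with h0 | ⟨w, hw⟩
  · rw [h0]
    refine ⟨Set.finite_empty, ?_⟩
    rw [Set.ncard_empty]
    push_cast
    positivity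
  · have hqv : (0 : ℝ) < Q.q v := by exact_mod_cast hcv.q_pos hQ
    set X : ℕ := ⌈1 / δ⌉₊ with hX
    -- the range of the polar form
    have hB : ∀ v' ∈ S, 0 < (Q.B v v' : ℝ) ∧ (Q.B v v' : ℝ) ^ 2 ≤ 4 * Q.q v * n + d * (k : ℝ) ^ 2 ∧
        d * (k : ℝ) ^ 2 ≤ (Q.B v v' : ℝ) ^ 2 := by
      intro v' hv'
      obtain ⟨h1, h2, h3⟩ := hv'
      have h4 : 0 < Q.B v v' := hcv.B_pos hQ h1
      have h5 := Q.key v v'
      rw [h3, hQ.disc] at h5
      have h6 : (4 : ℝ) * Q.q v * Q.q v' = (Q.B v v' : ℝ) ^ 2 - d * (k : ℝ) ^ 2 := by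
        have h7 := congrArg (fun t : ℤ => (t : ℝ)) h5
        push_cast at h7
        linarith
      have h8 : (0 : ℝ) < Q.q v' := by exact_mod_cast h1.q_pos hQ
      refine ⟨by exact_mod_cast h4, ?_, ?_⟩
      · nlinarith
      · nlinarith
    have hdiff : ∀ v' ∈ S, |(Q.B v v' : ℝ) - Q.B v w| ≤ 2 * √(Q.q v * n) := by
      intro v' hv'
      obtain ⟨a1, a2, a3⟩ := hB v' hv'
      obtain ⟨b1, b2, b3⟩ := hB w hw
      set x : ℝ := (Q.B v v' : ℝ)
      set y : ℝ := (Q.B v w : ℝ)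
      have h1 : |x ^ 2 - y ^ 2| ≤ 4 * (Q.q v * n) := by
        rw [abs_le]; constructor <;> nlinarith
      have h2 : (|x - y|) ^ 2 ≤ |x ^ 2 - y ^ 2| := by
        have h3 : x ^ 2 - y ^ 2 = (x - y) * (x + y) := by ring
        rw [h3, abs_mul, pow_two, abs_of_pos (show 0 < x + y by linarith)]
        apply mul_le_mul_of_nonneg_left _ (abs_nonneg _)
        rw [abs_le]
        constructor <;> linarith
      have h4 : |x - y| ≤ √(4 * (Q.q v * n)) := Real.le_sqrt_of_sq_le (h2.trans h1)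
      rw [Real.sqrt_mul (by norm_num)] at h4
      have h5 : √(4 : ℝ) = 2 := by
        rw [show (4 : ℝ) = 2 ^ 2 by norm_num, Real.sqrt_sq (by norm_num)]
      rwa [h5] at h4
    -- the parametrisation
    have hpar : ∀ v' ∈ S, ∃ t ∈ Finset.Icc (-(X : ℤ)) X,
        v' = w + ((t * v.1, t * v.2) : V) := by
      intro v' hv'
      have h1 : wd (v' - w) v = 0 := by
        have h2 := hv'.2.2
        have h3 := hw.2.2
        unfold wd at h2 h3 ⊢
        simp only [Prod.fst_sub, Prod.snd_sub]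
        linarith
      obtain ⟨t, ht⟩ := par hv h1
      refine ⟨t, ?_, ?_⟩
      · have h2 : (Q.B v v' : ℝ) - Q.B v w = 2 * t * Q.q v := by
          have h3 : v' = w + ((t * v.1, t * v.2) : V) := by rw [← ht]; abel
          have h4 : Q.B v v' - Q.B v w = 2 * t * Q.q v := by
            rw [h3]
            unfold Form.B Form.q
            simp only [Prod.fst_add, Prod.snd_add]
            ring
          exact_mod_cast h4
        have h3 := hdiff v' hv'
        rw [h2, abs_mul, abs_mul, abs_of_pos (show (0 : ℝ) < 2 by norm_num),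
          abs_of_pos hqv] at h3
        have h4 : √(Q.q v * n) ≤ (1 / δ) * Q.q v := by
          rw [Real.sqrt_le_left (by positivity)]
          have h5 : n ≤ (Q.q v : ℝ) / δ ^ 2 := by
            rw [le_div_iff₀ (by positivity)]
            linarith
          calc (Q.q v : ℝ) * n ≤ Q.q v * (Q.q v / δ ^ 2) := by gcongr
            _ = _ := by ring
        have h5 : |(t : ℝ)| ≤ 1 / δ := by
          have h6 : |(t : ℝ)| * Q.q v ≤ (1 / δ) * Q.q v := by linarith
          exact le_of_mul_le_mul_right h6 hqv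
        have h6 : |(t : ℝ)| ≤ (X : ℝ) := h5.trans (Nat.le_ceil _)
        have h7 : |t| ≤ (X : ℤ) := by exact_mod_cast h6
        rw [Finset.mem_Icc]
        exact abs_le.1 h7
      · rw [← ht]; abel
    have hsub : S ⊆ ((Finset.Icc (-(X : ℤ)) X).image
        (fun t : ℤ => w + ((t * v.1, t * v.2) : V)) : Finset V) := by
      intro v' hv'
      obtain ⟨t, ht, h1⟩ := hpar v' hv'
      rw [Finset.coe_image]
      exact ⟨t, ht, h1.symm⟩
    refine ⟨(Finset.finite_toSet _).subset hsub, ?_⟩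
    have h1 : S.ncard ≤ 2 * X + 1 := by
      calc S.ncard ≤ _ := Set.ncard_le_ncard hsub (Finset.finite_toSet _)
        _ = ((Finset.Icc (-(X : ℤ)) X).image
              (fun t : ℤ => w + ((t * v.1, t * v.2) : V))).card := Set.ncard_coe_finset _
        _ ≤ (Finset.Icc (-(X : ℤ)) X).card := Finset.card_image_le
        _ = 2 * X + 1 := by rw [Int.card_Icc]; omega
    have h2 : (S.ncard : ℝ) ≤ 2 * X + 1 := by exact_mod_cast h1
    have h3 : (X : ℝ) < 1 / δ + 1 := Nat.ceil_lt_add_one (by positivity)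
    linarith

end Cnt84

theorem stHcnt_84 : StHcnt := by
  classical
  intro d Q hQ T hT δ hδ
  obtain ⟨B, hB1, hB⟩ := Cnt84.box d Q hQ T hT
  refine ⟨100 * B ^ 2 + 2 * (1 / δ) + 3, by positivity, ?_, ?_, ?_⟩
  · intro n hn
    set X : ℕ := ⌈B * √n⌉₊ with hX
    have hsub : {v : V | Sec Q T v ∧ (Q.q v : ℝ) ≤ n} ⊆
        ((Finset.Icc (-(X : ℤ)) X ×ˢ Finset.Icc (-(X : ℤ)) X : Finset V) : Set V) := by
      intro v hv
      obtain ⟨h1, h2⟩ := hB n v hv.1 hv.2
      rw [Finset.mem_coe, Finset.mem_product]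
      exact ⟨Cnt84.mem_box h1, Cnt84.mem_box h2⟩
    refine ⟨(Finset.finite_toSet _).subset hsub, ?_⟩
    have h1 : ({v : V | Sec Q T v ∧ (Q.q v : ℝ) ≤ n}.ncard) ≤ (2 * X + 1) * (2 * X + 1) := by
      refine (Set.ncard_le_ncard hsub (Finset.finite_toSet _)).trans ?_
      rw [Set.ncard_coe_finset, Finset.card_product, Int.card_Icc]
      apply le_of_eq
      congr 1 <;> omega
    have h2 : ({v : V | Sec Q T v ∧ (Q.q v : ℝ) ≤ n}.ncard : ℝ) ≤ (2 * X + 1) * (2 * X + 1) := by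
      exact_mod_cast h1
    have hsn : 1 ≤ √n := Real.one_le_sqrt.2 hn
    have hXlt : (X : ℝ) < B * √n + 1 := Nat.ceil_lt_add_one (by positivity)
    have h3 : (2 * (X : ℝ) + 1) ≤ 5 * B * √n := by nlinarith
    have h4 : √n * √n = n := Real.mul_self_sqrt (by linarith)
    have hd0 : 0 ≤ 2 * (1 / δ) + 3 := by positivity
    calc _ ≤ (2 * (X : ℝ) + 1) * (2 * X + 1) := h2
      _ ≤ (5 * B * √n) * (5 * B * √n) := by gcongr
      _ = 25 * B ^ 2 * n := by
          calc _ = 25 * B ^ 2 * (√n * √n) := by ring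
            _ = _ := by rw [h4]
      _ ≤ _ := by nlinarith [mul_nonneg hd0 (by linarith : (0 : ℝ) ≤ n), sq_nonneg B,
                    mul_nonneg (sq_nonneg B) (by linarith : (0 : ℝ) ≤ n)]
  · intro p n hp L hL
    rcases Nat.eq_zero_or_pos n with h0 | h0
    · have hemp : {v : V | Sec Q T v ∧ L v ∧ Q.q v ≤ (n : ℤ)} = ∅ := by
        rw [Set.eq_empty_iff_forall_notMem]
        rintro v ⟨h1, _, h2⟩
        have h3 := h1.1.q_pos hQ
        rw [h0] at h2
        push_cast at h2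
        omega
      rw [hemp, Set.ncard_empty]
      push_cast
      positivity
    · set X : ℕ := ⌈B * √(n : ℝ)⌉₊ with hX
      have hn1 : (1 : ℝ) ≤ n := by exact_mod_cast h0
      have hsub : {v : V | Sec Q T v ∧ L v ∧ Q.q v ≤ (n : ℤ)} ⊆
          (((Finset.Icc (-(X : ℤ)) X ×ˢ Finset.Icc (-(X : ℤ)) X).filter (fun v => L v) :
            Finset V) : Set V) := by
        rintro v ⟨h1, h2, h3⟩
        obtain ⟨h4, h5⟩ := hB n v h1 (by exact_mod_cast h3)
        rw [Finset.mem_coe, Finset.mem_filter, Finset.mem_product]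
        exact ⟨⟨Cnt84.mem_box h4, Cnt84.mem_box h5⟩, h2⟩
      have h1 : ({v : V | Sec Q T v ∧ L v ∧ Q.q v ≤ (n : ℤ)}.ncard) ≤
          (2 * X / p + 1) * (2 * X + 1) := by
        refine (Set.ncard_le_ncard hsub (Finset.finite_toSet _)).trans ?_
        rw [Set.ncard_coe_finset]
        apply Lat28.lat_card X p hp L hL
        intro v hv
        rw [Finset.mem_filter, Finset.mem_product] at hv
        exact ⟨hv.2, hv.1.1, hv.1.2⟩
      have hp0 : (0 : ℝ) < p := by exact_mod_cast hp.pos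
      have hp1 : (1 : ℝ) ≤ p := by exact_mod_cast hp.one_lt.le
      have h2 : ({v : V | Sec Q T v ∧ L v ∧ Q.q v ≤ (n : ℤ)}.ncard : ℝ) ≤
          (2 * X / p + 1) * (2 * X + 1) := by
        have h3 : ({v : V | Sec Q T v ∧ L v ∧ Q.q v ≤ (n : ℤ)}.ncard : ℝ) ≤
            (((2 * X / p : ℕ) : ℝ) + 1) * (2 * X + 1) := by exact_mod_cast h1
        have h4 : ((2 * X / p : ℕ) : ℝ) ≤ 2 * (X : ℝ) / p := by
          have := Nat.cast_div_le (α := ℝ) (m := 2 * X) (n := p)
          push_cast at this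
          exact this
        refine h3.trans ?_
        gcongr
      have hsn : 1 ≤ √(n : ℝ) := Real.one_le_sqrt.2 hn1
      have hXlt : (X : ℝ) < B * √(n : ℝ) + 1 := Nat.ceil_lt_add_one (by positivity)
      have h3 : (2 * (X : ℝ) + 1) ≤ 5 * B * √(n : ℝ) := by nlinarith
      have h3' : 2 * (X : ℝ) ≤ 5 * B * √(n : ℝ) := by linarith
      have h4 : √(n : ℝ) * √(n : ℝ) = n := Real.mul_self_sqrt (by linarith)
      have hd0 : 0 ≤ 2 * (1 / δ) + 3 := by positivity
      have hnp : 0 ≤ (n : ℝ) / p := by positivity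
      calc _ ≤ (2 * (X : ℝ) / p + 1) * (2 * X + 1) := h2
        _ ≤ (5 * B * √(n : ℝ) / p + 1) * (5 * B * √(n : ℝ)) := by gcongr
        _ = 25 * B ^ 2 * (n / p) + 5 * B * √(n : ℝ) := by
            calc _ = 25 * B ^ 2 * ((√(n : ℝ) * √(n : ℝ)) / p) + 5 * B * √(n : ℝ) := by ring
              _ = _ := by rw [h4]
        _ ≤ 25 * B ^ 2 * (n / p) + 5 * B ^ 2 * √(n : ℝ) := by
            have : B ≤ B ^ 2 := by nlinarith
            gcongr
        _ ≤ _ := by
            have k1 : 0 ≤ B ^ 2 * (n / p) := by positivity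
            have k2 : 0 ≤ B ^ 2 * √(n : ℝ) := by positivity
            have k3 : 0 ≤ (2 * (1 / δ) + 3) * ((n : ℝ) / p + √(n : ℝ) + 1) := by positivity
            have k4 : 0 ≤ B ^ 2 := by positivity
            nlinarith
  · intro n v k hn hv hcv hq
    obtain ⟨h1, h2⟩ := Cnt84.line d Q hQ δ hδ n v k hn hv hcv hq
    exact ⟨h1, h2.trans (by nlinarith [sq_nonneg B])⟩

end Pool.Agent.Lib.MP_a17b09_nt.HY
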