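import Pool.Agent.Lib.MP_a17b09_nt.HY.Stmts20
import Pool.Agent.Lib.MP_a17b09_nt.CH.StmtsR79
import Pool.Agent.Lib.MP_a17b09_nt.CH.StmtsM3

/-!
Project HY, part R: the number of all pairs is asymptotic to `κ N` for positive discriminant.
-/

set_option autoImplicit false

open Filter Topology Finset

namespace Pool.Agent.Lib.MP_a17b09_nt.HY

open Pool.Agent.Lib.MP_a17b09_nt.CH

/-- frames with first coordinate `a` at most `z √n` and slopes `b / a`, `c / a` in intervals -/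
def secS (N : ℕ) (γ : Mat) (σ1 σ2 s1 s2 z : ℝ) (n : ℕ) : Set (V × V) :=
  {f | wd f.1 f.2 = 1 ∧ Cls N γ f ∧ 0 < f.1.1 ∧ (f.1.1 : ℝ) ≤ z * √n ∧
    σ1 * f.1.1 ≤ f.1.2 ∧ (f.1.2 : ℝ) < σ2 * f.1.1 ∧
    s1 * f.1.1 ≤ f.2.1 ∧ (f.2.1 : ℝ) < s2 * f.1.1}

/-- (R1) the count of `secS`, the constant depends only on `N` (from `StRow`, `StTot`) -/
def StHbox : Prop := ∀ N : ℕ, 0 < N → Even N → ∃ κ : ℝ, 0 < κ ∧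
  ∀ γ : Mat, (N : ℤ) ∣ γ.det - 1 → Int.gcd γ.a N = 1 → ∀ σ1 σ2 s1 s2 z : ℝ, σ1 < σ2 → s1 < s2 →
  0 < z → (∀ n : ℕ, (secS N γ σ1 σ2 s1 s2 z n).Finite) ∧
  Tendsto (fun n : ℕ => ((secS N γ σ1 σ2 s1 s2 z n).ncard : ℝ) / n) atTop
    (𝓝 (κ * ((σ2 - σ1) * (s2 - s1) * z ^ 2)))

/-- frames in a class with first vector in the sector -/
def secQ (Q : Form) (T : ℝ) (N : ℕ) (γ : Mat) (s1 s2 : ℝ) (n : ℕ) : Set (V × V) :=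
  {f | wd f.1 f.2 = 1 ∧ Cls N γ f ∧ Sec Q T f.1 ∧ Cn Q f.2 ∧ Q.q f.1 ≤ n ∧
    2 * s1 * (Q.q f.1 : ℝ) ≤ (Q.B f.1 f.2 : ℝ) ∧ (Q.B f.1 f.2 : ℝ) < 2 * s2 * (Q.q f.1 : ℝ)}

/-- (R2) equidistribution of the frames in the sector (from `StHbox`) -/
def StHR : Prop := ∀ (d : ℕ) (Q : Form), Hyp d Q → ∀ T : ℝ, 0 < T → ∀ N : ℕ, 0 < N → Even N →
  ∀ γ : Mat, (N : ℤ) ∣ γ.det - 1 → ∃ κ : ℝ, 0 < κ ∧ ∀ s1 s2 : ℝ, 0 < s1 → s1 < s2 →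
  (∀ n : ℕ, (secQ Q T N γ s1 s2 n).Finite) ∧
  Tendsto (fun n : ℕ => ((secQ Q T N γ s1 s2 n).ncard : ℝ) / n) atTop (𝓝 (κ * (s2 - s1)))

/-- (R3) the pairs `(t, d)`, `d ∣ f t`, have a density (from `StHR`, `StHSys`; like `cntG_3`) -/
def StHCntG : Prop := ∀ a b c : ℤ, 0 < a → ∀ d : ℕ, b ^ 2 - 4 * a * c = d → ¬ IsSquare d →
  ∀ (h : ℕ), 0 < h → ∀ t0 : ℕ, ∃ κ : ℝ, 0 < κ ∧ ∀ x y : ℝ, 0 < x → x < y →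
  (∀ n : ℕ, {p : ℕ × ℕ | PG a b c h t0 p ∧ p.2 ≤ n ∧ x ≤ (p.1 : ℝ) / p.2 ∧
    (p.1 : ℝ) / p.2 < y}.Finite) ∧
  Tendsto (fun n : ℕ => (({p : ℕ × ℕ | PG a b c h t0 p ∧ p.2 ≤ n ∧ x ≤ (p.1 : ℝ) / p.2 ∧
    (p.1 : ℝ) / p.2 < y}.ncard : ℕ) : ℝ) / n) atTop (𝓝 (κ * (y - x)))

/-- (R4) the number of all pairs (from `StHCntG`; like `MS64.mainS`) -/
def StHMainS : Prop := ∀ a b c : ℤ, 0 < a → ∀ d : ℕ, b ^ 2 - 4 * a * c = d → ¬ IsSquare d →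
  ∀ (h : ℕ), 0 < h → ∀ (t0 : ℕ) (α β : ℝ), 0 < α → α < β → ∃ κ : ℝ, 0 < κ ∧
  Tendsto (fun N : ℕ => (CST a b c α β h t0 1 0 0 N : ℝ) / N) atTop (𝓝 κ)

end Pool.Agent.Lib.MP_a17b09_nt.HY
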