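import Pool.Agent.Lib.MP_a17b09_nt.CH.EndS98
import Pool.Agent.Lib.MP_a17b09_nt.MRS.EndJ90
import Pool.Agent.Lib.MP_a17b09_nt.HY.StmtsR20

/-!
Project HY: the final statement in plain terms for a polynomial without integral zeros.
-/

set_option autoImplicit false

open Filter Topology Finset

namespace Pool.Agent.Lib.MP_a17b09_nt.HY

open Pool.Agent.Lib.MP_a17b09_nt.CH

namespace EndH20


/-- the divisors as a finite set -/
theorem ncard_eq {a b c : ℤ} {t : ℕ} (hf : fv a b c t ≠ 0) (α β : ℝ) (P : ℕ → Prop)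
    [DecidablePred P] :
    Set.ncard {d : ℕ | (d : ℤ) ∣ a * (t : ℤ) ^ 2 + b * t + c ∧ α * t ≤ d ∧ d ≤ β * t ∧ P d} =
      ((nearG a b c α β t).filter P).card := by
  rw [← Set.ncard_coe_finset]
  congr 1
  ext d
  simp only [Set.mem_ofPred_eq, Finset.coe_filter, nearG, Finset.mem_filter, Nat.mem_divisors]
  have h1 : (d : ℤ) ∣ a * (t : ℤ) ^ 2 + b * t + c ↔ d ∣ (fv a b c t).natAbs := by
    rw [← Int.natCast_dvd_natCast, Int.dvd_natAbs]
    rfl
  rw [h1]
  constructor
  · rintro ⟨h2, h3, h4, h5⟩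
    exact ⟨⟨⟨h2, Int.natAbs_ne_zero.2 hf⟩, h3, h4⟩, h5⟩
  · rintro ⟨⟨⟨h2, -⟩, h3, h4⟩, h5⟩
    exact ⟨h2, h3, h4, h5⟩

variable {a b c : ℤ} {α β : ℝ} {h t₀ : ℕ}

theorem count_eq (hf : ∀ t : ℕ, fv a b c t ≠ 0) (P : ℕ → ℕ → Prop)
    [∀ t, DecidablePred (P t)] (N : ℕ) :
    pairCount a b c h t₀ α β P N =
      ∑ t ∈ (Finset.Icc 1 N).filter (fun t => t ≡ t₀ [MOD h]),
        ((nearG a b c α β t).filter (P t)).card := by
  unfold pairCount
  exact Finset.sum_congr rfl fun t _ => ncard_eq (hf t) α β (P t)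

theorem count_CST (hf : ∀ t : ℕ, fv a b c t ≠ 0) (k r s N : ℕ) :
    pairCount a b c h t₀ α β (fun t d => ArithmeticFunction.cardFactors d ≡ r [MOD k] ∧
      ArithmeticFunction.cardFactors ((a * (t : ℤ) ^ 2 + b * t + c).natAbs / d) ≡ s [MOD k]) N =
      CST a b c α β h t₀ k r s N := by
  rw [count_eq hf]
  rfl

theorem count_true (hf : ∀ t : ℕ, fv a b c t ≠ 0) (N : ℕ) :
    pairCount a b c h t₀ α β (fun _ _ => True) N = CST a b c α β h t₀ 1 0 0 N := by
  rw [← count_CST hf, count_eq hf, count_eq hf]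
  refine Finset.sum_congr rfl fun t _ => ?_
  congr 1
  ext d
  simp [Nat.modEq_one]

/-- the pairs with `Ω (f t) ≡ r mod k` by the class of `Ω d` -/
theorem count_part (hf : ∀ t : ℕ, fv a b c t ≠ 0) {k : ℕ} (hk : 0 < k) (r j : ℕ)
    (u : ℕ → ℕ) (hu : ∀ i, i + j + u i ≡ r [MOD k]) (N : ℕ) :
    pairCount a b c h t₀ α β (fun t _ =>
      ArithmeticFunction.cardFactors (a * (t : ℤ) ^ 2 + b * t + c).natAbs ≡ r [MOD k]) N =
      ∑ i ∈ Finset.range k, CST a b c α β h t₀ k (i + j) (u i) N := by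
  rw [count_eq hf]
  unfold CST
  rw [Finset.sum_comm]
  refine Finset.sum_congr rfl fun t _ => ?_
  simp only [Finset.card_filter]
  rw [Finset.sum_comm]
  refine Finset.sum_congr rfl fun d hd => ?_
  have hd1 : d ∣ (fv a b c t).natAbs := Nat.dvd_of_mem_divisors (Finset.mem_filter.1 hd).1
  have hf0 : (fv a b c t).natAbs ≠ 0 := Int.natAbs_ne_zero.2 (hf t)
  have hd0 : d ≠ 0 := fun h0 => hf0 (Nat.eq_zero_of_zero_dvd (h0 ▸ hd1))
  have he0 : (fv a b c t).natAbs / d ≠ 0 :=
    (Nat.div_pos (Nat.le_of_dvd (Nat.pos_of_ne_zero hf0) hd1) (Nat.pos_of_ne_zero hd0)).ne'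
  have hmul : ArithmeticFunction.cardFactors (a * (t : ℤ) ^ 2 + b * t + c).natAbs =
      Omn d + Omn ((fv a b c t).natAbs / d) := by
    have h1 : (fv a b c t).natAbs = d * ((fv a b c t).natAbs / d) :=
      (Nat.mul_div_cancel' hd1).symm
    have h2 : (a * (t : ℤ) ^ 2 + b * t + c).natAbs = (fv a b c t).natAbs := rfl
    rw [h2]
    conv_lhs => rw [h1]
    rw [ArithmeticFunction.cardFactors_mul hd0 he0]
    rfl
  rw [hmul]
  set x := Omn d
  set y := Omn ((fv a b c t).natAbs / d)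
  -- the class of `x`
  set i0 := (x + (k - 1) * j) % k with hi0
  have hi0k : i0 < k := Nat.mod_lt _ hk
  have hx : i0 + j ≡ x [MOD k] := by
    have h1 : i0 ≡ x + (k - 1) * j [MOD k] := Nat.mod_modEq _ _
    have h2 : i0 + j ≡ x + (k - 1) * j + j [MOD k] := h1.add_right j
    have h3 : x + (k - 1) * j + j = x + k * j := by
      obtain ⟨k', rfl⟩ : ∃ k', k = k' + 1 := ⟨k - 1, by omega⟩
      simp only [Nat.add_sub_cancel]
      ring
    rw [h3] at h2
    refine h2.trans ?_
    have h4 : x + k * j ≡ x + 0 [MOD k] :=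
      Nat.ModEq.add_left x ((Nat.modEq_zero_iff_dvd).2 (dvd_mul_right k j))
    simp
  rw [Finset.sum_eq_single i0]
  · by_cases hxy : x + y ≡ r [MOD k]
    · rw [if_pos hxy, if_pos]
      refine ⟨hx.symm, ?_⟩
      have h1 : i0 + j + u i0 ≡ x + y [MOD k] := (hu i0).trans hxy.symm
      exact (Nat.ModEq.add_left_cancel hx h1).symm
    · rw [if_neg hxy, if_neg]
      rintro ⟨h1, h2⟩
      exact hxy ((h1.add h2).trans (hu i0))
  · intro i hi hne
    rw [if_neg]
    rintro ⟨h1, -⟩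
    apply hne
    have h2 : i + j ≡ i0 + j [MOD k] := h1.symm.trans hx.symm
    have h3 : i ≡ i0 [MOD k] := Nat.ModEq.add_right_cancel' j h2
    exact Nat.ModEq.eq_of_lt_of_lt h3 (Finset.mem_range.1 hi) hi0k
  · intro hi
    exact absurd (Finset.mem_range.2 hi0k) hi

theorem count_total (hf : ∀ t : ℕ, fv a b c t ≠ 0) {k : ℕ} (hk : 0 < k) (N : ℕ) :
    ∑ j ∈ Finset.range k, pairCount a b c h t₀ α β (fun t _ =>
      ArithmeticFunction.cardFactors (a * (t : ℤ) ^ 2 + b * t + c).natAbs ≡ j [MOD k]) N =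
      pairCount a b c h t₀ α β (fun _ _ => True) N := by
  rw [count_eq hf]
  rw [Finset.sum_congr rfl fun j _ => count_eq hf (fun t _ =>
      ArithmeticFunction.cardFactors (a * (t : ℤ) ^ 2 + b * t + c).natAbs ≡ j [MOD k]) N]
  rw [Finset.sum_comm]
  refine Finset.sum_congr rfl fun t _ => ?_
  simp only [Finset.card_filter]
  rw [Finset.sum_comm]
  refine Finset.sum_congr rfl fun d _ => ?_
  set x := ArithmeticFunction.cardFactors (a * (t : ℤ) ^ 2 + b * t + c).natAbs
  rw [Finset.sum_eq_single (x % k)]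
  · rw [if_pos (Nat.mod_modEq x k).symm]
    simp
  · intro i hi hne
    rw [if_neg]
    intro h1
    apply hne
    have h2 : i ≡ x % k [MOD k] := h1.symm.trans (Nat.mod_modEq x k).symm
    exact Nat.ModEq.eq_of_lt_of_lt h2 (Finset.mem_range.1 hi) (Nat.mod_lt _ hk)
  · intro hi
    exact absurd (Finset.mem_range.2 (Nat.mod_lt _ hk)) hi

theorem count_mono (P : ℕ → ℕ → Prop) : Monotone (pairCount a b c h t₀ α β P) := by
  intro M N hMN
  unfold pairCount
  refine Finset.sum_le_sum_of_subset_of_nonneg ?_ fun _ _ _ => Nat.zero_le _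
  intro t ht
  rw [Finset.mem_filter, Finset.mem_Icc] at ht ⊢
  exact ⟨⟨ht.1.1, ht.1.2.trans hMN⟩, ht.2⟩

theorem count_le (hf : ∀ t : ℕ, fv a b c t ≠ 0) (P : ℕ → ℕ → Prop) (N : ℕ) :
    pairCount a b c h t₀ α β P N ≤
      ∑ t ∈ (Finset.Icc 1 N).filter (fun t => t ≡ t₀ [MOD h]), (nearG a b c α β t).card := by
  classical
  rw [count_eq hf]
  exact Finset.sum_le_sum fun t _ => Finset.card_filter_le _ _

/-! ### all moduli -/

open EndJ90

theorem CS_eq (a b c : ℤ) (α β : ℝ) (h t0 : ℕ) {k : ℕ}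
    (hk : 0 < k) (r N : ℕ) : CS a b c α β h t0 k r N =
      ∑ r' ∈ range k, CST a b c α β h t0 k r' (r + (k - 1) * r') N := by
  obtain ⟨k, rfl⟩ : ∃ k', k = k' + 1 := ⟨k - 1, by omega⟩
  simp only [Nat.add_sub_cancel]
  unfold CST CS
  rw [Finset.sum_comm]
  apply Finset.sum_congr rfl
  intro t _
  have h2 := Finset.card_eq_sum_card_fiberwise
    (s := (nearG a b c α β t).filter (fun _ => Om a b c t ≡ r [MOD k + 1]))
    (t := range (k + 1)) (f := fun d => Omn d % (k + 1)) (by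
      intro d _
      simp only [Finset.mem_coe, Finset.mem_range]
      exact Nat.mod_lt _ hk)
  rw [h2]
  apply Finset.sum_congr rfl
  intro r' hr'
  rw [Finset.mem_range] at hr'
  congr 1
  rw [Finset.filter_filter]
  apply Finset.filter_congr
  intro d hd
  have h3 : Omn d + Omn ((fv a b c t).natAbs / d) = Om a b c t := by
    unfold nearG at hd
    obtain ⟨hd1, -⟩ := Finset.mem_filter.1 hd
    rw [Nat.mem_divisors] at hd1
    obtain ⟨hd2, hd3⟩ := hd1
    have hd0 : d ≠ 0 := by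
      rintro rfl
      exact hd3 (Nat.eq_zero_of_zero_dvd hd2)
    have hq0 : (fv a b c t).natAbs / d ≠ 0 := by
      intro h0
      have := Nat.mul_div_cancel' hd2
      rw [h0, mul_zero] at this
      exact hd3 this.symm
    unfold Omn Om
    rw [← ArithmeticFunction.cardFactors_mul hd0 hq0, Nat.mul_div_cancel' hd2]
  have hmod : Omn d % (k + 1) = r' ↔ Omn d ≡ r' [MOD k + 1] := by
    unfold Nat.ModEq
    rw [Nat.mod_eq_of_lt hr']
  rw [hmod, ← h3]
  constructor
  · rintro ⟨h4, h5⟩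
    refine ⟨h5, ?_⟩
    -- add `k Ω d`
    have h6 : Omn ((fv a b c t).natAbs / d) + (k + 1) * Omn d ≡ r + k * r' [MOD k + 1] := by
      have h7 : Omn ((fv a b c t).natAbs / d) + (k + 1) * Omn d =
          (Omn d + Omn ((fv a b c t).natAbs / d)) + k * Omn d := by ring
      rw [h7]
      exact h4.add (h5.mul_left k)
    have h8 : Omn ((fv a b c t).natAbs / d) + (k + 1) * Omn d ≡
        Omn ((fv a b c t).natAbs / d) [MOD k + 1] := by
      unfold Nat.ModEq
      rw [Nat.add_mul_mod_self_left]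
    exact h8.symm.trans h6
  · rintro ⟨h4, h5⟩
    refine ⟨?_, h4⟩
    have h6 := h4.add h5
    have h7 : r' + (r + k * r') = r + (k + 1) * r' := by ring
    rw [h7] at h6
    have h8 : r + (k + 1) * r' ≡ r [MOD k + 1] := by
      unfold Nat.ModEq
      rw [Nat.add_mul_mod_self_left]
    exact h6.trans h8

/-- means of all classes -/
theorem finJ {a b c : ℤ} {h : ℕ} (t0 : ℕ) {α β : ℝ}
    (hMain : ∃ κ : ℝ, 0 < κ ∧
      Tendsto (fun N : ℕ => (CST a b c α β h t0 1 0 0 N : ℝ) / N) atTop (𝓝 κ))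
    (hO : ∃ C : ℝ, ∀ N : ℕ, ((∑ t ∈ (Finset.Icc 1 N).filter (fun t => t ≡ t0 [MOD h]),
      (nearG a b c α β t).card : ℕ) : ℝ) ≤ C * N) (hTw : ∀ (z1 z2 : ℂ) (k : ℕ), 0 < k → z1 ^ k = 1 → z2 ^ k = 1 →
      (z1 ≠ 1 ∨ z2 ≠ 1) → ∀ M : LMean,
      M.E (fun N : ℕ => ‖TwN a b c α β h t0 z1 z2 N‖ / N) = 0) :
    ∃ κ : ℝ, 0 < κ ∧
      Tendsto (fun N : ℕ => (CST a b c α β h t0 1 0 0 N : ℝ) / N) atTop (𝓝 κ) ∧
      (∀ k : ℕ, 0 < k → ∀ r s : ℕ, Bdd (fun N : ℕ => (CST a b c α β h t0 k r s N : ℝ) / N) ∧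
        ∀ M : LMean, M.E (fun N : ℕ => |(CST a b c α β h t0 k r s N : ℝ) / N - κ / k ^ 2|) = 0) ∧
      (∀ k : ℕ, 0 < k → ∀ r : ℕ, Bdd (fun N : ℕ => (CS a b c α β h t0 k r N : ℝ) / N) ∧
        ∀ M : LMean, M.E (fun N : ℕ => |(CS a b c α β h t0 k r N : ℝ) / N - κ / k|) = 0) := by
  obtain ⟨κ, hκ, hlim⟩ := hMain
  obtain ⟨C, hC⟩ := hO
  have hb : ∀ k r s : ℕ, Bdd (fun N : ℕ => (CST a b c α β h t0 k r s N : ℝ) / N) := by
    intro k r s
    refine ⟨|C|, fun N => ?_⟩
    rw [abs_of_nonneg (by positivity)]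
    rcases Nat.eq_zero_or_pos N with h0 | h0
    · rw [h0]; simp
    · have h0' : (0 : ℝ) < N := by exact_mod_cast h0
      rw [div_le_iff₀ h0']
      have h1 : CST a b c α β h t0 k r s N ≤
          ∑ t ∈ (Finset.Icc 1 N).filter (fun t => t ≡ t0 [MOD h]), (nearG a b c α β t).card := by
        unfold CST
        exact Finset.sum_le_sum fun t _ => Finset.card_filter_le _ _
      calc (CST a b c α β h t0 k r s N : ℝ) ≤ ((∑ t ∈ (Finset.Icc 1 N).filter
            (fun t => t ≡ t0 [MOD h]), (nearG a b c α β t).card : ℕ) : ℝ) := by exact_mod_cast h1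
        _ ≤ C * N := hC N
        _ ≤ |C| * N := mul_le_mul_of_nonneg_right (le_abs_self C) h0'.le
  have h1 : ∀ k : ℕ, 0 < k → ∀ r s : ℕ, ∀ M : LMean,
      M.E (fun N : ℕ => |(CST a b c α β h t0 k r s N : ℝ) / N - κ / k ^ 2|) = 0 := by
    intro k hk r s M
    have hsh := TopJ90.share M (range k ×ˢ range k)
      (fun p N => (CST a b c α β h t0 k p.1 p.2 N : ℝ)) (fun p _ => hb k p.1 p.2)
      (fun p _ q _ => TopJ90.inv2 M k hk
        (fun M => (Finset.Icc 1 M).filter (fun t => t ≡ t0 [MOD h]))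
        (nearG a b c α β) (fun _ d => Omn d) (fun t d => Omn ((fv a b c t).natAbs / d))
        ⟨C, hC⟩ (fun z1 z2 h1 h2 h3 => hTw z1 z2 k hk h1 h2 h3 M) p.1 p.2 q.1 q.2)
      (κ := κ) (by
        refine hlim.congr fun N => ?_
        rw [← CST_sum a b c α β h t0 hk N]
        push_cast
        rfl) (r % k, s % k) (by
        rw [Finset.mem_product, Finset.mem_range, Finset.mem_range]
        exact ⟨Nat.mod_lt _ hk, Nat.mod_lt _ hk⟩)
    have hcard : ((range k ×ˢ range k).card : ℝ) = (k : ℝ) ^ 2 := by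
      rw [Finset.card_product, Finset.card_range]
      push_cast
      ring
    rw [hcard] at hsh
    refine Eq.trans ?_ hsh
    congr 1
    funext N
    rw [CST_mod a b c α β h t0 k r s (r % k) (s % k) N (Nat.mod_modEq r k).symm
      (Nat.mod_modEq s k).symm]
  refine ⟨κ, hκ, hlim, fun k hk r s => ⟨hb k r s, h1 k hk r s⟩, fun k hk r => ?_⟩
  have e1 : ∀ N : ℕ, (CS a b c α β h t0 k r N : ℝ) =
      ∑ r' ∈ range k, (CST a b c α β h t0 k r' (r + (k - 1) * r') N : ℝ) := by
    intro N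
    rw [CS_eq a b c α β h t0 hk r N]
    push_cast
    rfl
  constructor
  · have h2 : (fun N : ℕ => (CS a b c α β h t0 k r N : ℝ) / N) = fun N : ℕ =>
        ∑ r' ∈ range k, (CST a b c α β h t0 k r' (r + (k - 1) * r') N : ℝ) / N := by
      funext N
      rw [e1 N, Finset.sum_div]
    rw [h2]
    exact Bdd.sum _ _ fun r' _ => hb k r' _
  · intro M
    have h2 := TopJ90.sum_mean M (range k)
      (fun r' N => (CST a b c α β h t0 k r' (r + (k - 1) * r') N : ℝ)) (fun _ => κ / k ^ 2)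
      (fun r' _ => hb k r' _) (fun r' _ => h1 k hk r' _ M)
    refine Eq.trans ?_ h2
    congr 1
    funext N
    rw [e1 N, Finset.sum_const, Finset.card_range, nsmul_eq_mul]
    have hk' : (k : ℝ) ≠ 0 := by exact_mod_cast hk.ne'
    congr 2
    field_simp


end EndH20

open EndH20 EndS in
/-- The final statement in plain terms, odd moduli, from the properties of one polynomial. -/
theorem endHS (hU : StMeanU) (a b c : ℤ) (hf : ∀ t : ℕ, fv a b c t ≠ 0) (h t₀ : ℕ) (α β : ℝ)
    (hMain : ∃ κ : ℝ, 0 < κ ∧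
      Tendsto (fun N : ℕ => (CST a b c α β h t₀ 1 0 0 N : ℝ) / N) atTop (𝓝 κ))
    (hOn : ∃ C : ℝ, ∀ N : ℕ, ((∑ t ∈ (Finset.Icc 1 N).filter (fun t => t ≡ t₀ [MOD h]),
      (nearG a b c α β t).card : ℕ) : ℝ) ≤ C * N)
    (hFin : ∀ k : ℕ, 0 < k → ∀ r s : ℕ, ∀ M : LMean, M.E (fun N : ℕ =>
      |(CST a b c α β h t₀ k r s N : ℝ) - CST a b c α β h t₀ k (r + 1) (s + 1) N| / N) = 0) :
    ∃ κ : ℝ, 0 < κ ∧
      Tendsto (fun N : ℕ => (pairCount a b c h t₀ α β (fun _ _ => True) N : ℝ) / N) atTop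
        (𝓝 κ) ∧
      (∀ k : ℕ, Odd k → ∀ r : ℕ, (∀ ε : ℝ, 0 < ε → LogNull {N : ℕ | ε * N <
          |(pairCount a b c h t₀ α β (fun t _ =>
            ArithmeticFunction.cardFactors (a * (t : ℤ) ^ 2 + b * t + c).natAbs ≡ r [MOD k]) N : ℝ)
            - κ / k * N|}) ∧
        ∃ c' : ℝ, 0 < c' ∧ ∀ᶠ N : ℕ in atTop, c' * N ≤
          (pairCount a b c h t₀ α β (fun t _ =>
            ArithmeticFunction.cardFactors (a * (t : ℤ) ^ 2 + b * t + c).natAbs ≡ r [MOD k])
              N : ℝ)) ∧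
      (∀ k : ℕ, 0 < k → ∀ r s : ℕ, ∀ ε : ℝ, 0 < ε → LogNull {N : ℕ | ε * N <
        |(pairCount a b c h t₀ α β (fun t d => ArithmeticFunction.cardFactors d ≡ r [MOD k] ∧
          ArithmeticFunction.cardFactors ((a * (t : ℤ) ^ 2 + b * t + c).natAbs / d) ≡ s [MOD k])
            N : ℝ)
        - pairCount a b c h t₀ α β (fun t d => ArithmeticFunction.cardFactors d ≡ r + 1 [MOD k] ∧
          ArithmeticFunction.cardFactors ((a * (t : ℤ) ^ 2 + b * t + c).natAbs / d)
            ≡ s + 1 [MOD k]) N|}) := by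
  obtain ⟨κ, hκ, hlim⟩ := hMain
  obtain ⟨B, hB⟩ := hOn
  have hbd : ∀ P : ℕ → ℕ → Prop, Bdd (fun N : ℕ => (pairCount a b c h t₀ α β P N : ℝ) / N) := by
    intro P
    refine ⟨|B|, fun N => ?_⟩
    rw [abs_div, Nat.abs_cast, Nat.abs_cast]
    rcases Nat.eq_zero_or_pos N with h0 | h0
    · subst h0; simp
    · have hN : (0 : ℝ) < N := by exact_mod_cast h0
      rw [div_le_iff₀ hN]
      have h1 : (pairCount a b c h t₀ α β P N : ℝ) ≤
          ((∑ t ∈ (Finset.Icc 1 N).filter (fun t => t ≡ t₀ [MOD h]),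
            (nearG a b c α β t).card : ℕ) : ℝ) := by exact_mod_cast count_le hf P N
      refine h1.trans ((hB N).trans ?_)
      exact mul_le_mul_of_nonneg_right (le_abs_self B) hN.le
  have hlim' : Tendsto (fun N : ℕ => (pairCount a b c h t₀ α β (fun _ _ => True) N : ℝ) / N)
      atTop (𝓝 κ) := by
    simp only [count_true hf]
    exact hlim
  have hset : ∀ (F G : ℕ → ℝ) (ε : ℝ), 0 < ε → F 0 = 0 → G 0 = 0 →
      {N : ℕ | ε * N < |F N - G N|} = {N : ℕ | ε < |F N - G N| / N} := by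
    intro F G ε hε hF hG
    ext N
    simp only [Set.mem_ofPred_eq]
    rcases Nat.eq_zero_or_pos N with h0 | h0
    · subst h0
      simp [hF, hG]
      exact hε.le
    · have hN : (0 : ℝ) < N := by exact_mod_cast h0
      rw [lt_div_iff₀ hN]
  have hzero : ∀ P : ℕ → ℕ → Prop, ((pairCount a b c h t₀ α β P 0 : ℕ) : ℝ) = 0 := by
    intro P
    unfold pairCount
    simp
  refine ⟨κ, hκ, hlim', ?_, ?_⟩
  · intro k hk r
    have hk0 := hk.pos
    set C : ℕ → ℕ → ℝ := fun r N => (pairCount a b c h t₀ α β (fun t _ =>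
      ArithmeticFunction.cardFactors (a * (t : ℤ) ^ 2 + b * t + c).natAbs ≡ r [MOD k]) N : ℝ)
      with hC
    have hper : ∀ r s, r ≡ s [MOD k] → C r = C s := by
      intro r s hrs
      funext N
      rw [hC]
      simp only
      have : (fun (t : ℕ) (_ : ℕ) =>
          ArithmeticFunction.cardFactors (a * (t : ℤ) ^ 2 + b * t + c).natAbs ≡ r [MOD k]) =
          (fun (t : ℕ) (_ : ℕ) =>
          ArithmeticFunction.cardFactors (a * (t : ℤ) ^ 2 + b * t + c).natAbs ≡ s [MOD k]) := by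
        funext t _
        exact propext ⟨fun h1 => h1.trans hrs, fun h1 => h1.trans hrs.symm⟩
      rw [this]
    have hb : ∀ r, Bdd (fun N => C r N / N) := fun r => hbd _
    have hCSTb : ∀ r s, Bdd (fun N : ℕ => (CST a b c α β h t₀ k r s N : ℝ) / N) := by
      intro r s
      simp only [← count_CST hf]
      exact hbd _
    have e0 : ∀ (x y : ℝ) (N : ℕ), |x / N - y / N| = |x - y| / N := by
      intro x y N
      rw [← sub_div, abs_div, Nat.abs_cast]
    have hinv : ∀ (M : LMean) (r : ℕ), M.E (fun N => |C r N - C (r + 2) N| / N) = 0 := by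
      intro M r
      have e1 : ∀ N, C r N = ∑ i ∈ Finset.range k,
          (CST a b c α β h t₀ k i (r + (k - 1) * i) N : ℝ) := by
        intro N
        rw [hC]
        simp only
        rw [count_part hf hk0 r 0 (fun i => r + (k - 1) * i) (fun i => by
          obtain ⟨k', hk'⟩ : ∃ k', k = k' + 1 := ⟨k - 1, by omega⟩
          rw [hk']
          simp only [Nat.add_sub_cancel]
          have e2 : i + 0 + (r + k' * i) = r + (k' + 1) * i := by ring
          rw [e2]
          have h4 : r + (k' + 1) * i ≡ r + 0 [MOD k' + 1] :=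
            Nat.ModEq.add_left r ((Nat.modEq_zero_iff_dvd).2 (dvd_mul_right (k' + 1) i))
          simp)]
        push_cast
        rfl
      have e2 : ∀ N, C (r + 2) N = ∑ i ∈ Finset.range k,
          (CST a b c α β h t₀ k (i + 1) (r + (k - 1) * i + 1) N : ℝ) := by
        intro N
        rw [hC]
        simp only
        rw [count_part hf hk0 (r + 2) 1 (fun i => r + (k - 1) * i + 1) (fun i => by
          obtain ⟨k', hk'⟩ : ∃ k', k = k' + 1 := ⟨k - 1, by omega⟩
          rw [hk']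
          simp only [Nat.add_sub_cancel]
          have e2 : i + 1 + (r + k' * i + 1) = r + 2 + (k' + 1) * i := by ring
          rw [e2]
          have h4 : r + 2 + (k' + 1) * i ≡ r + 2 + 0 [MOD k' + 1] :=
            Nat.ModEq.add_left (r + 2) ((Nat.modEq_zero_iff_dvd).2 (dvd_mul_right (k' + 1) i))
          simp)]
        push_cast
        rfl
      have hdb : ∀ i, Bdd (fun N : ℕ => |(CST a b c α β h t₀ k i (r + (k - 1) * i) N : ℝ) -
          CST a b c α β h t₀ k (i + 1) (r + (k - 1) * i + 1) N| / N) := by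
        intro i
        have := ((hCSTb i (r + (k - 1) * i)).sub (hCSTb (i + 1) (r + (k - 1) * i + 1))).abs
        simpa only [e0] using this
      have hle : M.E (fun N => |C r N - C (r + 2) N| / N) ≤
          M.E (fun N : ℕ => ∑ i ∈ Finset.range k,
            |(CST a b c α β h t₀ k i (r + (k - 1) * i) N : ℝ) -
              CST a b c α β h t₀ k (i + 1) (r + (k - 1) * i + 1) N| / N) := by
        refine M.mono ?_ (Bdd.sum _ _ fun i _ => hdb i) fun N => ?_
        · have := ((hb r).sub (hb (r + 2))).abs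
          simpa only [e0] using this
        · rw [e1 N, e2 N, ← Finset.sum_sub_distrib, ← Finset.sum_div]
          exact div_le_div_of_nonneg_right (Finset.abs_sum_le_sum_abs _ _) (Nat.cast_nonneg N)
      rw [M.sum _ _ fun i _ => hdb i] at hle
      have h0 : ∀ i ∈ Finset.range k, M.E (fun N : ℕ =>
          |(CST a b c α β h t₀ k i (r + (k - 1) * i) N : ℝ) -
            CST a b c α β h t₀ k (i + 1) (r + (k - 1) * i + 1) N| / N) = 0 := fun i _ =>
        hFin k hk0 i (r + (k - 1) * i) M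
      rw [Finset.sum_congr rfl h0, Finset.sum_const_zero] at hle
      refine le_antisymm hle (M.nonneg _ ?_ fun N => by positivity)
      have := ((hb r).sub (hb (r + 2))).abs
      simpa only [e0] using this
    have htot : Tendsto (fun N : ℕ => (∑ j ∈ Finset.range k, C j N) / N) atTop (𝓝 κ) := by
      refine hlim'.congr fun N => ?_
      rw [← count_total hf hk0 N, hC]
      push_cast
      rfl
    have hmean := fun M => odd_core hk C hper hb hinv htot M r
    have hFb : Bdd (fun N : ℕ => |C r N / N - κ / k|) := ((hb r).sub (Bdd.const _)).abs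
    have hLN : ∀ ε : ℝ, 0 < ε → LogNull {N : ℕ | ε < |C r N / N - κ / k|} := fun ε hε =>
      logNull_of hU hFb (fun N => abs_nonneg _) hmean hε
    refine ⟨fun ε hε => ?_, ?_⟩
    · have hs := hset (C r) (fun N => κ / k * N) ε hε (hzero _) (by simp)
      rw [hs]
      refine LogNull.mono (hLN ε hε) fun N hN => ?_
      simp only [Set.mem_ofPred_eq] at hN ⊢
      rcases Nat.eq_zero_or_pos N with h0 | h0
      · subst h0
        simp at hN
        linarith
      · have hNp : (0 : ℝ) < N := by exact_mod_cast h0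
        have e3 : C r N / N - κ / k = (C r N - κ / k * N) / N := by
          field_simp
        rw [e3, abs_div, Nat.abs_cast]
        exact hN
    · have hkp : (0 : ℝ) < κ / k := div_pos hκ (by exact_mod_cast hk0)
      have hmono : Monotone (C r) := by
        intro M N hMN
        rw [hC]
        simp only
        exact_mod_cast count_mono _ hMN
      exact lower_all hmono hkp (hLN (κ / k / 2) (by positivity))
  · intro k hk r s ε hε
    simp only [count_CST hf]
    have hb : ∀ r s, Bdd (fun N : ℕ => (CST a b c α β h t₀ k r s N : ℝ) / N) := by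
      intro r s
      simp only [← count_CST hf]
      exact hbd _
    have hz : ∀ r s, (CST a b c α β h t₀ k r s 0 : ℝ) = 0 := by
      intro r s
      rw [← count_CST hf]
      exact hzero _
    have hs := hset (fun N => (CST a b c α β h t₀ k r s N : ℝ))
      (fun N => (CST a b c α β h t₀ k (r + 1) (s + 1) N : ℝ)) ε hε (hz _ _) (hz _ _)
    rw [hs]
    refine logNull_of hU ?_ (fun N => by positivity)
      (fun M => hFin k hk r s M) hε
    have h1 := ((hb r s).sub (hb (r + 1) (s + 1))).abs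
    have e0 : ∀ (x y : ℝ) (N : ℕ), |x / N - y / N| = |x - y| / N := by
      intro x y N
      rw [← sub_div, abs_div, Nat.abs_cast]
    simpa only [e0] using h1

open EndH20 EndJ90 in
/-- The final statement in plain terms. -/
theorem endHJ (hU : StMeanU) (hMean : StMean) (a b c : ℤ) (hf : ∀ t : ℕ, fv a b c t ≠ 0)
    (h t₀ : ℕ) (α β : ℝ)
    (hMain : ∃ κ : ℝ, 0 < κ ∧
      Tendsto (fun N : ℕ => (CST a b c α β h t₀ 1 0 0 N : ℝ) / N) atTop (𝓝 κ))
    (hO : ∃ C : ℝ, ∀ N : ℕ, ((∑ t ∈ (Finset.Icc 1 N).filter (fun t => t ≡ t₀ [MOD h]),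
      (nearG a b c α β t).card : ℕ) : ℝ) ≤ C * N) (hTw : ∀ (z1 z2 : ℂ) (k : ℕ), 0 < k → z1 ^ k = 1 → z2 ^ k = 1 →
      (z1 ≠ 1 ∨ z2 ≠ 1) → ∀ M : LMean,
      M.E (fun N : ℕ => ‖TwN a b c α β h t₀ z1 z2 N‖ / N) = 0) :
    ∃ κ : ℝ, 0 < κ ∧
      Tendsto (fun N : ℕ => (pairCount a b c h t₀ α β (fun _ _ => True) N : ℝ) / N) atTop
        (𝓝 κ) ∧
      ∀ k : ℕ, 0 < k →
        (∀ r s : ℕ,
          (∀ ε : ℝ, 0 < ε → LogNull {N | ε < |(pairCount a b c h t₀ α β (fun t d =>
            ArithmeticFunction.cardFactors d ≡ r [MOD k] ∧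
            ArithmeticFunction.cardFactors ((a * (t : ℤ) ^ 2 + b * t + c).natAbs / d) ≡ s
              [MOD k]) N : ℝ) / N - κ / k ^ 2|}) ∧
          (∃ η : ℝ, 0 < η ∧ ∀ᶠ N : ℕ in atTop, η * N ≤ pairCount a b c h t₀ α β (fun t d =>
            ArithmeticFunction.cardFactors d ≡ r [MOD k] ∧
            ArithmeticFunction.cardFactors ((a * (t : ℤ) ^ 2 + b * t + c).natAbs / d) ≡ s
              [MOD k]) N) ∧
          Tendsto (fun X : ℕ => pairSum a b c h t₀ α β (fun t d =>
            ArithmeticFunction.cardFactors d ≡ r [MOD k] ∧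
            ArithmeticFunction.cardFactors ((a * (t : ℤ) ^ 2 + b * t + c).natAbs / d) ≡ s
              [MOD k]) X / Real.log X) atTop (𝓝 (κ / k ^ 2))) ∧
        (∀ r : ℕ,
          (∀ ε : ℝ, 0 < ε → LogNull {N | ε < |(pairCount a b c h t₀ α β (fun t _ =>
            ArithmeticFunction.cardFactors (a * (t : ℤ) ^ 2 + b * t + c).natAbs ≡ r [MOD k])
              N : ℝ) / N - κ / k|}) ∧
          (∃ η : ℝ, 0 < η ∧ ∀ᶠ N : ℕ in atTop, η * N ≤ pairCount a b c h t₀ α β (fun t _ =>
            ArithmeticFunction.cardFactors (a * (t : ℤ) ^ 2 + b * t + c).natAbs ≡ r [MOD k])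
              N) ∧
          Tendsto (fun X : ℕ => pairSum a b c h t₀ α β (fun t _ =>
            ArithmeticFunction.cardFactors (a * (t : ℤ) ^ 2 + b * t + c).natAbs ≡ r [MOD k])
              X / Real.log X) atTop (𝓝 (κ / k))) := by
  obtain ⟨κ, hκ, hlim, h1, h2⟩ := EndH20.finJ t₀ hMain hO hTw
  have e0 : ∀ N : ℕ, pairCount a b c h t₀ α β (fun _ _ => True) N =
      CST a b c α β h t₀ 1 0 0 N := by
    intro N
    unfold pairCount CST
    apply Finset.sum_congr rfl
    intro t _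
    rw [EndH20.ncard_eq (hf t) α β (fun _ => True)]
    congr 1
    apply Finset.filter_congr
    intro d _
    exact ⟨fun _ => ⟨Nat.modEq_one, Nat.modEq_one⟩, fun _ => trivial⟩
  refine ⟨κ, hκ, by simpa only [e0] using hlim, fun k hk => ⟨fun r s => ?_, fun r => ?_⟩⟩
  · have hk' : (0 : ℝ) < k := by exact_mod_cast hk
    exact final hU hMean a b c h t₀ α β _ (CST a b c α β h t₀ k r s) (fun N => by
      unfold pairCount CST
      apply Finset.sum_congr rfl
      intro t _
      exact EndH20.ncard_eq (hf t) α β (fun d => ArithmeticFunction.cardFactors d ≡ r [MOD k] ∧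
        ArithmeticFunction.cardFactors ((a * (t : ℤ) ^ 2 + b * t + c).natAbs / d) ≡ s [MOD k]))
      (by positivity) (h1 k hk r s).1 (h1 k hk r s).2
  · have hk' : (0 : ℝ) < k := by exact_mod_cast hk
    exact final hU hMean a b c h t₀ α β _ (CS a b c α β h t₀ k r) (fun N => by
      unfold pairCount CS
      apply Finset.sum_congr rfl
      intro t _
      exact EndH20.ncard_eq (hf t) α β (fun _ =>
        ArithmeticFunction.cardFactors (a * (t : ℤ) ^ 2 + b * t + c).natAbs ≡ r [MOD k]))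
      (by positivity) (h2 k hk r).1 (h2 k hk r).2


end Pool.Agent.Lib.MP_a17b09_nt.HY
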