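import Pool.Agent.Lib.MP_a17b09_nt.HY.APc25

/-!
Project HY (MP_a17b09): (A3), approximation of the sector sum by sums for definite forms,
module StAP: conclusion.
-/

set_option autoImplicit false

open Filter Topology Finset

namespace Pool.Agent.Lib.MP_a17b09_nt.HY

open Pool.Agent.Lib.MP_a17b09_nt.CH

namespace AP25

/-! ### Sums -/

theorem tsum_bd {D : V × V → ℂ} {S : Set V} {R : V → Set V} {C θ : ℝ} (hS : S.Finite)
    (hR : ∀ v ∈ S, (R v).Finite ∧ ((R v).ncard : ℝ) ≤ C) (hθ : 0 ≤ θ)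
    (hD : ∀ f, D f ≠ 0 → f.1 ∈ S ∧ f.2 ∈ R f.1) (hb : ∀ f, ‖D f‖ ≤ θ) :
    (Function.support D).Finite ∧ ‖∑' f, D f‖ ≤ S.ncard * C * θ := by
  classical
  set s := hS.toFinset with hs
  set R' : V → Finset V := fun v => if h : (R v).Finite then h.toFinset else ∅ with hR'
  have hR1 : ∀ v ∈ S, ∀ w, w ∈ R' v ↔ w ∈ R v := by
    intro v hv w
    rw [hR']
    simp only [dif_pos (hR v hv).1, Set.Finite.mem_toFinset]
  have hR2 : ∀ v ∈ S, ((R' v).card : ℝ) ≤ C := by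
    intro v hv
    have h1 := (hR v hv).2
    rw [Set.ncard_eq_toFinset_card (R v) (hR v hv).1] at h1
    rw [hR']
    simp only [dif_pos (hR v hv).1]
    exact h1
  set t : Finset (V × V) := s.biUnion fun v => (R' v).image (fun w => (v, w)) with ht
  have hsub : Function.support D ⊆ ↑t := by
    intro f hf
    obtain ⟨h1, h2⟩ := hD f hf
    rw [ht, Finset.mem_coe, Finset.mem_biUnion]
    refine ⟨f.1, hS.mem_toFinset.2 h1, ?_⟩
    rw [Finset.mem_image]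
    exact ⟨f.2, (hR1 _ h1 _).2 h2, rfl⟩
  refine ⟨t.finite_toSet.subset hsub, ?_⟩
  have hts : ∑' f, D f = ∑ f ∈ t, D f := by
    apply tsum_eq_sum
    intro f hf
    by_contra h
    exact hf (hsub h)
  have hcard : (t.card : ℝ) ≤ S.ncard * C := by
    have h1 : t.card ≤ ∑ v ∈ s, (R' v).card := by
      refine Finset.card_biUnion_le.trans (Finset.sum_le_sum fun v _ => Finset.card_image_le)
    have h2 : ∑ v ∈ s, ((R' v).card : ℝ) ≤ ∑ v ∈ s, C :=
      Finset.sum_le_sum fun v hv => hR2 v (hS.mem_toFinset.1 hv)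
    rw [Finset.sum_const, nsmul_eq_mul] at h2
    rw [Set.ncard_eq_toFinset_card S hS]
    refine le_trans ?_ h2
    exact_mod_cast h1
  rw [hts]
  calc ‖∑ f ∈ t, D f‖ ≤ ∑ f ∈ t, ‖D f‖ := norm_sum_le _ _
    _ ≤ ∑ f ∈ t, θ := Finset.sum_le_sum fun f _ => hb f
    _ = t.card * θ := by rw [Finset.sum_const, nsmul_eq_mul]
    _ ≤ S.ncard * C * θ := mul_le_mul_of_nonneg_right hcard hθ

/-- one term of the sum for a definite form -/
noncomputable def dt (F : Form) (h : ℝ → ℝ → ℝ) (U : V → V → ℂ) (k : ℤ) (x : ℝ)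
    (f : V × V) : ℂ := if Prim f.1 ∧ Prim f.2 then C27.tm F h U k x f.1 f.2 else 0

theorem Dk_tsum {F : Form} (hF : F.Pos) {δ : ℝ} {h : ℝ → ℝ → ℝ} (hδ : 0 < δ) (hh : Test δ h)
    (U : V → V → ℂ) (k : ℤ) {x : ℝ} (hx : 0 < x) :
    (Function.support (dt F h U k x)).Finite ∧
      Dk F h U k x = (1 / (x : ℂ)) * ∑' f, dt F h U k x f := by
  have hsub : Function.support (dt F h U k x) ⊆ ↑(F.pball ⌊x⌋₊ ×ˢ F.pball ⌊x⌋₊) := by
    intro f hf
    rw [Function.mem_support] at hf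
    unfold dt at hf
    split_ifs at hf with hp
    · have h1 := C27.tm_ne hδ hh hx hf
      rw [Finset.mem_coe, Finset.mem_product, C27.mem_pball' hF hx.le, C27.mem_pball' hF hx.le]
      exact ⟨⟨h1.2.2.2.1, hp.1⟩, h1.2.2.2.2.2, hp.2⟩
    · exact absurd rfl hf
  refine ⟨(Finset.finite_toSet _).subset hsub, ?_⟩
  rw [tsum_eq_sum (s := F.pball ⌊x⌋₊ ×ˢ F.pball ⌊x⌋₊) (fun f hf => by
    by_contra h
    exact hf (hsub h)), Finset.sum_product]
  unfold Dk
  congr 1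
  refine Finset.sum_congr rfl fun v hv => Finset.sum_congr rfl fun w hw => ?_
  have h1 := ((C27.mem_pball' hF hx.le).1 hv).2
  have h2 := ((C27.mem_pball' hF hx.le).1 hw).2
  have h3 : dt F h U k x (v, w) = C27.tm F h U k x v w := if_pos ⟨h1, h2⟩
  rw [h3]
  rfl

/-- the difference, term by term -/
theorem pt {Q : Form} {T : ℝ} {h : ℝ → ℝ → ℝ} {k : ℤ} {n x θ : ℝ} {r : ℕ} (F : Fin r → Form)
    (cell : Fin r → V → Prop) (hcell : ∀ v, Sec Q T v → ∃ c, cell c v ∧ ∀ c', cell c' v → c' = c)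
    (hcs : ∀ c v, cell c v → Sec Q T v) (P : V → V → Prop) (hθ : 0 ≤ θ)
    (hpw : ∀ c v w, cell c v → Prim v → wd v w = k →
      ((Cn Q w ∧ h (Q.nr n v) (Q.nr n w) ≠ 0) ∨
        (0 < (F c).B v w ∧ h ((F c).nr x v) ((F c).nr x w) ≠ 0)) →
      Cn Q w ∧ 0 < (F c).B v w ∧ P v w ∧
        |h (Q.nr n v) (Q.nr n w) - h ((F c).nr x v) ((F c).nr x w)| ≤ θ)
    (U : V → V → ℂ) (hU : ∀ v v', ‖U v v'‖ ≤ 1) (f : V × V) :
    ‖hkk Q T h U k n f - ∑ c, dt (F c) h (rcell (cell c) U) k x f‖ ≤ θ ∧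
      (hkk Q T h U k n f - ∑ c, dt (F c) h (rcell (cell c) U) k x f ≠ 0 →
        U f.1 f.2 ≠ 0 ∧ Sec Q T f.1 ∧ Prim f.1 ∧ wd f.1 f.2 = k ∧ Cn Q f.2 ∧ P f.1 f.2) := by
  classical
  have hz : ∀ c, ¬ cell c f.1 → dt (F c) h (rcell (cell c) U) k x f = 0 := by
    intro c hc
    unfold dt C27.tm rcell
    rw [if_neg hc]
    simp
  suffices hs : hkk Q T h U k n f - ∑ c, dt (F c) h (rcell (cell c) U) k x f ≠ 0 →
      ‖hkk Q T h U k n f - ∑ c, dt (F c) h (rcell (cell c) U) k x f‖ ≤ θ ∧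
        U f.1 f.2 ≠ 0 ∧ Sec Q T f.1 ∧ Prim f.1 ∧ wd f.1 f.2 = k ∧ Cn Q f.2 ∧ P f.1 f.2 by
    refine ⟨?_, fun h0 => (hs h0).2⟩
    by_cases h0 : hkk Q T h U k n f - ∑ c, dt (F c) h (rcell (cell c) U) k x f = 0
    · rw [h0, norm_zero]
      exact hθ
    · exact (hs h0).1
  intro hne
  by_cases hS : Sec Q T f.1
  · obtain ⟨c0, hc0, huniq⟩ := hcell f.1 hS
    have hsum : ∑ c, dt (F c) h (rcell (cell c) U) k x f =
        dt (F c0) h (rcell (cell c0) U) k x f := by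
      apply Finset.sum_eq_single c0
      · intro c _ hc
        exact hz c fun h1 => hc (huniq c h1)
      · intro h1
        exact absurd (Finset.mem_univ _) h1
    rw [hsum] at hne ⊢
    by_cases hP : Prim f.1 ∧ Prim f.2 ∧ wd f.1 f.2 = k
    · obtain ⟨p1, p2, p3⟩ := hP
      have e1 : hkk Q T h U k n f = if Cn Q f.2 then
          ((h (Q.nr n f.1) (Q.nr n f.2) : ℝ) : ℂ) * U f.1 f.2 else 0 := by
        unfold hkk
        by_cases hC : Cn Q f.2
        · rw [if_pos ⟨p1, p2, hS, hC, p3⟩, if_pos hC]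
        · rw [if_neg fun h1 => hC h1.2.2.2.1, if_neg hC]
      have e2 : dt (F c0) h (rcell (cell c0) U) k x f = if 0 < (F c0).B f.1 f.2 then
          ((h ((F c0).nr x f.1) ((F c0).nr x f.2) : ℝ) : ℂ) * U f.1 f.2 else 0 := by
        unfold dt C27.tm rcell
        rw [if_pos ⟨p1, p2⟩, if_pos hc0]
        by_cases hB : 0 < (F c0).B f.1 f.2
        · rw [if_pos ⟨p3, hB⟩, if_pos hB]
        · rw [if_neg fun h1 => hB h1.2, if_neg hB]
      by_cases hor : (Cn Q f.2 ∧ h (Q.nr n f.1) (Q.nr n f.2) ≠ 0) ∨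
        (0 < (F c0).B f.1 f.2 ∧ h ((F c0).nr x f.1) ((F c0).nr x f.2) ≠ 0)
      · obtain ⟨a1, a2, a3, a4⟩ := hpw c0 f.1 f.2 hc0 p1 p3 hor
        rw [e1, e2, if_pos a1, if_pos a2, ← sub_mul, ← Complex.ofReal_sub] at hne ⊢
        refine ⟨?_, ?_, hS, p1, p3, a1, a3⟩
        · rw [norm_mul, Complex.norm_real, Real.norm_eq_abs]
          calc _ ≤ θ * 1 := mul_le_mul a4 (hU _ _) (norm_nonneg _) hθ
            _ = θ := mul_one θ
        · intro h1
          rw [h1, mul_zero] at hne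
          exact hne rfl
      · exfalso
        apply hne
        push Not at hor
        rw [e1, e2]
        have g1 : (if Cn Q f.2 then
            ((h (Q.nr n f.1) (Q.nr n f.2) : ℝ) : ℂ) * U f.1 f.2 else 0) = 0 := by
          split_ifs with h1
          · rw [hor.1 h1]; simp
          · rfl
        have g2 : (if 0 < (F c0).B f.1 f.2 then
            ((h ((F c0).nr x f.1) ((F c0).nr x f.2) : ℝ) : ℂ) * U f.1 f.2 else 0) = 0 := by
          split_ifs with h1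
          · rw [hor.2 h1]; simp
          · rfl
        rw [g1, g2, sub_zero]
    · exfalso
      apply hne
      have g1 : hkk Q T h U k n f = 0 := by
        unfold hkk
        rw [if_neg fun h1 => hP ⟨h1.1, h1.2.1, h1.2.2.2.2⟩]
      have g2 : dt (F c0) h (rcell (cell c0) U) k x f = 0 := by
        unfold dt C27.tm
        split_ifs with h1 h2
        · exact absurd ⟨h1.1, h1.2, h2.1⟩ hP
        · rfl
        · rfl
      rw [g1, g2, sub_zero]
  · exfalso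
    apply hne
    have g1 : hkk Q T h U k n f = 0 := by
      unfold hkk
      rw [if_neg fun h1 => hS h1.2.2.1]
    rw [g1, Finset.sum_eq_zero fun c _ => hz c fun h1 => hS (hcs c _ h1), sub_zero]

/-- the difference of the sums -/
theorem total {Q : Form} {T : ℝ} (hT : 0 < T) {h : ℝ → ℝ → ℝ} {δ : ℝ} (hδ : 0 < δ)
    (hh : Test δ h) {k : ℤ} {N n : ℕ} (hN : 0 < N) (hn : 0 < n) {θ C : ℝ} {r : ℕ}
    (F : Fin r → Form) (hF : ∀ c, (F c).Pos)
    (cell : Fin r → V → Prop) (hθ : 0 ≤ θ) (hC : 0 ≤ C) (U : V → V → ℂ)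
    (L : V → Prop) (hL : ∀ v w, U v w ≠ 0 → L v)
    (hD : ∀ f : V × V,
      ‖hkk Q T h U k n f - ∑ c, dt (F c) h (rcell (cell c) U) k ((N : ℝ) * n) f‖ ≤ θ ∧
      (hkk Q T h U k n f - ∑ c, dt (F c) h (rcell (cell c) U) k ((N : ℝ) * n) f ≠ 0 →
        U f.1 f.2 ≠ 0 ∧ Sec Q T f.1 ∧ Prim f.1 ∧ wd f.1 f.2 = k ∧ Cn Q f.2 ∧
        ((δ / 2) ^ 2 * (2 * n) ≤ (Q.q f.1 : ℝ) ∧ (Q.q f.1 : ℝ) ≤ 2 * n ∧
          (Q.q f.2 : ℝ) ≤ 2 * n)))
    (hS : {v : V | Sec Q T v ∧ (Q.q v : ℝ) ≤ 2 * n}.Finite)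
    (hR : ∀ v : V, Prim v → Cn Q v → (δ / 2) ^ 2 * (2 * n) ≤ (Q.q v : ℝ) →
      {v' : V | Cn Q v' ∧ (Q.q v' : ℝ) ≤ 2 * n ∧ wd v v' = k}.Finite ∧
      ({v' : V | Cn Q v' ∧ (Q.q v' : ℝ) ≤ 2 * n ∧ wd v v' = k}.ncard : ℝ) ≤ C) :
    ‖Hk Q T h U k n - ((N : ℂ) / (T : ℂ)) *
      ∑ c, Dk (F c) h (rcell (cell c) U) k ((N : ℝ) * n)‖ ≤
      {v : V | Sec Q T v ∧ L v ∧ (Q.q v : ℝ) ≤ 2 * n}.ncard * C * θ / (n * T) := by
  have hn0 : (0 : ℝ) < n := by exact_mod_cast hn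
  have hN0 : (0 : ℝ) < N := by exact_mod_cast hN
  have hx : 0 < (N : ℝ) * n := by positivity
  set D : V × V → ℂ := fun f =>
    hkk Q T h U k n f - ∑ c, dt (F c) h (rcell (cell c) U) k ((N : ℝ) * n) f with hDd
  set S : Set V := {v : V | Sec Q T v ∧ L v ∧ (Q.q v : ℝ) ≤ 2 * n ∧ Prim v ∧
    (δ / 2) ^ 2 * (2 * n) ≤ (Q.q v : ℝ)} with hSd
  have hSL : {v : V | Sec Q T v ∧ L v ∧ (Q.q v : ℝ) ≤ 2 * n}.Finite :=
    hS.subset fun v hv => ⟨hv.1, hv.2.2⟩
  have hSS : S ⊆ {v : V | Sec Q T v ∧ L v ∧ (Q.q v : ℝ) ≤ 2 * n} :=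
    fun v hv => ⟨hv.1, hv.2.1, hv.2.2.1⟩
  have hb := tsum_bd (D := D) (S := S)
    (R := fun v => {v' : V | Cn Q v' ∧ (Q.q v' : ℝ) ≤ 2 * n ∧ wd v v' = k}) (C := C) (θ := θ)
    (hSL.subset hSS) (fun v hv => hR v hv.2.2.2.1 hv.1.1 hv.2.2.2.2) hθ ?_ (fun f => (hD f).1)
  · obtain ⟨hfin, hbd⟩ := hb
    have hdk := fun c => Dk_tsum (hF c) hδ hh (rcell (cell c) U) k hx
    have hsD : Summable D := summable_of_hasFiniteSupport hfin
    have hsd : ∀ c ∈ (Finset.univ : Finset (Fin r)),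
        Summable (dt (F c) h (rcell (cell c) U) k ((N : ℝ) * n)) :=
      fun c _ => summable_of_hasFiniteSupport (hdk c).1
    have hsum : ∑' f, hkk Q T h U k n f =
        ∑' f, D f + ∑ c, ∑' f, dt (F c) h (rcell (cell c) U) k ((N : ℝ) * n) f := by
      rw [← Summable.tsum_finsetSum hsd, ← Summable.tsum_add hsD (summable_sum hsd)]
      congr 1
      funext f
      rw [hDd]
      ring
    have e1 : Hk Q T h U k n - ((N : ℂ) / (T : ℂ)) *
        ∑ c, Dk (F c) h (rcell (cell c) U) k ((N : ℝ) * n) =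
        (1 / ((n * T : ℝ) : ℂ)) * ∑' f, D f := by
      unfold Hk
      rw [hsum]
      have e2 : ∑ c, Dk (F c) h (rcell (cell c) U) k ((N : ℝ) * n) =
          (1 / (((N : ℝ) * n : ℝ) : ℂ)) *
            ∑ c, ∑' f, dt (F c) h (rcell (cell c) U) k ((N : ℝ) * n) f := by
        rw [Finset.mul_sum]
        exact Finset.sum_congr rfl fun c _ => (hdk c).2
      rw [e2]
      have c1 : (N : ℂ) ≠ 0 := by exact_mod_cast hN.ne'
      have c2 : (n : ℂ) ≠ 0 := by exact_mod_cast hn.ne'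
      have c3 : (T : ℂ) ≠ 0 := by exact_mod_cast hT.ne'
      push_cast
      field_simp
      ring
    rw [e1, norm_mul, norm_div, norm_one, Complex.norm_real, Real.norm_eq_abs,
      abs_of_pos (by positivity : (0 : ℝ) < n * T), one_div, inv_mul_eq_div]
    apply div_le_div_of_nonneg_right _ (by positivity)
    refine hbd.trans (mul_le_mul_of_nonneg_right (mul_le_mul_of_nonneg_right ?_ hC) hθ)
    exact_mod_cast Set.ncard_le_ncard hSS hSL
  · intro f hf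
    obtain ⟨a1, a2, a3, a4, a5, a6, a7, a8⟩ := (hD f).2 hf
    exact ⟨⟨a2, hL _ _ a1, a7, a3, a6⟩, a5, a8, a4⟩

/-- the cells -/
theorem cells (Q : Form) {T st : ℝ} (hst : 0 < st) {r : ℕ} (hr : T ≤ r * st) (v : V)
    (hv : Sec Q T v) : ∃ c : Fin r, (Sec Q T v ∧ (c : ℝ) * st ≤ ps Q v ∧ ps Q v < (c : ℝ) * st + st) ∧
      ∀ c' : Fin r, (Sec Q T v ∧ (c' : ℝ) * st ≤ ps Q v ∧ ps Q v < (c' : ℝ) * st + st) → c' = c := by
  have h0 : 0 ≤ ps Q v / st := div_nonneg hv.2.1 hst.le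
  have h1 : ⌊ps Q v / st⌋₊ < r := by
    rw [Nat.floor_lt h0, div_lt_iff₀ hst]
    exact hv.2.2.trans_le hr
  refine ⟨⟨⌊ps Q v / st⌋₊, h1⟩, ⟨hv, ?_, ?_⟩, ?_⟩
  · have := Nat.floor_le h0
    rwa [le_div_iff₀ hst] at this
  · have := Nat.lt_floor_add_one (ps Q v / st)
    rw [div_lt_iff₀ hst] at this
    show ps Q v < ((⌊ps Q v / st⌋₊ : ℕ) : ℝ) * st + st
    linarith
  · rintro c' ⟨-, h2, h3⟩
    apply Fin.ext
    show (c' : ℕ) = ⌊ps Q v / st⌋₊
    symm
    rw [Nat.floor_eq_iff h0]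
    constructor
    · rwa [le_div_iff₀ hst]
    · rw [div_lt_iff₀ hst]
      linarith

end AP25

/-- (A3) approximation of the sector sum by sums for definite forms -/
theorem stAP_25 (h1 : StHcnt) : StAP := by
  intro d Q hQ T hT δ' h hδ' hh' ε hε
  -- we may take `δ ≤ 1`
  set δ := min δ' 1 with hδd
  have hδ : 0 < δ := lt_min hδ' one_pos
  have hδ1 : δ ≤ 1 := min_le_right _ _
  have hh : Test δ h := by
    refine ⟨hh'.1, fun x y hxy => ?_⟩
    obtain ⟨a1, a2, a3, a4⟩ := hh'.2 x y hxy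
    exact ⟨(min_le_left _ _).trans a1, a2, (min_le_left _ _).trans a3, a4⟩
  obtain ⟨Ch, hCh0, hCh, -⟩ := C27.test_bd hδ hh
  obtain ⟨C, hC0, hc1, hc2, hc3⟩ := h1 d Q hQ T hT (δ / 2) (by positivity)
  -- the constants
  set θ0 := ε * T / (3 * C ^ 2 + 1) with hθ0
  have hθ0p : 0 < θ0 := by positivity
  set η := min (δ ^ 2 / 18) (δ ^ 3 * θ0 / (11 * (Ch + 1))) with hηd
  have hη : 0 < η := lt_min (by positivity) (by positivity)
  have hη1 : 18 * η ≤ δ ^ 2 := by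
    have := min_le_left (δ ^ 2 / 18) (δ ^ 3 * θ0 / (11 * (Ch + 1)))
    linarith
  have hθ : Ch * (11 * η / δ ^ 3) ≤ θ0 := by
    have h2 := min_le_right (δ ^ 2 / 18) (δ ^ 3 * θ0 / (11 * (Ch + 1)))
    rw [← hηd, le_div_iff₀ (by positivity)] at h2
    have h3 : 11 * η / δ ^ 3 * (Ch + 1) ≤ θ0 := by
      rw [div_mul_eq_mul_div, div_le_iff₀ (by positivity)]
      linarith
    have h4 : 0 ≤ 11 * η / δ ^ 3 := by positivity
    linarith
  set θ := Ch * (11 * η / δ ^ 3) with hθd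
  have hθp : 0 ≤ θ := by positivity
  -- the cells
  set st := Real.log (1 + η) / 2 with hst
  have hst0 : 0 < st := by
    have : 0 < Real.log (1 + η) := Real.log_pos (by linarith)
    positivity
  have hexp : Real.exp (2 * st) ≤ 1 + η := by
    rw [hst, mul_div_cancel₀ _ two_ne_zero, Real.exp_log (by linarith)]
  set r := ⌈T / st⌉₊ with hr
  have hrT : T ≤ r * st := by
    rw [← div_le_iff₀ hst0]
    exact Nat.le_ceil _
  set cell : Fin r → V → Prop := fun c v =>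
    Sec Q T v ∧ (c : ℝ) * st ≤ ps Q v ∧ ps Q v < (c : ℝ) * st + st with hcell
  obtain ⟨N0, hN0⟩ := AP25.FF_cell hQ T hη
  have hPos : ∀ᶠ N : ℕ in atTop, ∀ c : Fin r,
      (AP25.FF d Q (Real.exp (2 * ((c : ℝ) * st))) N).Pos :=
    Filter.eventually_all.2 fun c => AP25.FF_pos hQ (Real.exp_pos _)
  obtain ⟨N, hNP, hNN⟩ := (hPos.and (eventually_ge_atTop (max 1 N0))).exists
  have hN : 0 < N := lt_of_lt_of_le Nat.one_pos ((le_max_left _ _).trans hNN)
  set F : Fin r → Form := fun c => AP25.FF d Q (Real.exp (2 * ((c : ℝ) * st))) N with hF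
  have hFP : ∀ c, (F c).Pos := hNP
  refine ⟨N, r, F, cell, hN, hFP, ?_⟩
  have hcst := AP25.cells Q hst0 hrT
  have hcs : ∀ c v, cell c v → Sec Q T v := fun c v hv => hv.1
  -- the main estimate
  have main : ∀ k : ℤ, ∃ n0 : ℕ, 1 ≤ n0 ∧ ∀ n : ℕ, n0 ≤ n → ∀ (U : V → V → ℂ) (L : V → Prop),
      (∀ v v', ‖U v v'‖ ≤ 1) → (∀ v w, U v w ≠ 0 → L v) →
      ‖Hk Q T h U k n - ((N : ℂ) / (T : ℂ)) *
        ∑ c, Dk (F c) h (rcell (cell c) U) k ((N : ℝ) * n)‖ ≤
        {v : V | Sec Q T v ∧ L v ∧ (Q.q v : ℝ) ≤ 2 * n}.ncard * C * θ / (n * T) := by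
    intro k
    have hpw := fun c => AP25.pw hQ (hFP c) hN hδ hδ1 hη hη1 hh.2 hCh0 hCh k
    choose n1 hn1 using hpw
    refine ⟨max 1 (Finset.univ.sup n1), le_max_left _ _, ?_⟩
    intro n hn U L hU hL
    have hn0 : 0 < n := lt_of_lt_of_le Nat.one_pos ((le_max_left _ _).trans hn)
    have hnr : (1 : ℝ) ≤ n := by exact_mod_cast hn0
    have hnc : ∀ c, n1 c ≤ n := fun c =>
      (Finset.le_sup (f := n1) (Finset.mem_univ c)).trans ((le_max_right _ _).trans hn)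
    refine AP25.total hT hδ hh hN hn0 F hFP cell hθp hC0.le U L hL ?_ ?_ ?_
    · intro f
      refine AP25.pt F cell hcst hcs (fun v w => (δ / 2) ^ 2 * (2 * n) ≤ (Q.q v : ℝ) ∧
        (Q.q v : ℝ) ≤ 2 * n ∧ (Q.q w : ℝ) ≤ 2 * n) hθp ?_ U hU f
      intro c v w hcv hpv hwd hor
      obtain ⟨hsec, hc1, hc2⟩ := hcv
      have hnear := hN0 N ((le_max_right _ _).trans hNN) ((c : ℝ) * st) st hexp v hsec hc1 hc2
      obtain ⟨a1, a2, a3, a4, a5, a6⟩ := hn1 c n (hnc c) v w hsec.1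
        (AP25.hY_nonneg hsec.1 hsec.2.1) hnear hwd hor
      exact ⟨a1, a2, ⟨a3, a4, a5⟩, a6⟩
    · exact (hc1 (2 * n) (by linarith)).1
    · intro v hv1 hv2 hv3
      exact hc3 (2 * n) v k (by linarith) hv1 hv2 hv3
  constructor
  · intro k
    obtain ⟨n0, hn01, hn0⟩ := main k
    refine ⟨n0, fun n hn U hU => ?_⟩
    have hnr : (1 : ℝ) ≤ n := by exact_mod_cast hn01.trans hn
    refine (hn0 n hn U (fun _ => True) hU (fun _ _ _ => trivial)).trans ?_
    have h2 := (hc1 (2 * n) (by linarith)).2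
    have h3 : {v : V | Sec Q T v ∧ True ∧ (Q.q v : ℝ) ≤ 2 * n} =
        {v : V | Sec Q T v ∧ (Q.q v : ℝ) ≤ 2 * n} := by
      ext v
      simp
    rw [h3, div_le_iff₀ (by positivity)]
    have h4 : ({v : V | Sec Q T v ∧ (Q.q v : ℝ) ≤ 2 * n}.ncard : ℝ) * C * θ ≤
        C * (2 * n) * C * θ0 := by gcongr
    refine h4.trans ?_
    have h5 : C * (2 * n) * C * θ0 = (2 * C ^ 2 * θ0) * n := by ring
    have h6 : 2 * C ^ 2 * θ0 ≤ ε * T := by
      rw [hθ0, mul_div_assoc', div_le_iff₀ (by positivity)]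
      have : 0 < ε * T := by positivity
      nlinarith [sq_nonneg C]
    rw [h5]
    have := mul_le_mul_of_nonneg_right h6 (show (0 : ℝ) ≤ n by linarith)
    linarith
  · intro k p hp
    obtain ⟨n0, hn01, hn0⟩ := main k
    refine ⟨max n0 (9 * p ^ 2), fun n hn L hL U hU => ?_⟩
    have hnr : (1 : ℝ) ≤ n := by exact_mod_cast hn01.trans ((le_max_left _ _).trans hn)
    have hp0 : (0 : ℝ) < p := by exact_mod_cast hp.pos
    have hnp : 9 * (p : ℝ) ^ 2 ≤ n := by exact_mod_cast (le_max_right _ _).trans hn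
    have hUr : ∀ v v', ‖res L U v v'‖ ≤ 1 := by
      intro v v'
      unfold res
      split_ifs
      · exact hU v v'
      · rw [norm_zero]; exact zero_le_one
    have hLr : ∀ v w, res L U v w ≠ 0 → L v := by
      intro v w hne
      unfold res at hne
      split_ifs at hne with h2
      · exact h2.1
      · exact absurd rfl hne
    have h2 := hn0 n ((le_max_left _ _).trans hn) (res L U) L hUr hLr
    have h3 := hc2 p (2 * n) hp L hL
    have h4 : {v : V | Sec Q T v ∧ L v ∧ Q.q v ≤ ((2 * n : ℕ) : ℤ)} =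
        {v : V | Sec Q T v ∧ L v ∧ (Q.q v : ℝ) ≤ 2 * n} := by
      ext v
      have : Q.q v ≤ ((2 * n : ℕ) : ℤ) ↔ (Q.q v : ℝ) ≤ 2 * n := by
        rw [← Int.cast_le (R := ℝ)]
        push_cast
        rfl
      simp only [Set.mem_ofPred_eq, this]
    rw [h4] at h3
    push_cast at h3
    rw [norm_mul, Complex.norm_natCast]
    refine (mul_le_mul_of_nonneg_left h2 hp0.le).trans ?_
    rw [← mul_div_assoc, div_le_iff₀ (by positivity)]
    have h5 : (p : ℝ) * (2 * n / p + √(2 * n) + 1) ≤ 3 * n := by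
      have e1 : (p : ℝ) * (2 * n / p) = 2 * n := by field_simp
      have e2 : 3 * (p : ℝ) ≤ √n := by
        apply Real.le_sqrt_of_sq_le
        linarith
      have e3 : √(2 * (n : ℝ)) ≤ 2 * √n := by
        rw [Real.sqrt_le_left (by positivity), mul_pow, Real.sq_sqrt (by linarith)]
        linarith
      have e4 : 1 ≤ √(n : ℝ) := by rw [Real.one_le_sqrt]; exact hnr
      have e5 : √(n : ℝ) * √(n : ℝ) = n := Real.mul_self_sqrt (by linarith)
      have e6 : (p : ℝ) * (√(2 * n) + 1) ≤ p * (3 * √n) :=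
        mul_le_mul_of_nonneg_left (by linarith) hp0.le
      have e7 : (p : ℝ) * (3 * √n) ≤ √n * √n := by
        have := mul_le_mul_of_nonneg_right e2 (Real.sqrt_nonneg (n : ℝ))
        linarith
      linarith
    have h6 : (p : ℝ) * ({v : V | Sec Q T v ∧ L v ∧ (Q.q v : ℝ) ≤ 2 * n}.ncard * C * θ) ≤
        p * (C * (2 * n / p + √(2 * n) + 1) * C * θ0) := by gcongr
    refine h6.trans ?_
    have h7 : (p : ℝ) * (C * (2 * n / p + √(2 * n) + 1) * C * θ0) =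
        (p * (2 * n / p + √(2 * n) + 1)) * (C ^ 2 * θ0) := by ring
    rw [h7]
    have h8 : 3 * C ^ 2 * θ0 ≤ ε * T := by
      rw [hθ0, mul_div_assoc', div_le_iff₀ (by positivity)]
      have : 0 < ε * T := by positivity
      nlinarith [sq_nonneg C]
    calc _ ≤ 3 * n * (C ^ 2 * θ0) := mul_le_mul_of_nonneg_right h5 (by positivity)
      _ = 3 * C ^ 2 * θ0 * n := by ring
      _ ≤ ε * T * n := mul_le_mul_of_nonneg_right h8 (by linarith)
      _ = _ := by ring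

end Pool.Agent.Lib.MP_a17b09_nt.HY
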