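import Pool.Agent.Lib.MP_a17b09_nt.HY.Stmts20
import Pool.Agent.Lib.MP_a17b09_nt.CH.TopM98

/-!
Project HY (MP_a17b09): Theorem B for positive discriminant, from Theorem B for definite forms and
the approximation by definite forms, cell by cell (module A4).
-/

set_option autoImplicit false

open Filter Topology Finset

namespace Pool.Agent.Lib.MP_a17b09_nt.HY

open Pool.Agent.Lib.MP_a17b09_nt.CH

namespace Bs60

theorem svc_scale {C : ℝ} {F : ℝ → ℂ} (hF : SVc C F) {N : ℕ} (hN : 0 < N) :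
    SVc C (fun x => F ((N : ℝ) * x)) := by
  have hN1 : (1 : ℝ) ≤ N := by exact_mod_cast hN
  have hN0 : (0 : ℝ) < N := by linarith
  refine ⟨fun x => hF.1 _, fun x y hx hxy => ?_⟩
  have h1 : (1 : ℝ) ≤ (N : ℝ) * x := by nlinarith
  have h2 := hF.2 ((N : ℝ) * x) ((N : ℝ) * y) h1 (mul_le_mul_of_nonneg_left hxy hN0.le)
  refine h2.trans (le_of_eq ?_)
  rw [← mul_sub, ← mul_assoc, mul_comm C (N : ℝ), mul_assoc, mul_div_mul_left _ _ hN0.ne']

theorem dil_eq (hMd : StMd) (M : LMean) {C : ℝ} {F : ℝ → ℂ} (hF : SVc C F) {N : ℕ} (hN : 0 < N) :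
    M.E (fun n : ℕ => ‖F ((N : ℝ) * n)‖) = M.E (fun n : ℕ => ‖F n‖) := by
  have hN0 : ((N : ℕ) : ℝ) ≠ 0 := by exact_mod_cast hN.ne'
  have h1 := (hMd M (fun x => F ((N : ℝ) * x)) C (svc_scale hF hN) N hN).1
  have h2 : ∀ n : ℕ, (N : ℝ) * ((n : ℝ) / N) = n := fun n => by field_simp
  simp only [h2] at h1
  exact h1.symm

theorem svc_lin {C1 C2 : ℝ} {F G : ℝ → ℂ} (hF : SVc C1 F) (hG : SVc C2 G) (c : ℂ) :
    SVc (‖c‖ * C1 + C2) (fun x => c * F x - G x) := by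
  refine ⟨fun x => ?_, fun x y hx hxy => ?_⟩
  · refine (norm_sub_le _ _).trans (add_le_add ?_ (hG.1 x))
    rw [norm_mul]
    exact mul_le_mul_of_nonneg_left (hF.1 x) (norm_nonneg _)
  · have e : c * F x - G x - (c * F y - G y) = c * (F x - F y) - (G x - G y) := by ring
    simp only
    rw [e]
    refine (norm_sub_le _ _).trans ?_
    have h1 := mul_le_mul_of_nonneg_left (hF.2 x y hx hxy) (norm_nonneg c)
    have h2 := hG.2 x y hx hxy
    rw [norm_mul]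
    calc ‖c‖ * ‖F x - F y‖ + ‖G x - G y‖ ≤ ‖c‖ * (C1 * (y - x) / x) + C2 * (y - x) / x :=
          add_le_add h1 h2
      _ = (‖c‖ * C1 + C2) * (y - x) / x := by ring

theorem rcell_res (P L : V → Prop) (U : V → V → ℂ) : rcell P (res L U) = res L (rcell P U) := by
  classical
  funext v v'
  by_cases h1 : P v <;> by_cases h2 : L v ∧ L v' <;> simp [rcell, res, h1, h2]

theorem rcell_le {P : V → Prop} {U : V → V → ℂ} (hU : ∀ v v', ‖U v v'‖ ≤ 1) (v v' : V) :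
    ‖rcell P U v v'‖ ≤ 1 := by
  classical
  unfold rcell
  split_ifs
  · exact hU v v'
  · rw [norm_zero]; exact zero_le_one

theorem hk_smul (Q : Form) (T : ℝ) (h : ℝ → ℝ → ℝ) (c : ℂ) (U : V → V → ℂ) (k : ℤ) (n : ℝ) :
    Hk Q T h (fun v v' => c * U v v') k n = c * Hk Q T h U k n := by
  have e : ∀ f : V × V, hkk Q T h (fun v v' => c * U v v') k n f = c * hkk Q T h U k n f := by
    intro f
    unfold hkk
    split_ifs
    · ring
    · simp
  unfold Hk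
  simp only [e]
  rw [tsum_mul_left]
  ring

theorem res_smul (L : V → Prop) (c : ℂ) (U : V → V → ℂ) :
    res L (fun v v' => c * U v v') = fun v v' => c * res L U v v' := by
  classical
  funext v v'
  unfold res
  split_ifs
  · rfl
  · simp

/-- Theorem B for kernels bounded by one -/
theorem core (hBs : StBs) (hAP : StAP) (hHC : StHC0) (hC0 : StC0) (hMd : StMd) (M : LMean)
    (ι : Type) [Fintype ι] (d : ℕ) (Q : ι → Form) (hQ : ∀ i, Hyp d (Q i)) (T : ℝ) (hT : 0 < T)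
    (Λ : Type) [Fintype Λ] [DecidableEq Λ] (lam : ι → V → Λ) (u : ι → Λ → Λ → ℂ)
    (hu : ∀ i a b, ‖u i a b‖ ≤ 1) (K : ℕ) (hK : 0 < K) (L : ℕ → ι → V → Prop)
    (hL : ∀ p : ℕ, p.Prime → p ≡ 1 [MOD K] → ∀ i, IsLat p (L p i))
    (δ : ℝ) (h : ℝ → ℝ → ℝ) (hδ : 0 < δ) (hh : Test δ h) (ε : ℝ) (hε : 0 < ε) (e0 : ℕ) :
    ∃ e : ℕ, e0 ≤ e ∧ ∀ i, ∑ p ∈ QQ K e, M.E (fun n =>
      ‖(p : ℂ) * Hk (Q i) T h (res (L p i) (fun v v' => u i (lam i v) (lam i v'))) (p : ℤ) n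
        - Hk (Q i) T h (fun v v' => u i (lam i v) (lam i v')) (p : ℤ) n‖)
        ≤ ε * ((QQ K e).card : ℝ) := by
  classical
  choose N r F cell hN hF h1 h2 using
    fun i => hAP d (Q i) (hQ i) T hT δ h hδ hh (ε / 4) (by positivity)
  set R : ℝ := ∑ i, (N i : ℝ) * (r i : ℝ) with hR
  have hR0 : 0 ≤ R := Finset.sum_nonneg fun i _ => by positivity
  set ε2 : ℝ := ε * T / (2 * (R + 1)) with hε2
  have hε2p : 0 < ε2 := by positivity
  obtain ⟨e, he, hBe⟩ := hBs M (Σ i, Fin (r i)) (fun x => F x.1 x.2) (fun x => hF x.1 x.2)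
    (Λ × Bool) (fun x v => (lam x.1 v, decide (cell x.1 x.2 v)))
    (fun x a b => if a.2 = true then u x.1 a.1 b.1 else 0) K hK (fun p x => L p x.1)
    (fun p hp hp1 x => hL p hp hp1 x.1) δ h hδ hh ε2 hε2p e0
  refine ⟨e, he, fun i => ?_⟩
  set U : V → V → ℂ := fun v v' => u i (lam i v) (lam i v') with hU
  have hU1 : ∀ v v', ‖U v v'‖ ≤ 1 := fun v v' => hu i _ _
  have hk : ∀ c : Fin (r i), (fun v v' : V => if (lam i v, decide (cell i c v)).2 = true then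
      u i (lam i v, decide (cell i c v)).1 (lam i v', decide (cell i c v')).1 else 0) =
      rcell (cell i c) U := by
    intro c
    funext v v'
    unfold rcell
    simp only [decide_eq_true_eq, hU]
  have hB : ∀ c : Fin (r i), ∑ p ∈ QQ K e, M.E (fun n =>
      ‖(p : ℂ) * Dk (F i c) h (res (L p i) (rcell (cell i c) U)) (p : ℤ) n
        - Dk (F i c) h (rcell (cell i c) U) (p : ℤ) n‖) ≤ ε2 * ((QQ K e).card : ℝ) := by
    intro c
    have h3 := hBe ⟨i, c⟩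
    simp only at h3
    simp only [hk] at h3
    exact h3
  set FF : ℕ → Fin (r i) → ℝ → ℂ := fun p c x =>
    (p : ℂ) * Dk (F i c) h (res (L p i) (rcell (cell i c) U)) (p : ℤ) x
        - Dk (F i c) h (rcell (cell i c) U) (p : ℤ) x with hFF
  have hSV : ∀ p c, ∃ C, SVc C (FF p c) := by
    intro p c
    obtain ⟨C1, hC1⟩ := TopM.svc_Dk hC0 (hF i c) hδ hh
      (TopM.res_le zero_le_one (rcell_le (P := cell i c) hU1) (L := L p i)) (p : ℤ)
    obtain ⟨C2, hC2⟩ := TopM.svc_Dk hC0 (hF i c) hδ hh (rcell_le (P := cell i c) hU1) (p : ℤ)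
    exact ⟨_, svc_lin hC1 hC2 (p : ℂ)⟩
  have hbF : ∀ p c, Bdd (fun n : ℕ => ‖FF p c ((N i : ℝ) * n)‖) := by
    intro p c
    obtain ⟨C, hC⟩ := hSV p c
    exact TopM.bdd_norm ⟨C, fun n => hC.1 _⟩
  obtain ⟨_, ⟨CH, hCH⟩, _⟩ := hHC d (Q i) (hQ i) T hT δ h hδ hh
  have hbH : ∀ p : ℕ, Bdd (fun n : ℕ => ‖(p : ℂ) * Hk (Q i) T h (res (L p i) U) (p : ℤ) n
        - Hk (Q i) T h U (p : ℤ) n‖) := by
    intro p
    refine TopM.bdd_norm ⟨‖(p : ℂ)‖ * (CH * 1) + CH * 1, fun n => ?_⟩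
    refine (norm_sub_le _ _).trans (add_le_add ?_ (hCH _ _ _ _ hU1))
    rw [norm_mul]
    exact mul_le_mul_of_nonneg_left (hCH _ _ _ _ (TopM.res_le zero_le_one hU1)) (norm_nonneg _)
  have hp : ∀ p ∈ QQ K e, M.E (fun n => ‖(p : ℂ) * Hk (Q i) T h (res (L p i) U) (p : ℤ) n
        - Hk (Q i) T h U (p : ℤ) n‖) ≤
        ε / 2 + (N i : ℝ) / T * ∑ c, M.E (fun n : ℕ => ‖FF p c n‖) := by
    intro p hp
    have hp' : p.Prime ∧ p ≡ 1 [MOD K] := by
      unfold QQ at hp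
      rw [Finset.mem_filter] at hp
      exact hp.2
    obtain ⟨n1, hn1⟩ := h1 i (p : ℤ)
    obtain ⟨n2, hn2⟩ := h2 i (p : ℤ) p hp'.1
    have hb : Bdd (fun n : ℕ => ε / 2 + (N i : ℝ) / T * ∑ c, ‖FF p c ((N i : ℝ) * n)‖) :=
      (Bdd.const _).add ((Bdd.sum _ _ fun c _ => hbF p c).smul _)
    have hle := TopM.mono_ev M (hbH p) hb (by
      filter_upwards [eventually_ge_atTop n1, eventually_ge_atTop n2] with n hm1 hm2
      have g1 := hn1 n hm1 U hU1
      have g2 := hn2 n hm2 (L p i) (hL p hp'.1 hp'.2 i) U hU1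
      simp only [rcell_res] at g2
      have e1 : (p : ℂ) * Hk (Q i) T h (res (L p i) U) (p : ℤ) n - Hk (Q i) T h U (p : ℤ) n =
          (p : ℂ) * (Hk (Q i) T h (res (L p i) U) (p : ℤ) n - ((N i : ℂ) / (T : ℂ)) *
            ∑ c, Dk (F i c) h (res (L p i) (rcell (cell i c) U)) (p : ℤ) ((N i : ℝ) * n)) -
          (Hk (Q i) T h U (p : ℤ) n - ((N i : ℂ) / (T : ℂ)) *
            ∑ c, Dk (F i c) h (rcell (cell i c) U) (p : ℤ) ((N i : ℝ) * n)) +
          ((N i : ℂ) / (T : ℂ)) * ∑ c, FF p c ((N i : ℝ) * n) := by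
        rw [hFF]
        simp only
        rw [Finset.sum_sub_distrib, ← Finset.mul_sum]
        ring
      have e2 : ‖((N i : ℂ) / (T : ℂ)) * ∑ c, FF p c ((N i : ℝ) * n)‖ ≤
          (N i : ℝ) / T * ∑ c, ‖FF p c ((N i : ℝ) * n)‖ := by
        rw [norm_mul, norm_div, Complex.norm_natCast, Complex.norm_real, Real.norm_of_nonneg hT.le]
        exact mul_le_mul_of_nonneg_left (norm_sum_le _ _) (by positivity)
      rw [e1]
      refine (norm_add_le _ _).trans ((add_le_add (norm_sub_le _ _) e2).trans ?_)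
      linarith)
    refine hle.trans (le_of_eq ?_)
    rw [M.add _ _ (Bdd.const _) ((Bdd.sum _ _ fun c _ => hbF p c).smul _), M.const,
      M.smul _ _ (Bdd.sum _ _ fun c _ => hbF p c), M.sum _ _ fun c _ => hbF p c]
    congr 2
    refine Finset.sum_congr rfl fun c _ => ?_
    obtain ⟨C, hC⟩ := hSV p c
    exact dil_eq hMd M hC (hN i)
  have hri : (N i : ℝ) * (r i : ℝ) ≤ R :=
    Finset.single_le_sum (f := fun i => (N i : ℝ) * (r i : ℝ)) (fun _ _ => by positivity)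
      (mem_univ i)
  calc ∑ p ∈ QQ K e, M.E (fun n => ‖(p : ℂ) * Hk (Q i) T h (res (L p i) U) (p : ℤ) n
        - Hk (Q i) T h U (p : ℤ) n‖)
      ≤ ∑ p ∈ QQ K e, (ε / 2 + (N i : ℝ) / T * ∑ c, M.E (fun n : ℕ => ‖FF p c n‖)) :=
        Finset.sum_le_sum hp
    _ = ((QQ K e).card : ℝ) * (ε / 2) + (N i : ℝ) / T *
        ∑ c, ∑ p ∈ QQ K e, M.E (fun n : ℕ => ‖FF p c n‖) := by
        rw [Finset.sum_add_distrib, Finset.sum_const, nsmul_eq_mul, ← Finset.mul_sum,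
          Finset.sum_comm]
    _ ≤ ((QQ K e).card : ℝ) * (ε / 2) + (N i : ℝ) / T *
        ∑ _c : Fin (r i), ε2 * ((QQ K e).card : ℝ) := by
        gcongr with c _
        exact hB c
    _ = ((QQ K e).card : ℝ) * (ε / 2) + ((QQ K e).card : ℝ) *
        ((ε / 2) * ((N i : ℝ) * (r i : ℝ) / (R + 1))) := by
        rw [Finset.sum_const, nsmul_eq_mul, Finset.card_univ, Fintype.card_fin, hε2]
        field_simp
    _ ≤ ((QQ K e).card : ℝ) * (ε / 2) + ((QQ K e).card : ℝ) * ((ε / 2) * 1) := by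
        gcongr
        rw [div_le_one (by positivity)]
        linarith
    _ = ε * ((QQ K e).card : ℝ) := by ring

end Bs60

open Bs60 in
/-- (A4) -/
theorem stHBs_60 (hBs : StBs) (hAP : StAP) (hHC : StHC0) (hC0 : StC0) (hMd : StMd) : StHBs := by
  intro M ι _ d Q hQ T hT Λ _ _ lam u K hK L hL δ h hδ hh ε hε e0
  classical
  set c : ℝ := ∑ i, ∑ a, ∑ b, ‖u i a b‖ + 1 with hc
  have hcn : ∀ i a b, ‖u i a b‖ ≤ c := by
    intro i a b
    have h1 : ‖u i a b‖ ≤ ∑ b, ‖u i a b‖ :=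
      Finset.single_le_sum (f := fun b => ‖u i a b‖) (fun _ _ => norm_nonneg _) (mem_univ b)
    have h2 : ∑ b, ‖u i a b‖ ≤ ∑ a, ∑ b, ‖u i a b‖ :=
      Finset.single_le_sum (f := fun a => ∑ b, ‖u i a b‖)
        (fun _ _ => Finset.sum_nonneg fun _ _ => norm_nonneg _) (mem_univ a)
    have h3 : ∑ a, ∑ b, ‖u i a b‖ ≤ ∑ i, ∑ a, ∑ b, ‖u i a b‖ :=
      Finset.single_le_sum (f := fun i => ∑ a, ∑ b, ‖u i a b‖)
        (fun _ _ => Finset.sum_nonneg fun _ _ => Finset.sum_nonneg fun _ _ => norm_nonneg _)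
        (mem_univ i)
    linarith
  have hc0 : 0 < c := by
    have : 0 ≤ ∑ i, ∑ a, ∑ b, ‖u i a b‖ := Finset.sum_nonneg fun _ _ =>
      Finset.sum_nonneg fun _ _ => Finset.sum_nonneg fun _ _ => norm_nonneg _
    linarith
  have hcC : (c : ℂ) ≠ 0 := by exact_mod_cast hc0.ne'
  obtain ⟨e, he, hB⟩ := core hBs hAP hHC hC0 hMd M ι d Q hQ T hT Λ lam
    (fun i a b => (1 / (c : ℂ)) * u i a b) (fun i a b => by
      rw [norm_mul, norm_div, norm_one, Complex.norm_real, Real.norm_of_nonneg hc0.le, one_div,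
        inv_mul_le_iff₀ hc0, mul_one]
      exact hcn i a b) K hK L hL δ h hδ hh (ε / c) (by positivity) e0
  refine ⟨e, he, fun i => ?_⟩
  have h1 := hB i
  have hHb : ∀ p : ℕ, Bdd (fun n : ℕ => ‖(p : ℂ) * Hk (Q i) T h (res (L p i)
      (fun v v' => u i (lam i v) (lam i v'))) (p : ℤ) n
        - Hk (Q i) T h (fun v v' => u i (lam i v) (lam i v')) (p : ℤ) n‖) := by
    obtain ⟨_, ⟨CH, hCH⟩, _⟩ := hHC d (Q i) (hQ i) T hT δ h hδ hh
    intro p
    have hU : ∀ v v' : V, ‖u i (lam i v) (lam i v')‖ ≤ c := fun v v' => hcn i _ _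
    refine TopM.bdd_norm ⟨‖(p : ℂ)‖ * (CH * c) + CH * c, fun n => ?_⟩
    refine (norm_sub_le _ _).trans (add_le_add ?_ (hCH _ _ _ _ hU))
    rw [norm_mul]
    exact mul_le_mul_of_nonneg_left (hCH _ _ _ _ (TopM.res_le hc0.le hU)) (norm_nonneg _)
  have h2 : ∀ p : ℕ, M.E (fun n => ‖(p : ℂ) * Hk (Q i) T h (res (L p i)
      (fun v v' => (1 / (c : ℂ)) * u i (lam i v) (lam i v'))) (p : ℤ) n
        - Hk (Q i) T h (fun v v' => (1 / (c : ℂ)) * u i (lam i v) (lam i v')) (p : ℤ) n‖) =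
      (1 / c) * M.E (fun n => ‖(p : ℂ) * Hk (Q i) T h (res (L p i)
      (fun v v' => u i (lam i v) (lam i v'))) (p : ℤ) n
        - Hk (Q i) T h (fun v v' => u i (lam i v) (lam i v')) (p : ℤ) n‖) := by
    intro p
    rw [← M.smul _ _ (hHb p)]
    congr 1
    funext n
    rw [res_smul, hk_smul, hk_smul]
    have e1 : ∀ A B : ℂ, (p : ℂ) * ((1 / (c : ℂ)) * A) - (1 / (c : ℂ)) * B =
        (1 / (c : ℂ)) * ((p : ℂ) * A - B) := fun A B => by ring
    rw [e1, norm_mul, norm_div, norm_one, Complex.norm_real, Real.norm_of_nonneg hc0.le]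
  simp only [h2] at h1
  rw [← Finset.mul_sum] at h1
  have h3 := mul_le_mul_of_nonneg_left h1 hc0.le
  rw [← mul_assoc, mul_one_div_cancel hc0.ne', one_mul] at h3
  refine h3.trans (le_of_eq ?_)
  field_simp

end Pool.Agent.Lib.MP_a17b09_nt.HY
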