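import Pool.Agent.Lib.MP_a17b09_nt.HY.Stmts20
import Pool.Agent.Lib.MP_a17b09_nt.CH.C027

/-!
Project HY, module A2: the sector sums are finite, bounded and slowly varying (from StHcnt).
-/

set_option autoImplicit false

open Filter Topology Finset

namespace Pool.Agent.Lib.MP_a17b09_nt.HY

open Pool.Agent.Lib.MP_a17b09_nt.CH
open Pool.Agent.Lib.MP_a17b09_nt.CH.C27 (test_bd le_of_nr of_nr_le)

namespace HC27

/-- sums over pairs, the second vector on a line -/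
theorem dsum {Q : Form} {T δ C : ℝ} (hC : 0 < C) {n : ℝ}
    (h1 : {v : V | Sec Q T v ∧ (Q.q v : ℝ) ≤ n}.Finite ∧
      ({v : V | Sec Q T v ∧ (Q.q v : ℝ) ≤ n}.ncard : ℝ) ≤ C * n) (k : ℤ)
    (h3 : ∀ v : V, Prim v → Cn Q v → δ ^ 2 * n ≤ (Q.q v : ℝ) →
      {v' : V | Cn Q v' ∧ (Q.q v' : ℝ) ≤ n ∧ wd v v' = k}.Finite ∧
      ({v' : V | Cn Q v' ∧ (Q.q v' : ℝ) ≤ n ∧ wd v v' = k}.ncard : ℝ) ≤ C)
    (Φ : V × V → ℂ) {t : ℝ} (ht : 0 ≤ t) (hb : ∀ f, ‖Φ f‖ ≤ t)
    (hs : ∀ f, Φ f ≠ 0 → Prim f.1 ∧ Sec Q T f.1 ∧ (Q.q f.1 : ℝ) ≤ n ∧ δ ^ 2 * n ≤ (Q.q f.1 : ℝ) ∧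
      Cn Q f.2 ∧ (Q.q f.2 : ℝ) ≤ n ∧ wd f.1 f.2 = k) :
    (Function.support Φ).Finite ∧ ‖∑' f, Φ f‖ ≤ C * n * C * t := by
  classical
  set A := h1.1.toFinset with hA
  set L : V → Finset V := fun v =>
    if h : Prim v ∧ Cn Q v ∧ δ ^ 2 * n ≤ (Q.q v : ℝ) then (h3 v h.1 h.2.1 h.2.2).1.toFinset else ∅
    with hL
  have hLc : ∀ v, ((L v).card : ℝ) ≤ C := by
    intro v
    rw [hL]
    simp only
    split_ifs with h
    · rw [← Set.ncard_eq_toFinset_card _ (h3 v h.1 h.2.1 h.2.2).1]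
      exact (h3 v h.1 h.2.1 h.2.2).2
    · simp only [card_empty, Nat.cast_zero]
      exact hC.le
  set F := A.biUnion (fun v => (L v).image (fun w => (v, w))) with hF
  have hsub : Function.support Φ ⊆ F := by
    intro f hf
    obtain ⟨a1, a2, a3, a4, a5, a6, a7⟩ := hs f hf
    rw [hF, mem_coe, mem_biUnion]
    refine ⟨f.1, ?_, ?_⟩
    · rw [hA, Set.Finite.mem_toFinset]
      exact ⟨a2, a3⟩
    · rw [mem_image]
      refine ⟨f.2, ?_, rfl⟩
      rw [hL]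
      simp only
      rw [dif_pos ⟨a1, a2.1, a4⟩, Set.Finite.mem_toFinset]
      exact ⟨a5, a6, a7⟩
  refine ⟨F.finite_toSet.subset hsub, ?_⟩
  rw [tsum_eq_sum (s := F) (fun f hf => by
    by_contra h
    exact hf (hsub h))]
  have hFc : (F.card : ℝ) ≤ C * n * C := by
    have e1 : (F.card : ℝ) ≤ ∑ v ∈ A, ((L v).card : ℝ) := by
      have : F.card ≤ ∑ v ∈ A, (L v).card :=
        card_biUnion_le.trans (sum_le_sum fun v _ => card_image_le)
      exact_mod_cast this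
    have e2 : ∑ v ∈ A, ((L v).card : ℝ) ≤ ∑ v ∈ A, C := sum_le_sum fun v _ => hLc v
    have e3 : ∑ v ∈ A, C = A.card * C := by rw [sum_const, nsmul_eq_mul]
    have e4 : (A.card : ℝ) ≤ C * n := by
      rw [hA, ← Set.ncard_eq_toFinset_card _ h1.1]
      exact h1.2
    have e5 : (A.card : ℝ) * C ≤ C * n * C := mul_le_mul_of_nonneg_right e4 hC.le
    linarith
  calc ‖∑ f ∈ F, Φ f‖ ≤ ∑ f ∈ F, ‖Φ f‖ := norm_sum_le _ _
    _ ≤ ∑ f ∈ F, t := sum_le_sum fun f _ => hb f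
    _ = F.card * t := by rw [sum_const, nsmul_eq_mul]
    _ ≤ C * n * C * t := mul_le_mul_of_nonneg_right hFc ht

theorem q1 {d : ℕ} {Q : Form} (hQ : Hyp d Q) {v : V} (h : Cn Q v) : (1 : ℝ) ≤ Q.q v := by
  have := h.q_pos hQ
  exact_mod_cast this

/-- nonzero terms -/
theorem hkk_ne {Q : Form} {T δ : ℝ} {h : ℝ → ℝ → ℝ} (hh : Test δ h)
    {U : V → V → ℂ} {k : ℤ} {n : ℝ} {f : V × V} (h0 : hkk Q T h U k n f ≠ 0) :
    (Prim f.1 ∧ Prim f.2 ∧ Sec Q T f.1 ∧ Cn Q f.2 ∧ wd f.1 f.2 = k) ∧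
      δ ≤ Q.nr n f.1 ∧ Q.nr n f.1 ≤ 1 ∧ δ ≤ Q.nr n f.2 ∧ Q.nr n f.2 ≤ 1 := by
  unfold hkk at h0
  split_ifs at h0 with h1
  · refine ⟨h1, hh.2 _ _ ?_⟩
    intro h2
    apply h0
    rw [h2]
    simp
  · exact absurd rfl h0

theorem hkk_le {Q : Form} {T : ℝ} {h : ℝ → ℝ → ℝ} {U : V → V → ℂ} {k : ℤ} {n C c : ℝ}
    (hC : 0 ≤ C) (hh : ∀ x y, |h x y| ≤ C) (hU : ∀ v v', ‖U v v'‖ ≤ c) (f : V × V) :
    ‖hkk Q T h U k n f‖ ≤ C * c := by
  have hc : 0 ≤ c := (norm_nonneg _).trans (hU 0 0)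
  unfold hkk
  split_ifs
  · rw [norm_mul, Complex.norm_real, Real.norm_eq_abs]
    exact mul_le_mul (hh _ _) (hU _ _) (norm_nonneg _) hC
  · rw [norm_zero]
    positivity

/-- no terms for small `n` -/
theorem hkk_zero {d : ℕ} {Q : Form} (hQ : Hyp d Q) {T δ : ℝ} {h : ℝ → ℝ → ℝ} (hδ : 0 < δ)
    (hh : Test δ h) (U : V → V → ℂ) (k : ℤ) {n : ℝ} (hn : n < 1) (f : V × V) :
    hkk Q T h U k n f = 0 := by
  by_contra h0
  obtain ⟨⟨_, _, h1, _, _⟩, h2, h3, _, _⟩ := hkk_ne hh h0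
  have hq := q1 hQ h1.1
  rcases le_or_gt n 0 with h4 | h4
  · have h5 : (Q.q f.1 : ℝ) / n ≤ 0 := div_nonpos_of_nonneg_of_nonpos (by linarith) h4
    unfold Form.nr at h2
    rw [Real.sqrt_eq_zero_of_nonpos h5] at h2
    linarith
  · have := of_nr_le h4 h3
    linarith

theorem nr_sub {d : ℕ} {Q : Form} (hQ : Hyp d Q) {x y : ℝ} {v : V} (hx : 1 ≤ x) (hxy : x ≤ y)
    (hy : y ≤ 2 * x) (hc : Cn Q v) (hv : (Q.q v : ℝ) ≤ y) :
    |Q.nr x v - Q.nr y v| ≤ 2 * ((y - x) / x) := by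
  have h0 : (0 : ℝ) ≤ Q.q v := by linarith [q1 hQ hc]
  have hx0 : 0 < x := by linarith
  have hy0 : 0 < y := by linarith
  unfold Form.nr
  have h1 : √((Q.q v : ℝ) / y) = √((Q.q v : ℝ) / x) * √(x / y) := by
    rw [← Real.sqrt_mul (by positivity)]
    congr 1
    field_simp
  have h2 : √((Q.q v : ℝ) / x) ≤ 2 := by
    rw [Real.sqrt_le_left (by norm_num), div_le_iff₀ hx0]
    linarith
  have h3 : x / y ≤ √(x / y) := by
    apply Real.le_sqrt_of_sq_le
    have h4 : x / y ≤ 1 := by rw [div_le_one hy0]; exact hxy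
    have h5 : 0 ≤ x / y := by positivity
    nlinarith
  have h4 : √(x / y) ≤ 1 := by
    rw [Real.sqrt_le_left zero_le_one, one_pow, div_le_one hy0]
    exact hxy
  have h5 : √((Q.q v : ℝ) / x) - √((Q.q v : ℝ) / x) * √(x / y) =
      √((Q.q v : ℝ) / x) * (1 - √(x / y)) := by ring
  rw [h1, h5, abs_of_nonneg (mul_nonneg (Real.sqrt_nonneg _) (by linarith))]
  refine mul_le_mul h2 ?_ (by linarith) (by norm_num)
  have h6 : 1 - x / y ≤ (y - x) / x := by
    have h7 : 1 - x / y = (y - x) / y := by field_simp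
    rw [h7]
    apply div_le_div_of_nonneg_left (by linarith) hx0 hxy
  linarith

/-- finiteness and the bound of the sum -/
theorem main1 (hcnt : StHcnt) {d : ℕ} {Q : Form} (hQ : Hyp d Q) {T : ℝ} (hT : 0 < T) {δ : ℝ}
    {h : ℝ → ℝ → ℝ} (hδ : 0 < δ) (hh : Test δ h) : ∃ C : ℝ, 0 ≤ C ∧
    ∀ (k : ℤ) (n : ℝ) (U : V → V → ℂ) (c : ℝ), (∀ v v', ‖U v v'‖ ≤ c) →
      ‖∑' f, hkk Q T h U k n f‖ ≤ C * |n| * c := by
  obtain ⟨C, hC, h1, _, h3⟩ := hcnt d Q hQ T hT δ hδ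
  obtain ⟨D, hD, _, hb⟩ := test_bd hδ hh
  refine ⟨C * C * D, by positivity, fun k n U c hU => ?_⟩
  have hc : 0 ≤ c := (norm_nonneg _).trans (hU 0 0)
  rcases lt_or_ge n 1 with hn | hn
  · have : ∀ f, hkk Q T h U k n f = 0 := fun f => hkk_zero hQ hδ hh U k hn f
    simp only [this, tsum_zero, norm_zero]
    positivity
  · have hn0 : 0 < n := by linarith
    have := (dsum hC (h1 n hn) k (δ := δ) (fun v hv hc hq => h3 n v k hn0 hv hc hq)
      (hkk Q T h U k n) (t := D * c) (by positivity) (fun f => hkk_le hD hb hU f)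
      (fun f hf => by
        obtain ⟨⟨b1, b2, b3, b4, b5⟩, b6, b7, b8, b9⟩ := hkk_ne hh hf
        exact ⟨b1, b3, of_nr_le hn0 b7, le_of_nr hδ hn0 b6, b4, of_nr_le hn0 b9, b5⟩)).2
    rw [abs_of_pos hn0]
    refine this.trans (le_of_eq (by ring))

theorem fin (hcnt : StHcnt) {d : ℕ} {Q : Form} (hQ : Hyp d Q) {T : ℝ} (hT : 0 < T) {δ : ℝ}
    {h : ℝ → ℝ → ℝ} (hδ : 0 < δ) (hh : Test δ h) (U : V → V → ℂ) (k : ℤ) (n : ℝ) :
    (Function.support (hkk Q T h U k n)).Finite := by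
  classical
  rcases lt_or_ge n 1 with hn | hn
  · have : Function.support (hkk Q T h U k n) = ∅ := by
      rw [Function.support_eq_empty_iff]
      funext f
      exact hkk_zero hQ hδ hh U k hn f
    rw [this]
    exact Set.finite_empty
  · obtain ⟨C, hC, h1, _, h3⟩ := hcnt d Q hQ T hT δ hδ
    have hn0 : 0 < n := by linarith
    have hsupp : Function.support (hkk Q T h U k n) =
        Function.support (fun f => if hkk Q T h U k n f = 0 then (0 : ℂ) else 1) := by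
      ext f
      rw [Function.mem_support, Function.mem_support]
      by_cases hf : hkk Q T h U k n f = 0
      · simp [hf]
      · simp [hf]
    rw [hsupp]
    exact (dsum hC (h1 n hn) k (δ := δ) (fun v hv hc hq => h3 n v k hn0 hv hc hq)
      (fun f => if hkk Q T h U k n f = 0 then (0 : ℂ) else 1) (t := 1) zero_le_one
      (fun f => by
        show ‖(if hkk Q T h U k n f = 0 then (0 : ℂ) else 1)‖ ≤ 1
        split_ifs <;> simp)
      (fun f hf => by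
        have hf' : hkk Q T h U k n f ≠ 0 := by
          intro h0
          apply hf
          show (if hkk Q T h U k n f = 0 then (0 : ℂ) else 1) = 0
          rw [if_pos h0]
        obtain ⟨⟨b1, b2, b3, b4, b5⟩, b6, b7, b8, b9⟩ := hkk_ne hh hf'
        exact ⟨b1, b3, of_nr_le hn0 b7, le_of_nr hδ hn0 b6, b4, of_nr_le hn0 b9, b5⟩)).1

theorem bound (hcnt : StHcnt) {d : ℕ} {Q : Form} (hQ : Hyp d Q) {T : ℝ} (hT : 0 < T) {δ : ℝ}
    {h : ℝ → ℝ → ℝ} (hδ : 0 < δ) (hh : Test δ h) : ∃ C : ℝ, 0 ≤ C ∧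
    ∀ (k : ℤ) (n : ℝ) (U : V → V → ℂ) (c : ℝ), (∀ v v', ‖U v v'‖ ≤ c) →
      ‖Hk Q T h U k n‖ ≤ C * c := by
  obtain ⟨C, hC, hb⟩ := main1 hcnt hQ hT hδ hh
  refine ⟨C / T, by positivity, fun k n U c hU => ?_⟩
  have hc : 0 ≤ c := (norm_nonneg _).trans (hU 0 0)
  have h1 := hb k n U c hU
  unfold Hk
  rw [norm_mul, norm_div, norm_one, Complex.norm_real, Real.norm_eq_abs, abs_mul, abs_of_pos hT]
  rcases eq_or_ne n 0 with h0 | h0
  · rw [h0, abs_zero, zero_mul, div_zero, zero_mul]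
    positivity
  · have h2 : 0 < |n| := abs_pos.2 h0
    rw [one_div, inv_mul_le_iff₀ (by positivity)]
    refine h1.trans (le_of_eq ?_)
    field_simp

theorem lip (hcnt : StHcnt) {d : ℕ} {Q : Form} (hQ : Hyp d Q) {T : ℝ} (hT : 0 < T) {δ : ℝ}
    {h : ℝ → ℝ → ℝ} (hδ : 0 < δ) (hh : Test δ h) : ∃ C : ℝ, 0 ≤ C ∧
    ∀ (k : ℤ) (U : V → V → ℂ) (c : ℝ), (∀ v v', ‖U v v'‖ ≤ c) →
    ∀ x y : ℝ, 1 ≤ x → x ≤ y → ‖Hk Q T h U k x - Hk Q T h U k y‖ ≤ C * c * (y - x) / x := by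
  obtain ⟨D, hD, hl, hbD⟩ := test_bd hδ hh
  obtain ⟨C1, hC1, hb1⟩ := bound hcnt hQ hT hδ hh
  obtain ⟨C, hC, h1, _, h3⟩ := hcnt d Q hQ T hT (δ / 2) (by positivity)
  refine ⟨2 * C1 + 8 * C * C * D / T, by positivity, fun k U c hU x y hx hxy => ?_⟩
  have hc : 0 ≤ c := (norm_nonneg _).trans (hU 0 0)
  have hx0 : 0 < x := by linarith
  have hy0 : 0 < y := by linarith
  have hr : 0 ≤ (y - x) / x := div_nonneg (by linarith) hx0.le
  have hK : 0 ≤ 8 * C * C * D / T := by positivity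
  rcases lt_or_ge (2 * x) y with hy | hy
  · have h1 : ‖Hk Q T h U k x - Hk Q T h U k y‖ ≤ 2 * (C1 * c) := by
      refine (norm_sub_le _ _).trans ?_
      have := hb1 k x U c hU
      have := hb1 k y U c hU
      linarith
    have h2 : 1 ≤ (y - x) / x := by rw [le_div_iff₀ hx0]; linarith
    have h3 : (2 * C1 + 8 * C * C * D / T) * c * (y - x) / x =
        (2 * (C1 * c) + 8 * C * C * D / T * c) * ((y - x) / x) := by ring
    rw [h3]
    have h4 : 0 ≤ 8 * C * C * D / T * c := mul_nonneg hK hc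
    have h5 : 0 ≤ 2 * (C1 * c) := by positivity
    calc ‖Hk Q T h U k x - Hk Q T h U k y‖ ≤ 2 * (C1 * c) := h1
      _ ≤ (2 * (C1 * c) + 8 * C * C * D / T * c) * 1 := by linarith
      _ ≤ _ := mul_le_mul_of_nonneg_left h2 (by linarith)
  · set Sx := ∑' f, hkk Q T h U k x f with hSx
    set Sy := ∑' f, hkk Q T h U k y f with hSy
    have hxc : (x : ℂ) ≠ 0 := by exact_mod_cast hx0.ne'
    have hyc : (y : ℂ) ≠ 0 := by exact_mod_cast hy0.ne'
    have hTc : (T : ℂ) ≠ 0 := by exact_mod_cast hT.ne'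
    have e1 : Hk Q T h U k x - Hk Q T h U k y =
        (1 / ((x * T : ℝ) : ℂ)) * (Sx - Sy) + (((y - x) / x : ℝ) : ℂ) * Hk Q T h U k y := by
      unfold Hk
      rw [← hSx, ← hSy]
      push_cast
      field_simp
      ring
    have s1 : Summable (hkk Q T h U k x) :=
      summable_of_hasFiniteSupport (fin hcnt hQ hT hδ hh U k x)
    have s2 : Summable (hkk Q T h U k y) :=
      summable_of_hasFiniteSupport (fin hcnt hQ hT hδ hh U k y)
    have e2 : Sx - Sy = ∑' f, (hkk Q T h U k x f - hkk Q T h U k y f) := by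
      rw [hSx, hSy, s1.tsum_sub s2]
    have hT0 : 0 ≤ 4 * D * ((y - x) / x) * c := by positivity
    have hsq : (δ / 2) ^ 2 * y ≤ δ ^ 2 * x := by
      have : 0 ≤ δ ^ 2 := sq_nonneg _
      nlinarith
    have hsq2 : (δ / 2) ^ 2 * y ≤ δ ^ 2 * y := by
      have : 0 ≤ δ ^ 2 := sq_nonneg _
      nlinarith
    have hsup : ∀ f, hkk Q T h U k x f - hkk Q T h U k y f ≠ 0 →
        Prim f.1 ∧ Sec Q T f.1 ∧ (Q.q f.1 : ℝ) ≤ y ∧ (δ / 2) ^ 2 * y ≤ (Q.q f.1 : ℝ) ∧
        Cn Q f.2 ∧ (Q.q f.2 : ℝ) ≤ y ∧ wd f.1 f.2 = k := by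
      intro f hf
      have h4 : hkk Q T h U k x f ≠ 0 ∨ hkk Q T h U k y f ≠ 0 := by
        by_contra hcon
        push Not at hcon
        apply hf
        rw [hcon.1, hcon.2, sub_zero]
      rcases h4 with h4 | h4
      · obtain ⟨⟨b1, b2, b3, b4, b5⟩, b6, b7, b8, b9⟩ := hkk_ne hh h4
        exact ⟨b1, b3, (of_nr_le hx0 b7).trans hxy, hsq.trans (le_of_nr hδ hx0 b6), b4,
          (of_nr_le hx0 b9).trans hxy, b5⟩
      · obtain ⟨⟨b1, b2, b3, b4, b5⟩, b6, b7, b8, b9⟩ := hkk_ne hh h4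
        exact ⟨b1, b3, of_nr_le hy0 b7, hsq2.trans (le_of_nr hδ hy0 b6), b4,
          of_nr_le hy0 b9, b5⟩
    have e3 := (dsum hC (h1 y (by linarith)) k (δ := δ / 2)
      (fun v hv hc hq => h3 y v k hy0 hv hc hq)
      (fun f => hkk Q T h U k x f - hkk Q T h U k y f)
      (t := 4 * D * ((y - x) / x) * c) hT0
      (fun f => by
        show ‖hkk Q T h U k x f - hkk Q T h U k y f‖ ≤ _
        by_cases hf : hkk Q T h U k x f - hkk Q T h U k y f = 0
        · rw [hf, norm_zero]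
          exact hT0
        · obtain ⟨_, c2, c3, _, c5, c6, _⟩ := hsup f hf
          unfold hkk
          split_ifs
          · rw [← sub_mul, norm_mul]
            refine mul_le_mul ?_ (hU _ _) (norm_nonneg _) (by positivity)
            rw [← Complex.ofReal_sub, Complex.norm_real, Real.norm_eq_abs]
            refine (hl _ _ _ _).trans ?_
            have h4 := nr_sub hQ hx hxy hy c2.1 c3
            have h5 := nr_sub hQ hx hxy hy c5 c6
            calc D * (|Q.nr x f.1 - Q.nr y f.1| + |Q.nr x f.2 - Q.nr y f.2|) ≤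
                D * (2 * ((y - x) / x) + 2 * ((y - x) / x)) := by gcongr
              _ = 4 * D * ((y - x) / x) := by ring
          · rw [sub_zero, norm_zero]
            exact hT0)
      hsup).2
    rw [← e2] at e3
    have h5 : ‖Sx - Sy‖ ≤ (x * T) * (8 * C * C * D / T * c * ((y - x) / x)) := by
      refine e3.trans ?_
      have e4 : C * y * C * (4 * D * ((y - x) / x) * c) =
          y * (C * C * (4 * D * ((y - x) / x) * c)) := by ring
      have e5 : (x * T) * (8 * C * C * D / T * c * ((y - x) / x)) =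
          2 * x * (C * C * (4 * D * ((y - x) / x) * c)) := by
        field_simp
        ring
      rw [e4, e5]
      exact mul_le_mul_of_nonneg_right hy (by positivity)
    have h6 : ‖(1 / ((x * T : ℝ) : ℂ)) * (Sx - Sy)‖ ≤ 8 * C * C * D / T * c * ((y - x) / x) := by
      rw [norm_mul, norm_div, norm_one, Complex.norm_real, Real.norm_eq_abs,
        abs_of_pos (by positivity : 0 < x * T), one_div, inv_mul_le_iff₀ (by positivity)]
      exact h5
    have h7 : ‖(((y - x) / x : ℝ) : ℂ) * Hk Q T h U k y‖ ≤ ((y - x) / x) * (C1 * c) := by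
      rw [norm_mul, Complex.norm_real, Real.norm_eq_abs, abs_of_nonneg hr]
      exact mul_le_mul_of_nonneg_left (hb1 k y U c hU) hr
    rw [e1]
    refine (norm_add_le _ _).trans ?_
    have h8 : (2 * C1 + 8 * C * C * D / T) * c * (y - x) / x =
        8 * C * C * D / T * c * ((y - x) / x) + 2 * (((y - x) / x) * (C1 * c)) := by ring
    rw [h8]
    have h9 : 0 ≤ ((y - x) / x) * (C1 * c) := by positivity
    linarith

end HC27

theorem stHC0_27 (hcnt : StHcnt) : StHC0 := by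
  intro d Q hQ T hT δ h hδ hh
  obtain ⟨C1, hC1, hb⟩ := HC27.bound hcnt hQ hT hδ hh
  obtain ⟨C2, hC2, hl⟩ := HC27.lip hcnt hQ hT hδ hh
  refine ⟨fun U k n => HC27.fin hcnt hQ hT hδ hh U k n, ⟨C1, fun k n U c hU => hb k n U c hU⟩,
    fun k U c hU => ?_⟩
  have hc : 0 ≤ c := (norm_nonneg _).trans (hU 0 0)
  refine ⟨C1 * c + C2 * c, fun x => ?_, fun x y hx hxy => ?_⟩
  · have := hb k x U c hU
    have h2 : 0 ≤ C2 * c := by positivity
    linarith
  · refine (hl k U c hU x y hx hxy).trans ?_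
    have hx0 : 0 < x := by linarith
    have h1 : 0 ≤ y - x := by linarith
    have h2 : 0 ≤ C1 * c := by positivity
    apply div_le_div_of_nonneg_right _ hx0.le
    exact mul_le_mul_of_nonneg_right (by linarith) h1

end Pool.Agent.Lib.MP_a17b09_nt.HY
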