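import Pool.Agent.Lib.MP_a17b09_nt.HY.StmtsR20
import Pool.Agent.Lib.MP_a17b09_nt.CH.CntG3

/-!
Project HY, row R3: the pairs `(t, d)`, `d ∣ f t`, have a density (StHCntG from StHR, StHSys).
-/

set_option autoImplicit false

open Filter Topology Finset

namespace Pool.Agent.Lib.MP_a17b09_nt.HY

open Pool.Agent.Lib.MP_a17b09_nt.CH
open Pool.Agent.Lib.MP_a17b09_nt.CH.CntG3 (Cg rd mt Cd Gm cd_congr rd_cg rd_mem rd_mem_Gm cg_unique
  tq key4 mt_det)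

namespace CntG18

/-! ### one class -/

/-- the frames in a class -/
def CS (Q : Form) (T : ℝ) (N : ℕ) (γ : Mat) (b bt : ℤ) (x y : ℝ) (n : ℕ) : Set (V × V) :=
  {f | wd f.1 f.2 = 1 ∧ Cls N γ f ∧ Sec Q T f.1 ∧ Cn Q f.2 ∧ bt ≤ Q.B f.1 f.2 ∧ Q.q f.1 ≤ n ∧
    x ≤ ((Q.B f.1 f.2 : ℝ) - b) / (2 * Q.q f.1) ∧ ((Q.B f.1 f.2 : ℝ) - b) / (2 * Q.q f.1) < y}

theorem up_sub {d : ℕ} {Q : Form} (hQ : Hyp d Q) {T : ℝ} {N : ℕ} {γ : Mat} {b bt : ℤ} {x y ε : ℝ}
    {m0 : ℕ} (hε : 0 ≤ ε) (hb : |(b : ℝ)| ≤ 2 * ε * m0) (n : ℕ) :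
    CS Q T N γ b bt x y n ⊆ secQ Q T N γ (x - ε) (y + ε) n ∪
      secQ Q T N γ (min (y / 2) (1 / (2 * ((m0 : ℝ) + 1)))) (y + |(b : ℝ)|) m0 := by
  rintro f ⟨h1, h2, h3, h4, -, h6, h7, h8⟩
  have hq : (1 : ℝ) ≤ Q.q f.1 := by exact_mod_cast (Cn.q_pos hQ h3.1)
  have hB : (1 : ℝ) ≤ Q.B f.1 f.2 := by exact_mod_cast (Cn.B_pos hQ h3.1 h4)
  have hq0 : (0 : ℝ) < 2 * Q.q f.1 := by linarith
  rw [le_div_iff₀ hq0] at h7
  rw [div_lt_iff₀ hq0] at h8
  have hb1 := neg_abs_le (b : ℝ)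
  have hb2 := le_abs_self (b : ℝ)
  have hb0 := abs_nonneg (b : ℝ)
  rcases le_or_gt (Q.q f.1) (m0 : ℤ) with h9 | h9
  · right
    have h9' : (Q.q f.1 : ℝ) ≤ m0 := by exact_mod_cast h9
    refine ⟨h1, h2, h3, h4, h9, ?_, ?_⟩
    · have e1 : min (y / 2) (1 / (2 * ((m0 : ℝ) + 1))) ≤ 1 / (2 * ((m0 : ℝ) + 1)) := min_le_right _ _
      have e2 : (1 / (2 * ((m0 : ℝ) + 1))) * (2 * Q.q f.1) ≤ 1 := by
        rw [div_mul_eq_mul_div, one_mul, div_le_one (by positivity)]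
        linarith
      have e3 := mul_le_mul_of_nonneg_right e1 hq0.le
      calc 2 * min (y / 2) (1 / (2 * ((m0 : ℝ) + 1))) * (Q.q f.1 : ℝ)
          = min (y / 2) (1 / (2 * ((m0 : ℝ) + 1))) * (2 * Q.q f.1) := by ring
        _ ≤ 1 := e3.trans e2
        _ ≤ _ := hB
    · have e4 : |(b : ℝ)| * 1 ≤ |(b : ℝ)| * (2 * Q.q f.1) :=
        mul_le_mul_of_nonneg_left (by linarith) hb0
      calc (Q.B f.1 f.2 : ℝ) < y * (2 * Q.q f.1) + b := by linarith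
        _ ≤ y * (2 * Q.q f.1) + |(b : ℝ)| * (2 * Q.q f.1) := by linarith
        _ = _ := by ring
  · left
    have h9' : (m0 : ℝ) ≤ Q.q f.1 := by exact_mod_cast h9.le
    have h10 : |(b : ℝ)| ≤ ε * (2 * Q.q f.1) := by
      have := mul_le_mul_of_nonneg_left h9' (by linarith : 0 ≤ 2 * ε)
      linarith
    refine ⟨h1, h2, h3, h4, h6, ?_, ?_⟩
    · calc 2 * (x - ε) * (Q.q f.1 : ℝ) = x * (2 * Q.q f.1) - ε * (2 * Q.q f.1) := by ring
        _ ≤ _ := by linarith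
    · calc (Q.B f.1 f.2 : ℝ) < y * (2 * Q.q f.1) + ε * (2 * Q.q f.1) := by linarith
        _ = _ := by ring

theorem low_sub {Q : Form} {T : ℝ} {N : ℕ} {γ : Mat} {b bt : ℤ} {x y ε : ℝ}
    {m0 : ℕ} (hx : 0 < x) (hε : 0 ≤ ε) (hb : |(b : ℝ)| ≤ 2 * ε * m0)
    (hbt : (bt : ℝ) ≤ 2 * x * m0) (hm0 : 0 < m0) (n : ℕ) :
    secQ Q T N γ (x + ε) (y - ε) n ⊆ CS Q T N γ b bt x y n ∪
      secQ Q T N γ (x + ε) (y - ε) m0 := by
  rintro f ⟨h1, h2, h3, h4, h5, h6, h7⟩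
  rcases le_or_gt (Q.q f.1) (m0 : ℤ) with h9 | h9
  · right
    exact ⟨h1, h2, h3, h4, h9, h6, h7⟩
  · left
    have hm : (0 : ℝ) < m0 := by exact_mod_cast hm0
    have h9' : (m0 : ℝ) ≤ Q.q f.1 := by exact_mod_cast h9.le
    have hq0 : (0 : ℝ) < 2 * Q.q f.1 := by linarith
    have h10 : |(b : ℝ)| ≤ ε * (2 * Q.q f.1) := by
      have := mul_le_mul_of_nonneg_left h9' (by linarith : 0 ≤ 2 * ε)
      linarith
    have hb1 := neg_abs_le (b : ℝ)
    have hb2 := le_abs_self (b : ℝ)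
    have h11 : 2 * x * m0 ≤ x * (2 * Q.q f.1) := by
      have := mul_le_mul_of_nonneg_left h9' (by linarith : 0 ≤ 2 * x)
      linarith
    have h12 : 0 ≤ ε * (2 * Q.q f.1) := by positivity
    have e6 : 2 * (x + ε) * (Q.q f.1 : ℝ) = x * (2 * Q.q f.1) + ε * (2 * Q.q f.1) := by ring
    have e7 : 2 * (y - ε) * (Q.q f.1 : ℝ) = y * (2 * Q.q f.1) - ε * (2 * Q.q f.1) := by ring
    rw [e6] at h6
    rw [e7] at h7
    refine ⟨h1, h2, h3, h4, ?_, h5, ?_, ?_⟩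
    · have : (bt : ℝ) ≤ Q.B f.1 f.2 := by linarith
      exact_mod_cast this
    · rw [le_div_iff₀ hq0]; linarith
    · rw [div_lt_iff₀ hq0]; linarith

/-- the count of `CS` -/
theorem csT (hR : StHR) {d : ℕ} {Q : Form} (hQ : Hyp d Q) {T : ℝ} (hT : 0 < T) {N : ℕ}
    (hN : 0 < N) (hNe : Even N) {γ : Mat} (hγ : (N : ℤ) ∣ γ.det - 1) :
    ∃ κ : ℝ, 0 < κ ∧ ∀ b bt : ℤ, ∀ x y : ℝ, 0 < x → x < y →
      (∀ n : ℕ, (CS Q T N γ b bt x y n).Finite) ∧
      Tendsto (fun n : ℕ => ((CS Q T N γ b bt x y n).ncard : ℝ) / n) atTop (𝓝 (κ * (y - x))) := by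
  obtain ⟨κ, hκ, hc⟩ := hR d Q hQ T hT N hN hNe γ hγ
  refine ⟨κ, hκ, fun b bt x y hx hxy => ?_⟩
  have hy : 0 < y := hx.trans hxy
  have hs0 : ∀ m0 : ℕ, 0 < min (y / 2) (1 / (2 * ((m0 : ℝ) + 1))) := fun m0 =>
    lt_min (by linarith) (by positivity)
  have hs1 : ∀ m0 : ℕ, min (y / 2) (1 / (2 * ((m0 : ℝ) + 1))) < y + |(b : ℝ)| := fun m0 =>
    (min_le_left _ _).trans_lt (by linarith [abs_nonneg (b : ℝ)])
  -- the threshold
  have hm : ∀ ε : ℝ, 0 < ε → ∃ m0 : ℕ, 0 < m0 ∧ |(b : ℝ)| ≤ 2 * ε * m0 ∧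
      (bt : ℝ) ≤ 2 * x * m0 := by
    intro ε hε
    obtain ⟨m1, h1⟩ := exists_nat_ge (|(b : ℝ)| / (2 * ε))
    obtain ⟨m2, h2⟩ := exists_nat_ge ((bt : ℝ) / (2 * x))
    rw [div_le_iff₀ (by positivity)] at h1 h2
    refine ⟨m1 + m2 + 1, by omega, ?_, ?_⟩
    · push_cast
      have h3 : (0 : ℝ) ≤ 2 * ε * (m2 + 1) := by positivity
      linarith
    · push_cast
      have h3 : (0 : ℝ) ≤ 2 * x * (m1 + 1) := by positivity
      linarith
  have hfin : ∀ n : ℕ, (CS Q T N γ b bt x y n).Finite := by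
    intro n
    obtain ⟨m0, h0, h1, -⟩ := hm (x / 2) (by linarith)
    refine Set.Finite.subset (Set.Finite.union ?_ ?_) (up_sub hQ (by linarith) h1 n)
    · exact (hc _ _ (by linarith) (by linarith)).1 n
    · exact (hc _ _ (hs0 m0) (hs1 m0)).1 m0
  refine ⟨hfin, ?_⟩
  rw [tendsto_order]
  constructor
  · intro a ha
    have hlim : Tendsto (fun ε : ℝ => κ * (y - x - 2 * ε)) (𝓝[>] 0)
        (𝓝 (κ * (y - x - 2 * 0))) := by
      refine Tendsto.mono_left ?_ nhdsWithin_le_nhds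
      exact (Continuous.tendsto (by fun_prop) 0)
    have h1 := hlim.eventually_const_lt (u := a) (by linarith)
    have h2 : ∀ᶠ ε : ℝ in 𝓝[>] 0, ε < (y - x) / 2 :=
      (eventually_lt_nhds (by linarith)).filter_mono nhdsWithin_le_nhds
    obtain ⟨ε, ⟨h3, h4⟩, h5⟩ := ((h1.and h2).and self_mem_nhdsWithin).exists
    have hε : (0 : ℝ) < ε := h5
    obtain ⟨m0, h0, h6, h7⟩ := hm ε hε
    obtain ⟨hf1, hl1⟩ := hc (x + ε) (y - ε) (by linarith) (by linarith)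
    have hl2 := hl1.sub (tendsto_const_div_atTop_nhds_zero_nat
      ((secQ Q T N γ (x + ε) (y - ε) m0).ncard : ℝ))
    have h8 : a < κ * (y - ε - (x + ε)) - 0 := by
      calc a < κ * (y - x - 2 * ε) := h3
        _ = _ := by ring
    filter_upwards [hl2.eventually_const_lt h8] with n hn
    refine hn.trans_le ?_
    rw [← sub_div]
    refine div_le_div_of_nonneg_right ?_ (Nat.cast_nonneg n)
    have h9 := (Set.ncard_le_ncard (low_sub hx hε.le h6 h7 h0 n (Q := Q) (T := T) (N := N) (γ := γ)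
      (y := y)) ((hfin n).union (hf1 m0))).trans (Set.ncard_union_le _ _)
    have h10 : ((secQ Q T N γ (x + ε) (y - ε) n).ncard : ℝ) ≤
      ((CS Q T N γ b bt x y n).ncard : ℝ) + ((secQ Q T N γ (x + ε) (y - ε) m0).ncard : ℝ) := by
      exact_mod_cast h9
    linarith
  · intro a ha
    have hlim : Tendsto (fun ε : ℝ => κ * (y - x + 2 * ε)) (𝓝[>] 0)
        (𝓝 (κ * (y - x + 2 * 0))) := by
      refine Tendsto.mono_left ?_ nhdsWithin_le_nhds
      exact (Continuous.tendsto (by fun_prop) 0)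
    have h1 := hlim.eventually_lt_const (u := a) (by linarith)
    have h2 : ∀ᶠ ε : ℝ in 𝓝[>] 0, ε < x :=
      (eventually_lt_nhds (by linarith)).filter_mono nhdsWithin_le_nhds
    obtain ⟨ε, ⟨h3, h4⟩, h5⟩ := ((h1.and h2).and self_mem_nhdsWithin).exists
    have hε : (0 : ℝ) < ε := h5
    obtain ⟨m0, h0, h6, h7⟩ := hm ε hε
    obtain ⟨hf1, hl1⟩ := hc (x - ε) (y + ε) (by linarith) (by linarith)
    have hf2 := (hc _ _ (hs0 m0) (hs1 m0)).1 m0
    have hl2 := hl1.add (tendsto_const_div_atTop_nhds_zero_nat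
      ((secQ Q T N γ (min (y / 2) (1 / (2 * ((m0 : ℝ) + 1)))) (y + |(b : ℝ)|) m0).ncard : ℝ))
    have h8 : κ * (y + ε - (x - ε)) + 0 < a := by
      calc κ * (y + ε - (x - ε)) + 0 = κ * (y - x + 2 * ε) := by ring
        _ < a := h3
    filter_upwards [hl2.eventually_lt_const h8] with n hn
    refine lt_of_le_of_lt ?_ hn
    rw [← add_div]
    refine div_le_div_of_nonneg_right ?_ (Nat.cast_nonneg n)
    have h9 := (Set.ncard_le_ncard (up_sub hQ hε.le h6 n (T := T) (N := N) (γ := γ)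
      (x := x) (y := y) (bt := bt)) ((hf1 n).union hf2)).trans (Set.ncard_union_le _ _)
    exact_mod_cast h9

/-! ### all classes -/

/-- the frames -/
def FS (Q : Form) (T : ℝ) (a b bt : ℤ) (h t0 : ℕ) (x y : ℝ) (n : ℕ) : Set (V × V) :=
  {f | wd f.1 f.2 = 1 ∧ Cd Q a b h t0 f ∧ Sec Q T f.1 ∧ Cn Q f.2 ∧ bt ≤ Q.B f.1 f.2 ∧
    Q.q f.1 ≤ n ∧ a * x ≤ ((Q.B f.1 f.2 : ℝ) - b) / (2 * Q.q f.1) ∧
    ((Q.B f.1 f.2 : ℝ) - b) / (2 * Q.q f.1) < a * y}

theorem mem_FS_iff {Q : Form} {T : ℝ} {a b bt : ℤ} {h t0 N : ℕ} (hN : (N : ℤ) = 2 * a * h)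
    (hN0 : 0 < N) {x y : ℝ} {n : ℕ} {f : V × V} {g : V × V} (hg : g ∈ Gm Q a b h t0 N) :
    (f ∈ FS Q T a b bt h t0 x y n ∧ rd N f = g) ↔
      f ∈ CS Q T N (mt g) b bt (a * x) (a * y) n := by
  classical
  unfold Gm at hg
  rw [Finset.mem_filter] at hg
  constructor
  · rintro ⟨⟨h1, h2, h3, h4, h5, h6, h7, h8⟩, rfl⟩
    exact ⟨h1, rd_cg N f, h3, h4, h5, h6, h7, h8⟩
  · rintro ⟨h1, hc, h3, h4, h5, h6, h7, h8⟩
    have hc : Cg N f g := hc
    exact ⟨⟨h1, (cd_congr hN hc).2 hg.2.2, h3, h4, h5, h6, h7, h8⟩,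
      cg_unique (rd_mem hN0 f) hg.1 (rd_cg N f) hc⟩

theorem FS_finite {Q : Form} {T : ℝ} {a b bt : ℤ} {h t0 N : ℕ} (hN : (N : ℤ) = 2 * a * h)
    (hN0 : 0 < N) {x y : ℝ} {n : ℕ}
    (hf : ∀ g ∈ Gm Q a b h t0 N, (CS Q T N (mt g) b bt (a * x) (a * y) n).Finite) :
    (FS Q T a b bt h t0 x y n).Finite := by
  apply Set.Finite.subset (Set.Finite.biUnion (Gm Q a b h t0 N).finite_toSet hf)
  intro f hf'
  have h1 := rd_mem_Gm hN hN0 hf'.1 hf'.2.1
  rw [Set.mem_iUnion₂]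
  exact ⟨rd N f, h1, (mem_FS_iff hN hN0 h1).1 ⟨hf', rfl⟩⟩

theorem FS_card {Q : Form} {T : ℝ} {a b bt : ℤ} {h t0 N : ℕ} (hN : (N : ℤ) = 2 * a * h)
    (hN0 : 0 < N) {x y : ℝ} {n : ℕ}
    (hf : ∀ g ∈ Gm Q a b h t0 N, (CS Q T N (mt g) b bt (a * x) (a * y) n).Finite) :
    (FS Q T a b bt h t0 x y n).ncard =
      ∑ g ∈ Gm Q a b h t0 N, (CS Q T N (mt g) b bt (a * x) (a * y) n).ncard := by
  classical
  have hF := FS_finite hN hN0 hf
  rw [Set.ncard_eq_toFinset_card _ hF,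
    Finset.card_eq_sum_card_fiberwise (f := rd N) (t := Gm Q a b h t0 N)]
  · apply Finset.sum_congr rfl
    intro g hg
    rw [Set.ncard_eq_toFinset_card _ (hf g hg)]
    congr 1
    ext f
    rw [Finset.mem_filter, Set.Finite.mem_toFinset, Set.Finite.mem_toFinset]
    exact mem_FS_iff hN hN0 hg
  · intro f hf'
    have h1 : f ∈ FS Q T a b bt h t0 x y n := by simpa using hf'
    exact rd_mem_Gm hN hN0 h1.1 h1.2.1

/-! ### from frames to pairs -/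

/-- the fibre over `(t, d)` -/
def Fr2 (Q : Form) (T : ℝ) (a b c : ℤ) (p : ℕ × ℕ) : Set (V × V) :=
  {f : V × V | wd f.1 f.2 = 1 ∧ Sec Q T f.1 ∧ Cn Q f.2 ∧ Q.q f.1 = (p.2 : ℤ) ∧
    Q.B f.1 f.2 = 2 * a * p.1 + b ∧ Q.q f.2 = a * (fv a b c p.1 / p.2)}

/-- the pairs with `T0 ≤ t` -/
def PT (a b c : ℤ) (h t0 T0 : ℕ) (x y : ℝ) (n : ℕ) : Set (ℕ × ℕ) :=
  {p : ℕ × ℕ | PG a b c h t0 p ∧ T0 ≤ p.1 ∧ p.2 ≤ n ∧ x ≤ (p.1 : ℝ) / p.2 ∧
    (p.1 : ℝ) / p.2 < y}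

theorem tq_FS {d : ℕ} {Q : Form} (hQ : Hyp d Q) {T : ℝ} {a b c : ℤ} {h t0 T0 : ℕ} (ha : 0 < a)
    (hD : Q.D = 4 * a * c - b ^ 2) {x y : ℝ} (hx : 0 < x) {n : ℕ} {f : V × V}
    (hf : f ∈ FS Q T a b (2 * a * T0 + b) h t0 x y n) :
    tq Q a b f ∈ PT a b c h t0 T0 x y n ∧ f ∈ Fr2 Q T a b c (tq Q a b f) := by
  obtain ⟨hw, ⟨⟨m, hm⟩, ⟨e, he⟩⟩, hs, hc2, hbt, hn, hx1, hy1⟩ := hf
  have hq : 0 < Q.q f.1 := Cn.q_pos hQ hs.1
  have hqR : (0 : ℝ) < (Q.q f.1 : ℝ) := by exact_mod_cast hq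
  have haR : (0 : ℝ) < (a : ℝ) := by exact_mod_cast ha
  have hB : Q.B f.1 f.2 = 2 * a * (t0 + h * m) + b := by linear_combination hm
  have h0 : 0 < ((Q.B f.1 f.2 : ℝ) - b) := by
    have h1 : 0 < a * x := mul_pos haR hx
    have h2 := lt_of_lt_of_le h1 hx1
    rw [lt_div_iff₀ (by positivity)] at h2
    linarith
  have h0' : 0 < Q.B f.1 f.2 - b := by exact_mod_cast h0
  have hk : 0 < (t0 : ℤ) + h * m := by
    rw [hB] at h0'
    have h2 : 0 < 2 * a * (t0 + h * m) := by linarith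
    exact (mul_pos_iff_of_pos_left (by linarith : (0 : ℤ) < 2 * a)).1 h2
  obtain ⟨t, ht⟩ := Int.eq_ofNat_of_zero_le hk.le
  obtain ⟨d, hd⟩ := Int.eq_ofNat_of_zero_le hq.le
  have hB2 : Q.B f.1 f.2 = 2 * a * t + b := by rw [hB, ht]
  have hp : tq Q a b f = (t, d) := by
    unfold tq
    rw [hB2, hd]
    have h3 : (2 * a * (t : ℤ) + b - b) / (2 * a) = t := by
      rw [add_sub_cancel_right]
      exact Int.mul_ediv_cancel_left _ (by linarith)
    rw [h3]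
    simp
  have hk4 := key4 hD hw hB2
  have hd0 : 0 < d := by
    have : (0 : ℤ) < (d : ℤ) := by rw [hd] at hq; exact hq
    exact_mod_cast this
  have hfe : (d : ℤ) * e = fv a b c t := by
    rw [hd, he] at hk4
    have h4 : a * ((d : ℤ) * e) = a * fv a b c t := by
      rw [← hk4]; ring
    exact mul_left_cancel₀ ha.ne' h4
  have hT0 : T0 ≤ t := by
    rw [hB2] at hbt
    have h5 : 2 * a * (T0 : ℤ) ≤ 2 * a * t := by linarith
    have h6 := le_of_mul_le_mul_left h5 (by linarith : (0 : ℤ) < 2 * a)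
    exact_mod_cast h6
  rw [hp]
  refine ⟨⟨⟨hd0, ?_, ⟨e, hfe.symm⟩⟩, hT0, ?_, ?_, ?_⟩, hw, hs, hc2, ?_, hB2, ?_⟩
  · have h5 : (t : ℤ) ≡ t0 [ZMOD h] := by
      have h6 : (t : ℤ) = t0 + h * m := by rw [ht]
      rw [h6]
      exact (Int.modEq_iff_dvd.2 ⟨-m, by ring⟩)
    exact (Int.natCast_modEq_iff).1 h5
  · rw [hd] at hn
    exact_mod_cast hn
  · have h7 : ((Q.B f.1 f.2 : ℝ) - b) / (2 * Q.q f.1) = a * ((t : ℝ) / d) := by
      rw [hB2, hd]
      push_cast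
      have : (d : ℝ) ≠ 0 := by positivity
      field_simp
      ring
    rw [h7] at hx1
    exact le_of_mul_le_mul_left hx1 haR
  · have h7 : ((Q.B f.1 f.2 : ℝ) - b) / (2 * Q.q f.1) = a * ((t : ℝ) / d) := by
      rw [hB2, hd]
      push_cast
      have : (d : ℝ) ≠ 0 := by positivity
      field_simp
      ring
    rw [h7] at hy1
    exact lt_of_mul_lt_mul_left hy1 haR.le
  · exact hd
  · rw [he, ← hfe, Int.mul_ediv_cancel_left]
    have : (0 : ℤ) < (d : ℤ) := by exact_mod_cast hd0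
    exact this.ne'

theorem Fr2_sub {Q : Form} {T : ℝ} {a b c : ℤ} {h t0 T0 : ℕ} (ha : 0 < a)
    {x y : ℝ} {n : ℕ} {p : ℕ × ℕ}
    (hp : p ∈ PT a b c h t0 T0 x y n) {f : V × V} (hf : f ∈ Fr2 Q T a b c p) :
    f ∈ FS Q T a b (2 * a * T0 + b) h t0 x y n ∧ tq Q a b f = p := by
  obtain ⟨⟨hd0, ht, hdv⟩, hT0, hn, hx1, hy1⟩ := hp
  obtain ⟨hw, hs, hc2, hq, hB, hc⟩ := hf
  have haR : (0 : ℝ) < (a : ℝ) := by exact_mod_cast ha
  have h7 : ((Q.B f.1 f.2 : ℝ) - b) / (2 * Q.q f.1) = a * ((p.1 : ℝ) / p.2) := by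
    rw [hB, hq]
    push_cast
    have : (p.2 : ℝ) ≠ 0 := by positivity
    field_simp
    ring
  refine ⟨⟨hw, ⟨?_, ?_⟩, hs, hc2, ?_, ?_, ?_, ?_⟩, ?_⟩
  · rw [hB]
    have h5 := (Int.natCast_modEq_iff).2 ht
    obtain ⟨m, hm⟩ := Int.modEq_iff_dvd.1 h5
    refine ⟨-m, ?_⟩
    linear_combination (-2 * a) * hm
  · rw [hc]; exact Dvd.intro _ rfl
  · rw [hB]
    have h8 : (T0 : ℤ) ≤ p.1 := by exact_mod_cast hT0
    have h9 := mul_le_mul_of_nonneg_left h8 (by linarith : (0 : ℤ) ≤ 2 * a)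
    linarith
  · rw [hq]; exact_mod_cast hn
  · rw [h7]; exact mul_le_mul_of_nonneg_left hx1 haR.le
  · rw [h7]; exact mul_lt_mul_of_pos_left hy1 haR
  · unfold tq
    rw [hB, hq]
    have h3 : (2 * a * (p.1 : ℤ) + b - b) / (2 * a) = p.1 := by
      rw [add_sub_cancel_right]
      exact Int.mul_ediv_cancel_left _ (by linarith)
    rw [h3]
    simp

theorem PT_finite (a b c : ℤ) (h t0 T0 : ℕ) (x y : ℝ) (n : ℕ) :
    (PT a b c h t0 T0 x y n).Finite :=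
  (CntG3.PS_finite a b c h t0 x y n).subset (fun _ hp => ⟨hp.1, hp.2.2⟩)

theorem FS_card2 {d : ℕ} {Q : Form} (hQ : Hyp d Q) {T : ℝ} {a b c : ℤ} {h t0 T0 : ℕ} (ha : 0 < a)
    (hD : Q.D = 4 * a * c - b ^ 2) {x y : ℝ} (hx : 0 < x) {n : ℕ}
    (hf : (FS Q T a b (2 * a * T0 + b) h t0 x y n).Finite) :
    (FS Q T a b (2 * a * T0 + b) h t0 x y n).ncard =
      ∑ p ∈ (PT_finite a b c h t0 T0 x y n).toFinset, (Fr2 Q T a b c p).ncard := by
  classical
  rw [Set.ncard_eq_toFinset_card _ hf,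
    Finset.card_eq_sum_card_fiberwise (f := tq Q a b)
      (t := (PT_finite a b c h t0 T0 x y n).toFinset)]
  · apply Finset.sum_congr rfl
    intro p hp
    rw [Set.Finite.mem_toFinset] at hp
    rw [← Set.ncard_coe_finset]
    congr 1
    ext f
    rw [Finset.mem_coe, Finset.mem_filter, Set.Finite.mem_toFinset]
    constructor
    · rintro ⟨h1, rfl⟩
      exact (tq_FS hQ ha hD hx h1).2
    · intro h1
      exact Fr2_sub ha hp h1
  · intro f hf'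
    have h1 : f ∈ FS Q T a b (2 * a * T0 + b) h t0 x y n := by simpa using hf'
    have h2 := (tq_FS hQ ha hD hx h1).1
    simpa using h2

/-! ### small `t` -/

theorem fv_ne {a b c : ℤ} {d : ℕ} (hd : b ^ 2 - 4 * a * c = d)
    (hns : ¬ IsSquare d) (t : ℕ) : fv a b c t ≠ 0 := by
  intro h0
  apply hns
  have h1 : (2 * a * t + b) ^ 2 = (d : ℤ) := by
    unfold fv at h0
    rw [← hd]
    linear_combination (4 * a) * h0
  refine ⟨(2 * a * (t : ℤ) + b).natAbs, ?_⟩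
  have h2 : ((d : ℕ) : ℤ) = (((2 * a * (t : ℤ) + b).natAbs * (2 * a * (t : ℤ) + b).natAbs : ℕ) : ℤ) := by
    rw [← h1, Nat.cast_mul, Int.natCast_natAbs, abs_mul_abs_self, sq]
  exact_mod_cast h2

/-- for large `t` everything is positive -/
theorem fv_pos {a b c : ℤ} (ha : 0 < a) {t : ℕ} (ht : b.natAbs + c.natAbs + 1 ≤ t) :
    0 < fv a b c t ∧ 0 < 2 * a * t + b := by
  have h1 : |b| + |c| + 1 ≤ (t : ℤ) := by
    have : ((b.natAbs + c.natAbs + 1 : ℕ) : ℤ) ≤ t := by exact_mod_cast ht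
    push_cast at this
    exact this
  have hb := neg_abs_le b
  have hc := neg_abs_le c
  have hb0 := abs_nonneg b
  have hc0 := abs_nonneg c
  have ht1 : (1 : ℤ) ≤ t := by linarith
  have ha1 : (1 : ℤ) ≤ a := ha
  constructor
  · unfold fv
    have e1 : (t : ℤ) ^ 2 ≤ a * (t : ℤ) ^ 2 := by nlinarith [sq_nonneg (t : ℤ)]
    have e2 : -|b| * t ≤ b * t := mul_le_mul_of_nonneg_right hb (by linarith)
    have e3 : (t : ℤ) * (|c| + 1) ≤ t * (t - |b|) :=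
      mul_le_mul_of_nonneg_left (by linarith) (by linarith)
    have e4 : |c| * 1 ≤ |c| * t := mul_le_mul_of_nonneg_left ht1 hc0
    nlinarith
  · have e1 : (t : ℤ) * 1 ≤ t * a := mul_le_mul_of_nonneg_left ha1 (by linarith)
    nlinarith

/-- the pairs with small `t` -/
theorem small_finite {a b c : ℤ} (hf : ∀ t : ℕ, fv a b c t ≠ 0) (T0 : ℕ) :
    {p : ℕ × ℕ | p.1 < T0 ∧ (p.2 : ℤ) ∣ fv a b c p.1}.Finite := by
  apply Set.Finite.subset ((Finset.range T0 ×ˢ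
    Finset.range (∑ t ∈ Finset.range T0, (fv a b c t).natAbs + 1)).finite_toSet)
  rintro p ⟨h1, h2⟩
  rw [Finset.mem_coe, Finset.mem_product, Finset.mem_range, Finset.mem_range]
  refine ⟨h1, Nat.lt_succ_of_le ?_⟩
  have h3 : p.2 ≤ (fv a b c p.1).natAbs :=
    Nat.le_of_dvd (Int.natAbs_pos.2 (hf p.1)) (Int.natCast_dvd.1 h2)
  exact h3.trans (Finset.single_le_sum (f := fun t : ℕ => (fv a b c t).natAbs)
    (fun _ _ => Nat.zero_le _) (Finset.mem_range.2 h1))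

theorem form_ok {a b c : ℤ} (ha : 0 < a) {t dd : ℕ} (hd : 0 < dd)
    (hdv : (dd : ℤ) ∣ fv a b c t) (hp : 0 < fv a b c t ∧ 0 < 2 * a * t + b) :
    (⟨dd, 2 * a * t + b, a * (fv a b c t / dd)⟩ : Form).D = 4 * a * c - b ^ 2 ∧
    0 < a * (fv a b c t / dd) := by
  obtain ⟨e, he⟩ := hdv
  have hd' : (0 : ℤ) < dd := by exact_mod_cast hd
  constructor
  · unfold Form.D
    rw [he, Int.mul_ediv_cancel_left _ hd'.ne']
    have h2 : a * (t : ℤ) ^ 2 + b * t + c = dd * e := he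
    simp only
    linear_combination (-4 * a) * h2
  · rw [he, Int.mul_ediv_cancel_left _ hd'.ne']
    have h3 := hp.1
    rw [he] at h3
    exact mul_pos ha ((mul_pos_iff_of_pos_left hd').1 h3)

end CntG18

open CntG18 in
/-- (R3) -/
theorem stHCntG_18 (hR : StHR) (hS : StHSys) : StHCntG := by
  intro a b c ha d hdisc hns h hh t0
  classical
  obtain ⟨ι, _, S, w, α, hSd, hα, hw, -, hF⟩ := hS d hns
  obtain ⟨N, hN⟩ := Int.eq_ofNat_of_zero_le
    (show 0 ≤ 2 * a * (h : ℤ) by positivity)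
  have hN' : (N : ℤ) = 2 * a * h := hN.symm
  have hN0 : 0 < N := by
    have h1 : (0 : ℤ) < N := by rw [hN']; positivity
    exact_mod_cast h1
  have hNe : Even N := by
    have h1 : Even (N : ℤ) := ⟨a * h, by rw [hN']; ring⟩
    exact_mod_cast h1
  have hT := per_pos hα
  have hDi : ∀ i, (S.Q i).D = 4 * a * c - b ^ 2 := by
    intro i
    rw [(S.hyp i).disc, hSd]
    linarith
  set G : ι → Finset (V × V) := fun i => Gm (S.Q i) a b h t0 N with hG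
  have hGdet : ∀ i, ∀ g ∈ G i, (N : ℤ) ∣ (mt g).det - 1 := by
    intro i g hg
    rw [mt_det]
    rw [hG] at hg
    simp only [Gm, Finset.mem_filter] at hg
    exact hg.2.1
  have hex : ∀ i, ∀ g : V × V, ∃ κ : ℝ, 0 < κ ∧ (g ∈ G i → ∀ b bt : ℤ, ∀ x y : ℝ, 0 < x → x < y →
      (∀ n : ℕ, (CS (S.Q i) (per α) N (mt g) b bt x y n).Finite) ∧
      Tendsto (fun n : ℕ => ((CS (S.Q i) (per α) N (mt g) b bt x y n).ncard : ℝ) / n) atTop
        (𝓝 (κ * (y - x)))) := by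
    intro i g
    by_cases hg : g ∈ G i
    · obtain ⟨κ, h1, h2⟩ := csT hR (S.hyp i) hT hN0 hNe (hGdet i g hg)
      exact ⟨κ, h1, fun _ => h2⟩
    · exact ⟨1, one_pos, fun h => absurd h hg⟩
  choose κ hκ hcl using hex
  have haR : (0 : ℝ) < (a : ℝ) := by exact_mod_cast ha
  set T0 : ℕ := b.natAbs + c.natAbs + 1 with hT0
  -- the sum over the fibres
  have hone : ∀ t dd : ℕ, T0 ≤ t → 0 < dd → (dd : ℤ) ∣ fv a b c t →
      ∑ i, ((Fr2 (S.Q i) (per α) a b c (t, dd)).ncard : ℝ) / (w i : ℝ) = 1 := by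
    intro t dd ht hdd hdv
    have hp := fv_pos (b := b) (c := c) ha ht
    obtain ⟨h1, h2⟩ := form_ok ha hdd hdv hp
    obtain ⟨-, h3⟩ := hF ⟨dd, 2 * a * t + b, a * (fv a b c t / dd)⟩
      (by show (0 : ℤ) < (dd : ℤ); exact_mod_cast hdd) hp.2 h2 (by rw [h1]; linarith)
    have h4 : ((∑ i, ((Fr2 (S.Q i) (per α) a b c (t, dd)).ncard : ℝ) / (w i : ℝ) : ℝ) : ℂ) = 1 := by
      push_cast
      exact h3
    exact_mod_cast h4
  have hfne := fv_ne hdisc hns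
  refine ⟨∑ i, (∑ g ∈ G i, κ i g * a) / w i, ?_, ?_⟩
  · -- positivity
    -- a point with large `t`
    set t1 : ℕ := t0 + h * T0 with ht1
    have ht1' : T0 ≤ t1 := by
      have : T0 ≤ h * T0 := Nat.le_mul_of_pos_left _ hh
      omega
    have h1 := hone t1 1 ht1' one_pos (by simp)
    have h2 : ∃ i, (Fr2 (S.Q i) (per α) a b c (t1, 1)).Nonempty := by
      by_contra hc
      push Not at hc
      have h3 : ∑ i, ((Fr2 (S.Q i) (per α) a b c (t1, 1)).ncard : ℝ) / (w i : ℝ) = 0 := by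
        apply Finset.sum_eq_zero
        intro i _
        rw [hc i]
        simp
      rw [h3] at h1
      exact zero_ne_one h1
    obtain ⟨i, f, hf⟩ := h2
    have hnn : ∀ j, 0 ≤ ∑ g ∈ G j, κ j g * a :=
      fun j => Finset.sum_nonneg (fun g _ => (mul_pos (hκ j g) haR).le)
    apply Finset.sum_pos' (fun j _ => div_nonneg (hnn j) (Nat.cast_nonneg _))
      ⟨i, Finset.mem_univ i, ?_⟩
    have h3 : rd N f ∈ G i := by
      apply rd_mem_Gm hN' hN0 hf.1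
      have h4 : ((t1, 1) : ℕ × ℕ) ∈ PT a b c h t0 T0 (t1 : ℝ) (t1 + 1 : ℝ) 1 :=
        ⟨⟨one_pos, by rw [ht1]; simp [Nat.ModEq], by simp⟩, ht1', le_refl _, by simp, by simp⟩
      exact (Fr2_sub ha h4 hf).1.2.1
    have h7 : (0 : ℝ) < w i := by exact_mod_cast hw i
    exact div_pos (Finset.sum_pos (fun g _ => mul_pos (hκ i g) haR) ⟨_, h3⟩) h7
  · intro x y hx hxy
    refine ⟨fun n => CntG3.PS_finite a b c h t0 x y n, ?_⟩
    have hax : 0 < a * x := mul_pos haR hx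
    have haxy : a * x < a * y := mul_lt_mul_of_pos_left hxy haR
    have hfin : ∀ i n, ∀ g ∈ G i,
        (CS (S.Q i) (per α) N (mt g) b (2 * a * T0 + b) (a * x) (a * y) n).Finite := by
      intro i n g hg
      exact (hcl i g hg b (2 * a * T0 + b) (a * x) (a * y) hax haxy).1 n
    have hFS : ∀ i n, (FS (S.Q i) (per α) a b (2 * a * T0 + b) h t0 x y n).Finite := fun i n =>
      FS_finite hN' hN0 (hfin i n)
    have hcard : ∀ n, ((PT a b c h t0 T0 x y n).ncard : ℝ) =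
        ∑ i, (∑ g ∈ G i, ((CS (S.Q i) (per α) N (mt g) b (2 * a * T0 + b)
          (a * x) (a * y) n).ncard : ℝ)) / w i := by
      intro n
      have h1 : ∀ i, (∑ g ∈ G i, ((CS (S.Q i) (per α) N (mt g) b (2 * a * T0 + b)
          (a * x) (a * y) n).ncard : ℝ)) =
          ∑ p ∈ (PT_finite a b c h t0 T0 x y n).toFinset,
            ((Fr2 (S.Q i) (per α) a b c p).ncard : ℝ) := by
        intro i
        have h2 := FS_card hN' hN0 (hfin i n)
        have h3 := FS_card2 (S.hyp i) ha (hDi i) hx (hFS i n)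
        rw [h3] at h2
        exact_mod_cast h2.symm
      simp only [h1]
      simp only [Finset.sum_div]
      rw [Finset.sum_comm]
      have h4 : ∀ p ∈ (PT_finite a b c h t0 T0 x y n).toFinset,
          ∑ i, ((Fr2 (S.Q i) (per α) a b c p).ncard : ℝ) / (w i : ℝ) = 1 := by
        intro p hp
        rw [Set.Finite.mem_toFinset] at hp
        exact hone p.1 p.2 hp.2.1 hp.1.1 hp.1.2.2
      rw [Finset.sum_congr rfl h4, Finset.sum_const, nsmul_eq_mul, mul_one,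
        Set.ncard_eq_toFinset_card _ (PT_finite a b c h t0 T0 x y n)]
    have hlim : Tendsto (fun n : ℕ => ((PT a b c h t0 T0 x y n).ncard : ℝ) / n) atTop
        (𝓝 ((∑ i, (∑ g ∈ G i, κ i g * a) / w i) * (y - x))) := by
      have hlim1 : Tendsto (fun n : ℕ => ∑ i, (∑ g ∈ G i,
          ((CS (S.Q i) (per α) N (mt g) b (2 * a * T0 + b) (a * x) (a * y) n).ncard : ℝ) / n) / w i)
          atTop (𝓝 (∑ i, (∑ g ∈ G i, κ i g * (a * y - a * x)) / w i)) := by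
        apply tendsto_finsetSum
        intro i _
        apply Tendsto.div_const
        apply tendsto_finsetSum
        intro g hg
        exact (hcl i g hg b (2 * a * T0 + b) (a * x) (a * y) hax haxy).2
      have hval : (∑ i, (∑ g ∈ G i, κ i g * (a * y - a * x)) / w i) =
          (∑ i, (∑ g ∈ G i, κ i g * a) / w i) * (y - x) := by
        rw [Finset.sum_mul]
        apply Finset.sum_congr rfl
        intro i _
        rw [div_mul_eq_mul_div, Finset.sum_mul]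
        congr 1
        apply Finset.sum_congr rfl
        intro g _
        ring
      rw [hval] at hlim1
      refine hlim1.congr (fun n => ?_)
      rw [hcard n, Finset.sum_div]
      apply Finset.sum_congr rfl
      intro i _
      rw [← Finset.sum_div]
      ring
    -- the small `t`
    set E : Set (ℕ × ℕ) := {p : ℕ × ℕ | p.1 < T0 ∧ (p.2 : ℤ) ∣ fv a b c p.1} with hE
    have hEf : E.Finite := small_finite hfne T0
    have hz : Tendsto (fun n : ℕ => (E.ncard : ℝ) / n) atTop (𝓝 0) :=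
      tendsto_const_div_atTop_nhds_zero_nat _
    have hup := hlim.add hz
    rw [add_zero] at hup
    refine tendsto_of_tendsto_of_tendsto_of_le_of_le hlim hup (fun n => ?_) (fun n => ?_)
    · refine div_le_div_of_nonneg_right ?_ (Nat.cast_nonneg n)
      have h1 : PT a b c h t0 T0 x y n ⊆ {p : ℕ × ℕ | PG a b c h t0 p ∧ p.2 ≤ n ∧
          x ≤ (p.1 : ℝ) / p.2 ∧ (p.1 : ℝ) / p.2 < y} := fun p hp => ⟨hp.1, hp.2.2⟩
      exact Nat.cast_le.2 (Set.ncard_le_ncard h1 (CntG3.PS_finite a b c h t0 x y n))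
    · beta_reduce
      rw [← add_div]
      refine div_le_div_of_nonneg_right ?_ (Nat.cast_nonneg n)
      have h1 : {p : ℕ × ℕ | PG a b c h t0 p ∧ p.2 ≤ n ∧ x ≤ (p.1 : ℝ) / p.2 ∧
          (p.1 : ℝ) / p.2 < y} ⊆ PT a b c h t0 T0 x y n ∪ E := by
        rintro p ⟨h2, h3, h4, h5⟩
        rcases le_or_gt T0 p.1 with h6 | h6
        · exact Or.inl ⟨h2, h6, h3, h4, h5⟩
        · exact Or.inr ⟨h6, h2.2.2⟩
      have h2 := (Set.ncard_le_ncard h1 ((PT_finite a b c h t0 T0 x y n).union hEf)).trans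
        (Set.ncard_union_le _ _)
      exact_mod_cast h2

end Pool.Agent.Lib.MP_a17b09_nt.HY
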