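import Pool.Agent.Lib.MP_a17b09_nt.HY.Stmts20

/-!
Project HY: E1, geometry of the local coordinates; A8, powers of a solution modulo `K`.
-/

set_option autoImplicit false

open Filter Topology Finset

namespace Pool.Agent.Lib.MP_a17b09_nt.HY

open Pool.Agent.Lib.MP_a17b09_nt.CH

theorem exp_per {d : ℕ} {a : Pell.Solution₁ (d : ℤ)} (ha : PP a) :
    Real.exp (per a) = a.x + a.y * √(d : ℝ) := by
  have := (eps_pos ha).1
  unfold per
  rw [Real.exp_log (by linarith)]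

theorem cosh_per {d : ℕ} {a : Pell.Solution₁ (d : ℤ)} (ha : PP a) :
    Real.cosh (per a) = a.x ∧ Real.sinh (per a) = a.y * √(d : ℝ) := by
  have h0 : 0 < (a.x : ℝ) + a.y * √(d : ℝ) := by linarith [(eps_pos ha).1]
  have e3 : ((a.x : ℝ) + a.y * √(d : ℝ))⁻¹ = (a.x : ℝ) - a.y * √(d : ℝ) := by
    have := pell_real a
    field_simp
    linarith
  rw [Real.cosh_eq, Real.sinh_eq, Real.exp_neg, exp_per ha, e3]
  constructor <;> ring

theorem hlx_quad {d : ℕ} {Q : Form} (hQ : Hyp d Q) (v : V) (τ : ℝ) {x : ℝ} (hx : 0 < x) (θ : ℝ) :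
    hlx Q τ x θ v ^ 2 - (hly Q τ x θ v / x) ^ 2 = Q.q v / x := by
  have hs : 0 < √x := Real.sqrt_pos.2 hx
  have hs2 : √x ^ 2 = x := Real.sq_sqrt hx.le
  have hc := Real.cosh_sq (τ * θ)
  have hx2 : x ^ 2 = √x ^ 4 := by
    rw [show √x ^ 4 = (√x ^ 2) ^ 2 by ring, hs2]
  unfold hlx hly
  rw [hQ.q_eq, div_pow, div_pow, mul_pow, hx2, hs2]
  have e : √x ^ 4 = x * x := by
    rw [← hx2]; ring
  rw [e]
  field_simp
  linear_combination (hX Q v ^ 2 - hY Q v ^ 2) * hc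

theorem hlx_det {d : ℕ} {Q : Form} (hQ : Hyp d Q) (v w : V) (τ : ℝ) {x : ℝ} (hx : 0 < x) (θ : ℝ) :
    hlx Q τ x θ v * hly Q τ x θ w - hlx Q τ x θ w * hly Q τ x θ v = √(d : ℝ) / 2 * wd v w := by
  have hs : 0 < √x := Real.sqrt_pos.2 hx
  have hc := Real.cosh_sq (τ * θ)
  rw [← hQ.wd_eq]
  unfold hlx hly
  field_simp
  linear_combination (hX Q v * hY Q w - hX Q w * hY Q v) * hc

theorem hlx_polar_form {d : ℕ} {Q : Form} (hQ : Hyp d Q) (v w : V) (τ : ℝ) {x : ℝ} (hx : 0 < x)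
    (θ : ℝ) : 2 * x * (hlx Q τ x θ v * hlx Q τ x θ w - hly Q τ x θ v * hly Q τ x θ w / x ^ 2) =
      Q.B v w := by
  have hs : 0 < √x := Real.sqrt_pos.2 hx
  have hs2 : √x ^ 2 = x := Real.sq_sqrt hx.le
  have hc := Real.cosh_sq (τ * θ)
  rw [hQ.B_eq]
  unfold hlx hly
  have e1 : (Real.cosh (τ * θ) * hX Q v - Real.sinh (τ * θ) * hY Q v) / √x *
      ((Real.cosh (τ * θ) * hX Q w - Real.sinh (τ * θ) * hY Q w) / √x) =
      (Real.cosh (τ * θ) * hX Q v - Real.sinh (τ * θ) * hY Q v) *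
      (Real.cosh (τ * θ) * hX Q w - Real.sinh (τ * θ) * hY Q w) / x := by
    rw [div_mul_div_comm, ← sq, hs2]
  have e2 : √x * (Real.cosh (τ * θ) * hY Q v - Real.sinh (τ * θ) * hX Q v) *
      (√x * (Real.cosh (τ * θ) * hY Q w - Real.sinh (τ * θ) * hX Q w)) =
      x * ((Real.cosh (τ * θ) * hY Q v - Real.sinh (τ * θ) * hX Q v) *
      (Real.cosh (τ * θ) * hY Q w - Real.sinh (τ * θ) * hX Q w)) := by
    rw [← hs2]; ring_nf
    rw [show √(√x ^ 2) = √x by rw [hs2]]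
  rw [e1, e2]
  field_simp
  linear_combination (hX Q v * hX Q w - hY Q v * hY Q w) * hc

theorem hlx_shift (Q : Form) (v : V) (τ : ℝ) {x : ℝ} (hx : 0 < x) (θ c : ℝ) :
    hlx Q τ x (θ + c) v =
      Real.cosh (τ * c) * hlx Q τ x θ v - Real.sinh (τ * c) * (hly Q τ x θ v / x) ∧
    hly Q τ x (θ + c) v =
      Real.cosh (τ * c) * hly Q τ x θ v - x * Real.sinh (τ * c) * hlx Q τ x θ v := by
  have hs : 0 < √x := Real.sqrt_pos.2 hx
  have hs2 : √x ^ 2 = x := Real.sq_sqrt hx.le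
  unfold hlx hly
  rw [mul_add, Real.cosh_add, Real.sinh_add]
  constructor
  · have e : ∀ z : ℝ, √x * z / x = z / √x := by
      intro z
      rw [div_eq_div_iff hx.ne' hs.ne']
      rw [show √x * z * √x = √x ^ 2 * z by ring, hs2]; ring
    rw [e]
    field_simp
    ring
  · have e : ∀ z : ℝ, x * Real.sinh (τ * c) * (z / √x) = √x * (Real.sinh (τ * c) * z) := by
      intro z
      rw [mul_div_assoc', div_eq_iff hs.ne']
      rw [show √x * (Real.sinh (τ * c) * z) * √x = √x ^ 2 * (Real.sinh (τ * c) * z) by ring, hs2]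
      ring
    rw [e]
    ring

theorem hlx_scale (Q : Form) (v : V) (τ : ℝ) {x y : ℝ} (hx : 0 < x) (hy : 0 < y) (θ : ℝ) :
    hlx Q τ y θ v = hlx Q τ x θ v * √(x / y) ∧ hly Q τ y θ v = hly Q τ x θ v * √(y / x) := by
  have hs : 0 < √x := Real.sqrt_pos.2 hx
  have ht : 0 < √y := Real.sqrt_pos.2 hy
  unfold hlx hly
  rw [Real.sqrt_div hx.le, Real.sqrt_div hy.le]
  constructor
  · field_simp
  · field_simp

theorem hlx_per {d : ℕ} {Q : Form} (hQ : Hyp d Q) {a : Pell.Solution₁ (d : ℤ)} (ha : PP a) (v : V)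
    (x θ : ℝ) : hlx Q (tauH a) x (θ + 2 * Real.pi) (act Q a v) = hlx Q (tauH a) x θ v ∧
      hly Q (tauH a) x (θ + 2 * Real.pi) (act Q a v) = hly Q (tauH a) x θ v := by
  obtain ⟨h1, h2⟩ := cosh_per ha
  have e : tauH a * (θ + 2 * Real.pi) = tauH a * θ + per a := by
    unfold tauH
    field_simp
  have hc := Real.cosh_sq (per a)
  rw [h1, h2] at hc
  unfold hlx hly
  rw [e, Real.cosh_add, Real.sinh_add, hQ.hX_act, hQ.hY_act, h1, h2]
  constructor
  · congr 1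
    linear_combination (Real.cosh (tauH a * θ) * hX Q v - Real.sinh (tauH a * θ) * hY Q v) * hc
  · congr 1
    linear_combination (Real.cosh (tauH a * θ) * hY Q v - Real.sinh (tauH a * θ) * hX Q v) * hc

theorem hlx_ps {d : ℕ} {Q : Form} (hQ : Hyp d Q) {v : V} (hv : Cn Q v) (τ : ℝ) {x : ℝ}
    (hx : 0 < x) (θ : ℝ) : hlx Q τ x θ v = √(Q.q v / x) * Real.cosh (ps Q v - τ * θ) ∧
      hly Q τ x θ v = √(x * Q.q v) * Real.sinh (ps Q v - τ * θ) := by
  obtain ⟨h1, h2⟩ := polar hQ hv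
  have hq : (0 : ℝ) ≤ Q.q v := by exact_mod_cast (hv.q_pos hQ).le
  unfold hlx hly
  rw [Real.sqrt_div hq, Real.sqrt_mul hx.le, Real.cosh_sub, Real.sinh_sub]
  constructor
  · rw [h1, h2]; ring
  · rw [h1, h2]; ring

/-- E1 -/
theorem stHCoord_20 : StHCoord := by
  intro d Q hQ v w τ x θ hx
  refine ⟨hlx_quad hQ v τ hx θ, hlx_det hQ v w τ hx θ, hlx_polar_form hQ v w τ hx θ,
    fun c => hlx_shift Q v τ hx θ c, fun y hy => hlx_scale Q v τ hx hy θ,
    fun a ha => hlx_per hQ ha v x θ, fun hv => hlx_ps hQ hv τ hx θ⟩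

/-! ### A8 -/

theorem pk_iff {d : ℕ} (K : ℕ) (a : Pell.Solution₁ (d : ℤ)) :
    PK K a ↔ ((a.x : ZMod K) = 1 ∧ (a.y : ZMod K) = 0) := by
  unfold PK
  constructor
  · rintro ⟨h1, h2⟩
    refine ⟨?_, (ZMod.intCast_zmod_eq_zero_iff_dvd _ _).2 h2⟩
    have := (ZMod.intCast_zmod_eq_zero_iff_dvd _ _).2 h1
    push_cast at this
    exact sub_eq_zero.1 this
  · rintro ⟨h1, h2⟩
    refine ⟨(ZMod.intCast_zmod_eq_zero_iff_dvd _ _).1 ?_, (ZMod.intCast_zmod_eq_zero_iff_dvd _ _).1 h2⟩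
    push_cast
    rw [h1, sub_self]

/-- A8 -/
theorem stHpow_20 : StHpow := by
  intro d a K hK
  have : NeZero K := ⟨hK.ne'⟩
  -- two powers agree modulo `K`
  have hinf : ¬ Function.Injective (fun m : ℕ => (((a ^ m).x : ZMod K), ((a ^ m).y : ZMod K))) :=
    not_injective_infinite_finite _
  have h2 : ∃ i j : ℕ, i < j ∧ (((a ^ i).x : ZMod K), ((a ^ i).y : ZMod K)) =
      (((a ^ j).x : ZMod K), ((a ^ j).y : ZMod K)) := by
    unfold Function.Injective at hinf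
    push Not at hinf
    obtain ⟨i, j, h3, h4⟩ := hinf
    rcases lt_or_gt_of_ne h4 with h5 | h5
    · exact ⟨i, j, h5, h3⟩
    · exact ⟨j, i, h5, h3.symm⟩
  obtain ⟨i, j, hij, he⟩ := h2
  obtain ⟨m, rfl⟩ := Nat.exists_eq_add_of_lt hij
  refine ⟨m + 1, by omega, (pk_iff K _).2 ?_⟩
  have e1 : a ^ (i + m + 1) = a ^ i * a ^ (m + 1) := by rw [add_assoc, pow_add]
  rw [e1] at he
  simp only [Pell.Solution₁.x_mul, Pell.Solution₁.y_mul, Prod.mk.injEq] at he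
  obtain ⟨h5, h6⟩ := he
  push_cast at h5 h6
  have hp : (((a ^ i).x : ZMod K)) ^ 2 - (d : ZMod K) * (((a ^ i).y : ZMod K)) ^ 2 = 1 := by
    have := congrArg (Int.cast : ℤ → ZMod K) (pell_sq (a ^ i))
    push_cast at this
    exact this
  set X : ZMod K := ((a ^ i).x : ZMod K)
  set Y : ZMod K := ((a ^ i).y : ZMod K)
  set x : ZMod K := ((a ^ (m + 1)).x : ZMod K)
  set y : ZMod K := ((a ^ (m + 1)).y : ZMod K)
  constructor
  · linear_combination (-x + 1) * hp - X * h5 + (d : ZMod K) * Y * h6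
  · linear_combination (-y) * hp + Y * h5 - X * h6

end Pool.Agent.Lib.MP_a17b09_nt.HY
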