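import Pool.Agent.Lib.MP_a17b09_nt.HY.Stmts20
import Pool.Agent.Lib.MP_a17b09_nt.CH.Dens67

/-!
Project HY, E9: densities of one and two lattices among the primitive vectors.
-/

set_option autoImplicit false

open Filter Topology Finset

namespace Pool.Agent.Lib.MP_a17b09_nt.HY

open Pool.Agent.Lib.MP_a17b09_nt.CH Pool.Agent.Lib.MP_a17b09_nt.CH.PE

namespace Dens26

open Classical

open Pool.Agent.Lib.MP_a17b09_nt.CH.PE.Dens67 (cl_eq ind_eq gt_bdd nc prim10)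

theorem mm_cbdd (hMb : StHMb) {d : ℕ} {Q : Form} (hQ : Hyp d Q) (τ : ℝ) {B : ℝ} {G : ℝ → ℝ → ℝ} (hG : GT B G)
    {L : ℝ} (hL : 1 ≤ L) {g : V → ℂ} (hg : ∀ v, g v ≠ 0 → Prim v) (hb : ∀ v, ‖g v‖ ≤ 1) :
    CBdd (sm (hmm Q τ g G L)) := by
  obtain ⟨E, hE⟩ := gt_bdd hG
  obtain ⟨-, C, hC⟩ := hMb d Q hQ B hG.1
  exact ⟨C * E * 1, fun w => hC G E hG.2.1 hE g 1 hg hb τ L w.1 w.2 hL⟩

theorem mm_sum (hMb : StHMb) {d : ℕ} {Q : Form} (hQ : Hyp d Q) (τ : ℝ) {B : ℝ} {G : ℝ → ℝ → ℝ} (hG : GT B G)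
    {L : ℝ} (hL : 1 ≤ L) {κ : Type} (F : Finset κ) (g : κ → V → ℂ)
    (hg : ∀ k ∈ F, ∀ v, g k v ≠ 0 → Prim v) (x θ : ℝ) :
    hmm Q τ (fun v => ∑ k ∈ F, g k v) G L x θ = ∑ k ∈ F, hmm Q τ (g k) G L x θ := by
  unfold hmm
  rw [← mul_sum, ← Summable.tsum_finsetSum]
  · congr 1
    apply tsum_congr
    intro v
    rw [mul_sum]
  · intro k hk
    exact summable_of_hasFiniteSupport ((hMb d Q hQ B hG.1).1 G (g k) τ L x θ hL hG.2.1 (hg k hk))

/-- the mean of the indicator of a union of classes -/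
theorem dens (hMb : StHMb) (hOne : StHOne) (M : LMean) {d : ℕ} {Q : Form} (hQ : Hyp d Q)
    {τ : ℝ} (hτ : 0 < τ) {B : ℝ}
    {G : ℝ → ℝ → ℝ} (hG : GT B G) {L : ℝ} (hL : 1 ≤ L) (N : ℕ) [NeZero N] (P : V → Prop)
    (P' : ZMod N × ZMod N → Prop) (hP : ∀ v, P v ↔ P' (cl N v)) :
    ec (TM M) (sm (hmm Q τ (pin P) G L)) =
      (({α : ZMod N × ZMod N | (∃ v, Prim v ∧ cl N v = α) ∧ P' α}.ncard : ℕ) : ℂ) *
        ec (TM M) (sm (hmm Q τ (ind N (1, 0)) G L)) := by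
  rw [nc]
  obtain ⟨F, hF⟩ : ∃ F : Finset (ZMod N × ZMod N), F = (univ : Finset (ZMod N × ZMod N)).filter
    (fun α => (∃ v, Prim v ∧ cl N v = α) ∧ P' α) := ⟨_, rfl⟩
  rw [← hF]
  have hrep : ∀ α : ZMod N × ZMod N, ∃ a : V, Prim a ∧ (α ∈ F → cl N a = α) := by
    intro α
    by_cases h : α ∈ F
    · have h' := h
      rw [hF, mem_filter] at h'
      obtain ⟨v, hv, hva⟩ := h'.2.1
      exact ⟨v, hv, fun _ => hva⟩
    · exact ⟨(1, 0), prim10, fun h' => absurd h' h⟩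
  choose rep hrp hrc using hrep
  have hpin : pin P = fun v => ∑ α ∈ F, ind N (rep α) v := by
    funext v
    have h1 : ∀ α ∈ F, ind N (rep α) v = if cl N v = α then (if Prim v then (1 : ℂ) else 0) else 0 := by
      intro α hα
      rw [ind_eq, hrc α hα]
      by_cases h2 : Prim v <;> by_cases h3 : cl N v = α <;> simp [h2, h3]
    rw [sum_congr rfl h1, sum_ite_eq]
    unfold pin
    by_cases h2 : Prim v
    · have h3 : cl N v ∈ F ↔ P v := by
        rw [hF, mem_filter, hP]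
        exact ⟨fun h => h.2.2, fun h => ⟨mem_univ _, ⟨v, h2, rfl⟩, h⟩⟩
      by_cases h4 : P v
      · rw [if_pos ⟨h2, h4⟩, if_pos (h3.2 h4), if_pos h2]
      · rw [if_neg (fun h => h4 h.2), if_neg (fun h => h4 (h3.1 h))]
    · rw [if_neg (fun h => h2 h.1), if_neg h2]
      simp
  have hg : ∀ a : V, ∀ v, ind N a v ≠ 0 → Prim v := by
    intro a v h
    by_contra h2
    apply h
    unfold ind
    rw [if_neg (fun h3 => h2 h3.1)]
  have hb : ∀ a : V, ∀ v, ‖ind N a v‖ ≤ 1 := by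
    intro a v
    unfold ind
    split_ifs <;> simp
  have hsum : sm (hmm Q τ (pin P) G L) = fun w => ∑ α ∈ F, sm (hmm Q τ (ind N (rep α)) G L) w := by
    funext w
    rw [hpin]
    exact mm_sum hMb hQ τ hG hL F (fun α v => ind N (rep α) v) (fun α _ v hv => hg _ v hv) w.1 w.2
  rw [hsum, ec_sum (TM M) F (fun α => sm (hmm Q τ (ind N (rep α)) G L))
    (fun α _ => mm_cbdd hMb hQ τ hG hL (hg _) (hb _))]
  have heq : ∀ α ∈ F, ec (TM M) (sm (hmm Q τ (ind N (rep α)) G L)) =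
      ec (TM M) (sm (hmm Q τ (ind N (1, 0)) G L)) := fun α _ =>
    hOne M d Q hQ τ hτ B G hG L hL N (Nat.pos_of_ne_zero (NeZero.ne N)) _ _ (hrp α) prim10
  rw [sum_congr rfl heq, sum_const, nsmul_eq_mul]

end Dens26

open Dens26 Dens67 in
/-- E9 -/
theorem stHDens_26 (hMb : StHMb) (hOne : StHOne) : StHDens := by
  classical
  intro M d Q hQ τ hτ B G hG L hL p A hp hA
  have : Fact p.Prime := ⟨hp⟩
  obtain ⟨l, hl, hlA⟩ := lat_cl hA
  constructor
  · have e1 := dens hMb hOne M hQ hτ hG hL p A (fun α => l.1 * α.1 + l.2 * α.2 = 0) hlA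
    have e2 := dens hMb hOne M hQ hτ hG hL p (fun _ => True) (fun _ => True) (fun _ => Iff.rfl)
    simp only [cls_p] at e1 e2
    have cast1 : ∀ (a b : ℕ), a + 1 = b → (a : ℂ) = b - 1 := by
      intro a b hab
      have : ((a + 1 : ℕ) : ℂ) = b := by rw [hab]
      push_cast at this
      linear_combination this
    have c1 := cast1 _ _ (card_ker' p l hl)
    have c2 := cast1 _ _ (card_nz p)
    simp only [and_true] at e2
    rw [e1, e2, c1, c2]
    have hne : (p : ℂ) + 1 ≠ 0 := by exact_mod_cast Nat.succ_ne_zero p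
    push_cast
    field_simp
    ring
  · intro q A' hq hqp hA'
    have : Fact q.Prime := ⟨hq⟩
    obtain ⟨l', hl', hlA'⟩ := lat_cl hA'
    have hcop : p.Coprime q := (Nat.coprime_primes hp hq).2 (Ne.symm hqp)
    have : NeZero (p * q) := ⟨Nat.mul_ne_zero hp.ne_zero hq.ne_zero⟩
    have e1 := dens hMb hOne M hQ hτ hG hL (p * q) (fun v => A v ∧ A' v)
      (fun β => (l.1 * (crt hcop β).1.1 + l.2 * (crt hcop β).1.2 = 0) ∧
        (l'.1 * (crt hcop β).2.1 + l'.2 * (crt hcop β).2.2 = 0)) (by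
        intro v
        rw [crt_cl, hlA, hlA'])
    have e2 := dens hMb hOne M hQ hτ hG hL (p * q) (fun _ => True) (fun _ => True) (fun _ => Iff.rfl)
    simp only [cls_pq hcop] at e1 e2
    have d1 := nc_crt hcop (fun α => α ≠ 0 ∧ l.1 * α.1 + l.2 * α.2 = 0)
      (fun α => α ≠ 0 ∧ l'.1 * α.1 + l'.2 * α.2 = 0)
    have d2 := nc_crt hcop (fun α => α ≠ 0) (fun α => α ≠ 0)
    have f1 : {β : ZMod (p * q) × ZMod (p * q) |
        ((crt hcop β).1 ≠ 0 ∧ (crt hcop β).2 ≠ 0) ∧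
          (l.1 * (crt hcop β).1.1 + l.2 * (crt hcop β).1.2 = 0) ∧
          (l'.1 * (crt hcop β).2.1 + l'.2 * (crt hcop β).2.2 = 0)} =
        {β : ZMod (p * q) × ZMod (p * q) |
          ((crt hcop β).1 ≠ 0 ∧ l.1 * (crt hcop β).1.1 + l.2 * (crt hcop β).1.2 = 0) ∧
          ((crt hcop β).2 ≠ 0 ∧ l'.1 * (crt hcop β).2.1 + l'.2 * (crt hcop β).2.2 = 0)} := by
      ext β
      rw [Set.mem_ofPred_eq, Set.mem_ofPred_eq]
      tauto
    simp only [and_true] at e2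
    rw [f1, d1] at e1
    rw [d2] at e2
    rw [e1, e2]
    have cast1 : ∀ (a b : ℕ), a + 1 = b → (a : ℂ) = b - 1 := by
      intro a b hab
      have : ((a + 1 : ℕ) : ℂ) = b := by rw [hab]
      push_cast at this
      linear_combination this
    have c1 := cast1 _ _ (card_ker' p l hl)
    have c2 := cast1 _ _ (card_nz p)
    have c3 := cast1 _ _ (card_ker' q l' hl')
    have c4 := cast1 _ _ (card_nz q)
    push_cast at c1 c2 c3 c4 ⊢
    rw [c1, c2, c3, c4]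
    have hne : (p : ℂ) + 1 ≠ 0 := by exact_mod_cast Nat.succ_ne_zero p
    have hne' : (q : ℂ) + 1 ≠ 0 := by exact_mod_cast Nat.succ_ne_zero q
    field_simp
    ring

end Pool.Agent.Lib.MP_a17b09_nt.HY
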