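import Pool.Agent.Lib.MP_a17b09_nt.HY.Per54
import Pool.Agent.Lib.MP_a17b09_nt.CH.Dil70

/-!
Project HY (MP_a17b09), A6: dilation of the sector sums.
-/

set_option autoImplicit false

open Filter Topology Finset

namespace Pool.Agent.Lib.MP_a17b09_nt.HY

open Pool.Agent.Lib.MP_a17b09_nt.CH

namespace Dils1

/-! ### two fundamental domains -/

section fold

variable {X : Type*} (σ : Equiv.Perm X) {P : X → Prop}

theorem pinv (τ : Equiv.Perm X) (x : X) : τ (τ⁻¹ x) = x := τ.apply_symm_apply x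

theorem zP (hP : ∀ x, P (σ x) ↔ P x) (k : ℤ) (x : X) : P ((σ ^ k) x) ↔ P x := by
  induction k using Int.induction_on generalizing x with
  | zero => simp
  | succ i ih =>
    rw [zpow_add_one, Equiv.Perm.mul_apply, ih, hP]
  | pred i ih =>
    rw [zpow_sub_one, Equiv.Perm.mul_apply, ih]
    have := hP (σ⁻¹ x)
    rw [pinv] at this
    exact this.symm

theorem zr (hP : ∀ x, P (σ x) ↔ P x) {T : ℝ} {r : X → ℝ} (hr : ∀ x, P x → r (σ x) = r x + T)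
    (k : ℤ) (x : X) (hx : P x) : r ((σ ^ k) x) = r x + k * T := by
  induction k using Int.induction_on generalizing x with
  | zero => simp
  | succ i ih =>
    rw [zpow_add_one, Equiv.Perm.mul_apply, ih _ ((hP x).2 hx), hr x hx]
    push_cast
    ring
  | pred i ih =>
    have h1 : P (σ⁻¹ x) := by
      have := hP (σ⁻¹ x)
      rw [pinv] at this
      exact this.1 hx
    have h2 := hr _ h1
    rw [pinv] at h2
    rw [zpow_sub_one, Equiv.Perm.mul_apply, ih _ h1, h2]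
    push_cast
    ring

theorem zF {E : Type*} {F : X → E} (hF : ∀ x, F (σ x) = F x) (k : ℤ) (x : X) :
    F ((σ ^ k) x) = F x := by
  induction k using Int.induction_on generalizing x with
  | zero => simp
  | succ i ih => rw [zpow_add_one, Equiv.Perm.mul_apply, ih, hF]
  | pred i ih =>
    rw [zpow_sub_one, Equiv.Perm.mul_apply, ih]
    have := hF (σ⁻¹ x)
    rw [pinv] at this
    exact this.symm

theorem floor_eq {T s r : ℝ} (hT : 0 < T) (h0 : 0 ≤ r) (h1 : r < T) (k : ℤ)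
    (h : s = r + k * T) : ⌊s / T⌋ = k := by
  rw [Int.floor_eq_iff, h, le_div_iff₀ hT, div_lt_iff₀ hT]
  constructor
  · linarith
  · linarith

open Classical in
/-- the sums of an invariant function over two fundamental domains agree -/
theorem fold (hP : ∀ x, P (σ x) ↔ P x) {T : ℝ} (hT : 0 < T) {r s : X → ℝ}
    (hr : ∀ x, P x → r (σ x) = r x + T) (hs : ∀ x, P x → s (σ x) = s x + T)
    {E : Type*} [AddCommMonoid E] [TopologicalSpace E] (F : X → E) (hF : ∀ x, F (σ x) = F x)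
    (hFP : ∀ x, F x ≠ 0 → P x) :
    ∑' x, (if 0 ≤ r x ∧ r x < T then F x else 0) =
      ∑' x, (if 0 ≤ s x ∧ s x < T then F x else 0) := by
  have sup : ∀ (w : X → ℝ) (x : X), (if 0 ≤ w x ∧ w x < T then F x else 0) ≠ 0 →
      (0 ≤ w x ∧ w x < T) ∧ P x ∧ F x ≠ 0 := by
    intro w x hx
    by_cases h1 : 0 ≤ w x ∧ w x < T
    · rw [if_pos h1] at hx
      exact ⟨h1, hFP x hx, hx⟩
    · rw [if_neg h1] at hx
      exact absurd rfl hx
  refine tsum_eq_tsum_of_ne_zero_bij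
    (g := fun x => if 0 ≤ s x ∧ s x < T then F x else 0)
    (f := fun x => if 0 ≤ r x ∧ r x < T then F x else 0)
    (fun y => (σ ^ (-⌊r y.1 / T⌋)) y.1) ?_ ?_ ?_
  · intro y y' he
    obtain ⟨h1, h2, -⟩ := sup s y.1 y.2
    obtain ⟨h1', h2', -⟩ := sup s y'.1 y'.2
    have he : (σ ^ (-⌊r y.1 / T⌋)) y.1 = (σ ^ (-⌊r y'.1 / T⌋)) y'.1 := he
    have h3 : (y'.1 : X) = (σ ^ (⌊r y'.1 / T⌋ + -⌊r y.1 / T⌋)) y.1 := by
      rw [zpow_add, Equiv.Perm.mul_apply, he, ← Equiv.Perm.mul_apply, ← zpow_add]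
      simp
    have h4 := zr σ hP hs (⌊r y'.1 / T⌋ + -⌊r y.1 / T⌋) y.1 h2
    rw [← h3] at h4
    have h5 := floor_eq hT h1.1 h1.2 _ h4
    have h6 := floor_eq hT h1'.1 h1'.2 0 (by push_cast; ring : s y'.1 = s y'.1 + ((0 : ℤ) : ℝ) * T)
    rw [h6] at h5
    rw [← h5] at h3
    apply Subtype.ext
    rw [h3]
    simp
  · intro x hx
    obtain ⟨h1, h2, h3⟩ := sup r x hx
    have e1 := zr σ hP hs (-⌊s x / T⌋) x h2
    have e2 := zr σ hP hr (-⌊s x / T⌋) x h2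
    have e3 := Int.floor_le (s x / T)
    have e4 := Int.lt_floor_add_one (s x / T)
    rw [le_div_iff₀ hT] at e3
    rw [div_lt_iff₀ hT] at e4
    have h4 : 0 ≤ s ((σ ^ (-⌊s x / T⌋)) x) ∧ s ((σ ^ (-⌊s x / T⌋)) x) < T := by
      rw [e1]
      push_cast
      constructor
      · linarith
      · linarith
    refine ⟨⟨(σ ^ (-⌊s x / T⌋)) x, ?_⟩, ?_⟩
    · rw [Function.mem_support, if_pos h4, zF σ hF]
      exact h3
    · simp only
      have e5 := floor_eq hT h1.1 h1.2 (-⌊s x / T⌋) e2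
      rw [e5, ← Equiv.Perm.mul_apply, ← zpow_add]
      simp
  · intro y
    obtain ⟨h1, h2, h3⟩ := sup s y.1 y.2
    have e2 := zr σ hP hr (-⌊r y.1 / T⌋) y.1 h2
    have e3 := Int.floor_le (r y.1 / T)
    have e4 := Int.lt_floor_add_one (r y.1 / T)
    rw [le_div_iff₀ hT] at e3
    rw [div_lt_iff₀ hT] at e4
    have h4 : 0 ≤ r ((σ ^ (-⌊r y.1 / T⌋)) y.1) ∧ r ((σ ^ (-⌊r y.1 / T⌋)) y.1) < T := by
      rw [e2]
      push_cast
      constructor
      · linarith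
      · linarith
    rw [if_pos h4, if_pos h1, zF σ hF]

end fold

/-! ### similitudes in light cone coordinates -/

section sim

variable {d : ℕ} {Q Q' : Form}

theorem st (hQ : Hyp d Q) (v w : V) :
    (hX Q v + hY Q v) * (hX Q w - hY Q w) = (Q.B v w - √(d : ℝ) * wd v w) / 2 := by
  have h1 := hQ.wd_eq v w
  have h2 := hQ.B_eq v w
  linear_combination -h1 - (1 / 2) * h2

theorem cn_e1 (hQ : Hyp d Q) : Cn Q ((1, 0) : V) := by
  have h1 := hQ.sa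
  unfold Cn hY hX
  simp [h1]

theorem light_inj (hQ : Hyp d Q) {v w : V} (h1 : hX Q v + hY Q v = hX Q w + hY Q w)
    (h2 : hX Q v - hY Q v = hX Q w - hY Q w) : v = w := by
  have hX' : hX Q v = hX Q w := by linarith
  have hY' : hY Q v = hY Q w := by linarith
  have ha := hQ.sa
  have hd := hQ.sd
  rw [hQ.hY_eq, hQ.hY_eq, div_left_inj' (by positivity)] at hY'
  have e2 : (v.2 : ℝ) = w.2 := mul_left_cancel₀ hd.ne' hY'
  unfold hX at hX'
  rw [e2] at hX'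
  have e1 : (v.1 : ℝ) = w.1 := by
    have : √(Q.a : ℝ) * v.1 = √(Q.a : ℝ) * w.1 := by linarith
    exact mul_left_cancel₀ ha.ne' this
  exact Prod.ext (by exact_mod_cast e1) (by exact_mod_cast e2)

theorem sim_light (hQ : Hyp d Q) (hQ' : Hyp d Q') {A : Mat} {p : ℕ} (hp : 0 < p)
    (hA : A.det = p) (hs : ∀ u, Q.q (A.app u) = p * Q'.q u)
    (hc : ∀ u, Cn Q (A.app u) ↔ Cn Q' u) : ∃ l m : ℝ, 0 < l ∧ 0 < m ∧ ∀ u,
      hX Q (A.app u) + hY Q (A.app u) = l * (hX Q' u + hY Q' u) ∧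
      hX Q (A.app u) - hY Q (A.app u) = m * (hX Q' u - hY Q' u) := by
  have hp0 : (0 : ℝ) < p := by exact_mod_cast hp
  have h1 : ∀ v w, (hX Q (A.app v) + hY Q (A.app v)) * (hX Q (A.app w) - hY Q (A.app w)) =
      p * ((hX Q' v + hY Q' v) * (hX Q' w - hY Q' w)) := by
    intro v w
    rw [st hQ, st hQ', Dil70.wd_app, Dil70.B_app hs, hA]
    push_cast
    ring
  have h2 := (cn_iff Q' _).1 (cn_e1 hQ')
  have h3 := (cn_iff Q _).1 ((hc _).2 (cn_e1 hQ'))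
  set e : V := ((1, 0) : V)
  refine ⟨p * (hX Q' e - hY Q' e) / (hX Q (A.app e) - hY Q (A.app e)),
    p * (hX Q' e + hY Q' e) / (hX Q (A.app e) + hY Q (A.app e)),
    div_pos (mul_pos hp0 h2.2) h3.2, div_pos (mul_pos hp0 h2.1) h3.1, fun u => ⟨?_, ?_⟩⟩
  · rw [div_mul_eq_mul_div, eq_div_iff h3.2.ne', h1]
    ring
  · rw [div_mul_eq_mul_div, eq_div_iff h3.1.ne', mul_comm (hX Q (A.app u) - _), h1]
    ring

theorem sim_ps (hQ : Hyp d Q) (hQ' : Hyp d Q') {A : Mat} {p : ℕ} (hp : 0 < p)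
    (hA : A.det = p) (hs : ∀ u, Q.q (A.app u) = p * Q'.q u)
    (hc : ∀ u, Cn Q (A.app u) ↔ Cn Q' u) : ∃ c : ℝ, ∀ u, Cn Q' u →
      ps Q (A.app u) = ps Q' u + c := by
  obtain ⟨l, m, hl, hm, h⟩ := sim_light hQ hQ' hp hA hs hc
  refine ⟨Real.log (l / m) / 2, fun u hu => ?_⟩
  obtain ⟨h1, h2⟩ := h u
  obtain ⟨h3, h4⟩ := (cn_iff Q' u).1 hu
  unfold ps
  rw [h1, h2, mul_div_mul_comm, Real.log_mul (div_pos hl hm).ne' (div_pos h3 h4).ne']
  ring

theorem act_light (hQ : Hyp d Q) (a : Pell.Solution₁ (d : ℤ)) (v : V) :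
    hX Q (act Q a v) + hY Q (act Q a v) =
      ((a.x : ℝ) + a.y * √(d : ℝ)) * (hX Q v + hY Q v) ∧
    hX Q (act Q a v) - hY Q (act Q a v) =
      ((a.x : ℝ) - a.y * √(d : ℝ)) * (hX Q v - hY Q v) := by
  rw [hQ.hX_act, hQ.hY_act]
  constructor
  · ring
  · ring

theorem sim_act (hQ : Hyp d Q) (hQ' : Hyp d Q') {A : Mat} {p : ℕ} (hp : 0 < p)
    (hA : A.det = p) (hs : ∀ u, Q.q (A.app u) = p * Q'.q u)
    (hc : ∀ u, Cn Q (A.app u) ↔ Cn Q' u) (a : Pell.Solution₁ (d : ℤ)) (u : V) :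
    A.app (act Q' a u) = act Q a (A.app u) := by
  obtain ⟨l, m, hl, hm, h⟩ := sim_light hQ hQ' hp hA hs hc
  apply light_inj hQ
  · rw [(h _).1, (act_light hQ' a u).1, (act_light hQ a _).1, (h u).1]
    ring
  · rw [(h _).2, (act_light hQ' a u).2, (act_light hQ a _).2, (h u).2]
    ring

end sim

/-! ### kernels -/

/-- the kernels of a system are bounded -/
theorem om_bdd {ι : Type} [Fintype ι] {S : HSystem ι} {K : ℕ} (hK : 0 < K) {om : ι → V → V → ℂ}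
    (hom : HWt S K om) : ∃ c : ℝ, 0 < c ∧ ∀ i v v', ‖om i v v'‖ ≤ c := by
  set T : Finset V := Finset.Ico (0 : ℤ) K ×ˢ Finset.Ico (0 : ℤ) K with hT
  have hK0 : (0 : ℤ) < K := by exact_mod_cast hK
  have hr : ∀ v : V, ∃ r ∈ T, ∃ a : V, v = r + (K : ℤ) • a := by
    intro v
    refine ⟨(v.1 % K, v.2 % K), ?_, (v.1 / K, v.2 / K), ?_⟩
    · rw [hT, Finset.mem_product, Finset.mem_Ico, Finset.mem_Ico]
      exact ⟨⟨Int.emod_nonneg _ hK0.ne', Int.emod_lt_of_pos _ hK0⟩,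
        ⟨Int.emod_nonneg _ hK0.ne', Int.emod_lt_of_pos _ hK0⟩⟩
    · ext
      · simp [Int.emod_add_mul_ediv]
      · simp [Int.emod_add_mul_ediv]
  refine ⟨∑ i, ∑ r ∈ T, ∑ r' ∈ T, ‖om i r r'‖ + 1, by positivity, fun i v v' => ?_⟩
  obtain ⟨r, hr1, a, ha⟩ := hr v
  obtain ⟨r', hr1', b, hb⟩ := hr v'
  rw [ha, hb, hom.per]
  have h1 : ‖om i r r'‖ ≤ ∑ r' ∈ T, ‖om i r r'‖ :=
    Finset.single_le_sum (f := fun r' => ‖om i r r'‖) (fun _ _ => norm_nonneg _) hr1'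
  have h2 : ∑ r' ∈ T, ‖om i r r'‖ ≤ ∑ r ∈ T, ∑ r' ∈ T, ‖om i r r'‖ :=
    Finset.single_le_sum (f := fun r => ∑ r' ∈ T, ‖om i r r'‖)
      (fun _ _ => Finset.sum_nonneg fun _ _ => norm_nonneg _) hr1
  have h3 : ∑ r ∈ T, ∑ r' ∈ T, ‖om i r r'‖ ≤ ∑ i, ∑ r ∈ T, ∑ r' ∈ T, ‖om i r r'‖ :=
    Finset.single_le_sum (f := fun i => ∑ r ∈ T, ∑ r' ∈ T, ‖om i r r'‖)
      (fun _ _ => Finset.sum_nonneg fun _ _ => Finset.sum_nonneg fun _ _ => norm_nonneg _)
      (Finset.mem_univ i)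
  linarith

theorem gz_app {ζ : ℂ} {Q Q' : Form} {A : Mat} {p : ℕ} (hp : p.Prime)
    (h : ∀ u, Q.q (A.app u) = p * Q'.q u) {u : V} (hu : Q'.q u ≠ 0) :
    gz ζ Q (A.app u) = ζ * gz ζ Q' u := by
  unfold gz
  rw [h, Int.natAbs_mul, Int.natAbs_natCast,
    ArithmeticFunction.cardFactors_mul hp.ne_zero (Int.natAbs_ne_zero.2 hu),
    ArithmeticFunction.cardFactors_apply_prime hp, pow_add, pow_one]

theorem kerH_inv {ι : Type} {S : HSystem ι} {z1 z2 : ℂ} {K : ℕ} {om : ι → V → V → ℂ}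
    (hom : HWt S K om) (i : ι) (a : Pell.Solution₁ (S.d : ℤ)) :
    AInv (S.Q i) a (kerH S z1 z2 om i) := by
  intro v v'
  unfold kerH gz
  rw [hom.aut i a v v', q_act (S.hyp i), q_act (S.hyp i)]


/-! ### counting -/

theorem cnt_bound {Φ : V × V → ℝ} {S1 : Set V} {S2 : V → Set V} {B b c : ℝ} (hB : 0 ≤ B)
    (hc : 0 ≤ c) (hΦB : ∀ f, Φ f ≤ B) (hs : ∀ f, Φ f ≠ 0 → f.1 ∈ S1 ∧ f.2 ∈ S2 f.1)
    (h1 : S1.Finite) (hb : (S1.ncard : ℝ) ≤ b)
    (h2 : ∀ u ∈ S1, (S2 u).Finite ∧ ((S2 u).ncard : ℝ) ≤ c) :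
    (Function.support Φ).Finite ∧ ∑' f, Φ f ≤ B * (b * c) := by
  classical
  set T2 : V → Finset V := fun u => if h : u ∈ S1 then (h2 u h).1.toFinset else ∅ with hT2
  set Tt : Finset (V × V) := h1.toFinset.biUnion fun u => (T2 u).image fun w => (u, w) with hTt
  have hmem : ∀ f, Φ f ≠ 0 → f ∈ Tt := by
    intro f hf
    obtain ⟨h3, h4⟩ := hs f hf
    rw [hTt, Finset.mem_biUnion]
    refine ⟨f.1, (Set.Finite.mem_toFinset _).2 h3, ?_⟩
    rw [Finset.mem_image]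
    refine ⟨f.2, ?_, rfl⟩
    rw [hT2]
    simp only [dif_pos h3]
    exact (Set.Finite.mem_toFinset _).2 h4
  have hcard : (Tt.card : ℝ) ≤ b * c := by
    have h3 : (Tt.card : ℝ) ≤ ∑ u ∈ h1.toFinset, ((T2 u).card : ℝ) := by
      have : Tt.card ≤ ∑ u ∈ h1.toFinset, (T2 u).card :=
        Finset.card_biUnion_le.trans (Finset.sum_le_sum fun u _ => Finset.card_image_le)
      exact_mod_cast this
    refine h3.trans ?_
    have h4 : ∀ u ∈ h1.toFinset, ((T2 u).card : ℝ) ≤ c := by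
      intro u hu
      have hu' := (Set.Finite.mem_toFinset _).1 hu
      rw [hT2]
      simp only [dif_pos hu']
      rw [← Set.ncard_eq_toFinset_card _ (h2 u hu').1]
      exact (h2 u hu').2
    refine (Finset.sum_le_sum h4).trans ?_
    rw [Finset.sum_const, nsmul_eq_mul, ← Set.ncard_eq_toFinset_card _ h1]
    exact mul_le_mul_of_nonneg_right hb hc
  refine ⟨Tt.finite_toSet.subset fun f hf => hmem f hf, ?_⟩
  rw [tsum_eq_sum (s := Tt) fun f hf => by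
    by_contra h3
    exact hf (hmem f h3)]
  refine (Finset.sum_le_sum fun f _ => hΦB f).trans ?_
  rw [Finset.sum_const, nsmul_eq_mul, mul_comm]
  exact mul_le_mul_of_nonneg_left hcard hB

/-! ### the identity -/

/-- the length of a shifted sector does not matter: the terms in the sector before the similitude -/
theorem ident {ι : Type} (S : HSystem ι) {z1 z2 : ℂ} {K : ℕ} {om : ι → V → V → ℂ}
    (hom : HWt S K om) (h : ℝ → ℝ → ℝ) {p : ℕ} (hp : p.Prime) (hp1 : p ≡ 1 [MOD 4 * S.d])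
    (hp2 : p ≡ 1 [MOD K]) (i : ι) (T n : ℝ) [DecidablePred fun f : V × V =>
      Prim ((S.M p i).app f.1) ∧ Prim ((S.M p i).app f.2)] [DecidablePred fun f : V × V =>
      0 ≤ ps (S.Q i) ((S.M p i).app f.1) ∧ ps (S.Q i) ((S.M p i).app f.1) < T] :
    ∑' f : V × V, hkk (S.Q i) T h (res (Im (S.M p i)) (kerH S z1 z2 om i)) (p : ℤ) n f =
      z1 * z2 * ∑' f : V × V,
        if 0 ≤ ps (S.Q i) ((S.M p i).app f.1) ∧ ps (S.Q i) ((S.M p i).app f.1) < T then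
          (if Prim ((S.M p i).app f.1) ∧ Prim ((S.M p i).app f.2) then
            P54.tt (S.Q (S.s p i)) h (kerH S z1 z2 om (S.s p i)) 1 (n / p) f else 0) else 0 := by
  set A := S.M p i with hAdef
  set j := S.s p i with hj
  have hdet : A.det = p := S.det p hp hp1 i
  have hsim : ∀ u, (S.Q i).q (A.app u) = p * (S.Q j).q u := S.sim p hp hp1 i
  have hcone : ∀ u, Cn (S.Q i) (A.app u) ↔ Cn (S.Q j) u := S.cone p hp hp1 i
  have hp0 : (p : ℤ) ≠ 0 := by exact_mod_cast hp.ne_zero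
  have hinj : Function.Injective (fun f : V × V => (A.app f.1, A.app f.2)) := by
    intro f f' he
    rw [Prod.mk.injEq] at he
    have hd0 : A.det ≠ 0 := by rw [hdet]; exact hp0
    exact Prod.ext (Dil70.app_inj hd0 he.1) (Dil70.app_inj hd0 he.2)
  have hsup : Function.support (hkk (S.Q i) T h (res (Im A) (kerH S z1 z2 om i)) (p : ℤ) n) ⊆
      Set.range (fun f : V × V => (A.app f.1, A.app f.2)) := by
    intro f hf
    rw [Function.mem_support] at hf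
    unfold hkk res at hf
    by_cases h1 : Im A f.1 ∧ Im A f.2
    · obtain ⟨⟨u, hu⟩, ⟨u', hu'⟩⟩ := h1
      exact ⟨(u, u'), Prod.ext hu hu'⟩
    · rw [if_neg h1, mul_zero, ite_self] at hf
      exact absurd rfl hf
  rw [← hinj.tsum_eq hsup, ← tsum_mul_left]
  refine tsum_congr fun f => ?_
  unfold hkk P54.tt Sec
  simp only
  by_cases h1 : 0 ≤ ps (S.Q i) (A.app f.1) ∧ ps (S.Q i) (A.app f.1) < T
  · rw [if_pos h1]
    by_cases h2 : Prim (A.app f.1) ∧ Prim (A.app f.2)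
    · rw [if_pos h2]
      have hwd : wd (A.app f.1) (A.app f.2) = (p : ℤ) ↔ wd f.1 f.2 = 1 := by
        rw [Dil70.wd_app, hdet]
        constructor
        · intro h3
          exact mul_left_cancel₀ hp0 (h3.trans (mul_one _).symm)
        · intro h3
          rw [h3, mul_one]
      by_cases h3 : Cn (S.Q j) f.1 ∧ Cn (S.Q j) f.2 ∧ wd f.1 f.2 = 1
      · have h4 : Prim (A.app f.1) ∧ Prim (A.app f.2) ∧ (Cn (S.Q i) (A.app f.1) ∧
            0 ≤ ps (S.Q i) (A.app f.1) ∧ ps (S.Q i) (A.app f.1) < T) ∧ Cn (S.Q i) (A.app f.2) ∧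
            wd (A.app f.1) (A.app f.2) = (p : ℤ) :=
          ⟨h2.1, h2.2, ⟨(hcone _).2 h3.1, h1⟩, (hcone _).2 h3.2.1, hwd.2 h3.2.2⟩
        have h5 : Prim f.1 ∧ Prim f.2 ∧ Cn (S.Q j) f.1 ∧ Cn (S.Q j) f.2 ∧ wd f.1 f.2 = 1 :=
          ⟨Dil70.prim_of_app h2.1, Dil70.prim_of_app h2.2, h3⟩
        have h6 : Im A (A.app f.1) ∧ Im A (A.app f.2) := ⟨⟨_, rfl⟩, ⟨_, rfl⟩⟩
        rw [if_pos h4, if_pos h5, Dil70.nr_app hp.pos hsim, Dil70.nr_app hp.pos hsim]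
        unfold res kerH
        rw [if_pos h6, hom.inv p hp hp1 hp2,
          gz_app hp hsim (Cn.q_pos (S.hyp j) h3.1).ne',
          gz_app hp hsim (Cn.q_pos (S.hyp j) h3.2.1).ne']
        ring
      · rw [if_neg, if_neg, mul_zero]
        · rintro ⟨-, -, h4⟩
          exact h3 h4
        · rintro ⟨-, -, ⟨h4, -⟩, h5, h6⟩
          exact h3 ⟨(hcone _).1 h4, (hcone _).1 h5, hwd.1 h6⟩
    · rw [if_neg h2, if_neg, mul_zero]
      rintro ⟨h3, h4, -⟩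
      exact h2 ⟨h3, h4⟩
  · rw [if_neg h1, if_neg, mul_zero]
    rintro ⟨-, -, ⟨-, h3⟩, -⟩
    exact h1 h3


/-! ### half of the bad pairs -/

open Classical in
theorem half {Q : Form} {T : ℝ} {δ ch co Cc : ℝ} {h : ℝ → ℝ → ℝ}
    {U : V → V → ℂ} (hδ : 0 < δ) (hh : Test δ h) (hh1 : ∀ x y, |h x y| ≤ ch)
    (hU : ∀ v v', ‖U v v'‖ ≤ co) (hch : 0 ≤ ch) (hco : 0 ≤ co) (hCc : 0 ≤ Cc)
    (hc1 : ∀ n : ℝ, 1 ≤ n → {v : V | Sec Q T v ∧ (Q.q v : ℝ) ≤ n}.Finite)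
    (hc3 : ∀ (n : ℝ) (v : V) (k : ℤ), 0 < n → Prim v → Cn Q v → δ ^ 2 * n ≤ (Q.q v : ℝ) →
      {v' : V | Cn Q v' ∧ (Q.q v' : ℝ) ≤ n ∧ wd v v' = k}.Finite ∧
      ({v' : V | Cn Q v' ∧ (Q.q v' : ℝ) ≤ n ∧ wd v v' = k}.ncard : ℝ) ≤ Cc)
    {x : ℝ} (hx : 1 ≤ x) (L : V → Prop) {b : ℝ}
    (hb : ({v : V | Sec Q T v ∧ L v ∧ Q.q v ≤ ⌊x⌋₊}.ncard : ℝ) ≤ b) (G : V → Prop)
    (hG : ∀ v, Prim v → ¬ G v → L v) :
    (Function.support (fun f : V × V => if 0 ≤ ps Q f.1 ∧ ps Q f.1 < T then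
      (if G f.1 then 0 else ‖P54.tt Q h U 1 x f‖) else 0)).Finite ∧
    ∑' f : V × V, (if 0 ≤ ps Q f.1 ∧ ps Q f.1 < T then
      (if G f.1 then 0 else ‖P54.tt Q h U 1 x f‖) else 0) ≤ ch * co * (b * Cc) ∧
    (Function.support (fun f : V × V => if 0 ≤ ps Q f.2 ∧ ps Q f.2 < T then
      (if G f.2 then 0 else ‖P54.tt Q h U 1 x f‖) else 0)).Finite ∧
    ∑' f : V × V, (if 0 ≤ ps Q f.2 ∧ ps Q f.2 < T then
      (if G f.2 then 0 else ‖P54.tt Q h U 1 x f‖) else 0) ≤ ch * co * (b * Cc) := by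
  have hx0 : 0 < x := by linarith
  have htt : ∀ f : V × V, ‖P54.tt Q h U 1 x f‖ ≤ ch * co := by
    intro f
    unfold P54.tt
    split_ifs
    · rw [norm_mul, Complex.norm_real, Real.norm_eq_abs]
      exact mul_le_mul (hh1 _ _) (hU _ _) (norm_nonneg _) hch
    · rw [norm_zero]
      positivity
  have hnr : ∀ v, δ ≤ Q.nr x v → Q.nr x v ≤ 1 → δ ^ 2 * x ≤ Q.q v ∧ (Q.q v : ℝ) ≤ x := by
    intro v h1 h2
    refine ⟨Dil70.nr_ge hδ hx0 h1, ?_⟩
    unfold Form.nr at h2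
    rw [Real.sqrt_le_one] at h2
    rwa [div_le_one hx0] at h2
  have hsupp : ∀ f : V × V, ‖P54.tt Q h U 1 x f‖ ≠ 0 → Prim f.1 ∧ Prim f.2 ∧ Cn Q f.1 ∧
      Cn Q f.2 ∧ wd f.1 f.2 = 1 ∧ δ ^ 2 * x ≤ Q.q f.1 ∧ (Q.q f.1 : ℝ) ≤ x ∧
      δ ^ 2 * x ≤ Q.q f.2 ∧ (Q.q f.2 : ℝ) ≤ x := by
    intro f hf
    rw [norm_ne_zero_iff] at hf
    unfold P54.tt at hf
    by_cases h1 : Prim f.1 ∧ Prim f.2 ∧ Cn Q f.1 ∧ Cn Q f.2 ∧ wd f.1 f.2 = 1
    · rw [if_pos h1] at hf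
      have h2 := left_ne_zero_of_mul hf
      have h3 : h (Q.nr x f.1) (Q.nr x f.2) ≠ 0 := by
        intro h4
        rw [h4] at h2
        exact h2 Complex.ofReal_zero
      obtain ⟨h4, h5, h6, h7⟩ := hh.2 _ _ h3
      obtain ⟨a1, a2⟩ := hnr _ h4 h5
      obtain ⟨a3, a4⟩ := hnr _ h6 h7
      exact ⟨h1.1, h1.2.1, h1.2.2.1, h1.2.2.2.1, h1.2.2.2.2, a1, a2, a3, a4⟩
    · rw [if_neg h1] at hf
      exact absurd rfl hf
  set S1 : Set V := {v : V | Sec Q T v ∧ L v ∧ Q.q v ≤ ⌊x⌋₊ ∧ Prim v ∧ δ ^ 2 * x ≤ Q.q v}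
    with hS1
  have hsub : S1 ⊆ {v : V | Sec Q T v ∧ L v ∧ Q.q v ≤ ⌊x⌋₊} := fun v hv => ⟨hv.1, hv.2.1, hv.2.2.1⟩
  have hfin0 : {v : V | Sec Q T v ∧ L v ∧ Q.q v ≤ ⌊x⌋₊}.Finite := by
    refine (hc1 x hx).subset fun v hv => ⟨hv.1, ?_⟩
    have h1 : (Q.q v : ℝ) ≤ (⌊x⌋₊ : ℝ) := by exact_mod_cast hv.2.2
    exact h1.trans (Nat.floor_le hx0.le)
  have hfin1 : S1.Finite := hfin0.subset hsub
  have hb1 : (S1.ncard : ℝ) ≤ b :=
    le_trans (by exact_mod_cast Set.ncard_le_ncard hsub hfin0) hb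
  have hfl : ∀ v : V, (Q.q v : ℝ) ≤ x → Q.q v ≤ ⌊x⌋₊ := by
    intro v hv
    have h1 : Q.q v ≤ ⌊x⌋ := Int.le_floor.2 hv
    rwa [← Int.natCast_floor_eq_floor hx0.le] at h1
  have A1 := cnt_bound (Φ := fun f : V × V => if 0 ≤ ps Q f.1 ∧ ps Q f.1 < T then
      (if G f.1 then 0 else ‖P54.tt Q h U 1 x f‖) else 0) (S1 := S1)
      (S2 := fun u => {v' : V | Cn Q v' ∧ (Q.q v' : ℝ) ≤ x ∧ wd u v' = 1})
      (mul_nonneg hch hco) hCc (fun f => by
        split_ifs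
        · positivity
        · exact htt f
        · positivity) (fun f hf => by
        by_cases h1 : 0 ≤ ps Q f.1 ∧ ps Q f.1 < T
        · rw [if_pos h1] at hf
          by_cases h2 : G f.1
          · rw [if_pos h2] at hf
            exact absurd rfl hf
          · rw [if_neg h2] at hf
            obtain ⟨b1, b2, b3, b4, b5, b6, b7, b8, b9⟩ := hsupp f hf
            exact ⟨⟨⟨b3, h1⟩, hG _ b1 h2, hfl _ b7, b1, b6⟩, b4, b9, b5⟩
        · rw [if_neg h1] at hf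
          exact absurd rfl hf) hfin1 hb1
      (fun u hu => hc3 x u 1 hx0 hu.2.2.2.1 hu.1.1 hu.2.2.2.2)
  have A2 := cnt_bound (Φ := fun f : V × V => if 0 ≤ ps Q f.1 ∧ ps Q f.1 < T then
      (if G f.1 then 0 else ‖P54.tt Q h U 1 x f.swap‖) else 0) (S1 := S1)
      (S2 := fun u => {v' : V | Cn Q v' ∧ (Q.q v' : ℝ) ≤ x ∧ wd u v' = -1})
      (mul_nonneg hch hco) hCc (fun f => by
        split_ifs
        · positivity
        · exact htt _
        · positivity) (fun f hf => by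
        by_cases h1 : 0 ≤ ps Q f.1 ∧ ps Q f.1 < T
        · rw [if_pos h1] at hf
          by_cases h2 : G f.1
          · rw [if_pos h2] at hf
            exact absurd rfl hf
          · rw [if_neg h2] at hf
            obtain ⟨b1, b2, b3, b4, b5, b6, b7, b8, b9⟩ := hsupp f.swap hf
            refine ⟨⟨⟨b4, h1⟩, hG _ b2 h2, hfl _ b9, b2, b8⟩, b3, b7, ?_⟩
            have b5' : wd f.2 f.1 = 1 := b5
            unfold wd at b5' ⊢
            linarith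
        · rw [if_neg h1] at hf
          exact absurd rfl hf) hfin1 hb1
      (fun u hu => hc3 x u (-1) hx0 hu.2.2.2.1 hu.1.1 hu.2.2.2.2)
  have hcomp : (fun f : V × V => if 0 ≤ ps Q f.2 ∧ ps Q f.2 < T then
      (if G f.2 then 0 else ‖P54.tt Q h U 1 x f‖) else 0) =
      (fun f : V × V => if 0 ≤ ps Q f.1 ∧ ps Q f.1 < T then
      (if G f.1 then 0 else ‖P54.tt Q h U 1 x f.swap‖) else 0) ∘ (Equiv.prodComm V V) := by
    funext f
    rfl
  refine ⟨A1.1, A1.2, ?_, ?_⟩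
  · rw [hcomp, Function.support_comp_eq_preimage]
    exact A2.1.preimage (Equiv.injective _).injOn
  · rw [hcomp]
    refine le_trans (le_of_eq ?_) A2.2
    exact (Equiv.prodComm V V).tsum_eq (fun f : V × V => if 0 ≤ ps Q f.1 ∧ ps Q f.1 < T then
      (if G f.1 then 0 else ‖P54.tt Q h U 1 x f.swap‖) else 0)

end Dils1

open Classical in
open Dils1 in
/-- A6 -/
theorem stHDils_1 (hcnt : StHcnt) (hC0 : StHC0) : StHDils := by
  intro ι _ S z1 z2 k hk hz1 hz2 K hK om hom a ha δ h hδ hh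
  obtain ⟨co, hco, hom1⟩ := om_bdd hK hom
  obtain ⟨ch, hch, hh1⟩ := Dil70.test_bdd hδ hh
  have hT := per_pos ha
  set T := per a with hTd
  choose Cc hCc0 hCc1 hCc2 hCc3 using fun i => hcnt S.d (S.Q i) (S.hyp i) T hT δ hδ
  have hHC := fun i => (hC0 S.d (S.Q i) (S.hyp i) T hT δ h hδ hh).1
  refine ⟨∑ i, 4 * (ch * co * (Cc i * Cc i)) / T, fun p hp hp1 hp2 => ⟨4 * p ^ 3, fun n hn i => ?_⟩⟩
  set j := S.s p i with hj
  set A := S.M p i with hAd
  have hdet : A.det = p := S.det p hp hp1 i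
  have hsim : ∀ u, (S.Q i).q (A.app u) = p * (S.Q j).q u := S.sim p hp hp1 i
  have hcone : ∀ u, Cn (S.Q i) (A.app u) ↔ Cn (S.Q j) u := S.cone p hp hp1 i
  have hp0 : (0 : ℝ) < p := by exact_mod_cast hp.pos
  have hp1' : (1 : ℝ) ≤ p := by exact_mod_cast hp.one_lt.le
  have hz1n : ‖z1‖ = 1 := Complex.norm_eq_one_of_pow_eq_one hz1 hk.ne'
  have hz2n : ‖z2‖ = 1 := Complex.norm_eq_one_of_pow_eq_one hz2 hk.ne'
  have hU : ∀ v v', ‖kerH S z1 z2 om j v v'‖ ≤ co := by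
    intro v v'
    unfold kerH
    rw [norm_mul, norm_mul, Dil70.gz_norm hk hz1, Dil70.gz_norm hk hz2, mul_one, mul_one]
    exact hom1 j v v'
  obtain ⟨c, hc⟩ := sim_ps (S.hyp i) (S.hyp j) hp.pos hdet hsim hcone
  have hact := sim_act (S.hyp i) (S.hyp j) hp.pos hdet hsim hcone a
  have hprim : ∀ u, Prim (A.app (act (S.Q j) a u)) ↔ Prim (A.app u) := by
    intro u
    rw [hact u, P54.prim_act (S.hyp i)]
  -- the size
  have hn1 : (4 : ℝ) * p ^ 3 ≤ n := by exact_mod_cast hn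
  have hn0 : (0 : ℝ) < n := lt_of_lt_of_le (by positivity) hn1
  obtain ⟨x, hx⟩ : ∃ x : ℝ, x = (n : ℝ) / p := ⟨_, rfl⟩
  rw [← hx]
  have hx1 : 4 * (p : ℝ) ^ 2 ≤ x := by
    rw [hx, le_div_iff₀ hp0]
    calc 4 * (p : ℝ) ^ 2 * p = 4 * (p : ℝ) ^ 3 := by ring
      _ ≤ (n : ℝ) := hn1
  have hx0 : 0 < x := lt_of_lt_of_le (by positivity) hx1
  have hx11 : 1 ≤ x := by nlinarith
  have hN : (⌊x⌋₊ : ℝ) ≤ x := Nat.floor_le hx0.le
  -- the folding
  set tt0 : V × V → ℂ := P54.tt (S.Q j) h (kerH S z1 z2 om j) 1 x with htt0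
  obtain ⟨σ, hσ⟩ : ∃ σ : Equiv.Perm (V × V), ∀ f, σ f = (act (S.Q j) a f.1, act (S.Q j) a f.2) :=
    ⟨Equiv.prodCongr (P54.actE (S.hyp j) a) (P54.actE (S.hyp j) a), fun f => rfl⟩
  have hP : ∀ f, (Cn (S.Q j) (σ f).1 ∧ Cn (S.Q j) (σ f).2) ↔ (Cn (S.Q j) f.1 ∧ Cn (S.Q j) f.2) := by
    intro f
    rw [hσ]
    simp only [cn_act (S.hyp j) ha]
  have hr1 : ∀ f : V × V, (Cn (S.Q j) f.1 ∧ Cn (S.Q j) f.2) →
      ps (S.Q i) (A.app (σ f).1) = ps (S.Q i) (A.app f.1) + T := by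
    intro f hf
    have h1 : Cn (S.Q j) (σ f).1 := ((hP f).2 hf).1
    rw [hc _ h1, hc _ hf.1, hσ]
    simp only [ps_act (S.hyp j) ha hf.1]
    ring
  have hr0 : ∀ f : V × V, (Cn (S.Q j) f.1 ∧ Cn (S.Q j) f.2) →
      ps (S.Q j) (σ f).1 = ps (S.Q j) f.1 + T := by
    intro f hf
    rw [hσ]
    simp only [ps_act (S.hyp j) ha hf.1]
    rfl
  have hr2 : ∀ f : V × V, (Cn (S.Q j) f.1 ∧ Cn (S.Q j) f.2) →
      ps (S.Q j) (σ f).2 = ps (S.Q j) f.2 + T := by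
    intro f hf
    rw [hσ]
    simp only [ps_act (S.hyp j) ha hf.2]
    rfl
  have htt : ∀ f, tt0 (σ f) = tt0 f := by
    intro f
    rw [hσ, htt0]
    exact P54.tt_act (S.hyp j) ha h (kerH_inv hom j a) 1 x f
  have httP : ∀ f, tt0 f ≠ 0 → (Cn (S.Q j) f.1 ∧ Cn (S.Q j) f.2) ∧ Prim f.1 ∧ Prim f.2 := by
    intro f hf
    rw [htt0] at hf
    unfold P54.tt at hf
    by_cases h1 : Prim f.1 ∧ Prim f.2 ∧ Cn (S.Q j) f.1 ∧ Cn (S.Q j) f.2 ∧ wd f.1 f.2 = 1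
    · exact ⟨⟨h1.2.2.1, h1.2.2.2.1⟩, h1.1, h1.2.1⟩
    · rw [if_neg h1] at hf
      exact absurd rfl hf
  set F : V × V → ℂ := fun f => if Prim (A.app f.1) ∧ Prim (A.app f.2) then tt0 f else 0 with hF
  have hFinv : ∀ f, F (σ f) = F f := by
    intro f
    rw [hF]
    simp only [htt]
    rw [hσ]
    simp only [hprim]
  have hFP : ∀ f, F f ≠ 0 → (Cn (S.Q j) f.1 ∧ Cn (S.Q j) f.2) := by
    intro f hf
    rw [hF] at hf
    by_cases h1 : Prim (A.app f.1) ∧ Prim (A.app f.2)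
    · simp only [if_pos h1] at hf
      exact (httP f hf).1
    · simp only [if_neg h1] at hf
      exact absurd rfl hf
  have hfold1 := fold σ (P := fun f => Cn (S.Q j) f.1 ∧ Cn (S.Q j) f.2) hP hT
    (r := fun f => ps (S.Q i) (A.app f.1)) (s := fun f => ps (S.Q j) f.1) hr1 hr0 F hFinv hFP
  set F2 : V × V → ℝ := fun f => if Prim (A.app f.2) then 0 else ‖tt0 f‖ with hF2
  have hF2inv : ∀ f, F2 (σ f) = F2 f := by
    intro f
    rw [hF2]
    simp only [htt]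
    rw [hσ]
    simp only [hprim]
  have hF2P : ∀ f, F2 f ≠ 0 → (Cn (S.Q j) f.1 ∧ Cn (S.Q j) f.2) := by
    intro f hf
    rw [hF2] at hf
    by_cases h1 : Prim (A.app f.2)
    · simp only [if_pos h1] at hf
      exact absurd rfl hf
    · simp only [if_neg h1] at hf
      exact (httP f (norm_ne_zero_iff.1 hf)).1
  have hfold2 := fold σ (P := fun f => Cn (S.Q j) f.1 ∧ Cn (S.Q j) f.2) hP hT
    (r := fun f => ps (S.Q j) f.1) (s := fun f => ps (S.Q j) f.2) hr0 hr2 F2 hF2inv hF2P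
  have e1 := ident S (z1 := z1) (z2 := z2) hom h hp hp1 hp2 i T (n : ℝ)
  rw [← hAd, ← hj, ← hx] at e1
  rw [hfold1] at e1
  -- finite supports
  set R0 : V × V → ℂ := fun f => if 0 ≤ ps (S.Q j) f.1 ∧ ps (S.Q j) f.1 < T then tt0 f else 0
    with hR0
  have hR0k : ∀ f, hkk (S.Q j) T h (kerH S z1 z2 om j) 1 x f = R0 f := by
    intro f
    rw [P54.hkk_eq]
    rfl
  have hfin0 : (Function.support R0).Finite := by
    have h1 := hHC j (kerH S z1 z2 om j) 1 x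
    rwa [funext hR0k] at h1
  have hsub : ∀ {E : Type} [Zero E] (g : V × V → E), (∀ f, tt0 f = 0 → g f = 0) →
      (Function.support fun f : V × V => if 0 ≤ ps (S.Q j) f.1 ∧ ps (S.Q j) f.1 < T then g f
        else 0).Finite := by
    intro E _ g hg
    refine hfin0.subset fun f hf => ?_
    rw [Function.mem_support] at hf ⊢
    rw [hR0]
    by_cases h1 : 0 ≤ ps (S.Q j) f.1 ∧ ps (S.Q j) f.1 < T
    · rw [if_pos h1] at hf
      simp only [if_pos h1]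
      exact fun h2 => hf (hg f h2)
    · rw [if_neg h1] at hf
      exact absurd rfl hf
  have sF : Summable fun f : V × V => if 0 ≤ ps (S.Q j) f.1 ∧ ps (S.Q j) f.1 < T then F f
      else 0 := summable_of_hasFiniteSupport (hsub F fun f hf => by
        rw [hF]
        simp only [hf, ite_self])
  have sR : Summable R0 := summable_of_hasFiniteSupport hfin0
  set F1 : V × V → ℝ := fun f => if Prim (A.app f.1) then 0 else ‖tt0 f‖ with hF1
  have s1 : Summable fun f : V × V => if 0 ≤ ps (S.Q j) f.1 ∧ ps (S.Q j) f.1 < T then F1 f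
      else 0 := summable_of_hasFiniteSupport (hsub F1 fun f hf => by
        rw [hF1]
        simp only [hf, norm_zero, ite_self])
  have s2 : Summable fun f : V × V => if 0 ≤ ps (S.Q j) f.1 ∧ ps (S.Q j) f.1 < T then F2 f
      else 0 := summable_of_hasFiniteSupport (hsub F2 fun f hf => by
        rw [hF2]
        simp only [hf, norm_zero, ite_self])
  -- the bad pairs
  obtain ⟨L, hL1, hL2⟩ := Dil70.bad_lat hp hdet
  have hbad : ({v : V | Sec (S.Q j) T v ∧ L v ∧ (S.Q j).q v ≤ ⌊x⌋₊}.ncard : ℝ) ≤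
      Cc j * (2 * x / p) := by
    refine (hCc2 j p ⌊x⌋₊ hp L hL1).trans (mul_le_mul_of_nonneg_left ?_ (hCc0 j).le)
    have c1 : (⌊x⌋₊ : ℝ) / p ≤ x / p := div_le_div_of_nonneg_right hN hp0.le
    have c2 : √(⌊x⌋₊ : ℝ) ≤ √x := Real.sqrt_le_sqrt hN
    have c3 : 2 * (p : ℝ) ≤ √x := by
      apply Real.le_sqrt_of_sq_le
      calc (2 * (p : ℝ)) ^ 2 = 4 * p ^ 2 := by ring
        _ ≤ x := hx1
    have c4 : √x * √x = x := Real.mul_self_sqrt hx0.le
    have c5 : √x + 1 ≤ x / p := by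
      rw [le_div_iff₀ hp0]
      nlinarith
    calc (⌊x⌋₊ : ℝ) / p + √(⌊x⌋₊ : ℝ) + 1 ≤ x / p + (√x + 1) := by linarith
      _ ≤ x / p + x / p := by linarith
      _ = 2 * x / p := by ring
  obtain ⟨-, m1, -, m2⟩ := half (U := kerH S z1 z2 om j) hδ hh hh1 hU hch hco.le (hCc0 j).le
    (fun y hy => (hCc1 j y hy).1) (hCc3 j) hx11 L hbad (fun v => Prim (A.app v)) hL2
  have m2' : ∑' f : V × V, (if 0 ≤ ps (S.Q j) f.1 ∧ ps (S.Q j) f.1 < T then F2 f else 0) ≤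
      ch * co * (Cc j * (2 * x / p) * Cc j) := by
    rw [hfold2]
    convert m2
  have m1' : ∑' f : V × V, (if 0 ≤ ps (S.Q j) f.1 ∧ ps (S.Q j) f.1 < T then F1 f else 0) ≤
      ch * co * (Cc j * (2 * x / p) * Cc j) := by
    convert m1
  -- the difference
  have e2 : ‖∑' f, (if 0 ≤ ps (S.Q j) f.1 ∧ ps (S.Q j) f.1 < T then F f else 0) - ∑' f, R0 f‖ ≤
      2 * (ch * co * (Cc j * (2 * x / p) * Cc j)) := by
    rw [← sF.tsum_sub sR]
    have hle : ∀ f : V × V, ‖(if 0 ≤ ps (S.Q j) f.1 ∧ ps (S.Q j) f.1 < T then F f else 0) - R0 f‖ ≤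
        (if 0 ≤ ps (S.Q j) f.1 ∧ ps (S.Q j) f.1 < T then F1 f else 0) +
        (if 0 ≤ ps (S.Q j) f.1 ∧ ps (S.Q j) f.1 < T then F2 f else 0) := by
      intro f
      rw [hR0, hF, hF1, hF2]
      simp only
      by_cases h1 : 0 ≤ ps (S.Q j) f.1 ∧ ps (S.Q j) f.1 < T
      · simp only [if_pos h1]
        by_cases h2 : Prim (A.app f.1)
        · by_cases h3 : Prim (A.app f.2)
          · simp [h2, h3]
          · simp [h2, h3]
        · by_cases h3 : Prim (A.app f.2)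
          · simp [h2, h3]
          · simp [h2, h3]
      · simp only [if_neg h1]
        simp
    have sN : Summable fun f : V × V =>
        ‖(if 0 ≤ ps (S.Q j) f.1 ∧ ps (S.Q j) f.1 < T then F f else 0) - R0 f‖ :=
      Summable.of_nonneg_of_le (fun f => norm_nonneg _) hle (s1.add s2)
    refine (norm_tsum_le_tsum_norm sN).trans ((sN.tsum_le_tsum hle (s1.add s2)).trans ?_)
    rw [s1.tsum_add s2, two_mul]
    exact add_le_add m1' m2'
  have e3 : (p : ℂ) * Hk (S.Q i) T h (res (Im A) (kerH S z1 z2 om i)) (p : ℤ) n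
      - z1 * z2 * Hk (S.Q j) T h (kerH S z1 z2 om j) 1 x = (1 / ((x * T : ℝ) : ℂ)) * (z1 * z2) *
      (∑' f, (if 0 ≤ ps (S.Q j) f.1 ∧ ps (S.Q j) f.1 < T then F f else 0) - ∑' f, R0 f) := by
    unfold Hk
    rw [e1, tsum_congr hR0k]
    have h1 : (p : ℂ) * (1 / ((n * T : ℝ) : ℂ)) = 1 / ((x * T : ℝ) : ℂ) := by
      rw [hx]
      push_cast
      have h2 : (p : ℂ) ≠ 0 := by exact_mod_cast hp.ne_zero
      have h3 : (n : ℂ) ≠ 0 := by exact_mod_cast hn0.ne'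
      have h4 : ((T : ℝ) : ℂ) ≠ 0 := by exact_mod_cast hT.ne'
      field_simp
    rw [← mul_assoc, h1]
    ring
  rw [e3, norm_mul, norm_mul, norm_mul, hz1n, hz2n, mul_one, mul_one, norm_div, norm_one,
    Complex.norm_real, Real.norm_eq_abs, abs_of_pos (mul_pos hx0 hT)]
  have h5 : 4 * (ch * co * (Cc j * Cc j)) / T ≤ ∑ i, 4 * (ch * co * (Cc i * Cc i)) / T :=
    Finset.single_le_sum (f := fun i => 4 * (ch * co * (Cc i * Cc i)) / T)
      (fun i _ => by have := (hCc0 i).le; positivity) (Finset.mem_univ j)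
  calc 1 / (x * T) * ‖∑' f, (if 0 ≤ ps (S.Q j) f.1 ∧ ps (S.Q j) f.1 < T then F f else 0) -
        ∑' f, R0 f‖ ≤ 1 / (x * T) * (2 * (ch * co * (Cc j * (2 * x / p) * Cc j))) :=
        mul_le_mul_of_nonneg_left e2 (by positivity)
    _ = 4 * (ch * co * (Cc j * Cc j)) / T / p := by
        field_simp
        ring
    _ ≤ _ := div_le_div_of_nonneg_right h5 hp0.le

end Pool.Agent.Lib.MP_a17b09_nt.HY
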