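import Pool.Agent.Lib.MP_a17b09_nt.HY.Stmts20
import Pool.Agent.Lib.MP_a17b09_nt.CH.FinM11

/-!
Project HY, (F9): the law of the pair is invariant under `(1, 1)`.
-/

set_option autoImplicit false

open Filter Topology Finset

namespace Pool.Agent.Lib.MP_a17b09_nt.HY

open Pool.Agent.Lib.MP_a17b09_nt.CH

/-- (F9) -/
theorem stHFinM_93 (hT : StHTwM) (hO : StHOn) : StHFinM := by
  intro a b c ha d hD hd k hk h t0 α β hh hα hαβ r s E
  exact FinM11.main E k hk (fun M => (Finset.Icc 1 M).filter (fun t => t ≡ t0 [MOD h]))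
    (nearG a b c α β) (fun _ d => Omn d) (fun t d => Omn ((fv a b c t).natAbs / d))
    (hO a b c ha d hD hd h hh t0 α β hα hαβ)
    (fun z1 z2 h1 h2 h3 => hT a b c ha d hD hd z1 z2 k hk h1 h2 h3 h hh t0 α β hα hαβ E) r s

end Pool.Agent.Lib.MP_a17b09_nt.HY
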