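import Pool.Agent.Lib.MP_a17b09_nt.HY.FmB49

/-!
Project HY (MP_a17b09), module F5: the sandwich.
-/

set_option autoImplicit false

open Filter Topology Finset

namespace Pool.Agent.Lib.MP_a17b09_nt.HY

open Pool.Agent.Lib.MP_a17b09_nt.CH

namespace Fm49

open Cut77 Tst77

/-- the frames of the sandwich lie in a box -/
theorem HFG_sub {d : ℕ} {Q : Form} (hQ : Hyp d Q) {T : ℝ} {a b : ℤ} {α β : ℝ} (ha : 0 < a)
    (hα : 0 < α) (hβ : 0 < β) {T0 N : ℕ} {n : ℝ} (hn : β * N ≤ n) {s2 : ℝ}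
    (hs2 : a / α + |(b : ℝ)| ≤ s2) :
    HFG Q T a b α β T0 N ⊆ HF Q T n 0 s2 := by
  rintro f ⟨h1, h2, h3, h4, h5, h6, h7⟩
  have ha' : (0 : ℝ) < a := by exact_mod_cast ha
  have q1 := q_one hQ h2.1
  have q0 : (0 : ℝ) < Q.q f.1 := by linarith
  have h8 : tp Q a b f ≤ Q.q f.1 / α := by
    rw [le_div_iff₀ hα]; linarith
  have h9 : (Q.B f.1 f.2 : ℝ) = 2 * a * tp Q a b f + b := by
    unfold tp; field_simp; ring
  refine mem_HF hQ h1 h2 h3 ?_ (sf_pos hQ h2.1 h3).le ?_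
  · exact h7.trans ((mul_le_mul_of_nonneg_left h5 hβ.le).trans hn)
  · refine le_trans ?_ hs2
    unfold sf
    rw [div_le_iff₀ (by positivity), h9]
    have h10 : 2 * a * tp Q a b f ≤ 2 * a * (Q.q f.1 / α) :=
      mul_le_mul_of_nonneg_left h8 (by positivity)
    have h11 : (b : ℝ) ≤ |(b : ℝ)| * (2 * Q.q f.1) := by
      have := le_abs_self (b : ℝ)
      have h12 := abs_nonneg (b : ℝ)
      nlinarith
    calc _ ≤ 2 * a * (Q.q f.1 / α) + |(b : ℝ)| * (2 * Q.q f.1) := by linarith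
      _ = _ := by field_simp

open Classical in
/-- one form: the sum over the sandwich is close to the bilinear sum -/
theorem one_form (hu : StHup) {d : ℕ} {Q : Form} (hQ : Hyp d Q) {T : ℝ} (hT : 0 < T) {a b : ℤ}
    {α β : ℝ} (ha : 0 < a) (hα : 0 < α) (hαβ : α < β) (T0 : ℕ) {c : ℕ} (hc1 : 16 * β ≤ c)
    (hc2 : 8 * a * (a / α) ≤ (c : ℝ)) : ∃ K : ℝ, 0 ≤ K ∧ ∀ ρ ε : ℝ, 0 < ρ → ρ ≤ 1 → 0 < ε →
      ε ≤ a / β / 4 → ε ≤ a / 4 → ∀ᶠ N : ℕ in atTop, ∀ (U : V → V → ℂ) (W : ℝ),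
      (∀ v v', ‖U v v'‖ ≤ W) → ‖∑ᶠ f ∈ HFG Q T a b α β T0 N, U f.1 f.2 -
        (((c : ℝ) * N * T : ℝ) : ℂ) *
          Hk Q T (hh (a / β) (a / α) a c ρ (ε / 2)) U 1 ((c : ℝ) * N)‖ ≤
        W * ((K * (4 * ρ ^ 2 * c + ε) + c * T *
          ‖Hk Q T (hw (a / β) (a / α) a c ρ ε) (fun _ _ => 1) 1 ((c : ℝ) * N)‖) * N) := by
  obtain ⟨hfin, C, hC, htriv, hshort⟩ := hu d Q hQ T hT
  have ha' : (0 : ℝ) < a := by exact_mod_cast ha
  have hβ : 0 < β := hα.trans hαβ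
  have hc0 : (0 : ℝ) < c := by linarith
  have hc0' : 0 < c := by exact_mod_cast hc0
  have hA0 : (0 : ℝ) < a / β := by positivity
  have hB0 : (0 : ℝ) < a / α := by positivity
  have hAB : (a : ℝ) / β ≤ a / α := div_le_div_of_nonneg_left ha'.le hα hαβ.le
  have hbb : 0 ≤ |(b : ℝ)| := abs_nonneg _
  have hd : (0 : ℝ) ≤ d := Nat.cast_nonneg d
  set s2 : ℝ := 2 * (a / α) + |(b : ℝ)| + d + 1 with hs2
  have hs20 : 0 ≤ s2 := by positivity
  refine ⟨C * (s2 - 0 + 1) + 4 * C * c, by positivity, fun ρ ε hρ hρ1 hε hεA hεa => ?_⟩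
  have hc1' : 16 * (a : ℝ) ≤ a / β * c := by
    calc 16 * (a : ℝ) = a / β * (16 * β) := by field_simp
      _ ≤ a / β * c := mul_le_mul_of_nonneg_left hc1 hA0.le
  have hc2' : 4 * a * (a / α) ≤ (c : ℝ) := by
    have : 0 < a * ((a : ℝ) / α) := by positivity
    linarith
  have hσ : 0 < 4 * ρ ^ 2 * c := by positivity
  have hcN : Tendsto (fun N : ℕ => c * N) atTop atTop :=
    Filter.tendsto_id.const_mul_atTop' hc0'
  have sA := hcN.eventually (hshort (a / β - ε) (a / β + ε) (by linarith) (by linarith))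
  have sB := hcN.eventually (hshort (a / α - ε) (a / α + ε) (by linarith) (by linarith))
  filter_upwards [eventually_ge_atTop 1, lin_ev (C := 1) hσ, sA, sB,
    point hQ (b := b) ha hα hαβ T0 (by linarith) hc2' hρ hρ1 hε (by linarith) (by linarith),
    win hQ hA0 hB0 ha' hρ hε hεa hc0' hc2] with N hN hσN h2 h3 hpt hwin U W hU
  have hN1 : (1 : ℝ) ≤ N := by exact_mod_cast hN
  have hN0 : (0 : ℝ) < N := by linarith
  have hX : (0 : ℝ) < c * N := by positivity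
  have hXT : (0 : ℝ) < c * N * T := by positivity
  have hW : 0 ≤ W := (norm_nonneg _).trans (hU 0 0)
  have hcast : (((c * N : ℕ) : ℕ) : ℝ) = c * N := by push_cast; ring
  rw [hcast] at h2 h3
  set F : Finset (V × V) := (hfin (c * N) 0 s2).toFinset with hF
  have hFm : ∀ f, f ∈ F ↔ f ∈ HF Q T (c * N) 0 s2 := fun f => (hfin (c * N) 0 s2).mem_toFinset
  -- the support
  have hsupp : ∀ (h : ℝ → ℝ → ℝ), (∀ x y, h x y ≠ 0 → x ≤ 1 ∧ y ≤ 2 * (a / α) * x) →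
      ∀ f : V × V, wd f.1 f.2 = 1 → Sec Q T f.1 → Cn Q f.2 →
      h (Q.nr ((c : ℝ) * N) f.1) (Q.nr ((c : ℝ) * N) f.2) ≠ 0 → f ∈ F := by
    intro h hs f g1 g2 g3 g4
    rw [hFm]
    obtain ⟨e1, e2⟩ := hs _ _ g4
    have g5 := q_one hQ g2.1
    refine mem_HF hQ g1 g2 g3 ?_ (sf_pos hQ g2.1 g3).le
      ((sf_le hQ g1 g2.1 hX (by positivity) e2).trans (by rw [hs2]; linarith))
    unfold Form.nr at e1
    rw [Real.sqrt_le_iff] at e1
    have e3 := e1.2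
    rwa [one_pow, div_le_one hX] at e3
  have hF1 : ∀ f ∈ F, wd f.1 f.2 = 1 ∧ Sec Q T f.1 ∧ Cn Q f.2 := fun f hf => by
    rw [hFm] at hf
    exact ⟨hf.1, hf.2.1, hf.2.2.1⟩
  have e1 := Hk_eq (Q := Q) hT hX (h := hh (a / β) (a / α) a c ρ (ε / 2)) U F hF1
    (hsupp _ fun x y hxy => by
      obtain ⟨p1, p2, p3, p4, p5, p6, p7⟩ := hh_supp hA0 hB0 ha' hρ hρ1
        (half_pos hε) (by linarith) (by linarith) (by linarith) (by linarith) hc2' hxy
      refine ⟨p2, p6.le.trans (mul_le_mul_of_nonneg_right (by linarith) (by linarith))⟩)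
  have e2 := Hk_eq (Q := Q) hT hX (h := hw (a / β) (a / α) a c ρ ε) (fun _ _ => 1) F hF1
    (hsupp _ fun x y hxy => by
      obtain ⟨p1, p2, p3, p4, p5, p6⟩ := hw_supp hA0 hB0 hρ hρ1 hε (by linarith) (by linarith)
        hεa hc1' hc2 hxy
      exact ⟨p2, p5⟩)
  rw [e1]
  -- the sandwich as a sum over the box
  have hset : HFG Q T a b α β T0 N = ↑(F.filter (fun f => PG Q a b α β T0 N f)) := by
    ext f
    rw [Finset.mem_coe, Finset.mem_filter]
    constructor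
    · intro hf
      refine ⟨(hFm f).2 (HFG_sub hQ ha hα hβ (n := c * N)
        (mul_le_mul_of_nonneg_right (by linarith) hN0.le) (by rw [hs2]; linarith) hf), ?_⟩
      exact ⟨hf.2.2.2.1, hf.2.2.2.2.1, hf.2.2.2.2.2.1, hf.2.2.2.2.2.2⟩
    · rintro ⟨hf, g1, g2, g3, g4⟩
      obtain ⟨k1, k2, k3⟩ := hF1 f hf
      exact ⟨k1, k2, k3, g1, g2, g3, g4⟩
  have e3 : ∑ᶠ f ∈ HFG Q T a b α β T0 N, U f.1 f.2 =
      ∑ f ∈ F, (if PG Q a b α β T0 N f then (1 : ℂ) else 0) * U f.1 f.2 := by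
    rw [hset, finsum_mem_coe_finset, Finset.sum_filter]
    apply Finset.sum_congr rfl
    intro f _
    split_ifs
    · rw [one_mul]
    · rw [zero_mul]
  rw [e3, ← Finset.sum_sub_distrib]
  set σ : ℝ := 4 * ρ ^ 2 * c with hσd
  have hterm : ∀ f ∈ F, ‖(if PG Q a b α β T0 N f then (1 : ℂ) else 0) * U f.1 f.2 -
      ((hh (a / β) (a / α) a c ρ (ε / 2) (Q.nr ((c : ℝ) * N) f.1) (Q.nr ((c : ℝ) * N) f.2) : ℝ)
        : ℂ) * U f.1 f.2‖ ≤
      if bad Q (a / β) (a / α) a σ ε N f then W else 0 := by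
    intro f hf
    obtain ⟨k1, k2, k3⟩ := hF1 f hf
    have k4 := ((hFm f).1 hf).2.2.2.1
    rw [← sub_mul, norm_mul]
    have n1 := hh_nonneg (a / β) (a / α) a c ρ (ε / 2) (Q.nr ((c : ℝ) * N) f.1)
          (Q.nr ((c : ℝ) * N) f.2)
    have n2 := hh_le (a / β) (a / α) a c ρ (ε / 2) (Q.nr ((c : ℝ) * N) f.1)
          (Q.nr ((c : ℝ) * N) f.2)
    split_ifs with g1 g2 g2
    · have : ‖(1 : ℂ) - ((hh (a / β) (a / α) a c ρ (ε / 2) (Q.nr ((c : ℝ) * N) f.1)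
          (Q.nr ((c : ℝ) * N) f.2) : ℝ) : ℂ)‖ ≤ 1 := by
        rw [← Complex.ofReal_one, ← Complex.ofReal_sub, Complex.norm_real, Real.norm_eq_abs,
          abs_le]
        constructor <;> linarith
      calc _ ≤ 1 * W := mul_le_mul this (hU _ _) (norm_nonneg _) zero_le_one
        _ = W := one_mul _
    · rw [hpt f k1 k2.1 k3 k4 g2, if_pos g1]
      simp
    · have : ‖(0 : ℂ) - ((hh (a / β) (a / α) a c ρ (ε / 2) (Q.nr ((c : ℝ) * N) f.1)
          (Q.nr ((c : ℝ) * N) f.2) : ℝ) : ℂ)‖ ≤ 1 := by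
        rw [← Complex.ofReal_zero, ← Complex.ofReal_sub, Complex.norm_real, Real.norm_eq_abs,
          abs_le]
        constructor <;> linarith
      calc _ ≤ 1 * W := mul_le_mul this (hU _ _) (norm_nonneg _) zero_le_one
        _ = W := one_mul _
    · rw [hpt f k1 k2.1 k3 k4 g2, if_neg g1]
      simp
  refine (norm_sum_le _ _).trans ((Finset.sum_le_sum hterm).trans ?_)
  rw [← Finset.sum_filter, Finset.sum_const, nsmul_eq_mul, mul_comm]
  refine mul_le_mul_of_nonneg_left ?_ hW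
  -- counting the bad frames
  set S1 : Finset (V × V) := (hfin (σ * N) 0 s2).toFinset with hS1
  set S2 : Finset (V × V) := (hfin (c * N) (a / β - ε) (a / β + ε)).toFinset with hS2
  set S3 : Finset (V × V) := (hfin (c * N) (a / α - ε) (a / α + ε)).toFinset with hS3
  set S4 : Finset (V × V) := F.filter (fun f => σ * N ≤ Q.q f.1 ∧ (a : ℝ) / β ≤ sf Q f ∧
    sf Q f ≤ a / α ∧ |(Q.q f.1 : ℝ) * sf Q f - a * N| ≤ ε * N) with hS4
  have hcov : F.filter (fun f => bad Q (a / β) (a / α) a σ ε N f) ⊆ S1 ∪ (S2 ∪ (S3 ∪ S4)) := by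
    intro f hf
    obtain ⟨hf1, hf2⟩ := Finset.mem_filter.1 hf
    obtain ⟨k1, k2, k3⟩ := hF1 f hf1
    have k4 := (hFm f).1 hf1
    have q1 := q_one hQ k2.1
    have k5 : sf Q f ≤ s2 := by
      have := k4.2.2.2.2.2
      unfold sf
      rw [div_le_iff₀ (by positivity)]
      linarith
    simp only [Finset.mem_union]
    rcases lt_or_ge (Q.q f.1 : ℝ) (σ * N) with hq | hq
    · left
      rw [hS1, (hfin (σ * N) 0 s2).mem_toFinset]
      exact mem_HF hQ k1 k2 k3 hq.le (sf_pos hQ k2.1 k3).le k5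
    right
    rcases hf2 with hb | hb | hb | hb
    · linarith
    · left
      rw [hS2, (hfin _ _ _).mem_toFinset]
      obtain ⟨g5, g6⟩ := abs_le.1 hb
      exact mem_HF hQ k1 k2 k3 k4.2.2.2.1 (by linarith) (by linarith)
    · right; left
      rw [hS3, (hfin _ _ _).mem_toFinset]
      obtain ⟨g5, g6⟩ := abs_le.1 hb
      exact mem_HF hQ k1 k2 k3 k4.2.2.2.1 (by linarith) (by linarith)
    · right; right
      rw [hS4, Finset.mem_filter]
      exact ⟨hf1, hq, hb⟩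
  have c1 : (S1.card : ℝ) ≤ C * (s2 - 0 + 1) * (σ * N) := by
    rw [hS1, ← Set.ncard_eq_toFinset_card _ (hfin (σ * N) 0 s2)]
    exact htriv _ _ _ hσN hs20
  have c2 : (S2.card : ℝ) ≤ C * ((a / β + ε) - (a / β - ε)) * (c * N) := by
    rw [hS2, ← Set.ncard_eq_toFinset_card _ (hfin _ _ _)]
    exact h2
  have c3 : (S3.card : ℝ) ≤ C * ((a / α + ε) - (a / α - ε)) * (c * N) := by
    rw [hS3, ← Set.ncard_eq_toFinset_card _ (hfin _ _ _)]
    exact h3
  have c4 : (S4.card : ℝ) ≤ c * N * T *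
      ‖Hk Q T (hw (a / β) (a / α) a c ρ ε) (fun _ _ => 1) 1 ((c : ℝ) * N)‖ := by
    have e4 : c * N * T * ‖Hk Q T (hw (a / β) (a / α) a c ρ ε) (fun _ _ => 1) 1 ((c : ℝ) * N)‖ =
        ‖(((c : ℝ) * N * T : ℝ) : ℂ) *
          Hk Q T (hw (a / β) (a / α) a c ρ ε) (fun _ _ => 1) 1 ((c : ℝ) * N)‖ := by
      rw [norm_mul, Complex.norm_real, Real.norm_of_nonneg hXT.le]
    rw [e4, e2]
    obtain ⟨g, hg⟩ : ∃ g : V × V → ℝ, g = fun f => hw (a / β) (a / α) a c ρ ε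
      (Q.nr ((c : ℝ) * N) f.1) (Q.nr ((c : ℝ) * N) f.2) := ⟨_, rfl⟩
    have e5 : ∑ f ∈ F, ((hw (a / β) (a / α) a c ρ ε (Q.nr ((c : ℝ) * N) f.1)
        (Q.nr ((c : ℝ) * N) f.2) : ℝ) : ℂ) * 1 = ((∑ f ∈ F, g f : ℝ) : ℂ) := by
      rw [hg]
      push_cast
      exact Finset.sum_congr rfl fun f _ => mul_one _
    rw [e5, Complex.norm_real]
    refine le_trans ?_ (le_abs_self _)
    have e6 : (S4.card : ℝ) = ∑ f ∈ S4, (1 : ℝ) := by
      rw [Finset.sum_const, nsmul_eq_mul, mul_one]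
    rw [e6]
    have hsub4 : S4 ⊆ F := Finset.filter_subset _ _
    have i1 : ∑ f ∈ S4, (1 : ℝ) ≤ ∑ f ∈ S4, g f := by
      apply Finset.sum_le_sum
      intro f hf
      rw [hS4, Finset.mem_filter] at hf
      obtain ⟨hf1, g1, g2, g3, g4⟩ := hf
      obtain ⟨k1, k2, k3⟩ := hF1 f hf1
      have k4 := (hFm f).1 hf1
      rw [hg]
      exact (hwin f k1 k2.1 k3 k4.2.2.2.1 g1 g2 g3 g4).ge
    have i2 : ∑ f ∈ S4, g f ≤ ∑ f ∈ F, g f := by
      apply Finset.sum_le_sum_of_subset_of_nonneg hsub4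
      intro f _ _
      rw [hg]
      exact hw_nonneg hε _ _
    exact i1.trans i2
  have hcard : ((F.filter (fun f => bad Q (a / β) (a / α) a σ ε N f)).card : ℝ) ≤
      (S1.card : ℝ) + ((S2.card : ℝ) + ((S3.card : ℝ) + (S4.card : ℝ))) := by
    have g1 := Finset.card_le_card hcov
    have g2 := Finset.card_union_le S1 (S2 ∪ (S3 ∪ S4))
    have g3 := Finset.card_union_le S2 (S3 ∪ S4)
    have g4 := Finset.card_union_le S3 S4
    exact_mod_cast g1.trans (g2.trans (Nat.add_le_add_left (g3.trans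
      (Nat.add_le_add_left g4 _)) _))
  have hp1 : 0 ≤ C * (s2 - 0 + 1) * ε * N := by positivity
  have hp2 : 0 ≤ 4 * C * c * σ * N := by positivity
  calc _ ≤ (S1.card : ℝ) + ((S2.card : ℝ) + ((S3.card : ℝ) + (S4.card : ℝ))) := hcard
    _ ≤ C * (s2 - 0 + 1) * (σ * N) + (C * ((a / β + ε) - (a / β - ε)) * (c * N) +
        (C * ((a / α + ε) - (a / α - ε)) * (c * N) + c * N * T *
      ‖Hk Q T (hw (a / β) (a / α) a c ρ ε) (fun _ _ => 1) 1 ((c : ℝ) * N)‖)) := by gcongr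
    _ ≤ _ := by
      generalize ‖Hk Q T (hw (a / β) (a / α) a c ρ ε) (fun _ _ => 1) 1 ((c : ℝ) * N)‖ = R
      have e7 : ((C * (s2 - 0 + 1) + 4 * C * c) * (σ + ε) + c * T * R) * N =
          C * (s2 - 0 + 1) * (σ * N) + (C * ((a / β + ε) - (a / β - ε)) * (c * N) +
        (C * ((a / α + ε) - (a / α - ε)) * (c * N) + c * N * T * R)) +
          (C * (s2 - 0 + 1) * ε * N + 4 * C * c * σ * N) := by ring
      rw [e7]
      linarith

/-- crude bound for the number of frames -/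
theorem crude (hu : StHup) {d : ℕ} {Q : Form} (hQ : Hyp d Q) {T : ℝ} (hT : 0 < T) {a b : ℤ}
    {α β : ℝ} (ha : 0 < a) (hα : 0 < α) (hαβ : α < β) (T0 : ℕ) :
    (∀ N, (HFG Q T a b α β T0 N).Finite) ∧ ∃ C : ℝ, 0 ≤ C ∧ ∀ N : ℕ,
      ((HFG Q T a b α β T0 N).ncard : ℝ) ≤ C * N := by
  obtain ⟨hfin, C, hC, htriv, _⟩ := hu d Q hQ T hT
  have ha' : (0 : ℝ) < a := by exact_mod_cast ha
  have hβ : 0 < β := hα.trans hαβ
  set s2 : ℝ := a / α + |(b : ℝ)| with hs2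
  have hs20 : 0 ≤ s2 := by positivity
  have hsub : ∀ N : ℕ, HFG Q T a b α β T0 N ⊆ HF Q T ((β + 1) * N) 0 s2 := fun N =>
    HFG_sub hQ ha hα hβ (by
      have : (0 : ℝ) ≤ N := Nat.cast_nonneg N
      linarith) le_rfl
  refine ⟨fun N => (hfin _ _ _).subset (hsub N), C * (s2 - 0 + 1) * (β + 1), by positivity,
    fun N => ?_⟩
  rcases Nat.eq_zero_or_pos N with rfl | hN
  · -- no frame has q ≤ 0
    have h0 : HFG Q T a b α β T0 0 = ∅ := by
      rw [Set.eq_empty_iff_forall_notMem]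
      intro f hf
      have h1 : (Q.q f.1 : ℝ) ≤ (β + 1) * ((0 : ℕ) : ℝ) := (hsub 0 hf).2.2.2.1
      have h2 := q_one hQ hf.2.1.1
      rw [Nat.cast_zero, mul_zero] at h1
      linarith
    rw [h0]
    simp
  · have hN1 : (1 : ℝ) ≤ N := by exact_mod_cast hN
    have h1 : ((HFG Q T a b α β T0 N).ncard : ℝ) ≤
        ((HF Q T ((β + 1) * N) 0 s2).ncard : ℝ) := by
      exact_mod_cast Set.ncard_le_ncard (hsub N) (hfin _ _ _)
    refine h1.trans ((htriv _ _ _ (by nlinarith) hs20).trans (le_of_eq (by ring)))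

/-- dilation by a natural number -/
theorem dilc (M : LMean) {R : ℝ → ℂ} {C1 : ℝ} (hC1 : SVc C1 R) {c : ℕ} (hc : 0 < c) :
    M.E (fun N : ℕ => ‖R ((c : ℝ) * N)‖) = M.E (fun n : ℕ => ‖R n‖) := by
  have hc0 : (0 : ℝ) < c := by exact_mod_cast hc
  have hc1x : (1 : ℝ) ≤ c := by exact_mod_cast hc
  have hG : SVc C1 (fun x => R ((c : ℝ) * x)) := by
    refine ⟨fun x => hC1.1 _, fun x y hx hxy => ?_⟩
    have h1 : (1 : ℝ) ≤ c * x := by nlinarith
    have h2 := hC1.2 (c * x) (c * y) h1 (mul_le_mul_of_nonneg_left hxy hc0.le)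
    refine h2.trans (le_of_eq ?_)
    have hx0 : x ≠ 0 := by linarith
    field_simp
  have g1 := (stMd_18 M _ C1 hG c hc).1
  have e2 : (fun n : ℕ => ‖R ((c : ℝ) * ((n : ℝ) / (c : ℝ)))‖) = fun n : ℕ => ‖R n‖ := by
    funext n
    have : (c : ℝ) * ((n : ℝ) / (c : ℝ)) = n := by field_simp
    rw [this]
  rw [e2] at g1
  exact g1.symm

theorem svc_sum {ι : Type} [Fintype ι] (F : ι → ℝ → ℂ) (hF : ∀ i, ∃ C, SVc C (F i)) :
    ∃ C, SVc C (fun x => ∑ i, F i x) := by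
  choose C hC using hF
  refine ⟨∑ i, C i, fun x => (norm_sum_le _ _).trans (Finset.sum_le_sum fun i _ => (hC i).1 x),
    fun x y hx hxy => ?_⟩
  simp only
  rw [← Finset.sum_sub_distrib]
  refine (norm_sum_le _ _).trans ((Finset.sum_le_sum fun i _ => (hC i).2 x y hx hxy).trans ?_)
  rw [Finset.sum_mul, Finset.sum_div]

end Fm49

open Fm49 Tst77 in
/-- (F5) the sandwich -/
theorem stHFm_49 (h0 : StHC0) (hu : StHup) : StHFm := by
  classical
  intro M ι _ d Q hQ T hT U hU hN a b α β ha hα hαβ T0 hT0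
  obtain ⟨W0, hW0⟩ := hU
  obtain ⟨W, hW, hUW⟩ : ∃ W : ℝ, 0 < W ∧ ∀ i v v', ‖U i v v'‖ ≤ W :=
    ⟨|W0| + 1, by positivity, fun i v v' => (hW0 i v v').trans
      ((le_abs_self _).trans (by linarith))⟩
  have ha' : (0 : ℝ) < a := by exact_mod_cast ha
  have hβ : 0 < β := hα.trans hαβ
  have hB0 : (0 : ℝ) < a / α := by positivity
  have hA0 : (0 : ℝ) < a / β := by positivity
  -- boundedness
  choose hfin hex using fun i => crude hu (hQ i) hT (b := b) ha hα hαβ T0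
  choose C hC0 hC using hex
  have hbdd : Bdd (fun N : ℕ =>
      ‖∑ i, ∑ᶠ f ∈ HFG (Q i) T a b α β T0 N, U i f.1 f.2‖ / N) := by
    refine ⟨∑ i, C i * W, fun N => ?_⟩
    rw [abs_of_nonneg (by positivity)]
    have hS : 0 ≤ ∑ i, C i * W := Finset.sum_nonneg fun i _ => mul_nonneg (hC0 i) hW.le
    rcases Nat.eq_zero_or_pos N with rfl | hNp
    · simpa using hS
    · have hN0 : (0 : ℝ) < N := by exact_mod_cast hNp
      rw [div_le_iff₀ hN0, Finset.sum_mul]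
      refine (norm_sum_le _ _).trans (Finset.sum_le_sum fun i _ => ?_)
      rw [finsum_mem_eq_finite_toFinset_sum _ (hfin i N)]
      refine (norm_sum_le _ _).trans ?_
      calc ∑ f ∈ (hfin i N).toFinset, ‖U i f.1 f.2‖ ≤ ∑ f ∈ (hfin i N).toFinset, W :=
            Finset.sum_le_sum fun f _ => hUW i f.1 f.2
        _ = ((HFG (Q i) T a b α β T0 N).ncard : ℝ) * W := by
            rw [Finset.sum_const, nsmul_eq_mul, Set.ncard_eq_toFinset_card _ (hfin i N)]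
        _ ≤ (C i * N) * W := mul_le_mul_of_nonneg_right (hC i N) hW.le
        _ = C i * W * N := by ring
  refine ⟨fun i N => hfin i N, hbdd, ?_⟩
  -- the scale
  obtain ⟨c, hc⟩ := exists_nat_ge (16 * β + 8 * a * (a / α))
  have hc1 : 16 * β ≤ c := by
    have : 0 < 8 * a * ((a : ℝ) / α) := by positivity
    linarith
  have hc2 : 8 * a * (a / α) ≤ (c : ℝ) := by linarith
  have hc0 : (0 : ℝ) < c := by linarith
  have hc0' : 0 < c := by exact_mod_cast hc0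
  have hc1' : 16 * (a : ℝ) ≤ a / β * c := by
    calc 16 * (a : ℝ) = a / β * (16 * β) := by field_simp
      _ ≤ a / β * c := mul_le_mul_of_nonneg_left hc1 hA0.le
  choose K hK0 hK using fun i => one_form hu (hQ i) hT (b := b) ha hα hαβ T0 hc1 hc2
  choose C' hC'0 hC' using fun i => avg hu h0 (hQ i) hT a c (2 * (a / α)) ha' (by positivity)
  -- it suffices to bound the mean by every positive number
  have hnn : 0 ≤ M.E (fun N : ℕ =>
      ‖∑ i, ∑ᶠ f ∈ HFG (Q i) T a b α β T0 N, U i f.1 f.2‖ / N) :=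
    M.nonneg _ hbdd fun N => by positivity
  refine le_antisymm ?_ hnn
  apply le_of_forall_pos_le_add
  intro η hη
  rw [zero_add]
  -- the parameters
  set KK : ℝ := ∑ i, W * K i with hKK
  set CC : ℝ := ∑ i, W * (c * T * C' i) with hCC
  have hKK0 : 0 ≤ KK := Finset.sum_nonneg fun i _ => mul_nonneg hW.le (hK0 i)
  have hCC0 : 0 ≤ CC := Finset.sum_nonneg fun i _ =>
    mul_nonneg hW.le (mul_nonneg (by positivity) (hC'0 i))
  obtain ⟨m, hm⟩ := exists_nat_ge (2 * CC / η + 1)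
  have hm1 : (1 : ℝ) ≤ m := by
    have : 0 ≤ 2 * CC / η := by positivity
    linarith
  have hm0 : (0 : ℝ) < m := by linarith
  have hm0' : 0 < m := by exact_mod_cast hm0
  have hCm : CC / m ≤ η / 2 := by
    rw [div_le_iff₀ hm0]
    have h1 : 2 * CC / η ≤ m := by linarith
    rw [div_le_iff₀ hη] at h1
    linarith
  set κ : ℝ := η / (4 * (KK + 1)) with hκ
  have hκ0 : 0 < κ := by positivity
  have hκK : KK * (κ + κ) ≤ η / 2 := by
    have h1 : KK * (κ + κ) = (KK / (KK + 1)) * (η / 2) := by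
      rw [hκ]; field_simp; ring
    rw [h1]
    have h2 : KK / (KK + 1) ≤ 1 := by rw [div_le_one (by positivity)]; linarith
    calc _ ≤ 1 * (η / 2) := mul_le_mul_of_nonneg_right h2 (by positivity)
      _ = _ := one_mul _
  obtain ⟨ε, hε, hεA, hεa, hεB, hεm, hεη⟩ : ∃ ε : ℝ, 0 < ε ∧ ε ≤ a / β / 4 ∧ ε ≤ a / 4 ∧
      ε ≤ a / α ∧ 3 * ε ≤ a / (20 * m) ∧ ε ≤ κ := by
    refine ⟨min (min (min (a / β / 4) (a / 4)) (a / α)) (min (a / (60 * m)) κ), ?_, ?_, ?_, ?_,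
      ?_, ?_⟩
    · exact lt_min (lt_min (lt_min (by positivity) (by positivity)) hB0)
        (lt_min (by positivity) hκ0)
    · exact (min_le_left _ _).trans ((min_le_left _ _).trans (min_le_left _ _))
    · exact (min_le_left _ _).trans ((min_le_left _ _).trans (min_le_right _ _))
    · exact (min_le_left _ _).trans (min_le_right _ _)
    · have h1 : min (min (min ((a : ℝ) / β / 4) (a / 4)) (a / α)) (min (a / (60 * m)) κ) ≤
          a / (60 * m) := (min_le_right _ _).trans (min_le_left _ _)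
      have h2 : (a : ℝ) / (20 * m) = 3 * (a / (60 * m)) := by field_simp; ring
      rw [h2]
      linarith
    · exact (min_le_right _ _).trans (min_le_right _ _)
  obtain ⟨ρ, hρ, hρ1, hρη⟩ : ∃ ρ : ℝ, 0 < ρ ∧ ρ ≤ 1 ∧ 4 * ρ ^ 2 * c ≤ κ := by
    refine ⟨min 1 (κ / (4 * c)), lt_min one_pos (by positivity), min_le_left _ _, ?_⟩
    have hm : 0 < min 1 (κ / (4 * c)) := lt_min one_pos (by positivity)
    have h1 : (min 1 (κ / (4 * c))) ^ 2 ≤ κ / (4 * c) := by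
      rw [sq]
      calc _ ≤ 1 * (κ / (4 * c)) :=
            mul_le_mul (min_le_left _ _) (min_le_right _ _) hm.le zero_le_one
        _ = _ := one_mul _
    rw [le_div_iff₀ (by positivity)] at h1
    linarith
  have hAB : (a : ℝ) / β ≤ a / α := div_le_div_of_nonneg_left ha'.le hα hαβ.le
  have hT1 := hh_test hA0 hB0 ha' hρ hρ1 (half_pos hε) (by linarith) (by linarith)
    (by linarith) (show 4 * (a : ℝ) ≤ a / β * c by linarith) (show 4 * a * (a / α) ≤ (c : ℝ) by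
      have : 0 < (a : ℝ) * (a / α) := by positivity
      linarith)
  have hδ1 : 0 < min ρ (a / β / 2 * ρ) := lt_min hρ (by positivity)
  have hT2 := hw_test hA0 hB0 ha' hρ hρ1 hε (by linarith) hεB hεa hc1' hc2
  have hδ2 : 0 < min ρ (a / β / 4 * ρ) := lt_min hρ (by positivity)
  set h : ℝ → ℝ → ℝ := hh (a / β) (a / α) a c ρ (ε / 2) with hh'
  set w : ℝ → ℝ → ℝ := hw (a / β) (a / α) a c ρ ε with hw'
  have hnull := hN _ h hδ1 hT1
  -- the first sum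
  obtain ⟨C1, hC1⟩ := svc_sum (fun i x => Hk (Q i) T h (U i) 1 x) (fun i =>
    (h0 d (Q i) (hQ i) T hT _ h hδ1 hT1).2.2 1 (U i) W (hUW i))
  have hC10 : 0 ≤ C1 := (norm_nonneg _).trans (hC1.1 0)
  have hd1 := dilc M hC1 hc0'
  rw [hnull] at hd1
  have hb2 : Bdd (fun N : ℕ => ‖∑ i, Hk (Q i) T h (U i) 1 ((c : ℝ) * N)‖) :=
    ⟨C1, fun N => by rw [abs_of_nonneg (norm_nonneg _)]; exact hC1.1 _⟩
  -- the windows
  choose C2 hC2 using fun i => (h0 d (Q i) (hQ i) T hT _ w hδ2 hT2).2.2 1 (fun _ _ => 1) 1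
    (fun _ _ => by rw [norm_one])
  have hd2 : ∀ i, M.E (fun N : ℕ => ‖Hk (Q i) T w (fun _ _ => 1) 1 ((c : ℝ) * N)‖) ≤ C' i / m := by
    intro i
    rw [dilc M (hC2 i) hc0']
    refine hC' i m hm0' _ w hδ2 hT2 (fun x y => ?_) (fun x y hxy => ?_) M
    · rw [abs_of_nonneg (hw_nonneg hε _ _)]
      exact hw_le _ _
    · obtain ⟨p1, p2, p3, p4, p5, p6⟩ := hw_supp hA0 hB0 hρ hρ1 hε (by linarith) hεB
        hεa hc1' hc2 hxy
      exact ⟨p5, p6.trans hεm⟩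
  have hb4 : ∀ i, Bdd (fun N : ℕ => ‖Hk (Q i) T w (fun _ _ => 1) 1 ((c : ℝ) * N)‖) := fun i =>
    ⟨C2 i, fun N => by rw [abs_of_nonneg (norm_nonneg _)]; exact (hC2 i).1 _⟩
  have hev : ∀ᶠ N : ℕ in atTop,
      ‖∑ i, ∑ᶠ f ∈ HFG (Q i) T a b α β T0 N, U i f.1 f.2‖ / N ≤
      (c * T) * ‖∑ i, Hk (Q i) T h (U i) 1 ((c : ℝ) * N)‖ + ∑ i, (W * (K i *
        (4 * ρ ^ 2 * c + ε)) + (W * (c * T)) *
          ‖Hk (Q i) T w (fun _ _ => 1) 1 ((c : ℝ) * N)‖) := by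
    have hall : ∀ᶠ N : ℕ in atTop, ∀ i, ∀ (U : V → V → ℂ) (W : ℝ),
      (∀ v v', ‖U v v'‖ ≤ W) → ‖∑ᶠ f ∈ HFG (Q i) T a b α β T0 N, U f.1 f.2 -
        (((c : ℝ) * N * T : ℝ) : ℂ) * Hk (Q i) T h U 1 ((c : ℝ) * N)‖ ≤
        W * ((K i * (4 * ρ ^ 2 * c + ε) + c * T *
          ‖Hk (Q i) T w (fun _ _ => 1) 1 ((c : ℝ) * N)‖) * N) := by
      rw [Filter.eventually_all]
      exact fun i => hK i ρ ε hρ hρ1 hε hεA hεa
    filter_upwards [hall, eventually_gt_atTop 0] with N hNall hNp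
    have hN0 : (0 : ℝ) < N := by exact_mod_cast hNp
    rw [div_le_iff₀ hN0]
    have e2 : ∑ i, ∑ᶠ f ∈ HFG (Q i) T a b α β T0 N, U i f.1 f.2 =
        (((c : ℝ) * N * T : ℝ) : ℂ) * ∑ i, Hk (Q i) T h (U i) 1 ((c : ℝ) * N) +
        ∑ i, (∑ᶠ f ∈ HFG (Q i) T a b α β T0 N, U i f.1 f.2 -
          (((c : ℝ) * N * T : ℝ) : ℂ) * Hk (Q i) T h (U i) 1 ((c : ℝ) * N)) := by
      rw [Finset.sum_sub_distrib, Finset.mul_sum]
      ring
    rw [e2]
    refine (norm_add_le _ _).trans ?_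
    have g1 : ‖(((c : ℝ) * N * T : ℝ) : ℂ) * ∑ i, Hk (Q i) T h (U i) 1 ((c : ℝ) * N)‖ =
        (c * T) * ‖∑ i, Hk (Q i) T h (U i) 1 ((c : ℝ) * N)‖ * N := by
      rw [norm_mul, Complex.norm_real, Real.norm_of_nonneg (by positivity)]
      ring
    have g2 : ‖∑ i, (∑ᶠ f ∈ HFG (Q i) T a b α β T0 N, U i f.1 f.2 -
          (((c : ℝ) * N * T : ℝ) : ℂ) * Hk (Q i) T h (U i) 1 ((c : ℝ) * N))‖ ≤
        (∑ i, (W * (K i * (4 * ρ ^ 2 * c + ε)) + (W * (c * T)) *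
          ‖Hk (Q i) T w (fun _ _ => 1) 1 ((c : ℝ) * N)‖)) * N := by
      refine (norm_sum_le _ _).trans ?_
      refine (Finset.sum_le_sum fun i _ => hNall i (U i) W (hUW i)).trans (le_of_eq ?_)
      rw [Finset.sum_mul]
      exact Finset.sum_congr rfl fun i _ => by ring
    rw [g1, add_mul]
    exact add_le_add le_rfl g2
  have hb5 : ∀ i, Bdd (fun N : ℕ => W * (K i * (4 * ρ ^ 2 * c + ε)) + (W * (c * T)) *
      ‖Hk (Q i) T w (fun _ _ => 1) 1 ((c : ℝ) * N)‖) := fun i =>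
    (Bdd.const _).add ((hb4 i).smul _)
  have hb6 : Bdd (fun N : ℕ => ∑ i, (W * (K i * (4 * ρ ^ 2 * c + ε)) + (W * (c * T)) *
      ‖Hk (Q i) T w (fun _ _ => 1) 1 ((c : ℝ) * N)‖)) := Bdd.sum _ _ fun i _ => hb5 i
  have h5 := Tel18.mono_ev M hbdd ((hb2.smul (c * T)).add hb6) hev
  refine h5.trans ?_
  rw [M.add _ _ (hb2.smul _) hb6, M.smul _ _ hb2, hd1, mul_zero, zero_add,
    M.sum _ (fun i N => W * (K i * (4 * ρ ^ 2 * c + ε)) + (W * (c * T)) *
      ‖Hk (Q i) T w (fun _ _ => 1) 1 ((c : ℝ) * (N : ℕ))‖) (fun i _ => hb5 i)]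
  have hone : ∀ i ∈ (Finset.univ : Finset ι),
      M.E (fun N : ℕ => W * (K i * (4 * ρ ^ 2 * c + ε)) + (W * (c * T)) *
        ‖Hk (Q i) T w (fun _ _ => 1) 1 ((c : ℝ) * N)‖) ≤
      (W * K i) * (κ + κ) + (W * (c * T * C' i)) / m := by
    intro i _
    rw [M.add _ _ (Bdd.const _) ((hb4 i).smul _), M.const, M.smul _ _ (hb4 i)]
    have i1 : W * (K i * (4 * ρ ^ 2 * c + ε)) ≤ (W * K i) * (κ + κ) := by
      rw [← mul_assoc]
      exact mul_le_mul_of_nonneg_left (by linarith) (mul_nonneg hW.le (hK0 i))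
    have i2 : (W * (c * T)) * M.E (fun N : ℕ =>
        ‖Hk (Q i) T w (fun _ _ => 1) 1 ((c : ℝ) * N)‖) ≤ (W * (c * T)) * (C' i / m) :=
      mul_le_mul_of_nonneg_left (hd2 i) (by positivity)
    have i3 : (W * (c * T)) * (C' i / m) = (W * (c * T * C' i)) / m := by ring
    linarith
  refine (Finset.sum_le_sum hone).trans ?_
  rw [Finset.sum_add_distrib, ← Finset.sum_mul, ← Finset.sum_div]
  change KK * (κ + κ) + CC / m ≤ η
  linarith

end Pool.Agent.Lib.MP_a17b09_nt.HY
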