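import Pool.Agent.Lib.MP_a17b09_nt.HY.Stmts20

/-!
HY, A5: Theorem D for sector sums from Theorem D for definite forms (helper38).
-/

set_option autoImplicit false

open Filter Topology Finset

namespace Pool.Agent.Lib.MP_a17b09_nt.HY

open Pool.Agent.Lib.MP_a17b09_nt.CH

theorem card_NN38 (K e : ℕ) (hK : 0 < K) (he : K ≤ 2 ^ e) :
    (1 / (2 : ℝ) ^ e) * ((NN K e).card * K) ≤ 2 := by
  have h0 : ((NN K e).card : ℝ) ≤ (2 : ℝ) ^ e / K + 1 := by
    have h1 := Nat.Ioc_filter_modEq_card (2 ^ e) (2 ^ (e + 1)) hK 1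
    have h2 : ((NN K e).card : ℤ) = max (⌊(((2 ^ (e + 1) : ℕ) : ℚ) - (1 : ℕ)) / K⌋ -
        ⌊(((2 ^ e : ℕ) : ℚ) - (1 : ℕ)) / K⌋) 0 := by
      rw [← h1]; rfl
    have hKq : (0 : ℚ) < K := by exact_mod_cast hK
    have h3 : (((NN K e).card : ℤ) : ℚ) ≤ (2 : ℚ) ^ e / K + 1 := by
      rw [h2, Int.cast_max]
      refine max_le ?_ (by rw [Int.cast_zero]; positivity)
      rw [Int.cast_sub]
      have h4 := Int.floor_le ((((2 ^ (e + 1) : ℕ) : ℚ) - (1 : ℕ)) / K)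
      have h5 := Int.lt_floor_add_one ((((2 ^ e : ℕ) : ℚ) - (1 : ℕ)) / K)
      have h6 : (((2 ^ (e + 1) : ℕ) : ℚ) - (1 : ℕ)) / K - (((2 ^ e : ℕ) : ℚ) - (1 : ℕ)) / K =
          (2 : ℚ) ^ e / K := by
        rw [← sub_div]
        congr 1
        push_cast
        ring
      linarith
    have h7 : (((((NN K e).card : ℤ) : ℚ)) : ℝ) ≤ (((2 : ℚ) ^ e / K + 1 : ℚ) : ℝ) := by
      exact_mod_cast h3
    push_cast at h7
    exact h7
  have hp : (0 : ℝ) < 2 ^ e := by positivity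
  have hKr : (0 : ℝ) < K := by exact_mod_cast hK
  have hKe : (K : ℝ) ≤ 2 ^ e := by exact_mod_cast he
  have h8 : ((NN K e).card : ℝ) * K ≤ 2 ^ e + K := by
    calc ((NN K e).card : ℝ) * K ≤ ((2 : ℝ) ^ e / K + 1) * K :=
          mul_le_mul_of_nonneg_right h0 hKr.le
      _ = 2 ^ e + K := by field_simp
  rw [one_div, inv_mul_le_iff₀ hp]
  linarith

open Classical in
/-- (A5) -/
theorem stHD_38 (hD : StD) (hAP : StAP) : StHD := by
  intro d Q hQ T hT δ h hδ hh ε hε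
  obtain ⟨N, r, F, cell, hN, hF, hA, -⟩ := hAP d Q hQ T hT δ h hδ hh (ε / 6) (by positivity)
  have hNr : (0 : ℝ) < N := by exact_mod_cast hN
  have hε2 : 0 < ε * T / (2 * N * (r + 1)) := by positivity
  set ε2 : ℝ := ε * T / (2 * N * (r + 1)) with hε2d
  have hD' := fun c => hD (F c) (hF c) δ h hδ hh ε2 hε2
  choose w hw using hD'
  refine ⟨∑ c, w c, fun K hK hl => ?_⟩
  have hD2 := fun c => hw c K hK (fun l hl' hle => hl l hl' (hle.trans
    (Finset.single_le_sum (f := w) (fun _ _ => Nat.zero_le _) (mem_univ c))))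
  choose e1 he1 using hD2
  refine ⟨∑ c, e1 c + K, fun e he => ?_⟩
  have hD3 := fun c => he1 c e ((Finset.single_le_sum (f := e1) (fun _ _ => Nat.zero_le _)
    (mem_univ c)).trans ((Nat.le_add_right _ _).trans he))
  choose n1 hn1 using hD3
  choose n0 hn0 using hA
  refine ⟨∑ c, n1 c + ∑ k ∈ Finset.Ioc (2 ^ e) (2 ^ (e + 1)), n0 ((k : ℕ) : ℤ),
    fun n hn G G' hG hG' => ?_⟩
  set U : V → V → ℂ := fun v v' => G v * G' v' with hU
  have hU1 : ∀ v v', ‖U v v'‖ ≤ 1 := fun v v' => by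
    rw [hU]
    simp only
    rw [norm_mul]
    exact mul_le_one₀ (hG v) (norm_nonneg _) (hG' v')
  set A : ℕ → ℂ := fun k => Hk Q T h U (k : ℤ) n with hAd
  set Dc : Fin r → ℕ → ℂ := fun c k => Dk (F c) h (rcell (cell c) U) (k : ℤ) ((N : ℝ) * n)
    with hDc
  have hap : ∀ k ∈ Finset.Ioc (2 ^ e) (2 ^ (e + 1)),
      ‖A k - ((N : ℂ) / (T : ℂ)) * ∑ c, Dc c k‖ ≤ ε / 6 := by
    intro k hk
    refine hn0 (k : ℤ) n ?_ U hU1
    have := Finset.single_le_sum (f := fun k : ℕ => n0 ((k : ℕ) : ℤ))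
      (fun _ _ => Nat.zero_le _) hk
    exact this.trans ((Nat.le_add_left _ _).trans hn)
  have hdc : ∀ c, ‖(1 / ((QQ K e).card : ℂ)) * ∑ p ∈ QQ K e, Dc c p
      - (1 / (2 : ℂ) ^ e) * ∑ k ∈ NN K e, (K : ℂ) * Dc c k‖ ≤ ε2 := by
    intro c
    have h1 := hn1 c (N * n) ?_ (fun v => if cell c v then G v else 0) G' ?_ hG'
    · have h2 : ∀ k : ℕ, Dk (F c) h (fun v v' => (if cell c v then G v else 0) * G' v')
          (k : ℤ) ((N * n : ℕ) : ℝ) = Dc c k := by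
        intro k
        rw [hDc]
        simp only
        rw [Nat.cast_mul]
        congr 1
        funext v v'
        unfold rcell
        rw [hU]
        simp only
        split_ifs
        · rfl
        · rw [zero_mul]
      simp only [h2] at h1
      exact h1
    · have h3 := Finset.single_le_sum (f := n1) (fun _ _ => Nat.zero_le _) (mem_univ c)
      have h4 : n ≤ N * n := Nat.le_mul_of_pos_left n hN
      exact (h3.trans ((Nat.le_add_right _ _).trans hn)).trans h4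
    · intro v
      split_ifs
      · exact hG v
      · rw [norm_zero]; exact zero_le_one
  have hQs : QQ K e ⊆ Finset.Ioc (2 ^ e) (2 ^ (e + 1)) := Finset.filter_subset _ _
  have hNs : NN K e ⊆ Finset.Ioc (2 ^ e) (2 ^ (e + 1)) := Finset.filter_subset _ _
  set τ : ℂ := (N : ℂ) / (T : ℂ) with hτ
  -- the decomposition
  have key : (1 / ((QQ K e).card : ℂ)) * ∑ p ∈ QQ K e, A p
      - (1 / (2 : ℂ) ^ e) * ∑ k ∈ NN K e, (K : ℂ) * A k =
      (1 / ((QQ K e).card : ℂ)) * ∑ p ∈ QQ K e, (A p - τ * ∑ c, Dc c p)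
      - (1 / (2 : ℂ) ^ e) * ∑ k ∈ NN K e, (K : ℂ) * (A k - τ * ∑ c, Dc c k)
      + τ * ∑ c, ((1 / ((QQ K e).card : ℂ)) * ∑ p ∈ QQ K e, Dc c p
      - (1 / (2 : ℂ) ^ e) * ∑ k ∈ NN K e, (K : ℂ) * Dc c k) := by
    rw [Finset.sum_sub_distrib (s := Finset.univ), ← Finset.mul_sum (s := Finset.univ),
      ← Finset.mul_sum (s := Finset.univ), Finset.sum_comm (s := Finset.univ),
      Finset.sum_comm (s := Finset.univ)]
    simp only [mul_sub, Finset.sum_sub_distrib, ← Finset.mul_sum]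
    have e2 : ∑ k ∈ NN K e, (K : ℂ) * (τ * ∑ c, Dc c k) =
        τ * ((K : ℂ) * ∑ k ∈ NN K e, ∑ c, Dc c k) := by
      rw [Finset.mul_sum, Finset.mul_sum]
      exact Finset.sum_congr rfl fun k _ => by ring
    ring
  have b1 : ‖(1 / ((QQ K e).card : ℂ)) * ∑ p ∈ QQ K e, (A p - τ * ∑ c, Dc c p)‖ ≤ ε / 6 := by
    rw [norm_mul, norm_div, norm_one, Complex.norm_natCast]
    rcases Nat.eq_zero_or_pos (QQ K e).card with h0 | h0
    · rw [h0]; simp; positivity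
    · have hq : (0 : ℝ) < (QQ K e).card := by exact_mod_cast h0
      rw [one_div, inv_mul_le_iff₀ hq]
      refine (norm_sum_le _ _).trans ?_
      refine (Finset.sum_le_sum fun p hp => hap p (hQs hp)).trans ?_
      rw [Finset.sum_const, nsmul_eq_mul]
  have b2 : ‖(1 / (2 : ℂ) ^ e) * ∑ k ∈ NN K e, (K : ℂ) * (A k - τ * ∑ c, Dc c k)‖ ≤
      2 * (ε / 6) := by
    rw [norm_mul, norm_div, norm_one, norm_pow, Complex.norm_ofNat]
    have h1 : ‖∑ k ∈ NN K e, (K : ℂ) * (A k - τ * ∑ c, Dc c k)‖ ≤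
        (NN K e).card * K * (ε / 6) := by
      refine (norm_sum_le _ _).trans ?_
      refine (Finset.sum_le_sum (g := fun _ => (K : ℝ) * (ε / 6)) fun k hk => ?_).trans ?_
      · rw [norm_mul, Complex.norm_natCast]
        exact mul_le_mul_of_nonneg_left (hap k (hNs hk)) (Nat.cast_nonneg _)
      · rw [Finset.sum_const, nsmul_eq_mul, mul_assoc]
    have h2 := card_NN38 K e hK (by
      have h3 : K ≤ e := (Nat.le_add_left _ _).trans he
      exact h3.trans (Nat.lt_two_pow_self).le)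
    calc 1 / (2 : ℝ) ^ e * ‖∑ k ∈ NN K e, (K : ℂ) * (A k - τ * ∑ c, Dc c k)‖
        ≤ 1 / (2 : ℝ) ^ e * ((NN K e).card * K * (ε / 6)) :=
          mul_le_mul_of_nonneg_left h1 (by positivity)
      _ = (1 / (2 : ℝ) ^ e * ((NN K e).card * K)) * (ε / 6) := by ring
      _ ≤ 2 * (ε / 6) := mul_le_mul_of_nonneg_right h2 (by positivity)
  have b3 : ‖τ * ∑ c, ((1 / ((QQ K e).card : ℂ)) * ∑ p ∈ QQ K e, Dc c p
      - (1 / (2 : ℂ) ^ e) * ∑ k ∈ NN K e, (K : ℂ) * Dc c k)‖ ≤ ε / 2 := by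
    rw [norm_mul, hτ, norm_div, Complex.norm_natCast, Complex.norm_real,
      Real.norm_of_nonneg hT.le]
    have h1 : ‖∑ c, ((1 / ((QQ K e).card : ℂ)) * ∑ p ∈ QQ K e, Dc c p
      - (1 / (2 : ℂ) ^ e) * ∑ k ∈ NN K e, (K : ℂ) * Dc c k)‖ ≤ r * ε2 := by
      refine (norm_sum_le _ _).trans ?_
      refine (Finset.sum_le_sum fun c _ => hdc c).trans ?_
      rw [Finset.sum_const, nsmul_eq_mul, Finset.card_univ, Fintype.card_fin]
    refine (mul_le_mul_of_nonneg_left h1 (by positivity)).trans ?_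
    rw [hε2d]
    have h2 : (N : ℝ) / T * (r * (ε * T / (2 * N * (r + 1)))) = (r / (r + 1)) * (ε / 2) := by
      field_simp
    rw [h2]
    have h3 : (r : ℝ) / (r + 1) ≤ 1 := by
      rw [div_le_one (by positivity)]; linarith
    calc (r : ℝ) / (r + 1) * (ε / 2) ≤ 1 * (ε / 2) :=
          mul_le_mul_of_nonneg_right h3 (by positivity)
      _ = ε / 2 := one_mul _
  calc ‖(1 / ((QQ K e).card : ℂ)) * ∑ p ∈ QQ K e, A p
      - (1 / (2 : ℂ) ^ e) * ∑ k ∈ NN K e, (K : ℂ) * A k‖ ≤ ε / 6 + 2 * (ε / 6) + ε / 2 := by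
        rw [key]
        exact (norm_add_le _ _).trans (add_le_add ((norm_sub_le _ _).trans (add_le_add b1 b2)) b3)
    _ = ε := by ring

end Pool.Agent.Lib.MP_a17b09_nt.HY
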