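import Pool.Agent.Lib.MP_a17b09_nt.HY.Stmts20
import Pool.Agent.Lib.MP_a17b09_nt.CH.Es90

/-!
HY, E21: Theorem E with the norm inside the mean (helper38; copy of CH/Es90 of helper90).
-/

set_option autoImplicit false

open Filter Topology Finset

namespace Pool.Agent.Lib.MP_a17b09_nt.HY

open Pool.Agent.Lib.MP_a17b09_nt.CH

theorem gz_AI38 {d : ℕ} {Q : Form} (hQ : Hyp d Q) (a : Pell.Solution₁ (d : ℤ)) (z : ℂ) :
    AI Q a (gz z Q) := by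
  intro v
  unfold gz
  rw [q_act hQ]

/-- Theorem E with the norm inside the mean for one system and one pair of roots of unity, from
the conclusion of `StHPsiS` for them -/
theorem hes_one38 (hRed : StHRedS) (hPsv : StHPsv) (hC0 : StHC0) {ι : Type} [Fintype ι] (S : HSystem ι)
    (z1 z2 : ℂ) (k : ℕ) (hk : 0 < k) (h1 : z1 ^ k = 1) (h2 : z2 ^ k = 1)
    (hPsi : ∀ (M : LMean) (K : ℕ) [NeZero K], 4 * S.d ∣ K → ∀ a : Pell.Solution₁ (S.d : ℤ),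
      PP a → PK K a → ∀ om : ι → V → V → ℂ,
      HWt S K om → ∀ (B : ℝ) (G1 G2 : ℝ → ℝ → ℝ), PE.GT B G1 → PE.GT B G2 →
      Tendsto (fun L : ℝ => M.E (fun n => ‖HPsN S (tauH a) z1 z2 K om G1 G2 L n‖)) atTop (𝓝 0))
    (M : LMean) (K : ℕ) (hK : 0 < K) (h4 : 4 * S.d ∣ K) (a : Pell.Solution₁ (S.d : ℤ)) (ha : PP a)
    (haK : PK K a) (om : ι → V → V → ℂ) (hom : HWt S K om)
    (δ : ℝ) (h : ℝ → ℝ → ℝ) (hδ : 0 < δ) (hT : Test δ h) :
    Tendsto (fun e : ℕ => M.E (fun n => ‖∑ i, (1 / (2 : ℂ) ^ e) * ∑ j ∈ NN K e,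
      (K : ℂ) * Hk (S.Q i) (per a) h (kerH S z1 z2 om i) (j : ℤ) n‖)) atTop (𝓝 0) := by
  classical
  have : NeZero K := ⟨hK.ne'⟩
  have hz1 : ‖z1‖ = 1 := Complex.norm_eq_one_of_pow_eq_one h1 hk.ne'
  have hz2 : ‖z2‖ = 1 := Complex.norm_eq_one_of_pow_eq_one h2 hk.ne'
  rcases isEmpty_or_nonempty ι with hι | hι
  · have e : (fun e : ℕ => M.E (fun n => ‖∑ i, (1 / (2 : ℂ) ^ e) * ∑ j ∈ NN K e,
        (K : ℂ) * Hk (S.Q i) (per a) h (kerH S z1 z2 om i) (j : ℤ) n‖)) = fun _ => 0 := by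
      funext e
      have : (fun n : ℕ => ‖∑ i, (1 / (2 : ℂ) ^ e) * ∑ j ∈ NN K e,
        (K : ℂ) * Hk (S.Q i) (per a) h (kerH S z1 z2 om i) (j : ℤ) n‖) = fun _ => 0 := by
        funext n
        simp
      rw [this, M.const]
    rw [e]
    exact tendsto_const_nhds
  have hd : ¬ IsSquare S.d := by
    obtain ⟨i⟩ := hι
    exact (S.hyp i).nsq
  -- a bound for the weights
  obtain ⟨c, hc⟩ : ∃ c : ℝ, ∀ i v v', ‖om i v v'‖ ≤ c := by
    refine ⟨∑ i, ∑ α : ZMod K × ZMod K, ∑ β : ZMod K × ZMod K, ‖om i (PE.rz α) (PE.rz β)‖,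
      fun i v v' => ?_⟩
    rw [← PE.Red63.om_rz (K := K) (hom.per i) v v']
    have a1 : ‖om i (PE.rz (PE.cl K v)) (PE.rz (PE.cl K v'))‖ ≤
        ∑ β : ZMod K × ZMod K, ‖om i (PE.rz (PE.cl K v)) (PE.rz β)‖ :=
      Finset.single_le_sum (f := fun β : ZMod K × ZMod K =>
        ‖om i (PE.rz (PE.cl K v)) (PE.rz β)‖) (fun β _ => norm_nonneg _) (Finset.mem_univ _)
    have a2 : ∑ β : ZMod K × ZMod K, ‖om i (PE.rz (PE.cl K v)) (PE.rz β)‖ ≤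
        ∑ α : ZMod K × ZMod K, ∑ β : ZMod K × ZMod K, ‖om i (PE.rz α) (PE.rz β)‖ :=
      Finset.single_le_sum (f := fun α : ZMod K × ZMod K =>
        ∑ β : ZMod K × ZMod K, ‖om i (PE.rz α) (PE.rz β)‖)
        (fun α _ => Finset.sum_nonneg fun β _ => norm_nonneg _) (Finset.mem_univ _)
    have a3 : ∑ α : ZMod K × ZMod K, ∑ β : ZMod K × ZMod K, ‖om i (PE.rz α) (PE.rz β)‖ ≤
        ∑ i, ∑ α : ZMod K × ZMod K, ∑ β : ZMod K × ZMod K, ‖om i (PE.rz α) (PE.rz β)‖ :=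
      Finset.single_le_sum (f := fun i =>
        ∑ α : ZMod K × ZMod K, ∑ β : ZMod K × ZMod K, ‖om i (PE.rz α) (PE.rz β)‖)
        (fun i _ => Finset.sum_nonneg fun α _ => Finset.sum_nonneg fun β _ => norm_nonneg _)
        (Finset.mem_univ _)
    exact a1.trans (a2.trans a3)
  rw [Metric.tendsto_atTop]
  intro ε hε
  set m : ℝ := (Fintype.card ι : ℝ) with hm
  have hm0 : 0 ≤ m := Nat.cast_nonneg _
  set ε' : ℝ := ε / (2 * (m + 1)) with hε'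
  have hε'0 : 0 < ε' := by positivity
  have hmε : m * ε' ≤ ε / 2 := by
    rw [hε', mul_div_assoc', div_le_div_iff₀ (by positivity) (by norm_num)]
    nlinarith
  obtain ⟨r, G1, G2, B, hG, hR⟩ := hRed S.d hd a ha K haK δ h hδ hT c ε' hε'0
  have hR' := fun i => hR (S.Q i) (S.hyp i) (gz z1 (S.Q i)) (gz z2 (S.Q i))
    (fun v => (PE.gz_norm hz1 (S.Q i) v).le) (fun v => (PE.gz_norm hz2 (S.Q i) v).le)
    (gz_AI38 (S.hyp i) a z1) (gz_AI38 (S.hyp i) a z2)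
    (om i) (hc i) (hom.per i)
  choose e0 he0 using hR'
  have hlim : Tendsto (fun e : ℕ => ∑ j : Fin r, M.E (fun n =>
      ‖HPsN S (tauH a) z1 z2 K om (G1 j) (G2 j) ((2 : ℝ) ^ e) n‖)) atTop (𝓝 0) := by
    have h5 : Tendsto (fun L : ℝ => ∑ j : Fin r, M.E (fun n =>
        ‖HPsN S (tauH a) z1 z2 K om (G1 j) (G2 j) L n‖)) atTop (𝓝 (∑ j : Fin r, (0 : ℝ))) :=
      tendsto_finsetSum _ fun j _ =>
        hPsi M K h4 a ha haK om hom B (G1 j) (G2 j) (hG j).1 (hG j).2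
    rw [Finset.sum_const_zero] at h5
    exact h5.comp (tendsto_pow_atTop_atTop_of_one_lt (by norm_num : (1 : ℝ) < 2))
  rw [Metric.tendsto_atTop] at hlim
  obtain ⟨E1, hE1⟩ := hlim (ε / 2) (by positivity)
  refine ⟨max E1 (Finset.univ.sup e0), fun e he => ?_⟩
  have heE : E1 ≤ e := (le_max_left _ _).trans he
  have he0' : ∀ i, e0 i ≤ e := fun i =>
    (Finset.le_sup (Finset.mem_univ i)).trans ((le_max_right _ _).trans he)
  have hE := hE1 e heE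
  rw [Real.dist_eq, sub_zero] at hE ⊢
  -- boundedness
  have hPb : ∀ j : Fin r, Bdd (fun n : ℕ =>
      ‖HPsN S (tauH a) z1 z2 K om (G1 j) (G2 j) ((2 : ℝ) ^ e) n‖) := by
    intro j
    obtain ⟨C, hC⟩ := hPsv ι S z1 z2 hz1 hz2 K a ha haK om hom B (G1 j) (G2 j) (hG j).1 (hG j).2
    exact ⟨C, fun n => by
      rw [abs_norm]
      exact (hC ((2 : ℝ) ^ e) (one_le_pow₀ (by norm_num))).1 n⟩
  have hFb : Bdd (fun n : ℕ => ‖∑ i, (1 / (2 : ℂ) ^ e) * ∑ j ∈ NN K e,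
      (K : ℂ) * Hk (S.Q i) (per a) h (kerH S z1 z2 om i) (j : ℤ) n‖) := by
    apply bdd_norm90
    apply CBdd.sum
    intro i _
    apply CBdd.smul
    apply CBdd.sum
    intro j _
    apply CBdd.smul
    obtain ⟨-, ⟨C, hC⟩, -⟩ := hC0 S.d (S.Q i) (S.hyp i) (per a) (per_pos ha) δ h hδ hT
    refine ⟨C * c, fun n => hC (j : ℤ) n _ c fun v v' => ?_⟩
    unfold kerH
    rw [norm_mul, norm_mul, PE.gz_norm hz1, PE.gz_norm hz2, mul_one, mul_one]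
    exact hc i v v'
  have hgb : Bdd (fun n : ℕ => m * ε' + ∑ j : Fin r,
      ‖HPsN S (tauH a) z1 z2 K om (G1 j) (G2 j) ((2 : ℝ) ^ e) n‖) :=
    (Bdd.const _).add (Bdd.sum _ _ fun j _ => hPb j)
  -- comparison for large n
  choose n0 hn0 using fun i => he0 i e (he0' i)
  have hcomp : ∀ᶠ n : ℕ in atTop, ‖∑ i, (1 / (2 : ℂ) ^ e) * ∑ j ∈ NN K e,
      (K : ℂ) * Hk (S.Q i) (per a) h (kerH S z1 z2 om i) (j : ℤ) n‖ ≤ m * ε' + ∑ j : Fin r,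
      ‖HPsN S (tauH a) z1 z2 K om (G1 j) (G2 j) ((2 : ℝ) ^ e) n‖ := by
    filter_upwards [eventually_ge_atTop (Finset.univ.sup n0)] with n hn
    have hni : ∀ i, n0 i ≤ n := fun i => (Finset.le_sup (Finset.mem_univ i)).trans hn
    set A : ι → ℂ := fun i => (1 / (2 : ℂ) ^ e) * ∑ j ∈ NN K e,
      (K : ℂ) * Hk (S.Q i) (per a) h (kerH S z1 z2 om i) (j : ℤ) n with hA
    set D : ι → ℂ := fun i => ∑ j : Fin r, ∑ α : ZMod K × ZMod K, ∑ β : ZMod K × ZMod K,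
      (if PE.wz α β = 1 then om i (PE.rz α) (PE.rz β) *
        ((1 / (2 * Real.pi) : ℂ) * ∫ θ in (0 : ℝ)..(2 * Real.pi),
          hmm (S.Q i) (tauH a) (PE.rc (gz z1 (S.Q i)) α) (G1 j) (2 ^ e) n θ *
          hmm (S.Q i) (tauH a) (PE.rc (gz z2 (S.Q i)) β) (G2 j) (2 ^ e) n θ) else 0) with hD
    have h6 : ∀ i, ‖A i - D i‖ ≤ ε' := fun i => hn0 i n (hni i)
    have h7 : ∑ i, D i = ∑ j : Fin r, HPsN S (tauH a) z1 z2 K om (G1 j) (G2 j) ((2 : ℝ) ^ e) n := by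
      rw [hD, Finset.sum_comm]
      rfl
    have h8 : ∑ i, A i = ∑ i, (A i - D i) + ∑ i, D i := by
      rw [← Finset.sum_add_distrib]
      apply Finset.sum_congr rfl
      intro i _
      ring
    show ‖∑ i, A i‖ ≤ _
    rw [h8, h7]
    refine (norm_add_le _ _).trans (add_le_add ?_ (norm_sum_le _ _))
    refine (norm_sum_le _ _).trans ((Finset.sum_le_sum fun i _ => h6 i).trans ?_)
    rw [Finset.sum_const, Finset.card_univ, nsmul_eq_mul]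
  have h9 := mono_ev90 M hFb hgb hcomp
  have h10 : M.E (fun n : ℕ => m * ε' + ∑ j : Fin r,
      ‖HPsN S (tauH a) z1 z2 K om (G1 j) (G2 j) ((2 : ℝ) ^ e) n‖) = m * ε' + ∑ j : Fin r,
      M.E (fun n : ℕ => ‖HPsN S (tauH a) z1 z2 K om (G1 j) (G2 j) ((2 : ℝ) ^ e) n‖) := by
    rw [M.add _ _ (Bdd.const _) (Bdd.sum _ _ fun j _ => hPb j), M.const,
      M.sum _ _ fun j _ => hPb j]
  rw [h10] at h9
  have h11 : 0 ≤ M.E (fun n : ℕ => ‖∑ i, (1 / (2 : ℂ) ^ e) * ∑ j ∈ NN K e,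
      (K : ℂ) * Hk (S.Q i) (per a) h (kerH S z1 z2 om i) (j : ℤ) n‖) :=
    M.nonneg _ hFb fun n => norm_nonneg _
  rw [abs_of_nonneg h11]
  have h12' := le_abs_self (∑ j : Fin r,
      M.E (fun n : ℕ => ‖HPsN S (tauH a) z1 z2 K om (G1 j) (G2 j) ((2 : ℝ) ^ e) n‖))
  linarith

/-- (E21) -/
theorem stHEs_38 (hPsi : StHPsiS) (hRed : StHRedS) (hPsv : StHPsv) (hC0 : StHC0) : StHEs := by
  intro ι _ S z1 z2 k hk h1 h2 h12 M K hK h4 a ha haK om hom δ h hδ hT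
  have hz1 : ‖z1‖ = 1 := Complex.norm_eq_one_of_pow_eq_one h1 hk.ne'
  have hz2 : ‖z2‖ = 1 := Complex.norm_eq_one_of_pow_eq_one h2 hk.ne'
  exact hes_one38 hRed hPsv hC0 S z1 z2 k hk h1 h2
    (fun M K _ h4 a ha haK om hom B G1 G2 hG1 hG2 =>
      hPsi M ι S z1 z2 hz1 hz2 h12 K h4 a ha haK om hom B G1 G2 hG1 hG2) M K hK h4 a ha haK om hom
      δ h hδ hT

end Pool.Agent.Lib.MP_a17b09_nt.HY
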