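import Pool.Agent.Lib.MP_a17b09_nt.HY.StmtsR20
import Pool.Agent.Lib.MP_a17b09_nt.CH.Box79
import Pool.Agent.Lib.MP_a17b09_nt.CH.Row79
import Pool.Agent.Lib.MP_a17b09_nt.CH.Tot7

/-!
Project HY, module R1 (StHbox): the number of frames with first coordinate at most `z √n` and slopes
in intervals.
-/

set_option autoImplicit false

open Filter Topology Finset

namespace Pool.Agent.Lib.MP_a17b09_nt.HY

open Pool.Agent.Lib.MP_a17b09_nt.CH

namespace Hbox7

/-- Abel summation with linear weights -/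
theorem abel_lin (w : ℕ → ℝ) (x : ℕ) :
    ∑ a ∈ Icc 1 x, (a : ℝ) * w a = x * ∑ a ∈ Icc 1 x, w a -
      ∑ k ∈ range x, ∑ a ∈ Icc 1 k, w a := by
  induction x with
  | zero => simp
  | succ n ih =>
    rw [Finset.sum_Icc_succ_top (by omega), Finset.sum_Icc_succ_top (by omega), ih,
      Finset.sum_range_succ]
    push_cast
    ring

/-- the mean with linear weights -/
theorem mean_lin {w : ℕ → ℝ} {m : ℝ}
    (h : Tendsto (fun x : ℕ => (1 / (x : ℝ)) * ∑ a ∈ Icc 1 x, w a) atTop (𝓝 m)) :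
    Tendsto (fun x : ℕ => (∑ a ∈ Icc 1 x, (a : ℝ) * w a) / (x : ℝ) ^ 2) atTop (𝓝 (m / 2)) := by
  set S : ℕ → ℝ := fun x => ∑ a ∈ Icc 1 x, w a with hS
  set e : ℕ → ℝ := fun k => S k - m * k with he
  have h0 : Tendsto (fun k : ℕ => e k / k) atTop (𝓝 0) := by
    have h1 : Tendsto (fun x : ℕ => (1 / (x : ℝ)) * S x - m) atTop (𝓝 (m - m)) := h.sub_const m
    rw [sub_self] at h1
    refine h1.congr' ?_
    filter_upwards [eventually_gt_atTop 0] with n hn
    have hn0 : (n : ℝ) ≠ 0 := by exact_mod_cast hn.ne'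
    simp only [he]
    field_simp
  have h2 : Tendsto (fun k : ℕ => |e k / k|) atTop (𝓝 0) := by
    have := h0.abs
    rwa [abs_zero] at this
  have h3 := h2.cesaro
  have h4 : Tendsto (fun x : ℕ => (∑ k ∈ range x, e k) / (x : ℝ) ^ 2) atTop (𝓝 0) := by
    refine squeeze_zero_norm' ?_ h3
    filter_upwards [eventually_gt_atTop 0] with x hx
    have hx0 : (0 : ℝ) < x := by exact_mod_cast hx
    rw [norm_div, Real.norm_eq_abs, Real.norm_eq_abs, abs_of_pos (by positivity : (0 : ℝ) < (x : ℝ) ^ 2),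
      div_le_iff₀ (by positivity)]
    have h5 : ∀ k ∈ range x, |e k| ≤ x * |e k / k| := by
      intro k hk
      rw [Finset.mem_range] at hk
      rcases Nat.eq_zero_or_pos k with rfl | hk0
      · simp [he, hS]
      · have hk1 : (0 : ℝ) < k := by exact_mod_cast hk0
        have hk2 : (k : ℝ) ≤ x := by exact_mod_cast hk.le
        rw [abs_div, abs_of_pos hk1, mul_div_assoc', le_div_iff₀ hk1, mul_comm]
        exact mul_le_mul_of_nonneg_right hk2 (abs_nonneg _)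
    calc |∑ k ∈ range x, e k| ≤ ∑ k ∈ range x, |e k| := Finset.abs_sum_le_sum_abs _ _
      _ ≤ ∑ k ∈ range x, (x : ℝ) * |e k / k| := Finset.sum_le_sum h5
      _ = x * ∑ k ∈ range x, |e k / k| := by rw [Finset.mul_sum]
      _ = (x : ℝ)⁻¹ * (∑ k ∈ range x, |e k / k|) * (x : ℝ) ^ 2 := by field_simp
  have h5 : Tendsto (fun x : ℕ => (1 / (x : ℝ))) atTop (𝓝 0) := tendsto_one_div_atTop_nhds_zero_nat
  have h6 : Tendsto (fun x : ℕ => ((1 / (x : ℝ)) * S x) - (m * (1 / 2 - 1 / 2 * (1 / (x : ℝ))) +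
      (∑ k ∈ range x, e k) / (x : ℝ) ^ 2)) atTop (𝓝 (m - (m * (1 / 2 - 1 / 2 * 0) + 0))) :=
    h.sub (((tendsto_const_nhds.sub (h5.const_mul _)).const_mul m).add h4)
  have e1 : m - (m * (1 / 2 - 1 / 2 * 0) + 0) = m / 2 := by ring
  rw [e1] at h6
  refine h6.congr' ?_
  filter_upwards [eventually_gt_atTop 0] with x hx
  have hx0 : (x : ℝ) ≠ 0 := by exact_mod_cast hx.ne'
  have h7 : ∑ k ∈ range x, S k = m * ((x : ℝ) * (x - 1) / 2) + ∑ k ∈ range x, e k := by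
    have h8 : ∑ k ∈ range x, (k : ℝ) = (x : ℝ) * (x - 1) / 2 := by
      have h9 := Finset.sum_range_id_mul_two x
      have h10 : ((∑ k ∈ range x, k : ℕ) : ℝ) * 2 = x * ((x - 1 : ℕ) : ℝ) := by exact_mod_cast h9
      rw [Nat.cast_sub hx, Nat.cast_one] at h10
      push_cast at h10
      linarith
    rw [← h8, Finset.mul_sum, ← Finset.sum_add_distrib]
    refine Finset.sum_congr rfl fun k _ => ?_
    simp only [he]
    ring
  rw [abel_lin w x]
  change _ = ((x : ℝ) * S x - ∑ k ∈ range x, S k) / (x : ℝ) ^ 2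
  rw [h7]
  field_simp

/-- integers of a half open interval, left end -/
theorem ceil_lt_iff (x : ℝ) (b : ℤ) : (((⌈x⌉ - 1 : ℤ) : ℝ)) < b ↔ x ≤ b := by
  rw [Int.cast_lt, ← Int.ceil_le]
  omega

end Hbox7

open Hbox7 Box79 in
theorem stHbox_of (hRow : StRow) (hTot : StTot) : StHbox := by
  classical
  intro N hN hev
  obtain ⟨κ, hκ0, hκ1, hκ⟩ := hTot N hN
  have hN0 : (0 : ℝ) < N := by exact_mod_cast hN
  refine ⟨κ / (2 * (N : ℝ) ^ 3), by positivity, ?_⟩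
  intro γ hγ hga σ1 σ2 s1 s2 z hσ hs hz
  set Λ : ℝ := (σ2 - σ1) + (s2 - s1) + 1 with hΛ
  have hΛ0 : 0 < Λ := by rw [hΛ]; linarith
  obtain ⟨C, hC⟩ := hRow N hN Λ hΛ0
  set C' : ℝ := max C 0 + (s2 - s1) with hC'
  have hC'0 : 0 ≤ C' := by
    have := le_max_right C 0
    rw [hC']; linarith
  set X : ℕ → ℝ := fun n => z * √n with hXdef
  set A : ℕ → Finset ℕ := fun n => (Finset.Icc 1 ⌊X n⌋₊).filter
    (fun a : ℕ => (N : ℤ) ∣ (a : ℤ) - γ.a) with hA
  set rw0 : ℕ → Set (ℤ × ℤ) := fun a =>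
    rowS N a γ.c γ.b ((⌈σ1 * (a : ℝ)⌉ - 1 : ℤ) : ℝ) (σ2 * a) (s1 * a) (s2 * a) with hrw
  have hX0 : ∀ n, 0 ≤ X n := fun n => by simp only [hXdef]; positivity
  have hAm : ∀ n a, a ∈ A n → 0 < a ∧ (a : ℝ) ≤ X n ∧ (N : ℤ) ∣ (a : ℤ) - γ.a := by
    intro n a ha
    simp only [hA, Finset.mem_filter, Finset.mem_Icc] at ha
    exact ⟨ha.1.1, (Nat.cast_le.2 ha.1.2).trans (Nat.floor_le (hX0 n)), ha.2⟩
  have hcop : ∀ a : ℕ, (N : ℤ) ∣ (a : ℤ) - γ.a → Nat.Coprime a N := by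
    intro a ha
    have h1 : IsCoprime (γ.a) (N : ℤ) := Int.isCoprime_iff_gcd_eq_one.2 hga
    have h2 : IsCoprime (a : ℤ) (N : ℤ) := by
      obtain ⟨m, hm⟩ := ha
      have : (a : ℤ) = γ.a + N * m := by linarith
      rw [this]
      exact (IsCoprime.add_mul_left_left_iff).2 h1
    exact Nat.isCoprime_iff_coprime.1 h2
  have hodd : ∀ a : ℕ, (N : ℤ) ∣ (a : ℤ) - γ.a → Odd a := by
    intro a ha
    have h1 := hcop a ha
    by_contra h2
    rw [Nat.not_odd_iff_even] at h2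
    have h3 : 2 ∣ Nat.gcd a N := Nat.dvd_gcd h2.two_dvd hev.two_dvd
    rw [h1.gcd_eq_one] at h3
    omega
  -- the row lemma
  have hrow : ∀ a : ℕ, 0 < a → (N : ℤ) ∣ (a : ℤ) - γ.a → (rw0 a).Finite ∧ |((rw0 a).ncard : ℝ) -
      (a.totient : ℝ) * ((σ2 - σ1) * (s2 - s1)) / (N : ℝ) ^ 2| ≤ C' * (a : ℝ) ^ (9 / 10 : ℝ) := by
    intro a h1 h4
    have ha0 : (0 : ℝ) < a := by exact_mod_cast h1
    have ha1 : (1 : ℝ) ≤ a := by exact_mod_cast h1
    have hc1 : ((⌈σ1 * (a : ℝ)⌉ - 1 : ℤ) : ℝ) < σ1 * a := by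
      push_cast
      have := Int.ceil_lt_add_one (σ1 * (a : ℝ))
      linarith
    have hc2 : σ1 * a - 1 ≤ ((⌈σ1 * (a : ℝ)⌉ - 1 : ℤ) : ℝ) := by
      push_cast
      have := Int.le_ceil (σ1 * (a : ℝ))
      linarith
    have e1 : σ1 * a ≤ σ2 * a := mul_le_mul_of_nonneg_right hσ.le ha0.le
    have e2 : s1 * a ≤ s2 * a := mul_le_mul_of_nonneg_right hs.le ha0.le
    have eΛ : Λ * a = (σ2 * a - σ1 * a) + (s2 * a - s1 * a) + a := by rw [hΛ]; ring
    have hfin := hC a h1 (hodd a h4) (hcop a h4) γ.c γ.b ((⌈σ1 * (a : ℝ)⌉ - 1 : ℤ) : ℝ) (σ2 * a)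
      (s1 * a) (s2 * a) (by linarith) (by linarith) e2 (by linarith)
    refine ⟨hfin.1, ?_⟩
    have hle9 : (1 : ℝ) ≤ (a : ℝ) ^ (9 / 10 : ℝ) := Real.one_le_rpow ha1 (by norm_num)
    have hN1 : (1 : ℝ) ≤ N := by exact_mod_cast hN
    have htot : (a.totient : ℝ) ≤ a := by exact_mod_cast Nat.totient_le a
    have hdiff : |(a.totient : ℝ) * ((σ2 * a - ((⌈σ1 * (a : ℝ)⌉ - 1 : ℤ) : ℝ)) * (s2 * a - s1 * a)) /
        ((a : ℝ) * N) ^ 2 - (a.totient : ℝ) * ((σ2 - σ1) * (s2 - s1)) / (N : ℝ) ^ 2| ≤ s2 - s1 := by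
      have e3 : (a.totient : ℝ) * ((σ2 * a - ((⌈σ1 * (a : ℝ)⌉ - 1 : ℤ) : ℝ)) * (s2 * a - s1 * a)) /
        ((a : ℝ) * N) ^ 2 - (a.totient : ℝ) * ((σ2 - σ1) * (s2 - s1)) / (N : ℝ) ^ 2 =
        ((a.totient : ℝ) / a) * (s2 - s1) * (σ1 * a - ((⌈σ1 * (a : ℝ)⌉ - 1 : ℤ) : ℝ)) / (N : ℝ) ^ 2 := by
        field_simp
        ring
      rw [e3]
      have e4 : 0 ≤ (a.totient : ℝ) / a := by positivity
      have e5 : (a.totient : ℝ) / a ≤ 1 := by rw [div_le_one ha0]; exact htot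
      have e6 : 0 ≤ σ1 * a - ((⌈σ1 * (a : ℝ)⌉ - 1 : ℤ) : ℝ) := by linarith
      have e7 : σ1 * a - ((⌈σ1 * (a : ℝ)⌉ - 1 : ℤ) : ℝ) ≤ 1 := by linarith
      have e8 : 0 ≤ s2 - s1 := by linarith
      rw [abs_of_nonneg (by positivity), div_le_iff₀ (by positivity)]
      calc ((a.totient : ℝ) / a) * (s2 - s1) * (σ1 * a - ((⌈σ1 * (a : ℝ)⌉ - 1 : ℤ) : ℝ))
          ≤ 1 * (s2 - s1) * 1 := by
            apply mul_le_mul (mul_le_mul_of_nonneg_right e5 e8) e7 e6 (by linarith)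
        _ = (s2 - s1) * 1 := by ring
        _ ≤ (s2 - s1) * (N : ℝ) ^ 2 := by
            apply mul_le_mul_of_nonneg_left _ e8
            exact one_le_pow₀ hN1
    have h5 := hfin.2
    have h6 : C * (a : ℝ) ^ (9 / 10 : ℝ) ≤ max C 0 * (a : ℝ) ^ (9 / 10 : ℝ) :=
      mul_le_mul_of_nonneg_right (le_max_left _ _) (by positivity)
    have h7 : s2 - s1 ≤ (s2 - s1) * (a : ℝ) ^ (9 / 10 : ℝ) :=
      le_mul_of_one_le_right (by linarith) hle9
    rw [abs_le] at h5 hdiff ⊢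
    have h8 : C' * (a : ℝ) ^ (9 / 10 : ℝ) = max C 0 * (a : ℝ) ^ (9 / 10 : ℝ) +
      (s2 - s1) * (a : ℝ) ^ (9 / 10 : ℝ) := by rw [hC']; ring
    rw [h8]
    constructor <;> linarith [h5.1, h5.2, hdiff.1, hdiff.2]
  -- decomposition
  set R : ℕ → Finset (ℤ × ℤ) := fun a =>
    if h : (rw0 a).Finite then h.toFinset else ∅ with hR
  have hRc : ∀ a : ℕ, 0 < a → (N : ℤ) ∣ (a : ℤ) - γ.a →
      (R a).card = (rw0 a).ncard ∧ ∀ p, p ∈ R a ↔ p ∈ rw0 a := by
    intro a ha ha'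
    have hf := (hrow a ha ha').1
    simp only [hR, dif_pos hf]
    refine ⟨(Set.ncard_eq_toFinset_card _ hf).symm, fun p => Set.Finite.mem_toFinset hf⟩
  have hset : ∀ n, secS N γ σ1 σ2 s1 s2 z n =
      (((A n).biUnion fun a => (R a).image (g a) : Finset (V × V)) : Set (V × V)) := by
    intro n
    ext f
    simp only [Finset.coe_biUnion, Finset.coe_image, Set.mem_iUnion, Set.mem_image, Finset.mem_coe]
    constructor
    · rintro ⟨hw, ⟨hc1, hc2, hc3, hc4⟩, ha0', hta, hx1, hx2, hy1, hy2⟩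
      obtain ⟨a, ha⟩ : ∃ a : ℕ, (a : ℤ) = f.1.1 := ⟨f.1.1.toNat, Int.toNat_of_nonneg ha0'.le⟩
      have haR : (a : ℝ) = f.1.1 := by rw [← ha]; simp
      have hap : 0 < a := by omega
      have haA : a ∈ A n := by
        simp only [hA, Finset.mem_filter, Finset.mem_Icc]
        refine ⟨⟨hap, Nat.le_floor ?_⟩, ?_⟩
        · rw [haR]; exact hta
        · rw [ha]; exact hc1
      refine ⟨a, haA, (f.1.2, f.2.1), ?_, ?_⟩
      · rw [(hRc a hap (by rw [ha]; exact hc1)).2]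
        simp only [hrw, rowS, Set.mem_ofPred_eq]
        refine ⟨?_, ?_, ?_, ?_, hc2, hc3, ?_⟩
        · rw [ceil_lt_iff, haR]; exact hx1
        · rw [haR]; exact hx2
        · rw [haR]; exact hy1
        · rw [haR]; exact hy2
        · refine ⟨f.2.2, ?_⟩
          unfold wd at hw
          rw [ha]; linarith
      · unfold g
        have hd : (1 + f.1.2 * f.2.1) / (a : ℤ) = f.2.2 := by
          unfold wd at hw
          have : 1 + f.1.2 * f.2.1 = a * f.2.2 := by rw [ha]; linarith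
          rw [this]
          exact Int.mul_ediv_cancel_left _ (by omega)
        show (((a : ℤ), f.1.2), (f.2.1, (1 + f.1.2 * f.2.1) / (a : ℤ))) = f
        rw [hd, ha]
    · rintro ⟨a, haA, p, hp, rfl⟩
      obtain ⟨h1, h2, h4⟩ := hAm n a haA
      rw [(hRc a h1 h4).2] at hp
      simp only [hrw, rowS, Set.mem_ofPred_eq] at hp
      obtain ⟨p1, p2, p3, p4, p5, p6, p7⟩ := hp
      have hd : (a : ℤ) * ((1 + p.1 * p.2) / a) = 1 + p.1 * p.2 := Int.mul_ediv_cancel' p7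
      have hwd : wd (g a p).1 (g a p).2 = 1 := by
        unfold wd g; simp only; rw [hd]; ring
      refine ⟨hwd, ⟨?_, ?_, ?_, ?_⟩, ?_, ?_, ?_, ?_, ?_, ?_⟩
      · exact h4
      · exact p5
      · exact p6
      · show (N : ℤ) ∣ (1 + p.1 * p.2) / a - γ.d
        have h5 : (N : ℤ) ∣ (a : ℤ) * ((1 + p.1 * p.2) / a - γ.d) := by
          have e : (a : ℤ) * ((1 + p.1 * p.2) / a - γ.d) =
              -(γ.det - 1) + (p.1 - γ.c) * p.2 + γ.c * (p.2 - γ.b) - ((a : ℤ) - γ.a) * γ.d := by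
            rw [mul_sub, hd]; unfold Mat.det; ring
          rw [e]
          exact ((((dvd_neg.2 hγ)).add (Dvd.dvd.mul_right p5 _)).add
            (Dvd.dvd.mul_left p6 _)).sub (Dvd.dvd.mul_right h4 _)
        have h6 : IsCoprime (N : ℤ) (a : ℤ) := (Nat.isCoprime_iff_coprime.2 (hcop a h4)).symm
        exact h6.dvd_of_dvd_mul_left h5
      · show (0 : ℤ) < (a : ℤ)
        exact_mod_cast h1
      · show (((a : ℤ) : ℤ) : ℝ) ≤ z * √n
        rw [Int.cast_natCast]; exact h2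
      · show σ1 * (((a : ℤ) : ℤ) : ℝ) ≤ p.1
        rw [Int.cast_natCast]; exact (ceil_lt_iff _ _).1 p1
      · show (p.1 : ℝ) < σ2 * (((a : ℤ) : ℤ) : ℝ)
        rw [Int.cast_natCast]; exact p2
      · show s1 * (((a : ℤ) : ℤ) : ℝ) ≤ p.2
        rw [Int.cast_natCast]; exact p3
      · show (p.2 : ℝ) < s2 * (((a : ℤ) : ℤ) : ℝ)
        rw [Int.cast_natCast]; exact p4
  refine ⟨fun n => by rw [hset n]; exact Finset.finite_toSet _, ?_⟩
  have hcard : ∀ n, (secS N γ σ1 σ2 s1 s2 z n).ncard = ∑ a ∈ A n, (rw0 a).ncard := by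
    intro n
    rw [hset n, Set.ncard_coe_finset, Finset.card_biUnion]
    · refine Finset.sum_congr rfl fun a ha => ?_
      obtain ⟨h1, h2, h4⟩ := hAm n a ha
      rw [Finset.card_image_of_injective _ (g_inj a), (hRc a h1 h4).1]
    · intro a _ a' _ haa'
      rw [Function.onFun, Finset.disjoint_left]
      intro f hf hf'
      rw [Finset.mem_image] at hf hf'
      obtain ⟨p, _, rfl⟩ := hf
      obtain ⟨p', _, h'⟩ := hf'
      apply haa'
      have := congrArg (fun f : V × V => f.1.1) h'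
      simp only [g] at this
      exact_mod_cast this.symm
  -- the weights
  set w : ℕ → ℝ := fun a => if (N : ℤ) ∣ (a : ℤ) - γ.a then (a.totient : ℝ) / a else 0 with hw
  have hmean : Tendsto (fun x : ℕ => (1 / (x : ℝ)) * ∑ a ∈ Finset.Icc 1 x, w a) atTop (𝓝 (κ / N)) := by
    refine (hκ γ.a hga).congr fun x => ?_
    rw [Finset.sum_filter]
  have hlin := mean_lin hmean
  have hXt : Tendsto X atTop atTop := by
    simp only [hXdef]
    apply Tendsto.const_mul_atTop hz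
    exact Real.tendsto_sqrt_atTop.comp tendsto_natCast_atTop_atTop
  have hfl : Tendsto (fun n : ℕ => ⌊X n⌋₊) atTop atTop := tendsto_nat_floor_atTop.comp hXt
  have hlin2 := hlin.comp hfl
  have hratio : Tendsto (fun n : ℕ => ((⌊X n⌋₊ : ℝ) / X n) ^ 2) atTop (𝓝 (1 ^ 2)) :=
    ((tendsto_nat_floor_div_atTop (R := ℝ)).comp hXt).pow 2
  -- main term
  set c0 : ℝ := (σ2 - σ1) * (s2 - s1) / (N : ℝ) ^ 2 with hc0
  set T : ℕ → ℝ := fun n => ∑ a ∈ A n,
    (a.totient : ℝ) * ((σ2 - σ1) * (s2 - s1)) / (N : ℝ) ^ 2 with hT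
  have hTlim : Tendsto (fun n : ℕ => T n / n) atTop
      (𝓝 (κ / (2 * (N : ℝ) ^ 3) * ((σ2 - σ1) * (s2 - s1) * z ^ 2))) := by
    have h1 := (hlin2.mul hratio).const_mul (c0 * z ^ 2)
    have e : c0 * z ^ 2 * (κ / N / 2 * 1 ^ 2) =
        κ / (2 * (N : ℝ) ^ 3) * ((σ2 - σ1) * (s2 - s1) * z ^ 2) := by
      rw [hc0]; field_simp
    rw [e] at h1
    refine h1.congr' ?_
    filter_upwards [eventually_gt_atTop 0, hfl.eventually_gt_atTop 0,
      hXt.eventually_gt_atTop 0] with n hn hf hXp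
    have hn0 : (0 : ℝ) < n := by exact_mod_cast hn
    have hf0 : (0 : ℝ) < (⌊X n⌋₊ : ℝ) := by exact_mod_cast hf
    have hX2 : X n ^ 2 = z ^ 2 * n := by
      simp only [hXdef]; rw [mul_pow, Real.sq_sqrt hn0.le]
    have hTs : T n = c0 * ∑ a ∈ Icc 1 ⌊X n⌋₊, (a : ℝ) * w a := by
      simp only [hT, hA, hw]
      rw [Finset.mul_sum, Finset.sum_filter]
      refine Finset.sum_congr rfl fun a ha => ?_
      have ha1 := (Finset.mem_Icc.1 ha).1
      have ha0 : (a : ℝ) ≠ 0 := by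
        have : a ≠ 0 := by omega
        exact_mod_cast this
      split_ifs
      · rw [hc0]; field_simp
      · simp
    simp only [Function.comp]
    rw [hTs, div_pow, hX2]
    field_simp
  -- error term
  have herr : Tendsto (fun n : ℕ => ((secS N γ σ1 σ2 s1 s2 z n).ncard : ℝ) / n - T n / n) atTop
      (𝓝 0) := by
    have hb : ∀ᶠ n : ℕ in atTop, ‖((secS N γ σ1 σ2 s1 s2 z n).ncard : ℝ) / n - T n / n‖ ≤
        C' * z ^ 2 * (X n) ^ (-(1 / 10) : ℝ) := by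
      filter_upwards [eventually_gt_atTop 0, hXt.eventually_ge_atTop 1] with n hn hX1
      have hn0 : (0 : ℝ) < n := by exact_mod_cast hn
      have hXp : 0 < X n := by linarith
      have hA' : A n ⊆ Finset.Icc 1 ⌊X n⌋₊ := Finset.filter_subset _ _
      rw [← sub_div, norm_div, Real.norm_natCast, Real.norm_eq_abs, hcard n]
      push_cast
      simp only [hT]
      rw [← Finset.sum_sub_distrib]
      have h1 : |∑ a ∈ A n, (((rw0 a).ncard : ℝ) -
          (a.totient : ℝ) * ((σ2 - σ1) * (s2 - s1)) / (N : ℝ) ^ 2)| ≤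
          C' * X n ^ (19 / 10 : ℝ) :=
        (Finset.abs_sum_le_sum_abs _ _).trans ((Finset.sum_le_sum fun a ha =>
          (hrow a (hAm n a ha).1 (hAm n a ha).2.2).2).trans
          (sum_rpow_le C' (X n) hC'0 hX1 (A n) hA'))
      have hnX : (n : ℝ) = X n ^ 2 / z ^ 2 := by
        simp only [hXdef]
        rw [mul_pow, Real.sq_sqrt hn0.le]
        field_simp
      calc _ ≤ C' * X n ^ (19 / 10 : ℝ) / n := by gcongr
        _ = C' * z ^ 2 * (X n ^ (19 / 10 : ℝ) / X n ^ 2) := by rw [hnX]; field_simp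
        _ = C' * z ^ 2 * (X n) ^ (-(1 / 10) : ℝ) := by
          rw [← Real.rpow_natCast (X n) 2, ← Real.rpow_sub hXp]
          norm_num
    refine squeeze_zero_norm' hb ?_
    have h2 : Tendsto (fun n : ℕ => (X n) ^ (-(1 / 10) : ℝ)) atTop (𝓝 0) :=
      (tendsto_rpow_neg_atTop (show (0 : ℝ) < 1 / 10 by norm_num)).comp hXt
    have := h2.const_mul (C' * z ^ 2)
    simpa using this
  have := herr.add hTlim
  simpa using this

/-- (R1) -/
theorem stHbox_7 : StHbox := stHbox_of stRow_79 stTot_7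

end Pool.Agent.Lib.MP_a17b09_nt.HY
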