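import Pool.Agent.Lib.MP_a17b09_nt.HY.StmtsR20
import Pool.Agent.Lib.MP_a17b09_nt.CH.MainS64

/-!
Project HY, (R4): the number of all pairs `(t, d)`, `t ≤ N`, is asymptotic to `κ N`.
-/

set_option autoImplicit false

open Filter Topology Finset

namespace Pool.Agent.Lib.MP_a17b09_nt.HY

open Pool.Agent.Lib.MP_a17b09_nt.CH

namespace MS93

/-- the value is not zero -/
theorem fv_ne {a b c : ℤ} {d : ℕ} (hd : b ^ 2 - 4 * a * c = d) (hns : ¬ IsSquare d) (t : ℕ) :
    fv a b c t ≠ 0 := by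
  intro h
  unfold fv at h
  apply hns
  have h1 : (2 * a * (t : ℤ) + b) ^ 2 = d := by
    rw [← hd]
    linear_combination 4 * a * h
  refine ⟨(2 * a * (t : ℤ) + b).natAbs, ?_⟩
  have h2 : (((2 * a * (t : ℤ) + b).natAbs * (2 * a * (t : ℤ) + b).natAbs : ℕ) : ℤ) = d := by
    rw [Int.natAbs_mul_self, ← h1]
    ring
  exact_mod_cast h2.symm

/-- the number of pairs as the cardinality of `MainG3.W` -/
theorem card_W {a b c : ℤ} (hf : ∀ t : ℕ, fv a b c t ≠ 0) {h t0 : ℕ} {α β : ℝ}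
    (hβ : 0 < β) (X : ℕ) :
    (MainG3.W a b c h t0 α β X).card = CST a b c α β h t0 1 0 0 X := by
  classical
  unfold CST MainG3.W
  rw [Finset.card_filter, Finset.sum_product, Finset.sum_filter]
  apply Finset.sum_congr rfl
  intro t ht
  rw [Finset.mem_Icc] at ht
  by_cases h1 : t ≡ t0 [MOD h]
  · rw [if_pos h1]
    have h2 : (nearG a b c α β t).filter (fun d => Omn d ≡ 0 [MOD 1] ∧
        Omn ((fv a b c t).natAbs / d) ≡ 0 [MOD 1]) =
        (Finset.Icc 1 ⌈β * X⌉₊).filter (fun d : ℕ =>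
        t ≡ t0 [MOD h] ∧ (d : ℤ) ∣ fv a b c t ∧ α * t ≤ (d : ℝ) ∧ (d : ℝ) ≤ β * t) := by
      ext d
      unfold nearG
      rw [Finset.mem_filter, Finset.mem_filter, Finset.mem_filter, Nat.mem_divisors,
        Finset.mem_Icc]
      have hp := hf t
      constructor
      · rintro ⟨⟨⟨h3, h4⟩, h5, h6⟩, -⟩
        refine ⟨⟨?_, ?_⟩, h1, Int.natCast_dvd.2 h3, h5, h6⟩
        · rcases Nat.eq_zero_or_pos d with h7 | h7
          · rw [h7] at h3
            exact absurd (Nat.eq_zero_of_zero_dvd h3) h4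
          · exact h7
        · have h8 : (t : ℝ) ≤ X := by exact_mod_cast ht.2
          have h9 : (d : ℝ) ≤ ((⌈β * X⌉₊ : ℕ) : ℝ) :=
            h6.trans ((mul_le_mul_of_nonneg_left h8 hβ.le).trans (Nat.le_ceil _))
          exact_mod_cast h9
      · rintro ⟨⟨h3, -⟩, -, h5, h6, h7⟩
        exact ⟨⟨⟨Int.natCast_dvd.1 h5, by omega⟩, h6, h7⟩, Nat.modEq_one, Nat.modEq_one⟩
    rw [h2, Finset.card_filter]
  · rw [if_neg h1]
    apply Finset.sum_eq_zero
    intro d _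
    rw [if_neg (fun h => h1 h.1)]

end MS93

/-- (R4) -/
theorem stHMainS_93 (hC : StHCntG) : StHMainS := by
  intro a b c ha d hd hns h hh t0 α β hα hαβ
  have hβ : 0 < β := hα.trans hαβ
  obtain ⟨κ, hκ, hcnt⟩ := hC a b c ha d hd hns h hh t0
  have h1 : 1 / β < 1 / α := one_div_lt_one_div_of_lt hα hαβ
  have h2 : 0 < 1 / β := by positivity
  have h3 := MS64.natW (ℕ × ℕ) (PG a b c h t0) (fun p => p.2) (fun p => (p.1 : ℝ) / p.2)
    (fun x y hx hxy n => (hcnt x y hx hxy).1 n) κ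
    (fun x y hx hxy => (hcnt x y hx hxy).2) (1 / β) (1 / α) h2 h1 (MainG3.W a b c h t0 α β)
    (fun X p => MainG3.mem_W hα hβ X p)
  refine ⟨κ * Real.log (1 / α / (1 / β)), ?_, ?_⟩
  · apply mul_pos hκ
    apply Real.log_pos
    rw [one_lt_div h2]
    exact h1
  · refine h3.congr (fun X => ?_)
    rw [MS93.card_W (MS93.fv_ne hd hns) hβ X]

end Pool.Agent.Lib.MP_a17b09_nt.HY
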