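import Pool.Agent.Lib.MP_a17b09_nt.HY.Stmts20
import Pool.Agent.Lib.MP_a17b09_nt.CH.Shift20

/-!
Project HY, E6: the shift of the angle by `u L / x`.
-/

set_option autoImplicit false

open Filter Topology Finset

namespace Pool.Agent.Lib.MP_a17b09_nt.HY

open Pool.Agent.Lib.MP_a17b09_nt.CH
open Pool.Agent.Lib.MP_a17b09_nt.CH.PE (Good GT Sup Ug)
open Pool.Agent.Lib.MP_a17b09_nt.CH.PE.Shift20 (le_sq compare)

namespace ShiftH20

theorem cosh_sub_one {c : ℝ} (hc : |c| ≤ 1) : |Real.cosh c - 1| ≤ c ^ 2 := by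
  have h1 := Real.one_le_cosh c
  have h2 := Real.cosh_le_exp_half_sq c
  have h0 : 0 ≤ c ^ 2 := sq_nonneg c
  have h3 : c ^ 2 ≤ 1 := by
    rw [← sq_abs]
    exact pow_le_one₀ (abs_nonneg c) hc
  have h4 : |Real.exp (c ^ 2 / 2) - 1| ≤ 2 * |c ^ 2 / 2| :=
    Real.abs_exp_sub_one_le (by rw [abs_of_nonneg (by positivity)]; linarith)
  rw [abs_of_nonneg (by positivity : 0 ≤ c ^ 2 / 2)] at h4
  rw [abs_of_nonneg (by linarith)]
  have h5 := (abs_le.1 h4).2
  linarith

theorem sinh_sub {c : ℝ} (hc : |c| ≤ 1) : |c - Real.sinh c| ≤ c ^ 2 := by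
  have h1 := Real.abs_exp_sub_one_sub_id_le hc
  have h2 := Real.abs_exp_sub_one_sub_id_le (x := -c) (by rwa [abs_neg])
  rw [neg_sq] at h2
  rw [Real.sinh_eq]
  have e : c - (Real.exp c - Real.exp (-c)) / 2 =
      -(1 / 2) * (Real.exp c - 1 - c) + (1 / 2) * (Real.exp (-c) - 1 - -c) := by ring
  rw [e]
  refine (abs_add_le _ _).trans ?_
  rw [abs_mul, abs_mul, abs_neg, abs_of_pos (by norm_num : (0 : ℝ) < 1 / 2)]
  linarith

theorem sinh_le {c : ℝ} (hc : |c| ≤ 1) : |Real.sinh c| ≤ 2 * |c| := by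
  have h1 := sinh_sub hc
  have h2 : |Real.sinh c| ≤ |c| + |c - Real.sinh c| := by
    have e : Real.sinh c = c - (c - Real.sinh c) := by ring
    calc |Real.sinh c| = |c - (c - Real.sinh c)| := by rw [← e]
      _ ≤ _ := abs_sub _ _
  have h3 : c ^ 2 ≤ |c| := by
    rw [← sq_abs, sq]
    exact mul_le_of_le_one_left (abs_nonneg c) hc
  linarith

/-- coordinates before the rotation -/
theorem back {B L x M c X' Y' : ℝ} (hB : 1 ≤ B) (hL : 1 ≤ L) (hx : 1 ≤ x)
    (hc : |c| = M / x) (hxM : 4 * M ≤ x) (hxB : 8 * M * B ^ 2 * L ≤ x) (hM : 0 ≤ M)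
    (h1 : 1 / B ≤ X') (h2 : X' ≤ B) (h3 : |Y'| ≤ B * L) :
    1 / (2 * B) ≤ Real.cosh c * X' + Real.sinh c * (Y' / x) ∧
    Real.cosh c * X' + Real.sinh c * (Y' / x) ≤ 2 * B ∧
    |Real.cosh c * Y' + x * Real.sinh c * X'| ≤ 2 * B * L + 2 * M * B := by
  have hB0 : 0 < B := by linarith
  have hL0 : 0 < L := by linarith
  have hxp : 0 < x := by linarith
  have hc0 : 0 ≤ |c| := abs_nonneg c
  have hX0 : 0 < X' := lt_of_lt_of_le (by positivity) h1
  have hc1 : |c| ≤ 1 / 4 := by rw [hc, div_le_iff₀ hxp]; linarith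
  have hsin : |Real.sinh c| ≤ 2 * |c| := sinh_le (by linarith)
  have hsmall : |Real.sinh c * (Y' / x)| ≤ 1 / (4 * B) := by
    rw [abs_mul, abs_div, abs_of_pos hxp]
    have h5 : |Real.sinh c| * (|Y'| / x) ≤ (2 * (M / x)) * (B * L / x) := by
      rw [← hc]
      exact mul_le_mul hsin (div_le_div_of_nonneg_right h3 hxp.le) (by positivity) (by positivity)
    refine h5.trans ?_
    have h6 : 2 * (M / x) * (B * L / x) = 2 * M * (B * L) / (x * x) := by
      field_simp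
    rw [h6, div_le_div_iff₀ (by positivity) (by positivity)]
    have h7 : 2 * M * (B * L) * (4 * B) = 8 * M * B ^ 2 * L := by ring
    rw [h7, one_mul]
    exact hxB.trans (le_sq hx)
  have hcosl : 1 ≤ Real.cosh c := Real.one_le_cosh c
  have hcosu : Real.cosh c ≤ 17 / 16 := by
    have h6 := (abs_le.1 (cosh_sub_one (by linarith : |c| ≤ 1))).2
    have h7 : c ^ 2 ≤ (1 / 4) ^ 2 := by rw [← sq_abs]; exact pow_le_pow_left₀ hc0 hc1 2
    linarith
  have hcosa : |Real.cosh c| ≤ 2 := by rw [abs_of_pos (by linarith)]; linarith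
  rw [abs_le] at hsmall
  have h40 : 1 / (4 * B) ≤ B / 4 := by
    rw [div_le_div_iff₀ (by positivity) (by norm_num)]
    have := le_sq hB
    linarith
  refine ⟨?_, ?_, ?_⟩
  · have h8 : 1 * (1 / B) ≤ Real.cosh c * X' :=
      mul_le_mul hcosl h1 (by positivity) (by linarith)
    have h9 : 1 / (2 * B) = 1 / B - 2 * (1 / (4 * B)) := by
      field_simp; norm_num
    have h10 : 0 < 1 / (4 * B) := by positivity
    linarith [hsmall.1, hsmall.2]
  · have h8 : Real.cosh c * X' ≤ 17 / 16 * B := mul_le_mul hcosu h2 hX0.le (by norm_num)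
    linarith [hsmall.1, hsmall.2]
  · refine (abs_add_le _ _).trans ?_
    have h8 : |Real.cosh c * Y'| ≤ 2 * B * L := by
      rw [abs_mul]
      calc |Real.cosh c| * |Y'| ≤ 2 * (B * L) :=
            mul_le_mul hcosa h3 (abs_nonneg _) (by norm_num)
        _ = 2 * B * L := by ring
    have h9 : |x * Real.sinh c * X'| ≤ 2 * M * B := by
      rw [abs_mul, abs_mul, abs_of_pos hxp, abs_of_pos hX0]
      have h10 : x * |Real.sinh c| ≤ 2 * M := by
        have h11 : x * |c| = M := by rw [hc]; field_simp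
        rw [← h11]
        have := mul_le_mul_of_nonneg_left hsin hxp.le
        linarith
      exact mul_le_mul h10 h2 hX0.le (by positivity)
    linarith

/-- the effect of the rotation -/
theorem move {B L x M c u X Y : ℝ} (hB : 0 < B) (hL : 1 ≤ L) (hx : 1 ≤ x) (hcu : c = u * L / x)
    (hc : |c| = M / x) (hxM : 4 * M ≤ x) (hM : 0 ≤ M)
    (h1 : 0 < X) (h2 : X ≤ B) (h3 : |Y| ≤ B * L) :
    |(Real.cosh c * X - Real.sinh c * (Y / x)) - X| +
      |(Real.cosh c * Y - x * Real.sinh c * X) / L - (Y / L - u * X)| ≤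
      ((M ^ 2 + 2 * M * L) * B + (M ^ 2 + M ^ 2) * B) / x := by
  have hL0 : 0 < L := by linarith
  have hxp : 0 < x := by linarith
  have hc0 : 0 ≤ |c| := abs_nonneg c
  have hc1 : |c| ≤ 1 / 4 := by rw [hc, div_le_iff₀ hxp]; linarith
  have hc1' : |c| ≤ 1 := by linarith
  have hsin : |Real.sinh c| ≤ 2 * |c| := sinh_le hc1'
  have hcM : |c| ≤ M := by
    rw [hc, div_le_iff₀ hxp]
    have := mul_le_mul_of_nonneg_left hx hM
    linarith
  have hc2 : c ^ 2 ≤ M ^ 2 / x := by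
    rw [← sq_abs, hc, div_pow, div_le_div_iff₀ (by positivity) hxp]
    have h6 : x ≤ x ^ 2 := by rw [sq]; exact le_sq hx
    exact mul_le_mul_of_nonneg_left h6 (by positivity)
  have d1 : |(Real.cosh c * X - Real.sinh c * (Y / x)) - X| ≤ (M ^ 2 + 2 * M * L) * B / x := by
    have e : (Real.cosh c * X - Real.sinh c * (Y / x)) - X =
      (Real.cosh c - 1) * X + -(Real.sinh c * (Y / x)) := by ring
    rw [e]
    refine (abs_add_le _ _).trans ?_
    rw [abs_neg, abs_mul, abs_mul, abs_div, abs_of_pos h1, abs_of_pos hxp]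
    have t1 : |Real.cosh c - 1| * X ≤ M ^ 2 / x * B :=
      mul_le_mul ((cosh_sub_one hc1').trans hc2) h2 h1.le (by positivity)
    have t2 : |Real.sinh c| * (|Y| / x) ≤ 2 * M * (B * L / x) :=
      mul_le_mul (hsin.trans (by linarith)) (div_le_div_of_nonneg_right h3 hxp.le) (by positivity)
        (by positivity)
    have e3 : (M ^ 2 + 2 * M * L) * B / x = M ^ 2 / x * B + 2 * M * (B * L / x) := by
      field_simp
    rw [e3]
    linarith
  have d2 : |(Real.cosh c * Y - x * Real.sinh c * X) / L - (Y / L - u * X)| ≤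
      (M ^ 2 + M ^ 2) * B / x := by
    have e : (Real.cosh c * Y - x * Real.sinh c * X) / L - (Y / L - u * X) =
        (Real.cosh c - 1) * (Y / L) + (x * (c - Real.sinh c) / L) * X := by
      have hux : x * c = u * L := by rw [hcu]; field_simp
      field_simp
      linear_combination (-X) * hux
    rw [e]
    refine (abs_add_le _ _).trans ?_
    rw [abs_mul, abs_mul, abs_div, abs_div, abs_mul, abs_of_pos h1, abs_of_pos hxp,
      abs_of_pos hL0]
    have t0 : |Y| / L ≤ B := by rw [div_le_iff₀ hL0]; exact h3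
    have t1 : |Real.cosh c - 1| * (|Y| / L) ≤ M ^ 2 / x * B :=
      mul_le_mul ((cosh_sub_one hc1').trans hc2) t0 (by positivity) (by positivity)
    have t2 : x * |c - Real.sinh c| / L ≤ M ^ 2 / x := by
      have t3 : |c - Real.sinh c| ≤ c ^ 2 := sinh_sub hc1'
      have t4 : x * |c - Real.sinh c| ≤ M ^ 2 / x := by
        refine (mul_le_mul_of_nonneg_left t3 hxp.le).trans ?_
        rw [← sq_abs, hc, div_pow]
        have : x * (M ^ 2 / x ^ 2) = M ^ 2 / x := by field_simp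
        rw [this]
      rw [div_le_iff₀ hL0]
      have t8 : 0 ≤ M ^ 2 / x := by positivity
      have t9 := mul_le_mul_of_nonneg_left hL t8
      linarith
    have t3 : x * |c - Real.sinh c| / L * X ≤ M ^ 2 / x * B :=
      mul_le_mul t2 h2 h1.le (by positivity)
    have e3 : (M ^ 2 + M ^ 2) * B / x = M ^ 2 / x * B + M ^ 2 / x * B := by
      field_simp
    rw [e3]
    linarith
  have e4 : ((M ^ 2 + 2 * M * L) * B + (M ^ 2 + M ^ 2) * B) / x =
      (M ^ 2 + 2 * M * L) * B / x + (M ^ 2 + M ^ 2) * B / x := by ring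
  rw [e4]
  linarith

end ShiftH20

open ShiftH20

/-- E6 -/
theorem stHShift_20 (hC : StHCoord) (hN : StHCnt) : StHShift := by
  intro d Q hQ B G hG τ L u0 hτ hL ε hε
  obtain ⟨hB, hSup, K, hK⟩ := hG
  have hB0 : 0 < B := by linarith
  have hL0 : 0 < L := by linarith
  obtain ⟨u, hu⟩ : ∃ u : ℝ, u = τ * u0 := ⟨_, rfl⟩
  obtain ⟨W, hW⟩ : ∃ W : ℝ, W = 1 + |u| := ⟨_, rfl⟩
  have hW1 : 1 ≤ W := by rw [hW]; linarith [abs_nonneg u]
  obtain ⟨B', hB'⟩ : ∃ B' : ℝ, B' = 2 * B * W := ⟨_, rfl⟩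
  have hB'B : 2 * B ≤ B' := by
    have := mul_le_mul_of_nonneg_left hW1 (by positivity : (0 : ℝ) ≤ 2 * B)
    linarith
  have hB'1 : 1 ≤ B' := by linarith
  have hB'0 : 0 < B' := by linarith
  obtain ⟨C, hcnt⟩ := hN d Q hQ B' hB'1
  obtain ⟨M, hM⟩ : ∃ M : ℝ, M = |u| * L := ⟨_, rfl⟩
  have hM0 : 0 ≤ M := by rw [hM]; positivity
  have hBW : 2 * B * L + 2 * M * B = B' * L := by rw [hM, hB', hW]; ring
  obtain ⟨E, hE⟩ : ∃ E : ℝ, E = (M ^ 2 + 2 * M * L) * B' + (M ^ 2 + M ^ 2) * B' := ⟨_, rfl⟩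
  have hE0 : 0 ≤ E := by rw [hE]; positivity
  have hK0 : 0 ≤ K := by
    have h1 := hK 0 0 1 0
    have h2 := abs_nonneg (G 0 0 - G 1 0)
    norm_num at h1
    linarith
  have hC0 : 0 ≤ C := by
    have h1 := (hcnt τ L hL 1 0).2
    have h2 : 0 ≤ C * L := le_trans (by positivity) h1
    exact nonneg_of_mul_nonneg_left h2 hL0
  have hx0' : 0 ≤ C * K * E / ε := by positivity
  have hx0'' : 0 ≤ 8 * M * B ^ 2 * L := by positivity
  refine ⟨1 + 4 * M + 8 * M * B ^ 2 * L + C * K * E / ε, by linarith, ?_⟩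
  intro g hg x θ hx
  have hx1 : 1 ≤ x := by linarith
  have hxp : 0 < x := by linarith
  have hxM : 4 * M ≤ x := by linarith
  have hxB : 8 * M * B ^ 2 * L ≤ x := by linarith
  have hxE : C * K * E / ε ≤ x := by linarith
  obtain ⟨c0, hc0⟩ : ∃ c0 : ℝ, c0 = u0 * L / x := ⟨_, rfl⟩
  obtain ⟨c, hcc⟩ : ∃ c : ℝ, c = τ * c0 := ⟨_, rfl⟩
  have hc : c = u * L / x := by rw [hcc, hc0, hu]; ring
  rw [← hc0]
  have hcabs : |c| = M / x := by
    rw [hc, hM, abs_div, abs_mul, abs_of_pos hL0, abs_of_pos hxp]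
  obtain ⟨hfin, hcard⟩ := hcnt τ L hL x θ
  have hTcard : ((hfin.toFinset).card : ℝ) ≤ C * L := by
    rw [← Set.ncard_eq_toFinset_card _ hfin]
    exact hcard
  have hinvB : 1 / B' ≤ 1 / (2 * B) := one_div_le_one_div_of_le (by positivity) hB'B
  have hinvB2 : 1 / B' ≤ 1 / B := one_div_le_one_div_of_le hB0 (by linarith)
  have hfinal : C * (K * (E / x)) ≤ ε := by
    have h1 : C * (K * (E / x)) = C * K * E / x := by ring
    rw [h1, div_le_iff₀ hxp]
    rw [div_le_iff₀ hε] at hxE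
    linarith
  refine le_trans ?_ hfinal
  unfold hmm
  refine compare hL0 (by positivity) hTcard ?_ ?_ ?_
  · intro v hv
    have hgv : g v ≠ 0 := right_ne_zero_of_mul hv
    have hGv : G (hlx Q τ x (θ + c0) v) (hly Q τ x (θ + c0) v / L) ≠ 0 := by
      intro h0
      apply left_ne_zero_of_mul hv
      rw [h0, Complex.ofReal_zero]
    obtain ⟨h1, h2, h3⟩ := hSup _ _ hGv
    rw [abs_div, abs_of_pos hL0, div_le_iff₀ hL0] at h3
    obtain ⟨e1, e2⟩ := (hC d Q hQ v v τ x (θ + c0) hxp).2.2.2.1 (-c0)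
    rw [add_neg_cancel_right, mul_neg, ← hcc, Real.cosh_neg, Real.sinh_neg] at e1 e2
    obtain ⟨b1, b2, b3⟩ := back hB hL hx1 hcabs hxM hxB hM0 h1 h2 h3
    have e1' : hlx Q τ x θ v = Real.cosh c * hlx Q τ x (θ + c0) v +
        Real.sinh c * (hly Q τ x (θ + c0) v / x) := by rw [e1]; ring
    have e2' : hly Q τ x θ v = Real.cosh c * hly Q τ x (θ + c0) v +
        x * Real.sinh c * hlx Q τ x (θ + c0) v := by rw [e2]; ring
    rw [Set.Finite.mem_toFinset]
    refine ⟨hg.2 v hgv, ?_, ?_, ?_⟩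
    · rw [e1']; exact hinvB.trans b1
    · rw [e1']; exact b2.trans hB'B
    · rw [e2', ← hBW]; exact b3
  · intro v hv
    have hgv : g v ≠ 0 := right_ne_zero_of_mul hv
    have hGv : G (hlx Q τ x θ v) (hly Q τ x θ v / L - τ * u0 * hlx Q τ x θ v) ≠ 0 := by
      intro h0
      apply left_ne_zero_of_mul hv
      show ((G (hlx Q τ x θ v) (hly Q τ x θ v / L - τ * u0 * hlx Q τ x θ v) : ℝ) : ℂ) = 0
      rw [h0, Complex.ofReal_zero]
    rw [← hu] at hGv
    obtain ⟨h1, h2, h3⟩ := hSup _ _ hGv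
    have hX0 : 0 < hlx Q τ x θ v := lt_of_lt_of_le (by positivity) h1
    rw [Set.Finite.mem_toFinset]
    refine ⟨hg.2 v hgv, hinvB2.trans h1, by linarith, ?_⟩
    have h4 : |hly Q τ x θ v / L| ≤ B + |u| * B := by
      have e : hly Q τ x θ v / L =
        (hly Q τ x θ v / L - u * hlx Q τ x θ v) + u * hlx Q τ x θ v := by ring
      rw [e]
      refine (abs_add_le _ _).trans ?_
      rw [abs_mul, abs_of_pos hX0]
      have : |u| * hlx Q τ x θ v ≤ |u| * B := mul_le_mul_of_nonneg_left h2 (abs_nonneg _)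
      linarith
    rw [abs_div, abs_of_pos hL0, div_le_iff₀ hL0] at h4
    have h5 : (B + |u| * B) * L = B * L + M * B := by rw [hM]; ring
    have h6 : 0 ≤ B * L := by positivity
    have h7 : 0 ≤ M * B := by positivity
    linarith
  · intro v hv
    rw [Set.Finite.mem_toFinset] at hv
    obtain ⟨_, h1, h2, h3⟩ := hv
    obtain ⟨e1, e2⟩ := (hC d Q hQ v v τ x θ hxp).2.2.2.1 c0
    rw [← hcc] at e1 e2
    have hX0 : 0 < hlx Q τ x θ v := lt_of_lt_of_le (by positivity) h1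
    rw [← sub_mul, norm_mul]
    have hd : ‖((G (hlx Q τ x (θ + c0) v) (hly Q τ x (θ + c0) v / L) : ℝ) : ℂ) -
        ((G (hlx Q τ x θ v) (hly Q τ x θ v / L - τ * u0 * hlx Q τ x θ v) : ℝ) : ℂ)‖ ≤
          K * (E / x) := by
      rw [← Complex.ofReal_sub, Complex.norm_real, Real.norm_eq_abs]
      refine (hK _ _ _ _).trans ?_
      refine mul_le_mul_of_nonneg_left ?_ hK0
      rw [e1, e2, hE, ← hu]
      exact move hB'0 hL hx1 hc hcabs hxM hM0 hX0 h2 h3
    calc _ ≤ K * (E / x) * 1 := mul_le_mul hd (hg.1 v) (norm_nonneg _) (by positivity)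
      _ = K * (E / x) := mul_one _

end Pool.Agent.Lib.MP_a17b09_nt.HY
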