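import Pool.Agent.Lib.MP_a17b09_nt.HY.Coord20
import Pool.Agent.Lib.MP_a17b09_nt.HY.Shift20
import Pool.Agent.Lib.MP_a17b09_nt.CH.Mg28

/-!
Project HY: E4, the local sums are good functions.
-/

set_option autoImplicit false

open Filter Topology Finset

namespace Pool.Agent.Lib.MP_a17b09_nt.HY

open Pool.Agent.Lib.MP_a17b09_nt.CH
open Pool.Agent.Lib.MP_a17b09_nt.CH.PE (Good GT Sup Ug gt_bound28)

namespace Mg46

/-- the local box -/
def bx (Q : Form) (τ B L x θ : ℝ) : Set V :=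
  {v : V | Prim v ∧ 1 / B ≤ hlx Q τ x θ v ∧ hlx Q τ x θ v ≤ B ∧ |hly Q τ x θ v| ≤ B * L}

/-- the sum is a finite sum -/
theorem hmm_eq (Q : Form) (τ : ℝ) (g : V → ℂ) (hg : ∀ v, g v ≠ 0 → Prim v) (B : ℝ)
    (G : ℝ → ℝ → ℝ) (hG : Sup B G) (L x θ : ℝ) (hL : 1 ≤ L) (S : Finset V)
    (hS : bx Q τ B L x θ ⊆ S) :
    hmm Q τ g G L x θ =
      (1 / (L : ℂ)) * ∑ v ∈ S, ((G (hlx Q τ x θ v) (hly Q τ x θ v / L) : ℝ) : ℂ) * g v := by
  unfold hmm
  rw [tsum_eq_sum (s := S)]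
  intro v hv
  by_contra hne
  apply hv
  have h1 : g v ≠ 0 := fun h => hne (by rw [h, mul_zero])
  have h2 : G (hlx Q τ x θ v) (hly Q τ x θ v / L) ≠ 0 := fun h => hne (by
    rw [h, Complex.ofReal_zero, zero_mul])
  obtain ⟨h3, h4, h5⟩ := hG _ _ h2
  have hL0 : 0 < L := by linarith
  rw [abs_div, abs_of_pos hL0, div_le_iff₀ hL0] at h5
  exact hS ⟨hg v h1, h3, h4, h5⟩

/-- comparison of two local sums -/
theorem hmm_sub (Q : Form) (τ B : ℝ) (C : ℝ) (L : ℝ) (hL : 1 ≤ L)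
    (hC : ∀ x θ : ℝ, (bx Q τ B L x θ).Finite ∧ ((bx Q τ B L x θ).ncard : ℝ) ≤ C * L)
    (G : ℝ → ℝ → ℝ) (hG : Sup B G) (g : V → ℂ) (hg : ∀ v, g v ≠ 0 → Prim v) (c : ℝ)
    (hc : ∀ v, ‖g v‖ ≤ c) (x θ x' θ' η : ℝ) (hη : 0 ≤ η)
    (h : ∀ v, v ∈ bx Q τ B L x θ ∨ v ∈ bx Q τ B L x' θ' →
      |G (hlx Q τ x θ v) (hly Q τ x θ v / L) - G (hlx Q τ x' θ' v) (hly Q τ x' θ' v / L)| ≤ η) :
    ‖hmm Q τ g G L x θ - hmm Q τ g G L x' θ'‖ ≤ 2 * C * η * c := by
  classical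
  have hL0 : 0 < L := by linarith
  have hc0 : 0 ≤ c := (norm_nonneg _).trans (hc 0)
  obtain ⟨hf1, hc1⟩ := hC x θ
  obtain ⟨hf2, hc2⟩ := hC x' θ'
  set S : Finset V := hf1.toFinset ∪ hf2.toFinset with hS
  have hcard : (S.card : ℝ) ≤ 2 * C * L := by
    have h1 : S.card ≤ hf1.toFinset.card + hf2.toFinset.card := card_union_le _ _
    rw [Set.ncard_eq_toFinset_card _ hf1] at hc1
    rw [Set.ncard_eq_toFinset_card _ hf2] at hc2
    have h2 : (S.card : ℝ) ≤ hf1.toFinset.card + hf2.toFinset.card := by exact_mod_cast h1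
    linarith
  rw [hmm_eq Q τ g hg B G hG L x θ hL S (by
      intro v hv
      rw [mem_coe, hS, mem_union]
      left
      rw [Set.Finite.mem_toFinset]
      exact hv),
    hmm_eq Q τ g hg B G hG L x' θ' hL S (by
      intro v hv
      rw [mem_coe, hS, mem_union]
      right
      rw [Set.Finite.mem_toFinset]
      exact hv), ← mul_sub, ← sum_sub_distrib, norm_mul, norm_div, norm_one, Complex.norm_real,
    Real.norm_eq_abs, abs_of_pos hL0]
  have h1 : ‖∑ v ∈ S, (((G (hlx Q τ x θ v) (hly Q τ x θ v / L) : ℝ) : ℂ) * g v -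
      ((G (hlx Q τ x' θ' v) (hly Q τ x' θ' v / L) : ℝ) : ℂ) * g v)‖ ≤ S.card * (η * c) := by
    refine (norm_sum_le _ _).trans ?_
    refine (sum_le_sum (g := fun _ => η * c) fun v hv => ?_).trans ?_
    · rw [← sub_mul, norm_mul, ← Complex.ofReal_sub, Complex.norm_real, Real.norm_eq_abs]
      refine mul_le_mul (h v ?_) (hc v) (norm_nonneg _) hη
      rw [hS, mem_union, Set.Finite.mem_toFinset, Set.Finite.mem_toFinset] at hv
      exact hv
    · rw [sum_const, nsmul_eq_mul]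
  have h2 : 1 / L * ‖∑ v ∈ S, (((G (hlx Q τ x θ v) (hly Q τ x θ v / L) : ℝ) : ℂ) * g v -
      ((G (hlx Q τ x' θ' v) (hly Q τ x' θ' v / L) : ℝ) : ℂ) * g v)‖ ≤
      1 / L * (2 * C * L * (η * c)) := by
    apply mul_le_mul_of_nonneg_left _ (by positivity)
    exact h1.trans (mul_le_mul_of_nonneg_right hcard (by positivity))
  refine h2.trans (le_of_eq ?_)
  field_simp

/-- a bound of the local sums -/
theorem hmm_le (Q : Form) (τ B : ℝ) (C : ℝ) (L : ℝ) (hL : 1 ≤ L)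
    (hC : ∀ x θ : ℝ, (bx Q τ B L x θ).Finite ∧ ((bx Q τ B L x θ).ncard : ℝ) ≤ C * L)
    (G : ℝ → ℝ → ℝ) (hG : Sup B G) (ε : ℝ) (hε : ∀ x y, |G x y| ≤ ε) (g : V → ℂ)
    (hg : ∀ v, g v ≠ 0 → Prim v) (c : ℝ) (hc : ∀ v, ‖g v‖ ≤ c) (x θ : ℝ) :
    ‖hmm Q τ g G L x θ‖ ≤ C * ε * c := by
  have hL0 : 0 < L := by linarith
  have hε0 : 0 ≤ ε := (abs_nonneg _).trans (hε 0 0)
  have hc0 : 0 ≤ c := (norm_nonneg _).trans (hc 0)
  obtain ⟨hfin, hcard⟩ := hC x θ
  rw [hmm_eq Q τ g hg B G hG L x θ hL hfin.toFinset (by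
    intro v hv
    rw [mem_coe, Set.Finite.mem_toFinset]
    exact hv)]
  rw [Set.ncard_eq_toFinset_card _ hfin] at hcard
  rw [norm_mul, norm_div, norm_one, Complex.norm_real, Real.norm_eq_abs, abs_of_pos hL0]
  have h1 : ‖∑ v ∈ hfin.toFinset, ((G (hlx Q τ x θ v) (hly Q τ x θ v / L) : ℝ) : ℂ) * g v‖ ≤
      hfin.toFinset.card * (ε * c) := by
    refine (norm_sum_le _ _).trans ?_
    refine (sum_le_sum (g := fun _ => ε * c) fun v _ => ?_).trans ?_
    · rw [norm_mul, Complex.norm_real, Real.norm_eq_abs]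
      exact mul_le_mul (hε _ _) (hc v) (norm_nonneg _) hε0
    · rw [sum_const, nsmul_eq_mul]
  have h2 : 1 / L * ‖∑ v ∈ hfin.toFinset,
      ((G (hlx Q τ x θ v) (hly Q τ x θ v / L) : ℝ) : ℂ) * g v‖ ≤ 1 / L * (C * L * (ε * c)) := by
    apply mul_le_mul_of_nonneg_left _ (by positivity)
    exact h1.trans (mul_le_mul_of_nonneg_right hcard (by positivity))
  refine h2.trans (le_of_eq ?_)
  field_simp

theorem cosh_le {c : ℝ} (hc : |c| ≤ 1) : |Real.cosh c - 1| ≤ |c| := by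
  refine (ShiftH20.cosh_sub_one hc).trans ?_
  rw [← sq_abs, sq]
  exact mul_le_of_le_one_left (abs_nonneg c) hc

/-- rotation of a vector of the box -/
theorem rot (Q : Form) (τ B L : ℝ) (hB : 1 ≤ B) (hL : 1 ≤ L) (x θ c : ℝ) (hx : 1 ≤ x)
    (hc : |τ * c| ≤ 1) (v : V) (hv : v ∈ bx Q τ B L x θ) :
    |hlx Q τ x (θ + c) v - hlx Q τ x θ v| + |hly Q τ x (θ + c) v / L - hly Q τ x θ v / L| ≤
      6 * (B * L) * x * |τ * c| := by
  obtain ⟨_, h1, h2, h3⟩ := hv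
  have hx0 : 0 < x := by linarith
  have hL0 : 0 < L := by linarith
  have hB0 : 0 < B := by linarith
  have hlx' : |hlx Q τ x θ v| ≤ B := by
    rw [abs_le]
    have : 0 < 1 / B := by positivity
    constructor <;> linarith
  obtain ⟨e1, e2⟩ := hlx_shift Q v τ hx0 θ c
  have hcos := cosh_le hc
  have hsin := ShiftH20.sinh_le hc
  set s : ℝ := |τ * c| with hs
  have hc0 : 0 ≤ s := abs_nonneg _
  have a1 : |hlx Q τ x (θ + c) v - hlx Q τ x θ v| ≤ s * B + 2 * s * (B * L) := by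
    have h4 : hlx Q τ x (θ + c) v - hlx Q τ x θ v =
        (Real.cosh (τ * c) - 1) * hlx Q τ x θ v - Real.sinh (τ * c) * (hly Q τ x θ v / x) := by
      rw [e1]
      ring
    rw [h4]
    refine (abs_sub _ _).trans ?_
    rw [abs_mul, abs_mul]
    have h5 : |hly Q τ x θ v / x| ≤ B * L := by
      rw [abs_div, abs_of_pos hx0, div_le_iff₀ hx0]
      have : B * L ≤ B * L * x := by
        have h6 : 0 ≤ B * L := by positivity
        nlinarith
      linarith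
    exact add_le_add (mul_le_mul hcos hlx' (abs_nonneg _) hc0)
      (mul_le_mul hsin h5 (abs_nonneg _) (by positivity))
  have a2 : |hly Q τ x (θ + c) v / L - hly Q τ x θ v / L| ≤ s * B + 2 * s * (x * B) := by
    have h4 : hly Q τ x (θ + c) v / L - hly Q τ x θ v / L =
        ((Real.cosh (τ * c) - 1) * hly Q τ x θ v - Real.sinh (τ * c) * (x * hlx Q τ x θ v)) / L := by
      rw [e2]
      ring
    rw [h4, abs_div, abs_of_pos hL0, div_le_iff₀ hL0]
    refine (abs_sub _ _).trans ?_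
    rw [abs_mul, abs_mul, abs_mul, abs_of_pos hx0]
    have h5 : |Real.cosh (τ * c) - 1| * |hly Q τ x θ v| ≤ s * (B * L) :=
      mul_le_mul hcos h3 (abs_nonneg _) hc0
    have h6 : |Real.sinh (τ * c)| * (x * |hlx Q τ x θ v|) ≤ 2 * s * (x * B) :=
      mul_le_mul hsin (mul_le_mul_of_nonneg_left hlx' hx0.le) (by positivity) (by positivity)
    have h7 : 2 * s * (x * B) ≤ 2 * s * (x * B) * L := by
      have h8 : 0 ≤ 2 * s * (x * B) := by positivity
      nlinarith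
    nlinarith
  have h6 : 0 ≤ B * L := by positivity
  have h8 : B * L ≤ B * L * x := by nlinarith
  have h9 : B ≤ B * L := by nlinarith
  have b1 : s * B ≤ s * (B * L * x) := mul_le_mul_of_nonneg_left (by linarith) hc0
  have b2 : s * (B * L) ≤ s * (B * L * x) := mul_le_mul_of_nonneg_left h8 hc0
  have b3 : s * (x * B) ≤ s * (B * L * x) := by
    apply mul_le_mul_of_nonneg_left _ hc0
    have h7 : x * B ≤ x * (B * L) := mul_le_mul_of_nonneg_left h9 hx0.le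
    linarith
  nlinarith

/-- scaling of a vector of the box -/
theorem scale (Q : Form) (τ B L : ℝ) (hB : 1 ≤ B) (hL : 1 ≤ L) (x y θ : ℝ)
    (hx : 0 < x) (hxy : x ≤ y) (v : V) (hv : v ∈ bx Q τ B L x θ ∨ v ∈ bx Q τ B L y θ) :
    |hlx Q τ x θ v - hlx Q τ y θ v| + |hly Q τ x θ v / L - hly Q τ y θ v / L| ≤
      2 * B * ((y - x) / x) := by
  have hL0 : 0 < L := by linarith
  have hB0 : 0 < B := by linarith
  have hy : 0 < y := by linarith
  set r : ℝ := √(y / x) with hr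
  have hr1 : 1 ≤ r := Real.one_le_sqrt.2 ((one_le_div hx).2 hxy)
  have hr0 : 0 < r := by linarith
  have hr2 : r ^ 2 = y / x := Real.sq_sqrt (by positivity)
  have hr3 : r - 1 ≤ (y - x) / x := by
    have h1 : (y - x) / x = r ^ 2 - 1 := by
      rw [hr2]
      field_simp
    rw [h1]
    nlinarith
  have hr4 : √(x / y) = 1 / r := by
    rw [hr, ← Real.sqrt_one, ← Real.sqrt_div zero_le_one, one_div_div]
  have hr5 : 1 - 1 / r ≤ r - 1 := by
    have h1 : 1 - 1 / r = (r - 1) / r := by field_simp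
    rw [h1, div_le_iff₀ hr0]
    nlinarith
  have hr6 : 0 ≤ 1 - 1 / r := by
    rw [sub_nonneg, div_le_one hr0]
    exact hr1
  rcases hv with ⟨_, h1, h2, h3⟩ | ⟨_, h1, h2, h3⟩
  · have hlx' : |hlx Q τ x θ v| ≤ B := by
      rw [abs_le]
      have : 0 < 1 / B := by positivity
      constructor <;> linarith
    obtain ⟨e1, e2⟩ := hlx_scale Q v τ hx hy θ
    rw [hr4] at e1
    rw [← hr] at e2
    have a1 : |hlx Q τ x θ v - hlx Q τ y θ v| ≤ B * (r - 1) := by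
      have h4 : hlx Q τ x θ v - hlx Q τ y θ v = hlx Q τ x θ v * (1 - 1 / r) := by
        rw [e1]
        ring
      rw [h4, abs_mul, abs_of_nonneg hr6]
      exact mul_le_mul hlx' hr5 hr6 hB0.le
    have a2 : |hly Q τ x θ v / L - hly Q τ y θ v / L| ≤ B * (r - 1) := by
      have h4 : hly Q τ x θ v / L - hly Q τ y θ v / L = -(hly Q τ x θ v * (r - 1)) / L := by
        rw [e2]
        ring
      rw [h4, abs_div, abs_neg, abs_mul, abs_of_nonneg (by linarith : 0 ≤ r - 1), abs_of_pos hL0,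
        div_le_iff₀ hL0]
      have h5 : |hly Q τ x θ v| * (r - 1) ≤ B * L * (r - 1) :=
        mul_le_mul_of_nonneg_right h3 (by linarith)
      linarith
    nlinarith
  · have hlx' : |hlx Q τ y θ v| ≤ B := by
      rw [abs_le]
      have : 0 < 1 / B := by positivity
      constructor <;> linarith
    obtain ⟨e1, e2⟩ := hlx_scale Q v τ hy hx θ
    rw [← hr] at e1
    rw [hr4] at e2
    have a1 : |hlx Q τ x θ v - hlx Q τ y θ v| ≤ B * (r - 1) := by
      have h4 : hlx Q τ x θ v - hlx Q τ y θ v = hlx Q τ y θ v * (r - 1) := by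
        rw [e1]
        ring
      rw [h4, abs_mul, abs_of_nonneg (by linarith : 0 ≤ r - 1)]
      exact mul_le_mul_of_nonneg_right hlx' (by linarith)
    have a2 : |hly Q τ x θ v / L - hly Q τ y θ v / L| ≤ B * (r - 1) := by
      have h4 : hly Q τ x θ v / L - hly Q τ y θ v / L = -(hly Q τ y θ v * (1 - 1 / r)) / L := by
        rw [e2]
        ring
      rw [h4, abs_div, abs_neg, abs_mul, abs_of_nonneg hr6, abs_of_pos hL0, div_le_iff₀ hL0]
      have h5 : |hly Q τ y θ v| * (1 - 1 / r) ≤ B * L * (r - 1) :=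
        mul_le_mul h3 hr5 hr6 (by positivity)
      linarith
    nlinarith

/-- Lipschitz in the angle -/
theorem lip_ang (Q : Form) (τ B L C : ℝ) (hL : 1 ≤ L) (hC0 : 0 ≤ C)
    (hC : ∀ x θ : ℝ, (bx Q τ B L x θ).Finite ∧ ((bx Q τ B L x θ).ncard : ℝ) ≤ C * L)
    (G : ℝ → ℝ → ℝ) (hG : GT B G) : ∃ D : ℝ, 0 ≤ D ∧ ∀ (g : V → ℂ), (∀ v, g v ≠ 0 → Prim v) →
    ∀ c : ℝ, (∀ v, ‖g v‖ ≤ c) → ∀ x : ℝ, 1 ≤ x → ∀ θ θ' : ℝ,
    ‖hmm Q τ g G L x θ - hmm Q τ g G L x θ'‖ ≤ D * c * x * |θ - θ'| := by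
  have hB := hG.1
  have hS := hG.2.1
  have hB0 : 0 < B := by linarith
  have hL0 : 0 < L := by linarith
  obtain ⟨CG, hCG0, hLip, hbd⟩ := gt_bound28 hG
  refine ⟨12 * C * CG * (B * L) * |τ| + 2 * (C * (CG * (2 * B + 1))) * |τ|, by positivity, ?_⟩
  intro g hg c hc x hx θ θ'
  have hc0 : 0 ≤ c := (norm_nonneg _).trans (hc 0)
  have hx0 : 0 < x := by linarith
  have hpos1 : 0 ≤ 12 * C * CG * (B * L) * |τ| * c * x * |θ - θ'| := by positivity
  have hpos2 : 0 ≤ 2 * (C * (CG * (2 * B + 1))) * |τ| * c * x * |θ - θ'| := by positivity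
  have hexp : (12 * C * CG * (B * L) * |τ| + 2 * (C * (CG * (2 * B + 1))) * |τ|) * c * x *
      |θ - θ'| = 12 * C * CG * (B * L) * |τ| * c * x * |θ - θ'| +
      2 * (C * (CG * (2 * B + 1))) * |τ| * c * x * |θ - θ'| := by ring
  rw [hexp]
  rcases le_or_gt (|τ * (θ - θ')|) 1 with hs | hs
  · have hs' : |τ * (θ' - θ)| ≤ 1 := by
      rw [abs_mul, abs_sub_comm, ← abs_mul]
      exact hs
    have hη : 0 ≤ CG * (6 * (B * L) * x * |τ * (θ - θ')|) := by positivity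
    have h1 := hmm_sub Q τ B C L hL hC G hS g hg c hc x θ x θ'
      (CG * (6 * (B * L) * x * |τ * (θ - θ')|)) hη (by
        intro v hv
        rcases hv with hv | hv
        · have h2 := rot Q τ B L hB hL x θ (θ' - θ) hx hs' v hv
          rw [add_sub_cancel] at h2
          rw [abs_sub_comm]
          refine (hLip _ _ _ _).trans ?_
          apply mul_le_mul_of_nonneg_left _ hCG0
          rw [abs_mul τ, abs_sub_comm θ θ', ← abs_mul]
          exact h2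
        · have h2 := rot Q τ B L hB hL x θ' (θ - θ') hx hs v hv
          rw [add_sub_cancel] at h2
          refine (hLip _ _ _ _).trans ?_
          exact mul_le_mul_of_nonneg_left h2 hCG0)
    refine h1.trans ?_
    have h3 : 2 * C * (CG * (6 * (B * L) * x * |τ * (θ - θ')|)) * c =
        12 * C * CG * (B * L) * |τ| * c * x * |θ - θ'| := by
      rw [abs_mul]
      ring
    rw [h3]
    linarith
  · have h1 := hmm_le Q τ B C L hL hC G hS _ hbd g hg c hc x θ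
    have h2 := hmm_le Q τ B C L hL hC G hS _ hbd g hg c hc x θ'
    have h3 : ‖hmm Q τ g G L x θ - hmm Q τ g G L x θ'‖ ≤
        2 * (C * (CG * (2 * B + 1)) * c) := by
      refine (norm_sub_le _ _).trans ?_
      linarith
    refine h3.trans ?_
    have h4 : 2 * (C * (CG * (2 * B + 1))) * |τ| * c * x * |θ - θ'| =
        2 * (C * (CG * (2 * B + 1)) * c) * (x * |τ * (θ - θ')|) := by
      rw [abs_mul]
      ring
    have h5 : 1 ≤ x * |τ * (θ - θ')| := by nlinarith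
    have h6 : 0 ≤ 2 * (C * (CG * (2 * B + 1)) * c) := by positivity
    have h7 : 2 * (C * (CG * (2 * B + 1)) * c) ≤
        2 * (C * (CG * (2 * B + 1)) * c) * (x * |τ * (θ - θ')|) := by nlinarith
    rw [h4]
    linarith

/-- the action as a bijection -/
noncomputable def actE {d : ℕ} {Q : Form} (hQ : Hyp d Q) (a : Pell.Solution₁ (d : ℤ)) : V ≃ V where
  toFun := act Q a
  invFun := act Q a⁻¹
  left_inv v := by rw [← act_mul hQ, inv_mul_cancel, act_one]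
  right_inv v := by rw [← act_mul hQ, mul_inv_cancel, act_one]

/-- periodicity -/
theorem hmm_per {d : ℕ} {Q : Form} (hQ : Hyp d Q) {a : Pell.Solution₁ (d : ℤ)} (ha : PP a)
    (g : V → ℂ) (hg : AI Q a g) (G : ℝ → ℝ → ℝ) (L x θ : ℝ) :
    hmm Q (tauH a) g G L x (θ + 2 * Real.pi) = hmm Q (tauH a) g G L x θ := by
  unfold hmm
  congr 1
  rw [← (actE hQ a).tsum_eq]
  apply tsum_congr
  intro v
  show ((G (hlx Q (tauH a) x (θ + 2 * Real.pi) (act Q a v))
    (hly Q (tauH a) x (θ + 2 * Real.pi) (act Q a v) / L) : ℝ) : ℂ) * g (act Q a v) = _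
  obtain ⟨e1, e2⟩ := hlx_per hQ ha v x θ
  rw [e1, e2, hg v]

/-- slow variation in `x` -/
theorem sv_x (Q : Form) (τ B L C : ℝ) (hL : 1 ≤ L)
    (hC : ∀ x θ : ℝ, (bx Q τ B L x θ).Finite ∧ ((bx Q τ B L x θ).ncard : ℝ) ≤ C * L)
    (G : ℝ → ℝ → ℝ) (hG : GT B G) (CG : ℝ) (hCG0 : 0 ≤ CG)
    (hLip : ∀ x y x' y', |G x y - G x' y'| ≤ CG * (|x - x'| + |y - y'|))
    (g : V → ℂ) (hg : ∀ v, g v ≠ 0 → Prim v) (c : ℝ) (hc : ∀ v, ‖g v‖ ≤ c) (x y θ : ℝ)
    (hx : 1 ≤ x) (hxy : x ≤ y) :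
    ‖hmm Q τ g G L x θ - hmm Q τ g G L y θ‖ ≤ 4 * C * CG * B * c * (y - x) / x := by
  have hB := hG.1
  have hS := hG.2.1
  have hB0 : 0 < B := by linarith
  have hx0 : 0 < x := by linarith
  have hyx : 0 ≤ (y - x) / x := div_nonneg (by linarith) hx0.le
  have hη : 0 ≤ CG * (2 * B * ((y - x) / x)) := by positivity
  have h1 := hmm_sub Q τ B C L hL hC G hS g hg c hc x θ y θ (CG * (2 * B * ((y - x) / x)))
    hη (by
      intro v hv
      refine (hLip _ _ _ _).trans ?_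
      exact mul_le_mul_of_nonneg_left (scale Q τ B L hB hL x y θ hx0 hxy v hv) hCG0)
  refine h1.trans (le_of_eq ?_)
  ring

end Mg46

open Mg46

/-- E4 -/
theorem stHMg_46 (hCnt : StHCnt) : StHMg := by
  intro d Q hQ a ha B G hG g hcg hg hAI L hL
  obtain ⟨c, hc⟩ := hcg
  have hB := hG.1
  have hS := hG.2.1
  have hB0 : 0 < B := by linarith
  have hL0 : 0 < L := by linarith
  have hc0 : 0 ≤ c := (norm_nonneg _).trans (hc 0)
  obtain ⟨CG, hCG0, hLip, hbd⟩ := gt_bound28 hG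
  obtain ⟨C, hC⟩ := hCnt d Q hQ B hB
  have hC0 : 0 ≤ C := by
    have h1 := (hC 0 1 le_rfl 0 0).2
    have h2 : (0 : ℝ) ≤ (({v : V | Prim v ∧ 1 / B ≤ hlx Q 0 0 0 v ∧ hlx Q 0 0 0 v ≤ B ∧
      |hly Q 0 0 0 v| ≤ B * 1}.ncard : ℕ) : ℝ) := Nat.cast_nonneg _
    linarith
  have hCb : ∀ x θ : ℝ, (bx Q (tauH a) B L x θ).Finite ∧
      ((bx Q (tauH a) B L x θ).ncard : ℝ) ≤ C * L := fun x θ => hC (tauH a) L hL x θ
  refine ⟨?_, ?_, ?_, ?_⟩
  · exact ⟨_, fun x θ => hmm_le Q (tauH a) B C L hL hCb G hS _ hbd g hg c hc x θ⟩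
  · exact fun x θ => hmm_per hQ ha g hAI G L x θ
  · obtain ⟨D, _, hD⟩ := lip_ang Q (tauH a) B L C hL hC0 hCb G hG
    exact ⟨D * c, 1, le_rfl, fun x hx θ θ' => hD g hg c hc x hx θ θ'⟩
  · exact ⟨4 * C * CG * B * c, 1, le_rfl, fun x y θ hx hxy =>
      sv_x Q (tauH a) B L C hL hCb G hG CG hCG0 hLip g hg c hc x y θ hx hxy⟩

end Pool.Agent.Lib.MP_a17b09_nt.HY
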