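import Pool.Agent.Lib.MP_a17b09_nt.HY.Stmts20

/-!
Project HY, (F6): the number of pairs is `O(N)`.
-/

set_option autoImplicit false

open Filter Topology Finset

namespace Pool.Agent.Lib.MP_a17b09_nt.HY

open Pool.Agent.Lib.MP_a17b09_nt.CH

namespace On93

/-- positivity for large `t` -/
theorem large (a b c : ℤ) (ha : 0 < a) : ∃ t1 : ℕ, 0 < t1 ∧ ∀ t : ℕ, t1 ≤ t →
    0 < fv a b c t ∧ 0 < 2 * a * (t : ℤ) + b := by
  refine ⟨b.natAbs + c.natAbs + 1, by omega, fun t ht => ?_⟩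
  have h1 : (|b| + |c| + 1 : ℤ) ≤ t := by
    have h : ((b.natAbs + c.natAbs + 1 : ℕ) : ℤ) ≤ t := by exact_mod_cast ht
    push_cast at h
    exact h
  have hb := abs_nonneg b
  have hc := abs_nonneg c
  have h2 : 1 ≤ (t : ℤ) := by linarith
  have h3 := neg_abs_le b
  have h4 := neg_abs_le c
  have e1 : 0 ≤ (a - 1) * (t : ℤ) ^ 2 := mul_nonneg (by linarith) (sq_nonneg _)
  have e2 : 0 ≤ (b + |b|) * (t : ℤ) := mul_nonneg (by linarith) (by linarith)
  have e3 : 0 ≤ |c| * ((t : ℤ) - 1) := mul_nonneg hc (by linarith)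
  have e4 : 0 ≤ (t : ℤ) * ((t : ℤ) - |b| - |c| - 1) := mul_nonneg (by linarith) (by linarith)
  have e5 : 0 ≤ (a - 1) * (t : ℤ) := mul_nonneg (by linarith) (by linarith)
  constructor
  · unfold fv
    nlinarith
  · nlinarith

/-- every form is represented by a frame -/
theorem frame {d : ℕ} {ι : Type} [Fintype ι] (S : HSystem ι) (w : ι → ℕ) (T : ℝ)
    (hS : ∀ F : Form, 0 < F.a → 0 < F.b → 0 < F.c → F.D = -(d : ℤ) →
    ∑ i, (({f : V × V | wd f.1 f.2 = 1 ∧ Sec (S.Q i) T f.1 ∧ Cn (S.Q i) f.2 ∧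
      (S.Q i).q f.1 = F.a ∧ (S.Q i).B f.1 f.2 = F.b ∧ (S.Q i).q f.2 = F.c}.ncard : ℂ) / w i) = 1)
    (F : Form) (h1 : 0 < F.a) (h2 : 0 < F.b) (h3 : 0 < F.c) (h4 : F.D = -(d : ℤ)) :
    ∃ i, ∃ f : V × V, wd f.1 f.2 = 1 ∧ Sec (S.Q i) T f.1 ∧ Cn (S.Q i) f.2 ∧
      (S.Q i).q f.1 = F.a ∧ (S.Q i).B f.1 f.2 = F.b ∧ (S.Q i).q f.2 = F.c := by
  by_contra hc
  have h5 := hS F h1 h2 h3 h4
  rw [Finset.sum_eq_zero] at h5
  · norm_num at h5
  · intro i _
    have h6 : {f : V × V | wd f.1 f.2 = 1 ∧ Sec (S.Q i) T f.1 ∧ Cn (S.Q i) f.2 ∧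
      (S.Q i).q f.1 = F.a ∧ (S.Q i).B f.1 f.2 = F.b ∧ (S.Q i).q f.2 = F.c} = ∅ := by
      ext f
      simp only [Set.mem_setOf_eq, Set.mem_empty_iff_false, iff_false]
      exact fun h => hc ⟨i, f, h⟩
    rw [h6, Set.ncard_empty]
    simp

/-- the form of a pair -/
theorem form {a b c : ℤ} {d : ℕ} (hd : b ^ 2 - 4 * a * c = d) {t e : ℕ} (he : e ∣ (fv a b c t).natAbs)
    (ha : 0 < a) (hf : 0 < fv a b c t) (hB : 0 < 2 * a * (t : ℤ) + b) :
    ∃ F : Form, 0 < F.a ∧ 0 < F.b ∧ 0 < F.c ∧ F.D = -(d : ℤ) ∧ F.a = e ∧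
      F.b = 2 * a * (t : ℤ) + b ∧ (e : ℤ) * F.c = a * fv a b c t := by
  have h1 : (e : ℤ) ∣ fv a b c t := Int.natCast_dvd.2 he
  obtain ⟨g, hg⟩ := h1
  have he0 : 0 < (e : ℤ) := by
    rcases Nat.eq_zero_or_pos e with h0 | h0
    · rw [h0] at hg
      simp only [Nat.cast_zero, zero_mul] at hg
      omega
    · exact_mod_cast h0
  have hg0 : 0 < g := by
    rw [hg] at hf
    exact (mul_pos_iff_of_pos_left he0).1 hf
  refine ⟨⟨e, 2 * a * (t : ℤ) + b, a * g⟩, he0, hB, mul_pos ha hg0, ?_, rfl, rfl, ?_⟩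
  · unfold Form.D
    simp only
    rw [← hd]
    have h2 : (e : ℤ) * g = a * (t : ℤ) ^ 2 + b * t + c := by rw [← hg]; rfl
    linear_combination 4 * a * h2
  · simp only
    rw [hg]
    ring

end On93

/-- (F6) -/
theorem stHOn_93 (hS : StHSys) (hU : StHup) : StHOn := by
  intro a b c ha d hd hns h _ t0 α β hα hαβ
  obtain ⟨ι, _, S, w, s, hSd, hPP, -, -, hF⟩ := hS d hns
  obtain ⟨t1, ht1, hpos⟩ := On93.large a b c ha
  have hβ : 0 < β := hα.trans hαβ
  set T : ℝ := per s with hT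
  have hT0 : 0 < T := per_pos hPP
  -- the constants
  have hup : ∀ i, ∃ C : ℝ, 0 < C ∧ ∀ n s1 s2 : ℝ, 1 ≤ n → s1 ≤ s2 →
      ((HF (S.Q i) T n s1 s2).ncard : ℝ) ≤ C * (s2 - s1 + 1) * n := by
    intro i
    obtain ⟨-, C, hC, h1, -⟩ := hU S.d (S.Q i) (S.hyp i) T hT0
    exact ⟨C, hC, h1⟩
  choose C hC hCle using hup
  have hfin : ∀ i, ∀ n s1 s2 : ℝ, (HF (S.Q i) T n s1 s2).Finite := fun i =>
    (hU S.d (S.Q i) (S.hyp i) T hT0).1
  set s2 : ℝ := (2 * a + |(b : ℝ)|) / (2 * α) with hs2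
  have ha' : (0 : ℝ) < a := by exact_mod_cast ha
  have hs2' : 0 ≤ s2 := by
    rw [hs2]; positivity
  set C1 : ℝ := ∑ i, C i * (s2 - 0 + 1) with hC1
  have hC1' : 0 ≤ C1 := sum_nonneg fun i _ => mul_nonneg (hC i).le (by linarith)
  set C0 : ℕ := ∑ t ∈ range t1, (nearG a b c α β t).card with hC0
  refine ⟨C0 + C1 * (β + 1), fun N => ?_⟩
  rcases Nat.eq_zero_or_pos N with hN | hN
  · subst hN
    simp
  have hN' : (1 : ℝ) ≤ N := by exact_mod_cast hN
  -- the set of pairs with `t ≥ t1`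
  classical
  set P : Finset ((_ : ℕ) × ℕ) := ((Finset.Icc 1 N).filter (fun t => t1 ≤ t)).sigma
    (fun t => nearG a b c α β t) with hP
  have hP1 : (∑ t ∈ (Finset.Icc 1 N).filter (fun t => t ≡ t0 [MOD h]), (nearG a b c α β t).card) ≤
      C0 + P.card := by
    rw [hP, card_sigma, hC0, ← sum_filter_add_sum_filter_not
      ((Finset.Icc 1 N).filter (fun t => t ≡ t0 [MOD h])) (fun t => t < t1)]
    apply Nat.add_le_add
    · apply sum_le_sum_of_subset
      intro t ht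
      rw [mem_filter] at ht
      exact mem_range.2 ht.2
    · apply sum_le_sum_of_subset
      intro t ht
      rw [mem_filter, mem_filter] at ht
      rw [mem_filter]
      exact ⟨ht.1.1, not_lt.1 ht.2⟩
  -- the frames
  set n : ℝ := β * N + 1 with hn
  have hn1 : 1 ≤ n := by
    have : 0 ≤ β * N := by positivity
    linarith
  set R : Finset (ℤ × ℤ) := (Finset.univ : Finset ι).biUnion (fun i =>
    ((hfin i n 0 s2).toFinset).image (fun f => ((S.Q i).B f.1 f.2, (S.Q i).q f.1))) with hR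
  have hR1 : (R.card : ℝ) ≤ C1 * n := by
    have h1 : R.card ≤ ∑ i, (HF (S.Q i) T n 0 s2).ncard := by
      refine card_biUnion_le.trans (sum_le_sum fun i _ => ?_)
      refine card_image_le.trans (le_of_eq ?_)
      rw [Set.ncard_eq_toFinset_card _ (hfin i n 0 s2)]
    have h2 : (R.card : ℝ) ≤ ∑ i, ((HF (S.Q i) T n 0 s2).ncard : ℝ) := by exact_mod_cast h1
    refine h2.trans ?_
    rw [hC1, sum_mul]
    exact sum_le_sum fun i _ => hCle i n 0 s2 hn1 hs2'
  have hPR : P.card ≤ R.card := by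
    apply card_le_card_of_injOn (fun x : ((_ : ℕ) × ℕ) => ((2 * a * (x.1 : ℤ) + b, (x.2 : ℤ)) : ℤ × ℤ))
    · rintro ⟨t, e⟩ hx
      rw [mem_coe, hP, mem_sigma, mem_filter, mem_Icc] at hx
      obtain ⟨⟨⟨hx1, hx2⟩, hx3⟩, hx4⟩ := hx
      simp only at hx1 hx2 hx3 hx4
      unfold nearG at hx4
      rw [mem_filter, Nat.mem_divisors] at hx4
      obtain ⟨⟨hx5, -⟩, hx6, hx7⟩ := hx4
      obtain ⟨hp1, hp2⟩ := hpos t hx3
      obtain ⟨F, f1, f2, f3, f4, f5, f6, -⟩ := On93.form hd hx5 ha hp1 hp2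
      obtain ⟨i, f, g1, g2, g3, g4, g5, -⟩ := On93.frame S w T
        (fun F q1 q2 q3 q4 => (hF F q1 q2 q3 q4).2) F f1 f2 f3 f4
      simp only [hR, coe_biUnion, Set.mem_iUnion, coe_image, Set.mem_image, mem_coe, mem_univ,
        Set.Finite.mem_toFinset]
      refine ⟨i, trivial, f, ?_, ?_⟩
      · have hx2' : (t : ℝ) ≤ N := by exact_mod_cast hx2
        have ht0 : (0 : ℝ) ≤ t := Nat.cast_nonneg t
        have hq : ((S.Q i).q f.1 : ℝ) = e := by
          rw [g4, f5]; push_cast; ring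
        have hBf : ((S.Q i).B f.1 f.2 : ℝ) = 2 * a * t + b := by
          rw [g5, f6]; push_cast; ring
        refine ⟨g1, g2, g3, ?_, ?_, ?_⟩
        · rw [hq]
          have : β * t ≤ β * N := mul_le_mul_of_nonneg_left hx2' hβ.le
          linarith
        · rw [hBf]
          have h5 : (0 : ℝ) < 2 * a * t + b := by exact_mod_cast hp2
          linarith
        · rw [hBf, hq, hs2]
          have h5 : 2 * ((2 * a + |(b : ℝ)|) / (2 * α)) * (e : ℝ) =
              (2 * a + |(b : ℝ)|) * (e / α) := by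
            field_simp
          rw [h5]
          have h6 : (t : ℝ) ≤ e / α := by
            rw [le_div_iff₀ hα]; linarith
          have h7 : (2 * a + |(b : ℝ)|) * t ≤ (2 * a + |(b : ℝ)|) * (e / α) :=
            mul_le_mul_of_nonneg_left h6 (by positivity)
          have h8 : (b : ℝ) ≤ |(b : ℝ)| * t := by
            have h9 : (1 : ℝ) ≤ t := by exact_mod_cast hx1
            have h10 : |(b : ℝ)| * 1 ≤ |(b : ℝ)| * t :=
              mul_le_mul_of_nonneg_left h9 (abs_nonneg _)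
            linarith [le_abs_self (b : ℝ)]
          linarith
      · rw [g4, g5, f5, f6]
    · rintro ⟨t, e⟩ _ ⟨t', e'⟩ _ hx
      simp only [Prod.mk.injEq, add_left_inj, Nat.cast_inj] at hx
      obtain ⟨h1, h2⟩ := hx
      have h3 : (t : ℤ) = t' := by
        have h4 : 2 * a * ((t : ℤ) - t') = 0 := by linarith
        rcases mul_eq_zero.1 h4 with h5 | h5
        · omega
        · omega
      have h4 : t = t' := by exact_mod_cast h3
      subst h4
      subst h2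
      rfl
  have h1 : ((∑ t ∈ (Finset.Icc 1 N).filter (fun t => t ≡ t0 [MOD h]),
      (nearG a b c α β t).card : ℕ) : ℝ) ≤ C0 + C1 * n := by
    have h2 : ((∑ t ∈ (Finset.Icc 1 N).filter (fun t => t ≡ t0 [MOD h]),
      (nearG a b c α β t).card : ℕ) : ℝ) ≤ ((C0 + R.card : ℕ) : ℝ) := by
      exact_mod_cast hP1.trans (Nat.add_le_add_left hPR C0)
    push_cast at h2 ⊢
    linarith
  have h2 : (C0 : ℝ) * 1 ≤ C0 * N := mul_le_mul_of_nonneg_left hN' (Nat.cast_nonneg _)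
  have h3 : C1 * n ≤ C1 * ((β + 1) * N) := by
    apply mul_le_mul_of_nonneg_left _ hC1'
    rw [hn]; nlinarith
  calc _ ≤ (C0 : ℝ) + C1 * n := h1
    _ ≤ C0 * N + C1 * ((β + 1) * N) := by linarith
    _ = (C0 + C1 * (β + 1)) * N := by ring

end Pool.Agent.Lib.MP_a17b09_nt.HY
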