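import Pool.Agent.Lib.MP_a17b09_nt.HY.PairW97

/-!
Project HY, E17: the statement `StHPair`.
-/

set_option autoImplicit false

open Filter Topology Finset

namespace Pool.Agent.Lib.MP_a17b09_nt.HY

open Pool.Agent.Lib.MP_a17b09_nt.CH
open Pool.Agent.Lib.MP_a17b09_nt.CH.PE
open P97

/-- E17 -/
theorem stHPair_97 : StHPair := by
  intro d hd τ δ h hτ hδ hδ1 ht
  obtain ⟨⟨C0, hC0⟩, hs⟩ := ht
  have hd0 : 0 < d := by
    rcases Nat.eq_zero_or_pos d with h0 | h0
    · exact absurd (h0 ▸ (⟨0, rfl⟩ : IsSquare (0 : ℕ))) hd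
    · exact h0
  set κ : ℝ := √(d : ℝ) / 2 with hκd
  have hκ : 0 < κ := by
    have : 0 < √(d : ℝ) := Real.sqrt_pos.2 (by exact_mod_cast hd0)
    positivity
  obtain ⟨Ch, hCh, hl, hh⟩ : ∃ Ch : ℝ, 0 ≤ Ch ∧
      (∀ x y x' y', |h x y - h x' y'| ≤ Ch * (|x - x'| + |y - y'|)) ∧ ∀ x y, |h x y| ≤ Ch := by
    have hl : ∀ x y x' y', |h x y - h x' y'| ≤ |C0| * (|x - x'| + |y - y'|) := by
      intro x y x' y'
      refine (hC0 x y x' y').trans ?_
      exact mul_le_mul_of_nonneg_right (le_abs_self _) (by positivity)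
    refine ⟨|C0|, abs_nonneg _, hl, fun x y => ?_⟩
    by_cases h0 : h x y = 0
    · rw [h0, abs_zero]; exact abs_nonneg _
    · obtain ⟨h1, h2, h3, h4⟩ := hs _ _ h0
      have h5 : h 0 y = 0 := by
        by_contra hc
        have := (hs _ _ hc).1
        linarith
      have h6 := hl x y 0 y
      rw [h5, sub_zero, sub_zero, sub_self, abs_zero, add_zero] at h6
      refine h6.trans ?_
      rw [abs_of_pos (by linarith : (0 : ℝ) < x)]
      exact mul_le_of_le_one_right (abs_nonneg _) h2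
  set C : ℝ := (Ch + 3) * (1 + 1 / τ) with hCd
  have hτi : 0 < 1 / τ := by positivity
  have hC3 : Ch + 3 ≤ C := by
    rw [hCd]
    nlinarith
  have hCτ : (Ch + 3) * (1 / τ) ≤ C := by
    rw [hCd]
    nlinarith
  have hCp : 0 < C := by linarith
  refine ⟨C, by linarith, fun ε hε hε2 => ?_⟩
  obtain ⟨M, J, hM1, hM2, hM3, hMN, hJ1, hE1⟩ := mesh72 hκ hδ hε hCh
  have hMp : (0 : ℝ) < M := Nat.cast_pos.2 hMN
  have hMge : (1 : ℝ) ≤ M := by exact_mod_cast hMN
  obtain ⟨r, G1, G2, B, hGT, hsum⟩ := kr72_prod (h := h) (κ := κ) (ε := ε) (δ := δ) (M := M)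
    (J := J) hδ hδ1 hs hM1
  refine ⟨r, G1, G2, B, hGT, fun Q hQ P hP => ?_⟩
  have hPp : 0 < P := by linarith
  set c : ℝ := P / M with hc
  have hcp : 0 < c := by positivity
  have hcM : c * M = P := by rw [hc]; field_simp
  obtain ⟨n1, hn1, hwint⟩ := wh_asym hcp hε
  set S : ℝ := 5 / 4 * (2 * κ / δ ^ 2 + 1) with hS
  set S2 : ℝ := (2 * κ + 4) * 3 / δ with hS2
  have hSp : 0 < S := by positivity
  have hS2p : 0 < S2 := by positivity
  set w : ℝ := 1 + S + S2 with hw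
  have hw1 : 1 ≤ w := by linarith
  obtain ⟨n0, hn0⟩ := exists_nat_ge (max n1 (100 * (P * w) ^ 2 / (δ ^ 2 * ε)))
  refine ⟨n0, fun n hn v v' I hI => ?_⟩
  have hnn : (n0 : ℝ) ≤ n := by exact_mod_cast hn
  have hnn1 : n1 ≤ n := (le_max_left _ _).trans (hn0.trans hnn)
  have hn1' : (1 : ℝ) ≤ n := hn1.trans hnn1
  have hnp : (0 : ℝ) < n := by linarith
  have hnbig : 100 * (P * w) ^ 2 / (δ ^ 2 * ε) ≤ n := (le_max_right _ _).trans (hn0.trans hnn)
  set t : ℝ := P * w / n with htd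
  have htp : 0 < t := by positivity
  have ht2 : t ^ 2 ≤ δ ^ 2 * ε / 100 := by
    rw [div_le_iff₀ (by positivity)] at hnbig
    rw [htd, div_pow, div_le_div_iff₀ (by positivity) (by norm_num)]
    have h1 : (n : ℝ) ≤ (n : ℝ) ^ 2 := le_self_pow₀ hn1' two_ne_zero
    have h2 : δ ^ 2 * ε * n ≤ δ ^ 2 * ε * (n : ℝ) ^ 2 :=
      mul_le_mul_of_nonneg_left h1 (by positivity)
    linarith
  have hδ2 : δ ^ 2 ≤ 1 := pow_le_one₀ hδ.le hδ1
  have hδ2p : 0 < δ ^ 2 := by positivity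
  have ht3 : t ^ 2 ≤ δ ^ 2 / 200 := by
    have h1 : δ ^ 2 * ε ≤ δ ^ 2 * (1 / 2) := mul_le_mul_of_nonneg_left hε2.le hδ2p.le
    linarith
  -- small terms
  have small1 : ∀ y : ℝ, |y| ≤ 2 * P → |y / n| ≤ 2 * t := by
    intro y hy
    rw [abs_div, abs_of_pos hnp, div_le_iff₀ hnp]
    have : 2 * t * n = 2 * (P * w) := by rw [htd]; field_simp
    rw [this]
    have h1 : P ≤ P * w := le_mul_of_one_le_right hPp.le hw1
    linarith
  have small2 : ∀ y : ℝ, |y| ≤ P * S → |y / n| ≤ t := by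
    intro y hy
    rw [abs_div, abs_of_pos hnp, div_le_iff₀ hnp]
    have : t * n = P * w := by rw [htd]; field_simp
    rw [this]
    refine hy.trans (mul_le_mul_of_nonneg_left (by linarith) hPp.le)
  have hpi := Real.pi_pos
  have hpi3 := Real.pi_gt_three
  -- the integrand
  set Φ : ℝ → ℝ := fun θ => kr72 h κ ε δ M J (hlx Q τ n θ v) (hly Q τ n θ v / P)
    (hlx Q τ n θ v') (hly Q τ n θ v' / P) with hΦd
  have hI' : I = (1 / (2 * Real.pi)) * ∫ θ : ℝ, Φ θ := by
    rw [hI]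
    congr 1
    apply MeasureTheory.integral_congr_ae
    refine Filter.Eventually.of_forall fun θ => ?_
    exact hsum _ _ _ _
  have hΦc : Continuous Φ := by
    have e : Φ = fun θ => ∑ j, G1 j (hlx Q τ n θ v) (hly Q τ n θ v / P) *
        G2 j (hlx Q τ n θ v') (hly Q τ n θ v' / P) := by
      funext θ
      exact (hsum _ _ _ _).symm
    rw [e]
    exact continuous_finsetSum _ fun j _ =>
      (lip_cont72 (hGT j).1.2.2 (hlx_cont Q τ n v) ((hly_cont Q τ n v).div_const P)).mul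
        (lip_cont72 (hGT j).2.2.2 (hlx_cont Q τ n v') ((hly_cont Q τ n v').div_const P))
  have hdet : ∀ θ, hlx Q τ n θ v * (hly Q τ n θ v' / P) - hlx Q τ n θ v' * (hly Q τ n θ v / P) =
      κ * wd v v' / P := by
    intro θ
    have h2 := hlx_det hQ v v' τ hnp θ
    rw [← h2]
    ring
  have hnorm : ∀ (u : V) θ, hlx Q τ n θ u ^ 2 - (hly Q τ n θ u / n) ^ 2 = Q.q u / n :=
    fun u θ => hlx_quad hQ u τ hnp θ
  have hsup : ∀ θ, Φ θ ≠ 0 → (Cn Q v ∧ Cn Q v' ∧ (δ / 2) ^ 2 * n ≤ Q.q v ∧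
      (Q.q v : ℝ) ≤ 4 * n ∧ (δ / 2) ^ 2 * n ≤ Q.q v' ∧ (Q.q v' : ℝ) ≤ 4 * n ∧ 0 < wd v v' ∧
      (wd v v' : ℝ) ≤ C * P) ∧ (1 - ε) * P < (wd v v' : ℝ) ∧
      (wd v v' : ℝ) < (2 + ε) * P := by
    intro θ hθ
    obtain ⟨x1, x2, x1', x2', _, s1, s1', D1, D2⟩ := kr72_supp hκ hε hδ hδ1 hs hM1 hM2 hθ
    rw [hdet] at D1 D2
    have hw1' : (1 - ε) * P < (wd v v' : ℝ) := by
      rw [lt_div_iff₀ hPp] at D1
      have : κ * ((1 - ε) * P) < κ * wd v v' := by linarith
      exact lt_of_mul_lt_mul_left this hκ.le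
    have hw2' : (wd v v' : ℝ) < (2 + ε) * P := by
      rw [div_lt_iff₀ hPp] at D2
      have : κ * wd v v' < κ * ((2 + ε) * P) := by linarith
      exact lt_of_mul_lt_mul_left this hκ.le
    have y1 : |hly Q τ n θ v / n| ≤ 2 * t := by
      apply small1
      rw [abs_div, abs_of_pos hPp, div_le_iff₀ hPp] at s1
      have : 2 / (M : ℝ) ≤ 2 := by rw [div_le_iff₀ hMp]; linarith
      exact s1.trans (mul_le_mul_of_nonneg_right this hPp.le)
    have y2 : |hly Q τ n θ v' / n| ≤ t := by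
      apply small2
      rw [abs_div, abs_of_pos hPp, div_le_iff₀ hPp] at s1'
      rw [mul_comm P S]
      exact s1'
    have q1 := real_c hnp hδ hδ1 ht3 x1 x2 y1 (hnorm v θ)
    have q2 := real_c hnp hδ hδ1 ht3 x1' x2' (y2.trans (by linarith)) (hnorm v' θ)
    refine ⟨⟨cn_of_local Q τ θ hnp v q1.2.2, cn_of_local Q τ θ hnp v' q2.2.2, q1.1, q1.2.1,
      q2.1, q2.2.1, ?_, ?_⟩, hw1', hw2'⟩
    · have : (0 : ℝ) < wd v v' := lt_trans (mul_pos (by linarith) hPp) hw1'
      exact_mod_cast this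
    · have i1 : (2 + ε) * P ≤ C * P := mul_le_mul_of_nonneg_right (by linarith) hPp.le
      linarith
  have hnIz : (∀ θ, Φ θ = 0) → I = 0 := by
    intro hz
    rw [hI']
    have : (fun θ => Φ θ) = fun _ => (0 : ℝ) := funext hz
    rw [this]
    simp
  refine ⟨fun hEE => hnIz fun θ => by
      by_contra h0
      exact hEE (hsup θ h0).1, fun hv hv' => ?_⟩
  -- the window
  set ψ : ℝ := ps Q v with hψ
  set W : ℝ → ℝ := fun θ => wh n c (ψ - τ * θ) with hWd
  have hx0 : ∀ θ, 0 < hlx Q τ n θ v := fun θ => (ratio_local hQ hv τ θ hnp).1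
  have hx0' : ∀ θ, 0 < hlx Q τ n θ v' := fun θ => (ratio_local hQ hv' τ θ hnp).1
  have hW : ∀ θ, W θ = Hat72 (M * (hly Q τ n θ v / P) / hlx Q τ n θ v) := by
    intro θ
    show wh n c (ψ - τ * θ) = _
    unfold wh
    rw [← (ratio_local hQ hv τ θ hnp).2]
    congr 1
    rw [hc]
    field_simp
  have hΦle : ∀ θ, |Φ θ| ≤ M * Ch * W θ := by
    intro θ
    rw [hW]
    have := kr72_le (h := h) (κ := κ) (ε := ε) (δ := δ) (M := M) (J := J) hCh hh hs
      (hlx Q τ n θ v) (hly Q τ n θ v / P) (hlx Q τ n θ v') (hly Q τ n θ v' / P)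
    calc |Φ θ| ≤ _ := this
      _ = _ := by ring
  obtain ⟨hwi, hWn⟩ := hwint n hnn1
  obtain ⟨hWi, hWsh⟩ := wh_shift n c ψ hτ hwi
  have hΦi : MeasureTheory.Integrable Φ := by
    apply (hWi.const_mul (M * Ch)).mono' hΦc.aestronglyMeasurable
    refine Filter.Eventually.of_forall fun θ => ?_
    rw [Real.norm_eq_abs]
    exact hΦle θ
  set W0 : ℝ := ∫ θ : ℝ, W θ with hW0
  have hW00 : 0 ≤ W0 := MeasureTheory.integral_nonneg fun θ => wh_nonneg _ _ _
  have hnW0 : n * W0 = (1 / τ) * (n * ∫ u : ℝ, wh n c u) := by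
    rw [hWsh]
    ring
  have hWn2 := abs_le.1 hWn
  have hnW : n * W0 ≤ (1 / τ) * (3 / 2 * c) := by
    rw [hnW0]
    apply mul_le_mul_of_nonneg_left _ hτi.le
    have h1 : ε * c ≤ 1 / 2 * c := mul_le_mul_of_nonneg_right hε2.le hcp.le
    linarith [hWn2.2]
  have hcomp : ∀ H E : ℝ, (∀ θ, |Φ θ - M * W θ * H| ≤ M * W θ * E) →
      |n * (∫ θ : ℝ, Φ θ) - M * (n * W0) * H| ≤ M * (n * W0) * E := by
    intro H E hb
    have e1 : n * (∫ θ : ℝ, Φ θ) - M * (n * W0) * H =
        n * ∫ θ : ℝ, (Φ θ - M * H * W θ) := by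
      rw [MeasureTheory.integral_sub hΦi (hWi.const_mul _),
        MeasureTheory.integral_const_mul, ← hW0]
      ring
    rw [e1, abs_mul, abs_of_pos hnp]
    have e2 : |∫ θ : ℝ, (Φ θ - M * H * W θ)| ≤ ∫ θ : ℝ, M * E * W θ := by
      rw [← Real.norm_eq_abs]
      apply MeasureTheory.norm_integral_le_of_norm_le (hWi.const_mul _)
      refine Filter.Eventually.of_forall fun θ => ?_
      have := hb θ
      rw [Real.norm_eq_abs]
      calc |Φ θ - M * H * W θ| = |Φ θ - M * W θ * H| := by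
            congr 1; ring
        _ ≤ _ := this
        _ = _ := by ring
    rw [MeasureTheory.integral_const_mul, ← hW0] at e2
    calc n * |∫ θ : ℝ, (Φ θ - M * H * W θ)|
        ≤ n * (M * E * W0) := mul_le_mul_of_nonneg_left e2 hnp.le
      _ = M * (n * W0) * E := by ring
  have hrhs : 0 ≤ P * (C * ε + (if |(wd v v' : ℝ) - P| ≤ ε * P ∨
      |(wd v v' : ℝ) - 2 * P| ≤ ε * P then C else 0)) := by
    split_ifs <;> positivity
  by_cases hEE : (δ / 2) ^ 2 * n ≤ Q.q v ∧ (Q.q v : ℝ) ≤ 4 * n ∧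
      (δ / 2) ^ 2 * n ≤ Q.q v' ∧ (Q.q v' : ℝ) ≤ 4 * n
  swap
  · have hz : I = 0 := hnIz fun θ => by
      by_contra h0
      obtain ⟨_, _, a3, a4, a5, a6, _⟩ := (hsup θ h0).1
      exact hEE ⟨a3, a4, a5, a6⟩
    rw [hz, mul_zero, zero_sub, abs_neg]
    have hz2 : (if P < (wd v v' : ℝ) ∧ (wd v v' : ℝ) ≤ 2 * P then
        h (Q.nr n v) (Q.nr n v') else 0) = 0 := by
      by_contra h0
      apply hEE
      split_ifs at h0 with h1
      · obtain ⟨g1, g2, g3, g4⟩ := hs _ _ h0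
        have b1 := real_e hQ hv hnp hδ g1 g2
        have b2 := real_e hQ hv' hnp hδ g3 g4
        exact ⟨b1.1, b1.2, b2.1, b2.2⟩
      · exact absurd rfl h0
    rw [hz2, mul_zero, abs_zero]
    exact hrhs
  obtain ⟨E1, E2, E3, E4⟩ := hEE
  have hMW : M * (n * W0) ≤ (1 / τ) * (3 / 2 * P) := by
    calc M * (n * W0) ≤ M * ((1 / τ) * (3 / 2 * c)) := mul_le_mul_of_nonneg_left hnW hMp.le
      _ = (1 / τ) * (3 / 2 * (c * M)) := by ring
      _ = (1 / τ) * (3 / 2 * P) := by rw [hcM]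
  have hMW0 : 0 ≤ M * (n * W0) := by positivity
  have hMWP : |M * (n * W0) - (1 / τ) * P| ≤ (1 / τ) * (ε * P) := by
    have : M * (n * W0) - (1 / τ) * P = (1 / τ) * (M * (n * (∫ u : ℝ, wh n c u) - c)) := by
      rw [hnW0, mul_sub (M : ℝ), mul_comm (M : ℝ) c, hcM]
      ring
    rw [this, abs_mul, abs_of_pos hτi, abs_mul, abs_of_pos hMp]
    apply mul_le_mul_of_nonneg_left _ hτi.le
    calc M * |n * (∫ u : ℝ, wh n c u) - c| ≤ M * (ε * c) := mul_le_mul_of_nonneg_left hWn hMp.le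
      _ = ε * (c * M) := by ring
      _ = ε * P := by rw [hcM]
  set IN : ℝ := ∫ θ : ℝ, Φ θ with hIN
  have e3 : 1 / (2 * Real.pi) ≤ 1 / 6 := by
    apply one_div_le_one_div_of_le (by norm_num); linarith
  by_cases hnear : |(wd v v' : ℝ) - P| ≤ ε * P ∨ |(wd v v' : ℝ) - 2 * P| ≤ ε * P
  · rw [if_pos hnear]
    have hb := hcomp 0 Ch (fun θ => by
      rw [mul_zero, sub_zero]
      calc |Φ θ| ≤ _ := hΦle θ
        _ = _ := by ring)
    rw [mul_zero, sub_zero] at hb
    set tt : ℝ := if P < (wd v v' : ℝ) ∧ (wd v v' : ℝ) ≤ 2 * P then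
        h (Q.nr n v) (Q.nr n v') else 0 with httd
    have htt : |tt| ≤ Ch := by
      rw [httd]; split_ifs
      · exact hh _ _
      · rw [abs_zero]; exact hCh
    have e1 : |n * I - P / (2 * Real.pi * τ) * tt| ≤
        (1 / (2 * Real.pi)) * ((1 / τ) * (5 / 2 * P * Ch)) := by
      have e2 : n * I - P / (2 * Real.pi * τ) * tt =
          (1 / (2 * Real.pi)) * (n * IN - (1 / τ) * P * tt) := by
        rw [hI']; field_simp
      rw [e2, abs_mul, abs_of_pos (by positivity : 0 < 1 / (2 * Real.pi))]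
      apply mul_le_mul_of_nonneg_left _ (by positivity)
      refine (abs_sub _ _).trans ?_
      rw [abs_mul ((1 / τ) * P) tt, abs_of_pos (mul_pos hτi hPp)]
      have i1 : M * (n * W0) * Ch ≤ (1 / τ) * (3 / 2 * P) * Ch :=
        mul_le_mul_of_nonneg_right hMW hCh
      have i2 : (1 / τ) * P * |tt| ≤ (1 / τ) * P * Ch :=
        mul_le_mul_of_nonneg_left htt (mul_pos hτi hPp).le
      calc |n * IN| + (1 / τ) * P * |tt| ≤ (1 / τ) * (3 / 2 * P) * Ch + (1 / τ) * P * Ch :=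
            add_le_add (hb.trans i1) i2
        _ = (1 / τ) * (5 / 2 * P * Ch) := by ring
    refine e1.trans ?_
    have e4 : 0 ≤ (1 / τ) * (5 / 2 * P * Ch) := by positivity
    have e5 := mul_le_mul_of_nonneg_right e3 e4
    have e6 : 0 ≤ P * (C * ε) := by positivity
    have e7 : 1 / 6 * ((1 / τ) * (5 / 2 * P * Ch)) ≤ P * ((Ch + 3) * (1 / τ)) := by
      have h1 : 0 ≤ P * Ch * (1 / τ) := by positivity
      have h2 : 0 ≤ P * (1 / τ) := by positivity
      have h3 : 1 / 6 * ((1 / τ) * (5 / 2 * P * Ch)) = 5 / 12 * (P * Ch * (1 / τ)) := by ring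
      have h4 : P * ((Ch + 3) * (1 / τ)) = P * Ch * (1 / τ) + 3 * (P * (1 / τ)) := by ring
      rw [h3, h4]
      linarith only [h1, h2]
    have e8 : P * (C * ε + C) = P * (C * ε) + P * C := by ring
    have e9 : P * ((Ch + 3) * (1 / τ)) ≤ P * C := mul_le_mul_of_nonneg_left hCτ hPp.le
    rw [e8]
    linarith
  · rw [if_neg hnear, add_zero]
    push Not at hnear
    obtain ⟨f1, f2⟩ := hnear
    rcases lt_or_ge (wd v v' : ℝ) ((1 - ε) * P) with g1 | g1
    · have hz : I = 0 := hnIz fun θ => by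
        by_contra h0
        linarith [(hsup θ h0).2.1]
      have i1 : (1 - ε) * P ≤ 1 * P := mul_le_mul_of_nonneg_right (by linarith) hPp.le
      rw [if_neg (fun h1 => by linarith [h1.1]), hz]
      simp only [mul_zero, sub_zero, abs_zero]
      positivity
    rcases lt_or_ge ((2 + ε) * P) (wd v v' : ℝ) with g2 | g2
    · have hz : I = 0 := hnIz fun θ => by
        by_contra h0
        linarith [(hsup θ h0).2.2]
      have i1 : 2 * P ≤ (2 + ε) * P := mul_le_mul_of_nonneg_right (by linarith) hPp.le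
      rw [if_neg (fun h1 => by linarith [h1.2]), hz]
      simp only [mul_zero, sub_zero, abs_zero]
      positivity
    have g3 : (1 + ε) * P < (wd v v' : ℝ) := by
      by_contra hc'
      push Not at hc'
      have : |(wd v v' : ℝ) - P| ≤ ε * P := abs_le.2 ⟨by linarith, by linarith⟩
      linarith
    have g4 : (wd v v' : ℝ) < (2 - ε) * P := by
      by_contra hc'
      push Not at hc'
      have : |(wd v v' : ℝ) - 2 * P| ≤ ε * P := abs_le.2 ⟨by linarith, by linarith⟩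
      linarith
    have hεP : 0 < ε * P := mul_pos hε hPp
    have g5 : P < (wd v v' : ℝ) := by linarith
    have g6 : (wd v v' : ℝ) ≤ 2 * P := by linarith
    rw [if_pos ⟨g5, g6⟩]
    set H : ℝ := h (Q.nr n v) (Q.nr n v') with hH
    have hWnn : ∀ θ, 0 ≤ W θ := fun θ => wh_nonneg _ _ _
    have hmain : ∀ θ, |Φ θ - M * W θ * H| ≤ M * W θ * (2 * ε * Ch) := by
      intro θ
      have hle := hΦle θ
      by_cases hw0 : W θ = 0
      · rw [hw0] at hle ⊢
        rw [mul_zero] at hle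
        rw [mul_zero, zero_mul, zero_mul, sub_zero]
        exact hle
      by_cases htriv : Φ θ = 0 ∧ H = 0
      · rw [htriv.1, htriv.2, mul_zero, sub_zero, abs_zero]
        have := hWnn θ
        positivity
      rw [hW] at hw0 ⊢
      have hsx := hat72_supp hw0
      have hsM : |hly Q τ n θ v / P| < hlx Q τ n θ v / M := by
        rw [abs_div, abs_mul, abs_of_pos hMp, abs_of_pos (hx0 θ), div_lt_one (hx0 θ)] at hsx
        rw [lt_div_iff₀ hMp]
        linarith
      have hD := hdet θ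
      have hDpos : 0 < κ * (wd v v' : ℝ) / P := by
        have : (0 : ℝ) < wd v v' := by linarith
        positivity
      have hD2κ : κ * (wd v v' : ℝ) / P ≤ 2 * κ := by
        rw [div_le_iff₀ hPp]
        calc κ * (wd v v' : ℝ) ≤ κ * (2 * P) := mul_le_mul_of_nonneg_left g6 hκ.le
          _ = 2 * κ * P := by ring
      have nrsq : ∀ u : V, Cn Q u → Q.nr n u ^ 2 = Q.q u / n := by
        intro u hu
        exact Real.sq_sqrt (div_nonneg (by exact_mod_cast (hu.q_pos hQ).le) hnp.le)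
      have nrlo : ∀ u : V, (δ / 2) ^ 2 * n ≤ Q.q u → δ / 2 ≤ Q.nr n u := by
        intro u hu
        apply Real.le_sqrt_of_sq_le
        rwa [le_div_iff₀ hnp]
      have htn : t * n = P * w := by rw [htd]; field_simp
      have hcase : (hlx Q τ n θ v ≤ 5 / 4 ∧ hlx Q τ n θ v' ≤ 5 / 4) ∨
          (Q.nr n v ≤ 1 ∧ Q.nr n v' ≤ 1) := by
        by_cases hΦ0 : Φ θ = 0
        · right
          have hH0 : H ≠ 0 := fun h0 => htriv ⟨hΦ0, h0⟩
          obtain ⟨_, b2, _, b4⟩ := hs _ _ hH0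
          exact ⟨b2, b4⟩
        · left
          obtain ⟨_, x2, _, x2', _⟩ := kr72_supp hκ hε hδ hδ1 hs hM1 hM2 hΦ0
          exact ⟨x2, x2'⟩
      obtain ⟨r1, r3, r4, r5⟩ := real_f (x := hlx Q τ n θ v) (x' := hlx Q τ n θ v')
        (a := hly Q τ n θ v / n) (b := hly Q τ n θ v' / n) (s := hly Q τ n θ v / P)
        (s' := hly Q τ n θ v' / P)
        (δ := δ) (t := t) (ε := ε) (κ := κ) (D := κ * (wd v v' : ℝ) / P) (P := P) (n := n)
        (ρ := Q.nr n v) (ρ' := Q.nr n v') (S2 := S2) (M := M) hδ hδ1 hε htp ht2 ht3 hMge (hx0 θ)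
        (hx0' θ) hsM
        (by field_simp) (by field_simp) hnp hPp hκ hD hDpos hD2κ
        (by rw [nrsq v hv]; exact hnorm v θ) (by rw [nrsq v' hv']; exact hnorm v' θ)
        (nrlo v E1) (nrlo v' E3) hcase hS2
        (by rw [mul_assoc, htn]
            have : P * 1 ≤ P * w := mul_le_mul_of_nonneg_left hw1 hPp.le
            linarith)
        (by rw [htn]; exact mul_le_mul_of_nonneg_left (by linarith) hPp.le)
      have hval := kr72_val (h := h) (κ := κ) (ε := ε) (δ := δ) (M := M) (J := J) hκ hε hδ hCh hh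
        hl hs hMN hM3 hJ1 (hx0 θ) (hx0' θ) r1 r3 hsx (by
          rw [hD, le_div_iff₀ hPp]
          have := mul_le_mul_of_nonneg_left g3.le hκ.le
          linarith) (by
          rw [hD, div_le_iff₀ hPp]
          have := mul_le_mul_of_nonneg_left g4.le hκ.le
          linarith)
      have hHx : |h (hlx Q τ n θ v) (hlx Q τ n θ v') - H| ≤ Ch * ε := by
        refine (hl _ _ _ _).trans (mul_le_mul_of_nonneg_left ?_ hCh)
        linarith
      set W1 : ℝ := Hat72 (M * (hly Q τ n θ v / P) / hlx Q τ n θ v) with hW1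
      have hW1p : 0 ≤ M * W1 := mul_nonneg hMp.le (hat72_nonneg _)
      have e1 : Φ θ - M * W1 * H = (Φ θ - M * W1 * h (hlx Q τ n θ v) (hlx Q τ n θ v')) +
          M * W1 * (h (hlx Q τ n θ v) (hlx Q τ n θ v') - H) := by ring
      rw [e1]
      refine (abs_add_le _ _).trans ?_
      rw [abs_mul (M * W1), abs_of_nonneg hW1p]
      have e2 : M * W1 * |h (hlx Q τ n θ v) (hlx Q τ n θ v') - H| ≤ M * W1 * (Ch * ε) :=
        mul_le_mul_of_nonneg_left hHx hW1p
      have e3 : M * W1 * (Ch * (2 / M + (3 * ((J : ℝ) / M) + 8) / (M * κ * ε))) ≤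
          M * W1 * (Ch * ε) := mul_le_mul_of_nonneg_left hE1 hW1p
      have e4 : M * W1 * (2 * ε * Ch) = M * W1 * (Ch * ε) + M * W1 * (Ch * ε) := by ring
      rw [e4]
      exact add_le_add (hval.trans e3) e2
    have hb := hcomp H (2 * ε * Ch) hmain
    have e2 : n * I - P / (2 * Real.pi * τ) * H = (1 / (2 * Real.pi)) *
        ((n * IN - M * (n * W0) * H) + (M * (n * W0) - (1 / τ) * P) * H) := by
      rw [hI']; field_simp; ring
    rw [e2, abs_mul, abs_of_pos (by positivity : 0 < 1 / (2 * Real.pi))]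
    have e7 : |(n * IN - M * (n * W0) * H) + (M * (n * W0) - (1 / τ) * P) * H| ≤
        (1 / τ) * (4 * ε * Ch * P) := by
      refine (abs_add_le _ _).trans ?_
      rw [abs_mul (M * (n * W0) - (1 / τ) * P) H]
      have i1 : M * (n * W0) * (2 * ε * Ch) ≤ (1 / τ) * (3 / 2 * P) * (2 * ε * Ch) :=
        mul_le_mul_of_nonneg_right hMW (by positivity)
      have i2 : |M * (n * W0) - (1 / τ) * P| * |H| ≤ (1 / τ) * (ε * P) * Ch :=
        mul_le_mul hMWP (hh _ _) (abs_nonneg _) (by positivity)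
      have i3 : (1 / τ) * (3 / 2 * P) * (2 * ε * Ch) + (1 / τ) * (ε * P) * Ch =
          (1 / τ) * (4 * ε * Ch * P) := by ring
      rw [← i3]
      exact add_le_add (hb.trans i1) i2
    calc 1 / (2 * Real.pi) * |(n * IN - M * (n * W0) * H) + (M * (n * W0) - (1 / τ) * P) * H|
        ≤ 1 / 6 * ((1 / τ) * (4 * ε * Ch * P)) :=
          mul_le_mul e3 e7 (abs_nonneg _) (by norm_num)
      _ ≤ P * ((Ch + 3) * (1 / τ) * ε) := by
          have h2 : 0 ≤ P * ε * Ch * (1 / τ) := by positivity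
          have h3 : 0 ≤ P * ε * (1 / τ) := by positivity
          have h4 : 1 / 6 * ((1 / τ) * (4 * ε * Ch * P)) = 2 / 3 * (P * ε * Ch * (1 / τ)) := by
            ring
          have h5 : P * ((Ch + 3) * (1 / τ) * ε) =
              P * ε * Ch * (1 / τ) + 3 * (P * ε * (1 / τ)) := by ring
          rw [h4, h5]
          linarith only [h2, h3]
      _ ≤ P * (C * ε) := by
          apply mul_le_mul_of_nonneg_left _ hPp.le
          exact mul_le_mul_of_nonneg_right hCτ hε.le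

end Pool.Agent.Lib.MP_a17b09_nt.HY
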