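import Pool.Agent.Lib.MP_a17b09_nt.HY.Stmts20

/-!
Project HY: the automorphs as bijections, powers of a solution, and (A7) change of the period.
-/

set_option autoImplicit false

open Filter Topology Finset

namespace Pool.Agent.Lib.MP_a17b09_nt.HY

open Pool.Agent.Lib.MP_a17b09_nt.CH

namespace P54

theorem prim_of_app {A : Mat} {u : V} (h : Prim (A.app u)) : Prim u := by
  unfold Prim at *
  rw [← Int.isCoprime_iff_gcd_eq_one] at *
  obtain ⟨s, t, e⟩ := h
  refine ⟨s * A.a + t * A.c, s * A.b + t * A.d, ?_⟩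
  simp only [Mat.app] at e
  linear_combination e

theorem act_inv_act {d : ℕ} {Q : Form} (hQ : Hyp d Q) (a : Pell.Solution₁ (d : ℤ)) (v : V) :
    act Q a⁻¹ (act Q a v) = v := by
  rw [← act_mul hQ, inv_mul_cancel, act_one]

theorem act_act_inv {d : ℕ} {Q : Form} (hQ : Hyp d Q) (a : Pell.Solution₁ (d : ℤ)) (v : V) :
    act Q a (act Q a⁻¹ v) = v := by
  rw [← act_mul hQ, mul_inv_cancel, act_one]

/-- the automorph as a bijection -/
def actE {d : ℕ} {Q : Form} (hQ : Hyp d Q) (a : Pell.Solution₁ (d : ℤ)) : V ≃ V where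
  toFun := act Q a
  invFun := act Q a⁻¹
  left_inv := act_inv_act hQ a
  right_inv := act_act_inv hQ a

@[simp] theorem actE_apply {d : ℕ} {Q : Form} (hQ : Hyp d Q) (a : Pell.Solution₁ (d : ℤ)) (v : V) :
    actE hQ a v = act Q a v := rfl

theorem prim_act {d : ℕ} {Q : Form} (hQ : Hyp d Q) (a : Pell.Solution₁ (d : ℤ)) (v : V) :
    Prim (act Q a v) ↔ Prim v := by
  refine ⟨fun h => prim_of_app h, fun h => ?_⟩
  have h1 : Prim ((au Q a⁻¹.x a⁻¹.y).app (act Q a v)) := by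
    have := act_inv_act hQ a v
    unfold act at this ⊢
    rw [this]
    exact h
  exact prim_of_app h1

theorem nr_act {d : ℕ} {Q : Form} (hQ : Hyp d Q) (a : Pell.Solution₁ (d : ℤ)) (n : ℝ) (v : V) :
    Q.nr n (act Q a v) = Q.nr n v := by
  unfold Form.nr
  rw [q_act hQ]

theorem pp_mul {d : ℕ} {a b : Pell.Solution₁ (d : ℤ)} (ha : PP a) (hb : PP b) : PP (a * b) := by
  obtain ⟨a1, a2⟩ := ha
  obtain ⟨b1, b2⟩ := hb
  have hd : (0 : ℤ) ≤ d := Int.natCast_nonneg d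
  refine ⟨?_, ?_⟩
  · rw [Pell.Solution₁.x_mul]
    nlinarith [mul_nonneg hd (mul_nonneg a2.le b2.le), mul_pos (sub_pos.2 a1) (sub_pos.2 b1)]
  · rw [Pell.Solution₁.y_mul]
    nlinarith

theorem per_mul {d : ℕ} {a b : Pell.Solution₁ (d : ℤ)} (ha : PP a) (hb : PP b) :
    per (a * b) = per a + per b := by
  unfold per
  have h1 := (eps_pos ha).1
  have h2 := (eps_pos hb).1
  rw [← Real.log_mul (by linarith) (by linarith), Pell.Solution₁.x_mul, Pell.Solution₁.y_mul]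
  congr 1
  push_cast
  have h3 := Hyp.sd_sq d
  linear_combination ((a.y : ℝ) * b.y) * (-h3)

theorem pp_pow {d : ℕ} {a : Pell.Solution₁ (d : ℤ)} (ha : PP a) {m : ℕ} (hm : 0 < m) :
    PP (a ^ m) ∧ per (a ^ m) = m * per a := by
  induction m with
  | zero => exact absurd hm (lt_irrefl _)
  | succ m ih =>
    rcases Nat.eq_zero_or_pos m with h0 | h0
    · subst h0
      simp [ha]
    · obtain ⟨h1, h2⟩ := ih h0
      rw [pow_succ]
      refine ⟨pp_mul h1 ha, ?_⟩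
      rw [per_mul h1 ha, h2]
      push_cast
      ring

open Classical in
/-- the terms without the sector -/
noncomputable def tt (Q : Form) (h : ℝ → ℝ → ℝ) (U : V → V → ℂ) (k : ℤ) (n : ℝ)
    (f : V × V) : ℂ :=
  if Prim f.1 ∧ Prim f.2 ∧ Cn Q f.1 ∧ Cn Q f.2 ∧ wd f.1 f.2 = k then
    ((h (Q.nr n f.1) (Q.nr n f.2) : ℝ) : ℂ) * U f.1 f.2 else 0

open Classical in
/-- the terms in a shifted sector -/
noncomputable def ts (Q : Form) (A B : ℝ) (h : ℝ → ℝ → ℝ) (U : V → V → ℂ) (k : ℤ) (n : ℝ)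
    (f : V × V) : ℂ :=
  if A ≤ ps Q f.1 ∧ ps Q f.1 < B then tt Q h U k n f else 0

theorem hkk_eq (Q : Form) (T : ℝ) (h : ℝ → ℝ → ℝ) (U : V → V → ℂ) (k : ℤ) (n : ℝ) (f : V × V) :
    hkk Q T h U k n f = ts Q 0 T h U k n f := by
  unfold hkk ts tt Sec
  by_cases h1 : 0 ≤ ps Q f.1 ∧ ps Q f.1 < T
  · rw [if_pos h1]
    congr 1
    apply propext
    constructor
    · rintro ⟨a, b, ⟨c, _⟩, e⟩
      exact ⟨a, b, c, e⟩
    · rintro ⟨a, b, c, e⟩
      exact ⟨a, b, ⟨c, h1⟩, e⟩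
  · rw [if_neg h1, if_neg]
    rintro ⟨a, b, ⟨c, h2⟩, e⟩
    exact h1 h2

theorem tt_act {d : ℕ} {Q : Form} (hQ : Hyp d Q) {a : Pell.Solution₁ (d : ℤ)} (ha : PP a)
    (h : ℝ → ℝ → ℝ) {U : V → V → ℂ} (hU : AInv Q a U) (k : ℤ) (n : ℝ) (f : V × V) :
    tt Q h U k n (act Q a f.1, act Q a f.2) = tt Q h U k n f := by
  unfold tt
  simp only [nr_act hQ, hU f.1 f.2]
  have e : (Prim (act Q a f.1) ∧ Prim (act Q a f.2) ∧ Cn Q (act Q a f.1) ∧ Cn Q (act Q a f.2) ∧
      wd (act Q a f.1) (act Q a f.2) = k) ↔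
      (Prim f.1 ∧ Prim f.2 ∧ Cn Q f.1 ∧ Cn Q f.2 ∧ wd f.1 f.2 = k) := by
    rw [prim_act hQ, prim_act hQ, cn_act hQ ha, cn_act hQ ha, wd_act hQ]
  by_cases hc : Prim f.1 ∧ Prim f.2 ∧ Cn Q f.1 ∧ Cn Q f.2 ∧ wd f.1 f.2 = k
  · rw [if_pos (e.2 hc), if_pos hc]
  · rw [if_neg (fun h1 => hc (e.1 h1)), if_neg hc]

theorem ts_act {d : ℕ} {Q : Form} (hQ : Hyp d Q) {a : Pell.Solution₁ (d : ℤ)} (ha : PP a)
    (h : ℝ → ℝ → ℝ) {U : V → V → ℂ} (hU : AInv Q a U) (k : ℤ) (n A B : ℝ) (f : V × V) :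
    ts Q (A + per a) (B + per a) h U k n (act Q a f.1, act Q a f.2) = ts Q A B h U k n f := by
  unfold ts
  by_cases h1 : Cn Q f.1
  · simp only [ps_act hQ ha h1, add_le_add_iff_right, add_lt_add_iff_right]
    rw [tt_act hQ ha h hU]
  · have h2 : tt Q h U k n f = 0 := by
      unfold tt
      rw [if_neg]
      rintro ⟨_, _, c, _⟩
      exact h1 c
    have h3 := tt_act hQ ha h hU k n f
    rw [h3, h2]
    simp

theorem tsum_ts_act {d : ℕ} {Q : Form} (hQ : Hyp d Q) {a : Pell.Solution₁ (d : ℤ)} (ha : PP a)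
    (h : ℝ → ℝ → ℝ) {U : V → V → ℂ} (hU : AInv Q a U) (k : ℤ) (n A B : ℝ) :
    ∑' f, ts Q (A + per a) (B + per a) h U k n f = ∑' f, ts Q A B h U k n f := by
  rw [← (Equiv.prodCongr (actE hQ a) (actE hQ a)).tsum_eq
    (ts Q (A + per a) (B + per a) h U k n)]
  apply tsum_congr
  rintro ⟨f1, f2⟩
  exact ts_act hQ ha h hU k n A B (f1, f2)

theorem tsum_ts_nat {d : ℕ} {Q : Form} (hQ : Hyp d Q) {a : Pell.Solution₁ (d : ℤ)} (ha : PP a)
    (h : ℝ → ℝ → ℝ) {U : V → V → ℂ} (hU : AInv Q a U) (k : ℤ) (n : ℝ) (j : ℕ) :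
    ∑' f, ts Q (j * per a) ((j + 1) * per a) h U k n f = ∑' f, ts Q 0 (per a) h U k n f := by
  induction j with
  | zero => simp
  | succ j ih =>
    rw [← ih, ← tsum_ts_act hQ ha h hU k n (j * per a) ((j + 1) * per a)]
    congr 1
    funext f
    congr 1
    · push_cast; ring
    · push_cast; ring

/-- splitting of the long sector -/
theorem ts_split {d : ℕ} (Q : Form) {a : Pell.Solution₁ (d : ℤ)} (ha : PP a)
    (h : ℝ → ℝ → ℝ) (U : V → V → ℂ) (k : ℤ) (n : ℝ) (m : ℕ) (f : V × V) :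
    ts Q 0 (m * per a) h U k n f =
      ∑ j ∈ Finset.range m, ts Q (j * per a) ((j + 1) * per a) h U k n f := by
  have hp := per_pos ha
  induction m with
  | zero =>
    simp only [Nat.cast_zero, zero_mul, Finset.range_zero, Finset.sum_empty]
    unfold ts
    rw [if_neg]
    rintro ⟨h1, h2⟩
    linarith
  | succ m ih =>
    rw [Finset.sum_range_succ, ← ih]
    unfold ts
    have hm : (0 : ℝ) ≤ m * per a := by positivity
    push_cast
    by_cases h1 : ps Q f.1 < m * per a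
    · rw [if_neg (show ¬ (m * per a ≤ ps Q f.1 ∧ ps Q f.1 < (m + 1) * per a) by
        rintro ⟨h2, _⟩; linarith), add_zero]
      congr 1
      apply propext
      constructor
      · rintro ⟨h2, _⟩; exact ⟨h2, h1⟩
      · rintro ⟨h2, h3⟩; exact ⟨h2, by nlinarith⟩
    · push Not at h1
      rw [if_neg (show ¬ (0 ≤ ps Q f.1 ∧ ps Q f.1 < m * per a) by
        rintro ⟨_, h2⟩; linarith), zero_add]
      congr 1
      apply propext
      constructor
      · rintro ⟨h2, h3⟩; exact ⟨h1, h3⟩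
      · rintro ⟨h2, h3⟩; exact ⟨by linarith, h3⟩

end P54

open P54 in
/-- (A7) -/
theorem stHper_54 (hC : StHC0) : StHper := by
  intro d Q hQ a ha m hm
  obtain ⟨h1, h2⟩ := pp_pow ha hm
  refine ⟨h1, h2, ?_⟩
  intro δ h hδ hT U hU k n
  have hp := per_pos ha
  have hm' : (0 : ℝ) < m := by exact_mod_cast hm
  unfold Hk
  have e1 : ∑' f, hkk Q (per (a ^ m)) h U k n f =
      ∑ j ∈ Finset.range m, ∑' f, ts Q (j * per a) ((j + 1) * per a) h U k n f := by
    rw [← Summable.tsum_finsetSum]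
    · apply tsum_congr
      intro f
      rw [hkk_eq, h2, ts_split Q ha]
    · intro j hj
      apply summable_of_hasFiniteSupport
      refine ((hC d Q hQ (per (a ^ m)) (per_pos h1) δ h hδ hT).1 U k n).subset ?_
      intro f hf
      rw [Function.mem_support] at hf ⊢
      intro h0
      apply hf
      rw [hkk_eq, h2] at h0
      have hj' : j < m := Finset.mem_range.1 hj
      have hj2 : ((j : ℝ) + 1) ≤ m := by exact_mod_cast hj'
      unfold ts at h0 ⊢
      by_cases h3 : j * per a ≤ ps Q f.1 ∧ ps Q f.1 < (j + 1) * per a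
      · rw [if_pos h3]
        have h4 : (0 : ℝ) ≤ ps Q f.1 ∧ ps Q f.1 < m * per a := by
          have h5 : (0 : ℝ) ≤ j * per a := by positivity
          exact ⟨by linarith, by nlinarith⟩
        rwa [if_pos h4] at h0
      · rw [if_neg h3]
  have e2 : ∑' f, hkk Q (per (a ^ m)) h U k n f = m * ∑' f, hkk Q (per a) h U k n f := by
    rw [e1, Finset.sum_congr rfl (fun j _ => tsum_ts_nat hQ ha h hU k n j)]
    rw [Finset.sum_const, Finset.card_range, nsmul_eq_mul]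
    congr 1
    apply tsum_congr
    intro f
    rw [hkk_eq]
  rw [e2, h2]
  rcases eq_or_ne n 0 with h0 | h0
  · subst h0; simp
  · have hpc : ((per a : ℝ) : ℂ) ≠ 0 := by exact_mod_cast hp.ne'
    have hnc : ((n : ℝ) : ℂ) ≠ 0 := by exact_mod_cast h0
    have hmc : ((m : ℝ) : ℂ) ≠ 0 := by exact_mod_cast hm'.ne'
    push_cast at hmc ⊢
    field_simp

end Pool.Agent.Lib.MP_a17b09_nt.HY
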