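import Pool.Agent.Lib.MP_a17b09_nt.HY.Stmts20
import Pool.Agent.Lib.MP_a17b09_nt.CH.Plat22

/-!
Project HY, E7: the plateau.  Copy of `CH/Plat22.lean` for the hyperbolic local sums.
-/

set_option autoImplicit false

open Filter Topology Finset

namespace Pool.Agent.Lib.MP_a17b09_nt.HY

open Pool.Agent.Lib.MP_a17b09_nt.CH
open Pool.Agent.Lib.MP_a17b09_nt.CH.PE

namespace Plat96

open Pool.Agent.Lib.MP_a17b09_nt.CH.PE.Plat22 (hat hat_zero hat_abs hat_nonneg hat_smul hat_sum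
  conv_lemma CBdd_sq n2_nonneg n2_le n2_smul n2_sub_comm n2_add n2_tri n2_abs n2_sum ec_add ec_sum
  CBdd_conj ec_self n2_null n2_shift F0 Ph Ph_bdd F0_GT shift_GT good_cb good_cb' ph ph_Ph pc
  pc_sup pc_approx)

theorem tauH_pos96 {d : ℕ} {a : Pell.Solution₁ (d : ℤ)} (ha : PP a) : 0 < tauH a :=
  div_pos (per_pos ha) (by positivity)

/-- the sums are good functions -/
def MgL (Q : Form) (τ : ℝ) (g : V → ℂ) : Prop := ∀ (B : ℝ) (G : ℝ → ℝ → ℝ), GT B G →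
  ∀ L : ℝ, 1 ≤ L → Good (hmm Q τ g G L)

/-- the shift of the angle by `u / τ * L / x` -/
def ShL (Q : Form) (τ : ℝ) : Prop := ∀ (B : ℝ) (G : ℝ → ℝ → ℝ), GT B G → ∀ L u : ℝ, 1 ≤ L →
  ∀ ε : ℝ, 0 < ε → ∃ x0 : ℝ, 1 ≤ x0 ∧ ∀ g : V → ℂ, Ug g → ∀ x θ : ℝ, x0 ≤ x →
    ‖hmm Q τ g G L x (θ + u / τ * L / x) - hmm Q τ g (fun a b => G a (b - u * a)) L x θ‖ ≤ ε

theorem shL96 (hS : StHShift) {d : ℕ} {Q : Form} (hQ : Hyp d Q) {τ : ℝ} (hτ : 0 < τ) :
    ShL Q τ := by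
  intro B G hG L u hL ε hε
  obtain ⟨x0, h1, h2⟩ := hS d Q hQ B G hG τ L (u / τ) hτ hL ε hε
  refine ⟨x0, h1, fun g hg x θ hx => ?_⟩
  have h3 := h2 g hg x θ hx
  rw [mul_div_cancel₀ u hτ.ne'] at h3
  exact h3

section MM

variable {d : ℕ} {Q : Form} {τ : ℝ} {g : V → ℂ}

theorem mm_summable (hMb : StHMb) (hQ : Hyp d Q) (hg : Ug g) {B : ℝ} (hB : 1 ≤ B)
    {G : ℝ → ℝ → ℝ} (hG : Sup B G) {L : ℝ} (hL : 1 ≤ L) (x θ : ℝ) :
    Summable (fun v : V => ((G (hlx Q τ x θ v) (hly Q τ x θ v / L) : ℝ) : ℂ) * g v) :=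
  summable_of_hasFiniteSupport ((hMb d Q hQ B hB).1 G g τ L x θ hL hG hg.2)

theorem mm_sub (hMb : StHMb) (hQ : Hyp d Q) (hg : Ug g) {B : ℝ} (hB : 1 ≤ B)
    {G G' : ℝ → ℝ → ℝ} (hG : Sup B G) (hG' : Sup B G') {L : ℝ} (hL : 1 ≤ L) (x θ : ℝ) :
    hmm Q τ g (fun s t => G s t - G' s t) L x θ = hmm Q τ g G L x θ - hmm Q τ g G' L x θ := by
  unfold hmm
  rw [← mul_sub, ← (mm_summable hMb hQ hg hB hG hL x θ).tsum_sub
    (mm_summable hMb hQ hg hB hG' hL x θ)]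
  congr 1
  refine tsum_congr fun v => ?_
  push_cast
  ring

theorem mm_sum (hMb : StHMb) (hQ : Hyp d Q) (hg : Ug g) {B : ℝ} (hB : 1 ≤ B) {ι : Type}
    (s : Finset ι) (G : ι → ℝ → ℝ → ℝ) (hG : ∀ i ∈ s, Sup B (G i)) {L : ℝ} (hL : 1 ≤ L)
    (x θ : ℝ) :
    hmm Q τ g (fun a b => ∑ i ∈ s, G i a b) L x θ = ∑ i ∈ s, hmm Q τ g (G i) L x θ := by
  unfold hmm
  rw [← mul_sum, ← Summable.tsum_finsetSum fun i hi => mm_summable hMb hQ hg hB (hG i hi) hL x θ]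
  congr 1
  refine tsum_congr fun v => ?_
  push_cast
  rw [sum_mul]

theorem mm_smul (c : ℝ) (G : ℝ → ℝ → ℝ) (L x θ : ℝ) :
    hmm Q τ g (fun a b => c * G a b) L x θ = (c : ℂ) * hmm Q τ g G L x θ := by
  unfold hmm
  have h : ∀ v : V, ((c * G (hlx Q τ x θ v) (hly Q τ x θ v / L) : ℝ) : ℂ) * g v =
      (c : ℂ) * (((G (hlx Q τ x θ v) (hly Q τ x θ v / L) : ℝ) : ℂ) * g v) := by
    intro v
    push_cast
    ring
  simp_rw [h]
  rw [tsum_mul_left]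
  ring

/-- change of the scale -/
theorem mm_scale (G : ℝ → ℝ → ℝ) {L r : ℝ} (hL : L ≠ 0) (hr : r ≠ 0) (x θ : ℝ) :
    hmm Q τ g G L x θ = hmm Q τ g (fun s t => r * G s (r * t)) (r * L) x θ := by
  rw [mm_smul r (fun s t => G s (r * t))]
  unfold hmm
  have h : ∀ v : V, r * (hly Q τ x θ v / (r * L)) = hly Q τ x θ v / L := by
    intro v
    field_simp
  simp_rw [h]
  push_cast
  have hr' : (r : ℂ) ≠ 0 := by exact_mod_cast hr
  have hL' : (L : ℂ) ≠ 0 := by exact_mod_cast hL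
  field_simp

theorem mm_bd (hMb : StHMb) (hQ : Hyp d Q) {B : ℝ} (hB : 1 ≤ B) :
    ∃ C : ℝ, 0 ≤ C ∧ ∀ (g : V → ℂ), Ug g → ∀ (G : ℝ → ℝ → ℝ) (ε : ℝ), 0 ≤ ε → Sup B G →
      (∀ x y, |G x y| ≤ ε) → ∀ L x θ : ℝ, 1 ≤ L → ‖hmm Q τ g G L x θ‖ ≤ C * ε := by
  obtain ⟨C, hC⟩ := (hMb d Q hQ B hB).2
  refine ⟨|C|, abs_nonneg C, fun g hg G ε hε hs hG L x θ hL => ?_⟩
  have h := hC G ε hs hG g 1 hg.2 hg.1 τ L x θ hL
  rw [mul_one] at h
  exact h.trans (mul_le_mul_of_nonneg_right (le_abs_self C) hε)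

theorem mm_good (hMg : MgL Q τ g) (_ : Hyp d Q) (_ : Ug g) {B : ℝ} {G : ℝ → ℝ → ℝ} (hG : GT B G)
    {L : ℝ} (hL : 1 ≤ L) : Good (hmm Q τ g G L) := hMg B G hG L hL

/-- the shifted sums -/
noncomputable def Sb (Q : Form) (τ : ℝ) (g : V → ℂ) (φ : ℝ → ℝ) (u L : ℝ) (w : ℕ × ℝ) : ℂ :=
  hmm Q τ g (F0 φ) L w.1 (w.2 + u / τ * L / w.1)

/-- the sums of the shifted function -/
noncomputable def Tb (Q : Form) (τ : ℝ) (g : V → ℂ) (φ : ℝ → ℝ) (u L : ℝ) (w : ℕ × ℝ) : ℂ :=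
  hmm Q τ g (fun s t => F0 φ s (t - u * s)) L w.1 w.2

/-- the sums -/
noncomputable def bb (Q : Form) (τ : ℝ) (g : V → ℂ) (φ : ℝ → ℝ) (L : ℝ) (w : ℕ × ℝ) : ℂ :=
  hmm Q τ g (F0 φ) L w.1 w.2

section

variable (hG : StGood) (hI : PE.StInv) (hH : StHil) (hMb : StHMb) (hMg : MgL Q τ g) (hS : ShL Q τ)
  (M : LMean) (hQ : Hyp d Q) (hg : Ug g) {B : ℝ} (hB : 1 ≤ B) {φ : ℝ → ℝ} (hφ : Ph B φ)

include hMg hQ hg hB hφ in
theorem Sb_cb (u : ℝ) {L : ℝ} (hL : 1 ≤ L) : CBdd (Sb Q τ g φ u L) :=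
  good_cb' (mm_good hMg hQ hg (F0_GT hB hφ) hL) (fun n => u / τ * L / n)

include hMg hQ hg hB hφ in
theorem Tb_cb (u : ℝ) {L : ℝ} (hL : 1 ≤ L) : CBdd (Tb Q τ g φ u L) :=
  good_cb (mm_good hMg hQ hg (shift_GT (F0_GT hB hφ) u) hL)

include hMg hQ hg hB hφ in
theorem bb_cb {L : ℝ} (hL : 1 ≤ L) : CBdd (bb Q τ g φ L) :=
  good_cb (mm_good hMg hQ hg (F0_GT hB hφ) hL)

include hG hI hMg hQ hg hB hφ in
theorem n2_Sb (u : ℝ) {L : ℝ} (hL : 1 ≤ L) : n2 (TM M) (Sb Q τ g φ u L) =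
    n2 (TM M) (bb Q τ g φ L) :=
  n2_shift hG hI M (mm_good hMg hQ hg (F0_GT hB hφ) hL) (fun n => u / τ * L / n)

include hMg hS hQ hg hB hφ in
theorem n2_SbTb (u : ℝ) {L : ℝ} (hL : 1 ≤ L) :
    n2 (TM M) (fun w => Sb Q τ g φ u L w - Tb Q τ g φ u L w) = 0 := by
  refine n2_null M ((Sb_cb hMg hQ hg hB hφ u hL).sub (Tb_cb hMg hQ hg hB hφ u hL)) fun ε hε => ?_
  obtain ⟨x0, -, hx0⟩ := hS B (F0 φ) (F0_GT hB hφ) L u hL ε hε
  exact ⟨x0, fun n hn θ => hx0 g hg n θ hn⟩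

include hMb hQ hg hB hφ in
theorem bb_k {k : ℕ} (hk : 1 ≤ k) {L : ℝ} (hL : 1 ≤ L) (w : ℕ × ℝ) :
    ((k : ℂ) ^ 2) * bb Q τ g φ (k * L) w =
      ∑ p ∈ range k ×ˢ range k, Tb Q τ g φ ((p.1 : ℝ) - p.2) L w := by
  have hk0 : (0 : ℝ) < k := by exact_mod_cast hk
  have hL0 : L ≠ 0 := by linarith
  have hs : ∀ p ∈ range k ×ˢ range k, Sup ((2 * k + 1) * B)
      (fun s t => F0 φ s (t - ((p.1 : ℝ) - p.2) * s)) := by
    intro p hp
    have h1 := (shift_GT (F0_GT hB hφ) ((p.1 : ℝ) - p.2))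
    have h2 : |(p.1 : ℝ) - p.2| + 1 ≤ 2 * k + 1 := by
      obtain ⟨hp1, hp2⟩ := mem_product.1 hp
      have h3 : (p.1 : ℝ) ≤ k := by exact_mod_cast (mem_range.1 hp1).le
      have h4 : (p.2 : ℝ) ≤ k := by exact_mod_cast (mem_range.1 hp2).le
      have h5 : (0 : ℝ) ≤ p.1 := Nat.cast_nonneg _
      have h6 : (0 : ℝ) ≤ p.2 := Nat.cast_nonneg _
      have : |(p.1 : ℝ) - p.2| ≤ k := by
        rw [abs_le]
        constructor <;> linarith
      linarith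
    have h3 : (|(p.1 : ℝ) - p.2| + 1) * B ≤ (2 * k + 1) * B :=
      mul_le_mul_of_nonneg_right h2 (by linarith)
    intro x y hxy
    obtain ⟨a1, a2, a3⟩ := h1.2.1 x y hxy
    have h4 : (0 : ℝ) < (|(p.1 : ℝ) - p.2| + 1) * B := by
      have := abs_nonneg ((p.1 : ℝ) - p.2)
      positivity
    exact ⟨(one_div_le_one_div_of_le h4 h3).trans a1, a2.trans h3, a3.trans h3⟩
  have hB' : 1 ≤ (2 * (k : ℝ) + 1) * B := by nlinarith
  have h1 := mm_sum (τ := τ) hMb hQ hg hB' (range k ×ˢ range k)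
    (fun p s t => F0 φ s (t - ((p.1 : ℝ) - p.2) * s)) hs hL (w.1 : ℝ) w.2
  unfold Tb
  rw [← h1]
  unfold bb
  have h2 := mm_scale (Q := Q) (τ := τ) (g := g) (F0 φ) (L := k * L) (r := 1 / (k : ℝ))
    (mul_ne_zero hk0.ne' hL0) (by positivity) (w.1 : ℝ) w.2
  rw [h2, show 1 / (k : ℝ) * (k * L) = L by field_simp]
  have h3 : (fun s t => 1 / (k : ℝ) * F0 φ s (1 / (k : ℝ) * t)) = fun s t =>
      (1 / (k : ℝ)) ^ 2 * ∑ p ∈ range k ×ˢ range k, F0 φ s (t - ((p.1 : ℝ) - p.2) * s) := by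
    funext s t
    unfold F0
    rw [← mul_sum, sum_product, hat_sum]
    have h4 : hat s (1 / (k : ℝ) * t) = 1 / (k : ℝ) * hat (k * s) t := by
      rw [← hat_smul (by positivity)]
      congr 1
      field_simp
    rw [h4]
    ring
  rw [h3, mm_smul]
  push_cast
  have hk0' : (k : ℂ) ≠ 0 := by exact_mod_cast hk0.ne'
  field_simp

include hG hI hH hMb hMg hS hQ hg hB hφ in
/-- the variance identity -/
theorem variance {k : ℕ} (hk : 1 ≤ k) {L : ℝ} (hL : 1 ≤ L) :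
    ∑ p ∈ range k ×ˢ range k,
      n2 (TM M) (fun w => Sb Q τ g φ ((p.1 : ℝ) - p.2) L w - bb Q τ g φ (k * L) w) ^ 2 =
    (k : ℝ) ^ 2 * (n2 (TM M) (bb Q τ g φ L) ^ 2 - n2 (TM M) (bb Q τ g φ (k * L)) ^ 2) := by
  have hk0 : (1 : ℝ) ≤ k := by exact_mod_cast hk
  have hkL : 1 ≤ (k : ℝ) * L := by nlinarith
  have cP := bb_cb hMg hQ hg hB hφ hkL
  have cS : ∀ u, CBdd (Sb Q τ g φ u L) := fun u => Sb_cb hMg hQ hg hB hφ u hL
  have cT : ∀ u, CBdd (Tb Q τ g φ u L) := fun u => Tb_cb hMg hQ hg hB hφ u hL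
  set s := range k ×ˢ range k with hs
  have hcard : (s.card : ℝ) = (k : ℝ) ^ 2 := by
    rw [hs, card_product, card_range]
    push_cast
    ring
  -- the error
  set R : ℕ × ℝ → ℂ := fun w => ∑ p ∈ s, (Sb Q τ g φ ((p.1 : ℝ) - p.2) L w -
    Tb Q τ g φ ((p.1 : ℝ) - p.2) L w) with hR
  have cR : CBdd R := CBdd.sum s _ fun p _ => (cS _).sub (cT _)
  have nR : n2 (TM M) R = 0 := by
    refine le_antisymm ?_ (n2_nonneg _ _)
    refine (n2_sum (T := TM M) hH s _ fun p _ => (cS _).sub (cT _)).trans ?_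
    rw [sum_eq_zero fun p _ => n2_SbTb hMg hS M hQ hg hB hφ _ hL]
  have h1 : ∀ w, ∑ p ∈ s, Sb Q τ g φ ((p.1 : ℝ) - p.2) L w =
      (∑ _p ∈ s, bb Q τ g φ (k * L) w) + R w := by
    intro w
    rw [hR]
    beta_reduce
    rw [sum_sub_distrib, ← bb_k hMb hQ hg hB hφ hk hL w, sum_const, nsmul_eq_mul]
    have : (s.card : ℂ) = (k : ℂ) ^ 2 := by exact_mod_cast hcard
    rw [this]
    ring
  -- the scalar product with the error
  have cPc := CBdd_conj cP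
  have h2 : ec (TM M) (fun w => R w * (starRingEnd ℂ) (bb Q τ g φ (k * L) w)) = 0 := by
    have h3 := (hH _ (TM M) R (fun w => (starRingEnd ℂ) (bb Q τ g φ (k * L) w)) cR cPc).2.2.1
    rw [nR, zero_mul] at h3
    exact norm_le_zero_iff.1 h3
  have h3 : ∑ p ∈ s, ec (TM M) (fun w => Sb Q τ g φ ((p.1 : ℝ) - p.2) L w *
      (starRingEnd ℂ) (bb Q τ g φ (k * L) w)) =
      ∑ _p ∈ s, ec (TM M) (fun w => bb Q τ g φ (k * L) w *
        (starRingEnd ℂ) (bb Q τ g φ (k * L) w)) := by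
    rw [← ec_sum s _ fun p _ => (cS _).mul cPc, ← ec_sum s _ fun p _ => cP.mul cPc]
    have h4 : (fun w => ∑ p ∈ s, Sb Q τ g φ ((p.1 : ℝ) - p.2) L w *
        (starRingEnd ℂ) (bb Q τ g φ (k * L) w)) =
        fun w => (∑ _p ∈ s, bb Q τ g φ (k * L) w * (starRingEnd ℂ) (bb Q τ g φ (k * L) w)) +
          R w * (starRingEnd ℂ) (bb Q τ g φ (k * L) w) := by
      funext w
      rw [← sum_mul, ← sum_mul, h1 w]
      ring
    rw [h4, ec_add (CBdd.sum s _ fun p _ => cP.mul cPc) (cR.mul cPc), h2, add_zero]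
  have h4 : ∀ p ∈ s, n2 (TM M) (fun w => Sb Q τ g φ ((p.1 : ℝ) - p.2) L w -
      bb Q τ g φ (k * L) w) ^ 2 = n2 (TM M) (bb Q τ g φ L) ^ 2 + n2 (TM M) (bb Q τ g φ (k * L)) ^ 2 -
      2 * (ec (TM M) (fun w => Sb Q τ g φ ((p.1 : ℝ) - p.2) L w *
        (starRingEnd ℂ) (bb Q τ g φ (k * L) w))).re := by
    intro p _
    have h5 := (hH _ (TM M) _ _ (cS ((p.1 : ℝ) - p.2)) cP).2.2.2.2
    rw [n2_Sb hG hI hMg M hQ hg hB hφ _ hL] at h5
    linarith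
  rw [sum_congr rfl h4, sum_sub_distrib, ← mul_sum, ← Complex.re_sum, h3, Complex.re_sum,
    sum_const, sum_const, nsmul_eq_mul, nsmul_eq_mul, ec_self cP, hcard]
  ring

include hG hI hH hMb hMg hS hQ hg hB hφ in
theorem mono_k {k : ℕ} (hk : 1 ≤ k) {L : ℝ} (hL : 1 ≤ L) :
    n2 (TM M) (bb Q τ g φ (k * L)) ≤ n2 (TM M) (bb Q τ g φ L) := by
  have h1 := variance hG hI hH hMb hMg hS M hQ hg hB hφ hk hL
  have h2 : 0 ≤ (k : ℝ) ^ 2 * (n2 (TM M) (bb Q τ g φ L) ^ 2 -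
      n2 (TM M) (bb Q τ g φ (k * L)) ^ 2) := by
    rw [← h1]
    exact sum_nonneg fun p _ => by positivity
  have hk0 : (0 : ℝ) < (k : ℝ) ^ 2 := by
    have : (0 : ℝ) < k := by exact_mod_cast hk
    positivity
  have h3 := nonneg_of_mul_nonneg_right h2 hk0
  exact (pow_le_pow_iff_left₀ (n2_nonneg _ _) (n2_nonneg _ _) two_ne_zero).1 (by linarith)

include hMb hQ hg hB hφ in
theorem cont_L : ∃ C : ℝ, 0 ≤ C ∧ ∀ L L' : ℝ, 1 ≤ L → L ≤ L' →
    n2 (TM M) (fun w => bb Q τ g φ L w - bb Q τ g φ L' w) ≤ C * (L' / L - 1) := by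
  obtain ⟨-, hsup, C1, hC1⟩ := F0_GT hB hφ
  obtain ⟨C, K, hC0, hK0, hC, hK⟩ := Ph_bdd hB hφ
  obtain ⟨D, hD0, hD⟩ := mm_bd hMb hQ hB
  have hbd : ∀ s t, |F0 φ s t| ≤ K * B := by
    intro s t
    by_cases h : φ s = 0
    · unfold F0
      rw [h, zero_mul, abs_zero]
      positivity
    · have h1 := hφ.2 s h
      have hp : 0 < 1 / B := by positivity
      unfold F0
      rw [abs_mul]
      refine mul_le_mul (hK s) ((hat_abs s t).trans ?_) (abs_nonneg _) hK0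
      rw [abs_of_pos (show 0 < s by linarith)]
      exact h1.2
  refine ⟨D * (K * B + |C1| * B), by positivity, fun L L' hL hLL => ?_⟩
  have hL0 : 0 < L := by linarith
  set r := L' / L with hr
  have hr1 : 1 ≤ r := by
    rw [hr, le_div_iff₀ hL0]
    linarith
  have hrL : r * L = L' := div_mul_cancel₀ L' hL0.ne'
  have e1 : ∀ w, bb Q τ g φ L w - bb Q τ g φ L' w =
      hmm Q τ g (fun s t => r * F0 φ s (r * t) - F0 φ s t) L' w.1 w.2 := by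
    intro w
    unfold bb
    rw [mm_scale (F0 φ) hL0.ne' (show r ≠ 0 by linarith), hrL]
    refine (mm_sub hMb hQ hg hB (G := fun s t => r * F0 φ s (r * t)) (G' := F0 φ) ?_ hsup
      (hL.trans hLL) _ _).symm
    intro s t hst
    have h2 : F0 φ s (r * t) ≠ 0 := fun h => hst (by
      beta_reduce
      rw [h, mul_zero])
    obtain ⟨a1, a2, a3⟩ := hsup s (r * t) h2
    refine ⟨a1, a2, ?_⟩
    rw [abs_mul, abs_of_pos (show 0 < r by linarith)] at a3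
    nlinarith [abs_nonneg t]
  have e2 : (fun w => bb Q τ g φ L w - bb Q τ g φ L' w) = fun w : ℕ × ℝ =>
      hmm Q τ g (fun s t => r * F0 φ s (r * t) - F0 φ s t) L' w.1 w.2 := funext e1
  rw [e2]
  have hsup' : Sup B (fun s t => r * F0 φ s (r * t) - F0 φ s t) := by
    intro s t hst
    by_cases h2 : F0 φ s t = 0
    · have h3 : F0 φ s (r * t) ≠ 0 := fun h => hst (by
        beta_reduce
        rw [h, h2, mul_zero, sub_zero])
      obtain ⟨a1, a2, a3⟩ := hsup s (r * t) h3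
      refine ⟨a1, a2, ?_⟩
      rw [abs_mul, abs_of_pos (show 0 < r by linarith)] at a3
      nlinarith [abs_nonneg t]
    · exact hsup s t h2
  have hle : ∀ s t, |r * F0 φ s (r * t) - F0 φ s t| ≤ (K * B + |C1| * B) * (r - 1) := by
    intro s t
    by_cases hz : r * F0 φ s (r * t) - F0 φ s t = 0
    · rw [hz, abs_zero]
      have := abs_nonneg C1
      have h3 : 0 ≤ r - 1 := by linarith
      positivity
    · obtain ⟨-, -, a3⟩ := hsup' s t hz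
      have e3 : r * F0 φ s (r * t) - F0 φ s t = (r - 1) * F0 φ s (r * t) +
        (F0 φ s (r * t) - F0 φ s t) := by ring
      rw [e3]
      refine (abs_add_le _ _).trans ?_
      have h3 : |(r - 1) * F0 φ s (r * t)| ≤ (r - 1) * (K * B) := by
        rw [abs_mul, abs_of_nonneg (show 0 ≤ r - 1 by linarith)]
        exact mul_le_mul_of_nonneg_left (hbd _ _) (by linarith)
      have h4 := hC1 s (r * t) s t
      rw [sub_self, abs_zero, zero_add] at h4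
      have h5 : |r * t - t| ≤ (r - 1) * B := by
        rw [show r * t - t = (r - 1) * t by ring, abs_mul,
          abs_of_nonneg (show 0 ≤ r - 1 by linarith)]
        exact mul_le_mul_of_nonneg_left a3 (by linarith)
      have h6 : |F0 φ s (r * t) - F0 φ s t| ≤ |C1| * ((r - 1) * B) :=
        (h4.trans (mul_le_mul_of_nonneg_right (le_abs_self C1) (abs_nonneg _))).trans
          (mul_le_mul_of_nonneg_left h5 (abs_nonneg C1))
      nlinarith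
  refine n2_le _ ?_ fun w => ?_
  · have := abs_nonneg C1
    have h3 : 0 ≤ r - 1 := by linarith
    positivity
  · have h3 := hD g hg _ ((K * B + |C1| * B) * (r - 1)) (by
      have := abs_nonneg C1
      have h3 : 0 ≤ r - 1 := by linarith
      positivity) hsup' hle L' w.1 w.2 (hL.trans hLL)
    refine h3.trans (le_of_eq (by ring))

include hG hI hH hMb hMg hS hQ hg hB hφ in
theorem conv_n2 : ∃ l : ℝ, Tendsto (fun L => n2 (TM M) (bb Q τ g φ L)) atTop (𝓝 l) := by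
  refine conv_lemma _ (fun L _ => n2_nonneg _ _) (fun k hk L hL =>
    mono_k hG hI hH hMb hMg hS M hQ hg hB hφ hk hL) fun ε hε => ?_
  obtain ⟨C, hC0, hC⟩ := cont_L hMb M hQ hg hB hφ
  refine ⟨ε / (C + 1), by positivity, fun L L' hL hLL hLd => ?_⟩
  have h1 := n2_abs (T := TM M) hH (bb_cb hMg hQ hg hB hφ hL)
    (bb_cb hMg hQ hg hB hφ (hL.trans hLL))
  refine h1.trans ((hC L L' hL hLL).trans ?_)
  have hL0 : 0 < L := by linarith
  have h2 : L' / L - 1 ≤ ε / (C + 1) := by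
    rw [sub_le_iff_le_add, div_le_iff₀ hL0, add_comm]
    exact hLd
  calc C * (L' / L - 1) ≤ C * (ε / (C + 1)) := mul_le_mul_of_nonneg_left h2 hC0
    _ ≤ (C + 1) * (ε / (C + 1)) := by gcongr; linarith
    _ = ε := by field_simp

include hG hI hH hMb hMg hS hQ hg hB hφ in
theorem lim1 {k : ℕ} (a b : ℕ) (ha : a < k) (hb : b < k) :
    Tendsto (fun L : ℝ => n2 (TM M) (fun w => Sb Q τ g φ ((a : ℝ) - b) L w - bb Q τ g φ (k * L) w))
      atTop (𝓝 0) := by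
  have hk : 1 ≤ k := by omega
  have hk0 : (0 : ℝ) < k := by exact_mod_cast hk
  obtain ⟨l, hl⟩ := conv_n2 hG hI hH hMb hMg hS M hQ hg hB hφ
  have hl2 : Tendsto (fun L : ℝ => n2 (TM M) (bb Q τ g φ (k * L))) atTop (𝓝 l) :=
    hl.comp (tendsto_id.const_mul_atTop hk0)
  have h1 : Tendsto (fun L : ℝ => (k : ℝ) ^ 2 * (n2 (TM M) (bb Q τ g φ L) ^ 2 -
      n2 (TM M) (bb Q τ g φ (k * L)) ^ 2)) atTop (𝓝 0) := by
    have := ((hl.pow 2).sub (hl2.pow 2)).const_mul ((k : ℝ) ^ 2)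
    simpa using this
  have h2 := (Real.continuous_sqrt.tendsto 0).comp h1
  rw [Real.sqrt_zero] at h2
  refine squeeze_zero' (Eventually.of_forall fun L => n2_nonneg _ _) ?_ h2
  filter_upwards [eventually_ge_atTop 1] with L hL
  have hv := variance hG hI hH hMb hMg hS M hQ hg hB hφ hk hL
  have h5 := single_le_sum (s := range k ×ˢ range k) (f := fun p : ℕ × ℕ =>
    n2 (TM M) (fun w => Sb Q τ g φ ((p.1 : ℝ) - p.2) L w - bb Q τ g φ (k * L) w) ^ 2)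
    (fun p _ => sq_nonneg _) (show ((a, b) : ℕ × ℕ) ∈ range k ×ˢ range k from
      mem_product.2 ⟨mem_range.2 ha, mem_range.2 hb⟩)
  have h6 := h5.trans (le_of_eq hv)
  exact Real.le_sqrt_of_sq_le h6

theorem Sb_zero (L : ℝ) : Sb Q τ g φ 0 L = bb Q τ g φ L := by
  funext w
  unfold Sb bb
  rw [zero_div, zero_mul, zero_div, add_zero]

include hG hI hH hMb hMg hS hQ hg hB hφ in
theorem lim2 {p : ℕ} (hp : 0 < p) :
    Tendsto (fun L : ℝ => n2 (TM M) (fun w => bb Q τ g φ L w - bb Q τ g φ (L / p) w))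
      atTop (𝓝 0) := by
  have hp0 : (0 : ℝ) < p := by exact_mod_cast hp
  have h1 := lim1 hG hI hH hMb hMg hS M hQ hg hB hφ 0 0 hp hp
  have h2 := h1.comp (tendsto_id.atTop_div_const hp0)
  refine h2.congr fun L => ?_
  show n2 (TM M) (fun w => Sb Q τ g φ (((0 : ℕ) : ℝ) - ((0 : ℕ) : ℝ)) (L / p) w -
    bb Q τ g φ (p * (L / p)) w) = _
  rw [sub_self, Sb_zero, mul_div_cancel₀ L hp0.ne', n2_sub_comm]

include hG hI hH hMb hMg hS hQ hg hB hφ in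
theorem lim3 (a b : ℕ) :
    Tendsto (fun L : ℝ => n2 (TM M) (fun w => Tb Q τ g φ ((a : ℝ) - b) L w - bb Q τ g φ L w))
      atTop (𝓝 0) := by
  set k := a + b + 1 with hk
  have hk0 : (0 : ℝ) < k := by exact_mod_cast (by omega : 0 < k)
  have h1 := lim1 (k := k) hG hI hH hMb hMg hS M hQ hg hB hφ a b (by omega) (by omega)
  have h2 := lim1 (k := k) hG hI hH hMb hMg hS M hQ hg hB hφ 0 0 (by omega) (by omega)
  have h3 := h1.add h2
  rw [add_zero] at h3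
  refine squeeze_zero' (Eventually.of_forall fun L => n2_nonneg _ _) ?_ h3
  filter_upwards [eventually_ge_atTop 1] with L hL
  have hkL : 1 ≤ (k : ℝ) * L := by
    have : (1 : ℝ) ≤ k := by exact_mod_cast (by omega : 1 ≤ k)
    nlinarith
  have cP := bb_cb hMg hQ hg hB hφ hkL
  have cb := bb_cb hMg hQ hg hB hφ hL
  have cS := Sb_cb hMg hQ hg hB hφ ((a : ℝ) - b) hL
  have cT := Tb_cb hMg hQ hg hB hφ ((a : ℝ) - b) hL
  have e1 := n2_tri (T := TM M) hH cT cS cb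
  have e2 := n2_tri (T := TM M) hH cS cP cb
  rw [n2_sub_comm (TM M) (Tb Q τ g φ ((a : ℝ) - b) L) (Sb Q τ g φ ((a : ℝ) - b) L),
    n2_SbTb hMg hS M hQ hg hB hφ _ hL, zero_add] at e1
  have e3 : n2 (TM M) (fun w => bb Q τ g φ (k * L) w - bb Q τ g φ L w) =
      n2 (TM M) (fun w => Sb Q τ g φ (((0 : ℕ) : ℝ) - ((0 : ℕ) : ℝ)) L w - bb Q τ g φ (k * L) w) := by
    rw [sub_self, Sb_zero, n2_sub_comm]
  rw [e3] at e2
  exact e1.trans e2

include hG hI hH hMb hMg hS hQ hg hB hφ in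
theorem lim4 (a b : ℕ) {p : ℕ} (hp : 0 < p) :
    Tendsto (fun L : ℝ => n2 (TM M) (fun w => Tb Q τ g φ ((a : ℝ) - b) L w -
      Tb Q τ g φ ((a : ℝ) - b) (L / p) w)) atTop (𝓝 0) := by
  have hp0 : (0 : ℝ) < p := by exact_mod_cast hp
  have h1 := lim3 hG hI hH hMb hMg hS M hQ hg hB hφ a b
  have h2 := lim2 hG hI hH hMb hMg hS M hQ hg hB hφ hp
  have h3 := h1.comp (tendsto_id.atTop_div_const hp0)
  have h4 := (h1.add h2).add h3
  rw [add_zero, add_zero] at h4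
  refine squeeze_zero' (Eventually.of_forall fun L => n2_nonneg _ _) ?_ h4
  filter_upwards [eventually_ge_atTop (p : ℝ)] with L hL
  have hp1 : (1 : ℝ) ≤ p := by exact_mod_cast hp
  have hL1 : 1 ≤ L := hp1.trans hL
  have hLp : 1 ≤ L / p := by
    rw [le_div_iff₀ hp0]
    linarith
  have cb := bb_cb hMg hQ hg hB hφ hL1
  have cb' := bb_cb hMg hQ hg hB hφ hLp
  have cT := Tb_cb hMg hQ hg hB hφ ((a : ℝ) - b) hL1
  have cT' := Tb_cb hMg hQ hg hB hφ ((a : ℝ) - b) hLp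
  have e1 := n2_tri (T := TM M) hH cT cb cT'
  have e2 := n2_tri (T := TM M) hH cb cb' cT'
  rw [n2_sub_comm (TM M) (bb Q τ g φ (L / p)) (Tb Q τ g φ ((a : ℝ) - b) (L / p))] at e2
  show _ ≤ n2 (TM M) (fun w => Tb Q τ g φ ((a : ℝ) - b) L w - bb Q τ g φ L w) +
    n2 (TM M) (fun w => bb Q τ g φ L w - bb Q τ g φ (L / p) w) +
    n2 (TM M) (fun w => Tb Q τ g φ ((a : ℝ) - b) (L / p) w - bb Q τ g φ (L / p) w)
  linarith

end

end MM

/-! ### General test functions -/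

theorem mm_pc {Q : Form} {τ : ℝ} {g : V → ℂ} (G : ℝ → ℝ → ℝ) {k : ℕ} (hk : 1 ≤ k) (u : ℝ) {L : ℝ}
    (hL : 0 < L) (w : ℕ × ℝ) : hmm Q τ g (pc G k u) L w.1 w.2 =
      (1 / (k : ℂ)) * Tb Q τ g (ph G (u / k)) u (L / k) w := by
  have hkp : (0 : ℝ) < k := by exact_mod_cast hk
  unfold Tb hmm pc F0
  have h : ∀ v : V, (k : ℝ) * (hly Q τ w.1 w.2 v / L) = hly Q τ w.1 w.2 v / (L / k) := by
    intro v
    field_simp
  simp_rw [h]
  push_cast
  have hk' : (k : ℂ) ≠ 0 := by exact_mod_cast hkp.ne'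
  have hL' : (L : ℂ) ≠ 0 := by exact_mod_cast hL.ne'
  field_simp

theorem pc_lim {d : ℕ} {Q : Form} {τ : ℝ} {g : V → ℂ} (hG : StGood) (hI : PE.StInv) (hH : StHil) (hMb : StHMb) (hMg : MgL Q τ g) (hS : ShL Q τ)
    (M : LMean) (hQ : Hyp d Q) (hg : Ug g) {B : ℝ} {G : ℝ → ℝ → ℝ}
    (hGT : GT B G) {k : ℕ} (hk : 1 ≤ k) (a b : ℕ) {p : ℕ} (hp : 0 < p) :
    Tendsto (fun L : ℝ => n2 (TM M) (fun w => hmm Q τ g (pc G k ((a : ℝ) - b)) L w.1 w.2 -
      hmm Q τ g (pc G k ((a : ℝ) - b)) (L / p) w.1 w.2)) atTop (𝓝 0) := by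
  have hkp : (0 : ℝ) < k := by exact_mod_cast hk
  have hpp : (0 : ℝ) < p := by exact_mod_cast hp
  have hφ := ph_Ph hGT (((a : ℝ) - b) / k)
  have h1 := lim4 hG hI hH hMb hMg hS M hQ hg hGT.1 hφ a b hp
  have h2 := (h1.comp (tendsto_id.atTop_div_const hkp)).const_mul (1 / (k : ℝ))
  rw [mul_zero] at h2
  refine h2.congr' ?_
  filter_upwards [eventually_ge_atTop ((k : ℝ) * p)] with L hL
  have hL0 : 0 < L := lt_of_lt_of_le (by positivity) hL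
  have hk1 : 1 ≤ L / k := by
    rw [le_div_iff₀ hkp]
    have : (1 : ℝ) ≤ p := by exact_mod_cast hp
    nlinarith
  have hk2 : 1 ≤ L / k / p := by
    rw [le_div_iff₀ hpp, le_div_iff₀ hkp]
    linarith
  have e1 : (fun w => hmm Q τ g (pc G k ((a : ℝ) - b)) L w.1 w.2 -
      hmm Q τ g (pc G k ((a : ℝ) - b)) (L / p) w.1 w.2) = fun w : ℕ × ℝ => (1 / (k : ℂ)) *
      (Tb Q τ g (ph G (((a : ℝ) - b) / k)) ((a : ℝ) - b) (L / k) w -
        Tb Q τ g (ph G (((a : ℝ) - b) / k)) ((a : ℝ) - b) (L / k / p) w) := by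
    funext w
    rw [mm_pc G hk _ hL0, mm_pc G hk _ (by positivity), mul_sub, div_right_comm]
  rw [e1, n2_smul _ _ ((Tb_cb hMg hQ hg hGT.1 hφ _ hk1).sub (Tb_cb hMg hQ hg hGT.1 hφ _ hk2))]
  show 1 / (k : ℝ) * n2 (TM M) (fun w => Tb Q τ g (ph G (((a : ℝ) - b) / k)) ((a : ℝ) - b)
    (L / k) w - Tb Q τ g (ph G (((a : ℝ) - b) / k)) ((a : ℝ) - b) (L / k / p) w) = _
  congr 1
  rw [norm_div, norm_one, Complex.norm_natCast]

end Plat96

open Plat96 in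
open Pool.Agent.Lib.MP_a17b09_nt.CH.PE.Plat22 (hat hat_zero hat_abs hat_nonneg hat_smul hat_sum
  conv_lemma CBdd_sq n2_nonneg n2_le n2_smul n2_sub_comm n2_add n2_tri n2_abs n2_sum ec_add ec_sum
  CBdd_conj ec_self n2_null n2_shift F0 Ph Ph_bdd F0_GT shift_GT good_cb good_cb' ph ph_Ph pc
  pc_sup pc_approx) in
/-- **E7**: the plateau -/
theorem stHPlat_96 (hG : StGood) (hI : PE.StInv) (hH : StHil) (hMb : StHMb) (hMg' : StHMg)
    (hS' : StHShift) : StHPlat := by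
  intro M d Q hQ a ha B G hGT g hg hga p hp
  have hτ : 0 < tauH a := tauH_pos96 ha
  have hMg : MgL Q (tauH a) g := fun B G hG L hL =>
    hMg' d Q hQ a ha B G hG g ⟨1, hg.1⟩ hg.2 hga L hL
  have hS : ShL Q (tauH a) := shL96 hS' hQ hτ
  set τ := tauH a with hτdef
  have hpp : (0 : ℝ) < p := by exact_mod_cast hp
  have hp1 : (1 : ℝ) ≤ p := by exact_mod_cast hp
  have hB := hGT.1
  have h2B : 1 ≤ 2 * B := by linarith
  obtain ⟨C, hC0, hC⟩ := pc_approx hGT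
  obtain ⟨D, hD0, hD⟩ := mm_bd hMb hQ h2B
  have hsG : Sup (2 * B) G := by
    intro x y hxy
    obtain ⟨a1, a2, a3⟩ := hGT.2.1 x y hxy
    exact ⟨(one_div_le_one_div_of_le (by linarith) (by linarith)).trans a1, by linarith,
      by linarith⟩
  rw [Metric.tendsto_atTop]
  intro ε hε
  obtain ⟨k0, hk0⟩ := exists_nat_gt (4 * (D * C) / ε)
  set k := k0 + 1 with hk
  have hk1 : 1 ≤ k := by omega
  have hkp : (0 : ℝ) < k := by exact_mod_cast hk1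
  have hkε : D * (C / k) < ε / 4 := by
    have h1 : 4 * (D * C) / ε < k := hk0.trans (by rw [hk]; push_cast; linarith)
    rw [div_lt_iff₀ hε] at h1
    rw [← mul_div_assoc, div_lt_iff₀ hkp]
    linarith
  obtain ⟨J, hJ⟩ := hC k hk1
  set s := range (2 * J + 1) with hs
  set G' : ℝ → ℝ → ℝ := fun x y => ∑ j ∈ s, pc G k ((j : ℝ) - J) x y with hG'
  have hsp : ∀ j ∈ s, Sup (2 * B) (pc G k ((j : ℝ) - J)) := fun j _ => pc_sup hGT hk1 _
  have hsG' : Sup (2 * B) G' := by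
    intro x y hxy
    obtain ⟨j, hj, hne⟩ := exists_ne_zero_of_sum_ne_zero hxy
    exact hsp j hj x y hne
  have hsd : Sup (2 * B) (fun x y => G x y - G' x y) := by
    intro x y hxy
    by_cases h1 : G x y = 0
    · refine hsG' x y fun h2 => hxy ?_
      beta_reduce
      rw [h1, h2, sub_zero]
    · exact hsG x y h1
  -- the three terms
  have t1 : ∀ L : ℝ, 1 ≤ L → n2 (TM M) (fun w => hmm Q τ g G L w.1 w.2 - hmm Q τ g G' L w.1 w.2) ≤
      D * (C / k) := by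
    intro L hL
    refine n2_le _ (by positivity) fun w => ?_
    rw [← mm_sub hMb hQ hg h2B hsG hsG' hL]
    exact hD g hg _ _ (by positivity) hsd hJ L w.1 w.2 hL
  have t2 : Tendsto (fun L : ℝ => ∑ j ∈ s, n2 (TM M) (fun w =>
      hmm Q τ g (pc G k ((j : ℝ) - J)) L w.1 w.2 -
        hmm Q τ g (pc G k ((j : ℝ) - J)) (L / p) w.1 w.2)) atTop (𝓝 0) := by
    have := tendsto_finsetSum s fun j _ =>
      pc_lim hG hI hH hMb hMg hS M hQ hg hGT hk1 j J hp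
    simpa using this
  rw [Metric.tendsto_atTop] at t2
  obtain ⟨L0, hL0⟩ := t2 (ε / 4) (by positivity)
  refine ⟨max L0 p, fun L hL => ?_⟩
  have hLL0 : L0 ≤ L := (le_max_left _ _).trans hL
  have hLp' : (p : ℝ) ≤ L := (le_max_right _ _).trans hL
  have hL1 : 1 ≤ L := hp1.trans hLp'
  have hLp : 1 ≤ L / p := by
    rw [le_div_iff₀ hpp]
    linarith
  have h3 := hL0 L hLL0
  rw [Real.dist_eq, sub_zero, abs_of_nonneg (sum_nonneg fun j _ => n2_nonneg _ _)] at h3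
  rw [Real.dist_eq, sub_zero, abs_of_nonneg (n2_nonneg _ _)]
  -- boundedness
  have cb : ∀ (F : ℝ → ℝ → ℝ), Sup (2 * B) F → (∃ K, 0 ≤ K ∧ ∀ x y, |F x y| ≤ K) →
      ∀ L, 1 ≤ L → CBdd (fun w : ℕ × ℝ => hmm Q τ g F L w.1 w.2) := by
    rintro F hF ⟨K, hK0, hK⟩ L hL
    exact ⟨D * K, fun w => hD g hg F K hK0 hF hK L w.1 w.2 hL⟩
  have cG : ∀ L, 1 ≤ L → CBdd (fun w : ℕ × ℝ => hmm Q τ g G L w.1 w.2) := fun L hL =>
    good_cb (mm_good hMg hQ hg hGT hL)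
  have cpc : ∀ j ∈ s, ∀ L, 1 ≤ L → CBdd (fun w : ℕ × ℝ =>
      hmm Q τ g (pc G k ((j : ℝ) - J)) L w.1 w.2) := by
    intro j hj
    refine cb _ (hsp j hj) ?_
    obtain ⟨C1, K, -, hK0, -, hK⟩ := Ph_bdd hB (ph_Ph hGT (((j : ℝ) - J) / k))
    refine ⟨K * B, by positivity, fun x y => ?_⟩
    unfold pc
    by_cases h0 : ph G (((j : ℝ) - J) / k) x = 0
    · rw [h0, zero_mul, abs_zero]
      positivity
    · have h1 := (ph_Ph hGT (((j : ℝ) - J) / k)).2 x h0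
      have hpB : 0 < 1 / B := by positivity
      rw [abs_mul]
      refine mul_le_mul (hK x) ((hat_abs _ _).trans ?_) (abs_nonneg _) hK0
      rw [abs_of_pos (show 0 < x by linarith)]
      exact h1.2
  have eG' : ∀ L, 1 ≤ L → (fun w : ℕ × ℝ => hmm Q τ g G' L w.1 w.2) = fun w : ℕ × ℝ =>
      ∑ j ∈ s, hmm Q τ g (pc G k ((j : ℝ) - J)) L w.1 w.2 := by
    intro L hL
    funext w
    exact mm_sum hMb hQ hg h2B s (fun j => pc G k ((j : ℝ) - J)) hsp hL _ _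
  have cG' : ∀ L, 1 ≤ L → CBdd (fun w : ℕ × ℝ => hmm Q τ g G' L w.1 w.2) := by
    intro L hL
    rw [eG' L hL]
    exact CBdd.sum s _ fun j hj => cpc j hj L hL
  have e1 := n2_tri (T := TM M) hH (cG L hL1) (cG' L hL1) (cG (L / p) hLp)
  have e2 := n2_tri (T := TM M) hH (cG' L hL1) (cG' (L / p) hLp) (cG (L / p) hLp)
  have e3 : n2 (TM M) (fun w => hmm Q τ g G' L w.1 w.2 - hmm Q τ g G' (L / p) w.1 w.2) ≤
      ∑ j ∈ s, n2 (TM M) (fun w => hmm Q τ g (pc G k ((j : ℝ) - J)) L w.1 w.2 -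
        hmm Q τ g (pc G k ((j : ℝ) - J)) (L / p) w.1 w.2) := by
    have e4 : (fun w : ℕ × ℝ => hmm Q τ g G' L w.1 w.2 - hmm Q τ g G' (L / p) w.1 w.2) =
        fun w : ℕ × ℝ => ∑ j ∈ s, (hmm Q τ g (pc G k ((j : ℝ) - J)) L w.1 w.2 -
          hmm Q τ g (pc G k ((j : ℝ) - J)) (L / p) w.1 w.2) := by
      funext w
      rw [sum_sub_distrib]
      have h5 := congrFun (eG' L hL1) w
      have h6 := congrFun (eG' (L / p) hLp) w
      beta_reduce at h5 h6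
      rw [h5, h6]
    rw [e4]
    exact n2_sum (T := TM M) hH s _ fun j hj => (cpc j hj L hL1).sub (cpc j hj (L / p) hLp)
  have e4 := t1 L hL1
  have e5 := t1 (L / p) hLp
  rw [n2_sub_comm] at e5
  show n2 (TM M) (fun w => hmm Q τ g G L w.1 w.2 - hmm Q τ g G (L / p) w.1 w.2) < ε
  linarith

end Pool.Agent.Lib.MP_a17b09_nt.HY
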