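import Pool.Agent.Lib.MP_a17b09_nt.HY.Inv7
import Pool.Agent.Lib.MP_a17b09_nt.CH.PsA17

/-!
Project HY, module E15: almost invariance of the bilinear function of the level.
-/

set_option autoImplicit false

open Filter Topology Finset

namespace Pool.Agent.Lib.MP_a17b09_nt.HY

open Pool.Agent.Lib.MP_a17b09_nt.CH
open Pool.Agent.Lib.MP_a17b09_nt.CH.PE
open Pool.Agent.Lib.MP_a17b09_nt.HY.Inv7

section main

variable {ι : Type} [Fintype ι] (S : HSystem ι) (K : ℕ) [NeZero K]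

/-- the transformed functions, of real `x` -/
noncomputable def huf (τ : ℝ) (φ : ℕ → ι → ℝ) (z : ℂ) (G : ℝ → ℝ → ℝ) (L : ℝ) (p : ℕ)
    (j : ι × (ZMod K × ZMod K)) (x θ : ℝ) : ℂ :=
  z * hmF S K τ z G L (hjp S K p j) (x / p) (θ - φ p j.1)

/-- the norm of the difference -/
noncomputable def hnf (τ : ℝ) (φ : ℕ → ι → ℝ) (z : ℂ) (G : ℝ → ℝ → ℝ) (L : ℝ) (p : ℕ)
    (j : ι × (ZMod K × ZMod K)) (x θ : ℝ) : ℂ :=
  (‖hmF S K τ z G L j x θ - huf S K τ φ z G L p j x θ‖ : ℝ)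

theorem hpsn_point {om : ι → V → V → ℂ} (hom : HWt S K om) {co D : ℝ} (hco0 : 0 ≤ co)
    (hco : ∀ i (α β : ZMod K × ZMod K), ‖om i (rz α) (rz β)‖ ≤ co) (hD0 : 0 ≤ D)
    (τ : ℝ) (φ : ℕ → ι → ℝ) (z1 z2 : ℂ) (G1 G2 : ℝ → ℝ → ℝ) (L : ℝ)
    (hg1 : ∀ j, Good (hmF S K τ z1 G1 L j)) (hg2 : ∀ j, Good (hmF S K τ z2 G2 L j))
    (hb1 : ∀ p j x θ, ‖huf S K τ φ z1 G1 L p j x θ‖ ≤ D) (hb2 : ∀ j x θ, ‖hmF S K τ z2 G2 L j x θ‖ ≤ D)
    {p : ℕ} (hp : p.Prime) (h4 : p ≡ 1 [MOD 4 * S.d]) (hK : p ≡ 1 [MOD K]) :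
    ∀ᶠ n : ℕ in atTop, ‖HPsN S τ z1 z2 K om G1 G2 L n - z1 * z2 * HPsN S τ z1 z2 K om G1 G2 L ((n : ℝ) / p)‖
      ≤ (co * D * (K * K)) * (∑ j, (im (hnf S K τ φ z1 G1 L p j) n).re +
        ∑ j, (im (hnf S K τ φ z2 G2 L p j) n).re) := by
  have hu1 : ∀ j, Good (huf S K τ φ z1 G1 L p j) := fun j =>
    ((hg1 (hjp S K p j)).dil p hp.pos (φ p j.1)).smul z1
  have hu2 : ∀ j, Good (huf S K τ φ z2 G2 L p j) := fun j =>
    ((hg2 (hjp S K p j)).dil p hp.pos (φ p j.1)).smul z2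
  have hn1 : ∀ j, Good (hnf S K τ φ z1 G1 L p j) := fun j => ((hg1 j).sub (hu1 j)).nrm
  have hn2 : ∀ j, Good (hnf S K τ φ z2 G2 L p j) := fun j => ((hg2 j).sub (hu2 j)).nrm
  -- a common threshold for continuity
  have hcont : ∀ᶠ x : ℝ in atTop, ∀ j, Continuous (hmF S K τ z1 G1 L j x) ∧
      Continuous (hmF S K τ z2 G2 L j x) ∧ Continuous (huf S K τ φ z1 G1 L p j x) ∧
      Continuous (huf S K τ φ z2 G2 L p j x) ∧ Continuous (hnf S K τ φ z1 G1 L p j x) ∧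
      Continuous (hnf S K τ φ z2 G2 L p j x) := by
    rw [eventually_all]
    intro j
    obtain ⟨a1, h1⟩ := (hg1 j).cont
    obtain ⟨a2, h2⟩ := (hg2 j).cont
    obtain ⟨a3, h3⟩ := (hu1 j).cont
    obtain ⟨a4, h4⟩ := (hu2 j).cont
    obtain ⟨a5, h5⟩ := (hn1 j).cont
    obtain ⟨a6, h6⟩ := (hn2 j).cont
    filter_upwards [eventually_ge_atTop a1, eventually_ge_atTop a2, eventually_ge_atTop a3,
      eventually_ge_atTop a4, eventually_ge_atTop a5, eventually_ge_atTop a6] with x x1 x2 x3 x4 x5 x6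
    exact ⟨h1 x x1, h2 x x2, h3 x x3, h4 x x4, h5 x x5, h6 x x6⟩
  have hcontN := tendsto_natCast_atTop_atTop (R := ℝ) |>.eventually hcont
  filter_upwards [hcontN] with n hn
  let H : ι → (ZMod K × ZMod K) → (ZMod K × ZMod K) → ℝ → ℂ := fun i α β x =>
    if wz α β = 1 then om i (rz α) (rz β) *
      im (fun x θ => hmF S K τ z1 G1 L (i, α) x θ * hmF S K τ z2 G2 L (i, β) x θ) x else 0
  let H' : ι → (ZMod K × ZMod K) → (ZMod K × ZMod K) → ℂ := fun i α β =>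
    if wz α β = 1 then om i (rz α) (rz β) *
      im (fun x θ => huf S K τ φ z1 G1 L p (i, α) x θ * huf S K τ φ z2 G2 L p (i, β) x θ) n else 0
  have hPs : ∀ x, HPsN S τ z1 z2 K om G1 G2 L x = ∑ i, ∑ α, ∑ β, H i α β x := fun x => rfl
  have him : ∀ i α β, im (fun x θ => huf S K τ φ z1 G1 L p (i, α) x θ *
      huf S K τ φ z2 G2 L p (i, β) x θ) n = z1 * z2 *
        im (fun x θ => hmF S K τ z1 G1 L (hjp S K p (i, α)) x θ *
          hmF S K τ z2 G2 L (hjp S K p (i, β)) x θ) ((n : ℝ) / p) := by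
    intro i α β
    have hF : Good (fun x θ => hmF S K τ z1 G1 L (hjp S K p (i, α)) x θ *
      hmF S K τ z2 G2 L (hjp S K p (i, β)) x θ) := (hg1 _).mul (hg2 _)
    rw [← im_dil hF p (φ p i) n, ← im_smul]
    congr 1
    funext x θ
    unfold huf
    ring
  have hH' : ∀ i α β, H' i α β = z1 * z2 * H (S.s p i) (az (adj (S.M p i)) α)
      (az (adj (S.M p i)) β) ((n : ℝ) / p) := by
    intro i α β
    have hd := hdet_one S (K := K) hp h4 hK i
    simp only [H, H']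
    rw [wz_adj _ hd, hom_inv S hom hp h4 hK i hd, him]
    split_ifs
    · simp only [hjp]; ring
    · ring
  have hsum : ∑ i, ∑ α, ∑ β, H' i α β = z1 * z2 * HPsN S τ z1 z2 K om G1 G2 L ((n : ℝ) / p) := by
    rw [hPs]
    have h1 : ∀ i, ∑ α, ∑ β, H' i α β =
        z1 * z2 * ∑ α, ∑ β, H (S.s p i) α β ((n : ℝ) / p) := by
      intro i
      have hd := hdet_one S (K := K) hp h4 hK i
      have h2 : ∀ α, ∑ β, H' i α β =
          z1 * z2 * ∑ β, H (S.s p i) (az (adj (S.M p i)) α) β ((n : ℝ) / p) := by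
        intro α
        rw [Finset.sum_congr rfl fun β _ => hH' i α β, ← Finset.mul_sum]
        congr 1
        exact Equiv.sum_comp (azE (S.M p i) hd)
          (fun β => H (S.s p i) (az (adj (S.M p i)) α) β ((n : ℝ) / p))
      rw [Finset.sum_congr rfl fun α _ => h2 α, ← Finset.mul_sum]
      congr 1
      exact Equiv.sum_comp (azE (S.M p i) hd) (fun α => ∑ β, H (S.s p i) α β ((n : ℝ) / p))
    rw [Finset.sum_congr rfl fun i _ => h1 i, ← Finset.mul_sum]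
    congr 1
    exact Equiv.sum_comp (S.s p) (fun i => ∑ α, ∑ β, H i α β ((n : ℝ) / p))
  rw [← hsum, hPs]
  set N1 : ι × (ZMod K × ZMod K) → ℝ := fun j => (im (hnf S K τ φ z1 G1 L p j) n).re with hN1
  set N2 : ι × (ZMod K × ZMod K) → ℝ := fun j => (im (hnf S K τ φ z2 G2 L p j) n).re with hN2
  have hN10 : ∀ j, 0 ≤ N1 j := by
    intro j
    have := norm_im_le (f := fun _ _ => 0) (hn j).2.2.2.2.1 (x := (n : ℝ)) (fun θ => by
      rw [norm_zero]; unfold hnf; rw [Complex.ofReal_re]; exact norm_nonneg _)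
    exact (norm_nonneg _).trans this
  have hN20 : ∀ j, 0 ≤ N2 j := by
    intro j
    have := norm_im_le (f := fun _ _ => 0) (hn j).2.2.2.2.2 (x := (n : ℝ)) (fun θ => by
      rw [norm_zero]; unfold hnf; rw [Complex.ofReal_re]; exact norm_nonneg _)
    exact (norm_nonneg _).trans this
  have hterm : ∀ i α β, ‖H i α β n - H' i α β‖ ≤ co * D * (N1 (i, α) + N2 (i, β)) := by
    intro i α β
    have hpos : 0 ≤ co * D * (N1 (i, α) + N2 (i, β)) :=
      mul_nonneg (mul_nonneg hco0 hD0) (add_nonneg (hN10 _) (hN20 _))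
    simp only [H, H']
    split_ifs with hw
    · rw [← mul_sub, norm_mul, mul_assoc]
      refine mul_le_mul (hco i α β) ?_ (norm_nonneg _) hco0
      obtain ⟨c1, -, c3, -, c5, -⟩ := hn (i, α)
      obtain ⟨-, d2, -, d4, -, d6⟩ := hn (i, β)
      rw [← im_sub_of (f := fun x θ => hmF S K τ z1 G1 L (i, α) x θ * hmF S K τ z2 G2 L (i, β) x θ)
        (g := fun x θ => huf S K τ φ z1 G1 L p (i, α) x θ * huf S K τ φ z2 G2 L p (i, β) x θ)
        (c1.mul d2) (c3.mul d4)]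
      have hcg : Continuous (fun θ => (D : ℂ) * hnf S K τ φ z1 G1 L p (i, α) n θ +
          (D : ℂ) * hnf S K τ φ z2 G2 L p (i, β) n θ) :=
        (continuous_const.mul c5).add (continuous_const.mul d6)
      have h1 := norm_im_le (x := (n : ℝ)) (f := fun x θ => hmF S K τ z1 G1 L (i, α) x θ *
          hmF S K τ z2 G2 L (i, β) x θ - huf S K τ φ z1 G1 L p (i, α) x θ *
            huf S K τ φ z2 G2 L p (i, β) x θ)
        (g := fun x θ => (D : ℂ) * hnf S K τ φ z1 G1 L p (i, α) x θ +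
          (D : ℂ) * hnf S K τ φ z2 G2 L p (i, β) x θ) hcg ?_
      · refine h1.trans (le_of_eq ?_)
        have e : im (fun x θ => (D : ℂ) * hnf S K τ φ z1 G1 L p (i, α) x θ +
            (D : ℂ) * hnf S K τ φ z2 G2 L p (i, β) x θ) n =
            (D : ℂ) * im (hnf S K τ φ z1 G1 L p (i, α)) n +
              (D : ℂ) * im (hnf S K τ φ z2 G2 L p (i, β)) n := by
          have hi1 : IntervalIntegrable (fun θ => (D : ℂ) * hnf S K τ φ z1 G1 L p (i, α) n θ)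
              MeasureTheory.volume 0 (2 * Real.pi) :=
            (continuous_const.mul c5).intervalIntegrable _ _
          have hi2 : IntervalIntegrable (fun θ => (D : ℂ) * hnf S K τ φ z2 G2 L p (i, β) n θ)
              MeasureTheory.volume 0 (2 * Real.pi) :=
            (continuous_const.mul d6).intervalIntegrable _ _
          have hadd := intervalIntegral.integral_add hi1 hi2
          rw [intervalIntegral.integral_const_mul, intervalIntegral.integral_const_mul] at hadd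
          unfold im
          rw [hadd]
          ring
        rw [e, Complex.add_re, Complex.re_ofReal_mul, Complex.re_ofReal_mul]
        simp only [hN1, hN2]
        ring
      · intro θ
        have e2 : ((D : ℂ) * hnf S K τ φ z1 G1 L p (i, α) n θ +
            (D : ℂ) * hnf S K τ φ z2 G2 L p (i, β) n θ).re =
            D * ‖hmF S K τ z1 G1 L (i, α) n θ - huf S K τ φ z1 G1 L p (i, α) n θ‖ +
            D * ‖hmF S K τ z2 G2 L (i, β) n θ - huf S K τ φ z2 G2 L p (i, β) n θ‖ := by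
          unfold hnf
          rw [Complex.add_re, Complex.re_ofReal_mul, Complex.re_ofReal_mul, Complex.ofReal_re,
            Complex.ofReal_re]
        rw [e2]
        have e3 : hmF S K τ z1 G1 L (i, α) n θ * hmF S K τ z2 G2 L (i, β) n θ -
            huf S K τ φ z1 G1 L p (i, α) n θ * huf S K τ φ z2 G2 L p (i, β) n θ =
            (hmF S K τ z1 G1 L (i, α) n θ - huf S K τ φ z1 G1 L p (i, α) n θ) *
              hmF S K τ z2 G2 L (i, β) n θ +
            huf S K τ φ z1 G1 L p (i, α) n θ *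
              (hmF S K τ z2 G2 L (i, β) n θ - huf S K τ φ z2 G2 L p (i, β) n θ) := by ring
        show ‖hmF S K τ z1 G1 L (i, α) n θ * hmF S K τ z2 G2 L (i, β) n θ -
            huf S K τ φ z1 G1 L p (i, α) n θ * huf S K τ φ z2 G2 L p (i, β) n θ‖ ≤ _
        rw [e3]
        refine (norm_add_le _ _).trans ?_
        rw [norm_mul, norm_mul]
        have h2 := mul_le_mul_of_nonneg_left (hb2 (i, β) n θ)
          (norm_nonneg (hmF S K τ z1 G1 L (i, α) n θ - huf S K τ φ z1 G1 L p (i, α) n θ))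
        have h3 := mul_le_mul_of_nonneg_right (hb1 p (i, α) n θ)
          (norm_nonneg (hmF S K τ z2 G2 L (i, β) n θ - huf S K τ φ z2 G2 L p (i, β) n θ))
        linarith
    · rw [sub_zero, norm_zero]; exact hpos
  have e1 : ∑ i, ∑ α, ∑ β, H i α β n - ∑ i, ∑ α, ∑ β, H' i α β =
      ∑ i, ∑ α, ∑ β, (H i α β n - H' i α β) := by
    simp only [Finset.sum_sub_distrib]
  rw [e1]
  have hle : ‖∑ i, ∑ α, ∑ β, (H i α β n - H' i α β)‖ ≤
      ∑ i, ∑ α : ZMod K × ZMod K, ∑ β : ZMod K × ZMod K,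
        co * D * (N1 (i, α) + N2 (i, β)) := by
    refine (norm_sum_le _ _).trans (Finset.sum_le_sum fun i _ => ?_)
    refine (norm_sum_le _ _).trans (Finset.sum_le_sum fun α _ => ?_)
    exact (norm_sum_le _ _).trans (Finset.sum_le_sum fun β _ => hterm i α β)
  refine hle.trans (le_of_eq ?_)
  rw [Fintype.sum_prod_type, Fintype.sum_prod_type, ← Finset.sum_add_distrib, Finset.mul_sum]
  refine Finset.sum_congr rfl fun i _ => ?_
  simp only [← Finset.mul_sum, Finset.sum_add_distrib, Finset.sum_const, Finset.card_univ,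
    Fintype.card_prod, ZMod.card, nsmul_eq_mul]
  push_cast
  ring

end main

theorem stHPsA_17 (hSq : StHSq) (hPsv : StHPsv) (hMb : StHMb) (hMg : StHMg) : StHPsA := by
  intro ι _ S z1 z2 hz1 hz2 K _ h4K a ha haK om hom B G1 G2 hG1 hG2
  obtain ⟨φ, hφ⟩ := hSq ι S K h4K a ha haK
  set τ := tauH a with hτ
  obtain ⟨C1, hC10, hC1⟩ := hφ z1 hz1 B G1 hG1
  obtain ⟨C2, hC20, hC2⟩ := hφ z2 hz2 B G2 hG2
  obtain ⟨D1, hD10, hD1⟩ := hmm_bound hMb S.Q S.hyp hG1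
  obtain ⟨D2, hD20, hD2⟩ := hmm_bound hMb S.Q S.hyp hG2
  obtain ⟨Cp, hCp⟩ := hPsv ι S z1 z2 hz1 hz2 K a ha haK om hom B G1 G2 hG1 hG2
  obtain ⟨co, hco0, hco⟩ : ∃ c : ℝ, 0 ≤ c ∧ ∀ i (α β : ZMod K × ZMod K),
      ‖om i (rz α) (rz β)‖ ≤ c := by
    refine ⟨∑ t : ι × ((ZMod K × ZMod K) × (ZMod K × ZMod K)), ‖om t.1 (rz t.2.1) (rz t.2.2)‖,
      Finset.sum_nonneg fun _ _ => norm_nonneg _, fun i α β => ?_⟩
    exact Finset.single_le_sum
      (f := fun t : ι × ((ZMod K × ZMod K) × (ZMod K × ZMod K)) => ‖om t.1 (rz t.2.1) (rz t.2.2)‖)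
      (fun _ _ => norm_nonneg _) (Finset.mem_univ (i, (α, β)))
  set D := D1 + D2 with hD
  have hD0 : 0 ≤ D := add_nonneg hD10 hD20
  set A0 := co * D * (K * K) with hA0
  have hA00 : 0 ≤ A0 := by positivity
  set cJ : ℝ := ((Fintype.card (ι × (ZMod K × ZMod K)) : ℕ) : ℝ) with hcJ
  have hcJ0 : 0 ≤ cJ := Nat.cast_nonneg _
  refine ⟨A0 ^ 2 * (2 * cJ) * (C1 + C2) + 1, by positivity, ?_⟩
  intro M R hR
  obtain ⟨La, hLa1, hLa⟩ := hC1 M R hR
  obtain ⟨Lb, hLb1, hLb⟩ := hC2 M R hR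
  refine ⟨max La Lb, le_max_of_le_left hLa1, ?_⟩
  intro L hL
  have hL1 : 1 ≤ L := hLa1.trans ((le_max_left _ _).trans hL)
  have hsum1 := hLa L ((le_max_left _ _).trans hL)
  have hsum2 := hLb L ((le_max_right _ _).trans hL)
  set W := ∑ p ∈ R, 1 / (p : ℝ) with hW
  have hW0 : 0 ≤ W := Finset.sum_nonneg fun p _ => by positivity
  have hg1 : ∀ j, Good (hmF S K τ z1 G1 L j) := fun j => by
    have hU := gc_Ug hz1 (S.Q j.1) K j.2
    exact hMg S.d (S.Q j.1) (S.hyp j.1) a ha B G1 hG1 _ ⟨1, hU.1⟩ hU.2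
      (gc_AI (S.hyp j.1) haK z1 j.2) L hL1
  have hg2 : ∀ j, Good (hmF S K τ z2 G2 L j) := fun j => by
    have hU := gc_Ug hz2 (S.Q j.1) K j.2
    exact hMg S.d (S.Q j.1) (S.hyp j.1) a ha B G2 hG2 _ ⟨1, hU.1⟩ hU.2
      (gc_AI (S.hyp j.1) haK z2 j.2) L hL1
  have hm1 : ∀ j x θ, ‖hmF S K τ z1 G1 L j x θ‖ ≤ D := fun j x θ =>
    (hD1 j.1 _ (gc_Ug hz1 _ K j.2) τ L x θ hL1).trans (by linarith)
  have hm2 : ∀ j x θ, ‖hmF S K τ z2 G2 L j x θ‖ ≤ D := fun j x θ =>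
    (hD2 j.1 _ (gc_Ug hz2 _ K j.2) τ L x θ hL1).trans (by linarith)
  have hu1 : ∀ p j x θ, ‖huf S K τ φ z1 G1 L p j x θ‖ ≤ D := by
    intro p j x θ
    unfold huf
    rw [norm_mul, hz1, one_mul]
    exact hm1 _ _ _
  have hu2 : ∀ p j x θ, ‖huf S K τ φ z2 G2 L p j x θ‖ ≤ D := by
    intro p j x θ
    unfold huf
    rw [norm_mul, hz2, one_mul]
    exact hm2 _ _ _
  have hgu1 : ∀ p ∈ R, ∀ j, Good (huf S K τ φ z1 G1 L p j) := fun p hp j =>
    ((hg1 (hjp S K p j)).dil p (hR p hp).1.pos (φ p j.1)).smul z1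
  have hgu2 : ∀ p ∈ R, ∀ j, Good (huf S K τ φ z2 G2 L p j) := fun p hp j =>
    ((hg2 (hjp S K p j)).dil p (hR p hp).1.pos (φ p j.1)).smul z2
  -- the seminorms
  let t1 : ℕ → (ι × (ZMod K × ZMod K)) → ℝ := fun p j =>
    (TM M).E (fun w => ‖sm (fun x θ => hmF S K τ z1 G1 L j x θ - huf S K τ φ z1 G1 L p j x θ) w‖ ^ 2)
  let t2 : ℕ → (ι × (ZMod K × ZMod K)) → ℝ := fun p j =>
    (TM M).E (fun w => ‖sm (fun x θ => hmF S K τ z2 G2 L j x θ - huf S K τ φ z2 G2 L p j x θ) w‖ ^ 2)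
  have hs1 : ∑ p ∈ R, (1 / (p : ℝ)) * ∑ j, t1 p j ≤ C1 * (√W + 1) := by
    refine le_trans (le_of_eq ?_) hsum1
    refine Finset.sum_congr rfl fun p _ => ?_
    rw [Fintype.sum_prod_type]
    rfl
  have hs2 : ∑ p ∈ R, (1 / (p : ℝ)) * ∑ j, t2 p j ≤ C2 * (√W + 1) := by
    refine le_trans (le_of_eq ?_) hsum2
    refine Finset.sum_congr rfl fun p _ => ?_
    rw [Fintype.sum_prod_type]
    rfl
  let sp : ℕ → ℝ := fun p => M.E (fun n => ‖HPsN S τ z1 z2 K om G1 G2 L n -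
    z1 * z2 * HPsN S τ z1 z2 K om G1 G2 L ((n : ℝ) / p)‖)
  have hspb : ∀ p : ℕ, Bdd (fun n : ℕ => ‖HPsN S τ z1 z2 K om G1 G2 L n -
      z1 * z2 * HPsN S τ z1 z2 K om G1 G2 L ((n : ℝ) / p)‖) := by
    intro p
    refine ⟨Cp + Cp, fun n => ?_⟩
    rw [abs_of_nonneg (norm_nonneg _)]
    refine (norm_sub_le _ _).trans ?_
    rw [norm_mul, norm_mul, hz1, hz2, one_mul, one_mul]
    exact add_le_add ((hCp L hL1).1 _) ((hCp L hL1).1 _)
  have hsp0 : ∀ p, 0 ≤ sp p := fun p => M.nonneg _ (hspb p) fun n => norm_nonneg _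
  have key : ∀ p ∈ R, sp p ≤ A0 * (∑ j, √(t1 p j) + ∑ j, √(t2 p j)) := by
    intro p hp
    have h4 : p ≡ 1 [MOD 4 * S.d] := (hR p hp).2.of_dvd h4K
    have hev := hpsn_point S K hom hco0 hco hD0 τ φ z1 z2 G1 G2 L hg1 hg2 hu1 hm2 (hR p hp).1 h4
      (hR p hp).2
    have hd1 : ∀ j, Good (fun x θ => hmF S K τ z1 G1 L j x θ - huf S K τ φ z1 G1 L p j x θ) := fun j =>
      (hg1 j).sub (hgu1 p hp j)
    have hd2 : ∀ j, Good (fun x θ => hmF S K τ z2 G2 L j x θ - huf S K τ φ z2 G2 L p j x θ) := fun j =>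
      (hg2 j).sub (hgu2 p hp j)
    have hb1 : ∀ j, Bdd (fun n : ℕ => (im (hnf S K τ φ z1 G1 L p j) n).re) := fun j =>
      (im_bdd (hd1 j).nrm).re
    have hb2 : ∀ j, Bdd (fun n : ℕ => (im (hnf S K τ φ z2 G2 L p j) n).re) := fun j =>
      (im_bdd (hd2 j).nrm).re
    have hB1 := Bdd.sum Finset.univ (fun j (n : ℕ) => (im (hnf S K τ φ z1 G1 L p j) n).re)
      fun j _ => hb1 j
    have hB2 := Bdd.sum Finset.univ (fun j (n : ℕ) => (im (hnf S K τ φ z2 G2 L p j) n).re)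
      fun j _ => hb2 j
    have h1 := E_mono_ev M (hspb p) ((hB1.add hB2).smul A0) hev
    refine h1.trans ?_
    rw [M.smul _ _ (hB1.add hB2), M.add _ _ hB1 hB2,
      M.sum Finset.univ (fun j (n : ℕ) => (im (hnf S K τ φ z1 G1 L p j) n).re) fun j _ => hb1 j,
      M.sum Finset.univ (fun j (n : ℕ) => (im (hnf S K τ φ z2 G2 L p j) n).re) fun j _ => hb2 j]
    refine mul_le_mul_of_nonneg_left (add_le_add ?_ ?_) hA00
    · refine Finset.sum_le_sum fun j _ => ?_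
      have h2 := E_norm_eq M (hd1 j)
      have h3 := E_norm_le_n2 (TM M) (hd1 j).cbdd
      rw [h2] at h3
      exact h3
    · refine Finset.sum_le_sum fun j _ => ?_
      have h2 := E_norm_eq M (hd2 j)
      have h3 := E_norm_le_n2 (TM M) (hd2 j).cbdd
      rw [h2] at h3
      exact h3
  have ht10 : ∀ p ∈ R, ∀ j, 0 ≤ t1 p j := fun p hp j =>
    (TM M).E_nonneg_sq ((hg1 j).sub (hgu1 p hp j)).cbdd
  have ht20 : ∀ p ∈ R, ∀ j, 0 ≤ t2 p j := fun p hp j =>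
    (TM M).E_nonneg_sq ((hg2 j).sub (hgu2 p hp j)).cbdd
  have hsq : ∀ p ∈ R, sp p ^ 2 ≤ A0 ^ 2 * (2 * cJ) * (∑ j, t1 p j + ∑ j, t2 p j) := by
    intro p hp
    have h1 : (∑ j, √(t1 p j)) ^ 2 ≤ cJ * ∑ j, t1 p j := by
      have := sq_sum_le_card_mul_sum_sq (s := (Finset.univ : Finset (ι × (ZMod K × ZMod K))))
        (f := fun j => √(t1 p j))
      rw [Finset.card_univ] at this
      refine this.trans (le_of_eq ?_)
      congr 1
      exact Finset.sum_congr rfl fun j _ => Real.sq_sqrt (ht10 p hp j)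
    have h2 : (∑ j, √(t2 p j)) ^ 2 ≤ cJ * ∑ j, t2 p j := by
      have := sq_sum_le_card_mul_sum_sq (s := (Finset.univ : Finset (ι × (ZMod K × ZMod K))))
        (f := fun j => √(t2 p j))
      rw [Finset.card_univ] at this
      refine this.trans (le_of_eq ?_)
      congr 1
      exact Finset.sum_congr rfl fun j _ => Real.sq_sqrt (ht20 p hp j)
    have h3 : sp p ^ 2 ≤ (A0 * (∑ j, √(t1 p j) + ∑ j, √(t2 p j))) ^ 2 :=
      pow_le_pow_left₀ (hsp0 p) (key p hp) 2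
    refine h3.trans ?_
    rw [mul_pow, mul_assoc]
    refine mul_le_mul_of_nonneg_left ?_ (sq_nonneg A0)
    nlinarith [sq_nonneg ((∑ j, √(t1 p j)) - ∑ j, √(t2 p j))]
  have hCS : (∑ p ∈ R, (1 / (p : ℝ)) * sp p) ^ 2 ≤ W * ∑ p ∈ R, (1 / (p : ℝ)) * sp p ^ 2 := by
    have h1 := Finset.sum_mul_sq_le_sq_mul_sq R (fun p => √(1 / (p : ℝ)))
      (fun p => √(1 / (p : ℝ)) * sp p)
    have e1 : ∀ p : ℕ, √(1 / (p : ℝ)) * (√(1 / (p : ℝ)) * sp p) = (1 / (p : ℝ)) * sp p := by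
      intro p
      rw [← mul_assoc, Real.mul_self_sqrt (by positivity)]
    have e2 : ∀ p : ℕ, √(1 / (p : ℝ)) ^ 2 = 1 / (p : ℝ) := fun p => Real.sq_sqrt (by positivity)
    have e3 : ∀ p : ℕ, (√(1 / (p : ℝ)) * sp p) ^ 2 = (1 / (p : ℝ)) * sp p ^ 2 := by
      intro p; rw [mul_pow, e2]
    simp only [e1, e2, e3] at h1
    exact h1
  refine hCS.trans ?_
  have h5 : ∑ p ∈ R, (1 / (p : ℝ)) * sp p ^ 2 ≤
      A0 ^ 2 * (2 * cJ) * ((C1 + C2) * (√W + 1)) := by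
    calc ∑ p ∈ R, (1 / (p : ℝ)) * sp p ^ 2
        ≤ ∑ p ∈ R, (1 / (p : ℝ)) * (A0 ^ 2 * (2 * cJ) * (∑ j, t1 p j + ∑ j, t2 p j)) :=
          Finset.sum_le_sum fun p hp => mul_le_mul_of_nonneg_left (hsq p hp) (by positivity)
      _ = A0 ^ 2 * (2 * cJ) * (∑ p ∈ R, (1 / (p : ℝ)) * ∑ j, t1 p j +
            ∑ p ∈ R, (1 / (p : ℝ)) * ∑ j, t2 p j) := by
          rw [← Finset.sum_add_distrib, Finset.mul_sum]
          exact Finset.sum_congr rfl fun p _ => by ring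
      _ ≤ A0 ^ 2 * (2 * cJ) * ((C1 + C2) * (√W + 1)) := by
          refine mul_le_mul_of_nonneg_left ?_ (by positivity)
          rw [add_mul]
          exact add_le_add hs1 hs2
  have h6 : W * ∑ p ∈ R, (1 / (p : ℝ)) * sp p ^ 2 ≤
      W * (A0 ^ 2 * (2 * cJ) * ((C1 + C2) * (√W + 1))) := mul_le_mul_of_nonneg_left h5 hW0
  refine h6.trans ?_
  have h7 : 0 ≤ W * (√W + 1) := by positivity
  nlinarith

end Pool.Agent.Lib.MP_a17b09_nt.HY
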