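import Pool.Agent.Lib.MP_a17b09_nt.HY.Svu46
import Pool.Agent.Lib.MP_a17b09_nt.CH.Svu28

/-!
Project HY: E14, the bilinear function is bounded and varies slowly in `x`, uniformly in `L`.
-/

set_option autoImplicit false

open Filter Topology Finset MeasureTheory

namespace Pool.Agent.Lib.MP_a17b09_nt.HY

open Pool.Agent.Lib.MP_a17b09_nt.CH
open Pool.Agent.Lib.MP_a17b09_nt.CH.PE (Good GT Sup Ug gt_bound28 gc rz wz gc_ug28 avg_bd28 avg_sv28)
open Mg46

/-- E14 -/
theorem stHPsv_46 (hCnt : StHCnt) : StHPsv := by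
  intro ι _ S z1 z2 hz1 hz2 K _ a _ _ om hom B G1 G2 hG1 hG2
  choose a1 ha10 ha1 using fun i => hmm_bd hCnt (S.hyp i) B G1 hG1
  choose a2 ha20 ha2 using fun i => hmm_bd hCnt (S.hyp i) B G2 hG2
  choose s1 hs1 using fun i => stHSvu_46 hCnt S.d (S.Q i) (S.hyp i) B G1 hG1 (tauH a)
  choose s2 hs2 using fun i => stHSvu_46 hCnt S.d (S.Q i) (S.hyp i) B G2 hG2 (tauH a)
  -- the constants
  set b : ℝ := ∑ i, (a1 i + a2 i) with hbdef
  have hb0 : 0 ≤ b := sum_nonneg fun i _ => add_nonneg (ha10 i) (ha20 i)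
  have hb1 : ∀ i, a1 i ≤ b := fun i => by
    have h := single_le_sum (f := fun i => a1 i + a2 i)
      (fun j _ => add_nonneg (ha10 j) (ha20 j)) (mem_univ i)
    have h' := ha20 i
    linarith
  have hb2 : ∀ i, a2 i ≤ b := fun i => by
    have h := single_le_sum (f := fun i => a1 i + a2 i)
      (fun j _ => add_nonneg (ha10 j) (ha20 j)) (mem_univ i)
    have h' := ha10 i
    linarith
  set s : ℝ := ∑ i, (|s1 i| + |s2 i|) with hsdef
  have hs0 : 0 ≤ s := sum_nonneg fun i _ => by positivity
  have hsa : ∀ i, s1 i ≤ s := fun i => by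
    have h := single_le_sum (f := fun i => |s1 i| + |s2 i|)
      (fun j _ => by positivity) (mem_univ i)
    have h' := abs_nonneg (s2 i)
    have h'' := le_abs_self (s1 i)
    linarith
  have hsb : ∀ i, s2 i ≤ s := fun i => by
    have h := single_le_sum (f := fun i => |s1 i| + |s2 i|)
      (fun j _ => by positivity) (mem_univ i)
    have h' := abs_nonneg (s1 i)
    have h'' := le_abs_self (s2 i)
    linarith
  set W : ℝ := ∑ i, ∑ α : ZMod K × ZMod K, ∑ β : ZMod K × ZMod K, ‖om i (rz α) (rz β)‖ with hW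
  have hW0 : 0 ≤ W := sum_nonneg fun i _ => sum_nonneg fun α _ => sum_nonneg fun β _ =>
    norm_nonneg _
  refine ⟨W * (b * b) + W * (2 * b * s), ?_⟩
  intro L hL
  constructor
  · intro x
    have h1 : ‖HPsN S (tauH a) z1 z2 K om G1 G2 L x‖ ≤ W * (b * b) := by
      unfold HPsN
      rw [hW, sum_mul]
      refine (norm_sum_le _ _).trans (sum_le_sum fun i _ => ?_)
      rw [sum_mul]
      refine (norm_sum_le _ _).trans (sum_le_sum fun α _ => ?_)
      rw [sum_mul]
      refine (norm_sum_le _ _).trans (sum_le_sum fun β _ => ?_)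
      split_ifs with h
      · rw [norm_mul]
        apply mul_le_mul_of_nonneg_left _ (norm_nonneg _)
        exact avg_bd28 _ _ b hb0
          (fun θ => (ha1 i _ _ (gc_ug28 z1 hz1 _ K α) L x θ hL).trans (hb1 i))
          (fun θ => (ha2 i _ _ (gc_ug28 z2 hz2 _ K β) L x θ hL).trans (hb2 i))
      · rw [norm_zero]
        positivity
    have h2 : 0 ≤ W * (2 * b * s) := by positivity
    linarith
  · choose x1 hx1 hX1 using fun i => hs1 i L hL
    choose x2 hx2 hX2 using fun i => hs2 i L hL
    refine ⟨1 + ∑ i, (x1 i + x2 i), ?_, ?_⟩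
    · have : 0 ≤ ∑ i, (x1 i + x2 i) := sum_nonneg fun i _ => by
        have h1 := hx1 i
        have h2 := hx2 i
        linarith
      linarith
    intro x y hx hxy
    have hpos : 0 ≤ ∑ i, (x1 i + x2 i) := sum_nonneg fun i _ => by
      have h1 := hx1 i
      have h2 := hx2 i
      linarith
    have hxone : 1 ≤ x := by linarith
    have hyone : 1 ≤ y := by linarith
    have hx0 : 0 < x := by linarith
    have hxa : ∀ i, x1 i ≤ x ∧ x2 i ≤ x := fun i => by
      have h := single_le_sum (f := fun i => x1 i + x2 i)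
        (fun j _ => by
          have h1 := hx1 j
          have h2 := hx2 j
          linarith) (mem_univ i)
      have h1 := hx1 i
      have h2 := hx2 i
      constructor <;> linarith
    have hyx : 0 ≤ (y - x) / x := div_nonneg (by linarith) hx0.le
    have h1 : ‖HPsN S (tauH a) z1 z2 K om G1 G2 L x - HPsN S (tauH a) z1 z2 K om G1 G2 L y‖ ≤
        W * (2 * b * (s * (y - x) / x)) := by
      unfold HPsN
      rw [← sum_sub_distrib, hW, sum_mul]
      refine (norm_sum_le _ _).trans (sum_le_sum fun i _ => ?_)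
      rw [← sum_sub_distrib, sum_mul]
      refine (norm_sum_le _ _).trans (sum_le_sum fun α _ => ?_)
      rw [← sum_sub_distrib, sum_mul]
      refine (norm_sum_le _ _).trans (sum_le_sum fun β _ => ?_)
      split_ifs with h
      · rw [← mul_sub, norm_mul]
        apply mul_le_mul_of_nonneg_left _ (norm_nonneg _)
        apply avg_sv28 _ _ _ _ b _ hb0
          (cont_hmm hCnt (S.hyp i) (tauH a) B G1 hG1 _ (gc_ug28 z1 hz1 _ K α) L hL x hxone)
          (cont_hmm hCnt (S.hyp i) (tauH a) B G2 hG2 _ (gc_ug28 z2 hz2 _ K β) L hL x hxone)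
          (cont_hmm hCnt (S.hyp i) (tauH a) B G1 hG1 _ (gc_ug28 z1 hz1 _ K α) L hL y hyone)
          (cont_hmm hCnt (S.hyp i) (tauH a) B G2 hG2 _ (gc_ug28 z2 hz2 _ K β) L hL y hyone)
          (fun θ => (ha1 i _ _ (gc_ug28 z1 hz1 _ K α) L x θ hL).trans (hb1 i))
          (fun θ => (ha2 i _ _ (gc_ug28 z2 hz2 _ K β) L y θ hL).trans (hb2 i))
        · intro θ
          refine (hX1 i _ (gc_ug28 z1 hz1 _ K α) x y θ (hxa i).1 hxy).trans ?_
          rw [mul_div_assoc, mul_div_assoc]
          exact mul_le_mul_of_nonneg_right (hsa i) hyx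
        · intro θ
          refine (hX2 i _ (gc_ug28 z2 hz2 _ K β) x y θ (hxa i).2 hxy).trans ?_
          rw [mul_div_assoc, mul_div_assoc]
          exact mul_le_mul_of_nonneg_right (hsb i) hyx
      · rw [sub_zero, norm_zero]
        have : 0 ≤ s * (y - x) / x := by
          rw [mul_div_assoc]
          positivity
        positivity
    refine h1.trans ?_
    have h2 : W * (2 * b * (s * (y - x) / x)) = W * (2 * b * s) * ((y - x) / x) := by ring
    rw [h2, mul_div_assoc]
    apply mul_le_mul_of_nonneg_right _ hyx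
    have h3 : 0 ≤ W * (b * b) := by positivity
    linarith

end Pool.Agent.Lib.MP_a17b09_nt.HY
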