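import Pool.Agent.Lib.MP_a17b09_nt.HY.StmtsR20
import Pool.Agent.Lib.MP_a17b09_nt.CH.R7

/-!
Project HY, part R, R2: equidistribution of the frames with first vector in a sector, from the count
of frames with slopes in intervals (`StHbox`).
-/

set_option autoImplicit false

open Filter Topology Finset

namespace Pool.Agent.Lib.MP_a17b09_nt.HY

open Pool.Agent.Lib.MP_a17b09_nt.CH

namespace R246

open Pool.Agent.Lib.MP_a17b09_nt.CH.R7 (shm shv shQ shv_inj sh_q sh_B sh_wd sh_cls exists_shear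
  ncard_biU)

/-- the form on the line of slope `σ` -/
noncomputable def ph (Q : Form) (σ : ℝ) : ℝ := Q.a + Q.b * σ + Q.c * σ ^ 2

theorem ph_q (Q : Form) (v : V) (hx : 0 < v.1) :
    (Q.q v : ℝ) = (v.1 : ℝ) ^ 2 * ph Q ((v.2 : ℝ) / v.1) := by
  have h : (v.1 : ℝ) ≠ 0 := by exact_mod_cast hx.ne'
  unfold Form.q ph
  push_cast
  field_simp

theorem ph_cont (Q : Form) : Continuous (ph Q) := by unfold ph; fun_prop

theorem ph_lip (Q : Form) {S σ τ : ℝ} (h1 : 0 ≤ σ) (h2 : σ ≤ S) (h3 : 0 ≤ τ) (h4 : τ ≤ S) :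
    |ph Q σ - ph Q τ| ≤ (|(Q.b : ℝ)| + 2 * |(Q.c : ℝ)| * S) * |σ - τ| := by
  have e : ph Q σ - ph Q τ = (Q.b + Q.c * (σ + τ)) * (σ - τ) := by unfold ph; ring
  rw [e, abs_mul]
  apply mul_le_mul_of_nonneg_right _ (abs_nonneg _)
  calc |(Q.b : ℝ) + Q.c * (σ + τ)| ≤ |(Q.b : ℝ)| + |(Q.c : ℝ) * (σ + τ)| := abs_add_le _ _
    _ = |(Q.b : ℝ)| + |(Q.c : ℝ)| * (σ + τ) := by rw [abs_mul, abs_of_nonneg (add_nonneg h1 h3)]
    _ ≤ |(Q.b : ℝ)| + 2 * |(Q.c : ℝ)| * S := by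
      have : |(Q.c : ℝ)| * (σ + τ) ≤ |(Q.c : ℝ)| * (2 * S) :=
        mul_le_mul_of_nonneg_left (by linarith) (abs_nonneg _)
      linarith

/-- upper and lower sums for `1 / ph` -/
theorem darboux (Q : Form) {S c0 : ℝ} (hS : 0 < S) (hc0 : 0 < c0)
    (hph : ∀ σ, 0 ≤ σ → σ ≤ S → c0 ≤ ph Q σ) (η : ℝ) (hη : 0 < η) :
    ∃ (K : ℕ) (lo hi : ℕ → ℝ), 0 < K ∧ (∀ j < K, 0 < lo j ∧ 0 < hi j ∧
      ∀ σ, S / K * j ≤ σ → σ ≤ S / K * (j + 1) → lo j ≤ ph Q σ ∧ ph Q σ ≤ hi j) ∧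
      ∑ j ∈ range K, S / K / lo j ≤ (∫ σ in (0 : ℝ)..S, 1 / ph Q σ) + η ∧
      (∫ σ in (0 : ℝ)..S, 1 / ph Q σ) - η ≤ ∑ j ∈ range K, S / K / hi j := by
  set L : ℝ := |(Q.b : ℝ)| + 2 * |(Q.c : ℝ)| * S with hL
  have hL0 : 0 ≤ L := by positivity
  obtain ⟨K, hK⟩ := exists_nat_gt (max 1 (max (2 * L * S / c0) (8 * L * S ^ 2 / (c0 ^ 2 * η))))
  have hK1 : (1 : ℝ) < K := lt_of_le_of_lt (le_max_left _ _) hK
  have hK2 : 2 * L * S / c0 < K := lt_of_le_of_lt ((le_max_left _ _).trans (le_max_right _ _)) hK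
  have hK3 : 8 * L * S ^ 2 / (c0 ^ 2 * η) < K :=
    lt_of_le_of_lt ((le_max_right _ _).trans (le_max_right _ _)) hK
  have hK0 : (0 : ℝ) < K := by linarith
  have hKn : 0 < K := by exact_mod_cast hK0
  set δ : ℝ := S / K with hδ
  have hδ0 : 0 < δ := by positivity
  have hδK : δ * K = S := by rw [hδ]; field_simp
  have hLδ : L * δ ≤ c0 / 2 := by
    rw [div_lt_iff₀ hc0] at hK2
    have : L * δ * K ≤ c0 / 2 * K := by
      rw [mul_assoc, hδK]; linarith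
    exact le_of_mul_le_mul_right this hK0
  have hη' : 8 * L * δ * S ≤ c0 ^ 2 * η := by
    rw [div_lt_iff₀ (by positivity)] at hK3
    have : 8 * L * δ * S * K ≤ c0 ^ 2 * η * K := by
      calc 8 * L * δ * S * K = 8 * L * S * (δ * K) := by ring
        _ = 8 * L * S ^ 2 := by rw [hδK]; ring
        _ ≤ c0 ^ 2 * η * K := by linarith
    exact le_of_mul_le_mul_right this hK0
  have hgrid : ∀ j : ℕ, j < K → 0 ≤ δ * j ∧ δ * j ≤ S ∧ δ * (j + 1) ≤ S := by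
    intro j hj
    have h1 : (j : ℝ) + 1 ≤ K := by exact_mod_cast hj
    have h2 : δ * (j + 1) ≤ δ * K := mul_le_mul_of_nonneg_left h1 hδ0.le
    rw [hδK] at h2
    exact ⟨by positivity, by linarith, h2⟩
  have hb : ∀ j : ℕ, j < K → ∀ σ, δ * j ≤ σ → σ ≤ δ * (j + 1) →
      ph Q (δ * j) - L * δ ≤ ph Q σ ∧ ph Q σ ≤ ph Q (δ * j) + L * δ := by
    intro j hj σ h1 h2
    obtain ⟨g1, g2, g3⟩ := hgrid j hj
    have h3 := ph_lip Q (S := S) (σ := σ) (τ := δ * j) (by linarith) (by linarith) g1 g2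
    have h4 : |σ - δ * j| ≤ δ := by
      rw [abs_of_nonneg (by linarith)]; linarith
    have h5 := h3.trans (mul_le_mul_of_nonneg_left h4 hL0)
    have h6 := abs_le.1 h5
    constructor <;> linarith [h6.1, h6.2]
  have hlo : ∀ j : ℕ, j < K → c0 / 2 ≤ ph Q (δ * j) - L * δ := by
    intro j hj
    obtain ⟨g1, g2, g3⟩ := hgrid j hj
    linarith [hph _ g1 g2]
  have hhi : ∀ j : ℕ, j < K → c0 ≤ ph Q (δ * j) + L * δ := by
    intro j hj
    obtain ⟨g1, g2, g3⟩ := hgrid j hj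
    have : 0 ≤ L * δ := by positivity
    linarith [hph _ g1 g2]
  have hcont : ContinuousOn (fun σ => 1 / ph Q σ) (Set.Icc 0 S) := by
    apply ContinuousOn.div continuousOn_const (ph_cont Q).continuousOn
    intro σ hσ
    exact (hc0.trans_le (hph σ hσ.1 hσ.2)).ne'
  have hint : ∀ j : ℕ, j < K → IntervalIntegrable (fun σ => 1 / ph Q σ) MeasureTheory.volume
      (δ * (j : ℕ)) (δ * ((j + 1 : ℕ) : ℝ)) := by
    intro j hj
    obtain ⟨g1, g2, g3⟩ := hgrid j hj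
    apply ContinuousOn.intervalIntegrable
    apply hcont.mono
    have : δ * (j : ℝ) ≤ δ * ((j + 1 : ℕ) : ℝ) := by push_cast; nlinarith
    rw [Set.uIcc_of_le this]
    apply Set.Icc_subset_Icc g1
    push_cast; linarith
  have hsum := intervalIntegral.sum_integral_adjacent_intervals (μ := MeasureTheory.volume)
    (f := fun σ => 1 / ph Q σ) (a := fun k : ℕ => δ * (k : ℝ)) (n := K) hint
  simp only [Nat.cast_zero, mul_zero, hδK] at hsum
  have hup : (∫ σ in (0 : ℝ)..S, 1 / ph Q σ) ≤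
      ∑ j ∈ range K, δ / (ph Q (δ * j) - L * δ) := by
    rw [← hsum]
    apply Finset.sum_le_sum
    intro j hj
    have hj' := mem_range.1 hj
    obtain ⟨g1, g2, g3⟩ := hgrid j hj'
    have h0 : δ * (j : ℝ) ≤ δ * ((j + 1 : ℕ) : ℝ) := by push_cast; nlinarith
    have h1 : (∫ σ in (δ * (j : ℝ))..(δ * ((j + 1 : ℕ) : ℝ)), 1 / ph Q σ) ≤
        ∫ σ in (δ * (j : ℝ))..(δ * ((j + 1 : ℕ) : ℝ)), 1 / (ph Q (δ * j) - L * δ) := by
      apply intervalIntegral.integral_mono_on h0 (hint j hj') intervalIntegrable_const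
      intro σ hσ
      apply one_div_le_one_div_of_le
      · linarith [hlo j hj']
      · have := hσ.2
        push_cast at this
        exact (hb j hj' σ hσ.1 this).1
    refine h1.trans (le_of_eq ?_)
    rw [intervalIntegral.integral_const, smul_eq_mul]
    push_cast
    ring
  have hdn : ∑ j ∈ range K, δ / (ph Q (δ * j) + L * δ) ≤
      (∫ σ in (0 : ℝ)..S, 1 / ph Q σ) := by
    rw [← hsum]
    apply Finset.sum_le_sum
    intro j hj
    have hj' := mem_range.1 hj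
    obtain ⟨g1, g2, g3⟩ := hgrid j hj'
    have h0 : δ * (j : ℝ) ≤ δ * ((j + 1 : ℕ) : ℝ) := by push_cast; nlinarith
    have h1 : (∫ σ in (δ * (j : ℝ))..(δ * ((j + 1 : ℕ) : ℝ)), 1 / (ph Q (δ * j) + L * δ)) ≤
        (∫ σ in (δ * (j : ℝ))..(δ * ((j + 1 : ℕ) : ℝ)), 1 / ph Q σ) := by
      apply intervalIntegral.integral_mono_on h0 intervalIntegrable_const (hint j hj')
      intro σ hσ
      have h2 := hσ.1
      have h3 := hσ.2
      push_cast at h3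
      apply one_div_le_one_div_of_le
      · exact hc0.trans_le (hph σ (by linarith) (by linarith))
      · exact (hb j hj' σ h2 h3).2
    refine (le_of_eq ?_).trans h1
    rw [intervalIntegral.integral_const, smul_eq_mul]
    push_cast
    ring
  have hdiff : ∑ j ∈ range K, δ / (ph Q (δ * j) - L * δ) -
      ∑ j ∈ range K, δ / (ph Q (δ * j) + L * δ) ≤ η := by
    rw [← Finset.sum_sub_distrib]
    have h1 : ∀ j ∈ range K, δ / (ph Q (δ * j) - L * δ) - δ / (ph Q (δ * j) + L * δ) ≤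
        δ * (8 * L * δ) / c0 ^ 2 := by
      intro j hj
      have hj' := mem_range.1 hj
      have a1 := hlo j hj'
      have a2 := hhi j hj'
      have b1 : 0 < ph Q (δ * j) - L * δ := by linarith
      have b2 : 0 < ph Q (δ * j) + L * δ := by linarith
      rw [div_sub_div _ _ b1.ne' b2.ne']
      rw [div_le_div_iff₀ (mul_pos b1 b2) (by positivity)]
      have e : (δ * (ph Q (δ * j) + L * δ) - (ph Q (δ * j) - L * δ) * δ) = δ * (2 * L * δ) := by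
        ring
      rw [e]
      have h2 : c0 ^ 2 ≤ 2 * ((ph Q (δ * j) - L * δ) * (ph Q (δ * j) + L * δ)) := by
        nlinarith [mul_le_mul a1 a2 hc0.le b1.le]
      have h3 : 0 ≤ δ * (2 * L * δ) := by positivity
      nlinarith [mul_le_mul_of_nonneg_left h2 h3,
        mul_nonneg h3 (mul_pos b1 b2).le]
    refine (Finset.sum_le_sum h1).trans ?_
    rw [Finset.sum_const, card_range, nsmul_eq_mul]
    rw [mul_div_assoc', div_le_iff₀ (by positivity)]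
    calc (K : ℝ) * (δ * (8 * L * δ)) = 8 * L * δ * (δ * K) := by ring
      _ = 8 * L * δ * S := by rw [hδK]
      _ ≤ η * c0 ^ 2 := by linarith
  refine ⟨K, fun j => ph Q (δ * j) - L * δ, fun j => ph Q (δ * j) + L * δ, hKn, ?_, ?_, ?_⟩
  · intro j hj
    exact ⟨by linarith [hlo j hj], by linarith [hhi j hj], hb j hj⟩
  · linarith
  · linarith

theorem int_pos (Q : Form) {S c0 : ℝ} (hS : 0 < S) (hc0 : 0 < c0)
    (hph : ∀ σ, 0 ≤ σ → σ ≤ S → c0 ≤ ph Q σ) : 0 < ∫ σ in (0 : ℝ)..S, 1 / ph Q σ := by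
  apply intervalIntegral.intervalIntegral_pos_of_pos_on
  · apply ContinuousOn.intervalIntegrable
    rw [Set.uIcc_of_le hS.le]
    apply ContinuousOn.div continuousOn_const (ph_cont Q).continuousOn
    intro σ hσ
    exact (hc0.trans_le (hph σ hσ.1 hσ.2)).ne'
  · intro σ hσ
    have := hc0.trans_le (hph σ hσ.1.le hσ.2.le)
    positivity
  · exact hS

/-- exceptional frames -/
def E0 (X0 Y0 U0 : ℝ) : Set (V × V) := {f | wd f.1 f.2 = 1 ∧ 0 < f.1.1 ∧ (f.1.1 : ℝ) ≤ X0 ∧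
  0 ≤ f.1.2 ∧ (f.1.2 : ℝ) ≤ Y0 ∧ |(f.2.1 : ℝ)| ≤ U0}

theorem E0_fin (X0 Y0 U0 : ℝ) : (E0 X0 Y0 U0).Finite := by
  obtain ⟨m, hm⟩ := exists_nat_gt (max X0 (max Y0 U0))
  have m1 : X0 < m := lt_of_le_of_lt (le_max_left _ _) hm
  have m2 : Y0 < m := lt_of_le_of_lt ((le_max_left _ _).trans (le_max_right _ _)) hm
  have m3 : U0 < m := lt_of_le_of_lt ((le_max_right _ _).trans (le_max_right _ _)) hm
  apply Set.Finite.subset (((Set.finite_Icc (-(m : ℤ)) m).prod (Set.finite_Icc (-(m : ℤ)) m)).prod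
    ((Set.finite_Icc (-(m : ℤ)) m).prod (Set.finite_Icc (-(1 + (m : ℤ) * m)) (1 + (m : ℤ) * m))))
  rintro f ⟨h1, h2, h3, h4, h5, h6⟩
  have a1 : f.1.1 ≤ (m : ℤ) := by
    have : (f.1.1 : ℝ) ≤ m := h3.trans m1.le
    exact_mod_cast this
  have a2 : f.1.2 ≤ (m : ℤ) := by
    have : (f.1.2 : ℝ) ≤ m := h5.trans m2.le
    exact_mod_cast this
  have a3 : |f.2.1| ≤ (m : ℤ) := by
    have : |(f.2.1 : ℝ)| ≤ m := h6.trans m3.le
    exact_mod_cast this
  have a4 : |f.2.2| ≤ 1 + (m : ℤ) * m := by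
    unfold wd at h1
    have e : f.1.1 * f.2.2 = 1 + f.1.2 * f.2.1 := by linarith
    calc |f.2.2| ≤ f.1.1 * |f.2.2| := by nlinarith [abs_nonneg f.2.2]
      _ = |f.1.1 * f.2.2| := by rw [abs_mul, abs_of_pos h2]
      _ = |1 + f.1.2 * f.2.1| := by rw [e]
      _ ≤ |1| + |f.1.2 * f.2.1| := abs_add_le _ _
      _ = 1 + f.1.2 * |f.2.1| := by rw [abs_mul, abs_of_nonneg h4, abs_one]
      _ ≤ 1 + (m : ℤ) * m := by
        have := mul_le_mul a2 a3 (abs_nonneg _) (Int.natCast_nonneg m)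
        linarith
  have b3 := abs_le.1 a3
  have b4 := abs_le.1 a4
  have hm0 : (0 : ℤ) ≤ m := Int.natCast_nonneg m
  exact ⟨⟨⟨by omega, a1⟩, ⟨by omega, a2⟩⟩, ⟨⟨b3.1, b3.2⟩, ⟨b4.1, b4.2⟩⟩⟩

/-- the second slope against `B / (2 q)` -/
theorem xB (Q : Form) (f : V × V) (h : wd f.1 f.2 = 1) :
    (f.1.1 : ℝ) * Q.B f.1 f.2 = 2 * Q.q f.1 * f.2.1 + (Q.b * f.1.1 + 2 * Q.c * f.1.2) := by
  have h' : (f.1.1 : ℝ) * f.2.2 - f.1.2 * f.2.1 = 1 := by
    unfold wd at h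
    exact_mod_cast h
  unfold Form.B Form.q
  push_cast
  linear_combination ((Q.b : ℝ) * f.1.1 + 2 * Q.c * f.1.2) * h'

/-- the constant of the error term -/
noncomputable def M0 (Q : Form) (S : ℝ) : ℝ := |(Q.b : ℝ)| + 2 * |(Q.c : ℝ)| * S

theorem M0_bd (Q : Form) {S : ℝ} {v : V} (hx : 0 < v.1) (hy : 0 ≤ v.2)
    (hyx : (v.2 : ℝ) ≤ S * v.1) : |(Q.b : ℝ) * v.1 + 2 * Q.c * v.2| ≤ M0 Q S * v.1 := by
  have hx' : (0 : ℝ) < v.1 := by exact_mod_cast hx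
  have hy' : (0 : ℝ) ≤ v.2 := by exact_mod_cast hy
  calc |(Q.b : ℝ) * v.1 + 2 * Q.c * v.2| ≤ |(Q.b : ℝ) * v.1| + |2 * (Q.c : ℝ) * v.2| :=
        abs_add_le _ _
    _ = |(Q.b : ℝ)| * v.1 + 2 * |(Q.c : ℝ)| * v.2 := by
      rw [abs_mul, abs_mul, abs_mul, abs_of_pos hx', abs_of_nonneg hy', abs_two]
    _ ≤ |(Q.b : ℝ)| * v.1 + 2 * |(Q.c : ℝ)| * (S * v.1) := by
      have := mul_le_mul_of_nonneg_left hyx (by positivity : (0 : ℝ) ≤ 2 * |(Q.c : ℝ)|)
      linarith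
    _ = M0 Q S * v.1 := by unfold M0; ring

/-- the frames in the sheared coordinates -/
def RR (Q : Form) (S : ℝ) (N : ℕ) (γ : Mat) (s1 s2 : ℝ) (n : ℕ) : Set (V × V) :=
  {f | wd f.1 f.2 = 1 ∧ Cls N γ f ∧ 0 < f.1.1 ∧ 0 ≤ f.1.2 ∧ (f.1.2 : ℝ) < S * f.1.1 ∧
    Q.q f.1 ≤ n ∧ 2 * s1 * (Q.q f.1 : ℝ) ≤ (Q.B f.1 f.2 : ℝ) ∧
    (Q.B f.1 f.2 : ℝ) < 2 * s2 * (Q.q f.1 : ℝ)}

theorem q_low (Q : Form) {S c0 : ℝ} (hph : ∀ σ, 0 ≤ σ → σ ≤ S → c0 ≤ ph Q σ) {v : V}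
    (hx : 0 < v.1) (hy : 0 ≤ v.2) (hyx : (v.2 : ℝ) ≤ S * v.1) :
    c0 * (v.1 : ℝ) ^ 2 ≤ Q.q v := by
  have hx' : (0 : ℝ) < v.1 := by exact_mod_cast hx
  have hy' : (0 : ℝ) ≤ v.2 := by exact_mod_cast hy
  rw [ph_q Q v hx]
  have := hph ((v.2 : ℝ) / v.1) (by positivity) ((div_le_iff₀ hx').2 hyx)
  nlinarith [sq_nonneg (v.1 : ℝ)]

theorem up_incl (Q : Form) (N : ℕ) (γ : Mat) {S c0 : ℝ} (hS : 0 < S) (hc0 : 0 < c0)
    (hph : ∀ σ, 0 ≤ σ → σ ≤ S → c0 ≤ ph Q σ) {s1 s2 ε : ℝ} (hs : 0 < s1) (hss : s1 < s2)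
    (hε : 0 < ε) {X0 : ℝ} (hX0 : 1 ≤ X0) (hX : M0 Q S ≤ 2 * c0 * ε * X0 ^ 2) {K : ℕ} (hK : 0 < K)
    {lo : ℕ → ℝ} (hlo : ∀ j < K, 0 < lo j ∧ ∀ σ, S / K * j ≤ σ → σ ≤ S / K * (j + 1) →
      lo j ≤ ph Q σ) (n : ℕ) :
    RR Q S N γ s1 s2 n ⊆ E0 X0 (S * X0) ((s2 + M0 Q S + ε + 1) * X0) ∪
      ⋃ j ∈ range K, secS N γ (S / K * j) (S / K * (j + 1)) (s1 - ε) (s2 + ε) (1 / √(lo j)) n := by
  rintro f ⟨h1, h2, hx, hy, hyx, hq, hB1, hB2⟩
  have hx' : (0 : ℝ) < f.1.1 := by exact_mod_cast hx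
  have hy' : (0 : ℝ) ≤ f.1.2 := by exact_mod_cast hy
  have hql := q_low Q hph hx hy hyx.le
  have hqp : (0 : ℝ) < Q.q f.1 := lt_of_lt_of_le (by positivity) hql
  have hq1 : (1 : ℝ) ≤ Q.q f.1 := by
    have : 0 < Q.q f.1 := by exact_mod_cast hqp
    exact_mod_cast this
  have hM0 : 0 ≤ M0 Q S := by unfold M0; positivity
  have hE := M0_bd Q hx hy hyx.le
  have hE' := abs_le.1 hE
  have hxB := xB Q f h1
  have hB1x := mul_le_mul_of_nonneg_left hB1 hx'.le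
  have hB2x := mul_lt_mul_of_pos_left hB2 hx'
  rw [hxB] at hB1x hB2x
  by_cases hxX : (f.1.1 : ℝ) ≤ X0
  · left
    refine ⟨h1, hx, hxX, hy, ?_, ?_⟩
    · exact hyx.le.trans (mul_le_mul_of_nonneg_left hxX hS.le)
    · have hMx : M0 Q S * f.1.1 ≤ M0 Q S * f.1.1 * Q.q f.1 :=
        le_mul_of_one_le_right (by positivity) hq1
      have u1 : -(M0 Q S * f.1.1) ≤ (f.2.1 : ℝ) := by
        by_contra hc
        push Not at hc
        have h3 : 2 * (Q.q f.1 : ℝ) * f.2.1 < 2 * Q.q f.1 * -(M0 Q S * f.1.1) :=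
          mul_lt_mul_of_pos_left hc (by linarith)
        have h4 : 0 ≤ (f.1.1 : ℝ) * (2 * s1 * Q.q f.1) := by positivity
        nlinarith [hE'.1, hE'.2]
      have u2 : (f.2.1 : ℝ) ≤ (s2 + M0 Q S) * f.1.1 := by
        by_contra hc
        push Not at hc
        have h3 : 2 * (Q.q f.1 : ℝ) * ((s2 + M0 Q S) * f.1.1) < 2 * Q.q f.1 * f.2.1 :=
          mul_lt_mul_of_pos_left hc (by linarith)
        nlinarith [hE'.1, hE'.2]
      have hs2 : 0 < s2 := hs.trans hss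
      have u3 : (s2 + M0 Q S) * f.1.1 ≤ (s2 + M0 Q S + ε + 1) * X0 := by
        apply mul_le_mul (by linarith) hxX hx'.le (by positivity)
      have u4 : M0 Q S * f.1.1 ≤ (s2 + M0 Q S + ε + 1) * X0 := by
        apply mul_le_mul (by linarith) hxX hx'.le (by positivity)
      rw [abs_le]
      constructor <;> linarith
  · right
    push Not at hxX
    have hKr : (0 : ℝ) < K := by exact_mod_cast hK
    have hδ : 0 < S / K := by positivity
    set σ : ℝ := (f.1.2 : ℝ) / f.1.1 with hσ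
    have hσ0 : 0 ≤ σ := by positivity
    have hσS : σ < S := (div_lt_iff₀ hx').2 hyx
    set j : ℕ := ⌊σ / (S / K)⌋₊ with hj
    have hj1 : (j : ℝ) ≤ σ / (S / K) := Nat.floor_le (by positivity)
    have hj2 : σ / (S / K) < j + 1 := Nat.lt_floor_add_one _
    have hj1' : S / K * j ≤ σ := by
      rw [le_div_iff₀ hδ] at hj1; linarith
    have hj2' : σ < S / K * (j + 1) := by
      rw [div_lt_iff₀ hδ] at hj2; linarith
    have hjK : j < K := by
      have h3 : σ / (S / K) < K := by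
        rw [div_lt_iff₀ hδ]
        have : (K : ℝ) * (S / K) = S := by field_simp
        rw [this]; exact hσS
      have h4 : (j : ℝ) < K := lt_of_le_of_lt hj1 h3
      exact_mod_cast h4
    obtain ⟨hl0, hl1⟩ := hlo j hjK
    have hl2 := hl1 σ hj1' hj2'.le
    have hσx : σ * f.1.1 = f.1.2 := by rw [hσ]; field_simp
    have hMq : M0 Q S ≤ 2 * (Q.q f.1 : ℝ) * ε := by
      have h3 : X0 ^ 2 ≤ (f.1.1 : ℝ) ^ 2 := pow_le_pow_left₀ (by linarith) hxX.le 2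
      have h4 : 2 * c0 * ε * X0 ^ 2 ≤ 2 * c0 * ε * (f.1.1 : ℝ) ^ 2 :=
        mul_le_mul_of_nonneg_left h3 (by positivity)
      have h5 := mul_le_mul_of_nonneg_left hql hε.le
      linarith
    have hMqx : M0 Q S * f.1.1 ≤ 2 * (Q.q f.1 : ℝ) * ε * f.1.1 :=
      mul_le_mul_of_nonneg_right hMq hx'.le
    rw [Set.mem_iUnion₂]
    refine ⟨j, mem_range.2 hjK, h1, h2, hx, ?_, ?_, ?_, ?_, ?_⟩
    · have hsl : 0 < √(lo j) := Real.sqrt_pos.2 hl0
      have h3 : (f.1.1 : ℝ) * √(lo j) ≤ √(n : ℝ) := by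
        apply Real.le_sqrt_of_sq_le
        rw [mul_pow, Real.sq_sqrt hl0.le]
        have h4 : (f.1.1 : ℝ) ^ 2 * lo j ≤ (f.1.1 : ℝ) ^ 2 * ph Q σ :=
          mul_le_mul_of_nonneg_left hl2 (by positivity)
        have h5 := ph_q Q f.1 hx
        have h6 : (Q.q f.1 : ℝ) ≤ n := by exact_mod_cast hq
        rw [← hσ] at h5
        linarith
      rw [one_div, inv_mul_eq_div, le_div_iff₀ hsl]
      exact h3
    · calc S / K * j * f.1.1 ≤ σ * f.1.1 := mul_le_mul_of_nonneg_right hj1' hx'.le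
        _ = f.1.2 := hσx
    · calc (f.1.2 : ℝ) = σ * f.1.1 := hσx.symm
        _ < S / K * (j + 1) * f.1.1 := mul_lt_mul_of_pos_right hj2' hx'
    · by_contra hc
      push Not at hc
      have h3 : 2 * (Q.q f.1 : ℝ) * f.2.1 < 2 * Q.q f.1 * ((s1 - ε) * f.1.1) :=
        mul_lt_mul_of_pos_left hc (by linarith)
      nlinarith [hE'.1, hE'.2]
    · by_contra hc
      push Not at hc
      have h3 : 2 * (Q.q f.1 : ℝ) * ((s2 + ε) * f.1.1) ≤ 2 * Q.q f.1 * f.2.1 :=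
        mul_le_mul_of_nonneg_left hc (by linarith)
      nlinarith [hE'.1, hE'.2]

theorem dn_incl (Q : Form) (N : ℕ) (γ : Mat) {S c0 : ℝ} (hS : 0 < S) (hc0 : 0 < c0)
    (hph : ∀ σ, 0 ≤ σ → σ ≤ S → c0 ≤ ph Q σ) {s1 s2 ε : ℝ} (hs : 0 < s1) (hss : s1 < s2)
    (hε : 0 < ε) {X0 : ℝ} (hX0 : 1 ≤ X0) (hX : M0 Q S ≤ 2 * c0 * ε * X0 ^ 2) {K : ℕ} (hK : 0 < K)
    {hi : ℕ → ℝ} (hhi : ∀ j < K, 0 < hi j ∧ ∀ σ, S / K * j ≤ σ → σ ≤ S / K * (j + 1) →
      ph Q σ ≤ hi j) (n : ℕ) (j : ℕ) (hj : j < K) :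
    ∀ f ∈ secS N γ (S / K * j) (S / K * (j + 1)) (s1 + ε) (s2 - ε) (1 / √(hi j)) n,
      f ∈ E0 X0 (S * X0) ((s2 + M0 Q S + ε + 1) * X0) ∨
        (X0 < f.1.1 ∧ f ∈ RR Q S N γ s1 s2 n) := by
  rintro f ⟨h1, h2, hx, hxz, hy1, hy2, hu1, hu2⟩
  have hx' : (0 : ℝ) < f.1.1 := by exact_mod_cast hx
  have hKr : (0 : ℝ) < K := by exact_mod_cast hK
  have hδ : 0 < S / K := by positivity
  have hy' : (0 : ℝ) ≤ f.1.2 := le_trans (by positivity) hy1
  have hy : 0 ≤ f.1.2 := by exact_mod_cast hy'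
  have hjK : (j : ℝ) + 1 ≤ K := by exact_mod_cast hj
  have hSK : S / K * (j + 1) ≤ S := by
    calc S / K * (j + 1) ≤ S / K * K := mul_le_mul_of_nonneg_left hjK hδ.le
      _ = S := by field_simp
  have hyx : (f.1.2 : ℝ) < S * f.1.1 := hy2.trans_le (mul_le_mul_of_nonneg_right hSK hx'.le)
  have hM0 : 0 ≤ M0 Q S := by unfold M0; positivity
  by_cases hxX : (f.1.1 : ℝ) ≤ X0
  · left
    refine ⟨h1, hx, hxX, hy, ?_, ?_⟩
    · exact hyx.le.trans (mul_le_mul_of_nonneg_left hxX hS.le)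
    · have u1 : 0 ≤ (f.2.1 : ℝ) := le_trans (by positivity) hu1
      have hs2 : 0 < s2 := hs.trans hss
      rw [abs_of_nonneg u1]
      refine hu2.le.trans ?_
      calc (s2 - ε) * (f.1.1 : ℝ) ≤ (s2 + M0 Q S + ε + 1) * f.1.1 :=
            mul_le_mul_of_nonneg_right (by linarith) hx'.le
        _ ≤ (s2 + M0 Q S + ε + 1) * X0 := mul_le_mul_of_nonneg_left hxX (by positivity)
  · right
    push Not at hxX
    refine ⟨hxX, ?_⟩
    have hql := q_low Q hph hx hy hyx.le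
    have hqp : (0 : ℝ) < Q.q f.1 := lt_of_lt_of_le (by positivity) hql
    have hE := M0_bd Q hx hy hyx.le
    have hE' := abs_le.1 hE
    have hxB := xB Q f h1
    have hMq : M0 Q S ≤ 2 * (Q.q f.1 : ℝ) * ε := by
      have h3 : X0 ^ 2 ≤ (f.1.1 : ℝ) ^ 2 := pow_le_pow_left₀ (by linarith) hxX.le 2
      have h4 : 2 * c0 * ε * X0 ^ 2 ≤ 2 * c0 * ε * (f.1.1 : ℝ) ^ 2 :=
        mul_le_mul_of_nonneg_left h3 (by positivity)
      have h5 := mul_le_mul_of_nonneg_left hql hε.le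
      linarith
    have hMqx : M0 Q S * f.1.1 ≤ 2 * (Q.q f.1 : ℝ) * ε * f.1.1 :=
      mul_le_mul_of_nonneg_right hMq hx'.le
    obtain ⟨hh0, hh1⟩ := hhi j hj
    refine ⟨h1, h2, hx, hy, hyx, ?_, ?_, ?_⟩
    · have hsl : 0 < √(hi j) := Real.sqrt_pos.2 hh0
      rw [one_div, inv_mul_eq_div, le_div_iff₀ hsl] at hxz
      have h3 : ((f.1.1 : ℝ) * √(hi j)) ^ 2 ≤ √(n : ℝ) ^ 2 :=
        pow_le_pow_left₀ (by positivity) hxz 2
      rw [mul_pow, Real.sq_sqrt hh0.le, Real.sq_sqrt (Nat.cast_nonneg n)] at h3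
      have h4 : ph Q ((f.1.2 : ℝ) / f.1.1) ≤ hi j := by
        apply hh1
        · rw [le_div_iff₀ hx']; exact hy1
        · rw [div_le_iff₀ hx']; exact hy2.le
      have h5 := ph_q Q f.1 hx
      have h6 : (f.1.1 : ℝ) ^ 2 * ph Q ((f.1.2 : ℝ) / f.1.1) ≤ (f.1.1 : ℝ) ^ 2 * hi j :=
        mul_le_mul_of_nonneg_left h4 (by positivity)
      have h7 : (Q.q f.1 : ℝ) ≤ n := by linarith
      exact_mod_cast h7
    · have h3 : 2 * (Q.q f.1 : ℝ) * ((s1 + ε) * f.1.1) ≤ 2 * Q.q f.1 * f.2.1 :=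
        mul_le_mul_of_nonneg_left hu1 (by linarith)
      by_contra hc
      push Not at hc
      have h4 := mul_lt_mul_of_pos_left hc hx'
      rw [hxB] at h4
      nlinarith [hE'.1, hE'.2]
    · have h3 : 2 * (Q.q f.1 : ℝ) * f.2.1 < 2 * Q.q f.1 * ((s2 - ε) * f.1.1) :=
        mul_lt_mul_of_pos_left hu2 (by linarith)
      by_contra hc
      push Not at hc
      have h4 := mul_le_mul_of_nonneg_left hc hx'.le
      rw [hxB] at h4
      nlinarith [hE'.1, hE'.2]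

/-! ### The sector -/

/-- the sector in terms of the coordinates -/
theorem sec_iff (Q : Form) {d : ℕ} (hQ : Hyp d Q) {T : ℝ} (hT : 0 < T) (v : V) :
    Sec Q T v ↔ 0 ≤ v.2 ∧ hX Q v + hY Q v < Real.exp (2 * T) * (hX Q v - hY Q v) := by
  have hE : 1 < Real.exp (2 * T) := Real.one_lt_exp_iff.2 (by linarith)
  have hsa := hQ.sa
  have hsd := hQ.sd
  have hY0 : 0 ≤ hY Q v ↔ 0 ≤ v.2 := by
    rw [hQ.hY_eq, mul_comm (√(d : ℝ)) _]
    constructor
    · intro h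
      by_contra hc
      push Not at hc
      have : (v.2 : ℝ) < 0 := by exact_mod_cast hc
      have h2 : (v.2 : ℝ) * √(d : ℝ) / (2 * √(Q.a : ℝ)) < 0 :=
        div_neg_of_neg_of_pos (mul_neg_of_neg_of_pos this hsd) (by positivity)
      linarith
    · intro h
      have : (0 : ℝ) ≤ v.2 := by exact_mod_cast h
      positivity
  constructor
  · rintro ⟨h1, h2, h3⟩
    obtain ⟨c1, c2⟩ := (cn_iff Q v).1 h1
    have hr : 0 < (hX Q v + hY Q v) / (hX Q v - hY Q v) := div_pos c1 c2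
    unfold ps at h2 h3
    refine ⟨?_, ?_⟩
    · rw [← hY0]
      have h4 : 0 ≤ Real.log ((hX Q v + hY Q v) / (hX Q v - hY Q v)) := by linarith
      have h5 := (Real.le_log_iff_exp_le hr).1 h4
      rw [Real.exp_zero, le_div_iff₀ c2] at h5
      linarith
    · have h4 : Real.log ((hX Q v + hY Q v) / (hX Q v - hY Q v)) < 2 * T := by linarith
      have h5 := (Real.log_lt_iff_lt_exp hr).1 h4
      rwa [div_lt_iff₀ c2] at h5
  · rintro ⟨h1, h2⟩
    have h3 := hY0.2 h1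
    have c2 : 0 < hX Q v - hY Q v := by
      by_contra hc
      push Not at hc
      have : Real.exp (2 * T) * (hX Q v - hY Q v) ≤ 1 * (hX Q v - hY Q v) :=
        mul_le_mul_of_nonpos_right hE.le hc
      linarith
    have c1 : 0 < hX Q v + hY Q v := by linarith
    have hr : 0 < (hX Q v + hY Q v) / (hX Q v - hY Q v) := div_pos c1 c2
    refine ⟨(cn_iff Q v).2 ⟨c1, c2⟩, ?_, ?_⟩
    · unfold ps
      have : 0 ≤ Real.log ((hX Q v + hY Q v) / (hX Q v - hY Q v)) := by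
        apply Real.log_nonneg
        rw [le_div_iff₀ c2]; linarith
      linarith
    · unfold ps
      have : Real.log ((hX Q v + hY Q v) / (hX Q v - hY Q v)) < 2 * T := by
        rw [Real.log_lt_iff_lt_exp hr, div_lt_iff₀ c2]
        exact h2
      linarith

/-- first number of the slope -/
noncomputable def al (Q : Form) (d : ℕ) (T : ℝ) : ℝ :=
  (Real.exp (2 * T) + 1) * √(d : ℝ) - (Real.exp (2 * T) - 1) * Q.b

/-- second number of the slope -/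
noncomputable def be (Q : Form) (T : ℝ) : ℝ := (Real.exp (2 * T) - 1) * (2 * Q.a)

/-- the extreme slope after the shear -/
noncomputable def Sl (Q : Form) (d : ℕ) (T : ℝ) (h : ℤ) : ℝ := be Q T / (al Q d T + be Q T * h)

theorem al_pos {Q : Form} {d : ℕ} (hQ : Hyp d Q) {T : ℝ} (hT : 0 < T) : 0 < al Q d T := by
  have hE : 1 < Real.exp (2 * T) := Real.one_lt_exp_iff.2 (by linarith)
  have hsd := hQ.sd
  have hb : (Q.b : ℝ) ≤ √(d : ℝ) := by
    apply Real.le_sqrt_of_sq_le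
    have h5 := hQ.negD
    unfold Form.D at h5
    push_cast at h5
    have ha : (0 : ℝ) < Q.a := by exact_mod_cast hQ.apos
    have hc : (Q.c : ℝ) < 0 := by exact_mod_cast hQ.cneg
    nlinarith [mul_neg_of_pos_of_neg ha hc]
  unfold al
  have h1 : (Real.exp (2 * T) - 1) * Q.b ≤ (Real.exp (2 * T) - 1) * √(d : ℝ) :=
    mul_le_mul_of_nonneg_left hb (by linarith)
  linarith

theorem be_pos {Q : Form} {d : ℕ} (hQ : Hyp d Q) {T : ℝ} (hT : 0 < T) : 0 < be Q T := by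
  have hE : 1 < Real.exp (2 * T) := Real.one_lt_exp_iff.2 (by linarith)
  have ha : (0 : ℝ) < Q.a := by exact_mod_cast hQ.apos
  unfold be
  exact mul_pos (by linarith) (by linarith)

theorem Sl_pos {Q : Form} {d : ℕ} (hQ : Hyp d Q) {T : ℝ} (hT : 0 < T) {h : ℤ} (hh : 0 ≤ h) :
    0 < Sl Q d T h := by
  have h1 := al_pos hQ hT
  have h2 := be_pos hQ hT
  have h3 : (0 : ℝ) ≤ h := by exact_mod_cast hh
  unfold Sl
  positivity

/-- the sector is a range of slopes -/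
theorem sec_slope {Q : Form} {d : ℕ} (hQ : Hyp d Q) {T : ℝ} (hT : 0 < T) {h : ℤ} (hh : 0 ≤ h)
    (v : V) : Sec Q T v ↔ 0 ≤ (shv h v).2 ∧ ((shv h v).2 : ℝ) < Sl Q d T h * (shv h v).1 := by
  rw [sec_iff Q hQ hT]
  have h1 := al_pos hQ hT
  have h2 := be_pos hQ hT
  have h3 : (0 : ℝ) ≤ h := by exact_mod_cast hh
  have hsa := hQ.sa
  have h4 : 0 < al Q d T + be Q T * h := by positivity
  unfold shv
  simp only
  apply and_congr_right
  intro hy
  unfold Sl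
  rw [div_mul_eq_mul_div, lt_div_iff₀ h4]
  have e : (hX Q v + hY Q v < Real.exp (2 * T) * (hX Q v - hY Q v)) ↔
      al Q d T * v.2 < be Q T * v.1 := by
    rw [← sub_pos, ← sub_pos (b := al Q d T * v.2)]
    have e2 : be Q T * v.1 - al Q d T * v.2 = (2 * √(Q.a : ℝ)) *
        (Real.exp (2 * T) * (hX Q v - hY Q v) - (hX Q v + hY Q v)) := by
      rw [hQ.hY_eq]
      unfold hX be al
      have h5 := hQ.sa_sq
      field_simp
      rw [h5]
      ring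
    rw [e2]
    constructor
    · intro h6; positivity
    · intro h6; exact (mul_pos_iff_of_pos_left (by positivity)).1 h6
  rw [e]
  push_cast
  constructor <;> intro h5 <;> nlinarith

/-- the sheared form is positive in the sector -/
theorem ph_pos {Q : Form} {d : ℕ} (hQ : Hyp d Q) {T : ℝ} (hT : 0 < T) {h : ℤ} (hh : 0 ≤ h)
    {σ : ℝ} (h0 : 0 ≤ σ) (h1 : σ ≤ Sl Q d T h) : 0 < ph (shQ Q h) σ := by
  have ha1 := al_pos hQ hT
  have hb1 := be_pos hQ hT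
  have hh' : (0 : ℝ) ≤ h := by exact_mod_cast hh
  have hsd := hQ.sd
  have hsd2 := Hyp.sd_sq d
  have hE : 1 < Real.exp (2 * T) := Real.one_lt_exp_iff.2 (by linarith)
  have ha : (0 : ℝ) < Q.a := by exact_mod_cast hQ.apos
  have h4 : 0 < al Q d T + be Q T * h := by positivity
  unfold Sl at h1
  rw [le_div_iff₀ h4] at h1
  have h5 : al Q d T * σ ≤ be Q T * (1 - h * σ) := by nlinarith
  have hx : 0 < 1 - h * σ := by
    by_contra hc
    push Not at hc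
    have h6 : be Q T * (1 - h * σ) ≤ 0 := mul_nonpos_of_nonneg_of_nonpos hb1.le hc
    have h7 : al Q d T * σ ≤ 0 := h5.trans h6
    have h8 : σ ≤ 0 := by
      by_contra h9
      push Not at h9
      have := mul_pos ha1 h9
      linarith
    have h9 : σ = 0 := le_antisymm h8 h0
    rw [h9] at hc
    norm_num at hc
  set x : ℝ := 1 - h * σ with hxdef
  have hd : (d : ℝ) = (Q.b : ℝ) ^ 2 - 4 * Q.a * Q.c := by
    have h5 := hQ.negD
    unfold Form.D at h5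
    push_cast at h5
    linarith
  have e : ph (shQ Q h) σ = Q.a * x ^ 2 + Q.b * x * σ + Q.c * σ ^ 2 := by
    unfold ph shQ
    rw [hxdef]
    push_cast
    ring
  have e4 : 4 * Q.a * ph (shQ Q h) σ =
      (2 * Q.a * x + Q.b * σ) ^ 2 - (√(d : ℝ) * σ) ^ 2 := by
    rw [e, mul_pow, hsd2, hd]
    ring
  have hZ : √(d : ℝ) * σ < 2 * Q.a * x + Q.b * σ := by
    unfold al be at h5
    have h6 : (Real.exp (2 * T) + 1) * (√(d : ℝ) * σ) ≤
        (Real.exp (2 * T) - 1) * (2 * Q.a * x + Q.b * σ) := by nlinarith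
    rcases h0.lt_or_eq with h7 | h7
    · have h8 : 0 < √(d : ℝ) * σ := by positivity
      by_contra hc
      push Not at hc
      have h9 : (Real.exp (2 * T) - 1) * (2 * Q.a * x + Q.b * σ) ≤
          (Real.exp (2 * T) - 1) * (√(d : ℝ) * σ) := mul_le_mul_of_nonneg_left hc (by linarith)
      nlinarith
    · rw [← h7]
      simp only [mul_zero, add_zero]
      positivity
  have h8 : 0 ≤ √(d : ℝ) * σ := by positivity
  have h9 : 0 < 4 * (Q.a : ℝ) * ph (shQ Q h) σ := by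
    rw [e4]; nlinarith
  exact (mul_pos_iff_of_pos_left (by positivity)).1 h9

theorem exists_c0 {Q : Form} {d : ℕ} (hQ : Hyp d Q) {T : ℝ} (hT : 0 < T) {h : ℤ} (hh : 0 ≤ h) :
    ∃ c0 : ℝ, 0 < c0 ∧ ∀ σ, 0 ≤ σ → σ ≤ Sl Q d T h → c0 ≤ ph (shQ Q h) σ := by
  have hS := Sl_pos hQ hT hh
  obtain ⟨σ, hσ, hmin⟩ := (isCompact_Icc (a := (0 : ℝ)) (b := Sl Q d T h)).exists_isMinOn
    ⟨0, le_refl _, hS.le⟩ (ph_cont (shQ Q h)).continuousOn
  refine ⟨ph (shQ Q h) σ, ph_pos hQ hT hh hσ.1 hσ.2, fun τ h1 h2 => ?_⟩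
  exact hmin ⟨h1, h2⟩

/-- shear of a frame -/
def Fs (h : ℤ) (f : V × V) : V × V := (shv h f.1, shv h f.2)

theorem Fs_inj (h : ℤ) : Function.Injective (Fs h) := by
  intro f g hfg
  unfold Fs at hfg
  rw [Prod.ext_iff] at hfg
  exact Prod.ext (shv_inj h hfg.1) (shv_inj h hfg.2)

theorem Fs_surj (h : ℤ) (g : V × V) : ∃ f : V × V, Fs h f = g :=
  ⟨((g.1.1 - h * g.1.2, g.1.2), (g.2.1 - h * g.2.2, g.2.2)),
    Prod.ext (R7.shv_surj h g.1) (R7.shv_surj h g.2)⟩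

theorem secQ_RR {Q : Form} {d : ℕ} (hQ : Hyp d Q) {T : ℝ} (hT : 0 < T) {h : ℤ} (hh : 0 ≤ h)
    (N : ℕ) (γ : Mat) (s1 s2 : ℝ) (n : ℕ) {f : V × V} (hf : f ∈ secQ Q T N γ s1 s2 n) :
    Fs h f ∈ RR (shQ Q h) (Sl Q d T h) N (shm h γ) s1 s2 n := by
  obtain ⟨h1, h2, h3, h4, h5, h6, h7⟩ := hf
  obtain ⟨h8, h9⟩ := (sec_slope hQ hT hh f.1).1 h3
  have hS := Sl_pos hQ hT hh
  unfold Fs
  refine ⟨?_, (sh_cls N h γ f).2 h2, ?_, h8, h9, ?_, ?_, ?_⟩
  · rw [sh_wd]; exact h1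
  · have h10 : (0 : ℝ) ≤ (shv h f.1).2 := by exact_mod_cast h8
    have h11 := (mul_pos_iff_of_pos_left hS).1 (lt_of_le_of_lt h10 h9)
    exact_mod_cast h11
  · rw [sh_q]; exact h5
  · rw [sh_q, sh_B]; exact h6
  · rw [sh_q, sh_B]; exact h7

theorem RR_secQ {Q : Form} {d : ℕ} (hQ : Hyp d Q) {T : ℝ} (hT : 0 < T) {h : ℤ} (hh : 0 ≤ h)
    (N : ℕ) (γ : Mat) {s1 s2 : ℝ} (hs : 0 < s1) (n : ℕ) {c0 X0 : ℝ} (hc0 : 0 < c0)
    (hph : ∀ σ, 0 ≤ σ → σ ≤ Sl Q d T h → c0 ≤ ph (shQ Q h) σ) (hX0 : 1 ≤ X0)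
    (hX : (d : ℝ) + 1 ≤ 2 * s1 * c0 * X0 ^ 2) {f : V × V} (hfX : X0 < (shv h f.1).1)
    (hf : Fs h f ∈ RR (shQ Q h) (Sl Q d T h) N (shm h γ) s1 s2 n) :
    f ∈ secQ Q T N γ s1 s2 n := by
  obtain ⟨h1, h2, h3, h4, h5, h6, h7, h8⟩ := hf
  unfold Fs at h1 h2 h3 h4 h5 h6 h7 h8
  have hql := q_low (shQ Q h) hph h3 h4 h5.le
  simp only at h1 h2 h3 h4 h5 h6 h7 h8 hql
  rw [sh_wd] at h1
  rw [sh_q, sh_B] at h7 h8
  rw [sh_q] at h6 hql
  have hS : Sec Q T f.1 := (sec_slope hQ hT hh f.1).2 ⟨h4, h5⟩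
  refine ⟨h1, (sh_cls N h γ f).1 h2, hS, ?_, h6, h7, h8⟩
  have hq1 : (0 : ℝ) < Q.q f.1 := by exact_mod_cast hS.1.q_pos hQ
  have hB : (d : ℝ) + 1 ≤ Q.B f.1 f.2 := by
    have h9 : X0 ^ 2 ≤ ((shv h f.1).1 : ℝ) ^ 2 := pow_le_pow_left₀ (by linarith) hfX.le 2
    have h10 : 2 * s1 * (c0 * X0 ^ 2) ≤ 2 * s1 * Q.q f.1 := by
      apply mul_le_mul_of_nonneg_left _ (by positivity)
      exact (mul_le_mul_of_nonneg_left h9 hc0.le).trans hql
    linarith
  have hd0 : (0 : ℝ) ≤ d := Nat.cast_nonneg d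
  have hBZ : (d : ℤ) + 1 ≤ Q.B f.1 f.2 := by exact_mod_cast hB
  have hdZ : (0 : ℤ) ≤ d := Int.natCast_nonneg d
  have hBp : 0 < Q.B f.1 f.2 := by linarith
  apply Cn.of_pos hQ hS.1 _ hBp
  have hk := Q.key f.1 f.2
  rw [hQ.disc, h1] at hk
  have hq1' : 0 < Q.q f.1 := hS.1.q_pos hQ
  have h11 : 0 < 4 * Q.q f.1 * Q.q f.2 := by rw [hk]; nlinarith
  exact (mul_pos_iff_of_pos_left (by linarith)).1 h11

/-! ### The limit -/

theorem secS_disj (N : ℕ) (γ : Mat) {δ : ℝ} (hδ : 0 < δ) (s1 s2 : ℝ) (z : ℕ → ℝ) (n : ℕ)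
    (i j : ℕ) (hij : i ≠ j) :
    Disjoint (secS N γ (δ * i) (δ * (i + 1)) s1 s2 (z i) n)
      (secS N γ (δ * j) (δ * (j + 1)) s1 s2 (z j) n) := by
  rw [Set.disjoint_left]
  rintro f ⟨-, -, hx, -, h1, h2, -, -⟩ ⟨-, -, -, -, h3, h4, -, -⟩
  have hx' : (0 : ℝ) < f.1.1 := by exact_mod_cast hx
  have key : ∀ i j : ℕ, i < j → δ * j * f.1.1 ≤ f.1.2 → (f.1.2 : ℝ) < δ * (i + 1) * f.1.1 →
      False := by
    intro i j hij h5 h6
    have h7 : (i : ℝ) + 1 ≤ j := by exact_mod_cast hij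
    have h8 : δ * (i + 1) * f.1.1 ≤ δ * j * f.1.1 :=
      mul_le_mul_of_nonneg_right (mul_le_mul_of_nonneg_left h7 hδ.le) hx'.le
    linarith
  rcases lt_or_gt_of_ne hij with h | h
  · exact key i j h h3 h2
  · exact key j i h h1 h4

/-- the statement for one shear -/
theorem core {Q : Form} {d : ℕ} (hQ : Hyp d Q) {T : ℝ} (hT : 0 < T) {h : ℤ} (hh : 0 ≤ h)
    (N : ℕ) (γ : Mat) {κ : ℝ} (hκ : 0 < κ)
    (hbox : ∀ σ1 σ2 s1 s2 z : ℝ, σ1 < σ2 → s1 < s2 → 0 < z →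
      (∀ n : ℕ, (secS N (shm h γ) σ1 σ2 s1 s2 z n).Finite) ∧
      Tendsto (fun n : ℕ => ((secS N (shm h γ) σ1 σ2 s1 s2 z n).ncard : ℝ) / n) atTop
        (𝓝 (κ * ((σ2 - σ1) * (s2 - s1) * z ^ 2)))) :
    ∃ κ' : ℝ, 0 < κ' ∧ ∀ s1 s2 : ℝ, 0 < s1 → s1 < s2 →
      (∀ n : ℕ, (secQ Q T N γ s1 s2 n).Finite) ∧
      Tendsto (fun n : ℕ => ((secQ Q T N γ s1 s2 n).ncard : ℝ) / n) atTop
        (𝓝 (κ' * (s2 - s1))) := by
  obtain ⟨c0, hc0, hph⟩ := exists_c0 hQ hT hh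
  have hS := Sl_pos hQ hT hh
  set S : ℝ := Sl Q d T h with hSdef
  set Q' : Form := shQ Q h with hQ'
  set I : ℝ := ∫ σ in (0 : ℝ)..S, 1 / ph Q' σ with hI
  have hI0 : 0 < I := int_pos Q' hS hc0 hph
  refine ⟨κ * I, by positivity, fun s1 s2 hs hss => ?_⟩
  have hs2 : 0 < s2 := hs.trans hss
  have hM0 : 0 ≤ M0 Q' S := by unfold M0; positivity
  -- bounds for given accuracy
  have key : ∀ t : ℝ, 0 < t → t < (s2 - s1) / 2 → ∃ (e : ℕ) (u l : ℕ → ℝ) (A B : ℝ),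
      (∀ n : ℕ, (secQ Q T N γ s1 s2 n).Finite) ∧
      (∀ n : ℕ, ((secQ Q T N γ s1 s2 n).ncard : ℝ) ≤ e + u n) ∧
      (∀ n : ℕ, l n ≤ (secQ Q T N γ s1 s2 n).ncard + e) ∧
      Tendsto (fun n : ℕ => u n / n) atTop (𝓝 A) ∧ Tendsto (fun n : ℕ => l n / n) atTop (𝓝 B) ∧
      A ≤ κ * (I + t) * (s2 - s1 + 2 * t) ∧ κ * (I - t) * (s2 - s1 - 2 * t) ≤ B := by
    intro t ht ht2
    obtain ⟨K, lo, hi, hK, hlh, hup, hdn⟩ := darboux Q' hS hc0 hph t ht
    have hKr : (0 : ℝ) < K := by exact_mod_cast hK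
    have hδ : 0 < S / K := by positivity
    obtain ⟨X0, hX0⟩ := exists_nat_gt (max 1 (max (M0 Q' S / (2 * c0 * t))
      (((d : ℝ) + 1) / (2 * s1 * c0))))
    have hx1 : (1 : ℝ) ≤ X0 := (lt_of_le_of_lt (le_max_left _ _) hX0).le
    have hx2 : M0 Q' S ≤ 2 * c0 * t * (X0 : ℝ) ^ 2 := by
      have h1 := lt_of_le_of_lt ((le_max_left _ _).trans (le_max_right _ _)) hX0
      rw [div_lt_iff₀ (by positivity)] at h1
      have h2 : (X0 : ℝ) ≤ (X0 : ℝ) ^ 2 := by nlinarith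
      have h3 : (2 * c0 * t) * (X0 : ℝ) ≤ (2 * c0 * t) * (X0 : ℝ) ^ 2 :=
        mul_le_mul_of_nonneg_left h2 (by positivity)
      linarith
    have hx3 : (d : ℝ) + 1 ≤ 2 * s1 * c0 * (X0 : ℝ) ^ 2 := by
      have h1 := lt_of_le_of_lt ((le_max_right _ _).trans (le_max_right _ _)) hX0
      rw [div_lt_iff₀ (by positivity)] at h1
      have h2 : (X0 : ℝ) ≤ (X0 : ℝ) ^ 2 := by nlinarith
      have h3 : (2 * s1 * c0) * (X0 : ℝ) ≤ (2 * s1 * c0) * (X0 : ℝ) ^ 2 :=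
        mul_le_mul_of_nonneg_left h2 (by positivity)
      linarith
    set E := E0 (X0 : ℝ) (S * X0) ((s2 + M0 Q' S + t + 1) * X0) with hE
    have hEf : E.Finite := E0_fin _ _ _
    set U : ℕ → ℕ → Set (V × V) := fun n j =>
      secS N (shm h γ) (S / K * j) (S / K * (j + 1)) (s1 - t) (s2 + t) (1 / √(lo j)) n with hU
    set W : ℕ → ℕ → Set (V × V) := fun n j =>
      secS N (shm h γ) (S / K * j) (S / K * (j + 1)) (s1 + t) (s2 - t) (1 / √(hi j)) n with hW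
    have hstep : ∀ j : ℕ, S / K * j < S / K * (j + 1) := by
      intro j
      have : (j : ℝ) < j + 1 := by linarith
      exact mul_lt_mul_of_pos_left this hδ
    have hUb : ∀ j < K, (∀ n, (U n j).Finite) ∧ Tendsto (fun n : ℕ => ((U n j).ncard : ℝ) / n)
        atTop (𝓝 (κ * (s2 - s1 + 2 * t) * (S / K / lo j))) := by
      intro j hj
      have hl := (hlh j hj).1
      have h1 := hbox (S / K * j) (S / K * (j + 1)) (s1 - t) (s2 + t) (1 / √(lo j)) (hstep j)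
        (by linarith) (by have := Real.sqrt_pos.2 hl; positivity)
      refine ⟨h1.1, ?_⟩
      have h2 := h1.2
      have e : κ * ((S / K * (j + 1) - S / K * j) * ((s2 + t) - (s1 - t)) * (1 / √(lo j)) ^ 2) =
          κ * (s2 - s1 + 2 * t) * (S / K / lo j) := by
        rw [div_pow, Real.sq_sqrt hl.le]
        ring
      rw [e] at h2
      exact h2
    have hWb : ∀ j < K, (∀ n, (W n j).Finite) ∧ Tendsto (fun n : ℕ => ((W n j).ncard : ℝ) / n)
        atTop (𝓝 (κ * (s2 - s1 - 2 * t) * (S / K / hi j))) := by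
      intro j hj
      have hl := (hlh j hj).2.1
      have h1 := hbox (S / K * j) (S / K * (j + 1)) (s1 + t) (s2 - t) (1 / √(hi j)) (hstep j)
        (by linarith) (by have := Real.sqrt_pos.2 hl; positivity)
      refine ⟨h1.1, ?_⟩
      have h2 := h1.2
      have e : κ * ((S / K * (j + 1) - S / K * j) * ((s2 - t) - (s1 + t)) * (1 / √(hi j)) ^ 2) =
          κ * (s2 - s1 - 2 * t) * (S / K / hi j) := by
        rw [div_pow, Real.sq_sqrt hl.le]
        ring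
      rw [e] at h2
      exact h2
    have hincU : ∀ n : ℕ, Fs h '' secQ Q T N γ s1 s2 n ⊆ E ∪ ⋃ j ∈ range K, U n j := by
      rintro n _ ⟨f, hf, rfl⟩
      exact up_incl Q' N (shm h γ) hS hc0 hph hs hss ht hx1 hx2 hK
        (fun j hj => ⟨(hlh j hj).1, fun σ a1 a2 => ((hlh j hj).2.2 σ a1 a2).1⟩) n
        (secQ_RR hQ hT hh N γ s1 s2 n hf)
    have hUfin : ∀ n : ℕ, (⋃ j ∈ range K, U n j).Finite := fun n =>
      (range K).finite_toSet.biUnion (fun j hj => (hUb j (mem_range.1 (by simpa using hj))).1 n)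
    have hfin : ∀ n : ℕ, (secQ Q T N γ s1 s2 n).Finite := fun n =>
      ((hEf.union (hUfin n)).subset (hincU n)).of_finite_image (Fs_inj h).injOn
    have hincW : ∀ n : ℕ, (⋃ j ∈ range K, W n j) ⊆ Fs h '' secQ Q T N γ s1 s2 n ∪ E := by
      intro n g hg
      rw [Set.mem_iUnion₂] at hg
      obtain ⟨j, hj, hg⟩ := hg
      rcases dn_incl Q' N (shm h γ) hS hc0 hph hs hss ht hx1 hx2 hK
        (fun j hj => ⟨(hlh j hj).2.1, fun σ a1 a2 => ((hlh j hj).2.2 σ a1 a2).2⟩) n j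
        (mem_range.1 hj) g hg with h1 | ⟨h1, h2⟩
      · right; exact h1
      · left
        obtain ⟨f, rfl⟩ := Fs_surj h g
        exact ⟨f, RR_secQ hQ hT hh N γ hs n hc0 hph hx1 hx3 h1 h2, rfl⟩
    refine ⟨E.ncard, fun n => ∑ j ∈ range K, ((U n j).ncard : ℝ),
      fun n => ∑ j ∈ range K, ((W n j).ncard : ℝ),
      ∑ j ∈ range K, κ * (s2 - s1 + 2 * t) * (S / K / lo j),
      ∑ j ∈ range K, κ * (s2 - s1 - 2 * t) * (S / K / hi j), hfin, ?_, ?_, ?_, ?_, ?_, ?_⟩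
    · intro n
      have h1 : (secQ Q T N γ s1 s2 n).ncard ≤ E.ncard + ∑ j ∈ range K, (U n j).ncard := by
        rw [← Set.ncard_image_of_injective _ (Fs_inj h)]
        refine (Set.ncard_le_ncard (hincU n) (hEf.union (hUfin n))).trans ?_
        refine (Set.ncard_union_le _ _).trans ?_
        apply Nat.add_le_add_left
        rw [ncard_biU (range K) (U n) (fun j hj => (hUb j (mem_range.1 hj)).1 n)]
        intro i _ j _ hij
        exact secS_disj N (shm h γ) hδ _ _ (fun j => 1 / √(lo j)) n i j hij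
      show ((secQ Q T N γ s1 s2 n).ncard : ℝ) ≤ E.ncard + ∑ j ∈ range K, ((U n j).ncard : ℝ)
      exact_mod_cast h1
    · intro n
      have h1 : ∑ j ∈ range K, (W n j).ncard ≤ (secQ Q T N γ s1 s2 n).ncard + E.ncard := by
        rw [← ncard_biU (range K) (W n) (fun j hj => (hWb j (mem_range.1 hj)).1 n)
          (fun i _ j _ hij => secS_disj N (shm h γ) hδ _ _ (fun j => 1 / √(hi j)) n i j hij),
          ← Set.ncard_image_of_injective (secQ Q T N γ s1 s2 n) (Fs_inj h)]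
        exact (Set.ncard_le_ncard (hincW n) (((hfin n).image _).union hEf)).trans
          (Set.ncard_union_le _ _)
      show ∑ j ∈ range K, ((W n j).ncard : ℝ) ≤ ((secQ Q T N γ s1 s2 n).ncard : ℝ) + E.ncard
      exact_mod_cast h1
    · have h1 := tendsto_finsetSum (range K) (fun j hj => (hUb j (mem_range.1 hj)).2)
      refine h1.congr (fun n => ?_)
      rw [Finset.sum_div]
    · have h1 := tendsto_finsetSum (range K) (fun j hj => (hWb j (mem_range.1 hj)).2)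
      refine h1.congr (fun n => ?_)
      rw [Finset.sum_div]
    · rw [← Finset.mul_sum]
      calc κ * (s2 - s1 + 2 * t) * ∑ j ∈ range K, S / K / lo j ≤
            κ * (s2 - s1 + 2 * t) * (I + t) :=
            mul_le_mul_of_nonneg_left hup (mul_nonneg hκ.le (by linarith))
        _ = κ * (I + t) * (s2 - s1 + 2 * t) := by ring
    · rw [← Finset.mul_sum]
      calc κ * (I - t) * (s2 - s1 - 2 * t) = κ * (s2 - s1 - 2 * t) * (I - t) := by ring
        _ ≤ κ * (s2 - s1 - 2 * t) * ∑ j ∈ range K, S / K / hi j :=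
            mul_le_mul_of_nonneg_left hdn (mul_nonneg hκ.le (by linarith))
  have hsm : 0 < (s2 - s1) / 2 := by linarith
  refine ⟨?_, ?_⟩
  · obtain ⟨e, u, l, A, B, h1, -⟩ := key ((s2 - s1) / 4) (by linarith) (by linarith)
    exact h1
  · rw [tendsto_order]
    constructor
    · intro a ha
      have hc : ContinuousAt (fun t : ℝ => κ * (I - t) * (s2 - s1 - 2 * t)) 0 := by
        fun_prop
      have h0 : a < κ * (I - 0) * (s2 - s1 - 2 * 0) := by simpa using ha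
      have h1 := hc.eventually (lt_mem_nhds h0)
      have h2 : ∀ᶠ t : ℝ in 𝓝[>] 0, a < κ * (I - t) * (s2 - s1 - 2 * t) :=
        h1.filter_mono nhdsWithin_le_nhds
      have h3 : ∀ᶠ t : ℝ in 𝓝[>] 0, t < (s2 - s1) / 2 :=
        Filter.Eventually.filter_mono nhdsWithin_le_nhds (gt_mem_nhds hsm)
      have h4 : ∀ᶠ t : ℝ in 𝓝[>] 0, 0 < t := eventually_mem_nhdsWithin
      obtain ⟨t, ht1, ht2, ht3⟩ := (h2.and (h3.and h4)).exists
      obtain ⟨e, u, l, A, B, -, -, hl, -, hlt, -, hB⟩ := key t ht3 ht2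
      have h5 : Tendsto (fun n : ℕ => l n / n - (e : ℝ) / n) atTop (𝓝 (B - 0)) :=
        hlt.sub (tendsto_const_div_atTop_nhds_zero_nat _)
      rw [sub_zero] at h5
      filter_upwards [(tendsto_order.1 h5).1 a (by linarith), eventually_gt_atTop 0] with n h6 h7
      have h8 : (0 : ℝ) < n := by exact_mod_cast h7
      refine h6.trans_le ?_
      rw [← sub_div]
      apply div_le_div_of_nonneg_right _ h8.le
      linarith [hl n]
    · intro a ha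
      have hc : ContinuousAt (fun t : ℝ => κ * (I + t) * (s2 - s1 + 2 * t)) 0 := by
        fun_prop
      have h0 : κ * (I + 0) * (s2 - s1 + 2 * 0) < a := by simpa using ha
      have h1 := hc.eventually (gt_mem_nhds h0)
      have h2 : ∀ᶠ t : ℝ in 𝓝[>] 0, κ * (I + t) * (s2 - s1 + 2 * t) < a :=
        h1.filter_mono nhdsWithin_le_nhds
      have h3 : ∀ᶠ t : ℝ in 𝓝[>] 0, t < (s2 - s1) / 2 :=
        Filter.Eventually.filter_mono nhdsWithin_le_nhds (gt_mem_nhds hsm)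
      have h4 : ∀ᶠ t : ℝ in 𝓝[>] 0, 0 < t := eventually_mem_nhdsWithin
      obtain ⟨t, ht1, ht2, ht3⟩ := (h2.and (h3.and h4)).exists
      obtain ⟨e, u, l, A, B, -, hu, -, hut, -, hA, -⟩ := key t ht3 ht2
      have h5 : Tendsto (fun n : ℕ => (e : ℝ) / n + u n / n) atTop (𝓝 (0 + A)) :=
        (tendsto_const_div_atTop_nhds_zero_nat _).add hut
      rw [zero_add] at h5
      filter_upwards [(tendsto_order.1 h5).2 a (by linarith), eventually_gt_atTop 0] with n h6 h7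
      have h8 : (0 : ℝ) < n := by exact_mod_cast h7
      refine lt_of_le_of_lt ?_ h6
      rw [← add_div]
      exact div_le_div_of_nonneg_right (hu n) h8.le

/-- a nonnegative shear -/
theorem exists_shear_nonneg (N : ℕ) (hN : 0 < N) (γ : Mat) (hd : (N : ℤ) ∣ γ.det - 1) :
    ∃ h : ℤ, 0 ≤ h ∧ Int.gcd (shm h γ).a N = 1 := by
  have h0 : ∀ p : ℕ, p.Prime → p ∣ N → ¬ ((p : ℤ) ∣ γ.a ∧ (p : ℤ) ∣ γ.c) := by
    rintro p hp hpN ⟨h1, h2⟩
    have h3 : (p : ℤ) ∣ γ.det - 1 := (by exact_mod_cast hpN : (p : ℤ) ∣ (N : ℤ)).trans hd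
    have h4 : (p : ℤ) ∣ γ.det := by
      unfold Mat.det
      exact dvd_sub (dvd_mul_of_dvd_left h1 _) (dvd_mul_of_dvd_right h2 _)
    have h5 : (p : ℤ) ∣ 1 := by
      have := dvd_sub h4 h3
      simpa using this
    have h6 : p ∣ 1 := by exact_mod_cast h5
    exact hp.one_lt.ne' (Nat.dvd_one.1 h6)
  obtain ⟨k, hk⟩ := exists_shear N hN γ.a γ.c h0
  refine ⟨k + |k| * N, ?_, ?_⟩
  · have h1 : (1 : ℤ) ≤ N := by exact_mod_cast hN
    nlinarith [abs_nonneg k, neg_abs_le k]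
  · have e : (shm (k + |k| * N) γ).a = γ.a + k * γ.c + (|k| * γ.c) * N := by
      unfold shm; ring
    rw [e, Int.gcd_add_mul_right_left]
    exact hk

end R246

/-- R2: equidistribution of the frames in the sector -/
theorem stHR_46 (hbox : StHbox) : StHR := by
  intro d Q hQ T hT N hN he γ hd
  obtain ⟨h, hh, hg⟩ := R246.exists_shear_nonneg N hN γ hd
  obtain ⟨κ, hκ, H⟩ := hbox N hN he
  have hd' : (N : ℤ) ∣ (R7.shm h γ).det - 1 := by
    have : (R7.shm h γ).det = γ.det := by unfold R7.shm Mat.det; ring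
    rw [this]; exact hd
  exact R246.core hQ hT hh N γ hκ (H (R7.shm h γ) hd' hg)

end Pool.Agent.Lib.MP_a17b09_nt.HY
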