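import Pool.Agent.Lib.MP_a17b09_nt.HY.Stmts20
import Pool.Agent.Lib.MP_a17b09_nt.CH.RedPt90

/-!
Project HY, E18: the reduction for fixed large `n`, from `StHPair` and `StHcnt`.
-/

set_option autoImplicit false

open Filter Topology Finset

namespace Pool.Agent.Lib.MP_a17b09_nt.HY

open Pool.Agent.Lib.MP_a17b09_nt.CH
open Pool.Agent.Lib.MP_a17b09_nt.CH.PE

namespace R97

/-- there are finitely many forms -/
theorem hyp_finite (d : ℕ) : {Q : Form | Hyp d Q}.Finite := by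
  classical
  apply Set.Finite.subset (((Finset.Icc (-(d : ℤ)) d ×ˢ (Finset.Icc (-(d : ℤ)) d ×ˢ
    Finset.Icc (-(d : ℤ)) d)).image (fun t : ℤ × ℤ × ℤ => (⟨t.1, t.2.1, t.2.2⟩ : Form))).finite_toSet)
  intro Q hQ
  have hQ' : Hyp d Q := hQ
  have h1 := hQ'.apos
  have h2 := hQ'.cneg
  have h3 := hQ'.disc
  unfold Form.D at h3
  have h4 : Q.b ^ 2 + 4 * (Q.a * (-Q.c)) = d := by linarith
  have h5 : 1 ≤ Q.a := h1
  have h6 : 1 ≤ -Q.c := by omega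
  have h7 : Q.a ≤ Q.a * (-Q.c) := le_mul_of_one_le_right h1.le h6
  have h8 : -Q.c ≤ Q.a * (-Q.c) := le_mul_of_one_le_left (by omega) h5
  have hb0 : 0 ≤ Q.b ^ 2 := sq_nonneg _
  have hbd : |Q.b| ≤ (d : ℤ) := by
    have h9 : Q.b ^ 2 ≤ d := by nlinarith
    rcases eq_or_ne Q.b 0 with h0 | h0
    · rw [h0]; simp
    · have : 1 ≤ |Q.b| := Int.one_le_abs h0
      rw [← sq_abs] at h9
      nlinarith
  have hbd' := abs_le.1 hbd
  rw [Finset.mem_coe, Finset.mem_image]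
  refine ⟨(Q.a, Q.b, Q.c), ?_, rfl⟩
  simp only [Finset.mem_product, Finset.mem_Icc]
  refine ⟨⟨by omega, ?_⟩, ⟨hbd'.1, hbd'.2⟩, ?_, by omega⟩
  · nlinarith
  · nlinarith

/-- the conditions on the pairs -/
def good (Q : Form) (T lo hi : ℝ) (M : ℤ) (f : V × V) : Prop :=
  Prim f.1 ∧ Sec Q T f.1 ∧ lo ≤ (Q.q f.1 : ℝ) ∧ (Q.q f.1 : ℝ) ≤ hi ∧ Cn Q f.2 ∧
    (Q.q f.2 : ℝ) ≤ hi ∧ 0 < wd f.1 f.2 ∧ wd f.1 f.2 ≤ M

/-- a sum over pairs, by determinants -/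
theorem pairs (Q : Form) (T lo hi C1 C2 : ℝ) (M : ℤ) (hC1 : 0 ≤ C1) (hC2 : 0 ≤ C2)
    (hA : {v : V | Sec Q T v ∧ (Q.q v : ℝ) ≤ hi}.Finite)
    (hA' : ({v : V | Sec Q T v ∧ (Q.q v : ℝ) ≤ hi}.ncard : ℝ) ≤ C1)
    (hB : ∀ (v : V) (k : ℤ), Prim v → Cn Q v → lo ≤ (Q.q v : ℝ) →
      {v' : V | Cn Q v' ∧ (Q.q v' : ℝ) ≤ hi ∧ wd v v' = k}.Finite ∧
      ({v' : V | Cn Q v' ∧ (Q.q v' : ℝ) ≤ hi ∧ wd v v' = k}.ncard : ℝ) ≤ C2) :
    ∃ S : Finset (V × V), (∀ f, good Q T lo hi M f → f ∈ S) ∧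
      ∀ (Y : V × V → ℝ) (β : ℤ → ℝ), (∀ k, 0 ≤ β k) → (∀ f, ¬ good Q T lo hi M f → Y f ≤ 0) →
        (∀ f, good Q T lo hi M f → Y f ≤ β (wd f.1 f.2)) →
        ∑ f ∈ S, Y f ≤ C1 * (C2 * ∑ k ∈ Finset.Icc 1 M, β k) := by
  classical
  set A : Finset V := hA.toFinset.filter (fun v => Prim v ∧ lo ≤ (Q.q v : ℝ)) with hAd
  have hAm : ∀ v ∈ A, Sec Q T v ∧ (Q.q v : ℝ) ≤ hi ∧ Prim v ∧ lo ≤ (Q.q v : ℝ) := by
    intro v hv
    rw [hAd, Finset.mem_filter, Set.Finite.mem_toFinset] at hv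
    exact ⟨hv.1.1, hv.1.2, hv.2.1, hv.2.2⟩
  have hAc : ((A.card : ℕ) : ℝ) ≤ C1 := by
    have h1 : A.card ≤ hA.toFinset.card := Finset.card_le_card (Finset.filter_subset _ _)
    have h2 : hA.toFinset.card = {v : V | Sec Q T v ∧ (Q.q v : ℝ) ≤ hi}.ncard :=
      (Set.ncard_eq_toFinset_card _ hA).symm
    rw [h2] at h1
    exact le_trans (by exact_mod_cast h1) hA'
  set Bf : V → ℤ → Finset V := fun v k =>
    if hf : {v' : V | Cn Q v' ∧ (Q.q v' : ℝ) ≤ hi ∧ wd v v' = k}.Finite then hf.toFinset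
    else ∅ with hBf
  set A2 : Finset V := A.biUnion fun v => (Finset.Icc 1 M).biUnion fun k => Bf v k with hA2
  refine ⟨A ×ˢ A2, ?_, ?_⟩
  · rintro f ⟨f1, f2, f3, f4, f5, f6, f7, f8⟩
    have hfA : f.1 ∈ A := by
      rw [hAd, Finset.mem_filter, Set.Finite.mem_toFinset]
      exact ⟨⟨f2, f4⟩, f1, f3⟩
    refine Finset.mem_product.2 ⟨hfA, ?_⟩
    rw [hA2, Finset.mem_biUnion]
    refine ⟨f.1, hfA, ?_⟩
    rw [Finset.mem_biUnion]
    refine ⟨wd f.1 f.2, Finset.mem_Icc.2 ⟨f7, f8⟩, ?_⟩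
    rw [hBf]
    simp only
    rw [dif_pos (hB f.1 (wd f.1 f.2) f1 f2.1 f3).1, Set.Finite.mem_toFinset]
    exact ⟨f5, f6, rfl⟩
  · intro Y β hβ hY0 hY1
    rw [Finset.sum_product]
    have hsum0 : 0 ≤ ∑ k ∈ Finset.Icc 1 M, β k := Finset.sum_nonneg fun k _ => hβ k
    have h1 : ∀ v ∈ A, ∑ v' ∈ A2, Y (v, v') ≤ C2 * ∑ k ∈ Finset.Icc 1 M, β k := by
      intro v hv
      obtain ⟨v1, v2, v3, v4⟩ := hAm v hv
      have h2 : ∀ v' ∈ A2, Y (v, v') ≤ ∑ k ∈ Finset.Icc 1 M,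
          if Cn Q v' ∧ (Q.q v' : ℝ) ≤ hi ∧ wd v v' = k then β k else 0 := by
        intro v' _
        by_cases hg : good Q T lo hi M (v, v')
        · refine (hY1 _ hg).trans ?_
          obtain ⟨_, _, _, _, f5, f6, f7, f8⟩ := hg
          have h3 : wd v v' ∈ Finset.Icc 1 M := Finset.mem_Icc.2 ⟨f7, f8⟩
          refine le_trans ?_ (Finset.single_le_sum (f := fun k =>
            if Cn Q v' ∧ (Q.q v' : ℝ) ≤ hi ∧ wd v v' = k then β k else 0) (fun k _ => ?_) h3)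
          · show β (wd v v') ≤ if Cn Q v' ∧ (Q.q v' : ℝ) ≤ hi ∧ wd v v' = wd v v' then
              β (wd v v') else 0
            rw [if_pos ⟨f5, f6, rfl⟩]
          · show (0 : ℝ) ≤ if Cn Q v' ∧ (Q.q v' : ℝ) ≤ hi ∧ wd v v' = k then β k else 0
            split_ifs
            · exact hβ k
            · exact le_rfl
        · refine (hY0 _ hg).trans ?_
          apply Finset.sum_nonneg
          intro k _
          split_ifs
          · exact hβ k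
          · exact le_rfl
      refine (Finset.sum_le_sum h2).trans ?_
      rw [Finset.sum_comm, Finset.mul_sum]
      apply Finset.sum_le_sum
      intro k _
      rw [← Finset.sum_filter, Finset.sum_const, nsmul_eq_mul]
      apply mul_le_mul_of_nonneg_right _ (hβ k)
      obtain ⟨b1, b2⟩ := hB v k v3 v1.1 v4
      refine le_trans ?_ b2
      rw [Set.ncard_eq_toFinset_card _ b1]
      have h4 : A2.filter (fun v' => Cn Q v' ∧ (Q.q v' : ℝ) ≤ hi ∧ wd v v' = k) ⊆ b1.toFinset := by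
        intro v' hv'
        rw [Set.Finite.mem_toFinset]
        exact (Finset.mem_filter.1 hv').2
      exact_mod_cast Finset.card_le_card h4
    refine (Finset.sum_le_sum h1).trans ?_
    rw [Finset.sum_const, nsmul_eq_mul]
    exact mul_le_mul_of_nonneg_right hAc (mul_nonneg hC2 hsum0)

/-- the sum over the moduli -/
theorem sum_NN (K e : ℕ) (U : V → V → ℂ) (c : Prop) [Decidable c] (v v' : V) (x : ℝ) :
    (∑ k ∈ NN K e, if c ∧ wd v v' = ((k : ℕ) : ℤ) then (x : ℂ) * U v v' else 0) =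
      (((if c ∧ (2 : ℝ) ^ e < (wd v v' : ℝ) ∧ (wd v v' : ℝ) ≤ 2 * 2 ^ e then x else 0 :
        ℝ)) : ℂ) * UK K U v v' := by
  classical
  have hmem : ∀ m : ℕ, wd v v' = (m : ℤ) → (m ∈ NN K e ↔ ((2 : ℝ) ^ e < (wd v v' : ℝ) ∧
      (wd v v' : ℝ) ≤ 2 * 2 ^ e) ∧ (K : ℤ) ∣ wd v v' - 1) := by
    intro m hm
    unfold NN
    rw [Finset.mem_filter, Finset.mem_Ioc, hm]
    have e1 : (2 ^ e < m) ↔ ((2 : ℝ) ^ e < ((m : ℤ) : ℝ)) := by
      rw [Int.cast_natCast]; exact_mod_cast Iff.rfl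
    have e2 : (m ≤ 2 ^ (e + 1)) ↔ (((m : ℤ) : ℝ) ≤ 2 * 2 ^ e) := by
      rw [Int.cast_natCast, pow_succ, mul_comm]; exact_mod_cast Iff.rfl
    have e3 : (m ≡ 1 [MOD K]) ↔ ((K : ℤ) ∣ (m : ℤ) - 1) := by
      rw [Nat.ModEq.comm, Nat.modEq_iff_dvd]
      norm_num
    rw [e1, e2, e3]
  by_cases hex : ∃ m ∈ NN K e, wd v v' = (m : ℤ)
  · obtain ⟨m, hm, hw⟩ := hex
    have h1 := (hmem m hw).1 hm
    rw [Finset.sum_eq_single m]
    · unfold UK
      rw [if_pos h1.2]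
      by_cases hB : c
      · rw [if_pos ⟨hB, hw⟩, if_pos ⟨hB, h1.1.1, h1.1.2⟩]
      · rw [if_neg (fun h => hB h.1), if_neg (fun h => hB h.1)]
        simp
    · intro k _ hk
      rw [if_neg]
      rintro ⟨-, h2⟩
      apply hk
      have : (k : ℤ) = m := by rw [← h2, hw]
      exact_mod_cast this
    · intro h; exact absurd hm h
  · have h0 : (∑ k ∈ NN K e, if c ∧ wd v v' = ((k : ℕ) : ℤ) then
        (x : ℂ) * U v v' else 0) = 0 := by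
      apply Finset.sum_eq_zero
      intro k hk
      rw [if_neg]
      rintro ⟨-, h2⟩
      exact hex ⟨k, hk, h2⟩
    rw [h0]
    unfold UK
    by_cases hc : c ∧ (2 : ℝ) ^ e < (wd v v' : ℝ) ∧ (wd v v' : ℝ) ≤ 2 * 2 ^ e
    · by_cases hK : (K : ℤ) ∣ wd v v' - 1
      · exfalso
        have hpos : 0 ≤ wd v v' := by
          have h3 : (0 : ℝ) < (wd v v' : ℝ) := lt_trans (by positivity) hc.2.1
          have : 0 < wd v v' := by exact_mod_cast h3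
          exact this.le
        have h4 : wd v v' = (((wd v v').toNat : ℕ) : ℤ) := (Int.toNat_of_nonneg hpos).symm
        exact hex ⟨(wd v v').toNat, (hmem _ h4).2 ⟨⟨hc.2.1, hc.2.2⟩, hK⟩, h4⟩
      · rw [if_neg hK, mul_zero]
    · rw [if_neg hc]; simp

/-- uniform constants for the countings -/
theorem unif (hcnt : StHcnt) (d : ℕ) (T δ : ℝ) (hT : 0 < T) (hδ : 0 < δ) :
    ∃ C : ℝ, 0 < C ∧ ∀ Q : Form, Hyp d Q →
      (∀ n : ℝ, 1 ≤ n → {v : V | Sec Q T v ∧ (Q.q v : ℝ) ≤ n}.Finite ∧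
        ({v : V | Sec Q T v ∧ (Q.q v : ℝ) ≤ n}.ncard : ℝ) ≤ C * n) ∧
      ∀ (n : ℝ) (v : V) (k : ℤ), 0 < n → Prim v → Cn Q v → δ ^ 2 * n ≤ (Q.q v : ℝ) →
        {v' : V | Cn Q v' ∧ (Q.q v' : ℝ) ≤ n ∧ wd v v' = k}.Finite ∧
        ({v' : V | Cn Q v' ∧ (Q.q v' : ℝ) ≤ n ∧ wd v v' = k}.ncard : ℝ) ≤ C := by
  classical
  have h1 : ∀ Q : Form, ∃ C : ℝ, Hyp d Q → (0 < C ∧
      (∀ n : ℝ, 1 ≤ n → {v : V | Sec Q T v ∧ (Q.q v : ℝ) ≤ n}.Finite ∧
        ({v : V | Sec Q T v ∧ (Q.q v : ℝ) ≤ n}.ncard : ℝ) ≤ C * n) ∧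
      ∀ (n : ℝ) (v : V) (k : ℤ), 0 < n → Prim v → Cn Q v → δ ^ 2 * n ≤ (Q.q v : ℝ) →
        {v' : V | Cn Q v' ∧ (Q.q v' : ℝ) ≤ n ∧ wd v v' = k}.Finite ∧
        ({v' : V | Cn Q v' ∧ (Q.q v' : ℝ) ≤ n ∧ wd v v' = k}.ncard : ℝ) ≤ C) := by
    intro Q
    by_cases hQ : Hyp d Q
    · obtain ⟨C, hC, a1, _, a3⟩ := hcnt d Q hQ T hT δ hδ
      exact ⟨C, fun _ => ⟨hC, a1, a3⟩⟩
    · exact ⟨0, fun h => absurd h hQ⟩
  choose Cf hCf using h1
  obtain ⟨M, hM⟩ := ((hyp_finite d).image Cf).bddAbove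
  refine ⟨|M| + 1, by positivity, fun Q hQ => ?_⟩
  obtain ⟨_, a1, a3⟩ := hCf Q hQ
  have h2 : Cf Q ≤ |M| + 1 := by
    have h3 : Cf Q ≤ M := hM ⟨Q, hQ, rfl⟩
    linarith [le_abs_self M]
  refine ⟨fun n hn => ⟨(a1 n hn).1, (a1 n hn).2.trans ?_⟩, fun n v k hn hv hv' hq =>
    ⟨(a3 n v k hn hv hv' hq).1, (a3 n v k hn hv hv' hq).2.trans h2⟩⟩
  exact mul_le_mul_of_nonneg_right h2 (by linarith)

end R97

open R97

/-- E18 -/
theorem stHRedPt_97 (hP : StHPair) (hcnt : StHcnt) : StHRedPt := by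
  classical
  intro d hd τ δ h hτ hδ hδ1 hT K hK ε hε
  obtain ⟨C, hC2, hC⟩ := hP d hd τ δ h hτ hδ hδ1 hT
  have hpi := Real.pi_pos
  have hC0 : 0 < C := by linarith
  set T : ℝ := 2 * Real.pi * τ with hTd
  have hTp : 0 < T := by positivity
  obtain ⟨C1, hC10, hC1⟩ := unif hcnt d T (δ / 4) hTp (by positivity)
  have hK0 : (0 : ℝ) < K := by exact_mod_cast hK
  set A : ℝ := 4 * C1 ^ 2 * K * C with hA
  have hA0 : 0 < A := by positivity
  set ε1 : ℝ := min (1 / 4) (ε / (4 * (A * (C + 4)))) with hε1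
  have hε10 : 0 < ε1 := lt_min (by norm_num) (by positivity)
  have hε1h : ε1 < 1 / 2 := lt_of_le_of_lt (min_le_left _ _) (by norm_num)
  have hε1A : A * (C + 4) * ε1 ≤ ε / 4 := by
    have h1 : ε1 ≤ ε / (4 * (A * (C + 4))) := min_le_right _ _
    rw [le_div_iff₀ (by positivity)] at h1
    linarith
  obtain ⟨r, G1, G2, B, hG, hmain⟩ := hC ε1 hε10 hε1h
  refine ⟨r, fun j x y => K * G1 j x y, G2, B, fun j => ⟨?_, (hG j).2⟩, ?_⟩
  · obtain ⟨⟨hB1, hS, L, hL⟩, -⟩ := hG j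
    refine ⟨hB1, fun x y hne => hS x y (fun h0 => hne ?_), K * L,
      fun x y x' y' => ?_⟩
    · show (K : ℝ) * G1 j x y = 0
      rw [h0, mul_zero]
    · show |(K : ℝ) * G1 j x y - K * G1 j x' y'| ≤ _
      rw [← mul_sub, abs_mul, abs_of_pos hK0]
      calc (K : ℝ) * |G1 j x y - G1 j x' y'|
          ≤ K * (L * (|x - x'| + |y - y'|)) :=
            mul_le_mul_of_nonneg_left (hL _ _ _ _) hK0.le
        _ = _ := by ring
  intro Q hQ
  obtain ⟨e0, he0⟩ := pow_unbounded_of_one_lt (8 * A / ε) (by norm_num : (1 : ℝ) < 2)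
  refine ⟨e0, fun e he => ?_⟩
  set P : ℝ := 2 ^ e with hPdef
  have hP1 : 1 ≤ P := one_le_pow₀ (by norm_num)
  have hP0 : 0 < P := by linarith
  have hPA : 8 * A / ε ≤ P := he0.le.trans (pow_le_pow_right₀ (by norm_num) he)
  obtain ⟨n0, hn0⟩ := hmain Q hQ P hP1
  refine ⟨max n0 1, fun n hn U hU => ?_⟩
  have hn0' : n0 ≤ n := (le_max_left _ _).trans hn
  have hn1'' : 1 ≤ n := (le_max_right _ _).trans hn
  have hnR1 : (1 : ℝ) ≤ n := by exact_mod_cast hn1''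
  have hnR : (0 : ℝ) < n := by linarith
  -- the average over the angle
  set I : V → V → ℝ := fun v v' => (1 / (2 * Real.pi)) * ∫ θ : ℝ, ∑ j,
      G1 j (hlx Q τ n θ v) (hly Q τ n θ v / P) * G2 j (hlx Q τ n θ v') (hly Q τ n θ v' / P)
    with hI
  have hI' : ∀ v v', (1 / (2 * Real.pi) * ∫ θ : ℝ, ∑ j,
      K * G1 j (hlx Q τ n θ v) (hly Q τ n θ v / P) *
        G2 j (hlx Q τ n θ v') (hly Q τ n θ v' / P)) = K * I v v' := by
    intro v v'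
    have h1 : ∀ θ : ℝ, ∑ j, K * G1 j (hlx Q τ n θ v) (hly Q τ n θ v / P) *
        G2 j (hlx Q τ n θ v') (hly Q τ n θ v' / P) = K *
        ∑ j, G1 j (hlx Q τ n θ v) (hly Q τ n θ v / P) *
          G2 j (hlx Q τ n θ v') (hly Q τ n θ v' / P) := by
      intro θ
      rw [Finset.mul_sum]
      apply Finset.sum_congr rfl
      intro j _
      ring
    simp only [h1]
    rw [MeasureTheory.integral_const_mul, hI]
    ring
  -- the pairs
  set M : ℤ := ⌊C * P⌋ with hM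
  obtain ⟨S, hSg, hSs⟩ := pairs Q T ((δ / 2) ^ 2 * n) (4 * n) (C1 * (4 * n)) C1 M
    (by positivity) hC10.le ((hC1 Q hQ).1 (4 * n) (by linarith)).1
    ((hC1 Q hQ).1 (4 * n) (by linarith)).2 (by
      intro v k hv hv' hq
      apply (hC1 Q hQ).2 (4 * n) v k (by positivity) hv hv'
      calc (δ / 4) ^ 2 * (4 * n) = (δ / 2) ^ 2 * n := by ring
        _ ≤ _ := hq)
  set c0 : V × V → Prop := fun f => Prim f.1 ∧ Prim f.2 ∧ Sec Q T f.1 ∧ Cn Q f.2 with hc0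
  set H : V × V → ℝ := fun f => if c0 f ∧ P < (wd f.1 f.2 : ℝ) ∧ (wd f.1 f.2 : ℝ) ≤ 2 * P
    then h (Q.nr n f.1) (Q.nr n f.2) else 0 with hH
  set gr : V × V → ℝ := fun f => if Prim f.1 ∧ Prim f.2 ∧ Sec Q T f.1 then K * I f.1 f.2 else 0
    with hgr
  have hgood_h : ∀ f : V × V, c0 f → h (Q.nr n f.1) (Q.nr n f.2) ≠ 0 → P < (wd f.1 f.2 : ℝ) →
      (wd f.1 f.2 : ℝ) ≤ 2 * P → good Q T ((δ / 2) ^ 2 * n) (4 * n) M f := by
    rintro f ⟨p1, p2, p3, p4⟩ hne w1 w2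
    obtain ⟨b1, b2, b3, b4⟩ := hT.2 _ _ hne
    have nrsq : ∀ u : V, Cn Q u → Q.nr n u ^ 2 = Q.q u / n := by
      intro u hu
      exact Real.sq_sqrt (div_nonneg (by exact_mod_cast (hu.q_pos hQ).le) hnR.le)
    have q1 := nrsq f.1 p3.1
    have q2 := nrsq f.2 p4
    refine ⟨p1, p3, ?_, ?_, p4, ?_, ?_, Int.le_floor.2 ?_⟩
    · rw [← le_div_iff₀ hnR, ← q1]
      nlinarith
    · rw [← div_le_iff₀ hnR, ← q1]
      nlinarith
    · rw [← div_le_iff₀ hnR, ← q2]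
      nlinarith
    · have : (0 : ℝ) < (wd f.1 f.2 : ℝ) := hP0.trans w1
      exact_mod_cast this
    · calc (wd f.1 f.2 : ℝ) ≤ 2 * P := w2
        _ ≤ C * P := mul_le_mul_of_nonneg_right hC2 hP0.le
  have hbad : ∀ f, ¬ good Q T ((δ / 2) ^ 2 * n) (4 * n) M f → H f = 0 ∧ gr f = 0 := by
    intro f hf
    constructor
    · show (if c0 f ∧ P < (wd f.1 f.2 : ℝ) ∧ (wd f.1 f.2 : ℝ) ≤ 2 * P
        then h (Q.nr n f.1) (Q.nr n f.2) else 0) = 0
      split_ifs with hc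
      · by_contra hh
        exact hf (hgood_h f hc.1 hh hc.2.1 hc.2.2)
      · rfl
    · show (if Prim f.1 ∧ Prim f.2 ∧ Sec Q T f.1 then K * I f.1 f.2 else 0) = 0
      split_ifs with hc
      · have : I f.1 f.2 = 0 := by
          apply (hn0 n hn0' f.1 f.2 (I f.1 f.2) rfl).1
          rintro ⟨a1, a2, a3, a4, a5, a6, a7, a8⟩
          exact hf ⟨hc.1, hc.2.2, a3, a4, a2, a6, a7, Int.le_floor.2 a8⟩
        rw [this, mul_zero]
      · rfl
  have hMk : ∀ k ∈ NN K e, ∀ f ∉ S, hkk Q T h U ((k : ℕ) : ℤ) n f = 0 := by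
    intro k hk f hf
    unfold hkk
    split_ifs with hc
    · have hk' := Finset.mem_Ioc.1 (Finset.mem_filter.1 hk).1
      have w : (wd f.1 f.2 : ℝ) = k := by rw [hc.2.2.2.2]; simp
      have w1 : P < (wd f.1 f.2 : ℝ) := by
        rw [w, hPdef]; exact_mod_cast hk'.1
      have w2 : (wd f.1 f.2 : ℝ) ≤ 2 * P := by
        have : k ≤ 2 * 2 ^ e := by rw [pow_succ] at hk'; omega
        rw [w, hPdef]; exact_mod_cast this
      have hz : h (Q.nr n f.1) (Q.nr n f.2) = 0 := by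
        by_contra hne
        exact hf (hSg f (hgood_h f ⟨hc.1, hc.2.1, hc.2.2.1, hc.2.2.2.1⟩ hne w1 w2))
      rw [hz]; simp
    · rfl
  have e1 : (1 / (2 : ℂ) ^ e) * ∑ k ∈ NN K e, (K : ℂ) * Hk Q T h U (k : ℤ) n =
      ∑ f ∈ S, ((K / (P * (n * T)) * H f : ℝ) : ℂ) * UK K U f.1 f.2 := by
    have h1 : ∀ k ∈ NN K e, (K : ℂ) * Hk Q T h U (k : ℤ) n =
        (K : ℂ) * ((1 / (((n : ℝ) * T : ℝ) : ℂ)) * ∑ f ∈ S, hkk Q T h U (k : ℤ) n f) := by
      intro k hk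
      unfold Hk
      rw [tsum_eq_sum (hMk k hk)]
    have h2 : ∑ k ∈ NN K e, ∑ f ∈ S, hkk Q T h U (k : ℤ) n f =
        ∑ f ∈ S, (H f : ℂ) * UK K U f.1 f.2 := by
      rw [Finset.sum_comm]
      apply Finset.sum_congr rfl
      intro f _
      have h3 := sum_NN K e U (c0 f) f.1 f.2 (h (Q.nr n f.1) (Q.nr n f.2))
      have h4 : (∑ k ∈ NN K e, hkk Q T h U (k : ℤ) n f) =
          ∑ k ∈ NN K e, if c0 f ∧ wd f.1 f.2 = ((k : ℕ) : ℤ) then
            ((h (Q.nr n f.1) (Q.nr n f.2) : ℝ) : ℂ) * U f.1 f.2 else 0 := by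
        apply Finset.sum_congr rfl
        intro k _
        unfold hkk
        by_cases hc : c0 f ∧ wd f.1 f.2 = ((k : ℕ) : ℤ)
        · rw [if_pos hc, if_pos ⟨hc.1.1, hc.1.2.1, hc.1.2.2.1, hc.1.2.2.2, hc.2⟩]
        · rw [if_neg hc, if_neg (fun h5 => hc ⟨⟨h5.1, h5.2.1, h5.2.2.1, h5.2.2.2.1⟩,
            h5.2.2.2.2⟩)]
      rw [h4, h3]
    rw [Finset.sum_congr rfl h1]
    have h3 : ∑ k ∈ NN K e, (K : ℂ) * ((1 / (((n : ℝ) * T : ℝ) : ℂ)) *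
        ∑ f ∈ S, hkk Q T h U (k : ℤ) n f) = (K : ℂ) * ((1 / (((n : ℝ) * T : ℝ) : ℂ)) *
        ∑ k ∈ NN K e, ∑ f ∈ S, hkk Q T h U (k : ℤ) n f) := by
      rw [Finset.mul_sum, Finset.mul_sum]
    rw [h3, h2, Finset.mul_sum, Finset.mul_sum, Finset.mul_sum]
    apply Finset.sum_congr rfl
    intro f _
    rw [hPdef]
    push_cast
    have h3 : (n : ℂ) ≠ 0 := by exact_mod_cast hnR.ne'
    have h4 : (T : ℂ) ≠ 0 := by exact_mod_cast hTp.ne'
    field_simp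
  have e2 : (∑' f : V × V,
        if Prim f.1 ∧ Prim f.2 ∧ Sec Q T f.1 then
        ((1 / (2 * Real.pi) * ∫ θ : ℝ, ∑ j,
          (fun j x y => (K : ℝ) * G1 j x y) j (hlx Q τ n θ f.1) (hly Q τ n θ f.1 / 2 ^ e) *
            G2 j (hlx Q τ n θ f.2) (hly Q τ n θ f.2 / 2 ^ e) : ℝ) : ℂ) * UK K U f.1 f.2 else 0) =
      ∑ f ∈ S, ((gr f : ℝ) : ℂ) * UK K U f.1 f.2 := by
    have h1 : ∀ f : V × V, (if Prim f.1 ∧ Prim f.2 ∧ Sec Q T f.1 then
        ((1 / (2 * Real.pi) * ∫ θ : ℝ, ∑ j,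
          (fun j x y => (K : ℝ) * G1 j x y) j (hlx Q τ n θ f.1) (hly Q τ n θ f.1 / 2 ^ e) *
            G2 j (hlx Q τ n θ f.2) (hly Q τ n θ f.2 / 2 ^ e) : ℝ) : ℂ) * UK K U f.1 f.2 else 0) =
        ((gr f : ℝ) : ℂ) * UK K U f.1 f.2 := by
      intro f
      show _ = (((if Prim f.1 ∧ Prim f.2 ∧ Sec Q T f.1 then K * I f.1 f.2 else 0 : ℝ)) : ℂ) *
        UK K U f.1 f.2
      by_cases hc : Prim f.1 ∧ Prim f.2 ∧ Sec Q T f.1
      · rw [if_pos hc, if_pos hc, ← hI']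
      · rw [if_neg hc, if_neg hc]; simp
    rw [tsum_congr h1]
    apply tsum_eq_sum
    intro f hf
    rw [(hbad f (fun hg => hf (hSg f hg))).2]
    simp
  show ‖(1 / (2 : ℂ) ^ e) * ∑ k ∈ NN K e, (K : ℂ) * Hk Q T h U (k : ℤ) n -
      (1 / (2 : ℂ) ^ e) ^ 2 * ∑' f : V × V,
        if Prim f.1 ∧ Prim f.2 ∧ Sec Q T f.1 then
        ((1 / (2 * Real.pi) * ∫ θ : ℝ, ∑ j,
          (fun j x y => (K : ℝ) * G1 j x y) j (hlx Q τ n θ f.1) (hly Q τ n θ f.1 / 2 ^ e) *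
            G2 j (hlx Q τ n θ f.2) (hly Q τ n θ f.2 / 2 ^ e) : ℝ) : ℂ) *
          UK K U f.1 f.2 else 0‖ ≤ ε
  rw [e1, e2]
  have hpc : (1 / (2 : ℂ) ^ e) ^ 2 = ((1 / P ^ 2 : ℝ) : ℂ) := by
    rw [hPdef]; push_cast; ring
  rw [hpc, Finset.mul_sum, ← Finset.sum_sub_distrib]
  -- the terms
  set F : V × V → ℝ := fun f => |K / (P * (n * T)) * H f - 1 / P ^ 2 * gr f| with hF
  have hUK : ∀ v v', ‖UK K U v v'‖ ≤ 1 := by
    intro v v'
    unfold UK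
    split_ifs
    · exact hU v v'
    · simp
  have h1 : ‖∑ f ∈ S, (((K / (P * (n * T)) * H f : ℝ) : ℂ) * UK K U f.1 f.2 -
      ((1 / P ^ 2 : ℝ) : ℂ) * (((gr f : ℝ) : ℂ) * UK K U f.1 f.2))‖ ≤ ∑ f ∈ S, F f := by
    refine (norm_sum_le _ _).trans (Finset.sum_le_sum fun f _ => ?_)
    have e9 : ((K / (P * (n * T)) * H f : ℝ) : ℂ) * UK K U f.1 f.2 -
        ((1 / P ^ 2 : ℝ) : ℂ) * (((gr f : ℝ) : ℂ) * UK K U f.1 f.2) =
        ((K / (P * (n * T)) * H f - 1 / P ^ 2 * gr f : ℝ) : ℂ) * UK K U f.1 f.2 := by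
      rw [Complex.ofReal_sub, Complex.ofReal_mul (1 / P ^ 2) (gr f)]
      ring
    rw [e9, norm_mul, Complex.norm_real, Real.norm_eq_abs]
    calc |K / (P * (n * T)) * H f - 1 / P ^ 2 * gr f| * ‖UK K U f.1 f.2‖
        ≤ |K / (P * (n * T)) * H f - 1 / P ^ 2 * gr f| * 1 :=
          mul_le_mul_of_nonneg_left (hUK _ _) (abs_nonneg _)
      _ = F f := by rw [mul_one]
  refine h1.trans ?_
  set β : ℤ → ℝ := fun k => K / (P * n) * (C * ε1 +
    (if |(k : ℝ) - P| ≤ ε1 * P ∨ |(k : ℝ) - 2 * P| ≤ ε1 * P then C else 0)) with hβ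
  have hβ0 : ∀ k, 0 ≤ β k := by
    intro k
    have : (0 : ℝ) ≤ if |(k : ℝ) - P| ≤ ε1 * P ∨ |(k : ℝ) - 2 * P| ≤ ε1 * P then C else 0 := by
      split_ifs
      · exact hC0.le
      · exact le_rfl
    show 0 ≤ K / (P * n) * (C * ε1 +
      (if |(k : ℝ) - P| ≤ ε1 * P ∨ |(k : ℝ) - 2 * P| ≤ ε1 * P then C else 0))
    positivity
  have h3 := hSs F β hβ0
    (by
      intro f hf
      obtain ⟨z1, z2⟩ := hbad f hf
      show |K / (P * (n * T)) * H f - 1 / P ^ 2 * gr f| ≤ 0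
      rw [z1, z2]
      simp)
    (by
      intro f hg
      show |K / (P * (n * T)) * H f - 1 / P ^ 2 * gr f| ≤ β (wd f.1 f.2)
      by_cases hp : Prim f.2
      · have hc : c0 f := ⟨hg.1, hp, hg.2.1, hg.2.2.2.2.1⟩
        have g1 : gr f = K * I f.1 f.2 := if_pos ⟨hg.1, hp, hg.2.1⟩
        have g2 : H f = if P < (wd f.1 f.2 : ℝ) ∧ (wd f.1 f.2 : ℝ) ≤ 2 * P then
            h (Q.nr n f.1) (Q.nr n f.2) else 0 := by
          show (if c0 f ∧ P < (wd f.1 f.2 : ℝ) ∧ (wd f.1 f.2 : ℝ) ≤ 2 * P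
            then h (Q.nr n f.1) (Q.nr n f.2) else 0) = _
          by_cases h5 : P < (wd f.1 f.2 : ℝ) ∧ (wd f.1 f.2 : ℝ) ≤ 2 * P
          · rw [if_pos h5, if_pos ⟨hc, h5⟩]
          · rw [if_neg h5, if_neg (fun h6 => h5 h6.2)]
        have h2 := (hn0 n hn0' f.1 f.2 (I f.1 f.2) rfl).2 hg.2.1.1 hg.2.2.2.2.1
        rw [← g2] at h2
        rw [g1]
        have h4 : K / (P * (n * T)) * H f - 1 / P ^ 2 * (K * I f.1 f.2) =
            -(K / (P ^ 2 * n) * (n * I f.1 f.2 - P / T * H f)) := by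
          field_simp
          ring
        rw [h4, abs_neg, abs_mul, abs_of_pos (by positivity : 0 < (K : ℝ) / (P ^ 2 * n))]
        calc K / (P ^ 2 * n) * |n * I f.1 f.2 - P / T * H f|
            ≤ K / (P ^ 2 * n) * (P * (C * ε1 +
              (if |(wd f.1 f.2 : ℝ) - P| ≤ ε1 * P ∨ |(wd f.1 f.2 : ℝ) - 2 * P| ≤ ε1 * P
                then C else 0))) :=
              mul_le_mul_of_nonneg_left h2 (by positivity)
          _ = β (wd f.1 f.2) := by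
              show _ = K / (P * n) * (C * ε1 +
                (if |(wd f.1 f.2 : ℝ) - P| ≤ ε1 * P ∨ |(wd f.1 f.2 : ℝ) - 2 * P| ≤ ε1 * P
                  then C else 0))
              field_simp
      · have g1 : gr f = 0 := if_neg (fun h5 => hp h5.2.1)
        have g2 : H f = 0 := if_neg (fun h5 => hp h5.1.2.1)
        rw [g1, g2]
        simp only [mul_zero, sub_zero, abs_zero]
        exact hβ0 _)
  refine h3.trans ?_
  -- the sum of β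
  have hsum : ∑ k ∈ Finset.Icc 1 M, β k ≤
      K / (P * n) * (C * ε1 * (C * P) + C * (4 * (ε1 * P) + 2)) := by
    have h4 : ∑ k ∈ Finset.Icc 1 M, β k = K / (P * n) *
        (((Finset.Icc 1 M).card : ℝ) * (C * ε1) +
        (((Finset.Icc 1 M).filter (fun k : ℤ => |(k : ℝ) - P| ≤ ε1 * P ∨
          |(k : ℝ) - 2 * P| ≤ ε1 * P)).card : ℝ) * C) := by
      rw [hβ, ← Finset.mul_sum, Finset.sum_add_distrib, Finset.sum_const, nsmul_eq_mul,
        ← Finset.sum_filter, Finset.sum_const, nsmul_eq_mul]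
    rw [h4]
    apply mul_le_mul_of_nonneg_left _ (by positivity)
    have h5 : ((Finset.Icc 1 M).card : ℝ) ≤ C * P := by
      rw [Int.card_Icc]
      have h6 : 0 ≤ ⌊C * P⌋ := Int.floor_nonneg.2 (by positivity)
      have h7 : (((⌊C * P⌋ + 1 - 1).toNat : ℕ) : ℤ) = ⌊C * P⌋ := by
        rw [add_sub_cancel_right]; exact Int.toNat_of_nonneg h6
      have h8 : (((⌊C * P⌋ + 1 - 1).toNat : ℕ) : ℝ) = (⌊C * P⌋ : ℝ) := by exact_mod_cast h7
      rw [h8]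
      exact Int.floor_le _
    have h6 : (((Finset.Icc 1 M).filter (fun k : ℤ => |(k : ℝ) - P| ≤ ε1 * P ∨
          |(k : ℝ) - 2 * P| ≤ ε1 * P)).card : ℝ) ≤ 4 * (ε1 * P) + 2 := by
      rw [Finset.filter_or]
      have h7 := RedPt90.near_card ((Finset.Icc 1 M).filter
        (fun k : ℤ => |(k : ℝ) - P| ≤ ε1 * P)) P (ε1 * P) (by positivity)
        (fun k hk => (Finset.mem_filter.1 hk).2)
      have h8 := RedPt90.near_card ((Finset.Icc 1 M).filter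
        (fun k : ℤ => |(k : ℝ) - 2 * P| ≤ ε1 * P)) (2 * P) (ε1 * P) (by positivity)
        (fun k hk => (Finset.mem_filter.1 hk).2)
      have h9 : ((((Finset.Icc 1 M).filter (fun k : ℤ => |(k : ℝ) - P| ≤ ε1 * P)) ∪
        ((Finset.Icc 1 M).filter
          (fun k : ℤ => |(k : ℝ) - 2 * P| ≤ ε1 * P))).card : ℝ) ≤
          (((Finset.Icc 1 M).filter (fun k : ℤ => |(k : ℝ) - P| ≤ ε1 * P)).card : ℝ) +
          (((Finset.Icc 1 M).filter
            (fun k : ℤ => |(k : ℝ) - 2 * P| ≤ ε1 * P)).card : ℝ) := by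
        exact_mod_cast Finset.card_union_le _ _
      linarith
    have h7 : ((Finset.Icc 1 M).card : ℝ) * (C * ε1) ≤ C * P * (C * ε1) :=
      mul_le_mul_of_nonneg_right h5 (by positivity)
    have h8 := mul_le_mul_of_nonneg_right h6 hC0.le
    linarith
  calc C1 * (4 * n) * (C1 * ∑ k ∈ Finset.Icc 1 M, β k)
      ≤ C1 * (4 * n) * (C1 * (K / (P * n) * (C * ε1 * (C * P) + C * (4 * (ε1 * P) + 2)))) := by
        apply mul_le_mul_of_nonneg_left _ (by positivity)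
        exact mul_le_mul_of_nonneg_left hsum hC10.le
    _ = A * (C + 4) * ε1 + 2 * A / P := by
        rw [hA]
        field_simp
        ring
    _ ≤ ε / 4 + ε / 4 := by
        apply add_le_add hε1A
        rw [div_le_iff₀ hP0]
        rw [div_le_iff₀ hε] at hPA
        linarith
    _ ≤ ε := by linarith

end Pool.Agent.Lib.MP_a17b09_nt.HY
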