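import Pool.Agent.Lib.MP_a17b09_nt.HY.Coord20
import Pool.Agent.Lib.MP_a17b09_nt.CH.StmtsS98
import Pool.Agent.Lib.MP_a17b09_nt.CH.Red63

/-!
HY, E20: the reduction for fixed large `n`, two functions (helper38; cf. CH/RedS28 of helper28).
-/

set_option autoImplicit false

open Filter Topology Finset MeasureTheory

namespace Pool.Agent.Lib.MP_a17b09_nt.HY

open Pool.Agent.Lib.MP_a17b09_nt.CH
open Pool.Agent.Lib.MP_a17b09_nt.CH.PE (Sup Lip GT Ug cl wz rz UK rc)

namespace RedS38

theorem cont_hG {B : ℝ} {G : ℝ → ℝ → ℝ} (hG : GT B G) (Q : Form) (τ x L : ℝ) (v : V) :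
    Continuous fun θ : ℝ => G (hlx Q τ x θ v) (hly Q τ x θ v / L) := by
  have h1 : Continuous fun θ : ℝ => ((hlx Q τ x θ v, hly Q τ x θ v / L) : ℝ × ℝ) := by
    unfold hlx hly
    refine Continuous.prodMk ?_ ?_
    · refine Continuous.div_const ?_ _
      exact ((Real.continuous_cosh.comp (continuous_const.mul continuous_id)).mul
        continuous_const).sub ((Real.continuous_sinh.comp
          (continuous_const.mul continuous_id)).mul continuous_const)
    · refine Continuous.div_const ?_ _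
      exact continuous_const.mul (((Real.continuous_cosh.comp
        (continuous_const.mul continuous_id)).mul
        continuous_const).sub ((Real.continuous_sinh.comp
          (continuous_const.mul continuous_id)).mul continuous_const))
  exact (PE.Red63.cont_GG hG.2.2).comp h1

theorem abs_le_cosh (t : ℝ) : |t| ≤ Real.cosh t := by
  have h1 := Real.add_one_le_exp |t|
  have h2 : Real.cosh t = Real.cosh |t| := (Real.cosh_abs t).symm
  rw [h2, Real.cosh_eq]
  have h3 : 0 < Real.exp (-|t|) := Real.exp_pos _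
  have h4 : |t| ^ 2 / 2 + |t| + 1 ≤ Real.exp |t| := by
    have := Real.quadratic_le_exp_of_nonneg (abs_nonneg t)
    linarith
  nlinarith [sq_nonneg (|t| - 1)]

/-- compact support in the angle -/
theorem supp_hG {d : ℕ} {Q : Form} (hQ : Hyp d Q) {B : ℝ} {G : ℝ → ℝ → ℝ} (hG : GT B G) {τ x : ℝ}
    (hτ : 0 < τ) (hx : 0 < x) (L : ℝ) {v : V} (hv : Cn Q v) :
    HasCompactSupport fun θ : ℝ => G (hlx Q τ x θ v) (hly Q τ x θ v / L) := by
  have hq : (0 : ℝ) < Q.q v := by exact_mod_cast hv.q_pos hQ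
  have hs : 0 < √((Q.q v : ℝ) / x) := Real.sqrt_pos.2 (by positivity)
  set s : ℝ := √((Q.q v : ℝ) / x) with hsd
  set R : ℝ := (|ps Q v| + B / s) / τ with hR
  refine HasCompactSupport.of_support_subset_isCompact (isCompact_Icc (a := -R) (b := R)) ?_
  intro θ hθ
  have h1 := hG.2.1 _ _ (Function.mem_support.1 hθ)
  have h2 := (hlx_ps hQ hv τ hx θ).1
  have h3 : s * Real.cosh (ps Q v - τ * θ) ≤ B := by
    rw [← h2]; exact h1.2.1
  have h4 : |ps Q v - τ * θ| ≤ B / s := by
    rw [le_div_iff₀ hs]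
    have := mul_le_mul_of_nonneg_left (abs_le_cosh (ps Q v - τ * θ)) hs.le
    linarith
  have h5 : |τ * θ| ≤ |ps Q v| + B / s := by
    have h6 : τ * θ = ps Q v - (ps Q v - τ * θ) := by ring
    rw [h6]
    exact (abs_sub _ _).trans (by linarith)
  rw [abs_mul, abs_of_pos hτ] at h5
  have h7 : |θ| ≤ R := by
    rw [hR, le_div_iff₀ hτ]
    linarith
  exact abs_le.1 h7

theorem integ_hG {d : ℕ} {Q : Form} (hQ : Hyp d Q) {B : ℝ} {G1 G2 : ℝ → ℝ → ℝ} (hG1 : GT B G1)
    (hG2 : GT B G2) {τ x : ℝ} (hτ : 0 < τ) (hx : 0 < x) (L : ℝ) {v : V} (hv : Cn Q v) (v' : V) :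
    Integrable fun θ : ℝ => G1 (hlx Q τ x θ v) (hly Q τ x θ v / L) *
      G2 (hlx Q τ x θ v') (hly Q τ x θ v' / L) := by
  refine Continuous.integrable_of_hasCompactSupport
    ((cont_hG hG1 Q τ x L v).mul (cont_hG hG2 Q τ x L v')) ?_
  exact (supp_hG hQ hG1 hτ hx L hv).mul_right

/-- class functions are invariant -/
theorem rc_AI {d : ℕ} {Q : Form} (hQ : Hyp d Q) {a : Pell.Solution₁ (d : ℤ)} {K : ℕ}
    (haK : PK K a) {g : V → ℂ} (hg : AI Q a g) (α : ZMod K × ZMod K) : AI Q a (rc g α) := by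
  intro v
  unfold rc
  have h1 : cl K (act Q a v) = cl K v := by
    obtain ⟨hx, hy⟩ := haK
    have hx' : (a.x : ZMod K) = 1 := by
      have := (ZMod.intCast_zmod_eq_zero_iff_dvd (a.x - 1) K).2 hx
      push_cast at this
      linear_combination this
    have hy' : (a.y : ZMod K) = 0 := (ZMod.intCast_zmod_eq_zero_iff_dvd a.y K).2 hy
    unfold cl act au Mat.app
    ext
    · simp only
      push_cast
      rw [hx', hy']
      ring
    · simp only
      push_cast
      rw [hx', hy']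
      ring
  have h2 : Prim (act Q a v) ↔ Prim v := by
    have key : ∀ (b : Pell.Solution₁ (d : ℤ)) (w : V), Prim (act Q b w) → Prim w := by
      intro b w hw
      unfold Prim at hw ⊢
      rw [← Int.isCoprime_iff_gcd_eq_one] at hw ⊢
      obtain ⟨s, t, hst⟩ := hw
      unfold act au Mat.app at hst
      simp only at hst
      exact ⟨s * (b.x - Q.b * b.y) + t * (2 * Q.a * b.y), s * (-2 * Q.c * b.y) +
        t * (b.x + Q.b * b.y), by linear_combination hst⟩
    constructor
    · exact key a v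
    · intro hv
      have h3 := key a⁻¹ (act Q a v)
      rw [← act_mul hQ, inv_mul_cancel, act_one] at h3
      exact h3 hv
  rw [h1]
  by_cases hp : Prim v
  · rw [if_congr (and_congr_left' h2) (hg v) rfl]
  · rw [if_neg (fun h => hp (h2.1 h.1)), if_neg (fun h => hp h.1)]

theorem Hk_smul (Q : Form) (T : ℝ) (h : ℝ → ℝ → ℝ) (a : ℂ) (U : V → V → ℂ) (k : ℤ) (n : ℝ) :
    Hk Q T h (fun v v' => a * U v v') k n = a * Hk Q T h U k n := by
  unfold Hk
  rw [show ∀ A : ℂ, a * ((1 / ((n * T : ℝ) : ℂ)) * A) = (1 / ((n * T : ℝ) : ℂ)) * (a * A) from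
    fun A => by ring]
  congr 1
  rw [← tsum_mul_left]
  congr 1
  funext f
  unfold hkk
  split_ifs
  · ring
  · simp

end RedS38

open RedS38 PE.Red63 in
/-- (E20) -/
theorem stHRedS_38 (hR : StHRedPt) (hUnf : StHUnf) : StHRedS := by
  classical
  intro d hd a ha K _ haK δ h hδ hh c ε hε
  rcases le_or_gt δ 1 with hδ1 | hδ1
  swap
  · -- `h = 0`
    refine ⟨0, Fin.elim0, Fin.elim0, 1, fun j => Fin.elim0 j, ?_⟩
    intro Q hQ g g' hg hg' hgI hgI' om hom hper
    refine ⟨0, fun e _ => ⟨0, fun n _ => ?_⟩⟩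
    have h0 : ∀ x y, h x y = 0 := by
      intro x y
      by_contra hne
      have h1 := hh.2 x y hne
      linarith
    have h1 : ∀ (U : V → V → ℂ) (k : ℤ) (n : ℝ), Hk Q (per a) h U k n = 0 := by
      intro U k n
      unfold Hk hkk
      simp [h0]
    simp only [h1, mul_zero, Finset.sum_const_zero, Finset.univ_eq_empty,
      Finset.sum_empty, sub_zero, norm_zero]
    exact hε.le
  have hK : 0 < K := Nat.pos_of_ne_zero (NeZero.ne K)
  set c' : ℝ := |c| + 1 with hc'
  have hc'0 : 0 < c' := by positivity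
  have hτ : 0 < tauH a := by
    unfold tauH
    have := per_pos ha
    positivity
  have hper' : 2 * Real.pi * tauH a = per a := by
    unfold tauH
    field_simp
  obtain ⟨r, G1, G2, B, hG, hmain⟩ := hR d hd (tauH a) δ h hτ hδ hδ1 hh K hK (ε / c')
    (by positivity)
  refine ⟨r, G1, G2, B, hG, ?_⟩
  intro Q hQ g g' hg hg' hgI hgI' om hom hper
  obtain ⟨e0, he0⟩ := hmain Q hQ
  refine ⟨e0, fun e he => ?_⟩
  obtain ⟨n0, hn0⟩ := he0 e he
  set U0 : V → V → ℂ := fun v v' => om v v' * g v * g' v' with hU0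
  have hU0n : ∀ v v', ‖U0 v v'‖ ≤ c' := by
    intro v v'
    rw [hU0]
    simp only
    rw [norm_mul, norm_mul]
    calc ‖om v v'‖ * ‖g v‖ * ‖g' v'‖ ≤ c' * 1 * 1 := by
          apply mul_le_mul _ (hg' v') (norm_nonneg _) (by positivity)
          apply mul_le_mul _ (hg v) (norm_nonneg _) (by positivity)
          exact (hom v v').trans ((le_abs_self c).trans (by linarith))
      _ = c' := by ring
  have hL1 : (1 : ℝ) ≤ 2 ^ e := one_le_pow₀ (by norm_num)
  have hUn := fun j => hUnf d Q hQ a ha B (G1 j) (G2 j) (hG j).1 (hG j).2 (2 ^ e) hL1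
  choose m0 hm0 using hUn
  refine ⟨n0 + ∑ j, m0 j + 1, fun n hn' => ?_⟩
  have hn : n0 ≤ n := by omega
  have hnm : ∀ j, m0 j ≤ n := fun j => by
    have := Finset.single_le_sum (f := m0) (fun _ _ => Nat.zero_le _) (Finset.mem_univ j)
    omega
  have hnpos : 0 < n := by omega
  have hx : (0 : ℝ) < n := by exact_mod_cast hnpos
  -- notation
  set τ := tauH a with hτd
  set P : V × V → Prop := fun f => Prim f.1 ∧ Prim f.2 ∧ Sec Q (per a) f.1 with hP
  set I : Fin r → V × V → ℝ := fun j f => ∫ θ : ℝ, G1 j (hlx Q τ n θ f.1) (hly Q τ n θ f.1 / 2 ^ e) *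
    G2 j (hlx Q τ n θ f.2) (hly Q τ n θ f.2 / 2 ^ e) with hI
  set F : Fin r → ZMod K × ZMod K → ZMod K × ZMod K → V × V → ℂ := fun j α β f =>
    if P f then ((I j f : ℝ) : ℂ) * (rc g α f.1 * rc g' β f.2) else 0 with hF
  have hUg : ∀ α : ZMod K × ZMod K, Ug (rc g α) := fun α => ⟨rc_norm hg α, rc_prim⟩
  have hUg' : ∀ α : ZMod K × ZMod K, Ug (rc g' α) := fun α => ⟨rc_norm hg' α, rc_prim⟩
  have hfin : ∀ j α β, (Function.support (F j α β)).Finite := fun j α β =>
    (hm0 j n (hnm j) (rc g α) (rc g' β) (hUg α) (hUg' β) (rc_AI hQ haK hgI α)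
      (rc_AI hQ haK hgI' β)).1
  have hval : ∀ j α β, (∫ θ in (0 : ℝ)..(2 * Real.pi), hmm Q τ (rc g α) (G1 j) (2 ^ e) n θ *
      hmm Q τ (rc g' β) (G2 j) (2 ^ e) n θ) = (1 / ((2 ^ e : ℝ) : ℂ)) ^ 2 * ∑' f, F j α β f :=
    fun j α β => (hm0 j n (hnm j) (rc g α) (rc g' β) (hUg α) (hUg' β) (rc_AI hQ haK hgI α)
      (rc_AI hQ haK hgI' β)).2
  have hsm : ∀ j α β, Summable (F j α β) := fun j α β => summable_of_finite_support (hfin j α β)
  -- the local side
  set S : ℂ := ∑ j : Fin r, ∑ α : ZMod K × ZMod K, ∑ β : ZMod K × ZMod K, (if wz α β = 1 then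
    om (rz α) (rz β) * ((1 / (2 * Real.pi) : ℂ) * ∫ θ in (0 : ℝ)..(2 * Real.pi),
      hmm Q τ (rc g α) (G1 j) (2 ^ e) n θ * hmm Q τ (rc g' β) (G2 j) (2 ^ e) n θ) else 0) with hS
  have hSn : S = (1 / (2 : ℂ) ^ e) ^ 2 * ∑' f : V × V, if P f then
      ((1 / (2 * Real.pi) * ∫ θ : ℝ, ∑ j,
        G1 j (hlx Q τ n θ f.1) (hly Q τ n θ f.1 / 2 ^ e) *
          G2 j (hlx Q τ n θ f.2) (hly Q τ n θ f.2 / 2 ^ e) : ℝ) : ℂ) * UK K U0 f.1 f.2 else 0 := by
    have e1 : ∀ f : V × V, (if P f then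
        ((1 / (2 * Real.pi) * ∫ θ : ℝ, ∑ j,
        G1 j (hlx Q τ n θ f.1) (hly Q τ n θ f.1 / 2 ^ e) *
          G2 j (hlx Q τ n θ f.2) (hly Q τ n θ f.2 / 2 ^ e) : ℝ) : ℂ) * UK K U0 f.1 f.2 else 0) =
        ∑ j : Fin r, ∑ α : ZMod K × ZMod K, ∑ β : ZMod K × ZMod K,
          (if wz α β = 1 then om (rz α) (rz β) * (1 / (2 * Real.pi) : ℂ) else 0) * F j α β f := by
      intro f
      by_cases hPf : P f
      · rw [if_pos hPf]
        rw [integral_finsetSum _ fun j _ => integ_hG hQ (hG j).1 (hG j).2 hτ hx (2 ^ e)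
          hPf.2.2.1 f.2]
        rw [hU0, ← sum_cl hper hPf.1 hPf.2.1]
        have e2 : ∀ (J : Fin r → ℝ) (X : ℂ), ((1 / (2 * Real.pi) * ∑ j, J j : ℝ) : ℂ) * X =
            ∑ j, (1 / (2 * Real.pi) : ℂ) * (J j : ℂ) * X := by
          intro J X
          push_cast
          rw [Finset.mul_sum, Finset.sum_mul]
        rw [e2]
        apply Finset.sum_congr rfl
        intro j _
        rw [Finset.mul_sum]
        apply Finset.sum_congr rfl
        intro α _
        rw [Finset.mul_sum]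
        apply Finset.sum_congr rfl
        intro β _
        rw [hF]
        simp only
        rw [if_pos hPf, hI]
        simp only
        split_ifs
        · ring
        · simp
      · rw [if_neg hPf]
        symm
        apply Finset.sum_eq_zero
        intro j _
        apply Finset.sum_eq_zero
        intro α _
        apply Finset.sum_eq_zero
        intro β _
        rw [hF]
        simp only
        rw [if_neg hPf, mul_zero]
    simp only [e1]
    have s1 : ∀ j α β, Summable fun f => (if wz α β = 1 then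
        om (rz α) (rz β) * (1 / (2 * Real.pi) : ℂ) else 0) * F j α β f :=
      fun j α β => (hsm j α β).mul_left _
    have s2 : ∀ j α, Summable fun f => ∑ β : ZMod K × ZMod K, (if wz α β = 1 then
        om (rz α) (rz β) * (1 / (2 * Real.pi) : ℂ) else 0) * F j α β f :=
      fun j α => summable_sum fun β _ => s1 j α β
    have s3 : ∀ j, Summable fun f => ∑ α : ZMod K × ZMod K, ∑ β : ZMod K × ZMod K,
        (if wz α β = 1 then om (rz α) (rz β) * (1 / (2 * Real.pi) : ℂ) else 0) * F j α β f :=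
      fun j => summable_sum fun α _ => s2 j α
    rw [Summable.tsum_finsetSum fun j _ => s3 j, Finset.mul_sum, hS]
    apply Finset.sum_congr rfl
    intro j _
    rw [Summable.tsum_finsetSum fun α _ => s2 j α, Finset.mul_sum]
    apply Finset.sum_congr rfl
    intro α _
    rw [Summable.tsum_finsetSum fun β _ => s1 j α β, Finset.mul_sum]
    apply Finset.sum_congr rfl
    intro β _
    rw [tsum_mul_left]
    split_ifs
    · rw [hval]
      push_cast
      ring
    · simp
  have h1 := hn0 n hn (fun v v' => (1 / (c' : ℂ)) * U0 v v') (fun v v' => by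
    rw [norm_mul, norm_div, norm_one, Complex.norm_real, Real.norm_of_nonneg hc'0.le]
    rw [div_mul_eq_mul_div, one_mul, div_le_one hc'0]
    exact hU0n v v')
  rw [hper'] at h1
  have hcc : (c' : ℂ) ≠ 0 := by exact_mod_cast hc'0.ne'
  have hAn : (1 / (2 : ℂ) ^ e) * ∑ k ∈ NN K e, (K : ℂ) * Hk Q (per a) h U0 (k : ℤ) n - S =
      (c' : ℂ) * ((1 / (2 : ℂ) ^ e) * ∑ k ∈ NN K e, (K : ℂ) *
        Hk Q (per a) h (fun v v' => (1 / (c' : ℂ)) * U0 v v') (k : ℤ) n -
      (1 / (2 : ℂ) ^ e) ^ 2 * ∑' f : V × V, if P f then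
        ((1 / (2 * Real.pi) * ∫ θ : ℝ, ∑ j,
          G1 j (hlx Q τ n θ f.1) (hly Q τ n θ f.1 / 2 ^ e) *
            G2 j (hlx Q τ n θ f.2) (hly Q τ n θ f.2 / 2 ^ e) : ℝ) : ℂ) *
              UK K (fun v v' => (1 / (c' : ℂ)) * U0 v v') f.1 f.2 else 0) := by
    have hsw : ∀ a A : ℂ, (c' : ℂ) * (a * A) = a * ((c' : ℂ) * A) := fun a A => by ring
    rw [hSn, mul_sub]
    congr 1
    · simp only [Hk_smul]
      rw [hsw]
      congr 1
      rw [Finset.mul_sum]
      apply Finset.sum_congr rfl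
      intro k _
      field_simp
    · rw [hsw]
      congr 1
      rw [← tsum_mul_left]
      congr 1
      funext f
      unfold UK
      split_ifs
      · field_simp
      · simp
      · simp
  show ‖(1 / (2 : ℂ) ^ e) * ∑ k ∈ NN K e, (K : ℂ) * Hk Q (per a) h U0 (k : ℤ) n - S‖ ≤ ε
  rw [hAn, norm_mul, Complex.norm_real, Real.norm_of_nonneg hc'0.le]
  calc c' * _ ≤ c' * (ε / c') := mul_le_mul_of_nonneg_left h1 hc'0.le
    _ = ε := by field_simp

end Pool.Agent.Lib.MP_a17b09_nt.HY
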