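import Pool.Agent.Lib.MP_a17b09_nt.HY.Stmts20
import Pool.Agent.Lib.MP_a17b09_nt.CH.Sim70

/-!
Project HY, module E11: the transformation `v = A u` for indefinite forms (StHSim).
-/

set_option autoImplicit false

open Filter Topology Finset

namespace Pool.Agent.Lib.MP_a17b09_nt.HY

open Pool.Agent.Lib.MP_a17b09_nt.CH
open Pool.Agent.Lib.MP_a17b09_nt.CH.PE

namespace Sim27

/-- the product of the two light cone coordinates -/
theorem prod_eq {d : ℕ} {Q : Form} (hQ : Hyp d Q) (v w : V) :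
    (hX Q v + hY Q v) * (hX Q w - hY Q w) = ((Q.B v w : ℝ) - √(d : ℝ) * wd v w) / 2 := by
  have h1 := hQ.B_eq v w
  have h2 := hQ.wd_eq v w
  rw [h1]
  linear_combination -h2

theorem e1_cone {d : ℕ} {Q : Form} (hQ : Hyp d Q) : Cn Q (1, 0) := by
  unfold Cn hX hY
  have h1 := hQ.sa
  simp only [Int.cast_one, Int.cast_zero, mul_zero, zero_div, add_zero, mul_one, abs_zero]
  exact h1

/-- the two multipliers -/
theorem rotH {d : ℕ} {Q Q' : Form} (hQ : Hyp d Q) (hQ' : Hyp d Q') {A : Mat} {p : ℕ}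
    (hp : 0 < p) (hA : A.det = p) (h : ∀ u, Q.q (A.app u) = p * Q'.q u)
    (hc : ∀ u, Cn Q (A.app u) ↔ Cn Q' u) : ∃ s : ℝ, ∀ u,
      hX Q (A.app u) + hY Q (A.app u) = √(p : ℝ) * Real.exp s * (hX Q' u + hY Q' u) ∧
      hX Q (A.app u) - hY Q (A.app u) = √(p : ℝ) * Real.exp (-s) * (hX Q' u - hY Q' u) := by
  have hp0 : (0 : ℝ) < p := by exact_mod_cast hp
  have key : ∀ v w, (hX Q (A.app v) + hY Q (A.app v)) * (hX Q (A.app w) - hY Q (A.app w)) =
      p * ((hX Q' v + hY Q' v) * (hX Q' w - hY Q' w)) := by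
    intro v w
    rw [prod_eq hQ, prod_eq hQ', Dil70.B_app h, Dil70.wd_app, hA]
    push_cast
    ring
  obtain ⟨a1, a2⟩ := (cn_iff Q' (1, 0)).1 (e1_cone hQ')
  obtain ⟨b1, b2⟩ := (cn_iff Q _).1 ((hc (1, 0)).2 (e1_cone hQ'))
  set x1 := hX Q' (1, 0) + hY Q' (1, 0) with hx1
  set x2 := hX Q' (1, 0) - hY Q' (1, 0) with hx2
  set y1 := hX Q (A.app (1, 0)) + hY Q (A.app (1, 0)) with hy1
  set y2 := hX Q (A.app (1, 0)) - hY Q (A.app (1, 0)) with hy2
  have hy12 : y1 * y2 = p * (x1 * x2) := key (1, 0) (1, 0)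
  have hs := Real.sqrt_pos.2 hp0
  have hs2 : √(p : ℝ) * √(p : ℝ) = p := Real.mul_self_sqrt hp0.le
  refine ⟨Real.log (y1 / (√(p : ℝ) * x1)), fun u => ?_⟩
  have e1 : Real.exp (Real.log (y1 / (√(p : ℝ) * x1))) = y1 / (√(p : ℝ) * x1) :=
    Real.exp_log (by positivity)
  rw [Real.exp_neg, e1]
  constructor
  · have h1 := key u (1, 0)
    rw [← hy2, ← hx2] at h1
    have h2 : √(p : ℝ) * (y1 / (√(p : ℝ) * x1)) = y1 / x1 := by field_simp
    rw [h2]
    have h3 : y1 / x1 = p * x2 / y2 := by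
      rw [div_eq_div_iff a1.ne' b2.ne', hy12]; ring
    rw [h3, div_mul_eq_mul_div, eq_div_iff b2.ne', h1]
    ring
  · have h1 := key (1, 0) u
    rw [← hy1, ← hx1] at h1
    have h2 : √(p : ℝ) * (y1 / (√(p : ℝ) * x1))⁻¹ = p * x1 / y1 := by
      rw [inv_div, ← mul_div_assoc, ← mul_assoc, hs2]
    rw [h2, div_mul_eq_mul_div, eq_div_iff b1.ne', mul_comm, h1]
    ring

theorem lxH {Q Q' : Form} {A : Mat} {p : ℕ} (hp : 0 < p) {s τ : ℝ} (hτ : 0 < τ)
    (hs : ∀ u, hX Q (A.app u) + hY Q (A.app u) = √(p : ℝ) * Real.exp s * (hX Q' u + hY Q' u) ∧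
      hX Q (A.app u) - hY Q (A.app u) = √(p : ℝ) * Real.exp (-s) * (hX Q' u - hY Q' u))
    (x θ : ℝ) (u : V) : hlx Q τ x θ (A.app u) = hlx Q' τ (x / p) (θ - s / τ) u ∧
      hly Q τ x θ (A.app u) = p * hly Q' τ (x / p) (θ - s / τ) u := by
  have hp0 : (0 : ℝ) < p := by exact_mod_cast hp
  have hsp : √(p : ℝ) ≠ 0 := (Real.sqrt_pos.2 hp0).ne'
  have hs2 : √(p : ℝ) * √(p : ℝ) = p := Real.mul_self_sqrt hp0.le
  have hτs : τ * (θ - s / τ) = τ * θ - s := by field_simp
  obtain ⟨h1, h2⟩ := hs u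
  set X := hX Q (A.app u)
  set Y := hY Q (A.app u)
  set X' := hX Q' u
  set Y' := hY Q' u
  have ex : Real.cosh (τ * θ) * X - Real.sinh (τ * θ) * Y =
      √(p : ℝ) * (Real.cosh (τ * θ - s) * X' - Real.sinh (τ * θ - s) * Y') := by
    have e1 : Real.cosh (τ * θ) * X - Real.sinh (τ * θ) * Y =
        (Real.exp (-(τ * θ)) * (X + Y) + Real.exp (τ * θ) * (X - Y)) / 2 := by
      rw [Real.cosh_eq, Real.sinh_eq]; ring
    have e2 : Real.cosh (τ * θ - s) * X' - Real.sinh (τ * θ - s) * Y' =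
        (Real.exp (-(τ * θ - s)) * (X' + Y') + Real.exp (τ * θ - s) * (X' - Y')) / 2 := by
      rw [Real.cosh_eq, Real.sinh_eq]; ring
    have e3 : Real.exp (-(τ * θ - s)) = Real.exp (-(τ * θ)) * Real.exp s := by
      rw [← Real.exp_add]; congr 1; ring
    have e4 : Real.exp (τ * θ - s) = Real.exp (τ * θ) * Real.exp (-s) := by
      rw [← Real.exp_add]; congr 1
    rw [e1, e2, h1, h2, e3, e4]
    ring
  have ey : Real.cosh (τ * θ) * Y - Real.sinh (τ * θ) * X =
      √(p : ℝ) * (Real.cosh (τ * θ - s) * Y' - Real.sinh (τ * θ - s) * X') := by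
    have e1 : Real.cosh (τ * θ) * Y - Real.sinh (τ * θ) * X =
        (Real.exp (-(τ * θ)) * (X + Y) - Real.exp (τ * θ) * (X - Y)) / 2 := by
      rw [Real.cosh_eq, Real.sinh_eq]; ring
    have e2 : Real.cosh (τ * θ - s) * Y' - Real.sinh (τ * θ - s) * X' =
        (Real.exp (-(τ * θ - s)) * (X' + Y') - Real.exp (τ * θ - s) * (X' - Y')) / 2 := by
      rw [Real.cosh_eq, Real.sinh_eq]; ring
    have e3 : Real.exp (-(τ * θ - s)) = Real.exp (-(τ * θ)) * Real.exp s := by
      rw [← Real.exp_add]; congr 1; ring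
    have e4 : Real.exp (τ * θ - s) = Real.exp (τ * θ) * Real.exp (-s) := by
      rw [← Real.exp_add]; congr 1
    rw [e1, e2, h1, h2, e3, e4]
    ring
  unfold hlx hly
  rw [hτs, Real.sqrt_div' x hp0.le]
  constructor
  · rw [show Real.cosh (τ * θ) * hX Q (A.app u) - Real.sinh (τ * θ) * hY Q (A.app u) = _ from ex]
    rcases eq_or_ne (√x) 0 with h0 | h0
    · rw [h0]
      simp
    · field_simp
      rfl
  · rw [show Real.cosh (τ * θ) * hY Q (A.app u) - Real.sinh (τ * θ) * hX Q (A.app u) = _ from ey]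
    have : (p : ℝ) * (√x / √(p : ℝ)) = √x * √(p : ℝ) := by
      rw [← mul_div_assoc, div_eq_iff hsp, mul_assoc, hs2]; ring
    rw [← mul_assoc, ← mul_assoc, this]

/-- similitudes commute with the automorphs -/
theorem comm {d : ℕ} {Q Q' : Form} {A : Mat} {p : ℕ}
    (hp : 0 < p) (hA : A.det = p) (h : ∀ u, Q.q (A.app u) = p * Q'.q u)
    (a : Pell.Solution₁ (d : ℤ)) (u : V) : A.app (act Q' a u) = act Q a (A.app u) := by
  have hpz : (p : ℤ) ≠ 0 := by exact_mod_cast hp.ne'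
  have k1 : ∀ v w : V, Q.B (A.app v) (A.app w) = p * Q'.B v w := fun v w => Dil70.B_app h v w
  have k2 := hA
  unfold Mat.det at k2
  -- the coefficients
  have c1 := h (1, 0)
  have c2 := h (0, 1)
  have c3 := k1 (1, 0) (0, 1)
  unfold Form.q Mat.app at c1 c2
  unfold Form.B Mat.app at c3
  simp only [mul_one, mul_zero, add_zero, zero_add] at c1 c2 c3
  have m11 : A.a * (-(Q'.b)) + A.b * (2 * Q'.a) = -(Q.b) * A.a - 2 * Q.c * A.c := by
    apply mul_left_cancel₀ hpz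
    rw [← k2]
    rw [← k2] at c1 c3
    linear_combination A.a * c3 - (2 * A.b) * c1
  have m12 : A.a * (-2 * Q'.c) + A.b * Q'.b = -(Q.b) * A.b - 2 * Q.c * A.d := by
    apply mul_left_cancel₀ hpz
    rw [← k2]
    rw [← k2] at c2 c3
    linear_combination (2 * A.a) * c2 - A.b * c3
  have m21 : A.c * (-(Q'.b)) + A.d * (2 * Q'.a) = 2 * Q.a * A.a + Q.b * A.c := by
    apply mul_left_cancel₀ hpz
    rw [← k2]
    rw [← k2] at c1 c3
    linear_combination A.c * c3 - (2 * A.d) * c1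
  have m22 : A.c * (-2 * Q'.c) + A.d * Q'.b = 2 * Q.a * A.b + Q.b * A.d := by
    apply mul_left_cancel₀ hpz
    rw [← k2]
    rw [← k2] at c2 c3
    linear_combination (2 * A.c) * c2 - A.d * c3
  unfold act au Mat.app
  ext
  · simp only
    linear_combination a.y * u.1 * m11 + a.y * u.2 * m12
  · simp only
    linear_combination a.y * u.1 * m21 + a.y * u.2 * m22

end Sim27

open Sim27 in
theorem stHSim_27 : StHSim := by
  intro d Q Q' hQ hQ' p A hp hA h hc
  refine ⟨?_, lat70 hp hA, ?_, fun u hu => Dil70.prim_of_app hu,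
    fun a u => comm hp.pos hA h a u, ?_⟩
  · have hA' : (adj A).det = p := by rw [det_adj70, hA]
    obtain ⟨l, hl1, hl2⟩ := lat70 hp hA'
    exact ⟨l, hl1, fun v => (im_iff70 hp hA v).trans (hl2 v)⟩
  · intro u hu
    constructor
    · rintro h1 ⟨h2, h3⟩
      unfold Prim at h1
      have h4 : (p : ℤ) ∣ ((Int.gcd (A.app u).1 (A.app u).2 : ℕ) : ℤ) := Int.dvd_coe_gcd h2 h3
      rw [h1] at h4
      have h5 : p ∣ 1 := by exact_mod_cast h4
      exact hp.one_lt.ne' (Nat.dvd_one.1 h5)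
    · intro h1
      by_contra h2
      exact h1 (notprim70 hp hA hu h2)
  · intro τ hτ
    obtain ⟨s, hs⟩ := rotH hQ hQ' hp.pos hA h hc
    have hp0 : (0 : ℝ) < p := by exact_mod_cast hp.pos
    refine ⟨s / τ, fun u hu => ?_, fun B G _ g L x θ hg hL => ?_⟩
    · obtain ⟨h1, h2⟩ := hs u
      obtain ⟨a1, a2⟩ := (cn_iff Q' u).1 hu
      have hsp := Real.sqrt_pos.2 hp0
      have e1 : τ * (s / τ) = s := by field_simp
      unfold ps
      rw [h1, h2, e1]
      have e2 : √(p : ℝ) * Real.exp s * (hX Q' u + hY Q' u) /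
          (√(p : ℝ) * Real.exp (-s) * (hX Q' u - hY Q' u)) =
          Real.exp (2 * s) * ((hX Q' u + hY Q' u) / (hX Q' u - hY Q' u)) := by
        have e3 : Real.exp s = Real.exp (2 * s) * Real.exp (-s) := by
          rw [← Real.exp_add]; congr 1; ring
        rw [e3]
        have := Real.exp_pos (-s)
        field_simp
      rw [e2, Real.log_mul (Real.exp_pos _).ne' (div_pos a1 a2).ne', Real.log_exp]
      ring
    · have hpc : (p : ℂ) ≠ 0 := by exact_mod_cast hp.ne_zero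
      have hinj : Function.Injective A.app := fun u u' he =>
        Dil70.app_inj (by rw [hA]; exact_mod_cast hp.ne_zero) he
      unfold hmm
      have e1 : ∑' v : V, ((G (hlx Q τ x θ v) (hly Q τ x θ v / L) : ℝ) : ℂ) * g v =
          ∑' u : V, ((G (hlx Q τ x θ (A.app u)) (hly Q τ x θ (A.app u) / L) : ℝ) : ℂ) *
            g (A.app u) := by
        symm
        refine hinj.tsum_eq
          (f := fun v => ((G (hlx Q τ x θ v) (hly Q τ x θ v / L) : ℝ) : ℂ) * g v) ?_
        intro v hv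
        rw [Function.mem_support] at hv
        obtain ⟨u, hu⟩ := hg v (right_ne_zero_of_mul hv)
        exact ⟨u, hu⟩
      rw [e1]
      have e2 : ∀ u, ((G (hlx Q τ x θ (A.app u)) (hly Q τ x θ (A.app u) / L) : ℝ) : ℂ) *
          g (A.app u) = ((G (hlx Q' τ (x / p) (θ - s / τ) u)
            (hly Q' τ (x / p) (θ - s / τ) u / (L / p)) : ℝ) : ℂ) * g (A.app u) := by
        intro u
        obtain ⟨h1, h2⟩ := lxH hp.pos hτ hs x θ u
        rw [h1, h2]
        congr 3
        field_simp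
      rw [tsum_congr e2, ← mul_assoc]
      congr 1
      have hLc : (L : ℂ) ≠ 0 := by exact_mod_cast hL.ne'
      push_cast
      field_simp

end Pool.Agent.Lib.MP_a17b09_nt.HY
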