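import Pool.Agent.Lib.MP_a17b09_nt.HY.Inv7
import Pool.Agent.Lib.MP_a17b09_nt.CH.Sq27

/-!
Project HY, module E13 (StHSq): almost invariance under most similitudes.
-/

set_option autoImplicit false

open Filter Topology Finset

namespace Pool.Agent.Lib.MP_a17b09_nt.HY

open Pool.Agent.Lib.MP_a17b09_nt.CH
open Pool.Agent.Lib.MP_a17b09_nt.CH.PE
open Inv7 (gc_AI hmm_bound hmF huF hjp hsum_jp)

theorem stHSq_7 (hOp : StHOp) (hPlat : StHPlat) (hMb : StHMb) (hMg : StHMg) : StHSq := by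
  intro ι _ S K _ h4K a ha hPK
  have hK : 0 < K := Nat.pos_of_ne_zero (NeZero.ne K)
  obtain ⟨φ, hφ⟩ := hOp ι S K hK h4K a ha hPK
  refine ⟨φ, fun ζ hζ B G hG => ?_⟩
  obtain ⟨C0', hC0'⟩ := hφ ζ hζ B G hG
  obtain ⟨D, hD0, hD⟩ := hmm_bound hMb S.Q S.hyp hG
  set C0 : ℝ := |C0'| with hC0def
  have hC00 : 0 ≤ C0 := abs_nonneg _
  refine ⟨2 * (Fintype.card (ι × (ZMod K × ZMod K)) * (D * (C0 + 1))) + 1, by positivity,
    fun M R hR => ?_⟩
  set SR := ∑ p ∈ R, 1 / (p : ℝ) with hSR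
  have hSR0 : 0 ≤ SR := Finset.sum_nonneg fun p _ => by positivity
  have hR0 : ∀ p ∈ R, 0 < p := fun p hp => (hR p hp).1.pos
  set T := TM M with hT
  -- plateau
  have hpl : ∀ᶠ L : ℝ in atTop, ∀ p ∈ R, ∀ j : ι × (ZMod K × ZMod K),
      n2 T (fun w => sm (hmF S K (tauH a) ζ G L j) w - sm (hmF S K (tauH a) ζ G (L / p) j) w) ≤ 1 / (SR + 1) := by
    rw [Finset.eventually_all]
    intro p hp
    rw [eventually_all]
    intro j
    have hU := gc_Ug hζ (S.Q j.1) K j.2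
    have h := hPlat M S.d (S.Q j.1) (S.hyp j.1) a ha B G hG _ hU (gc_AI (S.hyp j.1) hPK _ _) p (hR0 p hp)
    have h1 : (0 : ℝ) < 1 / (SR + 1) := by positivity
    exact (h.eventually (gt_mem_nhds h1)).mono fun L hL => hL.le
  have hLp : ∀ᶠ L : ℝ in atTop, ∀ p ∈ R, (p : ℝ) ≤ L := by
    rw [Finset.eventually_all]
    intro p _
    exact eventually_ge_atTop (p : ℝ)
  obtain ⟨L0, hL0⟩ := eventually_atTop.1 (hpl.and (hLp.and (eventually_ge_atTop (1 : ℝ))))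
  refine ⟨max 1 L0, le_max_left _ _, fun L hLL => ?_⟩
  obtain ⟨hL1, hL2, hL⟩ := hL0 L ((le_max_right _ _).trans hLL)
  have hLdiv : ∀ p ∈ R, 1 ≤ L / (p : ℝ) := by
    intro p hp
    have : (0 : ℝ) < p := by exact_mod_cast hR0 p hp
    rw [le_div_iff₀ this, one_mul]
    exact hL2 p hp
  set A : ℝ := C0 * (√SR + 1) + 1 with hA
  -- abbreviations
  let m : (ι × (ZMod K × ZMod K)) → ℕ × ℝ → ℂ := fun j => sm (hmF S K (tauH a) ζ G L j)
  let u : ℕ → (ι × (ZMod K × ZMod K)) → ℕ × ℝ → ℂ := fun p j => huF S K (tauH a) φ ζ G L p j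
  have hgood : ∀ L' j, 1 ≤ L' → Good (hmF S K (tauH a) ζ G L' j) := by
    intro L' j hL'
    have hU := gc_Ug hζ (S.Q j.1) K j.2
    exact hMg S.d (S.Q j.1) (S.hyp j.1) a ha B G hG _ ⟨1, hU.1⟩ hU.2
      (gc_AI (S.hyp j.1) hPK _ _) L' hL'
  have hm : ∀ j o, ‖m j o‖ ≤ D := fun j o => hD j.1 _ (gc_Ug hζ _ K j.2) _ L _ _ hL
  have hu : ∀ p j o, ‖u p j o‖ ≤ D := by
    intro p j o
    simp only [u, huF]
    rw [norm_mul, hζ, one_mul]
    exact hD _ _ (gc_Ug hζ _ K _) _ L _ _ hL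
  have hmb : ∀ j, CBdd (m j) := fun j => ⟨D, hm j⟩
  have hub : ∀ p j, CBdd (u p j) := fun p j => ⟨D, hu p j⟩
  -- operator inequality
  have hop : ∀ (c : ℕ → ℂ), (∀ p, ‖c p‖ ≤ 1) → ∀ j,
      T.E (fun o => ‖∑ p ∈ R, (c p / (p : ℂ)) * (m j o - u p j o)‖) ≤ A := by
    intro c hc j
    let u' : ℕ → ℕ × ℝ → ℂ := fun p o =>
      ζ * hmF S K (tauH a) ζ G (L / p) (hjp S K p j) ((o.1 : ℝ) / p) (o.2 - φ p j.1)
    have hu'b : ∀ p ∈ R, CBdd (u' p) := by
      intro p hp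
      refine ⟨D, fun o => ?_⟩
      simp only [u']
      rw [norm_mul, hζ, one_mul]
      exact hD _ _ (gc_Ug hζ _ K _) _ _ _ _ (hLdiv p hp)
    have hb1 : CBdd (fun o => ∑ p ∈ R, (c p / (p : ℂ)) * (m j o - u' p o)) :=
      CBdd.sum R _ fun p hp => ((hmb j).sub (hu'b p hp)).smul _
    have hb2 : ∀ p ∈ R, CBdd (fun o => u' p o - u p j o) := fun p hp =>
      (hu'b p hp).sub (hub p j)
    have hb3 : Bdd (fun o => ∑ p ∈ R, (1 / (p : ℝ)) * ‖u' p o - u p j o‖) :=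
      Bdd.sum R _ fun p hp => (hb2 p hp).nrm.smul _
    have hb4 : CBdd (fun o => ∑ p ∈ R, (c p / (p : ℂ)) * (m j o - u p j o)) :=
      CBdd.sum R _ fun p _ => ((hmb j).sub (hub p j)).smul _
    have h1 : T.E (fun o => ‖∑ p ∈ R, (c p / (p : ℂ)) * (m j o - u p j o)‖) ≤
        T.E (fun o => ‖∑ p ∈ R, (c p / (p : ℂ)) * (m j o - u' p o)‖ +
          ∑ p ∈ R, (1 / (p : ℝ)) * ‖u' p o - u p j o‖) := by
      refine T.mono hb4.nrm (hb1.nrm.add hb3) fun o => ?_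
      have e1 : ∑ p ∈ R, (c p / (p : ℂ)) * (m j o - u p j o) =
          ∑ p ∈ R, (c p / (p : ℂ)) * (m j o - u' p o) +
            ∑ p ∈ R, (c p / (p : ℂ)) * (u' p o - u p j o) := by
        rw [← Finset.sum_add_distrib]
        exact Finset.sum_congr rfl fun p _ => by ring
      rw [e1]
      refine (norm_add_le _ _).trans ?_
      refine add_le_add le_rfl ((norm_sum_le _ _).trans (Finset.sum_le_sum fun p hp => ?_))
      rw [norm_mul]
      refine mul_le_mul_of_nonneg_right ?_ (norm_nonneg _)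
      rw [norm_div, Complex.norm_natCast]
      exact div_le_div_of_nonneg_right (hc p) (Nat.cast_nonneg p)
    refine h1.trans ?_
    rw [T.add _ _ hb1.nrm hb3, T.sum R _ fun p hp => (hb2 p hp).nrm.smul _]
    have h2 : T.E (fun o => ‖∑ p ∈ R, (c p / (p : ℂ)) * (m j o - u' p o)‖) ≤
        C0 * (√SR + 1) := by
      refine (hC0' M R hR c hc L hL2 hL j.1 j.2).trans ?_
      exact mul_le_mul_of_nonneg_right (le_abs_self _) (by positivity)
    have h3 : ∀ p ∈ R, T.E (fun o => (1 / (p : ℝ)) * ‖u' p o - u p j o‖) ≤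
        (1 / (p : ℝ)) * (1 / (SR + 1)) := by
      intro p hp
      rw [T.smul _ _ (hb2 p hp).nrm]
      refine mul_le_mul_of_nonneg_left ?_ (by positivity)
      refine (E_norm_le_n2 T (hb2 p hp)).trans ?_
      let f : ℝ → ℝ → ℂ := fun x θ => hmF S K (tauH a) ζ G L (hjp S K p j) x θ -
        hmF S K (tauH a) ζ G (L / p) (hjp S K p j) x θ
      have hf : Good f := (hgood L _ hL).sub (hgood (L / p) _ (hLdiv p hp))
      have h4 := n2_dil M hf p (hR0 p hp) (φ p j.1)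
      have h5 : n2 T (fun o => u' p o - u p j o) =
          n2 (TM M) (fun w => f ((w.1 : ℝ) / p) (w.2 - φ p j.1)) := by
        unfold n2
        congr 2
        funext o
        congr 1
        show ‖u' p o - u p j o‖ = ‖f ((o.1 : ℝ) / p) (o.2 - φ p j.1)‖
        have e2 : u' p o - u p j o = -ζ * f ((o.1 : ℝ) / p) (o.2 - φ p j.1) := by
          simp only [u', u, huF, f]; ring
        rw [e2, norm_mul, norm_neg, hζ, one_mul]
      rw [h5, h4]
      exact hL1 p hp (hjp S K p j)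
    have h6 := Finset.sum_le_sum h3
    rw [← Finset.sum_mul, ← hSR] at h6
    have h7 : SR * (1 / (SR + 1)) ≤ 1 := by
      rw [mul_one_div, div_le_one (by positivity)]
      linarith
    rw [hA]
    linarith
  -- equality of norms
  have hT2 : ∀ p ∈ R, ∀ j, T.E (fun o => ‖u p j o‖ ^ 2) =
      T.E (fun o => ‖m (hjp S K p j) o‖ ^ 2) := by
    intro p hp j
    rw [← n2_sq T (hub p j), ← n2_sq T (hmb _)]
    congr 1
    have h4 := n2_dil M (hgood L (hjp S K p j) hL) p (hR0 p hp) (φ p j.1)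
    rw [show n2 T (m (hjp S K p j)) = n2 (TM M) (sm (hmF S K (tauH a) ζ G L (hjp S K p j)))
      from rfl, ← h4]
    unfold n2
    congr 2
    funext o
    congr 1
    show ‖huF S K (tauH a) φ ζ G L p j o‖ =
      ‖hmF S K (tauH a) ζ G L (hjp S K p j) ((o.1 : ℝ) / p) (o.2 - φ p j.1)‖
    unfold huF
    rw [norm_mul, hζ, one_mul]
  have hmod : ∀ p ∈ R, p ≡ 1 [MOD 4 * S.d] := fun p hp => (hR p hp).2.of_dvd h4K
  have hnorm : ∀ p ∈ R, ∑ j, T.E (fun o => ‖u p j o‖ ^ 2) =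
      ∑ j, T.E (fun o => ‖m j o‖ ^ 2) := by
    intro p hp
    rw [Finset.sum_congr rfl fun j _ => hT2 p hp j]
    exact hsum_jp S K p (hR p hp).1 (hmod p hp) (hR p hp).2
      (fun j => T.E (fun o => ‖m j o‖ ^ 2))
  have hfin := CH.PE.Sq27.sum_sq T R m u D A hD0 hm hu hnorm hop
  have he : ∑ p ∈ R, (1 / (p : ℝ)) * ∑ i, ∑ α : ZMod K × ZMod K,
      (TM M).E (fun w => ‖sm (hmm (S.Q i) (tauH a) (gc ζ (S.Q i) K α) G L) w -
        ζ * hmm (S.Q (S.s p i)) (tauH a) (gc ζ (S.Q (S.s p i)) K (az (adj (S.M p i)) α)) G L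
          ((w.1 : ℝ) / p) (w.2 - φ p i)‖ ^ 2) =
      ∑ p ∈ R, (1 / (p : ℝ)) * ∑ j, T.E (fun o => ‖m j o - u p j o‖ ^ 2) := by
    refine Finset.sum_congr rfl fun p _ => ?_
    rw [Fintype.sum_prod_type]
    rfl
  rw [he]
  refine hfin.trans ?_
  have hsq : 0 ≤ √SR := Real.sqrt_nonneg _
  have h8 : A ≤ (C0 + 1) * (√SR + 1) := by
    rw [hA]
    nlinarith
  calc 2 * ((Fintype.card (ι × (ZMod K × ZMod K)) : ℝ) * (D * A)) ≤
      2 * ((Fintype.card (ι × (ZMod K × ZMod K)) : ℝ) * (D * ((C0 + 1) * (√SR + 1)))) := by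
        gcongr
    _ = (2 * (Fintype.card (ι × (ZMod K × ZMod K)) * (D * (C0 + 1)))) * (√SR + 1) := by ring
    _ ≤ (2 * (Fintype.card (ι × (ZMod K × ZMod K)) * (D * (C0 + 1))) + 1) * (√SR + 1) := by
        refine mul_le_mul_of_nonneg_right ?_ (by positivity)
        linarith

end Pool.Agent.Lib.MP_a17b09_nt.HY
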