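import Pool.Agent.Lib.MP_a17b09_nt.HY.Mg46

/-!
Project HY: E5, slow variation in `x`, uniformly in `L`.
-/

set_option autoImplicit false

open Filter Topology Finset

namespace Pool.Agent.Lib.MP_a17b09_nt.HY

open Pool.Agent.Lib.MP_a17b09_nt.CH
open Pool.Agent.Lib.MP_a17b09_nt.CH.PE (Good GT Sup Ug gt_bound28)
open Mg46

/-- E5 -/
theorem stHSvu_46 (hCnt : StHCnt) : StHSvu := by
  intro d Q hQ B G hG τ
  have hB := hG.1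
  obtain ⟨CG, hCG0, hLip, hbd⟩ := gt_bound28 hG
  obtain ⟨C, hC⟩ := hCnt d Q hQ B hB
  refine ⟨4 * C * CG * B * 1, fun L hL => ⟨1, le_rfl, fun g hg x y θ hx hxy => ?_⟩⟩
  exact sv_x Q τ B L C hL (fun x θ => hC τ L hL x θ) G hG CG hCG0 hLip g hg.2 1 hg.1 x y θ hx hxy

namespace Mg46

/-- continuity in the angle -/
theorem cont_hmm (hCnt : StHCnt) {d : ℕ} {Q : Form} (hQ : Hyp d Q) (τ B : ℝ) (G : ℝ → ℝ → ℝ)
    (hG : GT B G) (g : V → ℂ) (hg : Ug g) (L : ℝ) (hL : 1 ≤ L) (x : ℝ) (hx : 1 ≤ x) :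
    Continuous (fun θ => hmm Q τ g G L x θ) := by
  obtain ⟨C, hC⟩ := hCnt d Q hQ B hG.1
  have hC0 : 0 ≤ C := by
    have h1 := (hC 0 1 le_rfl 0 0).2
    have h2 : (0 : ℝ) ≤ (({v : V | Prim v ∧ 1 / B ≤ hlx Q 0 0 0 v ∧ hlx Q 0 0 0 v ≤ B ∧
      |hly Q 0 0 0 v| ≤ B * 1}.ncard : ℕ) : ℝ) := Nat.cast_nonneg _
    linarith
  obtain ⟨D, hD0, hD⟩ := lip_ang Q τ B L C hL hC0 (fun x θ => hC τ L hL x θ) G hG
  have hk : 0 ≤ D * 1 * x := by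
    have : 0 ≤ x := by linarith
    positivity
  refine (LipschitzWith.of_dist_le_mul (K := ⟨D * 1 * x, hk⟩) ?_).continuous
  intro θ θ'
  rw [dist_eq_norm, Real.dist_eq]
  exact hD g hg.2 1 hg.1 x hx θ θ'

/-- a uniform bound of the local sums -/
theorem hmm_bd (hCnt : StHCnt) {d : ℕ} {Q : Form} (hQ : Hyp d Q) (B : ℝ) (G : ℝ → ℝ → ℝ)
    (hG : GT B G) : ∃ C : ℝ, 0 ≤ C ∧ ∀ τ : ℝ, ∀ g : V → ℂ, Ug g → ∀ L x θ : ℝ, 1 ≤ L →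
      ‖hmm Q τ g G L x θ‖ ≤ C := by
  obtain ⟨CG, hCG0, hLip, hbd⟩ := gt_bound28 hG
  obtain ⟨C, hC⟩ := hCnt d Q hQ B hG.1
  refine ⟨|C * (CG * (2 * B + 1)) * 1|, abs_nonneg _, ?_⟩
  intro τ g hg L x θ hL
  exact (hmm_le Q τ B C L hL (fun x θ => hC τ L hL x θ) G hG.2.1 _ hbd g hg.2 1 hg.1 x θ).trans
    (le_abs_self _)

end Mg46

end Pool.Agent.Lib.MP_a17b09_nt.HY
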