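import Pool.Agent.Lib.MP_a17b09_nt.HY.Stmts20
import Pool.Agent.Lib.MP_a17b09_nt.CH.Sys68
import Pool.Agent.Lib.MP_a17b09_nt.CHI.SysI68

/-!
Project HY, row F1: the system of all classes of forms of discriminant `d > 0` (helper68).
-/

set_option autoImplicit false

open Finset

namespace Pool.Agent.Lib.MP_a17b09_nt.HY

open Pool.Agent.Lib.MP_a17b09_nt.CH
open Pool.Agent.Lib.MP_a17b09_nt.CHI (ClI repI repI_D repI_inj exists_clI exists_reducedI a_ne c_ne
  clI_finite Split CRelI rtI rtI_spec mX_comm Eqv.D_eq neg_nd')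
open Pool.Agent.Lib.MP_a17b09_nt.MRSG (mX)

namespace S68

/-! ### Counting orbits -/

/-- two equivariant functions on a `ℤ`-set: the fundamental domains have the same size -/
theorem ncard_fund {X : Type*} (S : Set X) (τ : Equiv.Perm X) (hS : ∀ x, τ x ∈ S ↔ x ∈ S)
    {T : ℝ} (hT : 0 < T) (α β : X → ℝ)
    (hα : ∀ x ∈ S, α (τ x) = α x + T) (hβ : ∀ x ∈ S, β (τ x) = β x + T) :
    {x | x ∈ S ∧ 0 ≤ α x ∧ α x < T}.ncard = {x | x ∈ S ∧ 0 ≤ β x ∧ β x < T}.ncard := by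
  have hSi : ∀ x, τ⁻¹ x ∈ S ↔ x ∈ S := by
    intro x
    rw [← hS, ← Equiv.Perm.mul_apply, mul_inv_cancel, Equiv.Perm.one_apply]
  have hz : ∀ (γ : X → ℝ), (∀ x ∈ S, γ (τ x) = γ x + T) → ∀ (k : ℤ) (x : X), x ∈ S →
      (τ ^ k) x ∈ S ∧ γ ((τ ^ k) x) = γ x + k * T := by
    intro γ hγ k
    induction k using Int.induction_on with
    | zero => intro x hx; simpa using hx
    | succ k ih =>
      intro x hx
      rw [zpow_add_one, Equiv.Perm.mul_apply]
      have h1 := ih (τ x) ((hS x).2 hx)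
      refine ⟨h1.1, ?_⟩
      rw [h1.2, hγ x hx]
      push_cast; ring
    | pred k ih =>
      intro x hx
      rw [zpow_sub_one, Equiv.Perm.mul_apply]
      have h1 := ih (τ⁻¹ x) ((hSi x).2 hx)
      refine ⟨h1.1, ?_⟩
      rw [h1.2]
      have h2 := hγ (τ⁻¹ x) ((hSi x).2 hx)
      rw [← Equiv.Perm.mul_apply, mul_inv_cancel, Equiv.Perm.one_apply] at h2
      push_cast
      linarith
  have hfl : ∀ t : ℝ, 0 ≤ t - ⌊t / T⌋ * T ∧ t - ⌊t / T⌋ * T < T := by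
    intro t
    have h1 := Int.floor_le (t / T)
    have h2 := Int.lt_floor_add_one (t / T)
    rw [le_div_iff₀ hT] at h1
    rw [div_lt_iff₀ hT] at h2
    constructor <;> nlinarith
  have huniq : ∀ (t : ℝ) (k : ℤ), 0 ≤ t → t < T → 0 ≤ t + k * T → t + k * T < T → k = 0 := by
    intro t k h1 h2 h3 h4
    have h5 : (k : ℝ) < 1 := by
      by_contra hc
      push Not at hc
      nlinarith
    have h6 : (-1 : ℝ) < k := by
      by_contra hc
      push Not at hc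
      nlinarith
    have h7 : k < 1 := by exact_mod_cast h5
    have h8 : -1 < k := by exact_mod_cast h6
    omega
  apply Set.ncard_congr (fun x _ => (τ ^ (-⌊β x / T⌋)) x)
  · rintro x ⟨hx, -⟩
    obtain ⟨h1, h2⟩ := hz β hβ (-⌊β x / T⌋) x hx
    refine ⟨h1, ?_⟩
    rw [h2]
    have := hfl (β x)
    push_cast
    constructor <;> linarith [this.1, this.2]
  · rintro x y ⟨hxS, hx⟩ ⟨hyS, hy⟩ hxy
    have h1 : y = (τ ^ (⌊β y / T⌋ - ⌊β x / T⌋)) x := by
      rw [sub_eq_add_neg, zpow_add, Equiv.Perm.mul_apply, hxy, ← Equiv.Perm.mul_apply, ← zpow_add]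
      simp
    have h2 : α y = α x + (⌊β y / T⌋ - ⌊β x / T⌋ : ℤ) * T := by
      conv_lhs => rw [h1]
      exact (hz α hα _ x hxS).2
    have h3 := huniq (α x) (⌊β y / T⌋ - ⌊β x / T⌋) hx.1 hx.2 (by rw [← h2]; exact hy.1)
      (by rw [← h2]; exact hy.2)
    rw [h3] at h1
    simpa using h1.symm
  · rintro y ⟨hyS, hy⟩
    obtain ⟨h1, h2⟩ := hz α hα (-⌊α y / T⌋) y hyS
    obtain ⟨-, h3⟩ := hz β hβ (-⌊α y / T⌋) y hyS
    refine ⟨(τ ^ (-⌊α y / T⌋)) y, ⟨h1, ?_⟩, ?_⟩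
    · rw [h2]
      have := hfl (α y)
      push_cast
      constructor <;> linarith [this.1, this.2]
    · have h4 : ⌊β ((τ ^ (-⌊α y / T⌋)) y) / T⌋ = -⌊α y / T⌋ := by
        rw [h3, add_div, mul_div_assoc, div_self hT.ne', mul_one, Int.floor_add_intCast]
        have : ⌊β y / T⌋ = 0 := by
          rw [Int.floor_eq_zero_iff]
          exact ⟨div_nonneg hy.1 hT.le, (div_lt_one hT).2 hy.2⟩
        rw [this, zero_add]
      rw [h4, ← Equiv.Perm.mul_apply, ← zpow_add]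
      simp

/-! ### Matrices -/

theorem mul_cancel_left {M X Y : Mat} (h : M.det ≠ 0) (e : M.mul X = M.mul Y) : X = Y := by
  unfold Mat.mul at e
  rw [Mat.mk.injEq] at e
  obtain ⟨e1, e2, e3, e4⟩ := e
  unfold Mat.det at h
  apply Mat.ext <;> apply mul_left_cancel₀ h
  · linear_combination M.d * e1 - M.b * e3
  · linear_combination M.d * e2 - M.b * e4
  · linear_combination M.a * e3 - M.c * e1
  · linear_combination M.a * e4 - M.c * e2

theorem mul_cancel_right {M X Y : Mat} (h : M.det ≠ 0) (e : X.mul M = Y.mul M) : X = Y := by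
  unfold Mat.mul at e
  rw [Mat.mk.injEq] at e
  obtain ⟨e1, e2, e3, e4⟩ := e
  unfold Mat.det at h
  apply Mat.ext <;> apply mul_left_cancel₀ h
  · linear_combination M.d * e1 - M.c * e2
  · linear_combination M.a * e2 - M.b * e1
  · linear_combination M.d * e3 - M.c * e4
  · linear_combination M.a * e4 - M.b * e3

/-- the negative -/
def ng (M : Mat) : Mat := ⟨-M.a, -M.b, -M.c, -M.d⟩

theorem ng_app (M : Mat) (u : V) : (ng M).app u = -M.app u := by
  unfold ng Mat.app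
  ext
  · simp; ring
  · simp; ring

theorem ng_det (M : Mat) : (ng M).det = M.det := by
  unfold ng Mat.det; ring

theorem q_neg (Q : Form) (v : V) : Q.q (-v) = Q.q v := by
  unfold Form.q; simp

theorem rel_ng {p r : ℤ} {Q Q' : Form} {M : Mat} (h : Rel p r Q Q' M) : Rel p r Q Q' (ng M) := by
  refine ⟨by rw [ng_det, h.det], fun u => by rw [ng_app, q_neg, h.sim], fun u w => ?_⟩
  have h1 := h.eig u w
  rw [ng_app]
  have h2 : Q.B w (-M.app u) - r * wd w (-M.app u) = -(Q.B w (M.app u) - r * wd w (M.app u)) := by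
    unfold Form.B wd; simp; ring
  rw [h2]
  exact (dvd_neg).2 h1

/-! ### Cone -/

theorem cn_e1 {d : ℕ} {Q : Form} (hQ : Hyp d Q) : Cn Q (1, 0) := by
  unfold Cn hX hY
  simpa using hQ.sa

theorem ps_e1 {Q : Form} : ps Q (1, 0) = 0 := by
  unfold ps hY
  simp

theorem hX_neg (Q : Form) (v : V) : hX Q (-v) = -hX Q v := by
  unfold hX; simp; ring

theorem hY_neg (Q : Form) (v : V) : hY Q (-v) = -hY Q v := by
  unfold hY; simp; ring

theorem cn_or {d : ℕ} {Q : Form} (hQ : Hyp d Q) {v : V} (h : 0 < Q.q v) : Cn Q v ∨ Cn Q (-v) := by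
  have h1 : (0 : ℝ) < Q.q v := by exact_mod_cast h
  rw [hQ.q_eq] at h1
  have h2 : |hY Q v| < |hX Q v| := sq_lt_sq.1 (by linarith)
  rcases le_or_gt 0 (hX Q v) with h3 | h3
  · left
    unfold Cn
    rwa [abs_of_nonneg h3] at h2
  · right
    unfold Cn
    rw [hX_neg, hY_neg, abs_neg]
    rwa [abs_of_neg h3] at h2

theorem cn_not {Q : Form} {v : V} (h : Cn Q v) : ¬ Cn Q (-v) := by
  intro h'
  have h1 := h.X_pos
  have h2 := h'.X_pos
  rw [hX_neg] at h2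
  linarith

/-- a direct similitude with `M e₁` in the cone preserves the cone -/
theorem cone_iff {d : ℕ} {Q Q' : Form} (hQ : Hyp d Q) (hQ' : Hyp d Q') {M : Mat} {n : ℤ}
    (hn : 0 < n) (hsim : ∀ u, Q.q (M.app u) = n * Q'.q u) (h : Cn Q (M.app (1, 0))) (u : V) :
    Cn Q (M.app u) ↔ Cn Q' u := by
  have hpol : ∀ u u' : V, Q.B (M.app u) (M.app u') = n * Q'.B u u' := by
    intro u u'
    have h1 := hsim (u + u')
    have h2 : M.app (u + u') = M.app u + M.app u' := by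
      unfold Mat.app; ext <;> simp <;> ring
    rw [h2, Form.q_add, Form.q_add, hsim, hsim] at h1
    linarith
  constructor
  · intro hu
    have h1 : 0 < Q'.q u := by
      have := hu.q_pos hQ
      rw [hsim] at this
      exact (mul_pos_iff_of_pos_left hn).1 this
    have h2 : 0 < Q'.B (1, 0) u := by
      have := h.B_pos hQ hu
      rw [hpol] at this
      exact (mul_pos_iff_of_pos_left hn).1 this
    exact (cn_e1 hQ').of_pos hQ' h1 h2
  · intro hu
    have h1 : 0 < Q.q (M.app u) := by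
      rw [hsim]
      exact mul_pos hn (hu.q_pos hQ')
    have h2 : 0 < Q.B (M.app (1, 0)) (M.app u) := by
      rw [hpol]
      exact mul_pos hn ((cn_e1 hQ').B_pos hQ' hu)
    exact h.of_pos hQ h1 h2

theorem cone_or {d : ℕ} {Q Q' : Form} (hQ : Hyp d Q) (hQ' : Hyp d Q') {M : Mat} {n : ℤ}
    (hn : 0 < n) (hsim : ∀ u, Q.q (M.app u) = n * Q'.q u) :
    (∀ u, Cn Q (M.app u) ↔ Cn Q' u) ∨ (∀ u, Cn Q ((ng M).app u) ↔ Cn Q' u) := by
  have h1 : 0 < Q.q (M.app (1, 0)) := by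
    rw [hsim]
    exact mul_pos hn ((cn_e1 hQ').q_pos hQ')
  rcases cn_or hQ h1 with h2 | h2
  · left
    exact cone_iff hQ hQ' hn hsim h2
  · right
    refine cone_iff hQ hQ' hn (fun u => ?_) ?_
    · rw [ng_app, q_neg, hsim]
    · rw [ng_app]; exact h2

/-- one vector of the cone whose image is in the cone is enough -/
theorem cone_of {d : ℕ} {Q Q' : Form} (hQ : Hyp d Q) (hQ' : Hyp d Q') {M : Mat} {n : ℤ}
    (hn : 0 < n) (hsim : ∀ u, Q.q (M.app u) = n * Q'.q u) {w : V} (hw : Cn Q' w)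
    (h : Cn Q (M.app w)) (u : V) : Cn Q (M.app u) ↔ Cn Q' u := by
  rcases cone_or hQ hQ' hn hsim with h1 | h1
  · exact h1 u
  · exfalso
    have h2 := (h1 w).2 hw
    rw [ng_app] at h2
    exact cn_not h h2

/-! ### Representatives with `a > 0 > c` -/

theorem exists_hyp {d : ℕ} (hns : ¬ IsSquare d) (i : ClI d) :
    ∃ Q : Form, Hyp d Q ∧ Eqv (repI i) Q := by
  obtain ⟨Q', hE, hb, hc⟩ := exists_reducedI hns _ (repI i) (repI_D i) rfl
  have hD : Q'.D = -(d : ℤ) := by rw [Eqv.D_eq hE, repI_D]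
  have ha := a_ne hns hD
  have hcc := c_ne hns hD
  have hac : Q'.a * Q'.c < 0 := by
    by_contra hcon
    push Not at hcon
    have h1 : 4 * Q'.a * Q'.c - Q'.b ^ 2 = -(d : ℤ) := hD
    have h2 : Q'.b ^ 2 ≤ |Q'.a| ^ 2 := by
      rw [← sq_abs Q'.b]; exact pow_le_pow_left₀ (abs_nonneg _) hb 2
    have h3 : |Q'.a| * |Q'.c| = Q'.a * Q'.c := by rw [← abs_mul, abs_of_nonneg hcon]
    have h4 : 0 < |Q'.a| := abs_pos.2 ha
    have h5 : |Q'.a| ^ 2 ≤ |Q'.a| * |Q'.c| := by nlinarith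
    have h6 : (0 : ℤ) ≤ d := Int.natCast_nonneg d
    nlinarith
  rcases lt_or_gt_of_ne ha with h1 | h1
  · have h2 : 0 < Q'.c := by
      by_contra hcon
      push Not at hcon
      nlinarith
    have hE2 : Eqv Q' (Q'.comp ⟨0, -1, 1, 0⟩) := ⟨⟨0, -1, 1, 0⟩, by simp [Mat.det], rfl⟩
    refine ⟨Q'.comp ⟨0, -1, 1, 0⟩, ⟨?_, ?_, ?_, hns⟩, hE.trans hE2⟩
    · simpa [Form.comp, Form.q] using h2
    · simpa [Form.comp, Form.q] using h1
    · rw [Eqv.D_eq hE2, hD]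
  · have h2 : Q'.c < 0 := by
      by_contra hcon
      push Not at hcon
      nlinarith
    exact ⟨Q', ⟨h1, h2, hD, hns⟩, hE⟩

/-- the representative -/
noncomputable def hr {d : ℕ} (hns : ¬ IsSquare d) (i : ClI d) : Form := (exists_hyp hns i).choose

theorem hr_hyp {d : ℕ} (hns : ¬ IsSquare d) (i : ClI d) : Hyp d (hr hns i) :=
  (exists_hyp hns i).choose_spec.1

theorem hr_eqv {d : ℕ} (hns : ¬ IsSquare d) (i : ClI d) : Eqv (repI i) (hr hns i) :=
  (exists_hyp hns i).choose_spec.2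

/-- every prime `1` modulo `4d` is split -/
theorem split_of_mod {d p : ℕ} (hd : 0 < d) (hp : p.Prime) (h : p ≡ 1 [MOD 4 * d]) :
    Split d p := by
  have : Fact p.Prime := ⟨hp⟩
  have hpp : Prime (p : ℤ) := Nat.prime_iff_prime_int.1 hp
  obtain ⟨r, hr1, hr2⟩ := exists_root hp hd h
  have h4 : p % 4 = 1 := by
    have : p ≡ 1 [MOD 4] := Nat.ModEq.of_mul_right d h
    exact this
  obtain ⟨z, hz⟩ := ZMod.exists_sq_eq_neg_one_iff.2 (show p % 4 ≠ 3 by omega)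
  have hi : (p : ℤ) ∣ (z.val : ℤ) ^ 2 + 1 := by
    rw [← ZMod.intCast_zmod_eq_zero_iff_dvd]
    push_cast
    rw [ZMod.natCast_zmod_val, sq, ← hz]
    ring
  have hpi : ¬ (p : ℤ) ∣ (z.val : ℤ) := by
    intro h1
    have h2 : (p : ℤ) ∣ 1 := by
      have := dvd_sub hi (Dvd.dvd.mul_right h1 (z.val : ℤ))
      have h3 : (z.val : ℤ) ^ 2 + 1 - z.val * z.val = 1 := by ring
      rwa [h3] at this
    exact hpp.not_isUnit (isUnit_of_dvd_one h2)
  refine ⟨hp, r * z.val, ?_, ?_⟩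
  · intro h1
    have h2 : 2 * (r * (z.val : ℤ)) = (2 * r) * z.val := by ring
    rw [h2] at h1
    rcases hpp.dvd_or_dvd h1 with h3 | h3
    · exact hr2 h3
    · exact hpi h3
  · have h2 : (r * (z.val : ℤ)) ^ 2 - d = (z.val : ℤ) ^ 2 * (r ^ 2 + d) -
        d * ((z.val : ℤ) ^ 2 + 1) := by ring
    rw [h2]
    exact dvd_sub (Dvd.dvd.mul_left hr1 _) (Dvd.dvd.mul_left hi _)

/-- the matrices -/
theorem exists_hm {d : ℕ} (hns : ¬ IsSquare d) {p : ℕ} (h : Split d p) (i : ClI d) :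
    ∃ M : Mat, Rel p (rtI d p) (hr hns i) (hr hns (CHI.sI d p i)) M ∧
      ∀ u, Cn (hr hns i) (M.app u) ↔ Cn (hr hns (CHI.sI d p i)) u := by
  have h1 := CHI.sI_rel hns h i
  obtain ⟨γ, hγ, e1⟩ := hr_eqv hns i
  obtain ⟨γ', hγ', e2⟩ := hr_eqv hns (CHI.sI d p i)
  have h2 := (h1.left hγ).right hγ'
  rw [← e1, ← e2] at h2
  have hp0 : (0 : ℤ) < p := by exact_mod_cast h.1.pos
  rcases cone_or (hr_hyp hns i) (hr_hyp hns (CHI.sI d p i)) hp0 h2.sim with h3 | h3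
  · exact ⟨_, h2, h3⟩
  · exact ⟨_, rel_ng h2, h3⟩

open Classical in
/-- the matrices of the system -/
noncomputable def hm {d : ℕ} (hns : ¬ IsSquare d) (p : ℕ) (i : ClI d) : Mat :=
  if h : Split d p then (exists_hm hns h i).choose else Mat.one

theorem hm_spec {d : ℕ} (hns : ¬ IsSquare d) {p : ℕ} (h : Split d p) (i : ClI d) :
    Rel p (rtI d p) (hr hns i) (hr hns (CHI.sI d p i)) (hm hns p i) ∧
      ∀ u, Cn (hr hns i) ((hm hns p i).app u) ↔ Cn (hr hns (CHI.sI d p i)) u := by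
  unfold hm
  rw [dif_pos h]
  exact (exists_hm hns h i).choose_spec

/-- the system -/
noncomputable def sys {d : ℕ} (hns : ¬ IsSquare d) (hd : 0 < d) : HSystem (ClI d) where
  Q := hr hns
  d := d
  hyp := hr_hyp hns
  s := CHI.sI d
  M := hm hns
  det := fun p hp h i => (hm_spec hns (split_of_mod hd hp h) i).1.det
  sim := fun p hp h i u => (hm_spec hns (split_of_mod hd hp h) i).1.sim u
  cone := fun p hp h i u => (hm_spec hns (split_of_mod hd hp h) i).2 u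

/-! ### Frames -/

/-- frames with given values and first vector in the cone -/
def fr (Q : Form) (A B C : ℤ) : Set (V × V) := {f | f ∈ prs Q A B C ∧ Cn Q f.1}

/-- the automorph acting on pairs -/
def tau {d : ℕ} {Q : Form} (hQ : Hyp d Q) (a : Pell.Solution₁ (d : ℤ)) : Equiv.Perm (V × V) where
  toFun f := (act Q a f.1, act Q a f.2)
  invFun f := (act Q a⁻¹ f.1, act Q a⁻¹ f.2)
  left_inv f := by
    simp only [← act_mul hQ, inv_mul_cancel, act_one]
  right_inv f := by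
    simp only [← act_mul hQ, mul_inv_cancel, act_one]

theorem tau_mem {d : ℕ} {Q : Form} (hQ : Hyp d Q) {a : Pell.Solution₁ (d : ℤ)} (ha : PP a)
    {A B C : ℤ} (f : V × V) : tau hQ a f ∈ fr Q A B C ↔ f ∈ fr Q A B C := by
  unfold fr prs tau
  simp only [Equiv.coe_fn_mk]
  constructor
  · rintro ⟨⟨h1, h2, h3, h4⟩, h5⟩
    rw [wd_act hQ] at h1
    rw [q_act hQ] at h2 h4
    rw [B_act hQ] at h3
    exact ⟨⟨h1, h2, h3, h4⟩, (cn_act hQ ha _).1 h5⟩
  · rintro ⟨⟨h1, h2, h3, h4⟩, h5⟩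
    refine ⟨⟨?_, ?_, ?_, ?_⟩, (cn_act hQ ha _).2 h5⟩
    · rw [wd_act hQ]; exact h1
    · rw [q_act hQ]; exact h2
    · rw [B_act hQ]; exact h3
    · rw [q_act hQ]; exact h4

/-- the vectors of the sector with a given value -/
theorem sec_finite {d : ℕ} {Q : Form} (hQ : Hyp d Q) (T : ℝ) (A : ℤ) :
    {v : V | Cn Q v ∧ 0 ≤ ps Q v ∧ ps Q v < T ∧ Q.q v = A}.Finite := by
  -- bounded coordinates
  have hs := hQ.sa
  have hd := hQ.sd
  obtain ⟨R, hR⟩ : ∃ R : ℝ, ∀ v : V, Cn Q v → 0 ≤ ps Q v → ps Q v < T → Q.q v = A →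
      |hX Q v| ≤ R ∧ |hY Q v| ≤ R := by
    refine ⟨√(A : ℝ) * Real.cosh T, fun v h1 h2 h3 h4 => ?_⟩
    obtain ⟨e1, e2⟩ := polar hQ h1
    rw [h4] at e1 e2
    have h5 : 0 ≤ √(A : ℝ) := Real.sqrt_nonneg _
    have h6 : Real.cosh (ps Q v) ≤ Real.cosh T := by
      rw [Real.cosh_le_cosh, abs_of_nonneg h2, abs_of_nonneg (by linarith)]
      exact h3.le
    have h7 : |hX Q v| ≤ √(A : ℝ) * Real.cosh T := by
      rw [e1, abs_mul, abs_of_nonneg h5, abs_of_pos (Real.cosh_pos _)]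
      exact mul_le_mul_of_nonneg_left h6 h5
    refine ⟨h7, ?_⟩
    have h8 : |hY Q v| < hX Q v := h1
    exact h8.le.trans ((le_abs_self _).trans h7)
  -- the second coordinate is bounded, then the first
  set R2 : ℝ := 2 * √(Q.a : ℝ) * R / √(d : ℝ) with hR2
  set R1 : ℝ := (R + |(Q.b : ℝ)| * R2 / (2 * √(Q.a : ℝ))) / √(Q.a : ℝ) with hR1
  have hfin : ((Finset.Icc (-⌈R1⌉) ⌈R1⌉ ×ˢ Finset.Icc (-⌈R2⌉) ⌈R2⌉ : Finset (ℤ × ℤ)) :
      Set (ℤ × ℤ)).Finite := Finset.finite_toSet _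
  refine hfin.subset ?_
  rintro v ⟨h1, h2, h3, h4⟩
  obtain ⟨h5, h6⟩ := hR v h1 h2 h3 h4
  have h7 : |(v.2 : ℝ)| ≤ R2 := by
    rw [hQ.hY_eq, abs_div, abs_mul, abs_of_pos hd,
      abs_of_pos (show (0 : ℝ) < 2 * √(Q.a : ℝ) by positivity)] at h6
    rw [div_le_iff₀ (by positivity)] at h6
    rw [hR2, le_div_iff₀ hd]
    linarith
  have h8 : |(v.1 : ℝ)| ≤ R1 := by
    have e : √(Q.a : ℝ) * v.1 = hX Q v - Q.b * v.2 / (2 * √(Q.a : ℝ)) := by
      unfold hX; ring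
    have h9 : |√(Q.a : ℝ) * v.1| ≤ R + |(Q.b : ℝ)| * R2 / (2 * √(Q.a : ℝ)) := by
      rw [e]
      refine (abs_sub _ _).trans (add_le_add h5 ?_)
      rw [abs_div, abs_mul, abs_of_pos (show (0 : ℝ) < 2 * √(Q.a : ℝ) by positivity)]
      exact div_le_div_of_nonneg_right (mul_le_mul_of_nonneg_left h7 (abs_nonneg _))
        (by positivity)
    rw [abs_mul, abs_of_pos hs] at h9
    rw [hR1, le_div_iff₀ hs]
    linarith
  rw [Finset.mem_coe, Finset.mem_product, Finset.mem_Icc, Finset.mem_Icc]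
  have key : ∀ (t : ℤ) (r : ℝ), |(t : ℝ)| ≤ r → -⌈r⌉ ≤ t ∧ t ≤ ⌈r⌉ := by
    intro t r h
    have h9 : |(t : ℝ)| ≤ (⌈r⌉ : ℝ) := h.trans (Int.le_ceil r)
    have h10 : |t| ≤ ⌈r⌉ := by exact_mod_cast h9
    exact abs_le.1 h10
  exact ⟨key _ _ h8, key _ _ h7⟩

/-- the first vector determines the frame -/
theorem frame_inj {Q : Form} {A B C : ℤ} (hA : A ≠ 0) {f g : V × V} (hf : f ∈ prs Q A B C)
    (hg : g ∈ prs Q A B C) (h : f.1 = g.1) : f = g := by
  obtain ⟨f1, f2⟩ := f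
  obtain ⟨g1, g2⟩ := g
  simp only at h
  subst h
  unfold prs at hf hg
  obtain ⟨a1, a2, a3, a4⟩ := hf
  obtain ⟨b1, b2, b3, b4⟩ := hg
  simp only at a1 a2 a3 a4 b1 b2 b3 b4
  have key : ∀ w : V, wd f1 w = 1 → Q.B f1 w = B →
      2 * A * w.1 = B * f1.1 - (Q.b * f1.1 + 2 * Q.c * f1.2) ∧
      2 * A * w.2 = B * f1.2 + (2 * Q.a * f1.1 + Q.b * f1.2) := by
    intro w h1 h2
    rw [← a2, ← h2]
    unfold wd at h1
    unfold Form.q Form.B
    constructor
    · linear_combination (-(Q.b * f1.1 + 2 * Q.c * f1.2)) * h1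
    · linear_combination (2 * Q.a * f1.1 + Q.b * f1.2) * h1
  obtain ⟨c1, c2⟩ := key f2 a1 a3
  obtain ⟨d1, d2⟩ := key g2 b1 b3
  have h2A : 2 * A ≠ 0 := mul_ne_zero two_ne_zero hA
  have e1 : f2.1 = g2.1 := mul_left_cancel₀ h2A (by rw [c1, d1])
  have e2 : f2.2 = g2.2 := mul_left_cancel₀ h2A (by rw [c2, d2])
  exact Prod.ext rfl (Prod.ext e1 e2)

/-- the frames over the sector are finite in number -/
theorem fr_finite {d : ℕ} {Q : Form} (hQ : Hyp d Q) (T : ℝ) {A B C : ℤ} (hA : A ≠ 0) :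
    {f | f ∈ fr Q A B C ∧ 0 ≤ ps Q f.1 ∧ ps Q f.1 < T}.Finite := by
  apply Set.Finite.of_finite_image (f := Prod.fst)
  · apply (sec_finite hQ T A).subset
    rintro v ⟨f, ⟨⟨h1, h2⟩, h3, h4⟩, rfl⟩
    exact ⟨h2, h3, h4, h1.2.1⟩
  · intro f hf g hg h
    exact frame_inj hA hf.1.1 hg.1.1 h

/-- the weights -/
noncomputable def wt0 {d : ℕ} (a : Pell.Solution₁ (d : ℤ)) (Q : Form) : ℕ :=
  {f | f ∈ fr Q Q.a Q.b Q.c ∧ 0 ≤ ps Q f.1 ∧ ps Q f.1 < per a}.ncard

theorem wt0_pos {d : ℕ} {a : Pell.Solution₁ (d : ℤ)} (ha : PP a) {Q : Form} (hQ : Hyp d Q) :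
    0 < wt0 a Q := by
  unfold wt0
  rw [Set.ncard_pos (fr_finite hQ _ hQ.apos.ne')]
  refine ⟨((1, 0), (0, 1)), ⟨?_, cn_e1 hQ⟩, ?_, ?_⟩
  · unfold prs wd Form.q Form.B
    simp
  · rw [ps_e1]
  · rw [ps_e1]; exact per_pos ha

theorem mem_fr {Q : Form} {A B C : ℤ} {f : V × V} : f ∈ fr Q A B C ↔
    ((Mat.ofV f.1 f.2).det = 1 ∧ Q.comp (Mat.ofV f.1 f.2) = ⟨A, B, C⟩) ∧ Cn Q f.1 := by
  unfold fr
  rw [Set.mem_setOf_eq, mem_prs]

theorem ofV_e1 (f : V × V) : (Mat.ofV f.1 f.2).app (1, 0) = f.1 := by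
  unfold Mat.ofV Mat.app; ext <;> simp

theorem comp_sim {Q Q' : Form} {M : Mat} (h : Q.comp M = Q') (u : V) :
    Q.q (M.app u) = 1 * Q'.q u := by
  rw [← Form.comp_q, h, one_mul]

theorem mk_eta (Q : Form) : (⟨Q.a, Q.b, Q.c⟩ : Form) = Q := rfl

/-- an equivalence which maps `e₁` into the cone -/
theorem exists_gamma {d : ℕ} {Q F : Form} (hQ : Hyp d Q) (hF : 0 < F.a) (h : Eqv Q F) :
    ∃ γ : Mat, γ.det = 1 ∧ F = Q.comp γ ∧ Cn Q (γ.app (1, 0)) := by
  obtain ⟨γ, h1, h2⟩ := h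
  have h3 : 0 < Q.q (γ.app (1, 0)) := by
    rw [← Form.comp_q, ← h2]
    simpa [Form.q] using hF
  rcases cn_or hQ h3 with h4 | h4
  · exact ⟨γ, h1, h2, h4⟩
  · refine ⟨ng γ, by rw [ng_det, h1], ?_, by rw [ng_app]; exact h4⟩
    rw [h2]
    apply Form.ext_q
    intro v
    rw [Form.comp_q, Form.comp_q, ng_app, q_neg]

theorem au_app_mul {d : ℕ} (Q : Form) (a : Pell.Solution₁ (d : ℤ)) (f : V × V) :
    Mat.ofV (act Q a f.1) (act Q a f.2) = (au Q a.x a.y).mul (Mat.ofV f.1 f.2) := by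
  unfold act Mat.ofV Mat.mul Mat.app; rfl

/-- the number of frames of an equivalent form over the sector -/
theorem count_eq {d : ℕ} {Q F : Form} (hQ : Hyp d Q) (hF : 0 < F.a)
    {a : Pell.Solution₁ (d : ℤ)} (ha : PP a) (h : Eqv Q F) :
    {f | f ∈ fr Q F.a F.b F.c ∧ 0 ≤ ps Q f.1 ∧ ps Q f.1 < per a}.ncard = wt0 a Q := by
  obtain ⟨γ, hγ, rfl, hc⟩ := exists_gamma hQ hF h
  set F := Q.comp γ with hFdef
  -- self frames preserve the cone
  have hself : ∀ f ∈ fr Q Q.a Q.b Q.c, ∀ u, Cn Q ((Mat.ofV f.1 f.2).app u) ↔ Cn Q u := by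
    intro f hf u
    rw [mem_fr] at hf
    refine cone_iff hQ hQ one_pos (fun u => ?_) ?_ u
    · exact comp_sim hf.1.2 u
    · rw [ofV_e1]; exact hf.2
  have hmul : ∀ f : V × V, (mulR γ f).1 = (Mat.ofV f.1 f.2).app (γ.app (1, 0)) := by
    intro f
    rw [← ofV_e1 (mulR γ f), ofV_mulR, Mat.app_mul]
  unfold wt0
  rw [ncard_fund (fr Q Q.a Q.b Q.c) (tau hQ a) (tau_mem hQ ha) (per_pos ha)
    (fun f => ps Q f.1) (fun f => ps Q (mulR γ f).1)]
  · symm
    apply Set.ncard_congr (fun f _ => mulR γ f)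
    · rintro f ⟨hf, h1⟩
      refine ⟨?_, h1⟩
      have hs := hself f hf
      rw [mem_fr] at hf ⊢
      rw [ofV_mulR, Mat.det_mul, hf.1.1, hγ, ← Form.comp_comp, hf.1.2, mk_eta]
      refine ⟨⟨by norm_num, ?_⟩, ?_⟩
      · rw [mk_eta]
      · rw [hmul, hs]; exact hc
    · intro f g _ _ hfg
      have h1 : (Mat.ofV f.1 f.2).mul γ = (Mat.ofV g.1 g.2).mul γ := by
        rw [← ofV_mulR, ← ofV_mulR, hfg]
      exact ofV_inj (mul_cancel_right (by rw [hγ]; norm_num) h1)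
    · rintro g ⟨hg, h1⟩
      have hback : mulR γ (mulR γ.adj g) = g := by
        apply ofV_inj
        rw [ofV_mulR, ofV_mulR, Mat.mul_assoc', Mat.adj_mul hγ, Mat.mul_one']
      refine ⟨mulR γ.adj g, ⟨?_, ?_⟩, hback⟩
      · rw [mem_fr] at hg ⊢
        have e1 : (Mat.ofV (mulR γ.adj g).1 (mulR γ.adj g).2).det = 1 := by
          rw [ofV_mulR, Mat.det_mul, hg.1.1, Mat.det_adj, hγ]; norm_num
        have e2 : Q.comp (Mat.ofV (mulR γ.adj g).1 (mulR γ.adj g).2) = Q := by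
          rw [ofV_mulR, ← Form.comp_comp, hg.1.2, mk_eta, hFdef, Form.comp_comp,
            Mat.mul_adj hγ, Form.comp_one]
        refine ⟨⟨e1, e2⟩, ?_⟩
        have h3 := cone_of hQ hQ one_pos (M := Mat.ofV (mulR γ.adj g).1 (mulR γ.adj g).2)
          (fun u => comp_sim e2 u) (w := γ.app (1, 0)) hc (by
            rw [← hmul, hback]; exact hg.2) (1, 0)
        rw [ofV_e1] at h3
        exact h3.2 (cn_e1 hQ)
      · rw [hback]; exact h1
  · intro f hf
    exact ps_act hQ ha hf.2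
  · intro f hf
    have h1 : (mulR γ (tau hQ a f)).1 = act Q a (mulR γ f).1 := by
      rw [hmul, hmul]
      have : (Mat.ofV (tau hQ a f).1 (tau hQ a f).2) = (au Q a.x a.y).mul (Mat.ofV f.1 f.2) :=
        au_app_mul Q a f
      rw [this, Mat.app_mul]
      rfl
    rw [h1, ps_act hQ ha]
    rw [hmul, hself f hf]
    exact hc

/-- the weights are preserved -/
theorem wt0_le {d : ℕ} {Q Q' : Form} (hQ : Hyp d Q) (hQ' : Hyp d Q') {a : Pell.Solution₁ (d : ℤ)}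
    (ha : PP a) {p r : ℤ} (hp : Prime p) (hr : ¬ p ∣ 2 * r) {M : Mat} (h : Rel p r Q Q' M)
    (hcone : ∀ u, Cn Q (M.app u) ↔ Cn Q' u) : wt0 a Q ≤ wt0 a Q' := by
  have hp0 := hp.ne_zero
  have hdet : M.det ≠ 0 := by rw [h.det]; exact hp0
  have key0 : ∀ f ∈ fr Q Q.a Q.b Q.c, ∃ N : Mat, N.det = 1 ∧
      (Mat.ofV f.1 f.2).mul M = M.mul N ∧ Q' = Q'.comp N := by
    intro f hf
    rw [mem_fr] at hf
    have h1 : Q.comp (Mat.ofV f.1 f.2) = Q := hf.1.2
    have h2 := h.left (γ := (Mat.ofV f.1 f.2).adj) (by rw [Mat.det_adj, hf.1.1])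
    have h3 : Q.comp (Mat.ofV f.1 f.2).adj = Q := by
      conv_lhs => rw [← h1]
      rw [Form.comp_comp, Mat.mul_adj hf.1.1, Form.comp_one]
    have h4 : (Mat.ofV f.1 f.2).adj.adj = Mat.ofV f.1 f.2 := by
      unfold Mat.adj; ext <;> simp
    rw [h3, h4] at h2
    exact h.uniq hp hr h2
  have key : ∀ f, ∃ N : Mat, f ∈ fr Q Q.a Q.b Q.c → N.det = 1 ∧
      (Mat.ofV f.1 f.2).mul M = M.mul N ∧ Q' = Q'.comp N := by
    intro f
    by_cases hf : f ∈ fr Q Q.a Q.b Q.c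
    · obtain ⟨N, hN⟩ := key0 f hf
      exact ⟨N, fun _ => hN⟩
    · exact ⟨Mat.one, fun h => absurd h hf⟩
  choose N hN using key
  have hself : ∀ f ∈ fr Q Q.a Q.b Q.c, ∀ u, Cn Q ((Mat.ofV f.1 f.2).app u) ↔ Cn Q u := by
    intro f hf u
    rw [mem_fr] at hf
    refine cone_iff hQ hQ one_pos (fun u => ?_) ?_ u
    · exact comp_sim hf.1.2 u
    · rw [ofV_e1]; exact hf.2
  have hNc : ∀ f ∈ fr Q Q.a Q.b Q.c, Cn Q' ((N f).app (1, 0)) := by
    intro f hf
    rw [← hcone, ← Mat.app_mul, ← (hN f hf).2.1, Mat.app_mul, hself f hf, hcone]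
    exact cn_e1 hQ'
  unfold wt0
  rw [ncard_fund (fr Q Q.a Q.b Q.c) (tau hQ a) (tau_mem hQ ha) (per_pos ha)
    (fun f => ps Q f.1) (fun f => ps Q' ((N f).app (1, 0)))]
  · apply Set.ncard_le_ncard_of_injOn (fun f => (((N f).a, (N f).c), ((N f).b, (N f).d)))
      ?_ ?_ (fr_finite hQ' _ hQ'.apos.ne')
    · rintro f ⟨hf, h1⟩
      have e1 : (N f).app (1, 0) = ((N f).a, (N f).c) := by unfold Mat.app; simp
      refine ⟨?_, ?_⟩
      · rw [mem_fr]
        refine ⟨⟨(hN f hf).1, ?_⟩, ?_⟩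
        · exact (hN f hf).2.2.symm
        · have := hNc f hf
          rwa [e1] at this
      · rw [e1] at h1
        exact h1
    · rintro f ⟨hf, -⟩ g ⟨hg, -⟩ hfg
      have e : N f = N g := by
        simp only [Prod.mk.injEq] at hfg
        exact Mat.ext hfg.1.1 hfg.2.1 hfg.1.2 hfg.2.2
      have h1 := (hN f hf).2.1
      rw [e, ← (hN g hg).2.1] at h1
      exact ofV_inj (mul_cancel_right hdet h1)
  · intro f hf
    exact ps_act hQ ha hf.2
  · intro f hf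
    have hf' := (tau_mem hQ ha f).2 hf
    have h1 : N (tau hQ a f) = (au Q' a.x a.y).mul (N f) := by
      apply mul_cancel_left hdet
      rw [← (hN _ hf').2.1]
      have e1 : (Mat.ofV (tau hQ a f).1 (tau hQ a f).2) = (au Q a.x a.y).mul (Mat.ofV f.1 f.2) :=
        au_app_mul Q a f
      have e2 : (au Q a.x a.y).mul M = M.mul (au Q' a.x a.y) := by
        have h3 := mX_comm (n := p) hp0 h.det h.sim a.x a.y
        have h4 : ∀ R : Form, mX R a.x a.y = au R a.x a.y := by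
          intro R; unfold mX au; ext <;> simp
        rwa [h4, h4] at h3
      rw [e1, Mat.mul_assoc', (hN f hf).2.1, ← Mat.mul_assoc', e2, Mat.mul_assoc']
    rw [h1, Mat.app_mul]
    exact ps_act hQ' ha (hNc f hf)

theorem wt0_eq {d : ℕ} {Q Q' : Form} (hQ : Hyp d Q) (hQ' : Hyp d Q') {a : Pell.Solution₁ (d : ℤ)}
    (ha : PP a) {p r : ℤ} (hp : Prime p) (hp0 : 0 < p) (hr : ¬ p ∣ 2 * r) {M : Mat}
    (h : Rel p r Q Q' M) (hcone : ∀ u, Cn Q (M.app u) ↔ Cn Q' u) : wt0 a Q' = wt0 a Q := by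
  apply le_antisymm _ (wt0_le hQ hQ' ha hp hr h hcone)
  refine wt0_le hQ' hQ ha hp (neg_nd' hr) (h.inv hp.ne_zero) fun u => ?_
  rw [← hcone, Mat.app_adj, h.det]
  -- `p • u` in the cone iff `u` in the cone
  have e1 : hX Q (p • u) = p * hX Q u := by unfold hX; simp; ring
  have e2 : hY Q (p • u) = p * hY Q u := by unfold hY; simp; ring
  have hpr : (0 : ℝ) < p := by exact_mod_cast hp0
  unfold Cn
  rw [e1, e2, abs_mul, abs_of_pos hpr, mul_lt_mul_iff_right₀ hpr]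

end S68

open S68 in
/-- (F1) -/
theorem stHSys_68 : StHSys := by
  intro d hns
  have hd : 0 < d := by
    rcases Nat.eq_zero_or_pos d with h0 | h0
    · exact absurd (h0 ▸ (⟨0, rfl⟩ : IsSquare (0 : ℕ))) hns
    · exact h0
  have hdZ : (0 : ℤ) < d := by exact_mod_cast hd
  have hnsZ : ¬ IsSquare (d : ℤ) := by
    rintro ⟨y, hy⟩
    apply hns
    refine ⟨y.natAbs, ?_⟩
    have h4 : (d : ℤ) = ((y.natAbs * y.natAbs : ℕ) : ℤ) := by
      push_cast
      rw [hy, abs_mul_abs_self]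
    exact_mod_cast h4
  obtain ⟨a, ha1, ha2⟩ := Pell.Solution₁.exists_pos_of_not_isSquare hdZ hnsZ
  have ha : PP a := ⟨ha1, ha2⟩
  have : Finite (ClI d) := clI_finite hns
  have hFin : Fintype (ClI d) := Fintype.ofFinite _
  refine ⟨ClI d, hFin, sys hns hd, fun i => wt0 a (hr hns i), a, rfl, ha,
    fun i => wt0_pos ha (hr_hyp hns i), ?_, ?_⟩
  · intro p hp h i
    have h1 := split_of_mod hd hp h
    obtain ⟨h2, h3⟩ := hm_spec hns h1 i
    exact wt0_eq (hr_hyp hns i) (hr_hyp hns _) ha (Nat.prime_iff_prime_int.1 hp)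
      (by exact_mod_cast hp.pos) (rtI_spec h1).1 h2 h3
  · intro F hFa hFb hFc hFD
    have hset : ∀ i, {f : V × V | wd f.1 f.2 = 1 ∧ Sec (hr hns i) (per a) f.1 ∧
        Cn (hr hns i) f.2 ∧ (hr hns i).q f.1 = F.a ∧ (hr hns i).B f.1 f.2 = F.b ∧
        (hr hns i).q f.2 = F.c} =
        {f | f ∈ fr (hr hns i) F.a F.b F.c ∧ 0 ≤ ps (hr hns i) f.1 ∧
          ps (hr hns i) f.1 < per a} := by
      intro i
      ext f
      unfold fr prs Sec
      constructor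
      · rintro ⟨h1, ⟨h2, h3, h4⟩, h5, h6, h7, h8⟩
        exact ⟨⟨⟨h1, h6, h7, h8⟩, h2⟩, h3, h4⟩
      · rintro ⟨⟨⟨h1, h6, h7, h8⟩, h2⟩, h3, h4⟩
        refine ⟨h1, ⟨h2, h3, h4⟩, ?_, h6, h7, h8⟩
        exact h2.of_pos (hr_hyp hns i) (by rw [h8]; exact hFc) (by rw [h7]; exact hFb)
    refine ⟨fun i => ?_, ?_⟩
    · have := fr_finite (hr_hyp hns i) (per a) (A := F.a) (B := F.b) (C := F.c) hFa.ne'
      rw [← hset i] at this
      exact this
    · obtain ⟨i, hi⟩ := exists_clI (D := d) (Q := F) hFD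
      have hiE : Eqv (hr hns i) F := (hr_eqv hns i).symm.trans hi.symm
      have hmain : ∑ i, (({f | f ∈ fr (hr hns i) F.a F.b F.c ∧ 0 ≤ ps (hr hns i) f.1 ∧
          ps (hr hns i) f.1 < per a}.ncard : ℂ) / (wt0 a (hr hns i) : ℂ)) = 1 := by
        rw [Finset.sum_eq_single i]
        · rw [count_eq (hr_hyp hns i) hFa ha hiE]
          have h2 : (0 : ℕ) < wt0 a (hr hns i) := wt0_pos ha (hr_hyp hns i)
          have h3 : ((wt0 a (hr hns i) : ℕ) : ℂ) ≠ 0 := by exact_mod_cast h2.ne'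
          exact div_self h3
        · intro j _ hj
          have h1 : {f | f ∈ fr (hr hns j) F.a F.b F.c ∧ 0 ≤ ps (hr hns j) f.1 ∧
              ps (hr hns j) f.1 < per a} = ∅ := by
            rw [Set.eq_empty_iff_forall_notMem]
            rintro f ⟨⟨h2, -⟩, -⟩
            rw [mem_prs] at h2
            apply hj
            apply repI_inj
            have h3 : Eqv (hr hns j) F := ⟨_, h2.1, h2.2.symm⟩
            exact (hr_eqv hns j).trans (h3.trans hi)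
          rw [h1]
          simp
        · intro h0
          exact absurd (Finset.mem_univ i) h0
      refine (Finset.sum_congr rfl fun i _ => ?_).trans hmain
      exact congrArg (fun s : Set (V × V) => ((s.ncard : ℂ) / (wt0 a (hr hns i) : ℂ))) (hset i)

end Pool.Agent.Lib.MP_a17b09_nt.HY
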