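import Pool.Agent.Lib.MP_a17b09_nt.HY.Stmts20
import Pool.Agent.Lib.MP_a17b09_nt.CH.TK3

/-!
Project HY, E10: the Turan-Kubilius inequality (StHTK from StHMb, StHDens).
-/

set_option autoImplicit false

open Filter Topology Finset

namespace Pool.Agent.Lib.MP_a17b09_nt.HY

open Pool.Agent.Lib.MP_a17b09_nt.CH Pool.Agent.Lib.MP_a17b09_nt.CH.PE

namespace TK26

open Pool.Agent.Lib.MP_a17b09_nt.CH.PE.TK3 (gt_abs gt_bd Adm bb bb_adm expand)

section

variable (hMb : StHMb) (M : LMean) {d : ℕ} {Q : Form} (hQ : Hyp d Q) (τ : ℝ) {B : ℝ} {G : ℝ → ℝ → ℝ} (hG : GT B G)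
  {L : ℝ} (hL : 1 ≤ L)

include hMb hQ τ hG hL

theorem smb {g : V → ℂ} (hg : Adm g) (x θ : ℝ) :
    Summable (fun v : V => ((G (hlx Q τ x θ v) (hly Q τ x θ v / L) : ℝ) : ℂ) * g v) := by
  apply summable_of_hasFiniteSupport
  exact (hMb d Q hQ B hG.1).1 G g τ L x θ hL hG.2.1 hg.2

theorem bdd {g : V → ℂ} (hg : Adm g) : CBdd (sm (hmm Q τ g G L)) := by
  obtain ⟨E, -, hE⟩ := gt_bd hG
  obtain ⟨C, hC⟩ := (hMb d Q hQ B hG.1).2
  obtain ⟨⟨c, hc⟩, hp⟩ := hg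
  exact ⟨C * E * c, fun w => hC G E hG.2.1 hE g c hp hc τ L w.1 w.2 hL⟩

theorem mm_add {g g' : V → ℂ} (hg : Adm g) (hg' : Adm g') :
    sm (hmm Q τ (fun v => g v + g' v) G L) = fun w => sm (hmm Q τ g G L) w + sm (hmm Q τ g' G L) w := by
  funext w
  unfold sm hmm
  rw [← mul_add, ← Summable.tsum_add (smb hMb hQ τ hG hL hg _ _) (smb hMb hQ τ hG hL hg' _ _)]
  congr 1
  apply tsum_congr
  intro v
  ring

omit hMb hQ τ hG hL in
theorem mm_smul (Q : Form) (τ : ℝ) (G : ℝ → ℝ → ℝ) (L : ℝ) (a : ℂ) (g : V → ℂ) :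
    sm (hmm Q τ (fun v => a * g v) G L) = fun w => a * sm (hmm Q τ g G L) w := by
  funext w
  unfold sm hmm
  have h1 : ∀ v : V, ((G (hlx Q τ (w.1 : ℝ) w.2 v) (hly Q τ (w.1 : ℝ) w.2 v / L) : ℝ) : ℂ) * (a * g v) =
      a * (((G (hlx Q τ (w.1 : ℝ) w.2 v) (hly Q τ (w.1 : ℝ) w.2 v / L) : ℝ) : ℂ) * g v) := by
    intro v; ring
  rw [tsum_congr h1, tsum_mul_left]
  ring

/-- the functional -/
noncomputable def Lam (M : LMean) (Q : Form) (τ : ℝ) (G : ℝ → ℝ → ℝ) (L : ℝ) (g : V → ℂ) : ℂ :=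
  ec (TM M) (sm (hmm Q τ g G L))

theorem Lam_add {g g' : V → ℂ} (hg : Adm g) (hg' : Adm g') :
    Lam M Q τ G L (fun v => g v + g' v) = Lam M Q τ G L g + Lam M Q τ G L g' := by
  unfold Lam
  rw [mm_add hMb hQ τ hG hL hg hg', ec_add _ (bdd hMb hQ τ hG hL hg) (bdd hMb hQ τ hG hL hg')]

theorem Lam_smul (a : ℂ) {g : V → ℂ} (hg : Adm g) :
    Lam M Q τ G L (fun v => a * g v) = a * Lam M Q τ G L g := by
  unfold Lam
  rw [mm_smul, ec_smul _ _ (bdd hMb hQ τ hG hL hg)]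

theorem Lam_sum {J : Type*} (s : Finset J) (g : J → V → ℂ) (h : ∀ j ∈ s, Adm (g j)) :
    Lam M Q τ G L (fun v => ∑ j ∈ s, g j v) = ∑ j ∈ s, Lam M Q τ G L (g j) := by
  classical
  induction s using Finset.induction with
  | empty =>
    have h1 := Lam_smul hMb M hQ τ hG hL 0 Adm.zero
    simpa using h1
  | insert a s ha ih =>
    have h1 : (fun v => ∑ j ∈ insert a s, g j v) = fun v => g a v + ∑ j ∈ s, g j v := by
      funext v; rw [Finset.sum_insert ha]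
    rw [h1, Lam_add hMb M hQ τ hG hL (h a (Finset.mem_insert_self a s))
      (Adm.sum s g fun i hi => h i (Finset.mem_insert_of_mem hi)), Finset.sum_insert ha,
      ih fun i hi => h i (Finset.mem_insert_of_mem hi)]

end

/-- Cauchy-Schwarz at one point -/
theorem cs_point (hMb : StHMb) {d : ℕ} {Q : Form} (hQ : Hyp d Q) (τ : ℝ) {B : ℝ} {G : ℝ → ℝ → ℝ} (hG : GT B G)
    {L : ℝ} (hL : 1 ≤ L) {g : V → ℂ} (hg : Ug g) (W : V → ℂ) (x θ : ℝ) :
    ‖hmm Q τ (fun v => g v * W v) G L x θ‖ ^ 2 ≤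
      ‖hmm Q τ (pin fun _ => True) (fun x y => |G x y|) L x θ‖ *
        (hmm Q τ (fun v => pin (fun _ => True) v * ((‖W v‖ ^ 2 : ℝ) : ℂ))
          (fun x y => |G x y|) L x θ).re ∧
    0 ≤ (hmm Q τ (fun v => pin (fun _ => True) v * ((‖W v‖ ^ 2 : ℝ) : ℂ))
          (fun x y => |G x y|) L x θ).re := by
  classical
  have hG' := gt_abs hG
  have hfin := (hMb d Q hQ B hG'.1).1 (fun x y => |G x y|) (pin fun _ => True) τ L x θ hL hG'.2.1
    (Adm.pin _).2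
  set S : Finset V := hfin.toFinset with hS
  have hmem : ∀ v, v ∉ S → ¬ (Prim v ∧ G (hlx Q τ x θ v) (hly Q τ x θ v / L) ≠ 0) := by
    intro v hv hc
    apply hv
    rw [hS, Set.Finite.mem_toFinset, Function.mem_support]
    unfold pin
    rw [if_pos ⟨hc.1, trivial⟩, mul_one, Complex.ofReal_ne_zero]
    exact abs_ne_zero.2 hc.2
  have hin : ∀ v ∈ S, Prim v := by
    intro v hv
    rw [hS, Set.Finite.mem_toFinset, Function.mem_support] at hv
    exact (Adm.pin _).2 v (right_ne_zero_of_mul hv)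
  have hpin : ∀ v ∈ S, pin (fun _ => True) v = 1 := by
    intro v hv
    unfold pin
    rw [if_pos ⟨hin v hv, trivial⟩]
  have hLp : (0 : ℝ) < L := by linarith
  have hz : ∀ v, v ∉ S → ((G (hlx Q τ x θ v) (hly Q τ x θ v / L) : ℝ) : ℂ) * (g v * W v) = 0 := by
    intro v hv
    by_cases h1 : Prim v
    · have h2 : G (hlx Q τ x θ v) (hly Q τ x θ v / L) = 0 := by
        by_contra hc; exact hmem v hv ⟨h1, hc⟩
      rw [h2]; simp
    · have h2 : g v = 0 := by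
        by_contra hc; exact h1 (hg.2 v hc)
      rw [h2]; simp
  have hz1 : ∀ v, v ∉ S → ∀ z : ℂ, ((|G (hlx Q τ x θ v) (hly Q τ x θ v / L)| : ℝ) : ℂ) *
      (pin (fun _ => True) v * z) = 0 := by
    intro v hv z
    by_cases h1 : Prim v
    · have h2 : G (hlx Q τ x θ v) (hly Q τ x θ v / L) = 0 := by
        by_contra hc; exact hmem v hv ⟨h1, hc⟩
      rw [h2]; simp
    · have h2 : pin (fun _ => True) v = 0 := by
        unfold pin; rw [if_neg (fun h => h1 h.1)]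
      rw [h2]; simp
  have e1 : hmm Q τ (fun v => g v * W v) G L x θ = (1 / (L : ℂ)) *
      ∑ v ∈ S, ((G (hlx Q τ x θ v) (hly Q τ x θ v / L) : ℝ) : ℂ) * (g v * W v) := by
    unfold hmm
    rw [tsum_eq_sum hz]
  have e2 : hmm Q τ (pin fun _ => True) (fun x y => |G x y|) L x θ =
      ((1 / L * ∑ v ∈ S, |G (hlx Q τ x θ v) (hly Q τ x θ v / L)| : ℝ) : ℂ) := by
    unfold hmm
    rw [tsum_eq_sum (s := S) (fun v hv => by have := hz1 v hv 1; rwa [mul_one] at this)]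
    push_cast
    congr 1
    apply Finset.sum_congr rfl
    intro v hv
    rw [hpin v hv, mul_one]
  have e3 : hmm Q τ (fun v => pin (fun _ => True) v * ((‖W v‖ ^ 2 : ℝ) : ℂ))
      (fun x y => |G x y|) L x θ =
      ((1 / L * ∑ v ∈ S, |G (hlx Q τ x θ v) (hly Q τ x θ v / L)| * ‖W v‖ ^ 2 : ℝ) : ℂ) := by
    unfold hmm
    rw [tsum_eq_sum (s := S) (fun v hv => hz1 v hv _)]
    push_cast
    congr 1
    apply Finset.sum_congr rfl
    intro v hv
    rw [hpin v hv, one_mul]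
  have n1 : ‖hmm Q τ (fun v => g v * W v) G L x θ‖ ≤
      1 / L * ∑ v ∈ S, |G (hlx Q τ x θ v) (hly Q τ x θ v / L)| * ‖W v‖ := by
    rw [e1, norm_mul]
    have h1 : ‖(1 / (L : ℂ))‖ = 1 / L := by
      rw [norm_div, norm_one, Complex.norm_real, Real.norm_eq_abs, abs_of_pos hLp]
    rw [h1]
    apply mul_le_mul_of_nonneg_left _ (by positivity)
    refine (norm_sum_le _ _).trans (Finset.sum_le_sum fun v _ => ?_)
    rw [norm_mul, norm_mul, Complex.norm_real, Real.norm_eq_abs]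
    apply mul_le_mul_of_nonneg_left _ (abs_nonneg _)
    have := mul_le_mul_of_nonneg_right (hg.1 v) (norm_nonneg (W v))
    linarith
  have hcs := Finset.sum_sq_le_sum_mul_sum_of_sq_le_mul S
    (r := fun v => |G (hlx Q τ x θ v) (hly Q τ x θ v / L)| * ‖W v‖)
    (f := fun v => |G (hlx Q τ x θ v) (hly Q τ x θ v / L)|)
    (g := fun v => |G (hlx Q τ x θ v) (hly Q τ x θ v / L)| * ‖W v‖ ^ 2)
    (fun v _ => abs_nonneg _) (fun v _ => by positivity) (fun v _ => le_of_eq (by ring))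
  have hA : 0 ≤ 1 / L * ∑ v ∈ S, |G (hlx Q τ x θ v) (hly Q τ x θ v / L)| := by positivity
  have hB : 0 ≤ 1 / L * ∑ v ∈ S, |G (hlx Q τ x θ v) (hly Q τ x θ v / L)| * ‖W v‖ ^ 2 := by positivity
  rw [e2, e3, Complex.ofReal_re, Complex.norm_real, Real.norm_eq_abs, abs_of_nonneg hA]
  refine ⟨?_, hB⟩
  calc ‖hmm Q τ (fun v => g v * W v) G L x θ‖ ^ 2 ≤
      (1 / L * ∑ v ∈ S, |G (hlx Q τ x θ v) (hly Q τ x θ v / L)| * ‖W v‖) ^ 2 :=
        pow_le_pow_left₀ (norm_nonneg _) n1 2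
    _ = (1 / L) ^ 2 * (∑ v ∈ S, |G (hlx Q τ x θ v) (hly Q τ x θ v / L)| * ‖W v‖) ^ 2 := by ring
    _ ≤ (1 / L) ^ 2 * ((∑ v ∈ S, |G (hlx Q τ x θ v) (hly Q τ x θ v / L)|) *
          ∑ v ∈ S, |G (hlx Q τ x θ v) (hly Q τ x θ v / L)| * ‖W v‖ ^ 2) :=
        mul_le_mul_of_nonneg_left hcs (by positivity)
    _ = _ := by ring

/-- E10 -/
theorem stTK (hMb : StHMb) (hD : StHDens) : StHTK := by
  intro d Q hQ τ hτ B G hG
  have hG' := gt_abs hG
  obtain ⟨E, hE0, hE⟩ := gt_bd hG'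
  obtain ⟨C, hC⟩ := (hMb d Q hQ B hG.1).2
  refine ⟨|C| * E, fun M R A hR c hc g hg L hL => ?_⟩
  classical
  set G' : ℝ → ℝ → ℝ := fun x y => |G x y| with hG'def
  have hnrm : ∀ w : ℕ × ℝ, ‖sm (hmm Q τ (pin fun _ => True) G' L) w‖ ≤ |C| * E := by
    intro w
    have h1 := hC G' E hG'.2.1 hE (pin fun _ => True) 1 (Adm.pin _).2 (fun v => by
      unfold pin; split_ifs <;> simp) τ L w.1 w.2 hL
    rw [mul_one] at h1
    refine h1.trans (mul_le_mul_of_nonneg_right (le_abs_self _) hE0)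
  have hE0b : ‖Lam M Q τ G' L (pin fun _ => True)‖ ≤ |C| * E := by
    unfold Lam
    refine (norm_ec_le _ (bdd hMb hQ τ hG' hL (Adm.pin _))).trans ?_
    exact (TM M).le_const (bdd hMb hQ τ hG' hL (Adm.pin _)).nrm hnrm
  -- the mean of the square
  set Wf : V → ℂ := fun v => pin (fun _ => True) v * ((‖wt R A c v‖ ^ 2 : ℝ) : ℂ) with hWf
  have hWexp : Wf = fun v => ∑ p ∈ R, ∑ q ∈ R,
      (c p * (starRingEnd ℂ) (c q)) * bb p q (A p) (A q) v := by
    funext v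
    exact expand R A c v
  have hWadm : Adm Wf := by
    rw [hWexp]
    exact Adm.sum _ _ fun p _ => Adm.sum _ _ fun q _ => (bb_adm _ _ _ _).smul _
  have hLW : Lam M Q τ G' L Wf = ∑ p ∈ R, ∑ q ∈ R,
      (c p * (starRingEnd ℂ) (c q)) * Lam M Q τ G' L (bb p q (A p) (A q)) := by
    rw [hWexp, Lam_sum hMb M hQ τ hG' hL R _
      (fun p _ => Adm.sum _ _ fun q _ => (bb_adm _ _ _ _).smul _)]
    apply Finset.sum_congr rfl
    intro p _
    rw [Lam_sum hMb M hQ τ hG' hL R _ (fun q _ => (bb_adm _ _ _ _).smul _)]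
    apply Finset.sum_congr rfl
    intro q _
    rw [Lam_smul hMb M hQ τ hG' hL _ (bb_adm _ _ _ _)]
  have hbb : ∀ p q : ℕ, ∀ A A' : V → Prop, Lam M Q τ G' L (bb p q A A') =
      Lam M Q τ G' L (pin fun v => A v ∧ A' v) + (-(1 / ((q : ℂ) + 1))) * Lam M Q τ G' L (pin A) +
      ((-(1 / ((p : ℂ) + 1))) * Lam M Q τ G' L (pin A') +
      (1 / ((p : ℂ) + 1) * (1 / ((q : ℂ) + 1))) * Lam M Q τ G' L (pin fun _ => True)) := by
    intro p q A A'
    unfold bb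
    rw [Lam_add hMb M hQ τ hG' hL ((Adm.pin _).add ((Adm.pin _).smul _))
      (((Adm.pin _).smul _).add ((Adm.pin _).smul _)),
      Lam_add hMb M hQ τ hG' hL (Adm.pin _) ((Adm.pin _).smul _),
      Lam_add hMb M hQ τ hG' hL ((Adm.pin _).smul _) ((Adm.pin _).smul _),
      Lam_smul hMb M hQ τ hG' hL _ (Adm.pin _), Lam_smul hMb M hQ τ hG' hL _ (Adm.pin _),
      Lam_smul hMb M hQ τ hG' hL _ (Adm.pin _)]
  have hoff : ∀ p ∈ R, ∀ q ∈ R, q ≠ p → Lam M Q τ G' L (bb p q (A p) (A q)) = 0 := by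
    intro p hp q hq hqp
    have h1 := hD M d Q hQ τ hτ B G' hG' L hL p (A p) (hR p hp).1 (hR p hp).2
    have h2 := hD M d Q hQ τ hτ B G' hG' L hL q (A q) (hR q hq).1 (hR q hq).2
    rw [hbb]
    have h3 : Lam M Q τ G' L (pin (A p)) = _ := h1.1
    have h4 : Lam M Q τ G' L (pin (A q)) = _ := h2.1
    have h5 : Lam M Q τ G' L (pin fun v => A p v ∧ A q v) = _ :=
      h1.2 q (A q) (hR q hq).1 hqp (hR q hq).2
    have h6 : Lam M Q τ G' L (pin fun _ => True) = ec (TM M) (sm (hmm Q τ (pin fun _ => True) G' L)) :=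
      rfl
    rw [h3, h4, h5, h6]
    have h7 : ((p : ℂ) + 1) ≠ 0 := by exact_mod_cast Nat.succ_ne_zero p
    have h8 : ((q : ℂ) + 1) ≠ 0 := by exact_mod_cast Nat.succ_ne_zero q
    field_simp
    ring
  have hdia : ∀ p ∈ R, Lam M Q τ G' L (bb p p (A p) (A p)) =
      (1 / ((p : ℂ) + 1) - 1 / ((p : ℂ) + 1) * (1 / ((p : ℂ) + 1))) *
        Lam M Q τ G' L (pin fun _ => True) := by
    intro p hp
    have h1 := hD M d Q hQ τ hτ B G' hG' L hL p (A p) (hR p hp).1 (hR p hp).2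
    rw [hbb]
    have h3 : Lam M Q τ G' L (pin (A p)) = _ := h1.1
    have h5 : (fun v => A p v ∧ A p v) = A p := by
      funext v; exact propext (and_self_iff)
    have h6 : Lam M Q τ G' L (pin fun _ => True) = ec (TM M) (sm (hmm Q τ (pin fun _ => True) G' L)) :=
      rfl
    rw [h5, h3, h6]
    ring
  have hsum : Lam M Q τ G' L Wf = ∑ p ∈ R, (c p * (starRingEnd ℂ) (c p)) *
      ((1 / ((p : ℂ) + 1) - 1 / ((p : ℂ) + 1) * (1 / ((p : ℂ) + 1))) *
        Lam M Q τ G' L (pin fun _ => True)) := by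
    rw [hLW]
    apply Finset.sum_congr rfl
    intro p hp
    rw [Finset.sum_eq_single_of_mem p hp]
    · rw [hdia p hp]
    · intro q hq hqp
      rw [hoff p hp q hq hqp, mul_zero]
  have hbound : ‖Lam M Q τ G' L Wf‖ ≤ |C| * E * ∑ p ∈ R, 1 / (p : ℝ) := by
    rw [hsum, Finset.mul_sum]
    refine (norm_sum_le _ _).trans (Finset.sum_le_sum fun p hp => ?_)
    have hp1 : (0 : ℝ) < p := by exact_mod_cast (hR p hp).1.pos
    rw [norm_mul (c p * (starRingEnd ℂ) (c p)),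
      norm_mul (1 / ((p : ℂ) + 1) - 1 / ((p : ℂ) + 1) * (1 / ((p : ℂ) + 1)))]
    have h1 : ‖c p * (starRingEnd ℂ) (c p)‖ ≤ 1 := by
      rw [norm_mul, Complex.norm_conj]
      exact mul_le_one₀ (hc p) (norm_nonneg _) (hc p)
    have h2 : ‖(1 / ((p : ℂ) + 1) - 1 / ((p : ℂ) + 1) * (1 / ((p : ℂ) + 1)))‖ ≤ 1 / p := by
      have h3 : (1 / ((p : ℂ) + 1) - 1 / ((p : ℂ) + 1) * (1 / ((p : ℂ) + 1))) =
          ((1 / ((p : ℝ) + 1) - 1 / ((p : ℝ) + 1) * (1 / ((p : ℝ) + 1)) : ℝ) : ℂ) := by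
        push_cast; rfl
      rw [h3, Complex.norm_real, Real.norm_eq_abs]
      have h4 : 0 < 1 / ((p : ℝ) + 1) := by positivity
      have h5 : 1 / ((p : ℝ) + 1) ≤ 1 := by
        rw [div_le_one (by positivity)]; linarith
      have h6 : 1 / ((p : ℝ) + 1) ≤ 1 / p := by
        apply one_div_le_one_div_of_le hp1; linarith
      rw [abs_of_nonneg (by nlinarith)]
      nlinarith [mul_pos h4 h4]
    have h3 : 0 ≤ ‖(1 / ((p : ℂ) + 1) - 1 / ((p : ℂ) + 1) * (1 / ((p : ℂ) + 1)))‖ *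
        ‖Lam M Q τ G' L (pin fun _ => True)‖ := by positivity
    calc _ ≤ 1 * (‖(1 / ((p : ℂ) + 1) - 1 / ((p : ℂ) + 1) * (1 / ((p : ℂ) + 1)))‖ *
        ‖Lam M Q τ G' L (pin fun _ => True)‖) := mul_le_mul_of_nonneg_right h1 h3
      _ ≤ 1 * (1 / p * (|C| * E)) := by
          apply mul_le_mul_of_nonneg_left _ zero_le_one
          exact mul_le_mul h2 hE0b (norm_nonneg _) (by positivity)
      _ = |C| * E * (1 / (p : ℝ)) := by ring
  -- conclusion
  have hS0 : 0 ≤ ∑ p ∈ R, 1 / (p : ℝ) := Finset.sum_nonneg fun p _ => by positivity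
  have hF : CBdd (fun w => sm (hmm Q τ (fun v => g v * wt R A c v) G L) w) := by
    refine bdd hMb hQ τ hG hL ⟨?_, fun v hv => hg.2 v (left_ne_zero_of_mul hv)⟩
    refine ⟨∑ p ∈ R, 2, fun v => ?_⟩
    rw [norm_mul]
    have h1 : ‖wt R A c v‖ ≤ ∑ p ∈ R, (2 : ℝ) := by
      unfold wt
      refine (norm_sum_le _ _).trans (Finset.sum_le_sum fun p hp => ?_)
      rw [norm_mul]
      have h2 : ‖((if A p v then 1 else 0 : ℂ) - 1 / ((p : ℂ) + 1))‖ ≤ 2 := by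
        refine (norm_sub_le _ _).trans ?_
        have h3 : ‖(if A p v then 1 else 0 : ℂ)‖ ≤ 1 := by split_ifs <;> simp
        have h4 : ‖(1 / ((p : ℂ) + 1))‖ ≤ 1 := by
          have h5 : (1 / ((p : ℂ) + 1)) = ((1 / ((p : ℝ) + 1) : ℝ) : ℂ) := by push_cast; rfl
          rw [h5, Complex.norm_real, Real.norm_eq_abs, abs_of_nonneg (by positivity),
            div_le_one (by positivity)]
          have : (0 : ℝ) ≤ p := Nat.cast_nonneg p
          linarith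
        linarith
      calc ‖c p‖ * ‖((if A p v then 1 else 0 : ℂ) - 1 / ((p : ℂ) + 1))‖ ≤ 1 * 2 :=
            mul_le_mul (hc p) h2 (norm_nonneg _) zero_le_one
        _ = 2 := one_mul _
    have h2 := hg.1 v
    calc ‖g v‖ * ‖wt R A c v‖ ≤ 1 * ∑ p ∈ R, (2 : ℝ) :=
          mul_le_mul h2 h1 (norm_nonneg _) zero_le_one
      _ = _ := one_mul _
  have hY : Bdd (fun w => (sm (hmm Q τ Wf G' L) w).re) := (bdd hMb hQ τ hG' hL hWadm).re
  have hYE : (TM M).E (fun w => (sm (hmm Q τ Wf G' L) w).re) ≤ |C| * E * ∑ p ∈ R, 1 / (p : ℝ) := by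
    have h1 : (TM M).E (fun w => (sm (hmm Q τ Wf G' L) w).re) = (Lam M Q τ G' L Wf).re := by
      unfold Lam ec
      simp
    rw [h1]
    exact (Complex.re_le_norm _).trans hbound
  have hsq : (TM M).E (fun w => ‖sm (hmm Q τ (fun v => g v * wt R A c v) G L) w‖ ^ 2) ≤
      (|C| * E) ^ 2 * ∑ p ∈ R, 1 / (p : ℝ) := by
    have h1 : (TM M).E (fun w => ‖sm (hmm Q τ (fun v => g v * wt R A c v) G L) w‖ ^ 2) ≤
        (TM M).E (fun w => (|C| * E) * (sm (hmm Q τ Wf G' L) w).re) := by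
      apply (TM M).mono hF.nrm2 (hY.smul _)
      intro w
      have h2 := cs_point hMb hQ τ hG hL hg (wt R A c) w.1 w.2
      refine h2.1.trans ?_
      exact mul_le_mul_of_nonneg_right (hnrm w) h2.2
    rw [(TM M).smul _ _ hY] at h1
    refine h1.trans ?_
    have h3 : 0 ≤ |C| * E := by positivity
    have := mul_le_mul_of_nonneg_left hYE h3
    refine this.trans (le_of_eq (by ring))
  refine (E_norm_le_n2 _ hF).trans ?_
  unfold n2
  have h3 : 0 ≤ |C| * E := by positivity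
  calc √((TM M).E (fun w => ‖sm (hmm Q τ (fun v => g v * wt R A c v) G L) w‖ ^ 2)) ≤
      √((|C| * E) ^ 2 * ∑ p ∈ R, 1 / (p : ℝ)) := Real.sqrt_le_sqrt hsq
    _ = |C| * E * √(∑ p ∈ R, 1 / (p : ℝ)) := by
        rw [Real.sqrt_mul (sq_nonneg _), Real.sqrt_sq h3]

end TK26

/-- E10 -/
theorem stHTK_26 (hMb : StHMb) (hD : StHDens) : StHTK := TK26.stTK hMb hD

end Pool.Agent.Lib.MP_a17b09_nt.HY
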