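import Pool.Agent.Lib.MP_a17b09_nt.HY.Stmts20
import Pool.Agent.Lib.MP_a17b09_nt.CH.Rep68

/-!
Project HY, row F2: weights modulo `K` (helper68).
-/

set_option autoImplicit false

open Finset

namespace Pool.Agent.Lib.MP_a17b09_nt.HY

open Pool.Agent.Lib.MP_a17b09_nt.CH

/-- (F2) -/
theorem stHWt_68 : StHWt := by
  intro ι _ S w hw K hK φ hφ
  refine ⟨?_, ?_, ?_⟩
  · intro i v v' a b
    have e1 : (S.Q i).q (v + (K : ℤ) • a) = (S.Q i).q v +
        K * ((S.Q i).B v a + K * (S.Q i).q a) := by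
      unfold Form.q Form.B; simp; ring
    have e2 : (S.Q i).q (v' + (K : ℤ) • b) = (S.Q i).q v' +
        K * ((S.Q i).B v' b + K * (S.Q i).q b) := by
      unfold Form.q Form.B; simp; ring
    have e3 : (S.Q i).B (v + (K : ℤ) • a) (v' + (K : ℤ) • b) = (S.Q i).B v v' +
        K * ((S.Q i).B v b + (S.Q i).B a v' + K * (S.Q i).B a b) := by
      unfold Form.B; simp; ring
    rw [e1, e2, e3, hφ]
  · intro p hp h4 hpK i u u'
    have hpol : (S.Q i).B ((S.M p i).app u) ((S.M p i).app u') = p * (S.Q (S.s p i)).B u u' := by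
      have h1 := S.sim p hp h4 i (u + u')
      have h2 : (S.M p i).app (u + u') = (S.M p i).app u + (S.M p i).app u' := by
        unfold Mat.app; ext <;> simp <;> ring
      rw [h2, Form.q_add, Form.q_add, S.sim p hp h4, S.sim p hp h4] at h1
      linarith
    obtain ⟨m, hm⟩ : ∃ m : ℤ, (p : ℤ) = 1 + K * m := by
      have h1 : (K : ℤ) ∣ (p : ℤ) - 1 := by
        have := (Nat.modEq_iff_dvd.1 hpK.symm)
        simpa using this
      obtain ⟨m, hm⟩ := h1
      exact ⟨m, by linarith⟩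
    rw [S.sim p hp h4, S.sim p hp h4, hpol, hw p hp h4 i, hm]
    have e1 : ∀ x : ℤ, (1 + (K : ℤ) * m) * x = x + K * (m * x) := fun x => by ring
    rw [e1, e1, e1, hφ]
  · intro i a v v'
    beta_reduce
    rw [q_act (S.hyp i), q_act (S.hyp i), B_act (S.hyp i)]

end Pool.Agent.Lib.MP_a17b09_nt.HY
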