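import Pool.Agent.Lib.MP_a17b09_nt.HY.Sys68
import Pool.Agent.Lib.MP_a17b09_nt.HY.Wt68
import Pool.Agent.Lib.MP_a17b09_nt.CH.TwM68

/-!
Project HY, row F8: the twisted theorem for positive discriminant (helper68).
-/

set_option autoImplicit false

open Filter Topology Finset

namespace Pool.Agent.Lib.MP_a17b09_nt.HY

open Pool.Agent.Lib.MP_a17b09_nt.CH
open Pool.Agent.Lib.MP_a17b09_nt.CH.G68 (cnd phi norm_phi phi_per val1 fm fm_D)

namespace H68

theorem fv_pos {a b c : ℤ} (ha : 0 < a) {t : ℕ} (ht : |b| + |c| < t) :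
    0 < fv a b c t ∧ 0 < 2 * a * (t : ℤ) + b := by
  have hb := abs_nonneg b
  have hc := abs_nonneg c
  have hb1 := neg_abs_le b
  have hc1 := neg_abs_le c
  have ht0 : (0 : ℤ) < t := by linarith
  have hat : (t : ℤ) ≤ a * t := by nlinarith
  constructor
  · unfold fv
    have h1 : (t : ℤ) ^ 2 ≤ a * (t : ℤ) ^ 2 := by nlinarith [sq_nonneg (t : ℤ)]
    have h2 : -(|b| * t) ≤ b * t := by nlinarith
    have h3 : (|b| + |c| + 1) * (t : ℤ) ≤ (t : ℤ) * t := by nlinarith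
    nlinarith
  · nlinarith

theorem mem_near {a b c : ℤ} {α β : ℝ} {t d : ℕ} (hf : 0 < fv a b c t) :
    d ∈ nearG a b c α β t ↔ (d : ℤ) ∣ fv a b c t ∧ α * t ≤ (d : ℝ) ∧ (d : ℝ) ≤ β * t := by
  unfold nearG
  rw [Finset.mem_filter, Nat.mem_divisors, ← Int.natCast_dvd]
  have h2 : (fv a b c t).natAbs ≠ 0 := Int.natAbs_ne_zero.2 hf.ne'
  constructor
  · rintro ⟨⟨h3, -⟩, h4⟩; exact ⟨h3, h4⟩
  · rintro ⟨h3, h4⟩; exact ⟨⟨h3, h2⟩, h4⟩

/-- frames over the sector with given values -/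
def PH (Q : Form) (T : ℝ) (A B C : ℤ) : Set (V × V) :=
  {f | wd f.1 f.2 = 1 ∧ Sec Q T f.1 ∧ Cn Q f.2 ∧ Q.q f.1 = A ∧ Q.B f.1 f.2 = B ∧ Q.q f.2 = C}

theorem forward {a b c : ℤ} (ha : 0 < a) {D : ℕ} {Q : Form} (hQ : Hyp D Q)
    (hQD : Q.D = 4 * a * c - b ^ 2) {T : ℝ} {h t0 : ℕ} {α β : ℝ}
    {T0 N : ℕ} (hT0 : |b| + |c| < T0) {f : V × V} (hf : f ∈ HFG Q T a b α β T0 N)
    (hc : cnd a b h t0 (Q.B f.1 f.2) (Q.q f.2)) :
    ∃ t d : ℕ, t ∈ Finset.Icc T0 N ∧ t ≡ t0 [MOD h] ∧ d ∈ nearG a b c α β t ∧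
      f ∈ PH Q T d (2 * a * t + b) (a * (fv a b c t / d)) := by
  obtain ⟨hw, hs, hcn, hf2, hf3, hf4, hf5⟩ := hf
  have ha' : (0 : ℝ) < a := by exact_mod_cast ha
  obtain ⟨⟨e, he⟩, ⟨m, hm⟩⟩ := hc
  -- the integer t
  have hB : Q.B f.1 f.2 = 2 * a * (t0 + h * m) + b := by linarith
  have htp : (tp Q a b f : ℝ) = ((t0 + h * m : ℤ) : ℝ) := by
    unfold tp
    rw [hB]
    push_cast
    field_simp
    ring
  have hT0p : (0 : ℤ) < T0 := by
    have := abs_nonneg b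
    have := abs_nonneg c
    linarith
  have hpos : 0 < (t0 + h * m : ℤ) := by
    rw [htp] at hf2
    have h1 : ((T0 : ℤ) : ℝ) ≤ ((t0 + h * m : ℤ) : ℝ) := by exact_mod_cast hf2
    have h2 : (T0 : ℤ) ≤ t0 + h * m := by exact_mod_cast h1
    linarith
  obtain ⟨t, ht⟩ : ∃ t : ℕ, (t0 + h * m : ℤ) = t := ⟨_, (Int.toNat_of_nonneg hpos.le).symm⟩
  rw [ht] at hB htp
  have htp' : (tp Q a b f : ℝ) = (t : ℝ) := by rw [htp]; norm_num
  have hqp : 0 < Q.q f.1 := hs.1.q_pos hQ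
  obtain ⟨d, hd⟩ : ∃ d : ℕ, Q.q f.1 = d := ⟨_, (Int.toNat_of_nonneg hqp.le).symm⟩
  have hkey := Q.key f.1 f.2
  rw [hw, hB, hQD, hd, he] at hkey
  have hde : (d : ℤ) * e = fv a b c t := by
    have h1 : 4 * a * ((d : ℤ) * e) = 4 * a * fv a b c t := by
      unfold fv
      linarith
    exact mul_left_cancel₀ (by positivity) h1
  have hd0 : (d : ℤ) ≠ 0 := by
    rw [hd] at hqp
    exact hqp.ne'
  have hdiv : fv a b c t / d = e := by
    rw [← hde]; exact Int.mul_ediv_cancel_left e hd0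
  have hqd : (Q.q f.1 : ℝ) = d := by rw [hd]; norm_num
  rw [htp'] at hf2 hf3 hf4 hf5
  rw [hqd] at hf4 hf5
  have htT : T0 ≤ t := by exact_mod_cast hf2
  have htZ : |b| + |c| < (t : ℤ) := hT0.trans_le (by exact_mod_cast htT)
  refine ⟨t, d, Finset.mem_Icc.2 ⟨htT, by exact_mod_cast hf3⟩, ?_, ?_, ?_⟩
  · have h1 : ((t : ℕ) : ℤ) ≡ t0 [ZMOD h] := by
      rw [← ht]
      exact (Int.modEq_iff_dvd.2 ⟨-m, by ring⟩)
    exact_mod_cast (Int.natCast_modEq_iff.1 h1)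
  · rw [mem_near (fv_pos ha htZ).1]
    exact ⟨⟨e, hde.symm⟩, hf4, hf5⟩
  · exact ⟨hw, hs, hcn, hd, hB, by rw [he, hdiv]⟩

theorem backward {a b c : ℤ} (ha : 0 < a) {Q : Form} {T : ℝ}
    {h t0 : ℕ} {α β : ℝ} {T0 N : ℕ} (hT0 : |b| + |c| < T0) {t d : ℕ} (ht : t ∈ Finset.Icc T0 N)
    (hth : t ≡ t0 [MOD h]) (hd : d ∈ nearG a b c α β t) {f : V × V}
    (hf : f ∈ PH Q T d (2 * a * t + b) (a * (fv a b c t / d))) :
    f ∈ HFG Q T a b α β T0 N ∧ cnd a b h t0 (Q.B f.1 f.2) (Q.q f.2) := by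
  obtain ⟨hw, hs, hcn, h1, h2, h3⟩ := hf
  rw [Finset.mem_Icc] at ht
  have htZ : |b| + |c| < (t : ℤ) := hT0.trans_le (by exact_mod_cast ht.1)
  rw [mem_near (fv_pos ha htZ).1] at hd
  obtain ⟨-, h4, h5⟩ := hd
  have ha' : (0 : ℝ) < a := by exact_mod_cast ha
  have htp : (tp Q a b f : ℝ) = t := by
    unfold tp
    rw [h2]
    push_cast
    field_simp
    ring
  have hq : (Q.q f.1 : ℝ) = d := by rw [h1]; norm_num
  refine ⟨⟨hw, hs, hcn, ?_, ?_, ?_, ?_⟩, ⟨⟨_, h3⟩, ?_⟩⟩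
  · rw [htp]; exact_mod_cast ht.1
  · rw [htp]; exact_mod_cast ht.2
  · rw [htp, hq]; exact h4
  · rw [htp, hq]; exact h5
  · have e1 : (h : ℤ) ∣ (t : ℤ) - t0 := by
      have := (Nat.modEq_iff_dvd.1 hth.symm)
      exact this
    obtain ⟨m, hm⟩ := e1
    refine ⟨m, ?_⟩
    rw [h2]
    have : (2 * a * (t : ℤ) + b) - b - 2 * a * t0 = 2 * a * ((t : ℤ) - t0) := by ring
    rw [this, hm]; ring

/-- the weight of the system -/
noncomputable def omH {ι : Type} (S : HSystem ι) (w : ι → ℕ) (a b : ℤ) (h t0 : ℕ) (i : ι)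
    (v v' : V) : ℂ :=
  (1 / (w i : ℂ)) * phi a b h t0 ((S.Q i).q v) ((S.Q i).B v v') ((S.Q i).q v')

theorem term_eq {a b c : ℤ} (ha : 0 < a) {ι : Type} (S : HSystem ι)
    (w : ι → ℕ) (z1 z2 : ℂ) {T : ℝ} {h t0 : ℕ} {α β : ℝ}
    {T0 N : ℕ} (hT0 : |b| + |c| < T0) {t d : ℕ} (ht : t ∈ Finset.Icc T0 N)
    (hth : t ≡ t0 [MOD h]) (hd : d ∈ nearG a b c α β t) (i : ι) {f : V × V}
    (hf : f ∈ PH (S.Q i) T d (2 * a * t + b) (a * (fv a b c t / d))) :
    kerH S z1 z2 (omH S w a b h t0) i f.1 f.2 = (1 / (w i : ℂ)) * val1 a b c z1 z2 t d := by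
  have hb := backward ha hT0 ht hth hd hf
  obtain ⟨-, hc⟩ := hb
  obtain ⟨hw, hs, hcn, h1, h2, h3⟩ := hf
  rw [Finset.mem_Icc] at ht
  have htZ : |b| + |c| < (t : ℤ) := hT0.trans_le (by exact_mod_cast ht.1)
  have hfv := (fv_pos ha htZ).1
  have hdv := ((mem_near hfv).1 hd).1
  have hd0 : d ≠ 0 := by
    rintro rfl
    have h4 := hs.1.q_pos (S.hyp i)
    rw [h1] at h4
    simp at h4
  have hphi : phi a b h t0 ((S.Q i).q f.1) ((S.Q i).B f.1 f.2) ((S.Q i).q f.2) = 1 := by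
    unfold phi
    rw [if_pos hc]
  have hna : (a * (fv a b c t / d)).natAbs = a.natAbs * ((fv a b c t).natAbs / d) := by
    rw [Int.natAbs_mul, Int.natAbs_ediv_of_dvd hdv]
    simp
  have hne : (fv a b c t).natAbs / d ≠ 0 := by
    have h4 : d ∣ (fv a b c t).natAbs := Int.natCast_dvd.1 hdv
    have h5 : 0 < (fv a b c t).natAbs := Int.natAbs_pos.2 hfv.ne'
    exact (Nat.div_pos (Nat.le_of_dvd h5 h4) (Nat.pos_of_ne_zero hd0)).ne'
  have hcf : ArithmeticFunction.cardFactors (a.natAbs * ((fv a b c t).natAbs / d)) =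
      Omn a.natAbs + Omn ((fv a b c t).natAbs / d) := by
    unfold Omn
    exact ArithmeticFunction.cardFactors_mul (Int.natAbs_pos.2 ha.ne').ne' hne
  unfold kerH omH gz val1
  rw [hphi, h1, h3, hna, hcf, Int.natAbs_natCast]
  unfold Omn
  ring

open Classical in
theorem sum_i {a b c : ℤ} (ha : 0 < a) {ι : Type} (S : HSystem ι)
    (hSd : (S.d : ℤ) = b ^ 2 - 4 * a * c)
    (w : ι → ℕ) (z1 z2 : ℂ) {T : ℝ} {h t0 : ℕ} {α β : ℝ}
    {T0 N : ℕ} (hT0 : |b| + |c| < T0) (i : ι) (hfin : (HFG (S.Q i) T a b α β T0 N).Finite)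
    (hfinP : ∀ t ∈ Finset.Icc T0 N, ∀ d ∈ nearG a b c α β t,
      (PH (S.Q i) T d (2 * a * t + b) (a * (fv a b c t / d))).Finite) :
    ∑ f ∈ hfin.toFinset, kerH S z1 z2 (omH S w a b h t0) i f.1 f.2 =
    ∑ p ∈ ((Finset.Icc T0 N).filter (fun t => t ≡ t0 [MOD h])).sigma
      (fun t => nearG a b c α β t),
      (((PH (S.Q i) T p.2 (2 * a * p.1 + b) (a * (fv a b c p.1 / p.2))).ncard : ℂ) / w i) *
        val1 a b c z1 z2 p.1 p.2 := by
  have hQD : (S.Q i).D = 4 * a * c - b ^ 2 := by rw [(S.hyp i).disc, hSd]; ring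
  have e1 : ∑ f ∈ hfin.toFinset, kerH S z1 z2 (omH S w a b h t0) i f.1 f.2 =
      ∑ f ∈ hfin.toFinset.filter
        (fun f => cnd a b h t0 ((S.Q i).B f.1 f.2) ((S.Q i).q f.2)),
      kerH S z1 z2 (omH S w a b h t0) i f.1 f.2 := by
    symm
    apply Finset.sum_subset (Finset.filter_subset _ _)
    intro f hf1 hf2
    have hn : ¬ cnd a b h t0 ((S.Q i).B f.1 f.2) ((S.Q i).q f.2) := fun hc =>
      hf2 (Finset.mem_filter.2 ⟨hf1, hc⟩)
    unfold kerH omH phi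
    rw [if_neg hn]
    ring
  rw [e1]
  let g : V × V → (Σ _ : ℕ, ℕ) := fun f =>
    ⟨(((S.Q i).B f.1 f.2 - b) / (2 * a)).toNat, ((S.Q i).q f.1).toNat⟩
  have hgv : ∀ (t d : ℕ) (f : V × V), (S.Q i).q f.1 = d → (S.Q i).B f.1 f.2 = 2 * a * t + b →
      g f = ⟨t, d⟩ := by
    intro t d f h1 h2
    simp only [g]
    rw [h1, h2]
    have h3 : (2 * a * (t : ℤ) + b - b) / (2 * a) = t := by
      have : 2 * a * (t : ℤ) + b - b = (2 * a) * t := by ring
      rw [this]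
      exact Int.mul_ediv_cancel_left _ (by positivity)
    rw [h3]
    simp
  rw [← Finset.sum_fiberwise_of_maps_to (g := g) (t := ((Finset.Icc T0 N).filter
    (fun t => t ≡ t0 [MOD h])).sigma (fun t => nearG a b c α β t))]
  · apply Finset.sum_congr rfl
    rintro ⟨t, d⟩ hp
    rw [Finset.mem_sigma, Finset.mem_filter] at hp
    obtain ⟨⟨ht, hth⟩, hd⟩ := hp
    have hP := hfinP t ht d hd
    have hset : (hfin.toFinset.filter
        (fun f => cnd a b h t0 ((S.Q i).B f.1 f.2) ((S.Q i).q f.2))).filter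
        (fun f => g f = ⟨t, d⟩) = hP.toFinset := by
      ext f
      rw [Finset.mem_filter, Finset.mem_filter, Set.Finite.mem_toFinset,
        Set.Finite.mem_toFinset]
      constructor
      · rintro ⟨⟨hf1, hf2⟩, hf3⟩
        obtain ⟨t', d', h1, h2, h3, h4⟩ := forward ha (S.hyp i) hQD hT0 hf1 hf2
        have h6 := hgv t' d' f h4.2.2.2.1 h4.2.2.2.2.1
        rw [hf3] at h6
        simp only [Sigma.mk.injEq, heq_eq_eq] at h6
        obtain ⟨rfl, rfl⟩ := h6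
        exact h4
      · intro hf
        have hb := backward ha hT0 ht hth hd hf
        exact ⟨⟨hb.1, hb.2⟩, hgv t d f hf.2.2.2.1 hf.2.2.2.2.1⟩
    rw [hset, Finset.sum_congr rfl (g := fun _ => (1 / (w i : ℂ)) * val1 a b c z1 z2 t d)]
    · rw [Finset.sum_const, nsmul_eq_mul, Set.ncard_eq_toFinset_card _ hP]
      ring
    · intro f hf
      rw [Set.Finite.mem_toFinset] at hf
      exact term_eq ha S w z1 z2 hT0 ht hth hd i hf
  · intro f hf
    rw [Finset.mem_filter, Set.Finite.mem_toFinset] at hf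
    obtain ⟨t, d, h1, h2, h3, h4⟩ := forward ha (S.hyp i) hQD hT0 hf.1 hf.2
    rw [hgv t d f h4.2.2.2.1 h4.2.2.2.2.1, Finset.mem_sigma, Finset.mem_filter]
    exact ⟨⟨h1, h2⟩, h3⟩

theorem main_id {a b c : ℤ} (ha : 0 < a) {ι : Type} [Fintype ι]
    (S : HSystem ι) (hSd : (S.d : ℤ) = b ^ 2 - 4 * a * c) (w : ι → ℕ) {T : ℝ}
    (hF : ∀ F : Form, 0 < F.a → 0 < F.b → 0 < F.c → F.D = -(S.d : ℤ) →
      (∀ i, (PH (S.Q i) T F.a F.b F.c).Finite) ∧
      ∑ i, (((PH (S.Q i) T F.a F.b F.c).ncard : ℂ) / w i) = 1)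
    (z1 z2 : ℂ) {h t0 : ℕ} {α β : ℝ} {T0 N : ℕ} (hT0 : |b| + |c| < T0)
    (hfin : ∀ i, (HFG (S.Q i) T a b α β T0 N).Finite) :
    ∑ i, ∑ᶠ f ∈ HFG (S.Q i) T a b α β T0 N, kerH S z1 z2 (omH S w a b h t0) i f.1 f.2 =
    z2 ^ Omn a.natAbs * ∑ t ∈ (Finset.Icc T0 N).filter (fun t => t ≡ t0 [MOD h]),
      ∑ d ∈ nearG a b c α β t, z1 ^ Omn d * z2 ^ Omn ((fv a b c t).natAbs / d) := by
  -- the forms of the pairs
  have hform : ∀ t ∈ Finset.Icc T0 N, ∀ d ∈ nearG a b c α β t,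
      0 < (fm a b c t d).a ∧ 0 < (fm a b c t d).b ∧ 0 < (fm a b c t d).c ∧
        (fm a b c t d).D = -(S.d : ℤ) := by
    intro t ht d hd
    rw [Finset.mem_Icc] at ht
    have htZ : |b| + |c| < (t : ℤ) := hT0.trans_le (by exact_mod_cast ht.1)
    obtain ⟨h1, h2⟩ := fv_pos ha htZ
    have hdv := ((mem_near h1).1 hd).1
    have hd0 : 0 < d := by
      rcases Nat.eq_zero_or_pos d with h0 | h0
      · exfalso
        rw [h0, Nat.cast_zero, zero_dvd_iff] at hdv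
        omega
      · exact h0
    have hd0' : (0 : ℤ) < d := by exact_mod_cast hd0
    refine ⟨hd0', h2, ?_, by rw [fm_D hdv, hSd]; ring⟩
    obtain ⟨e, he⟩ := hdv
    have h3 : fv a b c t / d = e := by rw [he]; exact Int.mul_ediv_cancel_left e hd0'.ne'
    have h4 : 0 < e := by
      rw [he] at h1
      exact (mul_pos_iff_of_pos_left hd0').1 h1
    change 0 < a * (fv a b c t / d)
    rw [h3]
    exact mul_pos ha h4
  have e0 : ∀ i, ∑ᶠ f ∈ HFG (S.Q i) T a b α β T0 N, kerH S z1 z2 (omH S w a b h t0) i f.1 f.2 =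
      ∑ p ∈ ((Finset.Icc T0 N).filter (fun t => t ≡ t0 [MOD h])).sigma
      (fun t => nearG a b c α β t),
      (((PH (S.Q i) T p.2 (2 * a * p.1 + b) (a * (fv a b c p.1 / p.2))).ncard : ℂ) / w i) *
        val1 a b c z1 z2 p.1 p.2 := by
    intro i
    rw [finsum_mem_eq_finite_toFinset_sum _ (hfin i)]
    refine sum_i ha S hSd w z1 z2 hT0 i (hfin i) fun t ht d hd => ?_
    obtain ⟨h1, h2, h3, h4⟩ := hform t ht d hd
    exact (hF _ h1 h2 h3 h4).1 i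
  rw [Finset.sum_congr rfl (fun i _ => e0 i), Finset.sum_comm]
  have e1 : ∀ p ∈ ((Finset.Icc T0 N).filter (fun t => t ≡ t0 [MOD h])).sigma
      (fun t => nearG a b c α β t),
      ∑ i, (((PH (S.Q i) T p.2 (2 * a * p.1 + b) (a * (fv a b c p.1 / p.2))).ncard : ℂ) / w i) *
        val1 a b c z1 z2 p.1 p.2 = val1 a b c z1 z2 p.1 p.2 := by
    rintro ⟨t, d⟩ hp
    rw [Finset.mem_sigma, Finset.mem_filter] at hp
    obtain ⟨⟨ht, hth⟩, hd⟩ := hp
    simp only at hd ⊢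
    obtain ⟨h1, h2, h3, h4⟩ := hform t ht d hd
    have h5 := (hF _ h1 h2 h3 h4).2
    rw [← Finset.sum_mul]
    have h6 : ∑ i, (((PH (S.Q i) T d (2 * a * t + b) (a * (fv a b c t / d))).ncard : ℂ) /
      w i) = 1 := h5
    rw [h6, one_mul]
  rw [Finset.sum_congr rfl e1, Finset.sum_sigma, Finset.mul_sum]
  apply Finset.sum_congr rfl
  intro t _
  rw [Finset.mul_sum]
  apply Finset.sum_congr rfl
  intro d _
  unfold val1
  rw [pow_add]
  ring

end H68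

/-- the twisted theorem from Theorem E for the pair of roots of unity -/
theorem twH_68 (hAm : StHAm) (hFm : StHFm) {z1 z2 : ℂ} {k : ℕ} (hk : 0 < k) (hz1 : z1 ^ k = 1)
    (hz2 : z2 ^ k = 1) (hEs : ∀ (ι : Type) [Fintype ι] (S : HSystem ι), HEsFor S z1 z2)
    {a b c : ℤ} (ha : 0 < a) {d : ℕ} (hd : b ^ 2 - 4 * a * c = d) (hns : ¬ IsSquare d)
    {h : ℕ} (hh : 0 < h) (t0 : ℕ) {α β : ℝ} (hα : 0 < α) (hβ : α < β) (M : LMean) :
    M.E (fun N : ℕ => ‖TwN a b c α β h t0 z1 z2 N‖ / N) = 0 := by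
  obtain ⟨ι, hι, S, w, e, hSd, he, hw0, hws, hF⟩ := stHSys_68 d hns
  have hSd' : (S.d : ℤ) = b ^ 2 - 4 * a * c := by rw [hSd, hd]
  -- the weight
  obtain ⟨K, hK⟩ : ∃ K : ℕ, 2 * a * h = (K : ℤ) :=
    ⟨_, (Int.toNat_of_nonneg (by positivity)).symm⟩
  have hK0 : 0 < K := by
    have hh' : (0 : ℤ) < h := by exact_mod_cast hh
    have : (0 : ℤ) < K := by rw [← hK]; positivity
    exact_mod_cast this
  have hWt : HWt S K (H68.omH S w a b h t0) := by
    apply stHWt_68 ι S w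
    · intro p hp h4 i
      rw [hSd] at h4
      exact hws p hp h4 i
    · exact hK0
    · intro x y z u v t
      rw [← hK]
      exact phi_per a b h t0 x y z u v t
  have hNull := hAm ι S z1 z2 k hk hz1 hz2 (hEs ι S) K hK0 _ hWt e he M
  have hn1 : ‖z1‖ = 1 := Complex.norm_eq_one_of_pow_eq_one hz1 hk.ne'
  have hn2 : ‖z2‖ = 1 := Complex.norm_eq_one_of_pow_eq_one hz2 hk.ne'
  have hbd : ∃ C : ℝ, ∀ i v v', ‖kerH S z1 z2 (H68.omH S w a b h t0) i v v'‖ ≤ C := by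
    refine ⟨1, fun i v v' => ?_⟩
    unfold kerH gz H68.omH
    rw [norm_mul, norm_mul, norm_mul, norm_pow, norm_pow, hn1, hn2, one_pow, one_pow, mul_one,
      mul_one]
    have h1 : ‖(1 / (w i : ℂ))‖ ≤ 1 := by
      rw [norm_div, norm_one, Complex.norm_natCast]
      have : (1 : ℝ) ≤ w i := by exact_mod_cast hw0 i
      rw [div_le_one (by linarith)]
      exact this
    have h2 := norm_phi a b h t0 ((S.Q i).q v) ((S.Q i).B v v') ((S.Q i).q v')
    calc _ ≤ (1 : ℝ) * 1 := mul_le_mul h1 h2 (norm_nonneg _) zero_le_one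
      _ = 1 := one_mul 1
  let T0 : ℕ := b.natAbs + c.natAbs + 1
  have hT1 : 0 < T0 := Nat.succ_pos _
  have hT0 : |b| + |c| < T0 := by
    simp only [T0]
    push_cast
    linarith
  obtain ⟨hfin, hB, hE⟩ := hFm M ι S.d S.Q S.hyp (per e) (per_pos he) _ hbd hNull a b α β ha hα
    hβ T0 hT1
  -- comparison
  let G : ℕ → ℂ := fun t =>
    ∑ d ∈ nearG a b c α β t, z1 ^ Omn d * z2 ^ Omn ((fv a b c t).natAbs / d)
  let C1 : ℝ := ∑ t ∈ Finset.Icc 1 (T0 - 1), ‖G t‖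
  have hC1 : 0 ≤ C1 := Finset.sum_nonneg (fun _ _ => norm_nonneg _)
  have hcmp : ∀ N : ℕ, ‖TwN a b c α β h t0 z1 z2 N‖ ≤ C1 +
      ‖∑ i, ∑ᶠ f ∈ HFG (S.Q i) (per e) a b α β T0 N,
        kerH S z1 z2 (H68.omH S w a b h t0) i f.1 f.2‖ := by
    intro N
    rw [H68.main_id ha S hSd' w (T := per e) (fun F h1 h2 h3 h4 => hF F h1 h2 h3 (by
      rw [h4, hSd])) z1 z2 hT0 (fun i => hfin i N), norm_mul, norm_pow, hn2, one_pow, one_mul]
    have hsub : (Finset.Icc 1 N).filter (fun t => t ≡ t0 [MOD h]) =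
        ((Finset.Icc 1 N).filter (fun t => t ≡ t0 [MOD h])).filter (fun t => t < T0) ∪
        (Finset.Icc T0 N).filter (fun t => t ≡ t0 [MOD h]) := by
      ext t
      rw [Finset.mem_union, Finset.mem_filter, Finset.mem_filter, Finset.mem_filter,
        Finset.mem_filter, Finset.mem_Icc, Finset.mem_Icc]
      constructor
      · rintro ⟨h1, h2⟩
        by_cases h3 : t < T0
        · exact Or.inl ⟨⟨h1, h2⟩, h3⟩
        · exact Or.inr ⟨⟨by omega, h1.2⟩, h2⟩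
      · rintro (h1 | h1)
        · exact h1.1
        · exact ⟨⟨by omega, h1.1.2⟩, h1.2⟩
    have hdis : Disjoint
        (((Finset.Icc 1 N).filter (fun t => t ≡ t0 [MOD h])).filter (fun t => t < T0))
        ((Finset.Icc T0 N).filter (fun t => t ≡ t0 [MOD h])) := by
      rw [Finset.disjoint_left]
      intro t h1 h2
      rw [Finset.mem_filter] at h1
      rw [Finset.mem_filter, Finset.mem_Icc] at h2
      omega
    have e1 : TwN a b c α β h t0 z1 z2 N =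
        ∑ t ∈ ((Finset.Icc 1 N).filter (fun t => t ≡ t0 [MOD h])).filter (fun t => t < T0), G t +
        ∑ t ∈ (Finset.Icc T0 N).filter (fun t => t ≡ t0 [MOD h]), G t := by
      rw [← Finset.sum_union hdis, ← hsub]
      rfl
    rw [e1]
    refine (norm_add_le _ _).trans (add_le_add ?_ le_rfl)
    refine (norm_sum_le _ _).trans ?_
    apply Finset.sum_le_sum_of_subset_of_nonneg
    · intro t ht
      rw [Finset.mem_filter, Finset.mem_filter, Finset.mem_Icc] at ht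
      rw [Finset.mem_Icc]
      omega
    · intro t _ _
      exact norm_nonneg _
  have hle : ∀ N : ℕ, ‖TwN a b c α β h t0 z1 z2 N‖ / N ≤ C1 / N +
      ‖∑ i, ∑ᶠ f ∈ HFG (S.Q i) (per e) a b α β T0 N,
        kerH S z1 z2 (H68.omH S w a b h t0) i f.1 f.2‖ / N := by
    intro N
    rw [← add_div]
    exact div_le_div_of_nonneg_right (hcmp N) (Nat.cast_nonneg N)
  have hr0 : Tendsto (fun N : ℕ => C1 / (N : ℝ)) atTop (𝓝 0) :=
    tendsto_const_div_atTop_nhds_zero_nat C1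
  have hrB : Bdd (fun N : ℕ => C1 / (N : ℝ)) := by
    refine ⟨C1, fun N => ?_⟩
    rw [abs_of_nonneg (by positivity)]
    rcases Nat.eq_zero_or_pos N with h0 | h0
    · rw [h0]; simpa using hC1
    · apply div_le_self hC1
      exact_mod_cast h0
  have hfB : Bdd (fun N : ℕ => ‖TwN a b c α β h t0 z1 z2 N‖ / N) := by
    obtain ⟨C, hC⟩ := hB
    obtain ⟨C', hC'⟩ := hrB
    refine ⟨C' + C, fun N => ?_⟩
    rw [abs_of_nonneg (by positivity)]
    exact (hle N).trans (add_le_add ((le_abs_self _).trans (hC' N))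
      ((le_abs_self _).trans (hC N)))
  apply le_antisymm
  · calc M.E (fun N : ℕ => ‖TwN a b c α β h t0 z1 z2 N‖ / N)
        ≤ M.E (fun N : ℕ => C1 / (N : ℝ) + ‖∑ i, ∑ᶠ f ∈ HFG (S.Q i) (per e) a b α β T0 N,
          kerH S z1 z2 (H68.omH S w a b h t0) i f.1 f.2‖ / N) :=
          LMean.mono M hfB (Bdd.add hrB hB) hle
      _ = 0 := by
          rw [M.add _ _ hrB hB, M.null _ hrB hr0, hE, add_zero]
  · exact M.nonneg _ hfB (fun N => by positivity)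

/-- (F8) -/
theorem stHTwM_68 (hAm : StHAm) (hEs : StHEs) (hFm : StHFm) : StHTwM := by
  intro a b c ha d hd hns z1 z2 k hk hz1 hz2 hz h hh t0 α β hα hβ M
  exact twH_68 hAm hFm hk hz1 hz2 (fun ι _ S => hEs ι S z1 z2 k hk hz1 hz2 hz) ha hd hns hh t0 hα
    hβ M

end Pool.Agent.Lib.MP_a17b09_nt.HY
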