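import Pool.Agent.Lib.MP_a17b09_nt.HY.Per54

/-!
Project HY: (E19) unfolding.
-/

set_option autoImplicit false

open Filter Topology Finset

namespace Pool.Agent.Lib.MP_a17b09_nt.HY

open Pool.Agent.Lib.MP_a17b09_nt.CH
open Pool.Agent.Lib.MP_a17b09_nt.CH.PE (GT Ug Sup Lip)

namespace U54

open P54

/-! ### finiteness -/

theorem fin_ball {d : ℕ} {Q : Form} (hQ : Hyp d Q) (R : ℝ) :
    {v : V | |hX Q v| ≤ R ∧ |hY Q v| ≤ R}.Finite := by
  have hsa := hQ.sa
  have hsd := hQ.sd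
  obtain ⟨N1, hN1⟩ := exists_nat_ge (R * (2 * √(Q.a : ℝ)) / √(d : ℝ))
  obtain ⟨N2, hN2⟩ := exists_nat_ge ((R + |(Q.b : ℝ)| * N1 / (2 * √(Q.a : ℝ))) / √(Q.a : ℝ))
  refine (Set.finite_Icc ((-(N2 : ℤ), -(N1 : ℤ)) : V) ((N2 : ℤ), (N1 : ℤ))).subset ?_
  rintro ⟨v1, v2⟩ ⟨h1, h2⟩
  have e2 : |(v2 : ℝ)| ≤ N1 := by
    refine le_trans ?_ hN1
    rw [le_div_iff₀ hsd]
    rw [hQ.hY_eq, abs_div, abs_mul, abs_of_pos hsd, abs_of_pos (by positivity : 0 < 2 * √(Q.a : ℝ)),
      div_le_iff₀ (by positivity)] at h2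
    linarith
  have e1 : |(v1 : ℝ)| ≤ N2 := by
    refine le_trans ?_ hN2
    rw [le_div_iff₀ hsa]
    have h3 : √(Q.a : ℝ) * v1 = hX Q (v1, v2) - Q.b * v2 / (2 * √(Q.a : ℝ)) := by
      unfold hX; ring
    have h4 : |(v1 : ℝ)| * √(Q.a : ℝ) = |√(Q.a : ℝ) * v1| := by
      rw [abs_mul, abs_of_pos hsa]; ring
    rw [h4, h3]
    refine (abs_sub _ _).trans ?_
    refine add_le_add h1 ?_
    rw [abs_div, abs_mul, abs_of_pos (by positivity : 0 < 2 * √(Q.a : ℝ))]
    gcongr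
  have e1' : |v1| ≤ (N2 : ℤ) := by exact_mod_cast e1
  have e2' : |v2| ≤ (N1 : ℤ) := by exact_mod_cast e2
  rw [abs_le] at e1' e2'
  exact ⟨⟨e1'.1, e2'.1⟩, ⟨e1'.2, e2'.2⟩⟩

theorem XY_of {Q : Form} {τ x θ : ℝ} (hx : 0 < x) (v : V) :
    hX Q v = √x * (Real.cosh (τ * θ) * hlx Q τ x θ v + Real.sinh (τ * θ) * (hly Q τ x θ v / x)) ∧
    hY Q v = √x * (Real.sinh (τ * θ) * hlx Q τ x θ v + Real.cosh (τ * θ) * (hly Q τ x θ v / x)) := by
  have h1 : 0 < √x := Real.sqrt_pos.2 hx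
  have h2 : √x ^ 2 = x := Real.sq_sqrt hx.le
  have h3 := Real.cosh_sq (τ * θ)
  have h5 : √x / x = 1 / √x := by
    rw [div_eq_div_iff hx.ne' h1.ne']; nlinarith
  have e : hly Q τ x θ v / x =
      (Real.cosh (τ * θ) * hY Q v - Real.sinh (τ * θ) * hX Q v) / √x := by
    unfold hly
    rw [mul_div_right_comm, h5]
    ring
  rw [e]
  unfold hlx
  constructor
  · field_simp
    linear_combination (-(hX Q v)) * h3
  · field_simp
    linear_combination (-(hY Q v)) * h3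

/-- vectors which contribute for some angle of a bounded interval -/
theorem fin_th {d : ℕ} {Q : Form} (hQ : Hyp d Q) (τ Θ x B B' : ℝ) (hx : 0 < x) :
    {v : V | ∃ θ : ℝ, |θ| ≤ Θ ∧ |hlx Q τ x θ v| ≤ B ∧ |hly Q τ x θ v| ≤ B'}.Finite := by
  refine (fin_ball hQ (√x * (Real.cosh (τ * Θ) * B + Real.cosh (τ * Θ) * (B' / x)))).subset ?_
  rintro v ⟨θ, h1, h2, h3⟩
  have hc : Real.cosh (τ * θ) ≤ Real.cosh (τ * Θ) := by
    rw [Real.cosh_le_cosh, abs_mul, abs_mul]
    have h5 : |θ| ≤ |Θ| := h1.trans (le_abs_self _)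
    gcongr
  have hs : |Real.sinh (τ * θ)| ≤ Real.cosh (τ * Θ) := by
    refine le_trans ?_ hc
    rw [abs_le]
    constructor
    · have := Real.cosh_add_sinh (τ * θ)
      have := Real.exp_pos (τ * θ)
      linarith
    · have := Real.cosh_sub_sinh (τ * θ)
      have := Real.exp_pos (-(τ * θ))
      linarith
  have hc0 : 0 < Real.cosh (τ * θ) := Real.cosh_pos _
  have hC0 : 0 < Real.cosh (τ * Θ) := Real.cosh_pos _
  have h4 : |hly Q τ x θ v / x| ≤ B' / x := by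
    rw [abs_div, abs_of_pos hx]
    gcongr
  obtain ⟨e1, e2⟩ := XY_of (Q := Q) (τ := τ) (θ := θ) hx v
  constructor
  · rw [e1, abs_mul, abs_of_nonneg (Real.sqrt_nonneg x)]
    refine mul_le_mul_of_nonneg_left ?_ (Real.sqrt_nonneg x)
    refine (abs_add_le _ _).trans ?_
    rw [abs_mul, abs_mul, abs_of_pos hc0]
    gcongr
  · rw [e2, abs_mul, abs_of_nonneg (Real.sqrt_nonneg x)]
    refine mul_le_mul_of_nonneg_left ?_ (Real.sqrt_nonneg x)
    refine (abs_add_le _ _).trans ?_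
    rw [abs_mul, abs_mul, abs_of_pos hc0]
    gcongr

/-! ### integer powers -/

theorem cn_zpow {d : ℕ} {Q : Form} (hQ : Hyp d Q) {a : Pell.Solution₁ (d : ℤ)} (ha : PP a)
    (m : ℤ) (v : V) : Cn Q (act Q (a ^ m) v) ↔ Cn Q v := by
  induction m using Int.induction_on with
  | zero => rw [zpow_zero, act_one]
  | succ m ih => rw [zpow_add_one, mul_comm, act_mul hQ, cn_act hQ ha, ih]
  | pred m ih =>
    rw [← ih]
    conv_rhs => rw [show (-(m : ℤ)) = (-(m : ℤ) - 1) + 1 by ring, zpow_add_one, mul_comm,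
      act_mul hQ, cn_act hQ ha]

theorem ps_zpow {d : ℕ} {Q : Form} (hQ : Hyp d Q) {a : Pell.Solution₁ (d : ℤ)} (ha : PP a)
    (m : ℤ) {v : V} (hv : Cn Q v) : ps Q (act Q (a ^ m) v) = ps Q v + m * per a := by
  induction m using Int.induction_on with
  | zero => rw [zpow_zero, act_one]; simp
  | succ m ih =>
    rw [zpow_add_one, mul_comm, act_mul hQ, ps_act hQ ha ((cn_zpow hQ ha _ v).2 hv), ih]
    push_cast; ring
  | pred m ih =>
    have h1 : ps Q (act Q (a ^ (-(m : ℤ))) v) = ps Q (act Q (a ^ (-(m : ℤ) - 1)) v) + per a := by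
      conv_lhs => rw [show (-(m : ℤ)) = (-(m : ℤ) - 1) + 1 by ring, zpow_add_one, mul_comm,
        act_mul hQ, ps_act hQ ha ((cn_zpow hQ ha _ v).2 hv)]
    rw [ih] at h1
    push_cast at h1 ⊢
    linarith

theorem ai_zpow {d : ℕ} {Q : Form} (hQ : Hyp d Q) {a : Pell.Solution₁ (d : ℤ)} {g : V → ℂ}
    (hg : AI Q a g) (m : ℤ) (v : V) : g (act Q (a ^ m) v) = g v := by
  induction m using Int.induction_on with
  | zero => rw [zpow_zero, act_one]
  | succ m ih => rw [zpow_add_one, mul_comm, act_mul hQ, hg, ih]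
  | pred m ih =>
    rw [← ih]
    conv_rhs => rw [show (-(m : ℤ)) = (-(m : ℤ) - 1) + 1 by ring, zpow_add_one, mul_comm,
      act_mul hQ, hg]

/-- the action on pairs -/
def az (Q : Form) {d : ℕ} (a : Pell.Solution₁ (d : ℤ)) (m : ℤ) (f : V × V) : V × V :=
  (act Q (a ^ m) f.1, act Q (a ^ m) f.2)

/-- the same as a bijection -/
def azE {d : ℕ} {Q : Form} (hQ : Hyp d Q) (a : Pell.Solution₁ (d : ℤ)) (m : ℤ) : V × V ≃ V × V :=
  Equiv.prodCongr (actE hQ (a ^ m)) (actE hQ (a ^ m))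

theorem azE_apply {d : ℕ} {Q : Form} (hQ : Hyp d Q) (a : Pell.Solution₁ (d : ℤ)) (m : ℤ)
    (f : V × V) : azE hQ a m f = az Q a m f := rfl

theorem az_az {d : ℕ} {Q : Form} (hQ : Hyp d Q) (a : Pell.Solution₁ (d : ℤ)) (m k : ℤ)
    (f : V × V) : az Q a m (az Q a k f) = az Q a (m + k) f := by
  unfold az
  rw [zpow_add, act_mul hQ, act_mul hQ]

theorem az_zero {d : ℕ} (Q : Form) (a : Pell.Solution₁ (d : ℤ)) (f : V × V) :
    az Q a 0 f = f := by
  unfold az
  rw [zpow_zero, act_one, act_one]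

/-! ### the local term -/

/-- the local term of a pair -/
noncomputable def Ph (Q : Form) (τ : ℝ) (G1 G2 : ℝ → ℝ → ℝ) (L x θ : ℝ) (f : V × V) : ℝ :=
  G1 (hlx Q τ x θ f.1) (hly Q τ x θ f.1 / L) * G2 (hlx Q τ x θ f.2) (hly Q τ x θ f.2 / L)

theorem cont_G {G : ℝ → ℝ → ℝ} (hG : Lip G) : Continuous (fun p : ℝ × ℝ => G p.1 p.2) := by
  obtain ⟨C, hC⟩ := hG
  rw [Metric.continuous_iff]
  intro b ε hε
  have hC0 : 0 ≤ |C| := abs_nonneg C
  refine ⟨ε / (2 * (|C| + 1)), by positivity, fun p hp => ?_⟩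
  rw [Real.dist_eq]
  have h1 := hC p.1 p.2 b.1 b.2
  have h2 : dist p.1 b.1 ≤ dist p b := le_max_left _ _
  have h3 : dist p.2 b.2 ≤ dist p b := le_max_right _ _
  rw [Real.dist_eq] at h2 h3
  have h4 : C * (|p.1 - b.1| + |p.2 - b.2|) ≤ |C| * (|p.1 - b.1| + |p.2 - b.2|) :=
    mul_le_mul_of_nonneg_right (le_abs_self C) (by positivity)
  have h5 : |C| * (|p.1 - b.1| + |p.2 - b.2|) ≤ |C| * (2 * dist p b) :=
    mul_le_mul_of_nonneg_left (by linarith) hC0
  have h6 : dist p b * (2 * (|C| + 1)) < ε := by rwa [lt_div_iff₀ (by positivity)] at hp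
  have h7 : 0 ≤ dist p b := dist_nonneg
  nlinarith

theorem cont_hlx (Q : Form) (τ x : ℝ) (v : V) : Continuous (fun θ => hlx Q τ x θ v) := by
  unfold hlx
  have h1 : Continuous (fun θ : ℝ => Real.cosh (τ * θ)) :=
    Real.continuous_cosh.comp (continuous_const.mul continuous_id)
  have h2 : Continuous (fun θ : ℝ => Real.sinh (τ * θ)) :=
    Real.continuous_sinh.comp (continuous_const.mul continuous_id)
  exact ((h1.mul continuous_const).sub (h2.mul continuous_const)).div_const _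

theorem cont_hly (Q : Form) (τ x : ℝ) (v : V) : Continuous (fun θ => hly Q τ x θ v) := by
  unfold hly
  have h1 : Continuous (fun θ : ℝ => Real.cosh (τ * θ)) :=
    Real.continuous_cosh.comp (continuous_const.mul continuous_id)
  have h2 : Continuous (fun θ : ℝ => Real.sinh (τ * θ)) :=
    Real.continuous_sinh.comp (continuous_const.mul continuous_id)
  exact continuous_const.mul ((h1.mul continuous_const).sub (h2.mul continuous_const))

theorem cont_Ph {Q : Form} {τ : ℝ} {G1 G2 : ℝ → ℝ → ℝ} (h1 : Lip G1) (h2 : Lip G2) (L x : ℝ)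
    (f : V × V) : Continuous (fun θ => Ph Q τ G1 G2 L x θ f) := by
  unfold Ph
  exact ((cont_G h1).comp ((cont_hlx Q τ x f.1).prodMk ((cont_hly Q τ x f.1).div_const L))).mul
    ((cont_G h2).comp ((cont_hlx Q τ x f.2).prodMk ((cont_hly Q τ x f.2).div_const L)))

theorem Ph_zpow (hE1 : StHCoord) {d : ℕ} {Q : Form} (hQ : Hyp d Q)
    {a : Pell.Solution₁ (d : ℤ)} (ha : PP a)
    (G1 G2 : ℝ → ℝ → ℝ) (L x : ℝ) (hx : 0 < x) (m : ℤ) (θ : ℝ) (f : V × V) :
    Ph Q (tauH a) G1 G2 L x (θ + 2 * Real.pi * m) (az Q a m f) = Ph Q (tauH a) G1 G2 L x θ f := by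
  have key : ∀ (θ : ℝ) (f : V × V), Ph Q (tauH a) G1 G2 L x (θ + 2 * Real.pi)
      (act Q a f.1, act Q a f.2) = Ph Q (tauH a) G1 G2 L x θ f := by
    intro θ f
    have h1 := (hE1 d Q hQ f.1 f.2 (tauH a) x θ hx).2.2.2.2.2.1 a ha
    have h2 := (hE1 d Q hQ f.2 f.1 (tauH a) x θ hx).2.2.2.2.2.1 a ha
    unfold Ph
    rw [h1.1, h1.2, h2.1, h2.2]
  induction m using Int.induction_on generalizing θ with
  | zero => rw [az_zero]; simp
  | succ m ih =>
    rw [show ((m : ℤ) + 1) = 1 + (m : ℤ) by ring, ← az_az hQ]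
    have h1 := key (θ + 2 * Real.pi * (m : ℤ)) (az Q a m f)
    rw [ih] at h1
    rw [← h1]
    unfold az
    rw [zpow_one]
    congr 1
    push_cast
    ring
  | pred m ih =>
    have h1 := key (θ + 2 * Real.pi * (-(m : ℤ) - 1 : ℤ)) (az Q a (-(m : ℤ) - 1) f)
    rw [← h1]
    have h2 := ih θ
    rw [show (-(m : ℤ)) = 1 + (-(m : ℤ) - 1) by ring, ← az_az hQ] at h2
    rw [← h2]
    unfold az
    rw [zpow_one]
    congr 1
    push_cast
    ring


/-! ### where the local term lives -/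

theorem box {B : ℝ} {G : ℝ → ℝ → ℝ} (h : Sup B G) {L : ℝ} (hL : 1 ≤ L) {X Y : ℝ}
    (hG : G X (Y / L) ≠ 0) : 1 / B ≤ X ∧ X ≤ B ∧ |Y| ≤ B * L := by
  obtain ⟨h1, h2, h3⟩ := h _ _ hG
  refine ⟨h1, h2, ?_⟩
  rwa [abs_div, abs_of_pos (by linarith : 0 < L), div_le_iff₀ (by linarith)] at h3

theorem loc (hE1 : StHCoord) {d : ℕ} {Q : Form} (hQ : Hyp d Q) {τ B L x θ : ℝ} (hB : 1 ≤ B)
    (hL : 1 ≤ L) (hx : 2 * B ^ 2 * L ≤ x) {v : V} (h1 : 1 / B ≤ hlx Q τ x θ v)
    (h2 : |hly Q τ x θ v| ≤ B * L) : Cn Q v ∧ |ps Q v - τ * θ| < 1 := by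
  have hx0 : 0 < x := by
    have : 0 < 2 * B ^ 2 * L := by positivity
    linarith
  have hB0 : 0 < B := by linarith
  have hr : |hly Q τ x θ v / x| ≤ hlx Q τ x θ v / 2 := by
    rw [abs_div, abs_of_pos hx0]
    have e1 : |hly Q τ x θ v| / x ≤ 1 / (2 * B) := by
      rw [div_le_div_iff₀ hx0 (by positivity)]
      nlinarith
    have e2 : 1 / (2 * B) = (1 / B) / 2 := by field_simp
    rw [e2] at e1
    linarith
  have hp : 0 < hlx Q τ x θ v := lt_of_lt_of_le (by positivity) h1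
  obtain ⟨f1, f2⟩ := abs_le.1 hr
  obtain ⟨e1, e2⟩ := XY_of (Q := Q) (τ := τ) (θ := θ) hx0 v
  have hsx : 0 < √x := Real.sqrt_pos.2 hx0
  have hcn : Cn Q v := by
    rw [cn_iff]
    constructor
    · have e3 : hX Q v + hY Q v = √x * ((Real.cosh (τ * θ) + Real.sinh (τ * θ)) *
          (hlx Q τ x θ v + hly Q τ x θ v / x)) := by
        rw [e1, e2]; ring
      rw [e3, Real.cosh_add_sinh]
      exact mul_pos hsx (mul_pos (Real.exp_pos _) (by linarith))
    · have e3 : hX Q v - hY Q v = √x * ((Real.cosh (τ * θ) - Real.sinh (τ * θ)) *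
          (hlx Q τ x θ v - hly Q τ x θ v / x)) := by
        rw [e1, e2]; ring
      rw [e3, Real.cosh_sub_sinh]
      exact mul_pos hsx (mul_pos (Real.exp_pos _) (by linarith))
  refine ⟨hcn, ?_⟩
  obtain ⟨e4, e5⟩ := (hE1 d Q hQ v v τ x θ hx0).2.2.2.2.2.2 hcn
  set u := ps Q v - τ * θ with hu
  have hq : (0 : ℝ) < Q.q v := by exact_mod_cast hcn.q_pos hQ
  have e6 : hly Q τ x θ v / x = √((Q.q v : ℝ) / x) * Real.sinh u := by
    rw [e5, Real.sqrt_mul hx0.le, Real.sqrt_div hq.le]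
    have h3 : √x ^ 2 = x := Real.sq_sqrt hx0.le
    field_simp
    rw [h3]
    ring
  rw [e6, e4, abs_mul, abs_of_nonneg (Real.sqrt_nonneg _)] at hr
  have hA : 0 < √((Q.q v : ℝ) / x) := Real.sqrt_pos.2 (by positivity)
  have h4 : |Real.sinh u| ≤ Real.cosh u / 2 := by
    have : √((Q.q v : ℝ) / x) * |Real.sinh u| ≤ √((Q.q v : ℝ) / x) * (Real.cosh u / 2) := by
      linarith
    exact le_of_mul_le_mul_left this hA
  have h5 := Real.cosh_sq u
  have h6 : |Real.sinh u| ^ 2 = Real.sinh u ^ 2 := sq_abs _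
  have h7 : |Real.sinh u| < 1 := by
    have h8 := abs_nonneg (Real.sinh u)
    have h9 : |Real.sinh u| ^ 2 ≤ (Real.cosh u / 2) ^ 2 := by gcongr
    by_contra hc
    push Not at hc
    nlinarith
  have h8 : |u| ≤ Real.sinh |u| := Real.self_le_sinh_iff.2 (abs_nonneg u)
  rw [← Real.abs_sinh] at h8
  linarith

/-- the integral over one period -/
noncomputable def I0 (Q : Form) (τ : ℝ) (G1 G2 : ℝ → ℝ → ℝ) (L x : ℝ) (f : V × V) : ℝ :=
  ∫ θ in (0 : ℝ)..(2 * Real.pi), Ph Q τ G1 G2 L x θ f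

section main

variable {d : ℕ} {Q : Form} {a : Pell.Solution₁ (d : ℤ)} {B : ℝ} {G1 G2 : ℝ → ℝ → ℝ} {L x : ℝ}

theorem tau_pos (ha : PP a) : 0 < tauH a := by
  unfold tauH
  exact div_pos (per_pos ha) (by positivity)

theorem tau_per (a : Pell.Solution₁ (d : ℤ)) : 2 * Real.pi * tauH a = per a := by
  unfold tauH
  have := Real.pi_pos
  field_simp

theorem Ph_loc (hE1 : StHCoord) (hQ : Hyp d Q) {τ θ : ℝ} (h1 : GT B G1) (h2 : GT B G2)
    (hL : 1 ≤ L) (hx : 2 * B ^ 2 * L ≤ x) {f : V × V} (hf : Ph Q τ G1 G2 L x θ f ≠ 0) :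
    (|hlx Q τ x θ f.1| ≤ B ∧ |hly Q τ x θ f.1| ≤ B * L) ∧
    (|hlx Q τ x θ f.2| ≤ B ∧ |hly Q τ x θ f.2| ≤ B * L) ∧
    (Cn Q f.1 ∧ |ps Q f.1 - τ * θ| < 1) ∧ (Cn Q f.2 ∧ |ps Q f.2 - τ * θ| < 1) := by
  unfold Ph at hf
  obtain ⟨a1, a2, a3⟩ := box h1.2.1 hL (left_ne_zero_of_mul hf)
  obtain ⟨b1, b2, b3⟩ := box h2.2.1 hL (right_ne_zero_of_mul hf)
  have hB := h1.1
  have hB0 : (0 : ℝ) ≤ 1 / B := by positivity
  refine ⟨⟨abs_le.2 ⟨by linarith, a2⟩, a3⟩, ⟨abs_le.2 ⟨by linarith, b2⟩, b3⟩,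
    loc hE1 hQ hB hL hx a1 a3, loc hE1 hQ hB hL hx b1 b3⟩

/-- the whole line -/
theorem line_eq (hE1 : StHCoord) (hQ : Hyp d Q) (ha : PP a) (h1 : GT B G1) (h2 : GT B G2)
    (hL : 1 ≤ L) (hx : 2 * B ^ 2 * L ≤ x) {M : ℕ} (hM : per a + 1 ≤ M * per a) {f : V × V}
    (hf : Sec Q (per a) f.1) :
    (∀ θ, Ph Q (tauH a) G1 G2 L x θ f ≠ 0 → |θ| ≤ 2 * Real.pi * M) ∧
    ∫ θ : ℝ, Ph Q (tauH a) G1 G2 L x θ f =
      ∑ j ∈ Finset.range (2 * M), I0 Q (tauH a) G1 G2 L x (az Q a ((M : ℤ) - j) f) := by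
  have ht := tau_pos ha
  have hp := per_pos ha
  have htp := tau_per a
  have hpi := Real.pi_pos
  have hx0 : 0 < x := by
    have : 0 < 2 * B ^ 2 * L := by
      have := h1.1
      positivity
    linarith
  have hsupp : ∀ θ, Ph Q (tauH a) G1 G2 L x θ f ≠ 0 →
      -(2 * Real.pi * M) < θ ∧ θ < 2 * Real.pi * M := by
    intro θ hθ
    obtain ⟨_, _, ⟨_, h3⟩, _⟩ := Ph_loc hE1 hQ h1 h2 hL hx hθ
    obtain ⟨h4, h5⟩ := abs_lt.1 h3
    obtain ⟨_, h6, h7⟩ := hf
    constructor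
    · have : tauH a * (-(2 * Real.pi * M)) < tauH a * θ := by
        have e : tauH a * (-(2 * Real.pi * M)) = -(M * per a) := by rw [← htp]; ring
        rw [e]; linarith
      exact lt_of_mul_lt_mul_left this ht.le
    · have : tauH a * θ < tauH a * (2 * Real.pi * M) := by
        have e : tauH a * (2 * Real.pi * M) = M * per a := by rw [← htp]; ring
        rw [e]; linarith
      exact lt_of_mul_lt_mul_left this ht.le
  refine ⟨fun θ hθ => abs_le.2 ⟨(hsupp θ hθ).1.le, (hsupp θ hθ).2.le⟩, ?_⟩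
  have hc := cont_Ph (Q := Q) (τ := tauH a) h1.2.2 h2.2.2 L x f
  have e1 : ∫ θ : ℝ, Ph Q (tauH a) G1 G2 L x θ f =
      ∫ θ in (2 * Real.pi * ((0 : ℕ) - (M : ℝ)))..(2 * Real.pi * ((2 * M : ℕ) - (M : ℝ))),
        Ph Q (tauH a) G1 G2 L x θ f := by
    rw [intervalIntegral.integral_eq_integral_of_support_subset]
    intro θ hθ
    rw [Function.mem_support] at hθ
    obtain ⟨h3, h4⟩ := hsupp θ hθ
    constructor
    · push_cast; linarith
    · push_cast; linarith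
  rw [e1, ← intervalIntegral.sum_integral_adjacent_intervals
    (a := fun k : ℕ => 2 * Real.pi * ((k : ℝ) - M))
    (fun k _ => hc.intervalIntegrable _ _)]
  apply Finset.sum_congr rfl
  intro j _
  unfold I0
  have e2 : (fun θ => Ph Q (tauH a) G1 G2 L x θ (az Q a ((M : ℤ) - j) f)) =
      fun θ => Ph Q (tauH a) G1 G2 L x (θ + 2 * Real.pi * ((j : ℝ) - M)) f := by
    funext θ
    have h3 := Ph_zpow hE1 hQ ha G1 G2 L x hx0 ((j : ℤ) - M) θ (az Q a ((M : ℤ) - j) f)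
    rw [az_az hQ, show (j : ℤ) - M + (M - j) = 0 by ring, az_zero] at h3
    rw [← h3]
    push_cast
    rfl
  rw [e2, intervalIntegral.integral_comp_add_right (fun θ => Ph Q (tauH a) G1 G2 L x θ f)]
  congr 1
  · ring
  · push_cast; ring

open Classical in
/-- every vector of the cone near the first period has exactly one representative -/
theorem count_eq (hQ : Hyp d Q) (ha : PP a) {M : ℕ} (hM : per a + 1 ≤ M * per a) {v : V}
    (hv : Cn Q v) (h1 : -1 < ps Q v) (h2 : ps Q v < per a + 1) :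
    ∑ j ∈ Finset.range (2 * M), (if Sec Q (per a) (act Q (a ^ ((j : ℤ) - M)) v) then (1 : ℂ)
      else 0) = 1 := by
  have hp := per_pos ha
  set t : ℝ := ps Q v / per a with ht
  have hps : ps Q v = t * per a := by rw [ht]; field_simp
  have hsec : ∀ m : ℤ, Sec Q (per a) (act Q (a ^ m) v) ↔ m = -⌊t⌋ := by
    intro m
    unfold Sec
    rw [cn_zpow hQ ha, ps_zpow hQ ha m hv, hps]
    constructor
    · rintro ⟨_, h3, h4⟩
      have h5 : (0 : ℝ) ≤ t + m := by
        have : 0 ≤ (t + m) * per a := by linarith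
        exact nonneg_of_mul_nonneg_left this hp
      have h6 : t + m < 1 := by
        have : (t + m) * per a < 1 * per a := by linarith
        exact lt_of_mul_lt_mul_right this hp.le
      have h7 : ⌊t⌋ = -m := by
        rw [Int.floor_eq_iff]
        push_cast
        constructor <;> linarith
      omega
    · intro h3
      have h4 := Int.floor_le t
      have h5 := Int.lt_floor_add_one t
      subst h3
      push_cast
      refine ⟨hv, ?_, ?_⟩
      · have : 0 ≤ (t - ⌊t⌋) * per a := mul_nonneg (by linarith) hp.le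
        linarith
      · have : (t - ⌊t⌋) * per a < 1 * per a := mul_lt_mul_of_pos_right (by linarith) hp
        linarith
  have hf1 : ⌊t⌋ < (M : ℤ) := by
    rw [Int.floor_lt]
    have : t * per a < M * per a := by rw [← hps]; linarith
    exact_mod_cast lt_of_mul_lt_mul_right this hp.le
  have hf2 : -(M : ℤ) < ⌊t⌋ := by
    have h3 : -(M : ℝ) + 1 < t := by
      have : (-(M : ℝ) + 1) * per a < t * per a := by rw [← hps]; linarith
      exact lt_of_mul_lt_mul_right this hp.le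
    have h4 := Int.lt_floor_add_one t
    have h5 : -(M : ℝ) < ⌊t⌋ := by linarith
    exact_mod_cast h5
  rw [Finset.sum_eq_single ((M : ℤ) - ⌊t⌋).toNat]
  · rw [if_pos]
    rw [hsec]
    have : (((M : ℤ) - ⌊t⌋).toNat : ℤ) = (M : ℤ) - ⌊t⌋ := Int.toNat_of_nonneg (by omega)
    omega
  · intro j _ hj
    rw [if_neg]
    rw [hsec]
    intro h3
    apply hj
    omega
  · intro h3
    exfalso
    apply h3
    rw [Finset.mem_range]
    omega


open Classical in
/-- the unfolding of the sum over pairs -/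
theorem unfold_sum (hE1 : StHCoord) (hQ : Hyp d Q) (ha : PP a) (h1 : GT B G1) (h2 : GT B G2)
    (hL : 1 ≤ L) (hx : 2 * B ^ 2 * L ≤ x) {g g' : V → ℂ} (hg : Ug g) (hg' : Ug g')
    (ia : AI Q a g) (ia' : AI Q a g') :
    (Function.support (fun f : V × V => if Prim f.1 ∧ Prim f.2 ∧ Sec Q (per a) f.1 then
      ((∫ θ : ℝ, Ph Q (tauH a) G1 G2 L x θ f : ℝ) : ℂ) * (g f.1 * g' f.2) else 0)).Finite ∧
    ∑' f : V × V, ((I0 Q (tauH a) G1 G2 L x f : ℝ) : ℂ) * (g f.1 * g' f.2) =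
      ∑' f : V × V, if Prim f.1 ∧ Prim f.2 ∧ Sec Q (per a) f.1 then
      ((∫ θ : ℝ, Ph Q (tauH a) G1 G2 L x θ f : ℝ) : ℂ) * (g f.1 * g' f.2) else 0 := by
  have ht := tau_pos ha
  have hp := per_pos ha
  have htp := tau_per a
  have hpi := Real.pi_pos
  have hx0 : 0 < x := by
    have : 0 < 2 * B ^ 2 * L := by
      have := h1.1
      positivity
    linarith
  obtain ⟨M, hM0⟩ := exists_nat_ge ((per a + 1) / per a)
  have hM : per a + 1 ≤ M * per a := by rwa [div_le_iff₀ hp] at hM0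
  -- finite supports
  have hF : ∀ Θ : ℝ, {v : V | ∃ θ : ℝ, |θ| ≤ Θ ∧ |hlx Q (tauH a) x θ v| ≤ B ∧
      |hly Q (tauH a) x θ v| ≤ B * L}.Finite := fun Θ => fin_th hQ (tauH a) Θ x B (B * L) hx0
  have hfin : (Function.support (fun f : V × V => if Prim f.1 ∧ Prim f.2 ∧ Sec Q (per a) f.1 then
      ((∫ θ : ℝ, Ph Q (tauH a) G1 G2 L x θ f : ℝ) : ℂ) * (g f.1 * g' f.2) else 0)).Finite := by
    refine ((hF (2 * Real.pi * M)).prod (hF (2 * Real.pi * M))).subset ?_
    intro f hf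
    rw [Function.mem_support] at hf
    have hP : Prim f.1 ∧ Prim f.2 ∧ Sec Q (per a) f.1 := by
      by_contra hc
      exact hf (if_neg hc)
    rw [if_pos hP] at hf
    have hi : (∫ θ : ℝ, Ph Q (tauH a) G1 G2 L x θ f) ≠ 0 := by
      intro h0
      apply hf
      rw [h0]
      simp
    obtain ⟨θ, hθ⟩ : ∃ θ, Ph Q (tauH a) G1 G2 L x θ f ≠ 0 := by
      by_contra hc
      push Not at hc
      apply hi
      simp [hc]
    have h3 := (line_eq hE1 hQ ha h1 h2 hL hx hM hP.2.2).1 θ hθ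
    obtain ⟨h4, h5, _⟩ := Ph_loc hE1 hQ h1 h2 hL hx hθ
    exact ⟨⟨θ, h3, h4⟩, ⟨θ, h3, h5⟩⟩
  refine ⟨hfin, ?_⟩
  set u : V × V → ℂ := fun f => ((I0 Q (tauH a) G1 G2 L x f : ℝ) : ℂ) * (g f.1 * g' f.2) with hu
  have hu1 : ∀ f, u f ≠ 0 → (∃ θ, |θ| ≤ 2 * Real.pi ∧ Ph Q (tauH a) G1 G2 L x θ f ≠ 0 ∧ 0 ≤ θ) ∧
      Prim f.1 ∧ Prim f.2 := by
    intro f hf
    have hi : I0 Q (tauH a) G1 G2 L x f ≠ 0 := by
      intro h0
      apply hf
      rw [hu]
      simp [h0]
    have hgg : g f.1 * g' f.2 ≠ 0 := right_ne_zero_of_mul hf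
    refine ⟨?_, hg.2 _ (left_ne_zero_of_mul hgg), hg'.2 _ (right_ne_zero_of_mul hgg)⟩
    by_contra hc
    push Not at hc
    apply hi
    unfold I0
    rw [intervalIntegral.integral_congr (g := fun _ => (0 : ℝ))]
    · simp
    · intro θ hθ
      rw [Set.uIcc_of_le (by positivity)] at hθ
      by_contra h3
      have := hc θ (by rw [abs_of_nonneg hθ.1]; exact hθ.2) h3
      linarith [hθ.1]
  have hufin : (Function.support u).Finite := by
    refine ((hF (2 * Real.pi)).prod (hF (2 * Real.pi))).subset ?_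
    intro f hf
    obtain ⟨⟨θ, h3, h4, _⟩, _⟩ := hu1 f hf
    obtain ⟨h5, h6, _⟩ := Ph_loc hE1 hQ h1 h2 hL hx h4
    exact ⟨⟨θ, h3, h5⟩, ⟨θ, h3, h6⟩⟩
  have hcaz : ∀ (m : ℤ) (f : V × V), g (az Q a m f).1 * g' (az Q a m f).2 = g f.1 * g' f.2 := by
    intro m f
    unfold az
    rw [ai_zpow hQ ia, ai_zpow hQ ia']
  have e1 : ∀ f : V × V, (if Prim f.1 ∧ Prim f.2 ∧ Sec Q (per a) f.1 then
      ((∫ θ : ℝ, Ph Q (tauH a) G1 G2 L x θ f : ℝ) : ℂ) * (g f.1 * g' f.2) else 0) =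
      ∑ j ∈ Finset.range (2 * M), if Prim f.1 ∧ Prim f.2 ∧ Sec Q (per a) f.1 then
        u (az Q a ((M : ℤ) - j) f) else 0 := by
    intro f
    by_cases hP : Prim f.1 ∧ Prim f.2 ∧ Sec Q (per a) f.1
    · simp only [if_pos hP]
      rw [(line_eq hE1 hQ ha h1 h2 hL hx hM hP.2.2).2]
      push_cast
      rw [Finset.sum_mul]
      apply Finset.sum_congr rfl
      intro j _
      rw [hu]
      simp only
      rw [hcaz]
    · simp only [if_neg hP, Finset.sum_const_zero]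
  have hsub : ∀ (j : ℕ), Summable (fun f : V × V =>
      if Prim f.1 ∧ Prim f.2 ∧ Sec Q (per a) f.1 then u (az Q a ((M : ℤ) - j) f) else 0) := by
    intro j
    apply summable_of_hasFiniteSupport
    have h3 : ((azE hQ a ((M : ℤ) - j)) ⁻¹' (Function.support u)).Finite :=
      hufin.preimage ((azE hQ a ((M : ℤ) - j)).injective.injOn)
    refine h3.subset ?_
    intro f hf
    rw [Function.mem_support] at hf
    rw [Set.mem_preimage, Function.mem_support, azE_apply]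
    intro h4
    apply hf
    rw [h4]
    simp
  have hsub2 : ∀ (j : ℕ), Summable (fun f : V × V =>
      if Prim (az Q a ((j : ℤ) - M) f).1 ∧ Prim (az Q a ((j : ℤ) - M) f).2 ∧
        Sec Q (per a) (az Q a ((j : ℤ) - M) f).1 then u f else 0) := by
    intro j
    apply summable_of_hasFiniteSupport
    refine hufin.subset ?_
    intro f hf
    rw [Function.mem_support] at hf ⊢
    intro h4
    apply hf
    rw [h4]
    simp
  have e2 : ∀ j : ℕ, ∑' f : V × V, (if Prim f.1 ∧ Prim f.2 ∧ Sec Q (per a) f.1 then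
      u (az Q a ((M : ℤ) - j) f) else 0) =
      ∑' f : V × V, if Prim (az Q a ((j : ℤ) - M) f).1 ∧ Prim (az Q a ((j : ℤ) - M) f).2 ∧
        Sec Q (per a) (az Q a ((j : ℤ) - M) f).1 then u f else 0 := by
    intro j
    rw [← (azE hQ a ((M : ℤ) - j)).tsum_eq (fun f : V × V =>
      if Prim (az Q a ((j : ℤ) - M) f).1 ∧ Prim (az Q a ((j : ℤ) - M) f).2 ∧
        Sec Q (per a) (az Q a ((j : ℤ) - M) f).1 then u f else 0)]
    apply tsum_congr
    intro f
    have e3 : az Q a ((j : ℤ) - M) (azE hQ a ((M : ℤ) - j) f) = f := by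
      rw [azE_apply, az_az hQ, show (j : ℤ) - M + (M - j) = 0 by ring, az_zero]
    by_cases hP : Prim f.1 ∧ Prim f.2 ∧ Sec Q (per a) f.1
    · rw [if_pos hP, if_pos (by rw [e3]; exact hP)]
      rfl
    · rw [if_neg hP, if_neg (by rw [e3]; exact hP)]
  rw [tsum_congr e1, Summable.tsum_finsetSum (fun j _ => hsub j),
    Finset.sum_congr rfl (fun j _ => e2 j), ← Summable.tsum_finsetSum (fun j _ => hsub2 j)]
  apply tsum_congr
  intro f
  change u f = _
  by_cases hf : u f = 0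
  · rw [hf]
    symm
    apply Finset.sum_eq_zero
    intro j _
    simp
  · obtain ⟨⟨θ, h3, h4, h0⟩, hp1, hp2⟩ := hu1 f hf
    obtain ⟨_, _, ⟨h5, h6⟩, _⟩ := Ph_loc hE1 hQ h1 h2 hL hx h4
    obtain ⟨h7, h8⟩ := abs_lt.1 h6
    have h9 : 0 ≤ tauH a * θ := mul_nonneg ht.le h0
    have h10 : tauH a * θ ≤ per a := by
      rw [← htp]
      have := le_abs_self θ
      nlinarith
    have h11 := count_eq hQ ha hM h5 (by linarith) (by linarith)
    have h12 : ∀ j ∈ Finset.range (2 * M),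
        (if Prim (az Q a ((j : ℤ) - M) f).1 ∧ Prim (az Q a ((j : ℤ) - M) f).2 ∧
          Sec Q (per a) (az Q a ((j : ℤ) - M) f).1 then u f else 0) =
        u f * (if Sec Q (per a) (act Q (a ^ ((j : ℤ) - M)) f.1) then (1 : ℂ) else 0) := by
      intro j _
      unfold az
      by_cases h13 : Sec Q (per a) (act Q (a ^ ((j : ℤ) - M)) f.1)
      · rw [if_pos h13, if_pos ⟨(prim_act hQ _ _).2 hp1, (prim_act hQ _ _).2 hp2, h13⟩, mul_one]
      · rw [if_neg h13, if_neg (fun h14 => h13 h14.2.2), mul_zero]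
    rw [Finset.sum_congr rfl h12, ← Finset.mul_sum, h11, mul_one]

/-- the product of two local sums, integrated over one period -/
theorem period_eq (hQ : Hyp d Q) (h1 : GT B G1) (h2 : GT B G2) (τ : ℝ)
    (hL : 1 ≤ L) (hx : 0 < x) (g g' : V → ℂ) :
    (∫ θ in (0 : ℝ)..(2 * Real.pi), hmm Q τ g G1 L x θ * hmm Q τ g' G2 L x θ) =
      (1 / (L : ℂ)) ^ 2 * ∑' f : V × V, ((I0 Q τ G1 G2 L x f : ℝ) : ℂ) * (g f.1 * g' f.2) := by
  have hpi := Real.pi_pos
  have hF := fin_th hQ τ (2 * Real.pi) x B (B * L) hx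
  set S := hF.toFinset with hS
  have key : ∀ (G : ℝ → ℝ → ℝ), GT B G → ∀ θ ∈ Set.uIcc (0 : ℝ) (2 * Real.pi), ∀ v : V, v ∉ S →
      G (hlx Q τ x θ v) (hly Q τ x θ v / L) = 0 := by
    intro G hG θ hθ v hv
    by_contra hc
    obtain ⟨a1, a2, a3⟩ := box hG.2.1 hL hc
    apply hv
    rw [hS, Set.Finite.mem_toFinset]
    rw [Set.uIcc_of_le (by positivity)] at hθ
    have hB := hG.1
    have hB0 : (0 : ℝ) ≤ 1 / B := by positivity
    exact ⟨θ, by rw [abs_of_nonneg hθ.1]; exact hθ.2, abs_le.2 ⟨by linarith, a2⟩, a3⟩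
  have e1 : ∀ θ ∈ Set.uIcc (0 : ℝ) (2 * Real.pi), hmm Q τ g G1 L x θ * hmm Q τ g' G2 L x θ =
      ∑ f ∈ S ×ˢ S, (1 / (L : ℂ)) ^ 2 * (((Ph Q τ G1 G2 L x θ f : ℝ) : ℂ) * (g f.1 * g' f.2)) := by
    intro θ hθ
    unfold hmm
    rw [tsum_eq_sum (s := S), tsum_eq_sum (s := S)]
    · rw [mul_mul_mul_comm, Finset.sum_mul_sum, ← Finset.sum_product', Finset.mul_sum]
      apply Finset.sum_congr rfl
      intro f _
      unfold Ph
      push_cast
      ring
    · intro v hv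
      rw [key G2 h2 θ hθ v hv]
      simp
    · intro v hv
      rw [key G1 h1 θ hθ v hv]
      simp
  rw [intervalIntegral.integral_congr e1, intervalIntegral.integral_finsetSum]
  · rw [tsum_eq_sum (s := S ×ˢ S), Finset.mul_sum]
    · apply Finset.sum_congr rfl
      intro f _
      unfold I0
      rw [intervalIntegral.integral_const_mul]
      congr 1
      rw [intervalIntegral.integral_mul_const]
      congr 1
      rw [intervalIntegral.integral_ofReal]
    · intro f hf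
      have hz : I0 Q τ G1 G2 L x f = 0 := by
        unfold I0
        rw [intervalIntegral.integral_congr (g := fun _ => (0 : ℝ))]
        · simp
        · intro θ hθ
          simp only
          unfold Ph
          rw [Finset.mem_product, not_and_or] at hf
          rcases hf with h3 | h3
          · rw [key G1 h1 θ hθ _ h3, zero_mul]
          · rw [key G2 h2 θ hθ _ h3, mul_zero]
      rw [hz]
      simp
  · intro f _
    apply Continuous.intervalIntegrable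
    exact continuous_const.mul ((Complex.continuous_ofReal.comp
      (cont_Ph h1.2.2 h2.2.2 L x f)).mul continuous_const)

end main

end U54

open U54 in
/-- (E19) unfolding -/
theorem stHUnf_54 (hE1 : StHCoord) : StHUnf := by
  intro d Q hQ a ha B G1 G2 h1 h2 L hL
  obtain ⟨n0, hn0⟩ := exists_nat_ge (2 * B ^ 2 * L)
  refine ⟨n0, fun n hn g g' hg hg' ia ia' => ?_⟩
  have hx : 2 * B ^ 2 * L ≤ (n : ℝ) := hn0.trans (by exact_mod_cast hn)
  have hx0 : (0 : ℝ) < n := by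
    have : 0 < 2 * B ^ 2 * L := by
      have := h1.1
      positivity
    linarith
  obtain ⟨e1, e2⟩ := unfold_sum hE1 hQ ha h1 h2 hL hx hg hg' ia ia'
  refine ⟨e1, ?_⟩
  rw [period_eq hQ h1 h2 (tauH a) hL hx0 g g', e2]
  rfl

end Pool.Agent.Lib.MP_a17b09_nt.HY
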