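import Pool.Agent.Lib.MP_a17b09_nt.HY.Stmts20
import Pool.Agent.Lib.MP_a17b09_nt.CH.C027
import Pool.Agent.Lib.MP_a17b09_nt.CH.Top

/-!
Project HY, module F3 (StHup): upper bounds for the number of frames with first vector in the
sector, from Theorem R for the definite majorant `4 a (X ^ 2 + Y ^ 2)`.
-/

set_option autoImplicit false

open Filter Topology Finset

namespace Pool.Agent.Lib.MP_a17b09_nt.HY

open Pool.Agent.Lib.MP_a17b09_nt.CH

namespace Up79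

/-- bounded cardinalities of finite subsets -/
theorem fin_of_card {α : Type} {s : Set α} {B : ℝ}
    (h : ∀ T : Finset α, (∀ x ∈ T, x ∈ s) → (T.card : ℝ) ≤ B) : s.Finite ∧ (s.ncard : ℝ) ≤ B := by
  have hf : s.Finite := by
    by_contra hc
    have hi : s.Infinite := hc
    obtain ⟨T, hT, hT2⟩ := hi.exists_subset_card_eq (⌊B⌋₊ + 1)
    have h1 := h T fun x hx => hT (by exact_mod_cast hx)
    rw [hT2] at h1
    push_cast at h1
    have h2 := Nat.lt_floor_add_one B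
    linarith
  refine ⟨hf, ?_⟩
  have h1 := h hf.toFinset fun x hx => by simpa using hx
  rwa [Set.ncard_eq_toFinset_card s hf]

/-- the definite majorant `4 a (X ^ 2 + Y ^ 2)` -/
def maj (Q : Form) : Form := ⟨4 * Q.a ^ 2, 4 * Q.a * Q.b, 2 * Q.b ^ 2 - 4 * Q.a * Q.c⟩

variable {d : ℕ} {Q : Form}

theorem maj_pos (hQ : Hyp d Q) : (maj Q).Pos := by
  have h1 := hQ.apos
  have h2 := hQ.disc
  have h3 := hQ.d_pos
  unfold Form.D at h2
  refine ⟨by unfold maj; positivity, ?_⟩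
  unfold maj Form.D
  simp only
  have e : 4 * (4 * Q.a ^ 2) * (2 * Q.b ^ 2 - 4 * Q.a * Q.c) - (4 * Q.a * Q.b) ^ 2 =
      16 * Q.a ^ 2 * (Q.b ^ 2 - 4 * Q.a * Q.c) := by ring
  rw [e]
  have h4 : Q.b ^ 2 - 4 * Q.a * Q.c = (d : ℤ) := by linarith
  rw [h4]
  have : (0 : ℤ) < d := by exact_mod_cast h3
  positivity

theorem maj_q (hQ : Hyp d Q) (v : V) :
    ((maj Q).q v : ℝ) = 4 * Q.a * (hX Q v ^ 2 + hY Q v ^ 2) := by
  have h1 := hQ.sa
  have h2 := hQ.sa_sq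
  have h3 := Hyp.sd_sq d
  have h4 : (d : ℝ) = (Q.b : ℝ) ^ 2 - 4 * Q.a * Q.c := by
    have h5 := hQ.negD
    unfold Form.D at h5
    push_cast at h5
    linarith
  rw [hQ.hY_eq]
  unfold hX maj Form.q
  push_cast
  field_simp
  rw [h3, h4]
  have h5 : √(Q.a : ℝ) ^ 4 = (Q.a : ℝ) ^ 2 := by
    rw [show √(Q.a : ℝ) ^ 4 = (√(Q.a : ℝ) ^ 2) ^ 2 by ring, h2]
  ring_nf
  rw [h5, h2]
  ring

theorem maj_B (hQ : Hyp d Q) (v w : V) :
    ((maj Q).B v w : ℝ) = 8 * Q.a * (hX Q v * hX Q w + hY Q v * hY Q w) := by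
  have h1 := hQ.sa
  have h2 := hQ.sa_sq
  have h3 := Hyp.sd_sq d
  have h4 : (d : ℝ) = (Q.b : ℝ) ^ 2 - 4 * Q.a * Q.c := by
    have h5 := hQ.negD
    unfold Form.D at h5
    push_cast at h5
    linarith
  rw [hQ.hY_eq, hQ.hY_eq]
  unfold hX maj Form.B
  push_cast
  field_simp
  rw [h3, h4]
  have h5 : √(Q.a : ℝ) ^ 4 = (Q.a : ℝ) ^ 2 := by
    rw [show √(Q.a : ℝ) ^ 4 = (√(Q.a : ℝ) ^ 2) ^ 2 by ring, h2]
  ring_nf
  rw [h5, h2]
  ring

/-- comparison of the two forms in the sector -/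
theorem maj_le (hQ : Hyp d Q) {T : ℝ} {v : V} (hv : Sec Q T v) :
    4 * (Q.a : ℝ) * Q.q v ≤ (maj Q).q v ∧
    ((maj Q).q v : ℝ) ≤ 4 * Q.a * Real.cosh (2 * T) * Q.q v := by
  obtain ⟨h1, h2, h3⟩ := hv
  have ha : (0 : ℝ) < Q.a := by exact_mod_cast hQ.apos
  have hq : (0 : ℝ) < Q.q v := by exact_mod_cast h1.q_pos hQ
  rw [maj_q hQ]
  constructor
  · rw [hQ.q_eq]
    have : 0 ≤ 4 * (Q.a : ℝ) * hY Q v ^ 2 := by positivity
    nlinarith
  · obtain ⟨h4, h5⟩ := polar hQ h1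
    have h6 : hX Q v ^ 2 + hY Q v ^ 2 = Q.q v * Real.cosh (2 * ps Q v) := by
      rw [h4, h5, Real.cosh_two_mul, mul_pow, mul_pow, Real.sq_sqrt hq.le]
      ring
    have h7 : Real.cosh (2 * ps Q v) ≤ Real.cosh (2 * T) := by
      rw [Real.cosh_le_cosh, abs_of_nonneg (by linarith), abs_of_nonneg (by linarith)]
      linarith
    rw [h6]
    calc 4 * (Q.a : ℝ) * (Q.q v * Real.cosh (2 * ps Q v)) ≤
        4 * (Q.a : ℝ) * (Q.q v * Real.cosh (2 * T)) := by gcongr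
      _ = _ := by ring

/-- the slopes with respect to the two forms -/
theorem slope (hQ : Hyp d Q) {v w : V} (hv : Cn Q v) (hw : wd v w = 1) :
    |((maj Q).B v w : ℝ) / (2 * (maj Q).q v) - (Q.B v w : ℝ) / (2 * Q.q v)| ≤
      √(d : ℝ) / (2 * Q.q v) := by
  have ha : (0 : ℝ) < Q.a := by exact_mod_cast hQ.apos
  have hq : (0 : ℝ) < Q.q v := by exact_mod_cast hv.q_pos hQ
  have hs := hQ.sd
  have h1 := hQ.wd_eq v w
  rw [hw] at h1
  push_cast at h1
  have h2 := hQ.q_eq v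
  rw [maj_q hQ, maj_B hQ, hQ.B_eq, h2]
  rw [h2] at hq
  set X := hX Q v
  set Y := hY Q v
  set X' := hX Q w
  set Y' := hY Q w
  have hS : 0 < X ^ 2 + Y ^ 2 := by nlinarith [sq_nonneg Y]
  have e : 8 * (Q.a : ℝ) * (X * X' + Y * Y') / (2 * (4 * Q.a * (X ^ 2 + Y ^ 2))) -
      2 * (X * X' - Y * Y') / (2 * (X ^ 2 - Y ^ 2)) =
      (2 * (X * Y) * (X * Y' - X' * Y)) / ((X ^ 2 + Y ^ 2) * (X ^ 2 - Y ^ 2)) := by
    field_simp
    ring
  rw [e, h1, abs_div, abs_of_pos (mul_pos hS hq), div_le_div_iff₀ (mul_pos hS hq) (by linarith)]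
  have h3 : |2 * (X * Y) * (√(d : ℝ) / 2 * 1)| = 2 * |X * Y| * (√(d : ℝ) / 2) := by
    rw [mul_one, abs_mul, abs_mul, abs_of_pos (by linarith : (0 : ℝ) < √(d : ℝ) / 2)]
    simp
  rw [h3]
  have h4 : 2 * |X * Y| ≤ X ^ 2 + Y ^ 2 := by
    rw [abs_mul]
    nlinarith [sq_nonneg (|X| - |Y|), sq_abs X, sq_abs Y]
  have h5 : 0 ≤ √(d : ℝ) * (X ^ 2 - Y ^ 2) := (mul_pos hs hq).le
  nlinarith [mul_le_mul_of_nonneg_right h4 h5]

theorem partners (v : V) (hq0 : 0 < Q.q v) (hv : Prim v) {s1 s2 : ℝ} (hs : s1 ≤ s2)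
    (T : Finset V) (hT : ∀ v' ∈ T, wd v v' = 1 ∧
    2 * s1 * (Q.q v : ℝ) ≤ (Q.B v v' : ℝ) ∧ (Q.B v v' : ℝ) ≤ 2 * s2 * (Q.q v : ℝ)) :
    (T.card : ℝ) ≤ s2 - s1 + 1 := by
  rcases T.eq_empty_or_nonempty with h | ⟨w0, hw0⟩
  · rw [h]
    simp only [card_empty, CharP.cast_eq_zero]
    linarith
  · have hq : (0 : ℝ) < Q.q v := by exact_mod_cast hq0
    set α : ℝ := (2 * s1 * Q.q v - Q.B v w0) / (2 * Q.q v) with hα
    set β : ℝ := (2 * s2 * Q.q v - Q.B v w0) / (2 * Q.q v) with hβ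
    have hαβ : β - α = s2 - s1 := by
      rw [hα, hβ]
      field_simp
      ring
    have h0 := hT w0 hw0
    have hα0 : α ≤ 0 := by
      rw [hα]
      apply div_nonpos_of_nonpos_of_nonneg
      · linarith
      · linarith
    have hβ0 : 0 ≤ β := by
      rw [hβ]
      apply div_nonneg
      · linarith
      · linarith
    have h1 : T ⊆ (Finset.Icc ⌈α⌉ ⌊β⌋).image (fun t : ℤ => w0 + t • v) := by
      intro w hw
      have h2 : wd (w - w0) v = 0 := by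
        rw [wd_comm, wd_sub_right, (hT w hw).1, (hT w0 hw0).1, sub_self, neg_zero]
      obtain ⟨t, ht⟩ := par46 hv h2
      have hw' : w = w0 + t • v := by
        rw [← ht]
        abel
      rw [Finset.mem_image]
      refine ⟨t, ?_, hw'.symm⟩
      have h3 : Q.B v w = Q.B v w0 + 2 * t * Q.q v := by
        rw [hw', Form.B_add_right, Form.B_smul_right, Form.B_self]
        ring
      have h4 : (Q.B v w : ℝ) = Q.B v w0 + 2 * t * Q.q v := by rw [h3]; push_cast; ring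
      have h5 := hT w hw
      rw [h4] at h5
      rw [Finset.mem_Icc, Int.ceil_le, Int.le_floor]
      constructor
      · rw [hα, div_le_iff₀ (by positivity)]
        linarith [h5.2.1]
      · rw [hβ, le_div_iff₀ (by positivity)]
        linarith [h5.2.2]
    have h2 := (Finset.card_le_card h1).trans Finset.card_image_le
    rw [Int.card_Icc] at h2
    have h3 : ⌈α⌉ ≤ 0 := Int.ceil_le.2 (by simpa using hα0)
    have h4 : 0 ≤ ⌊β⌋ := Int.le_floor.2 (by simpa using hβ0)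
    have h5 : (T.card : ℤ) ≤ ⌊β⌋ + 1 - ⌈α⌉ := by omega
    have h6 : (T.card : ℝ) ≤ ⌊β⌋ + 1 - ⌈α⌉ := by exact_mod_cast h5
    have h7 := Int.floor_le β
    have h8 := Int.le_ceil α
    linarith

theorem prim_of_wd {v w : V} (h : wd v w = 1) : Prim v := by
  unfold Prim
  unfold wd at h
  rw [← Int.isCoprime_iff_gcd_eq_one]
  exact ⟨w.2, -w.1, by linarith⟩

/-- the trivial bound -/
theorem triv (hQ : Hyp d Q) {T : ℝ} : ∃ C : ℝ, 0 < C ∧
    ∀ n s1 s2 : ℝ, 1 ≤ n → s1 ≤ s2 → (HF Q T n s1 s2).Finite ∧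
      ((HF Q T n s1 s2).ncard : ℝ) ≤ C * (s2 - s1 + 1) * n := by
  classical
  have hF := maj_pos hQ
  have ha : (1 : ℝ) ≤ Q.a := by exact_mod_cast hQ.apos
  have hc1 : (1 : ℝ) ≤ Real.cosh (2 * T) := Real.one_le_cosh _
  have hFa : (1 : ℝ) ≤ (maj Q).a := by exact_mod_cast hF.1
  have hFc : (1 : ℝ) ≤ (maj Q).c := by exact_mod_cast hF.c_pos
  set c1 : ℝ := 4 * Q.a * Real.cosh (2 * T) with hc1d
  have hc1p : 1 ≤ c1 := by
    rw [hc1d]
    nlinarith
  refine ⟨36 * ((maj Q).a + (maj Q).c) * c1, by positivity, ?_⟩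
  intro n s1 s2 hn hs
  apply fin_of_card
  intro S hS
  have h1 : ∀ v ∈ S.image Prod.fst, (((S.filter fun x => x.1 = v).card : ℕ) : ℝ) ≤ s2 - s1 + 1 := by
    intro v hv
    rw [Finset.mem_image] at hv
    obtain ⟨f, hf, rfl⟩ := hv
    obtain ⟨g1, g2, g3, g4, g5, g6⟩ := hS f hf
    have h2 : (S.filter fun x => x.1 = f.1).card =
        ((S.filter fun x => x.1 = f.1).image Prod.snd).card := by
      rw [Finset.card_image_of_injOn]
      intro x hx y hy hxy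
      simp only [Finset.coe_filter, Set.mem_ofPred_eq] at hx hy
      exact Prod.ext (hx.2.trans hy.2.symm) hxy
    rw [h2]
    refine partners f.1 (g2.1.q_pos hQ) (prim_of_wd g1) hs _ ?_
    intro v' hv'
    rw [Finset.mem_image] at hv'
    obtain ⟨g, hg, rfl⟩ := hv'
    rw [Finset.mem_filter] at hg
    obtain ⟨k1, k2, k3, k4, k5, k6⟩ := hS g hg.1
    rw [← hg.2]
    exact ⟨k1, k5, k6⟩
  have h2 : (S.card : ℝ) ≤ (s2 - s1 + 1) * (S.image Prod.fst).card := by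
    rw [Finset.card_eq_sum_card_image Prod.fst S]
    push_cast
    calc ∑ b ∈ S.image Prod.fst, ((S.filter fun x => x.1 = b).card : ℝ) ≤
        ∑ b ∈ S.image Prod.fst, (s2 - s1 + 1) := Finset.sum_le_sum h1
      _ = _ := by rw [Finset.sum_const, nsmul_eq_mul]; ring
  have h3 : ((S.image Prod.fst).card : ℝ) ≤ 36 * ((maj Q).a + (maj Q).c) * (c1 * n) := by
    refine C27.card_ball hF (by nlinarith) _ ?_
    intro w hw
    rw [Finset.mem_image] at hw
    obtain ⟨f, hf, rfl⟩ := hw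
    obtain ⟨g1, g2, g3, g4, g5, g6⟩ := hS f hf
    refine (maj_le hQ g2).2.trans ?_
    rw [← hc1d]
    have : 0 ≤ c1 := by linarith
    gcongr
  calc (S.card : ℝ) ≤ (s2 - s1 + 1) * (S.image Prod.fst).card := h2
    _ ≤ (s2 - s1 + 1) * (36 * ((maj Q).a + (maj Q).c) * (c1 * n)) := by
        have : 0 ≤ s2 - s1 + 1 := by linarith
        gcongr
    _ = _ := by ring

theorem HF_mono {T n n' s1 s2 s2' : ℝ} (hQ : Hyp d Q) (hn : n ≤ n') (hs : s2 ≤ s2') :
    HF Q T n s1 s2 ⊆ HF Q T n' s1 s2' := by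
  rintro f ⟨g1, g2, g3, g4, g5, g6⟩
  have hq : (0 : ℝ) < Q.q f.1 := by exact_mod_cast g2.1.q_pos hQ
  refine ⟨g1, g2, g3, g4.trans hn, g5, g6.trans ?_⟩
  nlinarith

end Up79

open Up79

/-- (F3) -/
theorem stHup_79 (hR : StR) : StHup := by
  intro d Q hQ T hT
  obtain ⟨C1, hC1, htriv⟩ := triv hQ (T := T)
  have hfin : ∀ n s1 s2 : ℝ, (HF Q T n s1 s2).Finite := by
    intro n s1 s2
    exact (htriv (max n 1) s1 (max s1 s2) (le_max_right _ _) (le_max_left _ _)).1.subset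
      (HF_mono hQ (le_max_left _ _) (le_max_right _ _))
  refine ⟨hfin, ?_⟩
  have hF := maj_pos hQ
  have ha : (1 : ℝ) ≤ Q.a := by exact_mod_cast hQ.apos
  obtain ⟨_, hRF⟩ := hR (maj Q) hF
  obtain ⟨c, hc, _, hcc⟩ := hRF 1 one_pos
  set c1 : ℝ := 4 * Q.a * Real.cosh (2 * T) with hc1d
  have hc1p : 1 ≤ c1 := by
    have := Real.one_le_cosh (2 * T)
    rw [hc1d]
    nlinarith
  set r2 : ℝ := √(2 * c1) with hr2
  have hr2s : r2 ^ 2 = 2 * c1 := Real.sq_sqrt (by linarith)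
  have hr2p : 0 < r2 := Real.sqrt_pos.2 (by linarith)
  refine ⟨C1 + 12 * c * c1, by positivity, ?_, ?_⟩
  · intro n s1 s2 hn hs
    refine (htriv n s1 s2 hn hs).2.trans ?_
    have h0 : 0 ≤ (s2 - s1 + 1) * n := mul_nonneg (by linarith) (by linarith)
    have h1 : 0 ≤ 12 * c * c1 := by positivity
    nlinarith [mul_nonneg h1 h0]
  · intro s1 s2 hs1 hs
    have hL : 0 < s2 - s1 := by linarith
    set η : ℝ := (s2 - s1) / (s2 - s1 + 1) with hη
    have hη0 : 0 < η := by positivity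
    have hη1 : η * (s2 - s1 + 1) = s2 - s1 := by
      rw [hη]; field_simp
    have hdet : ((1 : ℕ) : ℤ) ∣ (⟨1, 0, 0, 1⟩ : Mat).det - 1 := by simp
    obtain ⟨hff, hlim⟩ := hcc ⟨1, 0, 0, 1⟩ hdet 0 r2 (s1 - (s2 - s1)) (s2 + (s2 - s1)) le_rfl
      hr2p (by linarith)
    have hval : c * (r2 ^ 2 - 0 ^ 2) * (s2 + (s2 - s1) - (s1 - (s2 - s1))) =
        6 * c * c1 * (s2 - s1) := by rw [hr2s]; ring
    rw [hval] at hlim
    have hpos : 0 < 6 * c * c1 * (s2 - s1) := by positivity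
    have hev := hlim.eventually (gt_mem_nhds (by linarith :
      6 * c * c1 * (s2 - s1) < 2 * (6 * c * c1 * (s2 - s1))))
    filter_upwards [hev, eventually_ge_atTop 1, eventually_ge_atTop (⌈1 / η⌉₊),
      eventually_ge_atTop (⌈√(d : ℝ) / (η * (s2 - s1))⌉₊)] with n hn hn1 hn2 hn3
    have hn0 : (0 : ℝ) < n := by exact_mod_cast hn1
    have hn2' : 1 ≤ η * n := by
      have := (Nat.ceil_le.1 hn2)
      rw [div_le_iff₀ hη0] at this
      linarith
    have hn3' : √(d : ℝ) ≤ η * (s2 - s1) * n := by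
      have := (Nat.ceil_le.1 hn3)
      rw [div_le_iff₀ (by positivity)] at this
      linarith
    have hsub : HF Q T n s1 s2 ⊆ HF Q T (η * n) s1 s2 ∪
        frames (maj Q) 1 ⟨1, 0, 0, 1⟩ 0 r2 (s1 - (s2 - s1)) (s2 + (s2 - s1)) n := by
      rintro f ⟨g1, g2, g3, g4, g5, g6⟩
      by_cases hq : (Q.q f.1 : ℝ) ≤ η * n
      · exact Or.inl ⟨g1, g2, g3, hq, g5, g6⟩
      · push Not at hq
        have hq0 : (0 : ℝ) < Q.q f.1 := by exact_mod_cast g2.1.q_pos hQ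
        have h1 := slope hQ g2.1 g1
        have h2 : √(d : ℝ) / (2 * Q.q f.1) ≤ (s2 - s1) / 2 := by
          rw [div_le_div_iff₀ (by positivity) (by norm_num)]
          nlinarith
        have h3 := abs_le.1 (h1.trans h2)
        have h4 : s1 ≤ (Q.B f.1 f.2 : ℝ) / (2 * Q.q f.1) := by
          rw [le_div_iff₀ (by positivity)]; linarith
        have h5 : (Q.B f.1 f.2 : ℝ) / (2 * Q.q f.1) ≤ s2 := by
          rw [div_le_iff₀ (by positivity)]; linarith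
        have h6 := (maj_le hQ g2).2
        have h7 : (0 : ℝ) ≤ (maj Q).q f.1 := by exact_mod_cast hF.q_nonneg f.1
        refine Or.inr ⟨g1, by simp, by simp, by simp, by simp, ?_, ?_, ?_, ?_⟩
        · linarith
        · rw [hr2s]
          rw [← hc1d] at h6
          have : c1 * (Q.q f.1 : ℝ) ≤ c1 * n := by gcongr
          nlinarith
        · linarith [h3.1]
        · linarith [h3.2]
    have h1 : (HF Q T n s1 s2).ncard ≤ (HF Q T (η * n) s1 s2).ncard +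
        (frames (maj Q) 1 ⟨1, 0, 0, 1⟩ 0 r2 (s1 - (s2 - s1)) (s2 + (s2 - s1)) n).ncard :=
      (Set.ncard_le_ncard hsub ((hfin _ _ _).union (hff n))).trans (Set.ncard_union_le _ _)
    have h2 := (htriv (η * n) s1 s2 hn2' hs.le).2
    have h3 : ((frames (maj Q) 1 ⟨1, 0, 0, 1⟩ 0 r2 (s1 - (s2 - s1)) (s2 + (s2 - s1)) n).ncard : ℝ)
        ≤ 2 * (6 * c * c1 * (s2 - s1)) * n := by
      have := hn.le
      rwa [div_le_iff₀ hn0] at this
    have h4 : ((HF Q T n s1 s2).ncard : ℝ) ≤ (HF Q T (η * n) s1 s2).ncard +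
        (frames (maj Q) 1 ⟨1, 0, 0, 1⟩ 0 r2 (s1 - (s2 - s1)) (s2 + (s2 - s1)) n).ncard := by
      exact_mod_cast h1
    calc ((HF Q T n s1 s2).ncard : ℝ) ≤ C1 * (s2 - s1 + 1) * (η * n) +
        2 * (6 * c * c1 * (s2 - s1)) * n := by linarith
      _ = C1 * (η * (s2 - s1 + 1)) * n + 12 * c * c1 * (s2 - s1) * n := by ring
      _ = _ := by rw [hη1]; ring

end Pool.Agent.Lib.MP_a17b09_nt.HY
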