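import Pool.Agent.Lib.MP_a17b09_nt.CH.TopS64
import Pool.Agent.Lib.MP_a17b09_nt.HY.Cnt84
import Pool.Agent.Lib.MP_a17b09_nt.HY.C027
import Pool.Agent.Lib.MP_a17b09_nt.HY.AP25
import Pool.Agent.Lib.MP_a17b09_nt.HY.Bs60
import Pool.Agent.Lib.MP_a17b09_nt.HY.HD38
import Pool.Agent.Lib.MP_a17b09_nt.HY.Dils1
import Pool.Agent.Lib.MP_a17b09_nt.HY.Per54
import Pool.Agent.Lib.MP_a17b09_nt.HY.Coord20
import Pool.Agent.Lib.MP_a17b09_nt.HY.TopA60
import Pool.Agent.Lib.MP_a17b09_nt.HY.Cnt26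
import Pool.Agent.Lib.MP_a17b09_nt.HY.Mg46
import Pool.Agent.Lib.MP_a17b09_nt.HY.Svu46
import Pool.Agent.Lib.MP_a17b09_nt.HY.Psv46
import Pool.Agent.Lib.MP_a17b09_nt.HY.Shift20
import Pool.Agent.Lib.MP_a17b09_nt.HY.Plat96
import Pool.Agent.Lib.MP_a17b09_nt.HY.Dens26
import Pool.Agent.Lib.MP_a17b09_nt.HY.TK26
import Pool.Agent.Lib.MP_a17b09_nt.HY.Op27
import Pool.Agent.Lib.MP_a17b09_nt.HY.Sq7
import Pool.Agent.Lib.MP_a17b09_nt.HY.PsA17
import Pool.Agent.Lib.MP_a17b09_nt.HY.PsiS1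
import Pool.Agent.Lib.MP_a17b09_nt.HY.Unf54
import Pool.Agent.Lib.MP_a17b09_nt.HY.RedS38
import Pool.Agent.Lib.MP_a17b09_nt.HY.HEs38
import Pool.Agent.Lib.MP_a17b09_nt.HY.Sys68
import Pool.Agent.Lib.MP_a17b09_nt.HY.Wt68
import Pool.Agent.Lib.MP_a17b09_nt.HY.Up79
import Pool.Agent.Lib.MP_a17b09_nt.HY.On93
import Pool.Agent.Lib.MP_a17b09_nt.HY.TwM68
import Pool.Agent.Lib.MP_a17b09_nt.HY.FinM93
import Pool.Agent.Lib.MP_a17b09_nt.HY.EndH20
import Pool.Agent.Lib.MP_a17b09_nt.HY.One73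
import Pool.Agent.Lib.MP_a17b09_nt.HY.Sim27
import Pool.Agent.Lib.MP_a17b09_nt.HY.Fm49
import Pool.Agent.Lib.MP_a17b09_nt.HY.Pair97
import Pool.Agent.Lib.MP_a17b09_nt.HY.RedPt97
import Pool.Agent.Lib.MP_a17b09_nt.HY.Hbox7
import Pool.Agent.Lib.MP_a17b09_nt.HY.R2_46
import Pool.Agent.Lib.MP_a17b09_nt.HY.CntG18
import Pool.Agent.Lib.MP_a17b09_nt.HY.MainS93

/-!
Project HY: assembly, positive discriminant.
-/

set_option autoImplicit false

open Filter Topology Finset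

namespace Pool.Agent.Lib.MP_a17b09_nt.HY

open Pool.Agent.Lib.MP_a17b09_nt.CH

namespace TopH20

theorem hcnt : StHcnt := stHcnt_84

theorem hC0 : StHC0 := stHC0_27 hcnt

theorem hAP : StAP := stAP_25 hcnt

theorem hBs : StHBs := stHBs_60 F64.stBs_all hAP hC0 F64.stC0_all stMd_18

theorem hD : StHD := stHD_38 F64.stD_all hAP

theorem hDils : StHDils := stHDils_1 hcnt hC0

/-- Theorem A for one system and one pair of roots of unity from Theorem E for them -/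
theorem hAm : StHAm := stHAm_60 hC0 hDils hBs hD (stHper_54 hC0) stHpow_20 stPri_40 stTel_18
  stMd_18

theorem hMg : StHMg := stHMg_46 stHCnt_26

theorem hPsv : StHPsv := stHPsv_46 stHCnt_26

theorem hPlat : StHPlat := stHPlat_96 PE.stGood_17 PE.stInv_17 PE.stHil_17 stHMb_26 hMg
  (stHShift_20 stHCoord_20 stHCnt_26)

theorem hOne : StHOne := stHOne_73 stHMb_26

theorem hDens : StHDens := stHDens_26 stHMb_26 hOne

theorem hPsiS : StHPsiS :=
  stHPsiS_1 (stHPsA_17 (stHSq_7 (stHOp_27 (stHTK_26 stHMb_26 hDens) stHSim_27 hDens stHMb_26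
    hMg) hPlat stHMb_26 hMg) hPsv stHMb_26 hMg) (stTri_33 PV.stPnti_40) hPsv

theorem hRedPt : StHRedPt := stHRedPt_97 stHPair_97 hcnt

theorem hRedS : StHRedS := stHRedS_38 hRedPt (stHUnf_54 stHCoord_20)

/-- Theorem E for `z1 * z2 ≠ 1` -/
theorem hEs : StHEs := stHEs_38 hPsiS hRedS hPsv hC0

theorem hUp : StHup := stHup_79 F64.stR_all

theorem hOn : StHOn := stHOn_93 stHSys_68 hUp

theorem hFm : StHFm := stHFm_49 hC0 hUp

/-- invariance under `(1, 1)` -/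
theorem hFinM : StHFinM := stHFinM_93 (stHTwM_68 hAm hEs hFm) hOn

/-- the number of all pairs -/
theorem hMainS : StHMainS := stHMainS_93 (stHCntG_18 (stHR_46 stHbox_7) stHSys_68)

/-- no integral zeros -/
theorem fv_ne {a b c : ℤ} (h : ¬ IsSquare (b ^ 2 - 4 * a * c)) (t : ℕ) : fv a b c t ≠ 0 := by
  intro h0
  apply h
  refine ⟨2 * a * t + b, ?_⟩
  unfold fv at h0
  linear_combination (-4 * a) * h0

/-- the theorem for every positive nonsquare discriminant (odd `k` for the parity part) -/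
theorem top_HS (a b c : ℤ) (ha : 0 < a) (hD0 : 0 ≤ b ^ 2 - 4 * a * c)
    (hns : ¬ IsSquare (b ^ 2 - 4 * a * c)) (h t₀ : ℕ) (hh : 0 < h) (α β : ℝ) (hα : 0 < α)
    (hαβ : α < β) :
    ∃ κ : ℝ, 0 < κ ∧
      Tendsto (fun N : ℕ => (pairCount a b c h t₀ α β (fun _ _ => True) N : ℝ) / N) atTop
        (𝓝 κ) ∧
      (∀ k : ℕ, Odd k → ∀ r : ℕ, (∀ ε : ℝ, 0 < ε → LogNull {N : ℕ | ε * N <
          |(pairCount a b c h t₀ α β (fun t _ =>
            ArithmeticFunction.cardFactors (a * (t : ℤ) ^ 2 + b * t + c).natAbs ≡ r [MOD k]) N : ℝ)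
            - κ / k * N|}) ∧
        ∃ c' : ℝ, 0 < c' ∧ ∀ᶠ N : ℕ in atTop, c' * N ≤
          (pairCount a b c h t₀ α β (fun t _ =>
            ArithmeticFunction.cardFactors (a * (t : ℤ) ^ 2 + b * t + c).natAbs ≡ r [MOD k])
              N : ℝ)) ∧
      (∀ k : ℕ, 0 < k → ∀ r s : ℕ, ∀ ε : ℝ, 0 < ε → LogNull {N : ℕ | ε * N <
        |(pairCount a b c h t₀ α β (fun t d => ArithmeticFunction.cardFactors d ≡ r [MOD k] ∧
          ArithmeticFunction.cardFactors ((a * (t : ℤ) ^ 2 + b * t + c).natAbs / d) ≡ s [MOD k])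
            N : ℝ)
        - pairCount a b c h t₀ α β (fun t d => ArithmeticFunction.cardFactors d ≡ r + 1 [MOD k] ∧
          ArithmeticFunction.cardFactors ((a * (t : ℤ) ^ 2 + b * t + c).natAbs / d)
            ≡ s + 1 [MOD k]) N|}) := by
  obtain ⟨d, hd⟩ : ∃ d : ℕ, b ^ 2 - 4 * a * c = d := ⟨_, (Int.toNat_of_nonneg hD0).symm⟩
  have hns' : ¬ IsSquare d := by
    rintro ⟨s, hs⟩
    apply hns
    refine ⟨s, ?_⟩
    rw [hd, hs]
    push_cast
    ring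
  exact endHS stMeanU_70 a b c (fv_ne hns) h t₀ α β (hMainS a b c ha d hd hns' h hh t₀ α β hα hαβ)
    (hOn a b c ha d hd hns' h hh t₀ α β hα hαβ)
    (fun k hk r s M => hFinM a b c ha d hd hns' k hk h t₀ α β hh hα hαβ r s M)

end TopH20

end Pool.Agent.Lib.MP_a17b09_nt.HY
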