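import Pool.Agent.Lib.MP_a17b09_nt.HY.Stmts20
import Pool.Agent.Lib.MP_a17b09_nt.CH.Psi17

/-!
Project HY: common facts on the class functions `gc` and on the systems.
-/

set_option autoImplicit false

open Filter Topology Finset

namespace Pool.Agent.Lib.MP_a17b09_nt.HY.Inv7

open Pool.Agent.Lib.MP_a17b09_nt.CH
open Pool.Agent.Lib.MP_a17b09_nt.CH.PE

theorem gcd_app {A : Mat} (hA : A.det = 1) (v : V) :
    Int.gcd (A.app v).1 (A.app v).2 ∣ Int.gcd v.1 v.2 := by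
  unfold Mat.det at hA
  have h1 : ((Int.gcd (A.app v).1 (A.app v).2 : ℕ) : ℤ) ∣ (A.app v).1 := Int.gcd_dvd_left ..
  have h2 : ((Int.gcd (A.app v).1 (A.app v).2 : ℕ) : ℤ) ∣ (A.app v).2 := Int.gcd_dvd_right ..
  apply Int.dvd_gcd
  · have e : v.1 = A.d * (A.app v).1 - A.b * (A.app v).2 := by
      unfold Mat.app
      linear_combination (-v.1) * hA
    rw [e]
    exact dvd_sub (h1.mul_left _) (h2.mul_left _)
  · have e : v.2 = A.a * (A.app v).2 - A.c * (A.app v).1 := by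
      unfold Mat.app
      linear_combination (-v.2) * hA
    rw [e]
    exact dvd_sub (h2.mul_left _) (h1.mul_left _)

theorem prim_app_of {A : Mat} (hA : A.det = 1) {v : V} (hv : Prim v) : Prim (A.app v) := by
  unfold Prim at hv ⊢
  have h1 := gcd_app hA v
  rw [hv] at h1
  exact Nat.dvd_one.1 h1

theorem prim_act {d : ℕ} {Q : Form} (hQ : Hyp d Q) (a : Pell.Solution₁ (d : ℤ)) (v : V) :
    Prim (act Q a v) ↔ Prim v := by
  constructor
  · intro h
    have h1 := prim_app_of (det_au hQ a⁻¹) h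
    have h2 : (au Q (a⁻¹).x (a⁻¹).y).app (act Q a v) = v := by
      have h3 := act_mul hQ a⁻¹ a v
      rw [inv_mul_cancel, act_one] at h3
      exact h3.symm
    rwa [h2] at h1
  · intro h
    exact prim_app_of (det_au hQ a) h

theorem cl_act {d : ℕ} {Q : Form} {K : ℕ} {a : Pell.Solution₁ (d : ℤ)} (h : PK K a) (v : V) :
    cl K (act Q a v) = cl K v := by
  obtain ⟨h1, h2⟩ := h
  have e1 : ((a.x : ℤ) : ZMod K) = 1 := by
    have := (ZMod.intCast_zmod_eq_zero_iff_dvd (a.x - 1) K).2 h1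
    push_cast at this
    linear_combination this
  have e2 : ((a.y : ℤ) : ZMod K) = 0 := (ZMod.intCast_zmod_eq_zero_iff_dvd a.y K).2 h2
  unfold cl act au Mat.app
  apply Prod.ext
  · simp only
    push_cast
    rw [e1, e2]
    ring
  · simp only
    push_cast
    rw [e1, e2]
    ring

theorem gz_act {d : ℕ} {Q : Form} (hQ : Hyp d Q) (a : Pell.Solution₁ (d : ℤ)) (z : ℂ) (v : V) :
    gz z Q (act Q a v) = gz z Q v := by
  unfold gz
  rw [q_act hQ]

/-- the class functions are invariant under the automorphs congruent to `1` -/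
theorem gc_AI {d : ℕ} {Q : Form} (hQ : Hyp d Q) {K : ℕ} {a : Pell.Solution₁ (d : ℤ)} (h : PK K a)
    (z : ℂ) (α : ZMod K × ZMod K) : AI Q a (gc z Q K α) := by
  intro v
  unfold gc
  rw [cl_act h, gz_act hQ]
  by_cases hp : Prim v
  · have := (prim_act hQ a v).2 hp
    simp only [this, hp, true_and]
  · have := mt (prim_act hQ a v).1 hp
    simp only [this, hp, false_and, if_false]

/-- restrictions of invariant functions to classes -/
theorem rc_AI {d : ℕ} {Q : Form} (hQ : Hyp d Q) {K : ℕ} {a : Pell.Solution₁ (d : ℤ)} (h : PK K a)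
    {g : V → ℂ} (hg : AI Q a g) (α : ZMod K × ZMod K) : AI Q a (rc g α) := by
  intro v
  unfold rc
  rw [cl_act h, hg v]
  by_cases hp : Prim v
  · have := (prim_act hQ a v).2 hp
    simp only [this, hp, true_and]
  · have := mt (prim_act hQ a v).1 hp
    simp only [this, hp, false_and, if_false]

/-- the local sums of a family of forms are bounded uniformly -/
theorem hmm_bound (hMb : StHMb) {ι : Type} [Fintype ι] {d : ℕ} (Q : ι → Form)
    (hQ : ∀ i, Hyp d (Q i)) {B : ℝ} {G : ℝ → ℝ → ℝ} (hG : GT B G) :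
    ∃ C : ℝ, 0 ≤ C ∧ ∀ i (g : V → ℂ), Ug g → ∀ τ L x θ : ℝ, 1 ≤ L →
      ‖hmm (Q i) τ g G L x θ‖ ≤ C := by
  obtain ⟨c, hc⟩ := hG.bd
  have h1 : ∀ i, ∃ C : ℝ, ∀ g : V → ℂ, Ug g → ∀ τ L x θ : ℝ, 1 ≤ L →
      ‖hmm (Q i) τ g G L x θ‖ ≤ C := by
    intro i
    obtain ⟨C, hC⟩ := (hMb d (Q i) (hQ i) B hG.1).2
    exact ⟨C * c * 1, fun g hg τ L x θ hL => hC G c hG.2.1 hc g 1 hg.2 hg.1 τ L x θ hL⟩
  choose C hC using h1
  refine ⟨∑ i, |C i|, Finset.sum_nonneg fun i _ => abs_nonneg _, fun i g hg τ L x θ hL => ?_⟩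
  refine (hC i g hg τ L x θ hL).trans ((le_abs_self _).trans ?_)
  exact Finset.single_le_sum (f := fun i => |C i|) (fun j _ => abs_nonneg _) (Finset.mem_univ i)

theorem hom_inv {ι : Type} (S : HSystem ι) {K : ℕ} [NeZero K] {om : ι → V → V → ℂ}
    (h : HWt S K om) {p : ℕ} (hp : p.Prime) (h4 : p ≡ 1 [MOD 4 * S.d]) (hK : p ≡ 1 [MOD K]) (i : ι)
    (hdet : (((S.M p i).det : ℤ) : ZMod K) = 1) (α β : ZMod K × ZMod K) :
    om (S.s p i) (rz (az (adj (S.M p i)) α)) (rz (az (adj (S.M p i)) β)) =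
      om i (rz α) (rz β) := by
  have key : ∀ γ : ZMod K × ZMod K,
      cl K ((S.M p i).app (rz (az (adj (S.M p i)) γ))) = cl K (rz γ) := by
    intro γ
    rw [cl_app, cl_rz, az_adj _ hdet, cl_rz]
  obtain ⟨a, ha⟩ := exists_of_cl (key α)
  obtain ⟨b, hb⟩ := exists_of_cl (key β)
  rw [← h.inv p hp h4 hK i, ha, hb, h.per]

theorem hdet_one {ι : Type} (S : HSystem ι) {K : ℕ} {p : ℕ} (hp : p.Prime)
    (h4 : p ≡ 1 [MOD 4 * S.d]) (hK : p ≡ 1 [MOD K]) (i : ι) :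
    (((S.M p i).det : ℤ) : ZMod K) = 1 := by
  rw [S.det p hp h4 i]
  have h1 := (ZMod.natCast_eq_natCast_iff p 1 K).2 hK
  push_cast at h1 ⊢
  exact h1

section main

variable (M : LMean) {ι : Type} [Fintype ι] (S : HSystem ι) (K : ℕ) [NeZero K]

/-- the local functions of the system -/
noncomputable def hmF (τ : ℝ) (z : ℂ) (G : ℝ → ℝ → ℝ) (L : ℝ) (j : ι × (ZMod K × ZMod K)) :
    ℝ → ℝ → ℂ := hmm (S.Q j.1) τ (gc z (S.Q j.1) K j.2) G L

/-- the index after the similitude -/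
def hjp (p : ℕ) (j : ι × (ZMod K × ZMod K)) : ι × (ZMod K × ZMod K) :=
  (S.s p j.1, az (adj (S.M p j.1)) j.2)

/-- the transformed functions -/
noncomputable def huF (τ : ℝ) (φ : ℕ → ι → ℝ) (z : ℂ) (G : ℝ → ℝ → ℝ) (L : ℝ) (p : ℕ)
    (j : ι × (ZMod K × ZMod K)) (o : ℕ × ℝ) : ℂ :=
  z * hmF S K τ z G L (hjp S K p j) ((o.1 : ℝ) / p) (o.2 - φ p j.1)

theorem hsum_jp (p : ℕ) (hp : p.Prime) (h4 : p ≡ 1 [MOD 4 * S.d]) (hK : p ≡ 1 [MOD K])
    {β : Type*} [AddCommMonoid β] (f : ι × (ZMod K × ZMod K) → β) :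
    ∑ j, f (hjp S K p j) = ∑ j, f j := by
  rw [Fintype.sum_prod_type, Fintype.sum_prod_type]
  have h1 : ∀ i, ∑ α : ZMod K × ZMod K, f (hjp S K p (i, α)) = ∑ α, f (S.s p i, α) := by
    intro i
    exact Equiv.sum_comp (azE (S.M p i) (hdet_one S hp h4 hK i)) (fun α => f (S.s p i, α))
  rw [Finset.sum_congr rfl fun i _ => h1 i]
  exact Equiv.sum_comp (S.s p) (fun i => ∑ α, f (i, α))

end main

end Pool.Agent.Lib.MP_a17b09_nt.HY.Inv7
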