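import Pool.Agent.Lib.MP_a17b09_nt.HY.Stmts20
import Pool.Agent.Lib.MP_a17b09_nt.CH.C027

/-!
Project HY (MP_a17b09): (A3), approximation of the sector sum by sums for definite forms,
module StAP.
-/

set_option autoImplicit false

open Filter Topology Finset

namespace Pool.Agent.Lib.MP_a17b09_nt.HY

open Pool.Agent.Lib.MP_a17b09_nt.CH

namespace AP25

/-! ### Light cone coordinates -/

/-- first light cone coordinate -/
noncomputable def pl (Q : Form) (v : V) : ℝ := hX Q v + hY Q v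

/-- second light cone coordinate -/
noncomputable def mi (Q : Form) (v : V) : ℝ := hX Q v - hY Q v

/-- a constant of the form -/
noncomputable def be (d : ℕ) (Q : Form) : ℝ := ((Q.b : ℝ) + √(d : ℝ)) / (2 * √(Q.a : ℝ))

variable {d : ℕ} {Q : Form}

theorem q_pm (hQ : Hyp d Q) (v : V) : (Q.q v : ℝ) = pl Q v * mi Q v := by
  rw [hQ.q_eq]; unfold pl mi; ring

theorem wd_pm (hQ : Hyp d Q) (v w : V) :
    mi Q v * pl Q w - pl Q v * mi Q w = √(d : ℝ) * wd v w := by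
  have := hQ.wd_eq v w
  unfold pl mi
  linear_combination 2 * this

theorem pl_eq (hQ : Hyp d Q) (v : V) : pl Q v = √(Q.a : ℝ) * v.1 + be d Q * v.2 := by
  have h1 := hQ.sa
  unfold pl be
  rw [hQ.hY_eq]
  unfold hX
  field_simp
  ring

theorem coord1 (hQ : Hyp d Q) {v w : V} (hp : pl Q v ≠ 0) :
    (w.1 : ℝ) = pl Q w / pl Q v * v.1 - wd v w / pl Q v * be d Q := by
  have h1 := pl_eq hQ v
  have h2 := pl_eq hQ w
  have h3 : pl Q v * w.1 = pl Q w * v.1 - wd v w * be d Q := by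
    rw [h1, h2]; unfold wd; push_cast; ring
  field_simp
  linarith

theorem coord2 (hQ : Hyp d Q) {v w : V} (hp : pl Q v ≠ 0) :
    (w.2 : ℝ) = pl Q w / pl Q v * v.2 + wd v w / pl Q v * √(Q.a : ℝ) := by
  have h1 := pl_eq hQ v
  have h2 := pl_eq hQ w
  have h3 : pl Q v * w.2 = pl Q w * v.2 + wd v w * √(Q.a : ℝ) := by
    rw [h1, h2]; unfold wd; push_cast; ring
  field_simp
  linarith

/-- the coordinates of a vector of the upper half of the cone -/
theorem coord_le (hQ : Hyp d Q) : ∃ C : ℝ, 0 ≤ C ∧ ∀ v : V, Cn Q v → 0 ≤ hY Q v →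
    |(v.1 : ℝ)| ≤ C * pl Q v ∧ |(v.2 : ℝ)| ≤ C * pl Q v := by
  have h1 := hQ.sa
  have h2 := hQ.sd
  refine ⟨2 * √(Q.a : ℝ) / √(d : ℝ) + (1 + |be d Q| * (2 * √(Q.a : ℝ) / √(d : ℝ))) / √(Q.a : ℝ),
    by positivity, ?_⟩
  intro v hv hY0
  have hX0 := hv.X_pos
  have hpl : 0 < pl Q v := by unfold pl; linarith
  have e2 : (v.2 : ℝ) = 2 * √(Q.a : ℝ) / √(d : ℝ) * hY Q v := by
    rw [hQ.hY_eq]; field_simp
  have hv2n : 0 ≤ (v.2 : ℝ) := by rw [e2]; positivity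
  have hv2 : |(v.2 : ℝ)| ≤ 2 * √(Q.a : ℝ) / √(d : ℝ) * pl Q v := by
    rw [abs_of_nonneg hv2n, e2]
    apply mul_le_mul_of_nonneg_left _ (by positivity)
    unfold pl; linarith
  have e1 : (v.1 : ℝ) = (pl Q v - be d Q * v.2) / √(Q.a : ℝ) := by
    rw [pl_eq hQ v]; field_simp; ring
  have hv1 : |(v.1 : ℝ)| ≤
      (1 + |be d Q| * (2 * √(Q.a : ℝ) / √(d : ℝ))) / √(Q.a : ℝ) * pl Q v := by
    rw [e1, abs_div, abs_of_pos h1, div_mul_eq_mul_div]
    apply div_le_div_of_nonneg_right _ h1.le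
    calc |pl Q v - be d Q * v.2| ≤ |pl Q v| + |be d Q * v.2| := abs_sub _ _
      _ = pl Q v + |be d Q| * |(v.2 : ℝ)| := by rw [abs_of_pos hpl, abs_mul]
      _ ≤ pl Q v + |be d Q| * (2 * √(Q.a : ℝ) / √(d : ℝ) * pl Q v) := by
          have := mul_le_mul_of_nonneg_left hv2 (abs_nonneg (be d Q))
          linarith
      _ = _ := by ring
  have p1 : 0 ≤ 2 * √(Q.a : ℝ) / √(d : ℝ) * pl Q v := by positivity
  have p2 : 0 ≤ (1 + |be d Q| * (2 * √(Q.a : ℝ) / √(d : ℝ))) / √(Q.a : ℝ) * pl Q v := by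
    positivity
  constructor <;> rw [add_mul] <;> linarith

/-- the values of any form at a neighbour of `v` -/
theorem formF (hQ : Hyp d Q) (F : Form) (k : ℤ) : ∃ K : ℝ, 0 ≤ K ∧ ∀ v w : V, Cn Q v →
    0 ≤ hY Q v → wd v w = k →
    |(F.q w : ℝ) - (pl Q w / pl Q v) ^ 2 * F.q v| ≤ K * (|pl Q w / pl Q v| + 1) ∧
    |(F.B v w : ℝ) - 2 * (pl Q w / pl Q v) * F.q v| ≤ K := by
  obtain ⟨C, hC0, hC⟩ := coord_le hQ
  have h1 := hQ.sa
  set β := be d Q with hβ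
  set g := √(Q.a : ℝ) with hg
  set G := |(F.a : ℝ) * β ^ 2 - F.b * β * g + F.c * g ^ 2| with hG
  set L := C * (2 * |(F.a : ℝ)| * |β| + |(F.b : ℝ)| * (g + |β|) + 2 * |(F.c : ℝ)| * g) with hL
  have hL0 : 0 ≤ L := by positivity
  refine ⟨|(k : ℝ)| * L + (k : ℝ) ^ 2 * G, by positivity, ?_⟩
  intro v w hv hY0 hk
  have hX0 := hv.X_pos
  have hpl : 0 < pl Q v := by unfold pl; linarith
  have hp1 : 1 ≤ pl Q v ^ 2 := by
    have h2 : (1 : ℝ) ≤ Q.q v := by exact_mod_cast hv.q_pos hQ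
    have h3 : (Q.q v : ℝ) ≤ pl Q v ^ 2 := by
      rw [hQ.q_eq]; unfold pl; nlinarith [sq_nonneg (hY Q v), mul_nonneg hX0.le hY0]
    linarith
  set s := pl Q w / pl Q v with hs
  set t := (k : ℝ) / pl Q v with ht
  have e1 : (w.1 : ℝ) = s * v.1 - t * β := by rw [hs, ht, ← hk]; exact coord1 hQ hpl.ne'
  have e2 : (w.2 : ℝ) = s * v.2 + t * g := by rw [hs, ht, ← hk]; exact coord2 hQ hpl.ne'
  set M := 2 * (F.a : ℝ) * v.1 * (-β) + F.b * (v.1 * g - v.2 * β) + 2 * F.c * v.2 * g with hM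
  have hMl : |M| ≤ L * pl Q v := by
    obtain ⟨c1, c2⟩ := hC v hv hY0
    have a1 : |2 * (F.a : ℝ) * v.1 * (-β)| ≤ 2 * |(F.a : ℝ)| * |β| * (C * pl Q v) := by
      rw [abs_mul, abs_mul, abs_mul, abs_neg, abs_two]
      have := mul_le_mul_of_nonneg_left c1 (show 0 ≤ 2 * |(F.a : ℝ)| * |β| by positivity)
      linarith
    have a2 : |(F.b : ℝ) * (v.1 * g - v.2 * β)| ≤ |(F.b : ℝ)| * (g + |β|) * (C * pl Q v) := by
      rw [abs_mul, mul_assoc]
      apply mul_le_mul_of_nonneg_left _ (abs_nonneg _)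
      calc |(v.1 : ℝ) * g - v.2 * β| ≤ |(v.1 : ℝ) * g| + |(v.2 : ℝ) * β| := abs_sub _ _
        _ = |(v.1 : ℝ)| * g + |(v.2 : ℝ)| * |β| := by rw [abs_mul, abs_mul, abs_of_pos h1]
        _ ≤ C * pl Q v * g + C * pl Q v * |β| := by gcongr
        _ = _ := by ring
    have a3 : |2 * (F.c : ℝ) * v.2 * g| ≤ 2 * |(F.c : ℝ)| * g * (C * pl Q v) := by
      rw [abs_mul, abs_mul, abs_mul, abs_two, abs_of_pos h1]
      have := mul_le_mul_of_nonneg_left c2 (show 0 ≤ 2 * |(F.c : ℝ)| * g by positivity)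
      linarith
    calc |M| ≤ _ := (abs_add_three _ _ _)
      _ ≤ _ := add_le_add_three a1 a2 a3
      _ = L * pl Q v := by rw [hL]; ring
  have htM : |t * M| ≤ |(k : ℝ)| * L := by
    rw [abs_mul, ht, abs_div, abs_of_pos hpl, div_mul_eq_mul_div, div_le_iff₀ hpl]
    have := mul_le_mul_of_nonneg_left hMl (abs_nonneg (k : ℝ))
    linarith
  have ht2 : t ^ 2 * G ≤ (k : ℝ) ^ 2 * G := by
    apply mul_le_mul_of_nonneg_right _ (abs_nonneg _)
    rw [ht, div_pow, div_le_iff₀ (by positivity)]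
    nlinarith [sq_nonneg (k : ℝ)]
  have f1 : (F.q w : ℝ) - s ^ 2 * F.q v = s * (t * M) +
      t ^ 2 * ((F.a : ℝ) * β ^ 2 - F.b * β * g + F.c * g ^ 2) := by
    unfold Form.q
    push_cast
    rw [e1, e2, hM]
    ring
  have f2 : (F.B v w : ℝ) - 2 * s * F.q v = t * M := by
    unfold Form.q Form.B
    push_cast
    rw [e1, e2, hM]
    ring
  have hk2 : 0 ≤ (k : ℝ) ^ 2 * G := by positivity
  constructor
  · rw [f1]
    calc _ ≤ |s * (t * M)| + |t ^ 2 * ((F.a : ℝ) * β ^ 2 - F.b * β * g + F.c * g ^ 2)| :=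
          abs_add_le _ _
      _ ≤ |s| * (|(k : ℝ)| * L) + (k : ℝ) ^ 2 * G := by
          rw [abs_mul s, abs_mul (t ^ 2), abs_of_nonneg (sq_nonneg t)]
          exact add_le_add (mul_le_mul_of_nonneg_left htM (abs_nonneg s)) ht2
      _ ≤ _ := by
          have p1 : 0 ≤ |s| := abs_nonneg s
          have p2 : 0 ≤ |(k : ℝ)| * L := by positivity
          nlinarith [mul_nonneg p1 hk2]
  · rw [f2]
    linarith

/-- the value of `Q` at a neighbour of `v` -/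
theorem q_nb (hQ : Hyp d Q) {v w : V} (hp : pl Q v ≠ 0) :
    (Q.q w : ℝ) = (pl Q w / pl Q v) ^ 2 * Q.q v - pl Q w / pl Q v * (√(d : ℝ) * wd v w) := by
  rw [q_pm hQ v, q_pm hQ w, ← wd_pm hQ v w]
  field_simp
  ring

/-! ### Real inequalities -/

theorem sqrt_cmp {x y δ : ℝ} (hδ : 0 < δ) (hx : 0 ≤ x) (hy : 0 ≤ y) (h : δ ≤ √x ∨ δ ≤ √y) :
    |√x - √y| ≤ |x - y| / δ := by
  rw [le_div_iff₀ hδ]
  have e : x - y = (√x - √y) * (√x + √y) := by
    have h1 := Real.sq_sqrt hx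
    have h2 := Real.sq_sqrt hy
    ring_nf
    rw [h1, h2]
  have p1 := Real.sqrt_nonneg x
  have p2 := Real.sqrt_nonneg y
  rw [e, abs_mul, abs_of_nonneg (add_nonneg p1 p2)]
  apply mul_le_mul_of_nonneg_left _ (abs_nonneg _)
  rcases h with h | h <;> linarith

theorem sA {δ n ρ A W s κ : ℝ} (hδ : 0 < δ) (hn : 0 < n)
    (hρ1 : 100 * ρ ≤ δ) (hs : 0 < s) (hW : W = s ^ 2 * A - s * κ) (hκ : |κ| ≤ ρ * n)
    (hA1 : δ ^ 2 * n ≤ A) (hA2 : A ≤ n) (hW1 : δ ^ 2 * n ≤ W) (hW2 : W ≤ n) :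
    δ ≤ 2 * s ∧ δ * s ≤ 2 := by
  obtain ⟨k1, k2⟩ := abs_le.1 hκ
  have hsκ : s * κ ≤ s * (ρ * n) := mul_le_mul_of_nonneg_left k2 hs.le
  have hsκ' : -(s * (ρ * n)) ≤ s * κ := by
    have := mul_le_mul_of_nonneg_left k1 hs.le
    linarith
  have hsρ : s * (ρ * n) ≤ δ * s * n / 100 := by
    have : s * (ρ * n) * 100 = (100 * ρ) * (s * n) := by ring
    have h2 := mul_le_mul_of_nonneg_right hρ1 (mul_pos hs hn).le
    linarith
  constructor
  · by_contra hc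
    push Not at hc
    have h1 : s ^ 2 * A ≤ (δ / 2) ^ 2 * n := by
      apply mul_le_mul _ hA2 (by nlinarith [sq_nonneg δ]) (by positivity)
      apply pow_le_pow_left₀ hs.le; linarith
    have h2 : δ * s * n / 100 ≤ δ ^ 2 * n / 200 := by
      have := mul_le_mul_of_nonneg_left hc.le (mul_pos hδ hn).le
      nlinarith
    have h3 : 0 < δ ^ 2 * n := by positivity
    nlinarith
  · by_contra hc
    push Not at hc
    have h1 : (δ * s) ^ 2 * n ≤ s ^ 2 * A := by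
      have := mul_le_mul_of_nonneg_left hA1 (sq_nonneg s)
      nlinarith
    have h2 : 2 * (δ * s) * n ≤ (δ * s) ^ 2 * n := by
      have := mul_le_mul_of_nonneg_right hc.le (mul_pos (mul_pos hδ hs) hn).le
      nlinarith
    have h3 : 2 * n < δ * s * n := mul_lt_mul_of_pos_right hc hn
    nlinarith

theorem sB {δ n ρ A W s K FB : ℝ} (hδ : 0 < δ) (hδ1 : δ ≤ 1) (hn : 0 < n) (hρ : 0 ≤ ρ)
    (hρ1 : 100 * ρ ≤ δ ^ 3) (hW : |W - s ^ 2 * A| ≤ K * (|s| + 1)) (hB : |FB - 2 * s * A| ≤ K)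
    (hK0 : 0 ≤ K) (hK : K ≤ ρ * n)
    (hFB : 0 < FB) (hA1 : δ ^ 2 * n ≤ A) (hA2 : A ≤ n) (hW1 : δ ^ 2 * n ≤ W) (hW2 : W ≤ n) :
    δ ≤ 2 * s ∧ δ * s ≤ 2 := by
  have hρ2 : 100 * ρ ≤ δ ^ 2 := by nlinarith [sq_nonneg δ]
  have hρ3 : 100 * ρ ≤ δ := by nlinarith [sq_nonneg δ]
  obtain ⟨b1, b2⟩ := abs_le.1 hB
  obtain ⟨w1, w2⟩ := abs_le.1 hW
  constructor
  · by_contra hc
    push Not at hc
    have hs : |s| ≤ δ / 2 := by
      rw [abs_le]
      refine ⟨?_, by linarith⟩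
      by_contra hs
      push Not at hs
      have hA0 : 0 < A := lt_of_lt_of_le (by positivity) hA1
      have g1 : 2 * s * A ≤ -δ * A := mul_le_mul_of_nonneg_right (by linarith) hA0.le
      have g2 : δ * (δ ^ 2 * n) ≤ δ * A := mul_le_mul_of_nonneg_left hA1 hδ.le
      have h1 : 2 * s * A ≤ -(δ * (δ ^ 2 * n)) := by linarith
      have h2 : δ * (δ ^ 2 * n) = δ ^ 3 * n := by ring
      have h3 : 0 < δ ^ 3 * n := by positivity
      have h4 : ρ * n ≤ δ ^ 3 * n / 100 := by nlinarith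
      linarith
    have h1 : s ^ 2 * A ≤ (δ / 2) ^ 2 * n := by
      apply mul_le_mul _ hA2 (by nlinarith [sq_nonneg δ]) (by positivity)
      rw [← sq_abs]
      exact pow_le_pow_left₀ (abs_nonneg s) hs 2
    have h2 : K * (|s| + 1) ≤ ρ * n * 2 := by
      apply mul_le_mul hK (by linarith) (by positivity) (by positivity)
    have h3 : 0 < δ ^ 2 * n := by positivity
    have h4 : ρ * n ≤ δ ^ 2 * n / 100 := by nlinarith
    nlinarith
  · by_contra hc
    push Not at hc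
    have hs1 : 2 < s := by nlinarith
    have hs0 : 0 < s := by linarith
    rw [abs_of_pos hs0] at w1 w2
    have h1 : (δ * s) ^ 2 * n ≤ s ^ 2 * A := by
      have := mul_le_mul_of_nonneg_left hA1 (sq_nonneg s)
      nlinarith
    have h2 : 2 * (δ * s) * n ≤ (δ * s) ^ 2 * n := by
      have := mul_le_mul_of_nonneg_right hc.le (mul_pos (mul_pos hδ hs0) hn).le
      nlinarith
    have h3 : 2 * n < δ * s * n := mul_lt_mul_of_pos_right hc hn
    have h4 : K * (s + 1) ≤ ρ * n * (2 * s) := by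
      apply mul_le_mul hK (by linarith) (by positivity) (by positivity)
    have h5 : ρ * n * (2 * s) ≤ δ * s * n / 50 := by
      have := mul_le_mul_of_nonneg_right hρ3 (mul_pos hs0 hn).le
      nlinarith
    nlinarith

end AP25

end Pool.Agent.Lib.MP_a17b09_nt.HY
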