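import Pool.Agent.Lib.MP_a17b09_nt.HY.APa25

/-!
Project HY (MP_a17b09): (A3), module StAP, second part: comparison of one term.
-/

set_option autoImplicit false

open Filter Topology Finset

namespace Pool.Agent.Lib.MP_a17b09_nt.HY

open Pool.Agent.Lib.MP_a17b09_nt.CH

namespace AP25

theorem coreW {δ η n ρ A A' W W' s κ K : ℝ} (hδ : 0 < δ) (hδ1 : δ ≤ 1)
    (hn : 0 < n) (hρ : 0 ≤ ρ) (hρ1 : 5 * ρ ≤ η) (hW : W = s ^ 2 * A - s * κ)
    (hκ : |κ| ≤ ρ * n) (hW' : |W' - s ^ 2 * A'| ≤ K * (|s| + 1))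
    (hK : K ≤ ρ * n) (hAA : |A - A'| ≤ 2 * η * n) (hs : 0 < s) (hs1 : δ * s ≤ 2) :
    |W - W'| ≤ 9 * η / δ ^ 2 * n := by
  rw [abs_of_pos hs] at hW'
  have hρn : 0 ≤ ρ * n := by positivity
  have e : W - W' = s ^ 2 * (A - A') - s * κ - (W' - s ^ 2 * A') := by rw [hW]; ring
  have h1 : |W - W'| ≤ s ^ 2 * |A - A'| + s * |κ| + |W' - s ^ 2 * A'| := by
    rw [e]
    calc _ ≤ |s ^ 2 * (A - A') - s * κ| + |W' - s ^ 2 * A'| := abs_sub _ _
      _ ≤ |s ^ 2 * (A - A')| + |s * κ| + |W' - s ^ 2 * A'| := by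
          gcongr
          exact abs_sub _ _
      _ = _ := by rw [abs_mul, abs_mul, abs_of_pos hs, abs_of_nonneg (sq_nonneg s)]
  have h2 : δ ^ 2 * (s ^ 2 * |A - A'|) ≤ 4 * (2 * η * n) := by
    have a1 : (δ * s) ^ 2 ≤ 2 ^ 2 := pow_le_pow_left₀ (by positivity) hs1 2
    calc δ ^ 2 * (s ^ 2 * |A - A'|) = (δ * s) ^ 2 * |A - A'| := by ring
      _ ≤ 2 ^ 2 * (2 * η * n) := mul_le_mul a1 hAA (abs_nonneg _) (by norm_num)
      _ = _ := by ring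
  have h3 : δ ^ 2 * (s * |κ|) ≤ 2 * (ρ * n) := by
    calc δ ^ 2 * (s * |κ|) = δ * (δ * s) * |κ| := by ring
      _ ≤ 1 * 2 * (ρ * n) := by
          apply mul_le_mul _ hκ (abs_nonneg _) (by norm_num)
          exact mul_le_mul hδ1 hs1 (by positivity) (by norm_num)
      _ = _ := by ring
  have h4 : δ ^ 2 * |W' - s ^ 2 * A'| ≤ 3 * (ρ * n) := by
    calc δ ^ 2 * |W' - s ^ 2 * A'| ≤ δ ^ 2 * (K * (s + 1)) :=
          mul_le_mul_of_nonneg_left hW' (by positivity)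
      _ = K * (δ * (δ * s) + δ ^ 2) := by ring
      _ ≤ ρ * n * (1 * 2 + 1) := by
          apply mul_le_mul hK _ (by positivity) hρn
          have a1 : δ * (δ * s) ≤ 1 * 2 := mul_le_mul hδ1 hs1 (by positivity) (by norm_num)
          have a2 : δ ^ 2 ≤ 1 := pow_le_one₀ hδ.le hδ1
          linarith
      _ = _ := by ring
  have h5 : 5 * ρ * n ≤ η * n := mul_le_mul_of_nonneg_right hρ1 hn.le
  have h6 : δ ^ 2 * |W - W'| ≤ 9 * η * n := by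
    have := mul_le_mul_of_nonneg_left h1 (sq_nonneg δ)
    nlinarith
  have h7 : 9 * η / δ ^ 2 * n = 9 * η * n / δ ^ 2 := by ring
  rw [h7, le_div_iff₀ (by positivity)]
  linarith

theorem core {δ η n ρ A A' W W' s κ K B' : ℝ} (hδ : 0 < δ) (hδ1 : δ ≤ 1) (hη : 0 < η)
    (hη1 : 18 * η ≤ δ ^ 2) (hn : 0 < n) (hρ : 0 ≤ ρ) (hρ1 : 100 * ρ ≤ δ ^ 3 * η)
    (hW : W = s ^ 2 * A - s * κ) (hκ : |κ| ≤ ρ * n)
    (hW' : |W' - s ^ 2 * A'| ≤ K * (|s| + 1)) (hB : |B' - 2 * s * A'| ≤ K) (hK0 : 0 ≤ K)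
    (hK : K ≤ ρ * n) (hA : 0 < A) (hAA : |A' - A| ≤ η * A)
    (hcase : (0 < s ∧ δ ^ 2 * n ≤ A ∧ A ≤ n ∧ δ ^ 2 * n ≤ W ∧ W ≤ n) ∨
      (0 < B' ∧ δ ^ 2 * n ≤ A' ∧ A' ≤ n ∧ δ ^ 2 * n ≤ W' ∧ W' ≤ n)) :
    0 < s ∧ 0 < W ∧ 0 < B' ∧ δ ^ 2 * n / 2 ≤ A ∧ A ≤ 2 * n ∧ W ≤ 2 * n ∧
      |A - A'| ≤ 2 * η * n ∧ |W - W'| ≤ 9 * η / δ ^ 2 * n := by
  have d2 : δ ^ 2 ≤ 1 := pow_le_one₀ hδ.le hδ1
  have d3 : δ ^ 3 ≤ 1 := pow_le_one₀ hδ.le hδ1
  have p2 : 0 < δ ^ 2 * n := by positivity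
  have p3 : 0 < δ ^ 3 * n := by positivity
  have hη2 : η ≤ 1 / 18 := by linarith
  have hρ3 : 100 * ρ ≤ δ ^ 3 := by
    have : δ ^ 3 * η ≤ δ ^ 3 * 1 := mul_le_mul_of_nonneg_left (by linarith) (by positivity)
    linarith
  have hρ4 : 5 * ρ ≤ η := by
    have : δ ^ 3 * η ≤ 1 * η := mul_le_mul_of_nonneg_right d3 hη.le
    linarith
  have hρ5 : 100 * ρ ≤ δ := by
    have : δ ^ 3 ≤ δ := by
      calc δ ^ 3 = δ ^ 2 * δ := by ring
        _ ≤ 1 * δ := mul_le_mul_of_nonneg_right d2 hδ.le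
        _ = δ := one_mul _
    linarith
  have hρn : ρ * n ≤ δ ^ 3 * n / 100 := by
    have := mul_le_mul_of_nonneg_right hρ3 hn.le
    linarith
  obtain ⟨a1, a2⟩ := abs_le.1 hAA
  obtain ⟨b1, b2⟩ := abs_le.1 hB
  rcases hcase with ⟨hs, c1, c2, c3, c4⟩ | ⟨hB0, c1, c2, c3, c4⟩
  · obtain ⟨s1, s2⟩ := sA hδ hn hρ5 hs hW hκ c1 c2 c3 c4
    have hAA' : |A - A'| ≤ 2 * η * n := by
      rw [abs_sub_comm]
      have : η * A ≤ η * n := mul_le_mul_of_nonneg_left c2 hη.le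
      have : 0 < η * n := by positivity
      linarith
    refine ⟨hs, by linarith, ?_, by linarith, by linarith, by linarith, hAA', ?_⟩
    · have e1 : A / 2 ≤ A' := by
        have : η * A ≤ 1 / 18 * A := mul_le_mul_of_nonneg_right hη2 hA.le
        linarith
      have e2 : δ * (δ ^ 2 * n / 2) ≤ 2 * s * A' := by
        apply mul_le_mul s1 (by linarith) (by positivity) (by linarith)
      have e3 : δ * (δ ^ 2 * n / 2) = δ ^ 3 * n / 2 := by ring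
      linarith
    · exact coreW hδ hδ1 hn hρ hρ4 hW hκ hW' hK hAA' hs s2
  · obtain ⟨s1, s2⟩ := sB hδ hδ1 hn hρ hρ3 hW' hB hK0 hK hB0 c1 c2 c3 c4
    have hs : 0 < s := by linarith
    have e1 : η * A ≤ 1 / 18 * A := mul_le_mul_of_nonneg_right hη2 hA.le
    have e2 : δ ^ 2 * n / 2 ≤ A := by linarith
    have e3 : A ≤ 2 * n := by linarith
    have hAA' : |A - A'| ≤ 2 * η * n := by
      rw [abs_sub_comm]
      have : η * A ≤ η * (2 * n) := mul_le_mul_of_nonneg_left e3 hη.le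
      linarith
    have hWW := coreW hδ hδ1 hn hρ hρ4 hW hκ hW' hK hAA' hs s2
    refine ⟨hs, ?_, hB0, e2, e3, ?_, hAA', hWW⟩
    · have e4 : δ / 2 * (δ ^ 2 * n / 2) ≤ s * A :=
        mul_le_mul (by linarith) e2 (by positivity) hs.le
      have e5 : δ / 2 * (δ ^ 2 * n / 2) = δ ^ 3 * n / 4 := by ring
      have e6 : κ ≤ ρ * n := (le_abs_self _).trans hκ
      have e7 : W = s * (s * A - κ) := by rw [hW]; ring
      rw [e7]
      apply mul_pos hs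
      linarith
    · have e4 : 9 * η / δ ^ 2 * n ≤ n := by
        have : 9 * η / δ ^ 2 ≤ 1 := by
          rw [div_le_one (by positivity)]
          linarith
        calc _ ≤ 1 * n := mul_le_mul_of_nonneg_right this hn.le
          _ = n := one_mul n
      have := (abs_le.1 hWW).2
      linarith

theorem sqrt_div_cmp {δ n x y E : ℝ} (hδ : 0 < δ) (hn : 0 < n) (hx : 0 ≤ x) (hy : 0 ≤ y)
    (h : δ ^ 2 * n ≤ x ∨ δ ^ 2 * n ≤ y) (hE : |x - y| ≤ E * n) :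
    |√(x / n) - √(y / n)| ≤ E / δ := by
  have h0 : ∀ z, δ ^ 2 * n ≤ z → δ ≤ √(z / n) := by
    intro z hz
    apply Real.le_sqrt_of_sq_le
    rw [le_div_iff₀ hn]
    exact hz
  have h1 := sqrt_cmp hδ (div_nonneg hx hn.le) (div_nonneg hy hn.le) (h.imp (h0 x) (h0 y))
  refine h1.trans ?_
  apply div_le_div_of_nonneg_right _ hδ.le
  rw [← sub_div, abs_div, abs_of_pos hn, div_le_iff₀ hn]
  exact hE

/-- comparison of one term -/
theorem pw {d : ℕ} {Q F : Form} (hQ : Hyp d Q) (hF : F.Pos) {N : ℕ} (hN : 0 < N) {δ η Ch : ℝ}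
    {h : ℝ → ℝ → ℝ} (hδ : 0 < δ) (hδ1 : δ ≤ 1) (hη : 0 < η) (hη1 : 18 * η ≤ δ ^ 2)
    (hh : ∀ x y, h x y ≠ 0 → δ ≤ x ∧ x ≤ 1 ∧ δ ≤ y ∧ y ≤ 1) (hCh0 : 0 ≤ Ch)
    (hCh : ∀ x y x' y', |h x y - h x' y'| ≤ Ch * (|x - x'| + |y - y'|)) (k : ℤ) :
    ∃ n0 : ℕ, ∀ n : ℕ, n0 ≤ n → ∀ v w : V, Cn Q v → 0 ≤ hY Q v →
      |(F.q v : ℝ) - N * Q.q v| ≤ η * (N * Q.q v) → wd v w = k →
      ((Cn Q w ∧ h (Q.nr n v) (Q.nr n w) ≠ 0) ∨
        (0 < F.B v w ∧ h (F.nr ((N : ℝ) * n) v) (F.nr ((N : ℝ) * n) w) ≠ 0)) →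
      Cn Q w ∧ 0 < F.B v w ∧ (δ / 2) ^ 2 * (2 * n) ≤ (Q.q v : ℝ) ∧ (Q.q v : ℝ) ≤ 2 * n ∧
      (Q.q w : ℝ) ≤ 2 * n ∧
      |h (Q.nr n v) (Q.nr n w) - h (F.nr ((N : ℝ) * n) v) (F.nr ((N : ℝ) * n) w)| ≤
        Ch * (11 * η / δ ^ 3) := by
  obtain ⟨K, hK0, hK⟩ := formF hQ F k
  set ρ := δ ^ 3 * η / 100 with hρ
  have hρ0 : 0 < ρ := by positivity
  refine ⟨max 1 ⌈max K (√(d : ℝ) * |(k : ℝ)|) / ρ⌉₊, ?_⟩
  intro n hn v w hv hY0 hP2 hwd hcase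
  have hn1 : (1 : ℝ) ≤ n := by exact_mod_cast (le_max_left _ _).trans hn
  have hn0 : (0 : ℝ) < n := by linarith
  have hN0 : (0 : ℝ) < N := by exact_mod_cast hN
  have hN1 : (1 : ℝ) ≤ N := by exact_mod_cast hN
  have hn2 : max K (√(d : ℝ) * |(k : ℝ)|) ≤ ρ * n := by
    have h1 : max K (√(d : ℝ) * |(k : ℝ)|) / ρ ≤ n := by
      refine (Nat.le_ceil _).trans ?_
      exact_mod_cast (le_max_right _ _).trans hn
    rw [div_le_iff₀ hρ0] at h1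
    linarith
  have hX0 := hv.X_pos
  have hpl : 0 < pl Q v := by unfold pl; linarith
  obtain ⟨hK1, hK2⟩ := hK v w hv hY0 hwd
  have hW := q_nb hQ (v := v) (w := w) hpl.ne'
  rw [hwd] at hW
  set s := pl Q w / pl Q v with hs
  have hA : (0 : ℝ) < Q.q v := by exact_mod_cast hv.q_pos hQ
  have hκ : |√(d : ℝ) * (k : ℝ)| ≤ ρ * n := by
    rw [abs_mul, abs_of_nonneg (Real.sqrt_nonneg _)]
    exact (le_max_right _ _).trans hn2
  have hKn : K ≤ ρ * n := (le_max_left _ _).trans hn2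
  have hW' : |(F.q w : ℝ) / N - s ^ 2 * (F.q v / N)| ≤ K * (|s| + 1) := by
    have : (F.q w : ℝ) / N - s ^ 2 * (F.q v / N) = (F.q w - s ^ 2 * F.q v) / N := by ring
    rw [this, abs_div, abs_of_pos hN0, div_le_iff₀ hN0]
    refine hK1.trans ?_
    have : 0 ≤ K * (|s| + 1) := by positivity
    nlinarith
  have hB' : |(F.B v w : ℝ) / N - 2 * s * (F.q v / N)| ≤ K := by
    have : (F.B v w : ℝ) / N - 2 * s * (F.q v / N) = (F.B v w - 2 * s * F.q v) / N := by ring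
    rw [this, abs_div, abs_of_pos hN0, div_le_iff₀ hN0]
    refine hK2.trans ?_
    nlinarith
  have hAA : |(F.q v : ℝ) / N - Q.q v| ≤ η * Q.q v := by
    have : (F.q v : ℝ) / N - Q.q v = (F.q v - N * Q.q v) / N := by field_simp
    rw [this, abs_div, abs_of_pos hN0, div_le_iff₀ hN0]
    linarith
  have hNn : 0 < (N : ℝ) * n := by positivity
  have hpos : 0 < s ∧ 0 < (Q.q w : ℝ) → Cn Q w := by
    rintro ⟨h1, h2⟩
    have h3 : 0 < pl Q w := by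
      have : pl Q w = s * pl Q v := by rw [hs]; field_simp
      rw [this]; positivity
    have h4 : 0 < mi Q w := by
      rw [q_pm hQ w] at h2
      exact (pos_iff_pos_of_mul_pos h2).1 h3
    exact (cn_iff Q w).2 ⟨h3, h4⟩
  have key := core (B' := (F.B v w : ℝ) / N) hδ hδ1 hη hη1 hn0 hρ0.le
    (by rw [hρ]; linarith) hW hκ hW' hB' hK0 hKn hA hAA ?_
  · obtain ⟨r1, r2, r3, r4, r5, r6, r7, r8⟩ := key
    have hFv0 : 0 ≤ (F.q v : ℝ) / N := div_nonneg (by exact_mod_cast hF.q_nonneg v) hN0.le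
    have hFw0 : 0 ≤ (F.q w : ℝ) / N := div_nonneg (by exact_mod_cast hF.q_nonneg w) hN0.le
    have hnr : ∀ u : V, F.nr ((N : ℝ) * n) u = √(((F.q u : ℝ) / N) / n) := by
      intro u
      unfold Form.nr
      rw [div_div]
    refine ⟨hpos ⟨r1, r2⟩, ?_, by nlinarith, r5, r6, ?_⟩
    · have := (div_pos_iff_of_pos_right hN0).1 r3
      exact_mod_cast this
    · refine (hCh _ _ _ _).trans (mul_le_mul_of_nonneg_left ?_ hCh0)
      rw [hnr, hnr]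
      unfold Form.nr
      have hor : (δ ^ 2 * n ≤ (Q.q v : ℝ) ∧ δ ^ 2 * n ≤ (Q.q w : ℝ)) ∨
          (δ ^ 2 * n ≤ (F.q v : ℝ) / N ∧ δ ^ 2 * n ≤ (F.q w : ℝ) / N) := by
        rcases hcase with ⟨c1, c2⟩ | ⟨c1, c2⟩
        · obtain ⟨e1, e2, e3, e4⟩ := hh _ _ c2
          exact Or.inl ⟨C27.le_of_nr hδ hn0 e1, C27.le_of_nr hδ hn0 e3⟩
        · obtain ⟨e1, e2, e3, e4⟩ := hh _ _ c2
          have f1 := C27.le_of_nr hδ hNn e1
          have f3 := C27.le_of_nr hδ hNn e3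
          right
          constructor
          · rw [le_div_iff₀ hN0]; linarith
          · rw [le_div_iff₀ hN0]; linarith
      have g1 := sqrt_div_cmp hδ hn0 hA.le hFv0 (hor.imp And.left And.left) r7
      have g2 := sqrt_div_cmp hδ hn0 r2.le hFw0 (hor.imp And.right And.right) r8
      have g3 : 2 * η / δ ≤ 2 * η / δ ^ 3 := by
        apply div_le_div_of_nonneg_left (by positivity) (by positivity)
        calc δ ^ 3 = δ ^ 2 * δ := by ring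
          _ ≤ 1 * δ := mul_le_mul_of_nonneg_right (pow_le_one₀ hδ.le hδ1) hδ.le
          _ = δ := one_mul δ
      have g4 : 9 * η / δ ^ 2 / δ = 9 * η / δ ^ 3 := by
        rw [div_div]; ring
      have g5 : 11 * η / δ ^ 3 = 2 * η / δ ^ 3 + 9 * η / δ ^ 3 := by ring
      rw [g5]
      linarith
  · rcases hcase with ⟨c1, c2⟩ | ⟨c1, c2⟩
    · obtain ⟨e1, e2, e3, e4⟩ := hh _ _ c2
      left
      refine ⟨?_, C27.le_of_nr hδ hn0 e1, C27.of_nr_le hn0 e2, C27.le_of_nr hδ hn0 e3,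
        C27.of_nr_le hn0 e4⟩
      exact div_pos ((cn_iff Q w).1 c1).1 hpl
    · obtain ⟨e1, e2, e3, e4⟩ := hh _ _ c2
      right
      have f1 := C27.le_of_nr hδ hNn e1
      have f2 := C27.of_nr_le hNn e2
      have f3 := C27.le_of_nr hδ hNn e3
      have f4 := C27.of_nr_le hNn e4
      refine ⟨div_pos (by exact_mod_cast c1) hN0, ?_, ?_, ?_, ?_⟩
      · rw [le_div_iff₀ hN0]; linarith
      · rw [div_le_iff₀ hN0]; linarith
      · rw [le_div_iff₀ hN0]; linarith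
      · rw [div_le_iff₀ hN0]; linarith

end AP25

end Pool.Agent.Lib.MP_a17b09_nt.HY
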