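import Pool.Agent.Lib.MP_a17b09_nt.HY.APb25

/-!
Project HY (MP_a17b09): (A3), module StAP, third part: cells and their definite forms.
-/

set_option autoImplicit false

open Filter Topology Finset

namespace Pool.Agent.Lib.MP_a17b09_nt.HY

open Pool.Agent.Lib.MP_a17b09_nt.CH

namespace AP25

/-! ### The angle -/

theorem pl_pos {Q : Form} {v : V} (hv : Cn Q v) : 0 < pl Q v := ((cn_iff Q v).1 hv).1

theorem mi_pos {Q : Form} {v : V} (hv : Cn Q v) : 0 < mi Q v := ((cn_iff Q v).1 hv).2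

theorem le_ps {Q : Form} {v : V} (hv : Cn Q v) (c : ℝ) :
    c ≤ ps Q v ↔ Real.exp (2 * c) * mi Q v ≤ pl Q v := by
  have h1 := pl_pos hv
  have h2 := mi_pos hv
  have h3 : ps Q v = Real.log (pl Q v / mi Q v) / 2 := rfl
  rw [h3, le_div_iff₀ two_pos, mul_comm c 2, Real.le_log_iff_exp_le (div_pos h1 h2),
    le_div_iff₀ h2]

theorem ps_lt {Q : Form} {v : V} (hv : Cn Q v) (c : ℝ) :
    ps Q v < c ↔ pl Q v < Real.exp (2 * c) * mi Q v := by
  have := le_ps hv c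
  constructor
  · intro h
    by_contra hc
    push Not at hc
    exact absurd (this.2 hc) (not_le.2 h)
  · intro h
    by_contra hc
    push Not at hc
    exact absurd (this.1 hc) (not_le.2 h)

theorem hY_nonneg {Q : Form} {v : V} (hv : Cn Q v) (h : 0 ≤ ps Q v) : 0 ≤ hY Q v := by
  have := (le_ps hv 0).1 h
  rw [mul_zero, Real.exp_zero, one_mul] at this
  unfold pl mi at this
  linarith

/-! ### The real forms -/

/-- a constant of the form -/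
noncomputable def bm (d : ℕ) (Q : Form) : ℝ := ((Q.b : ℝ) - √(d : ℝ)) / (2 * √(Q.a : ℝ))

theorem mi_eq {d : ℕ} {Q : Form} (hQ : Hyp d Q) (v : V) :
    mi Q v = √(Q.a : ℝ) * v.1 + bm d Q * v.2 := by
  have h1 := hQ.sa
  unfold mi bm
  rw [hQ.hY_eq]
  unfold hX
  field_simp
  ring

/-- first coefficient -/
noncomputable def cA (Q : Form) (w : ℝ) : ℝ := (Q.a : ℝ) * (w + w⁻¹) / 2

/-- middle coefficient -/
noncomputable def cB (d : ℕ) (Q : Form) (w : ℝ) : ℝ :=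
  √(Q.a : ℝ) * (w * bm d Q + w⁻¹ * be d Q)

/-- last coefficient -/
noncomputable def cC (d : ℕ) (Q : Form) (w : ℝ) : ℝ := (w * bm d Q ^ 2 + w⁻¹ * be d Q ^ 2) / 2

theorem qc_eq {d : ℕ} {Q : Form} (hQ : Hyp d Q) (w : ℝ) (v : V) :
    cA Q w * v.1 ^ 2 + cB d Q w * v.1 * v.2 + cC d Q w * v.2 ^ 2 =
      (w * mi Q v ^ 2 + w⁻¹ * pl Q v ^ 2) / 2 := by
  rw [mi_eq hQ, pl_eq hQ]
  unfold cA cB cC
  have h1 := hQ.sa_sq
  linear_combination (-(w + w⁻¹) / 2 * (v.1 : ℝ) ^ 2) * h1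

theorem disc_c {d : ℕ} {Q : Form} (hQ : Hyp d Q) {w : ℝ} (hw : 0 < w) :
    4 * cA Q w * cC d Q w - cB d Q w ^ 2 = d := by
  have h1 := hQ.sa_sq
  have h2 : √(Q.a : ℝ) * (be d Q - bm d Q) = √(d : ℝ) := by
    have := hQ.sa
    unfold be bm
    field_simp
    ring
  have h3 := Hyp.sd_sq d
  have h4 : w * w⁻¹ = 1 := mul_inv_cancel₀ hw.ne'
  have h5 : (d : ℝ) = √(Q.a : ℝ) ^ 2 * (be d Q - bm d Q) ^ 2 := by
    calc (d : ℝ) = √(d : ℝ) ^ 2 := h3.symm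
      _ = (√(Q.a : ℝ) * (be d Q - bm d Q)) ^ 2 := by rw [h2]
      _ = _ := by ring
  unfold cA cB cC
  linear_combination (-(w + w⁻¹) * (w * bm d Q ^ 2 + w⁻¹ * be d Q ^ 2)) * h1 +
    (√(Q.a : ℝ) ^ 2 * (be d Q - bm d Q) ^ 2) * h4 - h5

theorem cA_ge {d : ℕ} {Q : Form} (hQ : Hyp d Q) {w : ℝ} (hw : 0 < w) : 1 ≤ cA Q w := by
  have h1 : (1 : ℝ) ≤ Q.a := by exact_mod_cast hQ.apos
  have h2 : 2 ≤ w + w⁻¹ := by
    have h4 : w * w⁻¹ = 1 := mul_inv_cancel₀ hw.ne'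
    have h5 : 0 < w⁻¹ := inv_pos.2 hw
    nlinarith [sq_nonneg (w - w⁻¹)]
  unfold cA
  nlinarith

theorem cC_pos {d : ℕ} {Q : Form} (hQ : Hyp d Q) {w : ℝ} (hw : 0 < w) : 0 < cC d Q w := by
  have h1 := disc_c hQ hw
  have h2 := cA_ge hQ hw
  have h3 : (0 : ℝ) < d := by exact_mod_cast hQ.d_pos
  have h4 : 0 < 4 * cA Q w * cC d Q w := by nlinarith [sq_nonneg (cB d Q w)]
  have h5 : 0 < 4 * cA Q w := by linarith
  exact (pos_iff_pos_of_mul_pos h4).1 h5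

/-- the definite form of a cell -/
noncomputable def FF (d : ℕ) (Q : Form) (w : ℝ) (N : ℕ) : Form :=
  ⟨⌊N * cA Q w⌋, ⌊N * cB d Q w⌋, ⌊N * cC d Q w⌋⟩

theorem FF_pos {d : ℕ} {Q : Form} (hQ : Hyp d Q) {w : ℝ} (hw : 0 < w) :
    ∀ᶠ N : ℕ in atTop, (FF d Q w N).Pos := by
  have hA := cA_ge hQ hw
  have hC := cC_pos hQ hw
  have hD := disc_c hQ hw
  have hd : (1 : ℝ) ≤ d := by exact_mod_cast hQ.d_pos
  set A := cA Q w with hAd
  set B := cB d Q w with hBd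
  set C := cC d Q w with hCd
  filter_upwards [eventually_ge_atTop (max 1 (max ⌈4 * (A + C) + 2 * |B|⌉₊ ⌈C⁻¹⌉₊))] with N hN
  have hN1 : (1 : ℝ) ≤ N := by exact_mod_cast (le_max_left _ _).trans hN
  have hN2 : 4 * (A + C) + 2 * |B| ≤ N :=
    (Nat.le_ceil _).trans (by
      exact_mod_cast ((le_max_left _ _).trans (le_max_right _ _)).trans hN)
  have hN3 : C⁻¹ ≤ N :=
    (Nat.le_ceil _).trans (by
      exact_mod_cast ((le_max_right _ _).trans (le_max_right _ _)).trans hN)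
  have a1 : 1 ≤ N * A := by nlinarith
  have c1 : 1 ≤ N * C := by
    have := mul_le_mul_of_nonneg_right hN3 hC.le
    rwa [inv_mul_cancel₀ hC.ne'] at this
  have fa : (1 : ℤ) ≤ ⌊N * A⌋ := Int.le_floor.2 (by push_cast; exact a1)
  refine ⟨?_, ?_⟩
  · show (0 : ℤ) < ⌊N * A⌋
    omega
  · have ga := (Int.sub_one_lt_floor (N * A)).le
    have gc := (Int.sub_one_lt_floor (N * C)).le
    have gb1 := (Int.sub_one_lt_floor (N * B)).le
    have gb2 := Int.floor_le (N * B)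
    have hD' : (0 : ℝ) < 4 * (⌊N * A⌋ : ℝ) * ⌊N * C⌋ - (⌊N * B⌋ : ℝ) ^ 2 := by
      have e1 : (N * A - 1) * (N * C - 1) ≤ (⌊N * A⌋ : ℝ) * ⌊N * C⌋ :=
        mul_le_mul ga gc (by linarith) (by exact_mod_cast (by omega : (0 : ℤ) ≤ ⌊N * A⌋))
      have e2 : (⌊N * B⌋ : ℝ) ^ 2 ≤ (N * |B| + 1) ^ 2 := by
        rw [← sq_abs (⌊N * B⌋ : ℝ)]
        apply pow_le_pow_left₀ (abs_nonneg _)
        rw [abs_le]
        have h1 : N * B ≤ N * |B| := mul_le_mul_of_nonneg_left (le_abs_self _) (by linarith)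
        have h2 : -(N * |B|) ≤ N * B := by
          have := mul_le_mul_of_nonneg_left (neg_abs_le B) (show (0 : ℝ) ≤ N by linarith)
          linarith
        constructor <;> linarith
      have e3 : |B| ^ 2 = B ^ 2 := sq_abs B
      have e4 : 4 * ((N * A - 1) * (N * C - 1)) - (N * |B| + 1) ^ 2 =
          N * (N * d - 4 * (A + C) - 2 * |B|) + 3 := by
        rw [← hD]
        linear_combination (-(N : ℝ) ^ 2) * e3
      have e5 : 0 ≤ (N : ℝ) * (N * d - 4 * (A + C) - 2 * |B|) := by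
        apply mul_nonneg (by linarith)
        have : (N : ℝ) * 1 ≤ N * d := mul_le_mul_of_nonneg_left hd (by linarith)
        linarith
      linarith
    have : (0 : ℝ) < (((FF d Q w N).D : ℤ) : ℝ) := by
      unfold FF Form.D
      push_cast
      exact hD'
    exact_mod_cast this

/-- rounding -/
theorem FF_near (d : ℕ) (Q : Form) (w : ℝ) (N : ℕ) (v : V) :
    |((FF d Q w N).q v : ℝ) -
      N * (cA Q w * v.1 ^ 2 + cB d Q w * v.1 * v.2 + cC d Q w * v.2 ^ 2)| ≤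
      (v.1 : ℝ) ^ 2 + |(v.1 : ℝ)| * |(v.2 : ℝ)| + (v.2 : ℝ) ^ 2 := by
  have fl : ∀ x : ℝ, |(⌊x⌋ : ℝ) - x| ≤ 1 := by
    intro x
    rw [abs_le]
    have := Int.floor_le x
    have := Int.sub_one_lt_floor x
    constructor <;> linarith
  unfold FF Form.q
  push_cast
  have e : (⌊N * cA Q w⌋ : ℝ) * (v.1 : ℝ) ^ 2 + ⌊N * cB d Q w⌋ * v.1 * v.2 +
      ⌊N * cC d Q w⌋ * (v.2 : ℝ) ^ 2 -
      N * (cA Q w * v.1 ^ 2 + cB d Q w * v.1 * v.2 + cC d Q w * v.2 ^ 2) =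
      (⌊N * cA Q w⌋ - N * cA Q w) * (v.1 : ℝ) ^ 2 +
      (⌊N * cB d Q w⌋ - N * cB d Q w) * (v.1 * v.2) +
      (⌊N * cC d Q w⌋ - N * cC d Q w) * (v.2 : ℝ) ^ 2 := by ring
  rw [e]
  refine (abs_add_three _ _ _).trans (add_le_add_three ?_ ?_ ?_)
  · rw [abs_mul, abs_of_nonneg (sq_nonneg (v.1 : ℝ))]
    have := mul_le_mul_of_nonneg_right (fl (N * cA Q w)) (sq_nonneg (v.1 : ℝ))
    linarith
  · rw [abs_mul, abs_mul]
    have := mul_le_mul_of_nonneg_right (fl (N * cB d Q w))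
      (mul_nonneg (abs_nonneg (v.1 : ℝ)) (abs_nonneg (v.2 : ℝ)))
    linarith
  · rw [abs_mul, abs_of_nonneg (sq_nonneg (v.2 : ℝ))]
    have := mul_le_mul_of_nonneg_right (fl (N * cC d Q w)) (sq_nonneg (v.2 : ℝ))
    linarith

/-- the form of a cell is close to `N Q` on the cell -/
theorem FF_cell {d : ℕ} {Q : Form} (hQ : Hyp d Q) (T : ℝ) {η : ℝ} (hη : 0 < η) :
    ∃ N0 : ℕ, ∀ N : ℕ, N0 ≤ N → ∀ (c s : ℝ), Real.exp (2 * s) ≤ 1 + η → ∀ v : V, Sec Q T v →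
      c ≤ ps Q v → ps Q v < c + s →
      |((FF d Q (Real.exp (2 * c)) N).q v : ℝ) - N * Q.q v| ≤ η * (N * Q.q v) := by
  obtain ⟨C, hC0, hC⟩ := coord_le hQ
  refine ⟨⌈6 * C ^ 2 * Real.exp (2 * T) / η⌉₊, ?_⟩
  intro N hN c s hs v hv hc1 hc2
  obtain ⟨hcn, hp0, hpT⟩ := hv
  have hY0 := hY_nonneg hcn hp0
  have hN1 : 6 * C ^ 2 * Real.exp (2 * T) ≤ η * N := by
    have h1 : 6 * C ^ 2 * Real.exp (2 * T) / η ≤ N :=
      (Nat.le_ceil _).trans (by exact_mod_cast hN)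
    rw [div_le_iff₀ hη] at h1
    linarith
  have hpl := pl_pos hcn
  have hmi := mi_pos hcn
  set w := Real.exp (2 * c) with hw
  have hw0 : 0 < w := Real.exp_pos _
  have g1 : w * mi Q v ≤ pl Q v := (le_ps hcn c).1 hc1
  have g2 : pl Q v ≤ (1 + η) * (w * mi Q v) := by
    have h1 := ((ps_lt hcn (c + s)).1 hc2).le
    have h2 : Real.exp (2 * (c + s)) = w * Real.exp (2 * s) := by
      rw [hw, ← Real.exp_add]; ring_nf
    rw [h2] at h1
    have h3 : w * Real.exp (2 * s) * mi Q v ≤ w * (1 + η) * mi Q v := by gcongr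
    linarith
  have g3 : pl Q v ≤ Real.exp (2 * T) * mi Q v := ((ps_lt hcn T).1 hpT).le
  have hqv := q_pm hQ v
  have hnear := FF_near d Q w N v
  rw [qc_eq hQ] at hnear
  obtain ⟨k1, k2⟩ := hC v hcn hY0
  have r1 : (v.1 : ℝ) ^ 2 ≤ (C * pl Q v) ^ 2 := by
    rw [← sq_abs (v.1 : ℝ)]; exact pow_le_pow_left₀ (abs_nonneg _) k1 2
  have r2 : (v.2 : ℝ) ^ 2 ≤ (C * pl Q v) ^ 2 := by
    rw [← sq_abs (v.2 : ℝ)]; exact pow_le_pow_left₀ (abs_nonneg _) k2 2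
  have r3 : |(v.1 : ℝ)| * |(v.2 : ℝ)| ≤ (C * pl Q v) * (C * pl Q v) :=
    mul_le_mul k1 k2 (abs_nonneg _) (by positivity)
  have r4 : 3 * (C * pl Q v) ^ 2 ≤ η / 2 * (N * Q.q v) := by
    have e1 : pl Q v ^ 2 ≤ Real.exp (2 * T) * Q.q v := by
      rw [hqv]
      have := mul_le_mul_of_nonneg_left g3 hpl.le
      nlinarith
    have hq0 : (0 : ℝ) < Q.q v := by rw [hqv]; positivity
    calc 3 * (C * pl Q v) ^ 2 = 3 * C ^ 2 * pl Q v ^ 2 := by ring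
      _ ≤ 3 * C ^ 2 * (Real.exp (2 * T) * Q.q v) :=
          mul_le_mul_of_nonneg_left e1 (by positivity)
      _ = (6 * C ^ 2 * Real.exp (2 * T)) * (Q.q v / 2) := by ring
      _ ≤ η * N * (Q.q v / 2) := mul_le_mul_of_nonneg_right hN1 (by positivity)
      _ = _ := by ring
  have hN0 : (0 : ℝ) ≤ N := Nat.cast_nonneg N
  have r5 : |(w * mi Q v ^ 2 + w⁻¹ * pl Q v ^ 2) / 2 - Q.q v| ≤ η / 2 * Q.q v := by
    have e1 : (w * mi Q v ^ 2 + w⁻¹ * pl Q v ^ 2) / 2 - Q.q v =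
        (pl Q v - w * mi Q v) ^ 2 / (2 * w) := by
      rw [hqv]; field_simp; ring
    rw [e1, abs_of_nonneg (by positivity), div_le_iff₀ (by positivity), hqv]
    have e2 : 0 ≤ pl Q v - w * mi Q v := by linarith
    have e3 : pl Q v - w * mi Q v ≤ η * (w * mi Q v) := by linarith
    have e4 : pl Q v - w * mi Q v ≤ pl Q v := by
      have : 0 < w * mi Q v := by positivity
      linarith
    have e5 := mul_le_mul e3 e4 e2 (by positivity)
    nlinarith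
  have r6 : |N * ((w * mi Q v ^ 2 + w⁻¹ * pl Q v ^ 2) / 2) - N * (Q.q v : ℝ)| ≤
      η / 2 * (N * Q.q v) := by
    rw [← mul_sub, abs_mul, abs_of_nonneg hN0]
    have := mul_le_mul_of_nonneg_left r5 hN0
    linarith
  have e : ((FF d Q w N).q v : ℝ) - N * Q.q v =
      (((FF d Q w N).q v : ℝ) - N * ((w * mi Q v ^ 2 + w⁻¹ * pl Q v ^ 2) / 2)) +
      (N * ((w * mi Q v ^ 2 + w⁻¹ * pl Q v ^ 2) / 2) - N * (Q.q v : ℝ)) := by ring
  rw [e]
  refine (abs_add_le _ _).trans ?_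
  nlinarith

end AP25

end Pool.Agent.Lib.MP_a17b09_nt.HY
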