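import Pool.Agent.Lib.MP_a17b09_nt.HY.Coord20
import Pool.Agent.Lib.MP_a17b09_nt.CH.Cnt28

/-!
Project HY, E2 and E3: counting primitive vectors in a local box, bounds of the local sums.
-/

set_option autoImplicit false

open Filter Topology Finset

namespace Pool.Agent.Lib.MP_a17b09_nt.HY

open Pool.Agent.Lib.MP_a17b09_nt.CH
open Pool.Agent.Lib.MP_a17b09_nt.CH.PE (TM Good ec n2 sm Sup Lip GT Ug ind pin wt cl az adj wz rz gc
  UK rc StTri prim_wd_ne28)

/-- the local box -/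
def hbx26 (Q : Form) (τ B L x θ : ℝ) : Set V :=
  {v : V | Prim v ∧ 1 / B ≤ hlx Q τ x θ v ∧ hlx Q τ x θ v ≤ B ∧ |hly Q τ x θ v| ≤ B * L}

theorem hX_neg26 (Q : Form) (v : V) : hX Q (-v) = -hX Q v := by
  unfold hX
  simp only [Prod.fst_neg, Prod.snd_neg]
  push_cast
  ring

theorem hY_neg26 (Q : Form) (v : V) : hY Q (-v) = -hY Q v := by
  unfold hY
  simp only [Prod.snd_neg]
  push_cast
  ring

theorem hlx_neg26 (Q : Form) (τ x θ : ℝ) (v : V) : hlx Q τ x θ (-v) = - hlx Q τ x θ v := by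
  unfold hlx
  rw [hX_neg26, hY_neg26]
  ring

theorem hly_neg26 (Q : Form) (τ x θ : ℝ) (v : V) : hly Q τ x θ (-v) = - hly Q τ x θ v := by
  unfold hly
  rw [hX_neg26, hY_neg26]
  ring

theorem hlx_zero26 (Q : Form) (τ x θ : ℝ) (hx : x ≤ 0) (v : V) : hlx Q τ x θ v = 0 := by
  unfold hlx
  rw [Real.sqrt_eq_zero_of_nonpos hx, div_zero]

/-- the slopes in a box are separated -/
theorem hslope_sep26 {d : ℕ} {Q : Form} (hQ : Hyp d Q) (B : ℝ) (hB : 1 ≤ B) (τ x θ : ℝ)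
    (hx : 0 < x) (v w : V)
    (hv : Prim v) (hw : Prim w) (hne : v ≠ w) (hv1 : 1 / B ≤ hlx Q τ x θ v)
    (hv2 : hlx Q τ x θ v ≤ B) (hw1 : 1 / B ≤ hlx Q τ x θ w) (hw2 : hlx Q τ x θ w ≤ B) :
    √(d : ℝ) / 2 / B ^ 2 ≤ |hly Q τ x θ v / hlx Q τ x θ v - hly Q τ x θ w / hlx Q τ x θ w| := by
  have hB0 : 0 < B := by linarith
  have hB1 : 0 < 1 / B := by positivity
  have hv0 : 0 < hlx Q τ x θ v := by linarith
  have hw0 : 0 < hlx Q τ x θ w := by linarith
  have hκ : 0 < √(d : ℝ) / 2 := by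
    have := hQ.sd
    positivity
  have hwd : wd v w ≠ 0 := by
    intro h
    rcases prim_wd_ne28 v w hv hw h with h1 | h1
    · exact hne h1.symm
    · rw [h1, hlx_neg26] at hw0
      linarith
  have h1 := hlx_det hQ v w τ hx θ
  have h2 : hly Q τ x θ v / hlx Q τ x θ v - hly Q τ x θ w / hlx Q τ x θ w =
      -(√(d : ℝ) / 2 * wd v w) / (hlx Q τ x θ v * hlx Q τ x θ w) := by
    rw [← h1]
    field_simp
    ring
  have h3 : (1 : ℝ) ≤ |((wd v w : ℤ) : ℝ)| := by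
    rw [← Int.cast_abs]
    exact_mod_cast Int.one_le_abs hwd
  rw [h2, abs_div, abs_neg, abs_mul, abs_of_pos hκ, abs_of_pos (mul_pos hv0 hw0)]
  rw [div_le_div_iff₀ (by positivity) (mul_pos hv0 hw0)]
  have h4 : hlx Q τ x θ v * hlx Q τ x θ w ≤ B ^ 2 := by
    rw [sq]
    exact mul_le_mul hv2 hw2 hw0.le hB0.le
  calc √(d : ℝ) / 2 * (hlx Q τ x θ v * hlx Q τ x θ w) ≤ √(d : ℝ) / 2 * B ^ 2 :=
        mul_le_mul_of_nonneg_left h4 hκ.le
    _ ≤ √(d : ℝ) / 2 * |((wd v w : ℤ) : ℝ)| * B ^ 2 := by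
        have h5 : 0 ≤ √(d : ℝ) / 2 * B ^ 2 := by positivity
        nlinarith

/-- E2 -/
theorem stHCnt_26 : StHCnt := by
  intro d Q hQ B hB
  have hB0 : 0 < B := by linarith
  have hκ : 0 < √(d : ℝ) / 2 := by
    have := hQ.sd
    positivity
  set s : ℝ := √(d : ℝ) / 2 / B ^ 2 with hs
  have hs0 : 0 < s := by positivity
  refine ⟨2 * (B ^ 2 / s) + 2, ?_⟩
  intro τ L hL x θ
  rcases le_or_gt x 0 with hx | hx
  · have h1 : {v : V | Prim v ∧ 1 / B ≤ hlx Q τ x θ v ∧ hlx Q τ x θ v ≤ B ∧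
        |hly Q τ x θ v| ≤ B * L} = ∅ := by
      ext v
      constructor
      · rintro ⟨_, h, _⟩
        rw [hlx_zero26 Q τ x θ hx v] at h
        have : 0 < 1 / B := by positivity
        linarith
      · intro h
        exact absurd h (Set.notMem_empty v)
    rw [h1]
    refine ⟨Set.finite_empty, ?_⟩
    rw [Set.ncard_empty, Nat.cast_zero]
    positivity
  · set S : Set V := {v : V | Prim v ∧ 1 / B ≤ hlx Q τ x θ v ∧ hlx Q τ x θ v ≤ B ∧
      |hly Q τ x θ v| ≤ B * L} with hS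
    set f : V → ℤ := fun v => ⌊hly Q τ x θ v / hlx Q τ x θ v / s⌋ with hf
    set T : Finset ℤ := Icc ⌊-(B ^ 2 * L / s)⌋ ⌊B ^ 2 * L / s⌋ with hT
    have hmaps : ∀ v ∈ S, f v ∈ (T : Set ℤ) := by
      rintro v ⟨_, h1, h2, h3⟩
      have h4 : 0 < 1 / B := by positivity
      have h5 : 0 < hlx Q τ x θ v := by linarith
      have h6 : |hly Q τ x θ v / hlx Q τ x θ v| ≤ B ^ 2 * L := by
        rw [abs_div, abs_of_pos h5, div_le_iff₀ h5]
        have h7 : B * L ≤ B ^ 2 * L * (1 / B) := by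
          have : B ^ 2 * L * (1 / B) = B * L := by
            field_simp
          linarith
        have h8 : B ^ 2 * L * (1 / B) ≤ B ^ 2 * L * hlx Q τ x θ v :=
          mul_le_mul_of_nonneg_left h1 (by positivity)
        linarith
      rw [abs_le] at h6
      rw [mem_coe, hT, mem_Icc]
      constructor
      · apply Int.floor_le_floor
        rw [← neg_div]
        exact div_le_div_of_nonneg_right h6.1 hs0.le
      · apply Int.floor_le_floor
        exact div_le_div_of_nonneg_right h6.2 hs0.le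
    have hinj : Set.InjOn f S := by
      rintro v ⟨h1, h2, h3, h4⟩ w ⟨h1', h2', h3', h4'⟩ he
      by_contra hne
      have h5 := hslope_sep26 hQ B hB τ x θ hx v w h1 h1' hne h2 h3 h2' h3'
      rw [← hs] at h5
      have h6 : |hly Q τ x θ v / hlx Q τ x θ v / s - hly Q τ x θ w / hlx Q τ x θ w / s| < 1 :=
        Int.abs_sub_lt_one_of_floor_eq_floor he
      rw [← sub_div, abs_div, abs_of_pos hs0, div_lt_one hs0] at h6
      linarith
    have hfin : S.Finite := Set.Finite.of_injOn hmaps hinj T.finite_toSet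
    refine ⟨hfin, ?_⟩
    have h1 : S.ncard ≤ T.card := by
      rw [← Set.ncard_coe_finset]
      exact Set.ncard_le_ncard_of_injOn f hmaps hinj T.finite_toSet
    have h2 : (T.card : ℝ) ≤ 2 * (B ^ 2 * L / s) + 2 := by
      rw [hT, Int.card_Icc]
      have h3 : (0 : ℝ) ≤ B ^ 2 * L / s := by positivity
      have h4 : ⌊-(B ^ 2 * L / s)⌋ ≤ ⌊B ^ 2 * L / s⌋ + 1 := by
        have : ⌊-(B ^ 2 * L / s)⌋ ≤ ⌊B ^ 2 * L / s⌋ := Int.floor_le_floor (by linarith)
        omega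
      have h5 : (((⌊B ^ 2 * L / s⌋ + 1 - ⌊-(B ^ 2 * L / s)⌋).toNat : ℕ) : ℝ) =
          ((⌊B ^ 2 * L / s⌋ + 1 - ⌊-(B ^ 2 * L / s)⌋ : ℤ) : ℝ) := by
        have h6 : ((((⌊B ^ 2 * L / s⌋ + 1 - ⌊-(B ^ 2 * L / s)⌋).toNat : ℕ) : ℤ)) =
            ⌊B ^ 2 * L / s⌋ + 1 - ⌊-(B ^ 2 * L / s)⌋ := Int.toNat_of_nonneg (by omega)
        exact_mod_cast h6
      rw [h5]
      push_cast
      have h6 := Int.floor_le (B ^ 2 * L / s)
      have h7 := Int.lt_floor_add_one (-(B ^ 2 * L / s))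
      linarith
    have h3 : (S.ncard : ℝ) ≤ T.card := by exact_mod_cast h1
    have h4 : B ^ 2 * L / s = B ^ 2 / s * L := by ring
    rw [h4] at h2
    nlinarith

/-- the sum is a finite sum -/
theorem hmm_eq26 (Q : Form) (τ : ℝ) (g : V → ℂ) (hg : ∀ v, g v ≠ 0 → Prim v) (B : ℝ)
    (G : ℝ → ℝ → ℝ) (hG : Sup B G) (L x θ : ℝ) (hL : 1 ≤ L) (S : Finset V)
    (hS : hbx26 Q τ B L x θ ⊆ S) : hmm Q τ g G L x θ =
      (1 / (L : ℂ)) * ∑ v ∈ S, ((G (hlx Q τ x θ v) (hly Q τ x θ v / L) : ℝ) : ℂ) * g v := by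
  unfold hmm
  rw [tsum_eq_sum (s := S)]
  intro v hv
  by_contra hne
  apply hv
  have h1 : g v ≠ 0 := fun h => hne (by rw [h, mul_zero])
  have h2 : G (hlx Q τ x θ v) (hly Q τ x θ v / L) ≠ 0 := fun h => hne (by
    rw [h, Complex.ofReal_zero, zero_mul])
  obtain ⟨h3, h4, h5⟩ := hG _ _ h2
  have hL0 : 0 < L := by linarith
  rw [abs_div, abs_of_pos hL0, div_le_iff₀ hL0] at h5
  exact hS ⟨hg v h1, h3, h4, h5⟩

/-- E3 -/
theorem stHMb_26 : StHMb := by
  intro d Q hQ B hB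
  obtain ⟨C, hC⟩ := stHCnt_26 d Q hQ B hB
  constructor
  · intro G g τ L x θ hL hG hg
    apply (hC τ L hL x θ).1.subset
    intro v hv
    rw [Function.mem_support] at hv
    have h1 : g v ≠ 0 := fun h => hv (by rw [h, mul_zero])
    have h2 : G (hlx Q τ x θ v) (hly Q τ x θ v / L) ≠ 0 := fun h => hv (by
      rw [h, Complex.ofReal_zero, zero_mul])
    obtain ⟨h3, h4, h5⟩ := hG _ _ h2
    have hL0 : 0 < L := by linarith
    rw [abs_div, abs_of_pos hL0, div_le_iff₀ hL0] at h5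
    exact ⟨hg v h1, h3, h4, h5⟩
  · refine ⟨C, ?_⟩
    intro G ε hG hε g c hg hc τ L x θ hL
    have hL0 : 0 < L := by linarith
    have hε0 : 0 ≤ ε := (abs_nonneg _).trans (hε 0 0)
    have hc0 : 0 ≤ c := (norm_nonneg _).trans (hc 0)
    obtain ⟨hfin, hcard⟩ := hC τ L hL x θ
    rw [hmm_eq26 Q τ g hg B G hG L x θ hL hfin.toFinset (by
      intro v hv
      rw [mem_coe, Set.Finite.mem_toFinset]
      exact hv)]
    rw [Set.ncard_eq_toFinset_card _ hfin] at hcard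
    rw [norm_mul, norm_div, norm_one, Complex.norm_real, Real.norm_eq_abs, abs_of_pos hL0]
    have h1 : ‖∑ v ∈ hfin.toFinset, ((G (hlx Q τ x θ v) (hly Q τ x θ v / L) : ℝ) : ℂ) * g v‖ ≤
        hfin.toFinset.card * (ε * c) := by
      refine (norm_sum_le _ _).trans ?_
      refine (sum_le_sum (g := fun _ => ε * c) fun v _ => ?_).trans ?_
      · rw [norm_mul, Complex.norm_real, Real.norm_eq_abs]
        exact mul_le_mul (hε _ _) (hc v) (norm_nonneg _) hε0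
      · rw [sum_const, nsmul_eq_mul]
    have h2 : 1 / L * ‖∑ v ∈ hfin.toFinset,
        ((G (hlx Q τ x θ v) (hly Q τ x θ v / L) : ℝ) : ℂ) * g v‖ ≤ 1 / L * (C * L * (ε * c)) := by
      apply mul_le_mul_of_nonneg_left _ (by positivity)
      exact h1.trans (mul_le_mul_of_nonneg_right hcard (by positivity))
    refine h2.trans (le_of_eq ?_)
    field_simp

end Pool.Agent.Lib.MP_a17b09_nt.HY
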