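import Pool.Agent.Lib.MP_a17b09_nt.CH.StmtsT98

/-!
Project HY (MP_a17b09): positive discriminant.  Definitions.
Paper text: /team-store/CH20.md.  Everything of project CH which does not mention positive definite
forms is used as it is.
-/

set_option autoImplicit false

open Filter Topology Finset

namespace Pool.Agent.Lib.MP_a17b09_nt.HY

open Pool.Agent.Lib.MP_a17b09_nt.CH

/-! ### Indefinite forms -/

/-- indefinite form of nonsquare discriminant `d`, first coefficient positive, last negative;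
so the first coordinate is positive on the positive cone -/
structure Hyp (d : ℕ) (Q : Form) : Prop where
  apos : 0 < Q.a
  cneg : Q.c < 0
  disc : Q.D = -(d : ℤ)
  nsq : ¬ IsSquare d

/-- first coordinate -/
noncomputable def hX (Q : Form) (v : V) : ℝ := √(Q.a : ℝ) * v.1 + Q.b * v.2 / (2 * √(Q.a : ℝ))

/-- second coordinate -/
noncomputable def hY (Q : Form) (v : V) : ℝ := √(-(Q.D : ℝ)) * v.2 / (2 * √(Q.a : ℝ))

/-- the positive cone -/
def Cn (Q : Form) (v : V) : Prop := |hY Q v| < hX Q v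

/-- hyperbolic angle, for vectors of the cone -/
noncomputable def ps (Q : Form) (v : V) : ℝ := Real.log ((hX Q v + hY Q v) / (hX Q v - hY Q v)) / 2

/-- the sector of length `T` -/
def Sec (Q : Form) (T : ℝ) (v : V) : Prop := Cn Q v ∧ 0 ≤ ps Q v ∧ ps Q v < T

/-- the automorph of a solution of `x ^ 2 - d y ^ 2 = 1` -/
def au (Q : Form) (x y : ℤ) : Mat := ⟨x - Q.b * y, -2 * Q.c * y, 2 * Q.a * y, x + Q.b * y⟩

/-- the action of a solution of Pell's equation -/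
def act {d : ℕ} (Q : Form) (a : Pell.Solution₁ (d : ℤ)) (v : V) : V := (au Q a.x a.y).app v

/-- solutions with positive coordinates -/
def PP {d : ℕ} (a : Pell.Solution₁ (d : ℤ)) : Prop := 1 < a.x ∧ 0 < a.y

/-- the period -/
noncomputable def per {d : ℕ} (a : Pell.Solution₁ (d : ℤ)) : ℝ :=
  Real.log ((a.x : ℝ) + a.y * √(d : ℝ))

/-- invariant kernels -/
def AInv {d : ℕ} (Q : Form) (a : Pell.Solution₁ (d : ℤ)) (U : V → V → ℂ) : Prop :=
  ∀ v v', U (act Q a v) (act Q a v') = U v v'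

/-- invariant functions -/
def AI {d : ℕ} (Q : Form) (a : Pell.Solution₁ (d : ℤ)) (g : V → ℂ) : Prop :=
  ∀ v, g (act Q a v) = g v

open Classical in
/-- the terms of the sector sum -/
noncomputable def hkk (Q : Form) (T : ℝ) (h : ℝ → ℝ → ℝ) (U : V → V → ℂ) (k : ℤ) (n : ℝ)
    (f : V × V) : ℂ :=
  if Prim f.1 ∧ Prim f.2 ∧ Sec Q T f.1 ∧ Cn Q f.2 ∧ wd f.1 f.2 = k then
    ((h (Q.nr n f.1) (Q.nr n f.2) : ℝ) : ℂ) * U f.1 f.2 else 0

/-- the bilinear sum over a sector, normalised by its length -/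
noncomputable def Hk (Q : Form) (T : ℝ) (h : ℝ → ℝ → ℝ) (U : V → V → ℂ) (k : ℤ) (n : ℝ) : ℂ :=
  (1 / ((n * T : ℝ) : ℂ)) * ∑' f : V × V, hkk Q T h U k n f

/-- A system of indefinite forms of discriminant `d` with its similitudes. -/
structure HSystem (ι : Type) where
  Q : ι → Form
  d : ℕ
  hyp : ∀ i, Hyp d (Q i)
  s : ℕ → Equiv.Perm ι
  M : ℕ → ι → Mat
  det : ∀ p : ℕ, p.Prime → p ≡ 1 [MOD 4 * d] → ∀ i, (M p i).det = p
  sim : ∀ p : ℕ, p.Prime → p ≡ 1 [MOD 4 * d] → ∀ i u,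
    (Q i).q ((M p i).app u) = p * (Q (s p i)).q u
  cone : ∀ p : ℕ, p.Prime → p ≡ 1 [MOD 4 * d] → ∀ i u,
    (Cn (Q i) ((M p i).app u) ↔ Cn (Q (s p i)) u)

/-- A system of kernels modulo `K` compatible with the similitudes and the automorphs. -/
structure HWt {ι : Type} (S : HSystem ι) (K : ℕ) (om : ι → V → V → ℂ) : Prop where
  per : ∀ i v v' a b, om i (v + (K : ℤ) • a) (v' + (K : ℤ) • b) = om i v v'
  inv : ∀ p : ℕ, p.Prime → p ≡ 1 [MOD 4 * S.d] → p ≡ 1 [MOD K] → ∀ i u u',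
    om i ((S.M p i).app u) ((S.M p i).app u') = om (S.s p i) u u'
  aut : ∀ i (a : Pell.Solution₁ (S.d : ℤ)), AInv (S.Q i) a (om i)

/-- the kernel `om_i(v,v') z1^Ω(q_i v) z2^Ω(q_i v')` -/
noncomputable def kerH {ι : Type} (S : HSystem ι) (z1 z2 : ℂ) (om : ι → V → V → ℂ) (i : ι)
    (v v' : V) : ℂ := om i v v' * gz z1 (S.Q i) v * gz z2 (S.Q i) v'

/-! ### First facts -/

namespace Hyp

variable {d : ℕ} {Q : Form}

theorem d_pos (h : Hyp d Q) : 0 < d := by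
  rcases Nat.eq_zero_or_pos d with h0 | h0
  · exact absurd (h0 ▸ (⟨0, rfl⟩ : IsSquare (0 : ℕ))) h.nsq
  · exact h0

theorem negD (h : Hyp d Q) : -(Q.D : ℝ) = d := by
  rw [h.disc]; push_cast; ring

theorem sa (h : Hyp d Q) : 0 < √(Q.a : ℝ) := Real.sqrt_pos.2 (by exact_mod_cast h.apos)

theorem sa_sq (h : Hyp d Q) : √(Q.a : ℝ) ^ 2 = Q.a :=
  Real.sq_sqrt (by exact_mod_cast h.apos.le)

theorem sd (h : Hyp d Q) : 0 < √(d : ℝ) := Real.sqrt_pos.2 (by exact_mod_cast h.d_pos)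

theorem sd_sq (d : ℕ) : √(d : ℝ) ^ 2 = d := Real.sq_sqrt (Nat.cast_nonneg d)

theorem hY_eq (h : Hyp d Q) (v : V) : hY Q v = √(d : ℝ) * v.2 / (2 * √(Q.a : ℝ)) := by
  unfold hY; rw [h.negD]

/-- `q = X ^ 2 - Y ^ 2` -/
theorem q_eq (h : Hyp d Q) (v : V) : (Q.q v : ℝ) = hX Q v ^ 2 - hY Q v ^ 2 := by
  have h1 := h.sa
  have h2 := h.sa_sq
  have h3 := sd_sq d
  have h4 : (d : ℝ) = (Q.b : ℝ) ^ 2 - 4 * Q.a * Q.c := by
    have h5 := h.negD
    unfold Form.D at h5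
    push_cast at h5
    linarith
  rw [h.hY_eq]
  unfold hX Form.q
  push_cast
  field_simp
  rw [h3, h4]
  have h5 : √(Q.a : ℝ) ^ 4 = (Q.a : ℝ) ^ 2 := by
    rw [show √(Q.a : ℝ) ^ 4 = (√(Q.a : ℝ) ^ 2) ^ 2 by ring, h2]
  ring_nf
  rw [h5, h2]
  ring

/-- the determinant in the coordinates -/
theorem wd_eq (h : Hyp d Q) (v w : V) :
    hX Q v * hY Q w - hX Q w * hY Q v = √(d : ℝ) / 2 * wd v w := by
  have h1 := h.sa
  rw [h.hY_eq, h.hY_eq]
  unfold hX wd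
  push_cast
  field_simp
  ring

/-- the polar form in the coordinates -/
theorem B_eq (h : Hyp d Q) (v w : V) :
    (Q.B v w : ℝ) = 2 * (hX Q v * hX Q w - hY Q v * hY Q w) := by
  have h1 := h.sa
  have h2 := h.sa_sq
  have h3 := sd_sq d
  have h4 : (d : ℝ) = (Q.b : ℝ) ^ 2 - 4 * Q.a * Q.c := by
    have h5 := h.negD
    unfold Form.D at h5
    push_cast at h5
    linarith
  rw [h.hY_eq, h.hY_eq]
  unfold hX Form.B
  push_cast
  field_simp
  rw [h3, h4]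
  have h5 : √(Q.a : ℝ) ^ 4 = (Q.a : ℝ) ^ 2 := by
    rw [show √(Q.a : ℝ) ^ 4 = (√(Q.a : ℝ) ^ 2) ^ 2 by ring, h2]
  ring_nf
  rw [h5, h2]
  ring

/-- the automorphs in the coordinates -/
theorem hX_act (h : Hyp d Q) (a : Pell.Solution₁ (d : ℤ)) (v : V) :
    hX Q (act Q a v) = a.x * hX Q v + a.y * √(d : ℝ) * hY Q v := by
  have h1 := h.sa
  have h2 := h.sa_sq
  have h3 := sd_sq d
  have h4 : (d : ℝ) = (Q.b : ℝ) ^ 2 - 4 * Q.a * Q.c := by
    have h5 := h.negD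
    unfold Form.D at h5
    push_cast at h5
    linarith
  rw [h.hY_eq]
  unfold hX act au Mat.app
  push_cast
  field_simp
  rw [h3, h4, h2]
  ring

theorem hY_act (h : Hyp d Q) (a : Pell.Solution₁ (d : ℤ)) (v : V) :
    hY Q (act Q a v) = a.x * hY Q v + a.y * √(d : ℝ) * hX Q v := by
  have h1 := h.sa
  have h2 := h.sa_sq
  rw [h.hY_eq, h.hY_eq]
  unfold hX act au Mat.app
  push_cast
  field_simp
  rw [h2]
  ring


end Hyp

/-! ### Cone and automorphs -/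

theorem cn_iff (Q : Form) (v : V) : Cn Q v ↔ 0 < hX Q v + hY Q v ∧ 0 < hX Q v - hY Q v := by
  unfold Cn
  rw [abs_lt]
  constructor
  · rintro ⟨h1, h2⟩
    exact ⟨by linarith, by linarith⟩
  · rintro ⟨h1, h2⟩
    exact ⟨by linarith, by linarith⟩

theorem Cn.X_pos {Q : Form} {v : V} (h : Cn Q v) : 0 < hX Q v :=
  (abs_nonneg _).trans_lt h

theorem Cn.q_pos {d : ℕ} {Q : Form} {v : V} (hQ : Hyp d Q) (h : Cn Q v) : 0 < Q.q v := by
  have h1 := (cn_iff Q v).1 h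
  have h2 : (0 : ℝ) < Q.q v := by
    rw [hQ.q_eq]
    have : hX Q v ^ 2 - hY Q v ^ 2 = (hX Q v + hY Q v) * (hX Q v - hY Q v) := by ring
    rw [this]
    exact mul_pos h1.1 h1.2
  exact_mod_cast h2

theorem Cn.B_pos {d : ℕ} {Q : Form} {v w : V} (hQ : Hyp d Q) (h : Cn Q v) (h' : Cn Q w) :
    0 < Q.B v w := by
  have h1 := (cn_iff Q v).1 h
  have h2 := (cn_iff Q w).1 h'
  have h3 : (0 : ℝ) < Q.B v w := by
    rw [hQ.B_eq]
    have : 2 * (hX Q v * hX Q w - hY Q v * hY Q w) =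
        (hX Q v + hY Q v) * (hX Q w - hY Q w) + (hX Q v - hY Q v) * (hX Q w + hY Q w) := by ring
    rw [this]
    exact add_pos (mul_pos h1.1 h2.2) (mul_pos h1.2 h2.1)
  exact_mod_cast h3

/-- the second vector lies in the cone as soon as its value and the polar form are positive -/
theorem Cn.of_pos {d : ℕ} {Q : Form} {v w : V} (hQ : Hyp d Q) (h : Cn Q v) (hq : 0 < Q.q w)
    (hB : 0 < Q.B v w) : Cn Q w := by
  have h1 := (cn_iff Q v).1 h
  have h2 : (0 : ℝ) < (hX Q w + hY Q w) * (hX Q w - hY Q w) := by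
    have h3 : (0 : ℝ) < Q.q w := by exact_mod_cast hq
    rw [hQ.q_eq] at h3
    linarith
  have h4 : (0 : ℝ) < (hX Q v + hY Q v) * (hX Q w - hY Q w) +
      (hX Q v - hY Q v) * (hX Q w + hY Q w) := by
    have h3 : (0 : ℝ) < Q.B v w := by exact_mod_cast hB
    rw [hQ.B_eq] at h3
    linarith
  rw [cn_iff]
  rcases lt_or_ge 0 (hX Q w + hY Q w) with h5 | h5
  · exact ⟨h5, (mul_pos_iff_of_pos_left h5).1 h2⟩
  · exfalso
    have h6 : hX Q w - hY Q w ≤ 0 := by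
      by_contra hc
      push Not at hc
      nlinarith
    nlinarith [mul_nonneg h1.1.le (neg_nonneg.2 h6), mul_nonneg h1.2.le (neg_nonneg.2 h5)]

theorem pell_sq {d : ℕ} (a : Pell.Solution₁ (d : ℤ)) : a.x ^ 2 - (d : ℤ) * a.y ^ 2 = 1 := a.prop

theorem pell_real {d : ℕ} (a : Pell.Solution₁ (d : ℤ)) :
    ((a.x : ℝ) + a.y * √(d : ℝ)) * ((a.x : ℝ) - a.y * √(d : ℝ)) = 1 := by
  have h1 : ((a.x : ℝ)) ^ 2 - (d : ℝ) * (a.y : ℝ) ^ 2 = 1 := by exact_mod_cast pell_sq a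
  have h2 := Hyp.sd_sq d
  linear_combination h1 - (a.y : ℝ) ^ 2 * h2

theorem det_au {d : ℕ} {Q : Form} (hQ : Hyp d Q) (a : Pell.Solution₁ (d : ℤ)) :
    (au Q a.x a.y).det = 1 := by
  have h1 := hQ.disc
  unfold Form.D at h1
  have h2 := pell_sq a
  unfold au Mat.det
  simp only
  linear_combination h2 + a.y ^ 2 * h1

theorem q_act {d : ℕ} {Q : Form} (hQ : Hyp d Q) (a : Pell.Solution₁ (d : ℤ)) (v : V) :
    Q.q (act Q a v) = Q.q v := by
  have h1 := hQ.disc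
  unfold Form.D at h1
  have h2 := pell_sq a
  have e : Q.q (act Q a v) = (a.x ^ 2 - (Q.b ^ 2 - 4 * Q.a * Q.c) * a.y ^ 2) * Q.q v := by
    unfold act au Mat.app Form.q; ring
  have h3 : Q.b ^ 2 - 4 * Q.a * Q.c = (d : ℤ) := by linarith
  rw [e, h3, h2, one_mul]

theorem B_act {d : ℕ} {Q : Form} (hQ : Hyp d Q) (a : Pell.Solution₁ (d : ℤ)) (v w : V) :
    Q.B (act Q a v) (act Q a w) = Q.B v w := by
  have h1 := hQ.disc
  unfold Form.D at h1
  have h2 := pell_sq a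
  have e : Q.B (act Q a v) (act Q a w) =
      (a.x ^ 2 - (Q.b ^ 2 - 4 * Q.a * Q.c) * a.y ^ 2) * Q.B v w := by
    unfold act au Mat.app Form.B; ring
  have h3 : Q.b ^ 2 - 4 * Q.a * Q.c = (d : ℤ) := by linarith
  rw [e, h3, h2, one_mul]

theorem wd_act {d : ℕ} {Q : Form} (hQ : Hyp d Q) (a : Pell.Solution₁ (d : ℤ)) (v w : V) :
    wd (act Q a v) (act Q a w) = wd v w := by
  have e : wd (act Q a v) (act Q a w) = (au Q a.x a.y).det * wd v w := by
    unfold act au Mat.app Mat.det wd; ring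
  rw [e, det_au hQ, one_mul]

/-- the automorphs act -/
theorem act_mul {d : ℕ} {Q : Form} (hQ : Hyp d Q) (a b : Pell.Solution₁ (d : ℤ)) (v : V) :
    act Q (a * b) v = act Q a (act Q b v) := by
  have h1 := hQ.disc
  unfold Form.D at h1
  unfold act au Mat.app
  rw [Pell.Solution₁.x_mul, Pell.Solution₁.y_mul]
  ext
  · simp only
    linear_combination (a.y * b.y * v.1) * h1
  · simp only
    linear_combination (a.y * b.y * v.2) * h1

theorem act_one {d : ℕ} (Q : Form) (v : V) : act Q (1 : Pell.Solution₁ (d : ℤ)) v = v := by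
  unfold act au Mat.app
  rw [Pell.Solution₁.x_one, Pell.Solution₁.y_one]
  ext <;> simp

theorem act_inj {d : ℕ} {Q : Form} (hQ : Hyp d Q) (a : Pell.Solution₁ (d : ℤ)) :
    Function.Injective (act Q a) := by
  intro v w h
  have h1 := congrArg (act Q a⁻¹) h
  rwa [← act_mul hQ, ← act_mul hQ, inv_mul_cancel, act_one, act_one] at h1

theorem eps_pos {d : ℕ} {a : Pell.Solution₁ (d : ℤ)} (ha : PP a) :
    1 < (a.x : ℝ) + a.y * √(d : ℝ) ∧ 0 < (a.x : ℝ) - a.y * √(d : ℝ) := by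
  have h1 : (1 : ℝ) < a.x := by exact_mod_cast ha.1
  have h2 : (0 : ℝ) < a.y := by exact_mod_cast ha.2
  have h3 : (0 : ℝ) ≤ √(d : ℝ) := Real.sqrt_nonneg _
  have h4 : 1 < (a.x : ℝ) + a.y * √(d : ℝ) := by nlinarith [mul_nonneg h2.le h3]
  refine ⟨h4, ?_⟩
  have h5 := pell_real a
  by_contra hc
  push Not at hc
  nlinarith

theorem per_pos {d : ℕ} {a : Pell.Solution₁ (d : ℤ)} (ha : PP a) : 0 < per a :=
  Real.log_pos (eps_pos ha).1

theorem cn_act {d : ℕ} {Q : Form} (hQ : Hyp d Q) {a : Pell.Solution₁ (d : ℤ)} (ha : PP a) (v : V) :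
    Cn Q (act Q a v) ↔ Cn Q v := by
  obtain ⟨h1, h2⟩ := eps_pos ha
  rw [cn_iff, cn_iff, hQ.hX_act, hQ.hY_act]
  have e1 : a.x * hX Q v + a.y * √(d : ℝ) * hY Q v + (a.x * hY Q v + a.y * √(d : ℝ) * hX Q v) =
      ((a.x : ℝ) + a.y * √(d : ℝ)) * (hX Q v + hY Q v) := by ring
  have e2 : a.x * hX Q v + a.y * √(d : ℝ) * hY Q v - (a.x * hY Q v + a.y * √(d : ℝ) * hX Q v) =
      ((a.x : ℝ) - a.y * √(d : ℝ)) * (hX Q v - hY Q v) := by ring
  rw [e1, e2, mul_pos_iff_of_pos_left (by linarith), mul_pos_iff_of_pos_left h2]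

theorem ps_act {d : ℕ} {Q : Form} (hQ : Hyp d Q) {a : Pell.Solution₁ (d : ℤ)} (ha : PP a) {v : V}
    (hv : Cn Q v) : ps Q (act Q a v) = ps Q v + per a := by
  obtain ⟨h1, h2⟩ := eps_pos ha
  obtain ⟨h3, h4⟩ := (cn_iff Q v).1 hv
  unfold ps per
  rw [hQ.hX_act, hQ.hY_act]
  have e1 : a.x * hX Q v + a.y * √(d : ℝ) * hY Q v + (a.x * hY Q v + a.y * √(d : ℝ) * hX Q v) =
      ((a.x : ℝ) + a.y * √(d : ℝ)) * (hX Q v + hY Q v) := by ring
  have e2 : a.x * hX Q v + a.y * √(d : ℝ) * hY Q v - (a.x * hY Q v + a.y * √(d : ℝ) * hX Q v) =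
      ((a.x : ℝ) - a.y * √(d : ℝ)) * (hX Q v - hY Q v) := by ring
  have e3 : (a.x : ℝ) - a.y * √(d : ℝ) = ((a.x : ℝ) + a.y * √(d : ℝ))⁻¹ := by
    have := pell_real a
    field_simp
    linarith
  have h0 : 0 < (a.x : ℝ) + a.y * √(d : ℝ) := by linarith
  rw [e1, e2, e3, mul_div_mul_comm, div_inv_eq_mul, Real.log_mul (by positivity)
    (div_pos h3 h4).ne', Real.log_mul h0.ne' h0.ne']
  ring

/-- polar coordinates -/
theorem polar {d : ℕ} {Q : Form} (hQ : Hyp d Q) {v : V} (hv : Cn Q v) :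
    hX Q v = √(Q.q v : ℝ) * Real.cosh (ps Q v) ∧ hY Q v = √(Q.q v : ℝ) * Real.sinh (ps Q v) := by
  obtain ⟨h3, h4⟩ := (cn_iff Q v).1 hv
  have hq : (Q.q v : ℝ) = (hX Q v + hY Q v) * (hX Q v - hY Q v) := by rw [hQ.q_eq]; ring
  have hs : √(Q.q v : ℝ) = √(hX Q v + hY Q v) * √(hX Q v - hY Q v) := by
    rw [hq, Real.sqrt_mul h3.le]
  have e1 : Real.exp (ps Q v) = √(hX Q v + hY Q v) / √(hX Q v - hY Q v) := by
    unfold ps
    rw [Real.exp_half, Real.exp_log (div_pos h3 h4), Real.sqrt_div h3.le]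
  have h5 : 0 < √(hX Q v + hY Q v) := Real.sqrt_pos.2 h3
  have h6 : 0 < √(hX Q v - hY Q v) := Real.sqrt_pos.2 h4
  have s1 := Real.sq_sqrt h3.le
  have s2 := Real.sq_sqrt h4.le
  rw [Real.cosh_eq, Real.sinh_eq, Real.exp_neg, e1, hs]
  constructor
  · field_simp
    nlinarith
  · field_simp
    nlinarith

end Pool.Agent.Lib.MP_a17b09_nt.HY
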