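import Pool.Agent.Lib.MP_a17b09_nt.HY.Stmts20
import Pool.Agent.Lib.MP_a17b09_nt.CH.Tst77
import Pool.Agent.Lib.MP_a17b09_nt.CH.Tel18

/-!
Project HY (MP_a17b09), module F5, part 1: the test functions of the sandwich in the indefinite
case, pointwise comparison.
-/

set_option autoImplicit false

open Filter Topology Finset

namespace Pool.Agent.Lib.MP_a17b09_nt.HY

open Pool.Agent.Lib.MP_a17b09_nt.CH

namespace Fm49

open Cut77 Tst77

/-- the parameter of a frame -/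
noncomputable def sf (Q : Form) (f : V × V) : ℝ := (Q.B f.1 f.2 : ℝ) / (2 * Q.q f.1)

theorem le_of_sq {u v : ℝ} (hv : 0 ≤ v) (h : u ^ 2 ≤ v ^ 2) : u ≤ v :=
  (le_abs_self u).trans (abs_le_of_sq_le_sq h hv)

theorem lin_ev {C k : ℝ} (hk : 0 < k) : ∀ᶠ N : ℕ in atTop, C ≤ k * N :=
  (Tendsto.const_mul_atTop hk tendsto_natCast_atTop_atTop).eventually_ge_atTop C

theorem q_one {d : ℕ} {Q : Form} (hQ : Hyp d Q) {v : V} (hv : Cn Q v) : (1 : ℝ) ≤ Q.q v := by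
  exact_mod_cast hv.q_pos hQ

theorem B_sf {d : ℕ} {Q : Form} (hQ : Hyp d Q) {f : V × V} (hv : Cn Q f.1) :
    (Q.B f.1 f.2 : ℝ) = 2 * Q.q f.1 * sf Q f := by
  have := q_one hQ hv
  unfold sf
  field_simp

theorem sf_pos {d : ℕ} {Q : Form} (hQ : Hyp d Q) {f : V × V} (hv : Cn Q f.1) (hw : Cn Q f.2) :
    0 < sf Q f := by
  have h1 := q_one hQ hv
  have h2 : (0 : ℝ) < Q.B f.1 f.2 := by exact_mod_cast Cn.B_pos hQ hv hw
  unfold sf
  positivity

/-- the second value -/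
theorem key' {d : ℕ} {Q : Form} (hQ : Hyp d Q) {f : V × V} (h1 : wd f.1 f.2 = 1)
    (hv : Cn Q f.1) : (Q.q f.2 : ℝ) = Q.q f.1 * (sf Q f) ^ 2 - (d : ℝ) / (4 * Q.q f.1) := by
  have hq : (0 : ℝ) < Q.q f.1 := by linarith [q_one hQ hv]
  have hk : (4 : ℝ) * Q.q f.1 * Q.q f.2 = (Q.B f.1 f.2 : ℝ) ^ 2 - d := by
    have := Q.key f.1 f.2
    rw [h1, hQ.disc] at this
    have h2 : ((4 * Q.q f.1 * Q.q f.2 : ℤ) : ℝ) = ((Q.B f.1 f.2 ^ 2 + -(d : ℤ) * 1 ^ 2 : ℤ) : ℝ) := by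
      rw [this]
    push_cast at h2
    linarith
  unfold sf
  field_simp
  linarith

/-- the coordinates and the parameter -/
theorem coords {q q' s D X : ℝ} (hq : 0 < q) (hX : 0 < X) (hs : 0 < s) (hD : 0 ≤ D)
    (hq' : 0 ≤ q') (key : q' = q * s ^ 2 - D / (4 * q)) :
    0 < √(q / X) ∧ √(q' / X) ≤ s * √(q / X) ∧ X * (√(q / X) * √(q' / X)) ≤ q * s ∧
    (∀ e, 0 ≤ e → e ≤ s → D ≤ 4 * e * s * q ^ 2 → (s - e) * √(q / X) ≤ √(q' / X)) ∧
    ∀ z, 0 ≤ z → z ^ 2 + D / 4 ≤ (q * s) ^ 2 → z ≤ X * (√(q / X) * √(q' / X)) := by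
  have hx : 0 < √(q / X) := Real.sqrt_pos.2 (by positivity)
  have hy : 0 ≤ √(q' / X) := Real.sqrt_nonneg _
  have hx2 : √(q / X) ^ 2 = q / X := Real.sq_sqrt (by positivity)
  have hy2 : √(q' / X) ^ 2 = q' / X := Real.sq_sqrt (by positivity)
  have hD4 : 0 ≤ D / (4 * q) := by positivity
  have hxy : (X * (√(q / X) * √(q' / X))) ^ 2 = (q * s) ^ 2 - D / 4 := by
    have : (X * (√(q / X) * √(q' / X))) ^ 2 = X ^ 2 * (√(q / X) ^ 2 * √(q' / X) ^ 2) := by ring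
    rw [this, hx2, hy2, key]
    field_simp
  refine ⟨hx, ?_, ?_, ?_, ?_⟩
  · apply le_of_sq (by positivity)
    rw [mul_pow, hx2, hy2, key, mul_div_assoc']
    apply div_le_div_of_nonneg_right _ hX.le
    linarith
  · apply le_of_sq (by positivity)
    rw [hxy]
    linarith
  · intro e he hes hD
    apply le_of_sq hy
    rw [mul_pow, hx2, hy2, key, mul_div_assoc']
    apply div_le_div_of_nonneg_right _ hX.le
    have h1 : D / (4 * q) ≤ e * s * q := by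
      rw [div_le_iff₀ (by positivity)]
      linarith
    have h2 : e ^ 2 * q ≤ e * s * q := by
      apply mul_le_mul_of_nonneg_right _ hq.le
      rw [sq]
      exact mul_le_mul_of_nonneg_left hes he
    calc (s - e) ^ 2 * q = q * s ^ 2 - 2 * (e * s * q) + e ^ 2 * q := by ring
      _ ≤ _ := by linarith
  · intro z hz h
    apply le_of_sq (by positivity)
    rw [hxy]
    linarith

/-- the frames in the sandwich -/
def PG (Q : Form) (a b : ℤ) (α β : ℝ) (T0 N : ℕ) (f : V × V) : Prop :=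
  (T0 : ℝ) ≤ tp Q a b f ∧ tp Q a b f ≤ N ∧
    α * tp Q a b f ≤ (Q.q f.1 : ℝ) ∧ (Q.q f.1 : ℝ) ≤ β * tp Q a b f

/-- the frames near the boundary -/
def bad (Q : Form) (A B a σ ε : ℝ) (N : ℕ) (f : V × V) : Prop :=
  (Q.q f.1 : ℝ) < σ * N ∨ |sf Q f - A| ≤ ε ∨ |sf Q f - B| ≤ ε ∨
    (A ≤ sf Q f ∧ sf Q f ≤ B ∧ |(Q.q f.1 : ℝ) * sf Q f - a * N| ≤ ε * N)

theorem out1 {q s A ε b β a : ℝ} (hq : 0 < q) (hβ : 0 < β) (ha : 0 < a) (hA : A * β = a)
    (h1 : s < A - ε) (hb : |b| ≤ 2 * ε * q) : ¬ q ≤ β * ((2 * q * s - b) / (2 * a)) := by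
  intro g4
  rw [mul_div_assoc', le_div_iff₀ (by positivity)] at g4
  have e1 : q * (2 * a) = β * (2 * q * A) := by rw [← hA]; ring
  rw [e1] at g4
  have g5 := le_of_mul_le_mul_left g4 hβ
  have g6 : q * s < q * (A - ε) := mul_lt_mul_of_pos_left h1 hq
  have g7 := neg_abs_le b
  linarith

theorem out2 {q s B ε b α a : ℝ} (hq : 0 < q) (hα : 0 < α) (ha : 0 < a) (hB : B * α = a)
    (h1 : B + ε < s) (hb : |b| ≤ 2 * ε * q) : ¬ α * ((2 * q * s - b) / (2 * a)) ≤ q := by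
  intro g4
  rw [mul_div_assoc', div_le_iff₀ (by positivity)] at g4
  have e1 : q * (2 * a) = α * (2 * q * B) := by rw [← hB]; ring
  rw [e1] at g4
  have g5 := le_of_mul_le_mul_left g4 hα
  have g6 : q * (B + ε) < q * s := mul_lt_mul_of_pos_left h1 hq
  have g7 := le_abs_self b
  linarith

theorem out3 {q s ε b a N : ℝ} (ha : 0 < a) (h1 : (a + ε) * N < q * s)
    (hb : |b| ≤ 2 * ε * N) : ¬ (2 * q * s - b) / (2 * a) ≤ N := by
  intro g4
  rw [div_le_iff₀ (by positivity)] at g4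
  have g7 := le_abs_self b
  linarith

theorem inn {q s A B ε b α β a N σ T0 : ℝ} (hq : 0 < q) (hα : 0 < α) (hβ : 0 < β) (ha : 0 < a)
    (hA : A * β = a) (hB : B * α = a) (hA0 : 0 < A) (hs : A / 2 ≤ s) (h1 : A + ε < s) (h2 : s < B - ε) (h3 : q * s < (a - ε) * N)
    (hb : |b| ≤ 2 * ε * q) (hb' : |b| ≤ 2 * ε * N) (hσq : σ * N ≤ q)
    (h5 : |b| + 2 * a * T0 ≤ σ * A * N) :
    T0 ≤ (2 * q * s - b) / (2 * a) ∧ (2 * q * s - b) / (2 * a) ≤ N ∧
      α * ((2 * q * s - b) / (2 * a)) ≤ q ∧ q ≤ β * ((2 * q * s - b) / (2 * a)) := by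
  have g7 := le_abs_self b
  have g8 := neg_abs_le b
  refine ⟨?_, ?_, ?_, ?_⟩
  · rw [le_div_iff₀ (by positivity)]
    have : σ * N * (A / 2) ≤ q * s := mul_le_mul hσq hs (by positivity) hq.le
    linarith
  · rw [div_le_iff₀ (by positivity)]
    linarith
  · rw [mul_div_assoc', div_le_iff₀ (by positivity)]
    have e1 : q * (2 * a) = α * (2 * q * B) := by rw [← hB]; ring
    rw [e1]
    apply mul_le_mul_of_nonneg_left _ hα.le
    have : q * s < q * (B - ε) := mul_lt_mul_of_pos_left h2 hq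
    linarith
  · rw [mul_div_assoc', le_div_iff₀ (by positivity)]
    have e1 : q * (2 * a) = β * (2 * q * A) := by rw [← hA]; ring
    rw [e1]
    apply mul_le_mul_of_nonneg_left _ hβ.le
    have : q * (A + ε) < q * s := mul_lt_mul_of_pos_left h1 hq
    linarith

/-- outside: the test function vanishes -/
theorem zero_out {A B a c ρ ε x y s N z : ℝ} (hA0 : 0 < A) (hB0 : 0 < B) (ha' : 0 < a)
    (hρ : 0 < ρ) (hρ1 : ρ ≤ 1) (hε : 0 < ε) (hεA : ε ≤ A / 2) (hεB : ε ≤ B) (hεa : ε ≤ a)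
    (hc1 : 4 * a ≤ A * c) (hc2 : 4 * a * B ≤ c) (cx : 0 < x) (hN : 0 < N)
    (c2 : y ≤ s * x)
    (h : s < A - ε ∨ (B + ε < s ∧ (s - ε / 2) * x ≤ y) ∨
      ((a + ε / 2) * N ≤ z ∧ z ≤ c * (x * y) * N)) :
    hh A B a c ρ (ε / 2) x y = 0 := by
  by_contra h0
  obtain ⟨_, _, _, _, p5, p6, p7⟩ := hh_supp hA0 hB0 ha' hρ hρ1 (half_pos hε) (by linarith)
    (by linarith) (by linarith) hc1 hc2 h0
  rcases h with h | ⟨h, h'⟩ | ⟨h, h'⟩
  · have : s * x ≤ (A - ε / 2) * x := mul_le_mul_of_nonneg_right (by linarith) cx.le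
    linarith
  · have : (B + ε / 2) * x ≤ (s - ε / 2) * x := mul_le_mul_of_nonneg_right (by linarith) cx.le
    linarith
  · have g1 : c * (x * y) * N < (a + ε / 2) * N := mul_lt_mul_of_pos_right p7 hN
    linarith

/-- inside: the test function is one -/
theorem one_in {A B a c ρ ε x y s N q : ℝ} (hρ : 0 < ρ) (hε : 0 < ε)
    (hc : 0 < c) (cx : 0 < x) (hN : 0 < N)
    (c1 : (s - ε / 2) * x ≤ y) (c2 : y ≤ s * x) (c4 : c * (x * y) * N ≤ q * s)
    (hxρ : 2 * ρ ≤ x) (hx1 : x ≤ 1)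
    (hy0 : 0 ≤ y) (hy1 : y ≤ 1)
    (h1 : A + ε < s) (h2 : s < B - ε) (h3 : q * s < (a - ε) * N) :
    hh A B a c ρ (ε / 2) x y = 1 := by
  unfold hh
  rw [cl_eq (by linarith) hx1, cl_eq hy0 hy1]
  have t1 : A ≤ y / x := by
    rw [le_div_iff₀ cx]
    have : A * x ≤ (s - ε / 2) * x := mul_le_mul_of_nonneg_right (by linarith) cx.le
    linarith
  have t2 : y / x ≤ B := by
    rw [div_le_iff₀ cx]
    exact c2.trans (mul_le_mul_of_nonneg_right (by linarith) cx.le)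
  have t3 : -1 ≤ c * (x * y) := by
    have : 0 ≤ c * (x * y) := by positivity
    linarith
  have t4 : c * (x * y) ≤ a := by
    have g2 : 0 < ε * N := by positivity
    have : c * (x * y) * N ≤ a * N := by linarith
    exact le_of_mul_le_mul_right this hN
  rw [tr_one (half_pos hε) t1 t2, tr_one (half_pos hε) t3 t4, tr_one hρ hxρ (by linarith)]
  norm_num

open Classical in
/-- away from the boundary the test function is the indicator -/
theorem point {d : ℕ} {Q : Form} (hQ : Hyp d Q) {a b : ℤ} {α β : ℝ} (ha : 0 < a) (hα : 0 < α)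
    (hαβ : α < β) (T0 : ℕ) {c : ℕ} (hc1 : 4 * β ≤ c) (hc2 : 4 * a * (a / α) ≤ (c : ℝ))
    {ρ ε : ℝ} (hρ : 0 < ρ) (hρ1 : ρ ≤ 1) (hε : 0 < ε) (hεA : ε ≤ a / β / 2) (hεa : ε ≤ a) :
    ∀ᶠ N : ℕ in atTop, ∀ f : V × V, wd f.1 f.2 = 1 → Cn Q f.1 → Cn Q f.2 →
      (Q.q f.1 : ℝ) ≤ c * N →
      ¬ bad Q (a / β) (a / α) a (4 * ρ ^ 2 * c) ε N f →
      hh (a / β) (a / α) a c ρ (ε / 2) (Q.nr ((c : ℝ) * N) f.1) (Q.nr ((c : ℝ) * N) f.2) =
        if PG Q a b α β T0 N f then 1 else 0 := by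
  have ha' : (0 : ℝ) < a := by exact_mod_cast ha
  have hβ : 0 < β := hα.trans hαβ
  have hc0 : (0 : ℝ) < c := by linarith
  set A : ℝ := a / β with hA
  set B : ℝ := a / α with hB
  have hA0 : 0 < A := by positivity
  have hB0 : 0 < B := by positivity
  have hAB : A ≤ B := div_le_div_of_nonneg_left ha'.le hα hαβ.le
  have hAβ : A * β = a := by rw [hA]; field_simp
  have hBα : B * α = a := by rw [hB]; field_simp
  clear_value A B
  have hD0 : (0 : ℝ) ≤ d := Nat.cast_nonneg d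
  obtain ⟨σ, hσ⟩ : ∃ σ : ℝ, σ = 4 * ρ ^ 2 * c := ⟨_, rfl⟩
  have hσ0 : 0 < σ := by rw [hσ]; positivity
  rw [← hσ]
  filter_upwards [eventually_ge_atTop 1,
    lin_ev (C := (d : ℝ)) (k := ε * A * σ ^ 2) (by positivity),
    lin_ev (C := (d : ℝ)) (k := a * ε) (by positivity),
    lin_ev (C := |(b : ℝ)|) (k := 2 * ε * σ) (by positivity),
    lin_ev (C := |(b : ℝ)|) (k := 2 * ε) (by positivity),
    lin_ev (C := |(b : ℝ)| + 2 * a * T0) (k := σ * A) (by positivity)] with N hN L1 L2 L3 L4 L5 f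
    m1 hv hw m2 hbad
  have hN1 : (1 : ℝ) ≤ N := by exact_mod_cast hN
  have hN0 : (0 : ℝ) < N := by linarith
  have q1 := q_one hQ hv
  have q0 : (0 : ℝ) < Q.q f.1 := by linarith
  have q0' : (0 : ℝ) ≤ Q.q f.2 := by linarith [q_one hQ hw]
  have key := key' hQ m1 hv
  have hBs := B_sf hQ hv
  have hs0 := sf_pos hQ hv hw
  unfold bad at hbad
  push Not at hbad
  obtain ⟨b1, b2, b3, b4⟩ := hbad
  have hX : (0 : ℝ) < c * N := by positivity
  obtain ⟨cx, c1, c2, c3, c4⟩ := coords (q := Q.q f.1) (q' := Q.q f.2) (s := sf Q f)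
    (D := d) (X := c * N) q0 hX hs0 hD0 q0' key
  change hh A B a c ρ (ε / 2) (√((Q.q f.1 : ℝ) / (c * N))) (√((Q.q f.2 : ℝ) / (c * N))) = _
  -- the parameter is close to the quotient
  have c5 : A / 2 ≤ sf Q f → (sf Q f - ε / 2) * √((Q.q f.1 : ℝ) / (c * N)) ≤
      √((Q.q f.2 : ℝ) / (c * N)) := by
    intro hsA
    refine c3 (ε / 2) (by positivity) (by linarith) ?_
    have g0 : σ * N * (σ * N) ≤ Q.q f.1 * Q.q f.1 := mul_le_mul b1 b1 (by positivity) q0.le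
    have g1 : A / 2 * (σ * N * (σ * N)) ≤ sf Q f * (Q.q f.1 * Q.q f.1) :=
      mul_le_mul hsA g0 (by positivity) hs0.le
    have g2 : (ε * A * σ ^ 2) * (1 * N) ≤ (ε * A * σ ^ 2) * (N * N) :=
      mul_le_mul_of_nonneg_left (mul_le_mul_of_nonneg_right hN1 (by linarith)) (by positivity)
    have g3 := mul_le_mul_of_nonneg_left g1 (show 0 ≤ 2 * ε by positivity)
    calc (d : ℝ) ≤ ε * A * σ ^ 2 * N := L1
      _ = (ε * A * σ ^ 2) * (1 * N) := by ring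
      _ ≤ _ := g2
      _ = 2 * ε * (A / 2 * (σ * N * (σ * N))) := by ring
      _ ≤ _ := g3
      _ = _ := by ring
  have hxρ : 2 * ρ ≤ √((Q.q f.1 : ℝ) / (c * N)) := by
    apply Real.le_sqrt_of_sq_le
    rw [le_div_iff₀ (by positivity)]
    rw [hσ] at b1
    linarith
  have hx1 : √((Q.q f.1 : ℝ) / (c * N)) ≤ 1 := by
    rw [Real.sqrt_le_iff]
    refine ⟨zero_le_one, ?_⟩
    rw [one_pow, div_le_one (by positivity)]
    exact m2
  have htp : tp Q a b f = (2 * Q.q f.1 * sf Q f - b) / (2 * a) := by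
    unfold tp; rw [hBs]
  have hFG : PG Q a b α β T0 N f ↔ (T0 : ℝ) ≤ (2 * Q.q f.1 * sf Q f - b) / (2 * a) ∧
      (2 * Q.q f.1 * sf Q f - b) / (2 * a) ≤ N ∧
      α * ((2 * Q.q f.1 * sf Q f - b) / (2 * a)) ≤ Q.q f.1 ∧
      (Q.q f.1 : ℝ) ≤ β * ((2 * Q.q f.1 * sf Q f - b) / (2 * a)) := by
    unfold PG
    rw [htp]
  have hbq : |(b : ℝ)| ≤ 2 * ε * Q.q f.1 := by
    have := mul_le_mul_of_nonneg_left b1 (show 0 ≤ 2 * ε by positivity)
    linarith
  have hc1' : 4 * (a : ℝ) ≤ A * c := by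
    calc 4 * (a : ℝ) = A * (4 * β) := by rw [← hAβ]; ring
      _ ≤ A * c := mul_le_mul_of_nonneg_left hc1 hA0.le
  have hεB : ε ≤ B := by linarith
  have e2 : c * (√((Q.q f.1 : ℝ) / (c * N)) * √((Q.q f.2 : ℝ) / (c * N))) * N =
      c * N * (√((Q.q f.1 : ℝ) / (c * N)) * √((Q.q f.2 : ℝ) / (c * N))) := by ring
  rcases lt_or_ge (sf Q f) (A - ε) with h1 | h1
  · rw [if_neg (fun h => out1 q0 hβ ha' hAβ h1 hbq (hFG.1 h).2.2.2)]
    exact zero_out (z := 0) hA0 hB0 ha' hρ hρ1 hε hεA hεB hεa hc1' hc2 cx hN0 c1 (Or.inl h1)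
  have hsA : A / 2 ≤ sf Q f := by linarith
  rcases lt_or_ge (B + ε) (sf Q f) with h2 | h2
  · rw [if_neg (fun h => out2 q0 hα ha' hBα h2 hbq (hFG.1 h).2.2.1)]
    exact zero_out (z := 0) hA0 hB0 ha' hρ hρ1 hε hεA hεB hεa hc1' hc2 cx hN0 c1
      (Or.inr (Or.inl ⟨h2, c5 hsA⟩))
  rcases lt_or_ge ((a + ε) * N) (Q.q f.1 * sf Q f) with h3 | h3
  · rw [if_neg (fun h => out3 ha' h3 (by linarith) (hFG.1 h).2.1)]
    refine zero_out (z := (a + ε / 2) * N) hA0 hB0 ha' hρ hρ1 hε hεA hεB hεa hc1' hc2 cx hN0 c1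
      (Or.inr (Or.inr ⟨le_rfl, ?_⟩))
    rw [e2]
    refine c4 _ (by positivity) ?_
    have g1 : ((a + ε) * N) ^ 2 ≤ (Q.q f.1 * sf Q f) ^ 2 :=
      pow_le_pow_left₀ (by positivity) h3.le 2
    have g2 : (a * ε) * (1 * N) ≤ (a * ε) * (N * N) :=
      mul_le_mul_of_nonneg_left (mul_le_mul_of_nonneg_right hN1 (by linarith)) (by positivity)
    have g3 : 0 ≤ ε ^ 2 * N ^ 2 := by positivity
    nlinarith
  -- the interior
  have h1' : A + ε < sf Q f := by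
    by_contra hcc
    push Not at hcc
    have : |sf Q f - A| ≤ ε := abs_le.2 ⟨by linarith, by linarith⟩
    linarith
  have h2' : sf Q f < B - ε := by
    by_contra hcc
    push Not at hcc
    have : |sf Q f - B| ≤ ε := abs_le.2 ⟨by linarith, by linarith⟩
    linarith
  have h3' : Q.q f.1 * sf Q f < (a - ε) * N := by
    by_contra hcc
    push Not at hcc
    have : |Q.q f.1 * sf Q f - a * N| ≤ ε * N := abs_le.2 ⟨by linarith, by linarith⟩
    have := b4 (by linarith) (by linarith)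
    linarith
  rw [if_pos (hFG.2 (inn q0 hα hβ ha' hAβ hBα hA0 hsA h1' h2' h3' hbq (by linarith) b1
    L5))]
  have hy1 : √((Q.q f.2 : ℝ) / (c * N)) ≤ 1 := by
    rw [Real.sqrt_le_iff]
    refine ⟨zero_le_one, ?_⟩
    rw [one_pow, div_le_one (by positivity), key]
    have g1 : (Q.q f.1 : ℝ) * (sf Q f) ^ 2 ≤ a * N * B := by
      have e : (Q.q f.1 : ℝ) * (sf Q f) ^ 2 = (Q.q f.1 * sf Q f) * sf Q f := by ring
      rw [e]
      have g3 : 0 < ε * N := by positivity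
      exact mul_le_mul (by linarith) (by linarith) hs0.le (by positivity)
    have g2 : (0 : ℝ) ≤ d / (4 * Q.q f.1) := by positivity
    have g4 := mul_le_mul_of_nonneg_right hc2 hN0.le
    have g5 : 0 ≤ a * N * B := by positivity
    linarith
  rw [← e2] at c2
  exact one_in hρ hε hc0 cx hN0 (c5 hsA) c1 c2 hxρ hx1 (Real.sqrt_nonneg _) hy1 h1' h2' h3'

end Fm49

end Pool.Agent.Lib.MP_a17b09_nt.HY
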