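import Pool.Agent.Lib.MP_a17b09_nt.HY.FmA49
import Pool.Agent.Lib.MP_a17b09_nt.CH.Fmem64

/-!
Project HY (MP_a17b09), module F5, part 2: the window function and the average over dilates.
-/

set_option autoImplicit false

open Filter Topology Finset

namespace Pool.Agent.Lib.MP_a17b09_nt.HY

open Pool.Agent.Lib.MP_a17b09_nt.CH

namespace Fm49

open Cut77 Tst77

/-! ### The window function -/

theorem tr_mono {A B B' ε : ℝ} (hε : 0 < ε) (h : B ≤ B') (x : ℝ) : tr A B ε x ≤ tr A B' ε x := by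
  unfold tr
  refine max_le_max le_rfl (min_le_min le_rfl (min_le_min le_rfl ?_))
  exact div_le_div_of_nonneg_right (by linarith) hε.le

/-- window: difference of two test functions -/
noncomputable def hw (A B a c ρ ε x y : ℝ) : ℝ :=
  hh (A / 2) B (a + ε) c ρ ε x y - hh (A / 2) B (a - 3 * ε) c ρ ε x y

theorem hw_nonneg {A B a c ρ ε : ℝ} (hε : 0 < ε) (x y : ℝ) : 0 ≤ hw A B a c ρ ε x y := by
  unfold hw hh
  have h1 := tr_mono (A := -1) hε (show a - 3 * ε ≤ a + ε by linarith) (c * (cl ρ x * cl 0 y))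
  have h2 := tr_nonneg (A / 2) B ε (cl 0 y / cl ρ x)
  have h3 := tr_nonneg (2 * ρ) 2 ρ x
  have h4 := mul_le_mul_of_nonneg_right (mul_le_mul_of_nonneg_left h1 h2) h3
  linarith

theorem hw_le {A B a c ρ ε : ℝ} (x y : ℝ) : hw A B a c ρ ε x y ≤ 1 := by
  unfold hw
  have h1 := hh_le (A / 2) B (a + ε) c ρ ε x y
  have h2 := hh_nonneg (A / 2) B (a - 3 * ε) c ρ ε x y
  linarith

theorem hw_one {A B a c ρ ε x y : ℝ} (hρ : 0 < ρ) (hε : 0 < ε) (hc : 0 < c)
    (hx : 2 * ρ ≤ x) (hx1 : x ≤ 1) (hy : 0 ≤ y) (hy1 : y ≤ 1) (h1 : A / 2 * x ≤ y)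
    (h2 : y ≤ B * x) (h3 : a - 2 * ε ≤ c * (x * y)) (h4 : c * (x * y) ≤ a + ε) :
    hw A B a c ρ ε x y = 1 := by
  have hx0 : 0 < x := by linarith
  unfold hw hh
  rw [cl_eq (by linarith) hx1, cl_eq hy hy1]
  have t1 : A / 2 ≤ y / x := by rwa [le_div_iff₀ hx0]
  have t2 : y / x ≤ B := by rwa [div_le_iff₀ hx0]
  have t3 : -1 ≤ c * (x * y) := by
    have : 0 ≤ c * (x * y) := by positivity
    linarith
  rw [tr_one hε t1 t2, tr_one hρ hx (by linarith), tr_one hε t3 h4,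
    tr_zero_right hε (by linarith)]
  norm_num

theorem hw_supp {A B a c ρ ε : ℝ} (hA : 0 < A) (hB : 0 < B) (hρ : 0 < ρ)
    (hρ1 : ρ ≤ 1) (hε : 0 < ε) (hεA : ε ≤ A / 4) (hεB : ε ≤ B) (hεa : ε ≤ a / 4)
    (hc1 : 16 * a ≤ A * c) (hc2 : 8 * a * B ≤ c) {x y : ℝ} (h : hw A B a c ρ ε x y ≠ 0) :
    ρ ≤ x ∧ x ≤ 1 ∧ A / 4 * ρ ≤ y ∧ y ≤ 1 ∧ y ≤ 2 * B * x ∧ |c * (x * y) - a| ≤ 3 * ε := by
  have hm1 : ∀ a' : ℝ, 0 < a' → ε ≤ a' → a' ≤ 2 * a → hh (A / 2) B a' c ρ ε x y ≠ 0 →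
      ρ ≤ x ∧ x ≤ 1 ∧ A / 2 / 2 * ρ ≤ y ∧ y ≤ 1 ∧ (A / 2 - ε) * x < y ∧ y < (B + ε) * x ∧
      c * (x * y) < a' + ε := fun a' h1 h2 h3 h4 =>
    hh_supp (by positivity) hB h1 hρ hρ1 hε (by linarith) hεB h2 (by linarith)
      (by nlinarith) h4
  have hcase : hh (A / 2) B (a + ε) c ρ ε x y ≠ 0 ∨ hh (A / 2) B (a - 3 * ε) c ρ ε x y ≠ 0 := by
    by_contra hcon
    push Not at hcon
    apply h
    unfold hw
    rw [hcon.1, hcon.2, sub_self]
  have hall : ρ ≤ x ∧ x ≤ 1 ∧ A / 2 / 2 * ρ ≤ y ∧ y ≤ 1 ∧ (A / 2 - ε) * x < y ∧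
      y < (B + ε) * x ∧ c * (x * y) < a + 2 * ε := by
    rcases hcase with hc | hc
    · obtain ⟨g1, g2, g3, g4, g5, g6, g7⟩ := hm1 _ (by linarith) (by linarith) (by linarith) hc
      exact ⟨g1, g2, g3, g4, g5, g6, by linarith⟩
    · obtain ⟨g1, g2, g3, g4, g5, g6, g7⟩ := hm1 _ (by linarith) (by linarith) (by linarith) hc
      exact ⟨g1, g2, g3, g4, g5, g6, by linarith⟩
  obtain ⟨g1, g2, g3, g4, g5, g6, g7⟩ := hall
  have x0 : 0 < x := lt_of_lt_of_le hρ g1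
  have y0 : 0 ≤ y := by
    have : 0 ≤ A / 2 / 2 * ρ := by positivity
    linarith
  refine ⟨g1, g2, by linarith, g4, ?_, ?_⟩
  · have : (B + ε) * x ≤ 2 * B * x := mul_le_mul_of_nonneg_right (by linarith) x0.le
    linarith
  · rw [abs_le]
    refine ⟨?_, by linarith⟩
    by_contra hcon
    push Not at hcon
    apply h
    have hc0 : 0 < c := by nlinarith
    unfold hw hh
    rw [cl_eq g1 g2, cl_eq y0 g4]
    have t3 : -1 ≤ c * (x * y) := by
      have : 0 ≤ c * (x * y) := by positivity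
      linarith
    rw [tr_one hε t3 (by linarith), tr_one hε t3 (by linarith), sub_self]

theorem hw_test {A B a c ρ ε : ℝ} (hA : 0 < A) (hB : 0 < B) (ha : 0 < a) (hρ : 0 < ρ)
    (hρ1 : ρ ≤ 1) (hε : 0 < ε) (hεA : ε ≤ A / 4) (hεB : ε ≤ B) (hεa : ε ≤ a / 4)
    (hc1 : 16 * a ≤ A * c) (hc2 : 8 * a * B ≤ c) :
    Test (min ρ (A / 4 * ρ)) (hw A B a c ρ ε) := by
  have hc0 : 0 < c := by nlinarith
  obtain ⟨C, _, hC⟩ := hh_lp (A := A / 2) (B := B) (a := a + ε) hρ hρ1 hε hc0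
  obtain ⟨C', _, hC'⟩ := hh_lp (A := A / 2) (B := B) (a := a - 3 * ε) hρ hρ1 hε hc0
  refine ⟨⟨C + C', fun x y x' y' => ?_⟩, fun x y hxy => ?_⟩
  · unfold hw
    have e : hh (A / 2) B (a + ε) c ρ ε x y - hh (A / 2) B (a - 3 * ε) c ρ ε x y -
        (hh (A / 2) B (a + ε) c ρ ε x' y' - hh (A / 2) B (a - 3 * ε) c ρ ε x' y') =
        (hh (A / 2) B (a + ε) c ρ ε x y - hh (A / 2) B (a + ε) c ρ ε x' y') -
        (hh (A / 2) B (a - 3 * ε) c ρ ε x y - hh (A / 2) B (a - 3 * ε) c ρ ε x' y') := by ring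
    rw [e, add_mul]
    exact (abs_sub _ _).trans (add_le_add (hC x y x' y') (hC' x y x' y'))
  · obtain ⟨g1, g2, g3, g4, _⟩ := hw_supp hA hB hρ hρ1 hε hεA hεB hεa hc1 hc2 hxy
    exact ⟨(min_le_left _ _).trans g1, g2, (min_le_right _ _).trans g3, g4⟩

/-- frames in the window -/
theorem win {d : ℕ} {Q : Form} (hQ : Hyp d Q) {A B a : ℝ} {c : ℕ} (hA : 0 < A) (hB : 0 < B)
    (ha : 0 < a) {ρ ε : ℝ} (hρ : 0 < ρ) (hε : 0 < ε) (hεa : ε ≤ a / 4)
    (hc : 0 < c) (hc2 : 8 * a * B ≤ c) :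
    ∀ᶠ N : ℕ in atTop, ∀ f : V × V, wd f.1 f.2 = 1 → Cn Q f.1 → Cn Q f.2 →
      (Q.q f.1 : ℝ) ≤ c * N → 4 * ρ ^ 2 * c * N ≤ Q.q f.1 → A ≤ sf Q f → sf Q f ≤ B →
      |(Q.q f.1 : ℝ) * sf Q f - a * N| ≤ ε * N →
      hw A B a c ρ ε (Q.nr ((c : ℝ) * N) f.1) (Q.nr ((c : ℝ) * N) f.2) = 1 := by
  have hc0 : (0 : ℝ) < c := by exact_mod_cast hc
  filter_upwards [eventually_ge_atTop 1,
    lin_ev (C := (d : ℝ)) (k := 2 * A * A * (4 * ρ ^ 2 * c) ^ 2) (by positivity),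
    lin_ev (C := (d : ℝ)) (k := a * ε) (by positivity)] with N hN L1 L2 f
    m1 hv hw' m2 b1 s1 s2 b4
  have hN1 : (1 : ℝ) ≤ N := by exact_mod_cast hN
  have hN0 : (0 : ℝ) < N := by linarith
  have q1 := q_one hQ hv
  have q0 : (0 : ℝ) < Q.q f.1 := by linarith
  have q0' : (0 : ℝ) ≤ Q.q f.2 := by linarith [q_one hQ hw']
  have key := key' hQ m1 hv
  have hs0 := sf_pos hQ hv hw'
  have hX : (0 : ℝ) < c * N := by positivity
  obtain ⟨cx, c1, c2, c3, c4⟩ := coords (q := Q.q f.1) (q' := Q.q f.2) (s := sf Q f)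
    (D := d) (X := c * N) q0 hX hs0 (Nat.cast_nonneg d) q0' key
  obtain ⟨g1, g2⟩ := abs_le.1 b4
  change hw A B a c ρ ε (√((Q.q f.1 : ℝ) / (c * N))) (√((Q.q f.2 : ℝ) / (c * N))) = 1
  have c5 : (sf Q f - A / 2) * √((Q.q f.1 : ℝ) / (c * N)) ≤ √((Q.q f.2 : ℝ) / (c * N)) := by
    refine c3 (A / 2) (by positivity) (by linarith) ?_
    obtain ⟨σ, hσ⟩ : ∃ σ : ℝ, σ = 4 * ρ ^ 2 * c := ⟨_, rfl⟩
    have hσ0 : 0 < σ := by rw [hσ]; positivity
    rw [← hσ] at b1 L1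
    have g0 : σ * N * (σ * N) ≤ Q.q f.1 * Q.q f.1 := mul_le_mul b1 b1 (by positivity) q0.le
    have g1 : A * (σ * N * (σ * N)) ≤ sf Q f * (Q.q f.1 * Q.q f.1) :=
      mul_le_mul s1 g0 (by positivity) hs0.le
    have g2 : (2 * A * A * σ ^ 2) * (1 * N) ≤ (2 * A * A * σ ^ 2) * (N * N) :=
      mul_le_mul_of_nonneg_left (mul_le_mul_of_nonneg_right hN1 (by linarith)) (by positivity)
    have g3 := mul_le_mul_of_nonneg_left g1 (show 0 ≤ 2 * A by positivity)
    calc (d : ℝ) ≤ 2 * A * A * σ ^ 2 * N := L1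
      _ = (2 * A * A * σ ^ 2) * (1 * N) := by ring
      _ ≤ _ := g2
      _ = 2 * A * (A * (σ * N * (σ * N))) := by ring
      _ ≤ _ := g3
      _ = _ := by ring
  refine hw_one hρ hε hc0 ?_ ?_ (Real.sqrt_nonneg _) ?_ ?_ ?_ ?_ ?_
  · apply Real.le_sqrt_of_sq_le
    rw [le_div_iff₀ (by positivity)]
    linarith
  · rw [Real.sqrt_le_iff]
    refine ⟨zero_le_one, ?_⟩
    rw [one_pow, div_le_one (by positivity)]
    exact m2
  · rw [Real.sqrt_le_iff]
    refine ⟨zero_le_one, ?_⟩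
    rw [one_pow, div_le_one (by positivity), key]
    have g3 : (Q.q f.1 : ℝ) * (sf Q f) ^ 2 ≤ 2 * a * N * B := by
      have e : (Q.q f.1 : ℝ) * (sf Q f) ^ 2 = (Q.q f.1 * sf Q f) * sf Q f := by ring
      rw [e]
      have g4 : ε * N ≤ a / 4 * N := mul_le_mul_of_nonneg_right hεa hN0.le
      have g5 : 0 ≤ a * N := by positivity
      exact mul_le_mul (by linarith) s2 hs0.le (by positivity)
    have g4 : (0 : ℝ) ≤ d / (4 * Q.q f.1) := by positivity
    have g5 := mul_le_mul_of_nonneg_right hc2 hN0.le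
    have g6 : 0 ≤ a * N * B := by positivity
    linarith
  · have : A / 2 * √((Q.q f.1 : ℝ) / (c * N)) ≤ (sf Q f - A / 2) * √((Q.q f.1 : ℝ) / (c * N)) :=
      mul_le_mul_of_nonneg_right (by linarith) cx.le
    linarith
  · exact c1.trans (mul_le_mul_of_nonneg_right s2 cx.le)
  · have h1 := c4 ((a - 2 * ε) * N) (by
      have : 0 ≤ a - 2 * ε := by linarith
      positivity) (by
      have h2 : ((a - ε) * N) ^ 2 ≤ (Q.q f.1 * sf Q f) ^ 2 :=
        pow_le_pow_left₀ (by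
          have : 0 ≤ a - ε := by linarith
          positivity) (by linarith) 2
      have h3 : (a * ε) * (1 * N) ≤ (a * ε) * (N * N) :=
        mul_le_mul_of_nonneg_left (mul_le_mul_of_nonneg_right hN1 (by linarith)) (by positivity)
      have h4 : 0 ≤ (ε * (a - 3 * ε)) * N ^ 2 := by
        have : 0 ≤ a - 3 * ε := by linarith
        positivity
      nlinarith)
    have e : c * N * (√((Q.q f.1 : ℝ) / (c * N)) * √((Q.q f.2 : ℝ) / (c * N))) =
      c * (√((Q.q f.1 : ℝ) / (c * N)) * √((Q.q f.2 : ℝ) / (c * N))) * N := by ring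
    rw [e] at h1
    exact le_of_mul_le_mul_right h1 hN0
  · have e : c * N * (√((Q.q f.1 : ℝ) / (c * N)) * √((Q.q f.2 : ℝ) / (c * N))) =
      c * (√((Q.q f.1 : ℝ) / (c * N)) * √((Q.q f.2 : ℝ) / (c * N))) * N := by ring
    rw [e] at c2
    refine le_of_mul_le_mul_right ?_ hN0
    linarith

/-! ### The sector sum as a finite sum -/

open Classical in
theorem Hk_eq {Q : Form} {T n : ℝ} (hT : 0 < T) (hn : 0 < n) {h : ℝ → ℝ → ℝ}
    (U : V → V → ℂ) (F : Finset (V × V))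
    (hF1 : ∀ f ∈ F, wd f.1 f.2 = 1 ∧ Sec Q T f.1 ∧ Cn Q f.2)
    (hF2 : ∀ f : V × V, wd f.1 f.2 = 1 → Sec Q T f.1 → Cn Q f.2 →
      h (Q.nr n f.1) (Q.nr n f.2) ≠ 0 → f ∈ F) :
    ((n * T : ℝ) : ℂ) * Hk Q T h U 1 n =
      ∑ f ∈ F, ((h (Q.nr n f.1) (Q.nr n f.2) : ℝ) : ℂ) * U f.1 f.2 := by
  have hnT : (0 : ℝ) < n * T := by positivity
  have hne : ((n * T : ℝ) : ℂ) ≠ 0 := by exact_mod_cast hnT.ne'
  unfold Hk
  rw [← mul_assoc, mul_one_div, div_self hne, one_mul, tsum_eq_sum (s := F)]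
  · apply Finset.sum_congr rfl
    intro f hf
    obtain ⟨h1, h2, h3⟩ := hF1 f hf
    unfold hkk
    rw [if_pos ⟨F64.prim_left h1, F64.prim_right h1, h2, h3, h1⟩]
  · intro f hf
    unfold hkk
    split_ifs with hc
    · by_cases h0 : h (Q.nr n f.1) (Q.nr n f.2) = 0
      · rw [h0]; simp
      · exact absurd (hF2 f hc.2.2.2.2 hc.2.2.1 hc.2.2.2.1 h0) hf
    · rfl

/-- bound for the parameter from the quotient of the norms -/
theorem sf_le {d : ℕ} {Q : Form} (hQ : Hyp d Q) {f : V × V} (h1 : wd f.1 f.2 = 1)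
    (hv : Cn Q f.1) {n B : ℝ} (hn : 0 < n) (hB : 0 ≤ B)
    (h : Q.nr n f.2 ≤ B * Q.nr n f.1) : sf Q f ≤ B + d + 1 := by
  have q1 := q_one hQ hv
  have q0 : (0 : ℝ) < Q.q f.1 := by linarith
  have hd : (0 : ℝ) ≤ d := Nat.cast_nonneg d
  have key := key' hQ h1 hv
  have h2 : (Q.q f.2 : ℝ) ≤ B ^ 2 * Q.q f.1 := by
    rcases le_or_gt (Q.q f.2 : ℝ) 0 with h3 | h3
    · exact h3.trans (by positivity)
    · have h4 : √((Q.q f.2 : ℝ) / n) ^ 2 ≤ (B * √((Q.q f.1 : ℝ) / n)) ^ 2 :=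
        pow_le_pow_left₀ (Real.sqrt_nonneg _) h 2
      rw [mul_pow, Real.sq_sqrt (by positivity), Real.sq_sqrt (by positivity), mul_div_assoc',
        div_le_div_iff_of_pos_right hn] at h4
      exact h4
  apply le_of_sq (by positivity)
  have h3 : (Q.q f.1 : ℝ) * sf Q f ^ 2 ≤ (B ^ 2 + d) * Q.q f.1 := by
    have h4 : (d : ℝ) / (4 * Q.q f.1) ≤ d * Q.q f.1 := by
      rw [div_le_iff₀ (by positivity)]
      nlinarith [mul_nonneg hd (mul_nonneg q0.le q0.le), mul_le_mul_of_nonneg_left q1 hd,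
        mul_le_mul_of_nonneg_left q1 (mul_nonneg hd q0.le)]
    linarith
  have h5 : sf Q f ^ 2 ≤ B ^ 2 + d := by
    rw [mul_comm] at h3
    exact le_of_mul_le_mul_right h3 q0
  nlinarith [mul_nonneg hB hd]

theorem mem_HF {d : ℕ} {Q : Form} (hQ : Hyp d Q) {T n s1 s2 : ℝ} {f : V × V}
    (h1 : wd f.1 f.2 = 1) (hv : Sec Q T f.1) (hw : Cn Q f.2) (h2 : (Q.q f.1 : ℝ) ≤ n)
    (h3 : s1 ≤ sf Q f) (h4 : sf Q f ≤ s2) : f ∈ HF Q T n s1 s2 := by
  have q1 := q_one hQ hv.1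
  have q0 : (0 : ℝ) < 2 * Q.q f.1 := by linarith
  refine ⟨h1, hv, hw, h2, ?_, ?_⟩
  · rw [B_sf hQ hv.1]
    have := mul_le_mul_of_nonneg_left h3 q0.le
    linarith
  · rw [B_sf hQ hv.1]
    have := mul_le_mul_of_nonneg_left h4 q0.le
    linarith

open Classical in
/-- the window function has a small mean: the sums over many dilates are disjoint -/
theorem avg (hu : StHup) (h0 : StHC0) {d : ℕ} {Q : Form} (hQ : Hyp d Q) {T : ℝ} (hT : 0 < T)
    (a c B : ℝ) (ha : 0 < a) (hB : 0 ≤ B) : ∃ C' : ℝ, 0 ≤ C' ∧ ∀ m : ℕ, 0 < m →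
      ∀ (δ : ℝ) (h : ℝ → ℝ → ℝ), 0 < δ → Test δ h → (∀ x y, |h x y| ≤ 1) →
      (∀ x y, h x y ≠ 0 → y ≤ B * x ∧ |c * (x * y) - a| ≤ a / (20 * m)) → ∀ M : LMean,
      M.E (fun n : ℕ => ‖Hk Q T h (fun _ _ => 1) 1 n‖) ≤ C' / m := by
  obtain ⟨hfin, C, hC, htriv, _⟩ := hu d Q hQ T hT
  set s2 : ℝ := B + d + 1 with hs2
  have hs20 : 0 ≤ s2 := by positivity
  refine ⟨C * (s2 - 0 + 1) * 2 / T, by positivity, fun m hm δ h hδ hTest hh1 hsup M => ?_⟩
  have hm0 : (0 : ℝ) < m := by exact_mod_cast hm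
  obtain ⟨C1, hC1⟩ := (h0 d Q hQ T hT δ h hδ hTest).2.2 1 (fun _ _ => 1) 1
    (fun _ _ => by rw [norm_one])
  set R : ℝ → ℂ := fun x => Hk Q T h (fun _ _ => 1) 1 x with hR
  -- pointwise
  have hpt : ∀ x : ℝ, 1 ≤ x → ∑ j ∈ Finset.range m, ‖R ((((m + j : ℕ) : ℝ) * x) / m)‖ ≤
      C * (s2 - 0 + 1) * 2 / T := by
    intro x hx
    have hx0 : 0 < x := by linarith
    set F : Finset (V × V) := (hfin (2 * x) 0 s2).toFinset with hF
    have hFm : ∀ f, f ∈ F ↔ f ∈ HF Q T (2 * x) 0 s2 := fun f => (hfin (2 * x) 0 s2).mem_toFinset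
    set z : ℕ → ℝ := fun j => (((m + j : ℕ) : ℝ) * x) / m with hz
    have hz1 : ∀ j, x ≤ z j := by
      intro j
      rw [hz]
      simp only
      rw [le_div_iff₀ hm0]
      push_cast
      nlinarith [mul_nonneg (Nat.cast_nonneg (α := ℝ) j) hx0.le]
    have hz2 : ∀ j ∈ Finset.range m, z j ≤ 2 * x := by
      intro j hj
      have hj' : (j : ℝ) ≤ m := by exact_mod_cast (Finset.mem_range.1 hj).le
      rw [hz]
      simp only
      rw [div_le_iff₀ hm0]
      push_cast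
      nlinarith
    have hone : ∀ j ∈ Finset.range m, ‖R (z j)‖ ≤ (1 / (x * T)) * ∑ f ∈ F,
        (if h (Q.nr (z j) f.1) (Q.nr (z j) f.2) ≠ 0 then (1 : ℝ) else 0) := by
      intro j hj
      have hzj : 0 < z j := lt_of_lt_of_le hx0 (hz1 j)
      have h1 := Hk_eq (Q := Q) hT hzj (h := h) (fun _ _ => 1) F
        (fun f hf => by
          rw [hFm] at hf
          exact ⟨hf.1, hf.2.1, hf.2.2.1⟩)
        (fun f g1 g2 g3 g4 => by
          rw [hFm]
          obtain ⟨_, e1, _, _⟩ := hTest.2 _ _ g4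
          have g5 := q_one hQ g2.1
          refine mem_HF hQ g1 g2 g3 ?_ (sf_pos hQ g2.1 g3).le (sf_le hQ g1 g2.1 hzj hB
            (hsup _ _ g4).1)
          unfold Form.nr at e1
          rw [Real.sqrt_le_iff] at e1
          have e2 := e1.2
          rw [one_pow, div_le_one hzj] at e2
          exact e2.trans (hz2 j hj))
      have hzT : 0 < z j * T := by positivity
      have h2 : (z j * T) * ‖R (z j)‖ ≤ ∑ f ∈ F,
          (if h (Q.nr (z j) f.1) (Q.nr (z j) f.2) ≠ 0 then (1 : ℝ) else 0) := by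
        calc (z j * T) * ‖R (z j)‖ = ‖((z j * T : ℝ) : ℂ) * R (z j)‖ := by
              rw [norm_mul, Complex.norm_real, Real.norm_of_nonneg hzT.le]
          _ = ‖∑ f ∈ F, ((h (Q.nr (z j) f.1) (Q.nr (z j) f.2) : ℝ) : ℂ) * 1‖ := by
              rw [← h1]
          _ ≤ ∑ f ∈ F, ‖((h (Q.nr (z j) f.1) (Q.nr (z j) f.2) : ℝ) : ℂ) * 1‖ := norm_sum_le _ _
          _ ≤ _ := by
              apply Finset.sum_le_sum
              intro f _
              rw [mul_one, Complex.norm_real, Real.norm_eq_abs]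
              split_ifs with hne
              · exact hh1 _ _
              · push Not at hne
                rw [hne, abs_zero]
      have h3 : (x * T) * ‖R (z j)‖ ≤ (z j * T) * ‖R (z j)‖ :=
        mul_le_mul_of_nonneg_right (mul_le_mul_of_nonneg_right (hz1 j) hT.le) (norm_nonneg _)
      have hxT : 0 < x * T := by positivity
      rw [one_div, ← div_eq_inv_mul, le_div_iff₀ hxT, mul_comm]
      exact h3.trans h2
    have hdis : ∀ f ∈ F, ∑ j ∈ Finset.range m,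
        (if h (Q.nr (z j) f.1) (Q.nr (z j) f.2) ≠ 0 then (1 : ℝ) else 0) ≤ 1 := by
      intro f hf
      rw [Finset.sum_boole]
      have : ((Finset.range m).filter
          (fun j => h (Q.nr (z j) f.1) (Q.nr (z j) f.2) ≠ 0)).card ≤ 1 := by
        rw [Finset.card_le_one]
        intro j hj k hk
        obtain ⟨hj1, hj2⟩ := Finset.mem_filter.1 hj
        obtain ⟨hk1, hk2⟩ := Finset.mem_filter.1 hk
        rw [hFm] at hf
        have q1 := q_one hQ hf.2.1.1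
        have q2 := q_one hQ hf.2.2.1
        have hw : ∀ j ∈ Finset.range m, h (Q.nr (z j) f.1) (Q.nr (z j) f.2) ≠ 0 →
            |c * √((Q.q f.1 : ℝ) * Q.q f.2) - a * z j| ≤ a * x / (10 * m) := by
          intro j hj hne
          have hzj : 0 < z j := lt_of_lt_of_le hx0 (hz1 j)
          have e1 := (hsup _ _ hne).2
          have e2 : Q.nr (z j) f.1 * Q.nr (z j) f.2 = √((Q.q f.1 : ℝ) * Q.q f.2) / z j := by
            unfold Form.nr
            rw [← Real.sqrt_mul (by positivity), div_mul_div_comm, Real.sqrt_div (by positivity),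
              Real.sqrt_mul_self hzj.le]
          rw [e2] at e1
          have e3 : c * √((Q.q f.1 : ℝ) * Q.q f.2) - a * z j =
              (c * (√((Q.q f.1 : ℝ) * Q.q f.2) / z j) - a) * z j := by
            field_simp
          rw [e3, abs_mul, abs_of_pos hzj]
          calc |c * (√((Q.q f.1 : ℝ) * Q.q f.2) / z j) - a| * z j ≤ a / (20 * m) * (2 * x) :=
                mul_le_mul e1 (hz2 j hj) hzj.le (by positivity)
            _ = a * x / (10 * m) := by field_simp; ring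
        have w1 := hw j hj1 hj2
        have w2 := hw k hk1 hk2
        by_contra hne
        have e1 : |a * z j - a * z k| ≤ a * x / (10 * m) + a * x / (10 * m) := by
          have e2 : a * z j - a * z k = (c * √((Q.q f.1 : ℝ) * Q.q f.2) - a * z k) -
            (c * √((Q.q f.1 : ℝ) * Q.q f.2) - a * z j) := by ring
          rw [e2]
          exact (abs_sub _ _).trans (add_le_add w2 w1)
        have e2 : a * z j - a * z k = a * x / m * ((j : ℝ) - k) := by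
          rw [hz]
          simp only
          push_cast
          field_simp
          ring
        have e3 : (1 : ℝ) ≤ |(j : ℝ) - k| := by
          have : (1 : ℤ) ≤ |(j : ℤ) - k| := Int.one_le_abs (by
            intro h0
            apply hne
            omega)
          exact_mod_cast this
        have hax : 0 < a * x / m := by positivity
        rw [e2, abs_mul, abs_of_pos hax] at e1
        have e4 : a * x / (10 * m) = a * x / m / 10 := by field_simp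
        rw [e4] at e1
        nlinarith
      exact_mod_cast this
    calc ∑ j ∈ Finset.range m, ‖R (z j)‖ ≤ ∑ j ∈ Finset.range m, (1 / (x * T)) * ∑ f ∈ F,
          (if h (Q.nr (z j) f.1) (Q.nr (z j) f.2) ≠ 0 then (1 : ℝ) else 0) :=
          Finset.sum_le_sum hone
      _ = (1 / (x * T)) * ∑ f ∈ F, ∑ j ∈ Finset.range m,
          (if h (Q.nr (z j) f.1) (Q.nr (z j) f.2) ≠ 0 then (1 : ℝ) else 0) := by
          rw [← Finset.mul_sum, Finset.sum_comm]
      _ ≤ (1 / (x * T)) * ∑ f ∈ F, (1 : ℝ) :=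
          mul_le_mul_of_nonneg_left (Finset.sum_le_sum hdis) (by positivity)
      _ = (1 / (x * T)) * ((HF Q T (2 * x) 0 s2).ncard : ℝ) := by
          rw [Finset.sum_const, nsmul_eq_mul, mul_one, Set.ncard_eq_toFinset_card _
            (hfin (2 * x) 0 s2)]
      _ ≤ (1 / (x * T)) * (C * (s2 - 0 + 1) * (2 * x)) :=
          mul_le_mul_of_nonneg_left (htriv _ _ _ (by linarith) hs20) (by positivity)
      _ = _ := by field_simp
  -- the dilates have the same mean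
  have hC10 : 0 ≤ C1 := (norm_nonneg _).trans (hC1.1 0)
  have hdil : ∀ j ∈ Finset.range m,
      M.E (fun n : ℕ => ‖R ((((m + j : ℕ) : ℝ) * n) / m)‖) = M.E (fun n : ℕ => ‖R n‖) := by
    intro j _
    have hmj : 0 < m + j := by omega
    have hmj0 : (0 : ℝ) < (m + j : ℕ) := by exact_mod_cast hmj
    have hmj1 : (1 : ℝ) ≤ (m + j : ℕ) := by exact_mod_cast hmj
    have hG : SVc C1 (fun x => R (((m + j : ℕ) : ℝ) * x)) := by
      refine ⟨fun x => hC1.1 _, fun x y hx hxy => ?_⟩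
      have h1 : (1 : ℝ) ≤ ((m + j : ℕ) : ℝ) * x := by nlinarith
      have h2 := hC1.2 (((m + j : ℕ) : ℝ) * x) (((m + j : ℕ) : ℝ) * y) h1
        (mul_le_mul_of_nonneg_left hxy hmj0.le)
      refine h2.trans (le_of_eq ?_)
      have hx0 : x ≠ 0 := by linarith
      field_simp
    have g1 := (stMd_18 M _ C1 hG m hm).1
    have g2 := (stMd_18 M _ C1 hG (m + j) hmj).1
    have e1 : (fun n : ℕ => ‖R (((m + j : ℕ) : ℝ) * ((n : ℝ) / m))‖) =
        fun n : ℕ => ‖R ((((m + j : ℕ) : ℝ) * n) / m)‖ := by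
      funext n
      rw [mul_div_assoc']
    have e2 : (fun n : ℕ => ‖R (((m + j : ℕ) : ℝ) * ((n : ℝ) / ((m + j : ℕ) : ℝ)))‖) =
        fun n : ℕ => ‖R n‖ := by
      funext n
      have : ((m + j : ℕ) : ℝ) * ((n : ℝ) / ((m + j : ℕ) : ℝ)) = n := by field_simp
      rw [this]
    rw [e1] at g1
    rw [e2] at g2
    rw [g1, g2]
  have hbj : ∀ j ∈ Finset.range m, Bdd (fun n : ℕ => ‖R ((((m + j : ℕ) : ℝ) * n) / m)‖) :=
    fun j _ => ⟨C1, fun n => by rw [abs_of_nonneg (norm_nonneg _)]; exact hC1.1 _⟩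
  have hsum := M.sum (Finset.range m) (fun j n => ‖R ((((m + j : ℕ) : ℝ) * n) / m)‖) hbj
  rw [Finset.sum_congr rfl hdil, Finset.sum_const, Finset.card_range, nsmul_eq_mul] at hsum
  have hle : |M.E (fun n : ℕ => ∑ j ∈ Finset.range m, ‖R ((((m + j : ℕ) : ℝ) * n) / m)‖)| ≤
      C * (s2 - 0 + 1) * 2 / T := by
    apply M.abs_le_of_ev (Bdd.sum _ _ hbj)
    filter_upwards [eventually_ge_atTop 1] with n hn
    rw [abs_of_nonneg (Finset.sum_nonneg fun _ _ => norm_nonneg _)]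
    exact hpt n (by exact_mod_cast hn)
  rw [hsum] at hle
  rw [le_div_iff₀ hm0, mul_comm]
  exact (le_abs_self _).trans hle

end Fm49

end Pool.Agent.Lib.MP_a17b09_nt.HY
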