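import Pool.Agent.Lib.MP_a17b09_nt.HY.Unf54
import Pool.Agent.Lib.MP_a17b09_nt.MRS.Four90

/-!
Project HY / MRH, glue: Fourier coefficients of sums over the cone by unfolding.
-/

set_option autoImplicit false

open Filter Topology Finset MeasureTheory

namespace Pool.Agent.Lib.MP_a17b09_nt.HY

open Pool.Agent.Lib.MP_a17b09_nt.CH
open Pool.Agent.Lib.MP_a17b09_nt.MRS.Four90

namespace FoldH20

open U54

/-- vectors of the cone with bounded value and bounded angle -/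
theorem fin_ps {d : ℕ} {Q : Form} (hQ : Hyp d Q) (N c : ℝ) :
    {v : V | Cn Q v ∧ (Q.q v : ℝ) ≤ N ∧ |ps Q v| ≤ c}.Finite := by
  refine (fin_ball hQ (√N * Real.cosh c)).subset ?_
  rintro v ⟨h1, h2, h3⟩
  obtain ⟨e1, e2⟩ := polar hQ h1
  have hc : Real.cosh (ps Q v) ≤ Real.cosh c := by
    rw [Real.cosh_le_cosh]
    exact h3.trans (le_abs_self c)
  have hs : |Real.sinh (ps Q v)| ≤ Real.cosh c := by
    refine le_trans ?_ hc
    rw [abs_le]
    constructor
    · have := Real.cosh_add_sinh (ps Q v)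
      have := Real.exp_pos (ps Q v)
      linarith
    · have := Real.cosh_sub_sinh (ps Q v)
      have := Real.exp_pos (-(ps Q v))
      linarith
  have hq : √(Q.q v : ℝ) ≤ √N := Real.sqrt_le_sqrt h2
  have hC : 0 < Real.cosh c := Real.cosh_pos _
  constructor
  · rw [e1, abs_mul, abs_of_nonneg (Real.sqrt_nonneg _), abs_of_pos (Real.cosh_pos _)]
    exact mul_le_mul hq hc (Real.cosh_pos _).le (Real.sqrt_nonneg _)
  · rw [e2, abs_mul, abs_of_nonneg (Real.sqrt_nonneg _)]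
    exact mul_le_mul hq hs (abs_nonneg _) (Real.sqrt_nonneg _)

theorem fin_sec {d : ℕ} {Q : Form} (hQ : Hyp d Q) (T N : ℝ) :
    {v : V | Sec Q T v ∧ (Q.q v : ℝ) ≤ N}.Finite := by
  refine (fin_ps hQ N T).subset ?_
  rintro v ⟨⟨h1, h2, h3⟩, h4⟩
  exact ⟨h1, h4, by rw [abs_of_nonneg h2]; exact h3.le⟩

/-- families of functions of the angle which can be folded -/
structure Fld (Q : Form) {d : ℕ} (a : Pell.Solution₁ (d : ℤ)) (F : V → ℝ → ℂ) (N : ℝ) :
    Prop where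
  cont : ∀ v, Continuous (F v)
  peri : ∀ v θ, F (act Q a v) (θ + 2 * Real.pi) = F v θ
  loc : ∀ v θ, F v θ ≠ 0 → Cn Q v ∧ |ps Q v - tauH a * θ| < 1
  bd : ∀ v θ, F v θ ≠ 0 → (Q.q v : ℝ) ≤ N

section main

variable {d : ℕ} {Q : Form} {a : Pell.Solution₁ (d : ℤ)} {F : V → ℝ → ℂ} {N : ℝ}

theorem Fld.zper (h : Fld Q a F N) (hQ : Hyp d Q) (m : ℤ) : ∀ (v : V) (θ : ℝ),
    F (act Q (a ^ m) v) (θ + 2 * Real.pi * m) = F v θ := by
  induction m using Int.induction_on with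
  | zero => intro v θ; rw [zpow_zero, act_one]; simp
  | succ m ih =>
    intro v θ
    rw [zpow_add_one, mul_comm, act_mul hQ]
    have h1 := h.peri (act Q (a ^ (m : ℤ)) v) (θ + 2 * Real.pi * ((m : ℤ) : ℝ))
    rw [ih v θ] at h1
    rw [← h1]
    congr 1
    push_cast
    ring
  | pred m ih =>
    intro v θ
    have h1 := h.peri (act Q (a ^ (-(m : ℤ) - 1)) v) (θ + 2 * Real.pi * ((-(m : ℤ) - 1 : ℤ) : ℝ))
    rw [← act_mul hQ] at h1
    have h2 : a * a ^ (-(m : ℤ) - 1) = a ^ (-(m : ℤ)) := by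
      rw [mul_comm, ← zpow_add_one]
      congr 1
      ring
    rw [h2] at h1
    rw [← h1, ← ih v θ]
    congr 1
    push_cast
    ring

/-- the vectors which contribute for the angles of the first period -/
theorem fin_W (hQ : Hyp d Q) (T N : ℝ) :
    {v : V | Cn Q v ∧ (Q.q v : ℝ) ≤ N ∧ -1 < ps Q v ∧ ps Q v < T + 1}.Finite := by
  refine (fin_ps hQ N (|T| + 1)).subset ?_
  rintro v ⟨h1, h2, h3, h4⟩
  refine ⟨h1, h2, ?_⟩
  rw [abs_le]
  have := le_abs_self T
  have := abs_nonneg T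
  constructor <;> linarith

theorem Fld.mem_W (h : Fld Q a F N) (ha : PP a) {v : V} {θ : ℝ} (h0 : 0 ≤ θ)
    (h1 : θ ≤ 2 * Real.pi) (h2 : F v θ ≠ 0) :
    Cn Q v ∧ (Q.q v : ℝ) ≤ N ∧ -1 < ps Q v ∧ ps Q v < per a + 1 := by
  obtain ⟨h3, h4⟩ := h.loc v θ h2
  have h5 := h.bd v θ h2
  obtain ⟨h6, h7⟩ := abs_lt.1 h4
  have ht := tau_pos ha
  have e1 : 0 ≤ tauH a * θ := mul_nonneg ht.le h0
  have e2 : tauH a * θ ≤ per a := by
    rw [← tau_per a, mul_comm (2 * Real.pi)]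
    exact mul_le_mul_of_nonneg_left h1 ht.le
  exact ⟨h3, h5, by linarith, by linarith⟩

/-- one period -/
noncomputable def I1 (F : V → ℝ → ℂ) (j : ℤ) (v : V) : ℂ :=
  ∫ θ in (0 : ℝ)..(2 * Real.pi), Complex.exp (-((j : ℂ) * θ * Complex.I)) * F v θ

theorem Fld.I1_zero (h : Fld Q a F N) (ha : PP a) (j : ℤ) {v : V}
    (hv : ¬ (Cn Q v ∧ (Q.q v : ℝ) ≤ N ∧ -1 < ps Q v ∧ ps Q v < per a + 1)) : I1 F j v = 0 := by
  unfold I1
  have hpi := Real.pi_pos
  have e : ∫ θ in (0 : ℝ)..(2 * Real.pi), Complex.exp (-((j : ℂ) * θ * Complex.I)) * F v θ =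
      ∫ θ in (0 : ℝ)..(2 * Real.pi), (0 : ℂ) := by
    apply intervalIntegral.integral_congr
    intro θ hθ
    rw [Set.uIcc_of_le (by positivity)] at hθ
    show _ * F v θ = 0
    by_cases h1 : F v θ = 0
    · rw [h1, mul_zero]
    · exact absurd (h.mem_W ha hθ.1 hθ.2 h1) hv
  rw [e, intervalIntegral.integral_zero]

/-- the whole line -/
theorem Fld.line (h : Fld Q a F N) (hQ : Hyp d Q) (ha : PP a) {M : ℕ}
    (hM : per a + 1 ≤ M * per a) (j : ℤ) {v : V} (hv : Sec Q (per a) v) :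
    ∫ θ : ℝ, Complex.exp (-((j : ℂ) * θ * Complex.I)) * F v θ =
      ∑ k ∈ Finset.range (2 * M), I1 F j (act Q (a ^ ((M : ℤ) - k)) v) := by
  have ht := tau_pos ha
  have hp := per_pos ha
  have htp := tau_per a
  have hpi := Real.pi_pos
  have hsupp : ∀ θ, F v θ ≠ 0 → -(2 * Real.pi * M) < θ ∧ θ < 2 * Real.pi * M := by
    intro θ hθ
    obtain ⟨_, h3⟩ := h.loc v θ hθ
    obtain ⟨h4, h5⟩ := abs_lt.1 h3
    obtain ⟨_, h6, h7⟩ := hv
    constructor
    · have : tauH a * (-(2 * Real.pi * M)) < tauH a * θ := by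
        have e : tauH a * (-(2 * Real.pi * M)) = -(M * per a) := by rw [← htp]; ring
        rw [e]; linarith
      exact lt_of_mul_lt_mul_left this ht.le
    · have : tauH a * θ < tauH a * (2 * Real.pi * M) := by
        have e : tauH a * (2 * Real.pi * M) = M * per a := by rw [← htp]; ring
        rw [e]; linarith
      exact lt_of_mul_lt_mul_left this ht.le
  have e1 : ∫ θ : ℝ, Complex.exp (-((j : ℂ) * θ * Complex.I)) * F v θ =
      ∫ θ in (2 * Real.pi * ((0 : ℕ) - (M : ℝ)))..(2 * Real.pi * ((2 * M : ℕ) - (M : ℝ))),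
        Complex.exp (-((j : ℂ) * θ * Complex.I)) * F v θ := by
    rw [intervalIntegral.integral_eq_integral_of_support_subset]
    intro θ hθ
    rw [Function.mem_support] at hθ
    obtain ⟨h3, h4⟩ := hsupp θ (right_ne_zero_of_mul hθ)
    constructor
    · push_cast; linarith
    · push_cast; linarith
  rw [e1, ← intervalIntegral.sum_integral_adjacent_intervals
    (a := fun k : ℕ => 2 * Real.pi * ((k : ℝ) - M))
    (fun k _ => int_ex (F v) (h.cont v) j _ _)]
  apply Finset.sum_congr rfl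
  intro k _
  unfold I1
  have e2 : ∀ θ : ℝ, F (act Q (a ^ ((M : ℤ) - k)) v) θ =
      F v (θ + 2 * Real.pi * ((k : ℝ) - M)) := by
    intro θ
    have h3 := h.zper hQ ((k : ℤ) - M) (act Q (a ^ ((M : ℤ) - k)) v) θ
    rw [← act_mul hQ, ← zpow_add, show (k : ℤ) - M + (M - k) = 0 by ring, zpow_zero,
      act_one] at h3
    rw [← h3]
    push_cast
    rfl
  have e3 : ∀ θ : ℝ, Complex.exp (-((j : ℂ) * θ * Complex.I)) =
      Complex.exp (-((j : ℂ) * ((θ + 2 * Real.pi * ((k : ℝ) - M) : ℝ) : ℂ) * Complex.I)) := by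
    intro θ
    have e4 : -((j : ℂ) * ((θ + 2 * Real.pi * ((k : ℝ) - M) : ℝ) : ℂ) * Complex.I) =
        -((j : ℂ) * θ * Complex.I) + ((-(j * ((k : ℤ) - M)) : ℤ) : ℂ) *
          (2 * Real.pi * Complex.I) := by
      push_cast
      ring
    rw [e4, Complex.exp_add, Complex.exp_int_mul_two_pi_mul_I, mul_one]
  have e5 : (fun θ : ℝ => Complex.exp (-((j : ℂ) * θ * Complex.I)) *
      F (act Q (a ^ ((M : ℤ) - k)) v) θ) = fun θ : ℝ => (fun ψ : ℝ =>
      Complex.exp (-((j : ℂ) * ψ * Complex.I)) * F v ψ) (θ + 2 * Real.pi * ((k : ℝ) - M)) := by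
    funext θ
    rw [e2, e3]
  rw [e5, intervalIntegral.integral_comp_add_right (fun ψ : ℝ =>
    Complex.exp (-((j : ℂ) * ψ * Complex.I)) * F v ψ)]
  congr 1
  · ring
  · push_cast; ring

/-- the Fourier coefficients by unfolding -/
theorem Fld.fc_fold (h : Fld Q a F N) (hQ : Hyp d Q) (ha : PP a) (j : ℤ) :
    fc (fun θ => ∑' v, F v θ) j = (1 / (2 * Real.pi) : ℂ) *
      ∑ v ∈ (fin_sec hQ (per a) N).toFinset,
        ∫ θ : ℝ, Complex.exp (-((j : ℂ) * θ * Complex.I)) * F v θ := by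
  classical
  have hp := per_pos ha
  have hpi := Real.pi_pos
  obtain ⟨M, hM⟩ : ∃ M : ℕ, per a + 1 ≤ M * per a := by
    obtain ⟨M, hM⟩ := exists_nat_ge ((per a + 1) / per a)
    exact ⟨M, by rwa [div_le_iff₀ hp] at hM⟩
  obtain ⟨W, hW⟩ : ∃ W : Finset V, W = (fin_W hQ (per a) N).toFinset := ⟨_, rfl⟩
  have hWm : ∀ v, v ∈ W ↔ Cn Q v ∧ (Q.q v : ℝ) ≤ N ∧ -1 < ps Q v ∧ ps Q v < per a + 1 := by
    intro v
    rw [hW, Set.Finite.mem_toFinset]
    rfl
  obtain ⟨S, hS⟩ : ∃ S : Finset V, S = (fin_sec hQ (per a) N).toFinset := ⟨_, rfl⟩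
  have hSm : ∀ v, v ∈ S ↔ Sec Q (per a) v ∧ (Q.q v : ℝ) ≤ N := by
    intro v
    rw [hS, Set.Finite.mem_toFinset]
    rfl
  rw [← hS]
  unfold fc
  congr 1
  have e1 : ∫ θ in (0 : ℝ)..(2 * Real.pi), Complex.exp (-((j : ℂ) * θ * Complex.I)) *
      ∑' v, F v θ = ∑ v ∈ W, I1 F j v := by
    unfold I1
    rw [← intervalIntegral.integral_finsetSum fun v _ => int_ex (F v) (h.cont v) j _ _]
    apply intervalIntegral.integral_congr
    intro θ hθ
    rw [Set.uIcc_of_le (by positivity)] at hθ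
    show Complex.exp (-((j : ℂ) * θ * Complex.I)) * ∑' v, F v θ =
      ∑ v ∈ W, Complex.exp (-((j : ℂ) * θ * Complex.I)) * F v θ
    rw [tsum_eq_sum (s := W), Finset.mul_sum]
    intro v hv
    by_contra hne
    exact hv ((hWm v).2 (h.mem_W ha hθ.1 hθ.2 hne))
  rw [e1]
  have e2 : ∀ v ∈ W, I1 F j v = ∑ k ∈ Finset.range (2 * M),
      (if Sec Q (per a) (act Q (a ^ ((k : ℤ) - M)) v) then I1 F j v else 0) := by
    intro v hv
    obtain ⟨h1, -, h2, h3⟩ := (hWm v).1 hv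
    have h4 := count_eq hQ ha hM h1 h2 h3
    calc I1 F j v = (∑ k ∈ Finset.range (2 * M),
        (if Sec Q (per a) (act Q (a ^ ((k : ℤ) - M)) v) then (1 : ℂ) else 0)) * I1 F j v := by
          rw [h4, one_mul]
      _ = _ := by
          rw [Finset.sum_mul]
          apply Finset.sum_congr rfl
          intro k _
          split_ifs <;> simp
  rw [Finset.sum_congr rfl e2, Finset.sum_comm]
  have e3 : ∀ k ∈ Finset.range (2 * M), ∑ v ∈ W,
      (if Sec Q (per a) (act Q (a ^ ((k : ℤ) - M)) v) then I1 F j v else 0) =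
      ∑ w ∈ S, I1 F j (act Q (a ^ ((M : ℤ) - k)) w) := by
    intro k _
    have hinv : ∀ v, act Q (a ^ ((M : ℤ) - k)) (act Q (a ^ ((k : ℤ) - M)) v) = v := by
      intro v
      rw [← act_mul hQ, ← zpow_add, show (M : ℤ) - k + (k - M) = 0 by ring, zpow_zero, act_one]
    have hinv' : ∀ v, act Q (a ^ ((k : ℤ) - M)) (act Q (a ^ ((M : ℤ) - k)) v) = v := by
      intro v
      rw [← act_mul hQ, ← zpow_add, show (k : ℤ) - M + (M - k) = 0 by ring, zpow_zero, act_one]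
    rw [← Finset.sum_filter, ← Finset.sum_image (f := fun v => I1 F j v)
      (g := fun w => act Q (a ^ ((M : ℤ) - k)) w) (s := S)
      (fun v _ w _ hvw => act_inj hQ _ hvw)]
    apply Finset.sum_subset
    · intro v hv
      obtain ⟨h1, h2⟩ := Finset.mem_filter.1 hv
      rw [Finset.mem_image]
      refine ⟨act Q (a ^ ((k : ℤ) - M)) v, (hSm _).2 ⟨h2, ?_⟩, hinv v⟩
      rw [q_act hQ]
      exact ((hWm v).1 h1).2.1
    · intro v hv hv'
      apply h.I1_zero ha j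
      intro hc
      apply hv'
      rw [Finset.mem_filter]
      refine ⟨(hWm v).2 hc, ?_⟩
      obtain ⟨w, hw, rfl⟩ := Finset.mem_image.1 hv
      rw [hinv']
      exact ((hSm w).1 hw).1
  rw [Finset.sum_congr rfl e3, Finset.sum_comm]
  apply Finset.sum_congr rfl
  intro w hw
  rw [h.line hQ ha hM j ((hSm w).1 hw).1]

/-- the folded function is continuous -/
theorem Fld.cont_tsum (h : Fld Q a F N) (hQ : Hyp d Q) (ha : PP a) :
    Continuous (fun θ => ∑' v, F v θ) := by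
  classical
  have ht := tau_pos ha
  rw [continuous_iff_continuousAt]
  intro θ0
  obtain ⟨W, hW⟩ : ∃ W : Finset V, W = (fin_ps hQ N (|tauH a * θ0| + 2)).toFinset := ⟨_, rfl⟩
  have hloc : ∀ θ : ℝ, |θ - θ0| < 1 / tauH a → ∑' v, F v θ = ∑ v ∈ W, F v θ := by
    intro θ hθ
    apply tsum_eq_sum
    intro v hv
    by_contra hne
    apply hv
    rw [hW, Set.Finite.mem_toFinset]
    obtain ⟨h1, h2⟩ := h.loc v θ hne
    refine ⟨h1, h.bd v θ hne, ?_⟩
    have h3 : |tauH a * θ - tauH a * θ0| < 1 := by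
      rw [← mul_sub, abs_mul, abs_of_pos ht]
      rwa [lt_div_iff₀ ht, mul_comm] at hθ
    have h4 : ps Q v = (ps Q v - tauH a * θ) + (tauH a * θ - tauH a * θ0) + tauH a * θ0 := by
      ring
    rw [h4]
    refine (abs_add_three _ _ _).trans ?_
    linarith
  have hev : (fun θ => ∑' v, F v θ) =ᶠ[𝓝 θ0] fun θ => ∑ v ∈ W, F v θ := by
    have h1 : ∀ᶠ θ in 𝓝 θ0, |θ - θ0| < 1 / tauH a := by
      have := Metric.ball_mem_nhds θ0 (by positivity : 0 < 1 / tauH a)
      filter_upwards [this] with θ hθ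
      rwa [Metric.mem_ball, Real.dist_eq] at hθ
    filter_upwards [h1] with θ hθ
    exact hloc θ hθ
  refine ContinuousAt.congr ?_ hev.symm
  exact (continuous_finsetSum _ fun v _ => h.cont v).continuousAt

end main

end FoldH20

end Pool.Agent.Lib.MP_a17b09_nt.HY
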