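import Pool.Agent.Lib.MP_a17b09_nt.HY.FoldH20
import Pool.Agent.Lib.MP_a17b09_nt.HY.Svu46
import Pool.Agent.Lib.MP_a17b09_nt.HY.Cnt26
import Pool.Agent.Lib.MP_a17b09_nt.HY.Coord20
import Pool.Agent.Lib.MP_a17b09_nt.HY.Inv7
import Pool.Agent.Lib.MP_a17b09_nt.MRH.Stmts79

/-!
Project HY / MRH, glue: the mean square of a local sum over the angle is bounded by the mean square
of the shell sums over the small frequencies.
-/

set_option autoImplicit false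

open Filter Topology Finset MeasureTheory

namespace Pool.Agent.Lib.MP_a17b09_nt.HY

open Pool.Agent.Lib.MP_a17b09_nt.CH
open Pool.Agent.Lib.MP_a17b09_nt.CH.PE (GT Ug Sup Lip gt_bound28)
open Pool.Agent.Lib.MP_a17b09_nt.MRS.Four90
open Pool.Agent.Lib.MP_a17b09_nt.MRH (MshH)

namespace LocH20

open U54 FoldH20

/-- the kernel in polar coordinates -/
noncomputable def HK (G : ℝ → ℝ → ℝ) (L x ρ ψ : ℝ) : ℝ :=
  G (ρ * Real.cosh ψ) (x * ρ * Real.sinh ψ / L)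

theorem HK_cont {G : ℝ → ℝ → ℝ} (hlip : Lip G) (L x ρ : ℝ) : Continuous (HK G L x ρ) := by
  unfold HK
  have h1 : Continuous fun ψ : ℝ => ρ * Real.cosh ψ := continuous_const.mul Real.continuous_cosh
  have h2 : Continuous fun ψ : ℝ => x * ρ * Real.sinh ψ / L :=
    (continuous_const.mul Real.continuous_sinh).div_const L
  exact (cont_G hlip).comp (h1.prodMk h2)

/-- polar coordinates -/
theorem polar' {d : ℕ} {Q : Form} (hQ : Hyp d Q) (G : ℝ → ℝ → ℝ) (τ L : ℝ) {x : ℝ} (hx : 0 < x)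
    {v : V} (hv : Cn Q v) (θ : ℝ) :
    hlx Q τ x θ v = Q.nr x v * Real.cosh (ps Q v - τ * θ) ∧
    hly Q τ x θ v = x * Q.nr x v * Real.sinh (ps Q v - τ * θ) ∧
    G (hlx Q τ x θ v) (hly Q τ x θ v / L) = HK G L x (Q.nr x v) (ps Q v - τ * θ) := by
  obtain ⟨e1, e2⟩ := (stHCoord_20 d Q hQ v v τ x θ hx).2.2.2.2.2.2 hv
  have hq : (0 : ℝ) < Q.q v := by exact_mod_cast hv.q_pos hQ
  have h1 : hlx Q τ x θ v = Q.nr x v * Real.cosh (ps Q v - τ * θ) := e1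
  have h2 : hly Q τ x θ v = x * Q.nr x v * Real.sinh (ps Q v - τ * θ) := by
    rw [e2]
    congr 1
    unfold Form.nr
    rw [Real.sqrt_mul hx.le, Real.sqrt_div hq.le]
    have h3 : √x ^ 2 = x := Real.sq_sqrt hx.le
    have h4 : 0 < √x := Real.sqrt_pos.2 hx
    field_simp
    rw [h3]
  refine ⟨h1, h2, ?_⟩
  unfold HK
  rw [h1, h2]

/-- where the kernel lives -/
theorem supp {B : ℝ} {G : ℝ → ℝ → ℝ} (hB : 1 ≤ B) (hS : Sup B G) {L x ρ ψ : ℝ} (hL : 1 ≤ L)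
    (hx : 2 * B ^ 2 * L ≤ x) (hρ : 0 ≤ ρ) (h : HK G L x ρ ψ ≠ 0) :
    0 < ρ ∧ ρ ≤ B ∧ 1 / B ≤ ρ * Real.cosh ψ ∧ ρ * Real.cosh ψ ≤ B ∧
      x * ρ * |Real.sinh ψ| ≤ B * L ∧ Real.cosh ψ ≤ 2 ∧ |ψ| ≤ 2 * B ^ 2 * L / x ∧ |ψ| < 1 := by
  have hB0 : 0 < B := by linarith
  have hL0 : 0 < L := by linarith
  have hx0 : 0 < x := lt_of_lt_of_le (by positivity) hx
  obtain ⟨h1, h2, h3⟩ := hS _ _ h
  have hch := Real.cosh_pos ψ
  have hc1 := Real.one_le_cosh ψ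
  have hρ0 : 0 < ρ := by
    rcases hρ.lt_or_eq with h4 | h4
    · exact h4
    · rw [← h4, zero_mul] at h1
      have : 0 < 1 / B := by positivity
      linarith
  rw [abs_div, abs_of_pos hL0, div_le_iff₀ hL0, abs_mul, abs_of_pos (by positivity : 0 < x * ρ)]
    at h3
  -- the hyperbolic tangent is at most one half
  have h4 : |Real.sinh ψ| * x ≤ B ^ 2 * L * Real.cosh ψ := by
    have h5 : x * ρ * |Real.sinh ψ| * B ≤ B * L * B := mul_le_mul_of_nonneg_right h3 hB0.le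
    have h6 : 1 ≤ ρ * Real.cosh ψ * B := by
      rw [div_le_iff₀ hB0] at h1
      exact h1
    have h7 : |Real.sinh ψ| * x * 1 ≤ |Real.sinh ψ| * x * (ρ * Real.cosh ψ * B) :=
      mul_le_mul_of_nonneg_left h6 (by positivity)
    have h8 : |Real.sinh ψ| * x * (ρ * Real.cosh ψ * B) =
        (x * ρ * |Real.sinh ψ| * B) * Real.cosh ψ := by ring
    rw [h8, mul_one] at h7
    refine h7.trans ?_
    have h9 := mul_le_mul_of_nonneg_right h5 hch.le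
    calc x * ρ * |Real.sinh ψ| * B * Real.cosh ψ ≤ B * L * B * Real.cosh ψ := h9
      _ = B ^ 2 * L * Real.cosh ψ := by ring
  have h5 : 2 * |Real.sinh ψ| ≤ Real.cosh ψ := by
    have h6 : B ^ 2 * L * Real.cosh ψ * 2 ≤ x * Real.cosh ψ := by nlinarith
    have h7 : (2 * |Real.sinh ψ|) * x ≤ Real.cosh ψ * x := by linarith
    exact le_of_mul_le_mul_right h7 hx0
  have h6 : Real.cosh ψ ≤ 2 := by
    have h7 := Real.cosh_sq ψ
    have h8 : Real.sinh ψ ^ 2 = |Real.sinh ψ| ^ 2 := (sq_abs _).symm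
    have h9 := abs_nonneg (Real.sinh ψ)
    nlinarith
  have h7 : |ψ| ≤ |Real.sinh ψ| := by
    rw [Real.abs_sinh]
    exact Real.self_le_sinh_iff.2 (abs_nonneg ψ)
  have h8 : |Real.sinh ψ| ≤ 2 * B ^ 2 * L / x := by
    rw [le_div_iff₀ hx0]
    have : B ^ 2 * L * Real.cosh ψ ≤ B ^ 2 * L * 2 := mul_le_mul_of_nonneg_left h6 (by positivity)
    linarith
  have h9 : |Real.sinh ψ| < 1 := by
    have h10 := Real.cosh_sq ψ
    have h11 : Real.sinh ψ ^ 2 = |Real.sinh ψ| ^ 2 := (sq_abs _).symm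
    have h12 := abs_nonneg (Real.sinh ψ)
    by_contra hc
    push Not at hc
    nlinarith
  refine ⟨hρ0, ?_, h1, h2, h3, h6, h7.trans h8, lt_of_le_of_lt h7 h9⟩
  nlinarith

/-! ### the index of the shell -/

/-- the index of the shell -/
noncomputable def idx (Q : Form) (κ x : ℝ) (v : V) : ℕ := ⌈Q.nr x v / κ⌉₊ - 1

theorem nr_pos {d : ℕ} {Q : Form} (hQ : Hyp d Q) {x : ℝ} (hx : 0 < x) {v : V} (hv : Cn Q v) :
    0 < Q.nr x v := by
  unfold Form.nr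
  apply Real.sqrt_pos.2
  apply div_pos _ hx
  exact_mod_cast hv.q_pos hQ

theorem idx_eq {d : ℕ} {Q : Form} (hQ : Hyp d Q) {κ x : ℝ} (hκ : 0 < κ) (hx : 0 < x) {v : V}
    (hv : Cn Q v) (i : ℕ) :
    idx Q κ x v = i ↔ (i : ℝ) * κ < Q.nr x v ∧ Q.nr x v ≤ ((i : ℝ) + 1) * κ := by
  have h0 : 0 < Q.nr x v / κ := div_pos (nr_pos hQ hx hv) hκ
  have h1 : 0 < ⌈Q.nr x v / κ⌉₊ := Nat.ceil_pos.2 h0
  have h2 : idx Q κ x v = i ↔ ⌈Q.nr x v / κ⌉₊ = i + 1 := by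
    unfold idx
    omega
  rw [h2, Nat.ceil_eq_iff (by omega)]
  push_cast
  rw [lt_div_iff₀ hκ, div_le_iff₀ hκ]

theorem idx_spec {d : ℕ} {Q : Form} (hQ : Hyp d Q) {κ x : ℝ} (hκ : 0 < κ) (hx : 0 < x) {v : V}
    (hv : Cn Q v) :
    (idx Q κ x v : ℝ) * κ < Q.nr x v ∧ Q.nr x v ≤ ((idx Q κ x v : ℝ) + 1) * κ :=
  (idx_eq hQ hκ hx hv _).1 rfl

theorem nr_sq {d : ℕ} {Q : Form} (hQ : Hyp d Q) {x : ℝ} (hx : 0 < x) {v : V} (hv : Cn Q v) :
    Q.nr x v ^ 2 = (Q.q v : ℝ) / x := by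
  unfold Form.nr
  rw [Real.sq_sqrt]
  apply div_nonneg _ hx.le
  exact_mod_cast (hv.q_pos hQ).le

theorem idx_act {d : ℕ} {Q : Form} (hQ : Hyp d Q) (a : Pell.Solution₁ (d : ℤ)) (κ x : ℝ)
    (v : V) : idx Q κ x (act Q a v) = idx Q κ x v := by
  unfold idx Form.nr
  rw [q_act hQ]

/-- comparison of the kernels of close radii -/
theorem H_close {d : ℕ} {Q : Form} (hQ : Hyp d Q) {τ B CG : ℝ} {G : ℝ → ℝ → ℝ} (hB : 1 ≤ B)
    (hS : Sup B G)
    (hCG : 0 ≤ CG) (hLip : ∀ x y x' y', |G x y - G x' y'| ≤ CG * (|x - x'| + |y - y'|))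
    {L x κ : ℝ} (hL : 1 ≤ L) (hx : 8 * B ^ 2 * L ≤ x) (hκ : 0 < κ) (hκB : κ ≤ 1 / (2 * B)) {v : V}
    (hv : Prim v) (hc : Cn Q v) (θ : ℝ) :
    (v ∉ Mg46.bx Q τ (2 * B) L x θ → HK G L x (Q.nr x v) (ps Q v - τ * θ) = 0 ∧
      HK G L x ((idx Q κ x v : ℝ) * κ) (ps Q v - τ * θ) = 0) ∧
    (v ∈ Mg46.bx Q τ (2 * B) L x θ → |HK G L x (Q.nr x v) (ps Q v - τ * θ) -
      HK G L x ((idx Q κ x v : ℝ) * κ) (ps Q v - τ * θ)| ≤ CG * κ * (2 + 8 * B ^ 2)) := by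
  have hB0 : 0 < B := by linarith
  have hL0 : 0 < L := by linarith
  have hx0 : 0 < x := lt_of_lt_of_le (by positivity) hx
  have hx2 : 2 * B ^ 2 * L ≤ x := by nlinarith [sq_nonneg B]
  obtain ⟨e1, e2, -⟩ := polar' hQ G τ L hx0 hc θ
  obtain ⟨i1, i2⟩ := idx_spec hQ hκ hx0 hc
  have hρ0 := nr_pos hQ hx0 hc
  set ρ := Q.nr x v with hρ
  set ρ' : ℝ := (idx Q κ x v : ℝ) * κ with hρ'
  set ψ := ps Q v - τ * θ with hψ
  have hρ'0 : 0 ≤ ρ' := by positivity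
  have i3 : ρ - ρ' ≤ κ := by rw [hρ']; linarith
  have hch := Real.cosh_pos ψ
  have hch1 := Real.one_le_cosh ψ
  constructor
  · intro hnot
    constructor
    · by_contra h
      obtain ⟨-, -, h1, h2, h3, -⟩ := supp hB hS hL hx2 hρ0.le h
      apply hnot
      refine ⟨hv, ?_, ?_, ?_⟩
      · rw [e1]
        have : 1 / (2 * B) ≤ 1 / B := by
          apply one_div_le_one_div_of_le hB0; linarith
        linarith
      · rw [e1]; linarith
      · rw [e2, abs_mul, abs_of_pos (by positivity : 0 < x * ρ)]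
        nlinarith
    · by_contra h
      obtain ⟨hp, -, h1, h2, h3, h4, -⟩ := supp hB hS hL hx2 hρ'0 h
      have hρ'2 : 1 / (2 * B) ≤ ρ' := by
        rw [div_le_iff₀ hB0] at h1
        rw [div_le_iff₀ (by positivity)]
        have : ρ' * Real.cosh ψ * B ≤ ρ' * 2 * B := by
          apply mul_le_mul_of_nonneg_right _ hB0.le
          exact mul_le_mul_of_nonneg_left h4 hρ'0
        linarith
      have hρ2 : ρ ≤ 2 * ρ' := by linarith
      apply hnot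
      refine ⟨hv, ?_, ?_, ?_⟩
      · rw [e1]
        have : 1 / (2 * B) ≤ 1 / B := by
          apply one_div_le_one_div_of_le hB0; linarith
        have h5 : ρ' * Real.cosh ψ ≤ ρ * Real.cosh ψ := mul_le_mul_of_nonneg_right i1.le hch.le
        linarith
      · rw [e1]
        have h5 : ρ * Real.cosh ψ ≤ 2 * ρ' * Real.cosh ψ := mul_le_mul_of_nonneg_right hρ2 hch.le
        linarith
      · rw [e2, abs_mul, abs_of_pos (by positivity : 0 < x * ρ)]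
        have h5 : x * ρ * |Real.sinh ψ| ≤ x * (2 * ρ') * |Real.sinh ψ| := by
          apply mul_le_mul_of_nonneg_right _ (abs_nonneg _)
          exact mul_le_mul_of_nonneg_left hρ2 hx0.le
        linarith
  · rintro ⟨-, b1, b2, b3⟩
    rw [e1] at b1 b2
    rw [e2, abs_mul, abs_of_pos (by positivity : 0 < x * ρ)] at b3
    -- the angle is small
    have c1 : |Real.sinh ψ| * x ≤ 4 * B ^ 2 * L * Real.cosh ψ := by
      have h6 : 1 ≤ ρ * Real.cosh ψ * (2 * B) := by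
        rw [div_le_iff₀ (by positivity)] at b1
        exact b1
      have h7 : |Real.sinh ψ| * x * 1 ≤ |Real.sinh ψ| * x * (ρ * Real.cosh ψ * (2 * B)) :=
        mul_le_mul_of_nonneg_left h6 (by positivity)
      have h8 : |Real.sinh ψ| * x * (ρ * Real.cosh ψ * (2 * B)) =
          (x * ρ * |Real.sinh ψ|) * (2 * B * Real.cosh ψ) := by ring
      rw [h8, mul_one] at h7
      refine h7.trans ?_
      calc x * ρ * |Real.sinh ψ| * (2 * B * Real.cosh ψ) ≤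
            2 * B * L * (2 * B * Real.cosh ψ) := mul_le_mul_of_nonneg_right b3 (by positivity)
        _ = 4 * B ^ 2 * L * Real.cosh ψ := by ring
    have c2 : 2 * |Real.sinh ψ| ≤ Real.cosh ψ := by
      have h6 : 4 * B ^ 2 * L * Real.cosh ψ * 2 ≤ x * Real.cosh ψ := by nlinarith
      have h7 : (2 * |Real.sinh ψ|) * x ≤ Real.cosh ψ * x := by linarith
      exact le_of_mul_le_mul_right h7 hx0
    have c3 : Real.cosh ψ ≤ 2 := by
      have h7 := Real.cosh_sq ψ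
      have h8 : Real.sinh ψ ^ 2 = |Real.sinh ψ| ^ 2 := (sq_abs _).symm
      have h9 := abs_nonneg (Real.sinh ψ)
      nlinarith
    have hs : x * |Real.sinh ψ| ≤ 8 * B ^ 2 * L := by
      have : 4 * B ^ 2 * L * Real.cosh ψ ≤ 4 * B ^ 2 * L * 2 :=
        mul_le_mul_of_nonneg_left c3 (by positivity)
      linarith
    unfold HK
    refine (hLip _ _ _ _).trans ?_
    have i4 : |ρ - ρ'| ≤ κ := by rw [abs_of_pos (by linarith)]; exact i3
    have a1 : |ρ * Real.cosh ψ - ρ' * Real.cosh ψ| ≤ κ * 2 := by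
      rw [← sub_mul, abs_mul, abs_of_pos hch]
      exact mul_le_mul i4 c3 hch.le hκ.le
    have a2 : |x * ρ * Real.sinh ψ / L - x * ρ' * Real.sinh ψ / L| ≤ κ * (8 * B ^ 2) := by
      rw [show x * ρ * Real.sinh ψ / L - x * ρ' * Real.sinh ψ / L =
        (ρ - ρ') * (x * Real.sinh ψ / L) by ring, abs_mul]
      apply mul_le_mul i4 _ (abs_nonneg _) hκ.le
      rw [abs_div, abs_of_pos hL0, div_le_iff₀ hL0, abs_mul, abs_of_pos hx0]
      exact hs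
    calc CG * (|ρ * Real.cosh ψ - ρ' * Real.cosh ψ| +
          |x * ρ * Real.sinh ψ / L - x * ρ' * Real.sinh ψ / L|)
        ≤ CG * (κ * 2 + κ * (8 * B ^ 2)) := mul_le_mul_of_nonneg_left (add_le_add a1 a2) hCG
      _ = CG * κ * (2 + 8 * B ^ 2) := by ring

/-! ### Lipschitz constant -/

/-- uniform bound of the local sums -/
theorem hmm_bd {d : ℕ} {Q : Form} (hQ : Hyp d Q) {B : ℝ} {G : ℝ → ℝ → ℝ} (hG : GT B G) :
    ∃ C : ℝ, 0 ≤ C ∧ ∀ g : V → ℂ, Ug g → ∀ τ L x θ : ℝ, 1 ≤ L → ‖hmm Q τ g G L x θ‖ ≤ C := by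
  obtain ⟨CG, hCG0, hLip, hbd⟩ := gt_bound28 hG
  obtain ⟨C, hC⟩ := (stHMb_26 d Q hQ B hG.1).2
  refine ⟨|C * (CG * (2 * B + 1)) * 1|, abs_nonneg _, fun g hg τ L x θ hL => ?_⟩
  exact (hC G _ hG.2.1 hbd g 1 hg.2 hg.1 τ L x θ hL).trans (le_abs_self _)

/-- Lipschitz constant of the local sums in the angle -/
theorem hmm_lip {d : ℕ} {Q : Form} (hQ : Hyp d Q) {τ : ℝ} (hτ : 0 < τ) {B : ℝ} {G : ℝ → ℝ → ℝ}
    (hG : GT B G) : ∃ C : ℝ, 0 ≤ C ∧
    ∀ g : V → ℂ, Ug g → ∀ L x : ℝ, 1 ≤ L → L ≤ x → ∀ θ h : ℝ,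
      ‖hmm Q τ g G L x (θ + h) - hmm Q τ g G L x θ‖ ≤ C * (x / L) * |h| := by
  have hB := hG.1
  have hS := hG.2.1
  have hB0 : 0 < B := by linarith
  obtain ⟨CG, hCG0, hLip, hbd⟩ := gt_bound28 hG
  obtain ⟨C, hC⟩ := stHCnt_26 d Q hQ B hB
  obtain ⟨Cb, hCb0, hCb⟩ := hmm_bd hQ hG
  have hC0 : 0 ≤ C := by
    have h1 := (hC 0 1 le_rfl 0 0).2
    have h2 : (0 : ℝ) ≤ (({v : V | Prim v ∧ 1 / B ≤ hlx Q 0 0 0 v ∧ hlx Q 0 0 0 v ≤ B ∧
      |hly Q 0 0 0 v| ≤ B * 1}.ncard : ℕ) : ℝ) := Nat.cast_nonneg _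
    linarith
  refine ⟨2 * C * (CG * (6 * B * τ)) + 2 * Cb * τ, by positivity,
    fun g hg L x hL hLx θ h => ?_⟩
  have hL0 : 0 < L := by linarith
  have hx0 : 0 < x := by linarith
  have hxL : 1 ≤ x / L := by rw [le_div_iff₀ hL0]; linarith
  have hh := abs_nonneg h
  rcases le_or_gt |τ * h| 1 with hsm | hbig
  · have hCb' : ∀ x θ : ℝ, (Mg46.bx Q τ B L x θ).Finite ∧
        ((Mg46.bx Q τ B L x θ).ncard : ℝ) ≤ C * L := fun x θ => hC τ L hL x θ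
    -- sharp rotation estimate
    have hrot : ∀ (θ c : ℝ) (v : V), |τ * c| ≤ 1 → v ∈ Mg46.bx Q τ B L x θ →
        |hlx Q τ x (θ + c) v - hlx Q τ x θ v| + |hly Q τ x (θ + c) v / L - hly Q τ x θ v / L| ≤
          6 * B * τ * (x / L) * |c| := by
      intro θ c v hc1 hv
      obtain ⟨_, h1, h2, h3⟩ := hv
      have hlx' : |hlx Q τ x θ v| ≤ B := by
        rw [abs_le]
        have : 0 < 1 / B := by positivity
        constructor <;> linarith
      obtain ⟨e1, e2⟩ := (stHCoord_20 d Q hQ v v τ x θ hx0).2.2.2.1 c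
      have hcos := Mg46.cosh_le hc1
      have hsin : |Real.sinh (τ * c)| ≤ 2 * |τ * c| := ShiftH20.sinh_le hc1
      have hc0 := abs_nonneg (τ * c)
      have a1 : |hlx Q τ x (θ + c) v - hlx Q τ x θ v| ≤ |τ * c| * B + 2 * |τ * c| * B := by
        have h4 : hlx Q τ x (θ + c) v - hlx Q τ x θ v =
            (Real.cosh (τ * c) - 1) * hlx Q τ x θ v - Real.sinh (τ * c) * (hly Q τ x θ v / x) := by
          rw [e1]
          ring
        rw [h4]
        refine (abs_sub _ _).trans ?_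
        rw [abs_mul, abs_mul]
        have h5 : |hly Q τ x θ v / x| ≤ B := by
          rw [abs_div, abs_of_pos hx0, div_le_iff₀ hx0]
          exact h3.trans (mul_le_mul_of_nonneg_left hLx hB0.le)
        exact add_le_add (mul_le_mul hcos hlx' (abs_nonneg _) hc0)
          (mul_le_mul hsin h5 (abs_nonneg _) (by positivity))
      have a2 : |hly Q τ x (θ + c) v / L - hly Q τ x θ v / L| ≤
          |τ * c| * B + 2 * |τ * c| * (B * (x / L)) := by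
        have h4 : hly Q τ x (θ + c) v / L - hly Q τ x θ v / L =
            ((Real.cosh (τ * c) - 1) * hly Q τ x θ v -
              Real.sinh (τ * c) * (x * hlx Q τ x θ v)) / L := by
          rw [e2]
          ring
        rw [h4, abs_div, abs_of_pos hL0, div_le_iff₀ hL0]
        refine (abs_sub _ _).trans ?_
        rw [abs_mul, abs_mul, abs_mul, abs_of_pos hx0]
        have h5 : |Real.cosh (τ * c) - 1| * |hly Q τ x θ v| ≤ |τ * c| * (B * L) :=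
          mul_le_mul hcos h3 (abs_nonneg _) hc0
        have h6 : |Real.sinh (τ * c)| * (x * |hlx Q τ x θ v|) ≤ 2 * |τ * c| * (x * B) :=
          mul_le_mul hsin (mul_le_mul_of_nonneg_left hlx' hx0.le) (by positivity) (by positivity)
        have h7 : (|τ * c| * B + 2 * |τ * c| * (B * (x / L))) * L =
            |τ * c| * (B * L) + 2 * |τ * c| * (x * B) := by
          field_simp
        rw [h7]
        linarith
      have b1 : |τ * c| * B ≤ |τ * c| * (B * (x / L)) := by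
        apply mul_le_mul_of_nonneg_left _ hc0
        nlinarith
      have b2 : |τ * c| = τ * |c| := by rw [abs_mul, abs_of_pos hτ]
      have b3 : 6 * B * τ * (x / L) * |c| = 6 * (|τ * c| * (B * (x / L))) := by
        rw [b2]; ring
      rw [b3]
      linarith
    have hη : 0 ≤ CG * (6 * B * τ * (x / L) * |h|) := by positivity
    have h1 := Mg46.hmm_sub Q τ B C L hL hCb' G hS g hg.2 1 hg.1 x (θ + h) x θ
      (CG * (6 * B * τ * (x / L) * |h|)) hη (by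
        intro v hv
        rcases hv with hv | hv
        · have h2 := hrot (θ + h) (-h) v (by rwa [mul_neg, abs_neg]) hv
          rw [show θ + h + -h = θ by ring, abs_neg, abs_sub_comm,
            abs_sub_comm (hly Q τ x θ v / L)] at h2
          refine (hLip _ _ _ _).trans ?_
          exact mul_le_mul_of_nonneg_left h2 hCG0
        · have h2 := hrot θ h v hsm hv
          refine (hLip _ _ _ _).trans ?_
          exact mul_le_mul_of_nonneg_left h2 hCG0)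
    refine h1.trans ?_
    have h2 : 2 * C * (CG * (6 * B * τ * (x / L) * |h|)) * 1 =
        2 * C * (CG * (6 * B * τ)) * (x / L) * |h| := by ring
    rw [h2]
    have h3 : 0 ≤ 2 * Cb * τ * (x / L) * |h| := by positivity
    linarith
  · have h1 := (norm_sub_le _ _).trans (add_le_add (hCb g hg τ L x (θ + h) hL)
      (hCb g hg τ L x θ hL))
    refine h1.trans ?_
    have b2 : |τ * h| = τ * |h| := by rw [abs_mul, abs_of_pos hτ]
    rw [b2] at hbig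
    have h2 : 1 ≤ τ * |h| * (x / L) := by nlinarith
    have h3 : 2 * Cb * 1 ≤ 2 * Cb * (τ * |h| * (x / L)) :=
      mul_le_mul_of_nonneg_left h2 (by positivity)
    have h4 : 0 ≤ 2 * C * (CG * (6 * B * τ)) * (x / L) * |h| := by positivity
    nlinarith

/-! ### the grid version -/

open Classical in
/-- the terms of the grid version -/
noncomputable def Ft (Q : Form) (τ : ℝ) (g : V → ℂ) (G : ℝ → ℝ → ℝ) (κ L x : ℝ) (v : V)
    (θ : ℝ) : ℂ :=
  if Cn Q v then g v * ((HK G L x ((idx Q κ x v : ℝ) * κ) (ps Q v - τ * θ) : ℝ) : ℂ) else 0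

theorem cont_HK {G : ℝ → ℝ → ℝ} (hlip : Lip G) (L x ρ p τ : ℝ) :
    Continuous fun θ : ℝ => ((HK G L x ρ (p - τ * θ) : ℝ) : ℂ) :=
  Complex.continuous_ofReal.comp ((HK_cont hlip L x ρ).comp (by fun_prop))

section grid

variable {d : ℕ} {Q : Form} {a : Pell.Solution₁ (d : ℤ)} {B : ℝ} {G : ℝ → ℝ → ℝ}

theorem fld (hQ : Hyp d Q) (ha : PP a) {g : V → ℂ} (hAI : AI Q a g) (hG : GT B G)
    {L x κ : ℝ} (hL : 1 ≤ L) (hx : 8 * B ^ 2 * L ≤ x) (hκ : 0 < κ) (hκB : κ ≤ 1 / (2 * B)) {N : ℝ}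
    (hN : 4 * B ^ 2 * x ≤ N) : Fld Q a (Ft Q (tauH a) g G κ L x) N := by
  classical
  have hB := hG.1
  have hB0 : 0 < B := by linarith
  have hL0 : 0 < L := by linarith
  have hx0 : 0 < x := lt_of_lt_of_le (by positivity) hx
  have hx2 : 2 * B ^ 2 * L ≤ x := by nlinarith [sq_nonneg B]
  have key : ∀ v θ, Ft Q (tauH a) g G κ L x v θ ≠ 0 → Cn Q v ∧
      HK G L x ((idx Q κ x v : ℝ) * κ) (ps Q v - tauH a * θ) ≠ 0 := by
    intro v θ h
    unfold Ft at h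
    split_ifs at h with hc
    · refine ⟨hc, fun h0 => h ?_⟩
      rw [h0, Complex.ofReal_zero, mul_zero]
    · exact absurd rfl h
  refine ⟨fun v => ?_, fun v θ => ?_, fun v θ h => ?_, fun v θ h => ?_⟩
  · unfold Ft
    split_ifs
    · exact continuous_const.mul (cont_HK hG.2.2 L x _ _ _)
    · exact continuous_const
  · unfold Ft
    by_cases hc : Cn Q v
    · rw [if_pos hc, if_pos ((cn_act hQ ha v).2 hc), hAI v, idx_act hQ, ps_act hQ ha hc]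
      congr 3
      rw [← tau_per a]
      ring
    · rw [if_neg hc, if_neg (fun h => hc ((cn_act hQ ha v).1 h))]
  · obtain ⟨h1, h2⟩ := key v θ h
    exact ⟨h1, (supp hB hG.2.1 hL hx2 (by positivity) h2).2.2.2.2.2.2.2⟩
  · obtain ⟨h1, h2⟩ := key v θ h
    obtain ⟨-, h3, -⟩ := supp hB hG.2.1 hL hx2 (by positivity) h2
    obtain ⟨-, h4⟩ := idx_spec hQ hκ hx0 h1
    have h5 : Q.nr x v ≤ 2 * B := by
      have : 1 / (2 * B) ≤ B := by
        rw [div_le_iff₀ (by positivity)]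
        nlinarith
      linarith
    have h6 := nr_sq hQ hx0 h1
    have h7 := (nr_pos hQ hx0 h1).le
    have h8 : Q.nr x v ^ 2 ≤ 4 * B ^ 2 := by nlinarith
    rw [h6, div_le_iff₀ hx0] at h8
    linarith

/-- the local sum and its grid version are close -/
theorem mt_close (hQ : Hyp d Q) {τ CG C : ℝ} (hG : GT B G)
    (hCG : 0 ≤ CG) (hLip : ∀ x y x' y', |G x y - G x' y'| ≤ CG * (|x - x'| + |y - y'|))
    {L x κ : ℝ} (hL : 1 ≤ L) (hx : 8 * B ^ 2 * L ≤ x) (hκ : 0 < κ) (hκB : κ ≤ 1 / (2 * B))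
    (hC : ∀ x θ : ℝ, (Mg46.bx Q τ (2 * B) L x θ).Finite ∧
      ((Mg46.bx Q τ (2 * B) L x θ).ncard : ℝ) ≤ C * L)
    (g : V → ℂ) (hg : Ug g) (θ : ℝ) :
    ‖hmm Q τ g G L x θ - (1 / (L : ℂ)) * ∑' v, Ft Q τ g G κ L x v θ‖ ≤
      C * (CG * κ * (2 + 8 * B ^ 2)) := by
  classical
  have hL0 : 0 < L := by linarith
  have hB := hG.1
  have hB0 : 0 < B := by linarith
  have hx0 : 0 < x := lt_of_lt_of_le (by positivity) hx
  obtain ⟨hfin, hcard⟩ := hC x θ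
  obtain ⟨S, hS⟩ : ∃ S : Finset V, S = hfin.toFinset := ⟨_, rfl⟩
  have hSm : ∀ v, v ∈ S ↔ v ∈ Mg46.bx Q τ (2 * B) L x θ := by
    intro v
    rw [hS, Set.Finite.mem_toFinset]
  have hSc : (S.card : ℝ) ≤ C * L := by
    rw [hS]
    rwa [Set.ncard_eq_toFinset_card _ hfin] at hcard
  have h1 : hmm Q τ g G L x θ = (1 / (L : ℂ)) * ∑ v ∈ S,
      ((G (hlx Q τ x θ v) (hly Q τ x θ v / L) : ℝ) : ℂ) * g v := by
    apply Mg46.hmm_eq Q τ g hg.2 B G hG.2.1 L x θ hL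
    rintro v ⟨h1, h2, h3, h4⟩
    rw [Finset.mem_coe, hSm]
    have : 1 / (2 * B) ≤ 1 / B := by
      apply one_div_le_one_div_of_le hB0; linarith
    refine ⟨h1, by linarith, by linarith, ?_⟩
    nlinarith
  have h2 : ∑' v, Ft Q τ g G κ L x v θ = ∑ v ∈ S, Ft Q τ g G κ L x v θ := by
    apply tsum_eq_sum
    intro v hv
    unfold Ft
    split_ifs with hc
    · by_cases hg0 : g v = 0
      · rw [hg0, zero_mul]
      · have hp := hg.2 v hg0
        rw [((H_close (τ := τ) hQ hB hG.2.1 hCG hLip hL hx hκ hκB hp hc θ).1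
          (fun h => hv ((hSm v).2 h))).2, Complex.ofReal_zero, mul_zero]
    · rfl
  rw [h1, h2, ← mul_sub, ← Finset.sum_sub_distrib, norm_mul, norm_div, norm_one,
    Complex.norm_real, Real.norm_eq_abs, abs_of_pos hL0]
  set D : ℝ := CG * κ * (2 + 8 * B ^ 2) with hD
  have hD0 : 0 ≤ D := by positivity
  have h3 : ∀ v ∈ S, ‖((G (hlx Q τ x θ v) (hly Q τ x θ v / L) : ℝ) : ℂ) * g v -
      Ft Q τ g G κ L x v θ‖ ≤ D := by
    intro v hv
    have hb := (hSm v).1 hv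
    have hc : Cn Q v := by
      refine (loc stHCoord_20 hQ (τ := τ) (B := 2 * B) (L := L) (x := x) (θ := θ) (by linarith)
        hL (by nlinarith) hb.2.1 hb.2.2.2).1
    have h4 := (H_close (τ := τ) hQ hB hG.2.1 hCG hLip hL hx hκ hκB hb.1 hc θ).2 hb
    unfold Ft
    rw [if_pos hc, (polar' hQ G τ L hx0 hc θ).2.2, mul_comm (g v), ← sub_mul,
      ← Complex.ofReal_sub, norm_mul, Complex.norm_real, Real.norm_eq_abs]
    calc _ ≤ D * 1 := mul_le_mul h4 (hg.1 v) (norm_nonneg _) hD0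
      _ = D := mul_one _
  have h4 : ‖∑ v ∈ S, (((G (hlx Q τ x θ v) (hly Q τ x θ v / L) : ℝ) : ℂ) * g v -
      Ft Q τ g G κ L x v θ)‖ ≤ C * L * D := by
    refine (norm_sum_le _ _).trans ((Finset.sum_le_sum h3).trans ?_)
    rw [Finset.sum_const, nsmul_eq_mul]
    exact mul_le_mul_of_nonneg_right hSc hD0
  calc 1 / L * ‖∑ v ∈ S, (((G (hlx Q τ x θ v) (hly Q τ x θ v / L) : ℝ) : ℂ) * g v -
      Ft Q τ g G κ L x v θ)‖ ≤ 1 / L * (C * L * D) :=
        mul_le_mul_of_nonneg_left h4 (by positivity)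
    _ = C * D := by field_simp

/-- the coefficient of the kernel -/
noncomputable def hcH (G : ℝ → ℝ → ℝ) (τ L x ρ : ℝ) (j : ℤ) : ℂ :=
  ∫ θ : ℝ, Complex.exp (-((j : ℂ) * θ * Complex.I)) * ((HK G L x ρ (-(τ * θ)) : ℝ) : ℂ)

theorem line_int (G : ℝ → ℝ → ℝ) {τ : ℝ} (hτ : 0 < τ) (L x ρ p : ℝ) (c : ℂ) (j : ℤ) :
    ∫ θ : ℝ, Complex.exp (-((j : ℂ) * θ * Complex.I)) *
      (c * ((HK G L x ρ (p - τ * θ) : ℝ) : ℂ)) =
      c * Complex.exp (-((j : ℂ) * ((p / τ : ℝ) : ℂ) * Complex.I)) * hcH G τ L x ρ j := by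
  have e1 : (fun θ : ℝ => Complex.exp (-((j : ℂ) * θ * Complex.I)) *
      (c * ((HK G L x ρ (p - τ * θ) : ℝ) : ℂ))) = fun θ : ℝ => (fun ψ : ℝ =>
      (c * Complex.exp (-((j : ℂ) * ((p / τ : ℝ) : ℂ) * Complex.I))) *
        (Complex.exp (-((j : ℂ) * ψ * Complex.I)) * ((HK G L x ρ (-(τ * ψ)) : ℝ) : ℂ)))
        (θ - p / τ) := by
    funext θ
    have e2 : -(τ * (θ - p / τ)) = p - τ * θ := by field_simp; ring
    have e3 : -((j : ℂ) * θ * Complex.I) = -((j : ℂ) * ((p / τ : ℝ) : ℂ) * Complex.I) +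
        -((j : ℂ) * ((θ - p / τ : ℝ) : ℂ) * Complex.I) := by
      push_cast
      ring
    simp only
    rw [e2, e3, Complex.exp_add]
    ring
  rw [e1, MeasureTheory.integral_sub_right_eq_self (fun ψ : ℝ =>
      (c * Complex.exp (-((j : ℂ) * ((p / τ : ℝ) : ℂ) * Complex.I))) *
        (Complex.exp (-((j : ℂ) * ψ * Complex.I)) * ((HK G L x ρ (-(τ * ψ)) : ℝ) : ℂ))) (p / τ),
    MeasureTheory.integral_const_mul]
  rfl

/-- size of the coefficient of the kernel -/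
theorem hcH_le {τ : ℝ} (hτ : 0 < τ) (hG : GT B G) {M : ℝ}
    (hM : ∀ x y, |G x y| ≤ M) {L x ρ : ℝ} (hL : 1 ≤ L) (hx : 8 * B ^ 2 * L ≤ x) (hρ : 0 ≤ ρ)
    (j : ℤ) : ‖hcH G τ L x ρ j‖ ≤ 8 * M * B ^ 2 / τ * (L / x) := by
  have hB := hG.1
  have hB0 : 0 < B := by linarith
  have hL0 : 0 < L := by linarith
  have hx0 : 0 < x := lt_of_lt_of_le (by positivity) hx
  have hx2 : 2 * B ^ 2 * L ≤ x := by nlinarith [sq_nonneg B]
  set c : ℝ := 2 * B ^ 2 * L / x / τ with hc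
  have hc0 : 0 < c := by positivity
  have hsupp : ∀ θ : ℝ, HK G L x ρ (-(τ * θ)) ≠ 0 → |θ| ≤ c := by
    intro θ h
    have h1 := (supp hB hG.2.1 hL hx2 hρ h).2.2.2.2.2.2.1
    rw [abs_neg, abs_mul, abs_of_pos hτ] at h1
    rw [hc, le_div_iff₀ hτ]
    linarith
  unfold hcH
  rw [← intervalIntegral.integral_eq_integral_of_support_subset (a := -(2 * c)) (b := 2 * c)]
  · have h1 := intervalIntegral.norm_integral_le_of_norm_le_const (a := -(2 * c)) (b := 2 * c)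
      (f := fun θ : ℝ => Complex.exp (-((j : ℂ) * θ * Complex.I)) *
        ((HK G L x ρ (-(τ * θ)) : ℝ) : ℂ)) (C := M) (fun θ _ => by
        rw [norm_mul, exp_norm, one_mul, Complex.norm_real, Real.norm_eq_abs]
        exact hM _ _)
    refine h1.trans (le_of_eq ?_)
    rw [show 2 * c - -(2 * c) = 4 * c by ring, abs_of_pos (by positivity), hc]
    field_simp
    ring
  · intro θ hθ
    rw [Function.mem_support] at hθ
    have h2 : HK G L x ρ (-(τ * θ)) ≠ 0 := by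
      intro h0
      apply right_ne_zero_of_mul hθ
      rw [h0, Complex.ofReal_zero]
    obtain ⟨h3, h4⟩ := abs_le.1 (hsupp θ h2)
    constructor <;> linarith

theorem hcH_zero (hG : GT B G) (τ L x : ℝ) {ρ : ℝ} (hρ : ρ = 0 ∨ B < ρ) (j : ℤ) :
    hcH G τ L x ρ j = 0 := by
  have hB := hG.1
  have hB0 : 0 < B := by linarith
  have h0 : ∀ ψ, HK G L x ρ ψ = 0 := by
    intro ψ
    unfold HK
    by_contra h
    obtain ⟨h1, h2, -⟩ := hG.2.1 _ _ h
    rcases hρ with h3 | h3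
    · rw [h3, zero_mul] at h1
      have : 0 < 1 / B := by positivity
      linarith
    · have := Real.one_le_cosh ψ
      nlinarith
  unfold hcH
  simp [h0]

/-- the coefficients of the grid version are bounded by the shell sums -/
theorem fc_mt_le (hQ : Hyp d Q) (ha : PP a) (hG : GT B G) {M : ℝ}
    (hM : ∀ x y, |G x y| ≤ M) {L κ : ℝ} (hL : 1 ≤ L) (hκ : 0 < κ) (hκB : κ ≤ 1 / (2 * B))
    {n : ℕ} (hn : 8 * B ^ 2 * L ≤ n)
    {R : ℕ} (hR : 0 < R) (hRκ : (R : ℝ) * κ = 3 * B) (g : V → ℂ) (hAI : AI Q a g)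
    (j : ℤ) :
    ‖fc (fun θ => (1 / (L : ℂ)) * ∑' v, Ft Q (tauH a) g G κ L n v θ) j‖ ≤
      8 * M * B ^ 2 / tauH a * ∑ i ∈ Finset.Ico 1 R,
        ‖MshH Q (per a) g (((i : ℝ) * κ) ^ 2) ((((i : ℝ) + 1) * κ) ^ 2) n (-j)‖ := by
  classical
  have hB := hG.1
  have hB0 : 0 < B := by linarith
  have hL0 : 0 < L := by linarith
  have hx0 : (0 : ℝ) < n := lt_of_lt_of_le (by positivity) hn
  have hM0 : 0 ≤ M := (abs_nonneg _).trans (hM 0 0)
  have ht := tau_pos ha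
  have hpi := Real.pi_pos
  set τ := tauH a with hτ
  obtain ⟨N, hN⟩ : ∃ N : ℝ, N = ((R : ℝ) * κ) ^ 2 * n := ⟨_, rfl⟩
  have hN4 : 4 * B ^ 2 * (n : ℝ) ≤ N := by
    rw [hN, hRκ]
    nlinarith [mul_nonneg (sq_nonneg B) hx0.le]
  have hfl := fld hQ ha hAI hG hL hn hκ hκB hN4
  rw [fc_smul, hfl.fc_fold hQ ha j]
  obtain ⟨S, hS⟩ : ∃ S : Finset V, S = (fin_sec hQ (per a) N).toFinset := ⟨_, rfl⟩
  have hSm : ∀ v, v ∈ S ↔ Sec Q (per a) v ∧ (Q.q v : ℝ) ≤ N := by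
    intro v
    rw [hS, Set.Finite.mem_toFinset]
    rfl
  rw [← hS]
  have hterm : ∀ v ∈ S, ∫ θ : ℝ, Complex.exp (-((j : ℂ) * θ * Complex.I)) *
      Ft Q τ g G κ L n v θ = (g v * Complex.exp (-((j : ℂ) * ((ps Q v / τ : ℝ) : ℂ) *
        Complex.I))) * hcH G τ L n ((idx Q κ n v : ℝ) * κ) j := by
    intro v hv
    have hc := ((hSm v).1 hv).1.1
    unfold Ft
    simp only [if_pos hc]
    exact line_int G ht L n _ _ _ j
  rw [Finset.sum_congr rfl hterm]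
  have hmap : ∀ v ∈ S, idx Q κ n v ∈ Finset.range R := by
    intro v hv
    obtain ⟨h1, h2⟩ := (hSm v).1 hv
    rw [Finset.mem_range]
    rw [hN] at h2
    have h4 : Q.nr n v ^ 2 ≤ ((R : ℝ) * κ) ^ 2 := by
      rw [nr_sq hQ hx0 h1.1, div_le_iff₀ hx0]
      exact h2
    have h5 : Q.nr n v ≤ (R : ℝ) * κ := le_of_sq_le_sq h4 (by positivity)
    have h6 := (idx_spec hQ hκ hx0 h1.1).1
    have h7 : (idx Q κ n v : ℝ) * κ < R * κ := lt_of_lt_of_le h6 h5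
    have h8 : (idx Q κ n v : ℝ) < R := lt_of_mul_lt_mul_right h7 hκ.le
    exact_mod_cast h8
  rw [← Finset.sum_fiberwise_of_maps_to hmap]
  have hshell : ∀ i ∈ Finset.range R,
      ∑ v ∈ S.filter (fun v => idx Q κ n v = i),
        (g v * Complex.exp (-((j : ℂ) * ((ps Q v / τ : ℝ) : ℂ) * Complex.I))) *
        hcH G τ L n ((idx Q κ n v : ℝ) * κ) j =
      hcH G τ L n ((i : ℝ) * κ) j * ((n : ℂ) *
        MshH Q (per a) g (((i : ℝ) * κ) ^ 2) ((((i : ℝ) + 1) * κ) ^ 2) n (-j)) := by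
    intro i hi
    rw [Finset.mem_range] at hi
    have h1 : ∑ v ∈ S.filter (fun v => idx Q κ n v = i),
        (g v * Complex.exp (-((j : ℂ) * ((ps Q v / τ : ℝ) : ℂ) * Complex.I))) *
        hcH G τ L n ((idx Q κ n v : ℝ) * κ) j =
        ∑ v ∈ S.filter (fun v => idx Q κ n v = i),
        (g v * Complex.exp (-((j : ℂ) * ((ps Q v / τ : ℝ) : ℂ) * Complex.I))) *
        hcH G τ L n ((i : ℝ) * κ) j := by
      apply Finset.sum_congr rfl
      intro v hv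
      rw [(Finset.mem_filter.1 hv).2]
    rw [h1, ← Finset.sum_mul, mul_comm]
    congr 1
    unfold MshH
    have hn' : (n : ℂ) ≠ 0 := by exact_mod_cast hx0.ne'
    have hn'' : (((n : ℝ) : ℝ) : ℂ) = (n : ℂ) := by push_cast; rfl
    rw [hn'', ← mul_assoc, mul_one_div_cancel hn', one_mul]
    have hset : {v : V | Sec Q (per a) v ∧ ((i : ℝ) * κ) ^ 2 * (n : ℝ) < Q.q v ∧
        (Q.q v : ℝ) ≤ (((i : ℝ) + 1) * κ) ^ 2 * (n : ℝ)} =
        ((S.filter (fun v => idx Q κ n v = i) : Finset V) : Set V) := by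
      ext v
      simp only [Set.mem_setOf_eq, Finset.coe_filter]
      constructor
      · rintro ⟨h2, h3, h4⟩
        have h5 : (((i : ℝ) + 1) * κ) ^ 2 * (n : ℝ) ≤ ((R : ℝ) * κ) ^ 2 * n := by
          apply mul_le_mul_of_nonneg_right _ hx0.le
          apply pow_le_pow_left₀ (by positivity)
          apply mul_le_mul_of_nonneg_right _ hκ.le
          exact_mod_cast hi
        refine ⟨(hSm v).2 ⟨h2, by rw [hN]; exact h4.trans h5⟩, ?_⟩
        rw [idx_eq hQ hκ hx0 h2.1]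
        have h0 := nr_pos hQ hx0 h2.1
        rw [← lt_div_iff₀ hx0, ← nr_sq hQ hx0 h2.1,
          pow_lt_pow_iff_left₀ (by positivity) h0.le two_ne_zero] at h3
        rw [← div_le_iff₀ hx0, ← nr_sq hQ hx0 h2.1,
          pow_le_pow_iff_left₀ h0.le (by positivity) two_ne_zero] at h4
        exact ⟨h3, h4⟩
      · rintro ⟨h2, h3⟩
        obtain ⟨h4, -⟩ := (hSm v).1 h2
        rw [idx_eq hQ hκ hx0 h4.1] at h3
        have h0 := nr_pos hQ hx0 h4.1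
        refine ⟨h4, ?_, ?_⟩
        · rw [← lt_div_iff₀ hx0, ← nr_sq hQ hx0 h4.1,
            pow_lt_pow_iff_left₀ (by positivity) h0.le two_ne_zero]
          exact h3.1
        · rw [← div_le_iff₀ hx0, ← nr_sq hQ hx0 h4.1,
            pow_le_pow_iff_left₀ h0.le (by positivity) two_ne_zero]
          exact h3.2
    rw [hset, finsum_mem_coe_finset]
    apply Finset.sum_congr rfl
    intro v _
    congr 1
    rw [← Complex.exp_int_mul]
    congr 1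
    have h6 : 2 * Real.pi * ps Q v / per a = ps Q v / τ := by
      rw [← tau_per a, ← hτ]
      field_simp
    rw [h6]
    push_cast
    ring
  rw [Finset.sum_congr rfl hshell, Finset.range_eq_Ico, Finset.sum_eq_sum_Ico_succ_bot hR,
    Nat.cast_zero, zero_mul, hcH_zero hG τ L n (Or.inl rfl), zero_mul, zero_add, zero_add]
  rw [norm_mul, norm_div, norm_one, Complex.norm_real, Real.norm_eq_abs, abs_of_pos hL0, norm_mul]
  have h7 : ‖(1 / (2 * Real.pi) : ℂ)‖ ≤ 1 := by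
    rw [norm_div, norm_one, norm_mul, Complex.norm_real, Real.norm_eq_abs, abs_of_pos hpi]
    rw [Complex.norm_ofNat]
    rw [div_le_one (by positivity)]
    linarith [Real.pi_gt_three]
  have h8 : ‖∑ i ∈ Finset.Ico 1 R, hcH G τ L n ((i : ℝ) * κ) j * ((n : ℂ) *
        MshH Q (per a) g (((i : ℝ) * κ) ^ 2) ((((i : ℝ) + 1) * κ) ^ 2) n (-j))‖ ≤
      ∑ i ∈ Finset.Ico 1 R, 8 * M * B ^ 2 / τ * L *
        ‖MshH Q (per a) g (((i : ℝ) * κ) ^ 2) ((((i : ℝ) + 1) * κ) ^ 2) n (-j)‖ := by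
    refine (norm_sum_le _ _).trans (Finset.sum_le_sum fun i hi => ?_)
    rw [norm_mul, norm_mul]
    have h9 := hcH_le ht hG hM hL hn (by positivity : (0 : ℝ) ≤ (i : ℝ) * κ) j
    rw [Complex.norm_natCast]
    calc ‖hcH G τ L n ((i : ℝ) * κ) j‖ * ((n : ℝ) *
          ‖MshH Q (per a) g (((i : ℝ) * κ) ^ 2) ((((i : ℝ) + 1) * κ) ^ 2) n (-j)‖)
        ≤ 8 * M * B ^ 2 / τ * (L / n) * ((n : ℝ) *
          ‖MshH Q (per a) g (((i : ℝ) * κ) ^ 2) ((((i : ℝ) + 1) * κ) ^ 2) n (-j)‖) :=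
          mul_le_mul_of_nonneg_right h9 (by positivity)
      _ = 8 * M * B ^ 2 / τ * L *
          ‖MshH Q (per a) g (((i : ℝ) * κ) ^ 2) ((((i : ℝ) + 1) * κ) ^ 2) n (-j)‖ := by
          field_simp
  rw [← Finset.mul_sum] at h8
  set E := ∑ i ∈ Finset.Ico 1 R,
    ‖MshH Q (per a) g (((i : ℝ) * κ) ^ 2) ((((i : ℝ) + 1) * κ) ^ 2) n (-j)‖ with hE
  have h10 : ‖(1 / (2 * Real.pi) : ℂ)‖ * ‖∑ i ∈ Finset.Ico 1 R, hcH G τ L n ((i : ℝ) * κ) j *
      ((n : ℂ) * MshH Q (per a) g (((i : ℝ) * κ) ^ 2) ((((i : ℝ) + 1) * κ) ^ 2) n (-j))‖ ≤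
      1 * (8 * M * B ^ 2 / τ * L * E) :=
    mul_le_mul h7 h8 (norm_nonneg _) zero_le_one
  calc _ ≤ 1 / L * (1 * (8 * M * B ^ 2 / τ * L * E)) :=
        mul_le_mul_of_nonneg_left h10 (by positivity)
    _ = 8 * M * B ^ 2 / τ * E := by field_simp

end grid

end LocH20

open LocH20 U54 FoldH20 in
/-- the mean square over the angle is bounded by the small frequencies of the shell sums -/
theorem locH20 {d : ℕ} {Q : Form} {a : Pell.Solution₁ (d : ℤ)} (hQ : Hyp d Q) (ha : PP a)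
    {B : ℝ} {G : ℝ → ℝ → ℝ} (hG : GT B G) :
    ∃ C : ℝ, 0 < C ∧ ∀ R : ℕ, 6 * B ^ 2 ≤ R → ∀ A : ℝ, 0 < A → ∀ L : ℝ, 1 ≤ L →
    ∃ n0 : ℕ, ∀ n : ℕ, n0 ≤ n → ∀ g : V → ℂ, Ug g → AI Q a g →
    1 / (2 * Real.pi) * ∫ θ in (0 : ℝ)..(2 * Real.pi), ‖hmm Q (tauH a) g G L n θ‖ ^ 2 ≤
      C * R * ∑ i ∈ Finset.Ico 1 R,
        ∑ j ∈ Finset.Icc (-(⌊A * n / L⌋₊ : ℤ)) ⌊A * n / L⌋₊,
        ‖MshH Q (per a) g (((i : ℝ) * (3 * B / R)) ^ 2) ((((i : ℝ) + 1) * (3 * B / R)) ^ 2) n j‖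
          ^ 2 + C / (R : ℝ) ^ 2 + C / A ^ 2 := by
  classical
  have hB := hG.1
  have hB0 : 0 < B := by linarith
  have ht := tau_pos ha
  obtain ⟨CG, hCG0, hLip, hbd⟩ := gt_bound28 hG
  obtain ⟨Cc, hCc⟩ := stHCnt_26 d Q hQ (2 * B) (by linarith)
  obtain ⟨Cl, hCl0, hCl⟩ := hmm_lip hQ ht hG
  obtain ⟨Cb, hCb0, hCb⟩ := hmm_bd hQ hG
  obtain ⟨M, hM⟩ : ∃ M : ℝ, M = CG * (2 * B + 1) := ⟨_, rfl⟩
  have hM0 : 0 ≤ M := by rw [hM]; positivity
  have hbd' : ∀ x y, |G x y| ≤ M := by rw [hM]; exact hbd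
  obtain ⟨P, hP⟩ : ∃ P : ℝ, P = 8 * M * B ^ 2 / tauH a := ⟨_, rfl⟩
  have hP0 : 0 ≤ P := by rw [hP]; positivity
  obtain ⟨E, hE⟩ : ∃ E : ℝ, E = Cc * (CG * (3 * B) * (2 + 8 * B ^ 2)) := ⟨_, rfl⟩
  obtain ⟨C, hC⟩ : ∃ C : ℝ, C = 2 * P ^ 2 + 2 * E ^ 2 + 3 * Cl ^ 2 + 1 := ⟨_, rfl⟩
  have hC0 : 0 < C := by rw [hC]; positivity
  refine ⟨C, hC0, fun R hR A hA L hL => ?_⟩
  have hL0 : 0 < L := by linarith
  obtain ⟨n0, hn0⟩ := exists_nat_ge (8 * B ^ 2 * L)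
  refine ⟨n0, fun n hn g hg hAI => ?_⟩
  have hnB : 8 * B ^ 2 * L ≤ n := hn0.trans (by exact_mod_cast hn)
  have hB2 : 1 ≤ B ^ 2 := one_le_pow₀ hB
  have hnL : L ≤ n := by nlinarith
  have hx1 : (1 : ℝ) ≤ n := hL.trans hnL
  have hx0 : (0 : ℝ) < n := by linarith
  have hRr : (0 : ℝ) < R := lt_of_lt_of_le (by positivity) hR
  have hR0 : 0 < R := by exact_mod_cast hRr
  obtain ⟨κ, hκ⟩ : ∃ κ : ℝ, κ = 3 * B / R := ⟨_, rfl⟩
  have hκ0 : 0 < κ := by rw [hκ]; positivity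
  have hκB : κ ≤ 1 / (2 * B) := by
    rw [hκ, div_le_div_iff₀ hRr (by positivity)]
    nlinarith
  have hRκ : (R : ℝ) * κ = 3 * B := by rw [hκ]; field_simp
  rw [← hκ]
  have hcont : Continuous (fun θ => hmm Q (tauH a) g G L n θ) :=
    Mg46.cont_hmm stHCnt_26 hQ (tauH a) B G hG g hg L hL n hx1
  have hper : ∀ θ, hmm Q (tauH a) g G L n (θ + 2 * Real.pi) = hmm Q (tauH a) g G L n θ :=
    fun θ => Mg46.hmm_per hQ ha g hAI G L n θ
  obtain ⟨J, hJ⟩ : ∃ J : ℕ, J = ⌊A * n / L⌋₊ := ⟨_, rfl⟩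
  rw [← hJ]
  have h1 := tail (fun θ => hmm Q (tauH a) g G L n θ) hcont hper Cb (Cl * (n / L))
    (fun θ => hCb g hg _ L n θ hL) (fun θ h => hCl g hg L n hL hnL θ h) J
  have hfl := fld hQ ha hAI hG hL hnB hκ0 hκB le_rfl
  have hmtc : Continuous (fun θ => (1 / (L : ℂ)) * ∑' v, Ft Q (tauH a) g G κ L n v θ) :=
    continuous_const.mul (hfl.cont_tsum hQ ha)
  have h2 := close (fun θ => hmm Q (tauH a) g G L n θ)
    (fun θ => (1 / (L : ℂ)) * ∑' v, Ft Q (tauH a) g G κ L n v θ) hcont hmtc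
    (Cc * (CG * κ * (2 + 8 * B ^ 2)))
    (fun θ => mt_close hQ hG hCG0 hLip hL hnB hκ0 hκB (fun x θ => hCc _ L hL x θ) g hg θ)
    (Finset.Icc (-(J : ℤ)) J)
  -- the grid version
  have h3 : ∀ j, ‖fc (fun θ => (1 / (L : ℂ)) * ∑' v, Ft Q (tauH a) g G κ L n v θ) j‖ ^ 2 ≤
      P ^ 2 * (R * ∑ i ∈ Finset.Ico 1 R,
        ‖MshH Q (per a) g (((i : ℝ) * κ) ^ 2) ((((i : ℝ) + 1) * κ) ^ 2) n (-j)‖ ^ 2) := by
    intro j
    have h4 := fc_mt_le hQ ha hG hbd' hL hκ0 hκB hnB hR0 hRκ g hAI j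
    rw [← hP] at h4
    have h5 := pow_le_pow_left₀ (norm_nonneg _) h4 2
    refine h5.trans ?_
    rw [mul_pow]
    apply mul_le_mul_of_nonneg_left _ (sq_nonneg _)
    refine (sq_sum_le_card_mul_sum_sq (s := Finset.Ico 1 R) (f := fun i : ℕ =>
      ‖MshH Q (per a) g (((i : ℝ) * κ) ^ 2) ((((i : ℝ) + 1) * κ) ^ 2) n (-j)‖)).trans ?_
    apply mul_le_mul_of_nonneg_right _ (Finset.sum_nonneg fun i _ => sq_nonneg _)
    rw [Nat.card_Ico]
    exact_mod_cast Nat.sub_le R 1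
  have h6 : ∑ j ∈ Finset.Icc (-(J : ℤ)) J,
      ‖fc (fun θ => (1 / (L : ℂ)) * ∑' v, Ft Q (tauH a) g G κ L n v θ) j‖ ^ 2 ≤
      P ^ 2 * (R * ∑ i ∈ Finset.Ico 1 R, ∑ j ∈ Finset.Icc (-(J : ℤ)) J,
        ‖MshH Q (per a) g (((i : ℝ) * κ) ^ 2) ((((i : ℝ) + 1) * κ) ^ 2) n j‖ ^ 2) := by
    have h7 : ∑ j ∈ Finset.Icc (-(J : ℤ)) J,
        ‖fc (fun θ => (1 / (L : ℂ)) * ∑' v, Ft Q (tauH a) g G κ L n v θ) j‖ ^ 2 =
        ∑ j ∈ Finset.Icc (-(J : ℤ)) J,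
        ‖fc (fun θ => (1 / (L : ℂ)) * ∑' v, Ft Q (tauH a) g G κ L n v θ) (-j)‖ ^ 2 := by
      apply Finset.sum_nbij' (fun j => -j) (fun j => -j)
      · intro j hj
        rw [Finset.mem_Icc] at hj ⊢
        omega
      · intro j hj
        rw [Finset.mem_Icc] at hj ⊢
        omega
      · intro j _; exact neg_neg j
      · intro j _; exact neg_neg j
      · intro j _; rw [neg_neg]
    rw [h7]
    refine (Finset.sum_le_sum fun j _ => h3 (-j)).trans (le_of_eq ?_)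
    simp only [neg_neg]
    rw [← Finset.mul_sum, ← Finset.mul_sum, Finset.sum_comm]
  -- the constants
  obtain ⟨SS, hSS⟩ : ∃ SS : ℝ, SS = ∑ i ∈ Finset.Ico 1 R, ∑ j ∈ Finset.Icc (-(J : ℤ)) J,
        ‖MshH Q (per a) g (((i : ℝ) * κ) ^ 2) ((((i : ℝ) + 1) * κ) ^ 2) n j‖ ^ 2 := ⟨_, rfl⟩
  rw [← hSS] at h6 ⊢
  have hS0 : 0 ≤ (R : ℝ) * SS := by
    rw [hSS]
    exact mul_nonneg hRr.le (Finset.sum_nonneg fun i _ => Finset.sum_nonneg fun j _ => sq_nonneg _)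
  have e1 : 2 * (Cc * (CG * κ * (2 + 8 * B ^ 2))) ^ 2 = 2 * E ^ 2 / (R : ℝ) ^ 2 := by
    rw [hE, hκ]
    field_simp
  have e2 : 3 * (Cl * ((n : ℝ) / L)) ^ 2 / ((J : ℝ) + 1) ^ 2 ≤ 3 * Cl ^ 2 / A ^ 2 := by
    have hJ1 : A * n / L < (J : ℝ) + 1 := by rw [hJ]; exact Nat.lt_floor_add_one _
    have hJ2 : (A * ((n : ℝ) / L)) ^ 2 ≤ ((J : ℝ) + 1) ^ 2 := by
      apply pow_le_pow_left₀ (by positivity)
      rw [← mul_div_assoc]
      exact hJ1.le
    rw [div_le_div_iff₀ (by positivity) (by positivity)]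
    calc 3 * (Cl * ((n : ℝ) / L)) ^ 2 * A ^ 2 = 3 * Cl ^ 2 * (A * ((n : ℝ) / L)) ^ 2 := by ring
      _ ≤ 3 * Cl ^ 2 * ((J : ℝ) + 1) ^ 2 := mul_le_mul_of_nonneg_left hJ2 (by positivity)
  have e3 : 2 * E ^ 2 / (R : ℝ) ^ 2 ≤ C / (R : ℝ) ^ 2 := by
    apply div_le_div_of_nonneg_right _ (by positivity)
    rw [hC]
    linarith [sq_nonneg P, sq_nonneg Cl]
  have e4 : 3 * Cl ^ 2 / A ^ 2 ≤ C / A ^ 2 := by
    apply div_le_div_of_nonneg_right _ (by positivity)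
    rw [hC]
    linarith [sq_nonneg P, sq_nonneg E]
  have e5 : 2 * (P ^ 2 * (R * SS)) ≤ C * (R * SS) := by
    rw [← mul_assoc]
    apply mul_le_mul_of_nonneg_right _ hS0
    rw [hC]
    linarith [sq_nonneg E, sq_nonneg Cl]
  have e6 : C * R * SS = C * (R * SS) := mul_assoc _ _ _
  rw [e6]
  linarith

end Pool.Agent.Lib.MP_a17b09_nt.HY
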