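import Pool.Agent.Lib.MP_a17b09_nt.HY.Cnt84
import Pool.Agent.Lib.MP_a17b09_nt.CH.R7
import Pool.Agent.Lib.MP_a17b09_nt.CH.Box79
import Pool.Agent.Lib.MP_a17b09_nt.CH.Row79
import Pool.Agent.Lib.MP_a17b09_nt.CH.Tot7
import Pool.Agent.Lib.MP_a17b09_nt.CH.RS90

/-!
Project HY, module F4 (StHlow): lower bound for the number of frames in a class modulo `K`, with the
first vector in a sector.  From the box count of part R, applied to a cap of an ellipse.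
-/

set_option autoImplicit false

open Filter Topology Finset

namespace Pool.Agent.Lib.MP_a17b09_nt.HY

open Pool.Agent.Lib.MP_a17b09_nt.CH

namespace Low7

open Pool.Agent.Lib.MP_a17b09_nt.CH.R7 (shm shv shQ shv_inj sh_q sh_B sh_wd sh_cls exists_shear lft
  cls_lft lft_det D2)

/-- an even modulus and a class with first entry prime to it, after a shear -/
theorem prep (K : ℕ) (hK : 0 < K) (γ : Mat) (hd : (K : ℤ) ∣ γ.det - 1) :
    ∃ (N : ℕ) (γ' : Mat) (h : ℤ), 0 < N ∧ Even N ∧ (N : ℤ) ∣ γ'.det - 1 ∧ Int.gcd γ'.a N = 1 ∧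
      ∀ f : V × V, Cls N γ' (shv h f.1, shv h f.2) → Cls K γ f := by
  obtain ⟨N, γ1, hN, he, hd1, hc⟩ : ∃ (N : ℕ) (γ1 : Mat), 0 < N ∧ Even N ∧
      (N : ℤ) ∣ γ1.det - 1 ∧ ∀ f : V × V, Cls N γ1 f → Cls K γ f := by
    rcases Nat.even_or_odd K with he | ho
    · exact ⟨K, γ, hK, he, hd, fun f hf => hf⟩
    · exact ⟨2 * K, lft K γ (1, 0, 0, 1), by omega, even_two_mul K,
        lft_det K ho γ hd _ (by decide), fun f hf => ((cls_lft K ho γ _ f).1 hf).1⟩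
  have h0 : ∀ p : ℕ, p.Prime → p ∣ N → ¬ ((p : ℤ) ∣ γ1.a ∧ (p : ℤ) ∣ γ1.c) := by
    rintro p hp hpN ⟨h1, h2⟩
    have h3 : (p : ℤ) ∣ γ1.det - 1 := (by exact_mod_cast hpN : (p : ℤ) ∣ (N : ℤ)).trans hd1
    have h4 : (p : ℤ) ∣ γ1.det := by
      unfold Mat.det
      exact dvd_sub (dvd_mul_of_dvd_left h1 _) (dvd_mul_of_dvd_right h2 _)
    have h5 : (p : ℤ) ∣ 1 := by
      have := dvd_sub h4 h3
      simpa using this
    have h6 : p ∣ 1 := by exact_mod_cast h5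
    exact hp.one_lt.ne' (Nat.dvd_one.1 h6)
  obtain ⟨h, hh⟩ := exists_shear N hN γ1.a γ1.c h0
  refine ⟨N, shm h γ1, h, hN, he, ?_, hh, fun f hf => hc f ((sh_cls N h γ1 f).1 hf)⟩
  have : (shm h γ1).det = γ1.det := by unfold shm Mat.det; ring
  rw [this]; exact hd1

/-- the form whose cap is used -/
def QE (m : ℕ) : Form := ⟨1, -2, m⟩

theorem QE_pos {m : ℕ} (hm : 2 ≤ m) : (QE m).Pos := by
  have hm' : (2 : ℤ) ≤ m := by exact_mod_cast hm
  refine ⟨by unfold QE; norm_num, ?_⟩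
  unfold QE Form.D
  simp only
  linarith

theorem U_sq {m : ℕ} (hm : 2 ≤ m) : ((m : ℝ) - 1) * (QE m).U ^ 2 = m := by
  have hm' : (2 : ℝ) ≤ m := by exact_mod_cast hm
  have hm1 : (m : ℝ) - 1 ≠ 0 := by
    have : (0 : ℝ) < m - 1 := by linarith
    exact this.ne'
  have e : (4 * (m : ℝ) - 4) = 4 * (m - 1) := by ring
  unfold Form.U QE Form.D
  push_cast
  rw [e, mul_pow, Real.sq_sqrt (by apply div_nonneg <;> linarith)]
  field_simp
  ring

theorem U_pos {m : ℕ} (hm : 2 ≤ m) : 0 < (QE m).U := by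
  have hm' : (2 : ℝ) ≤ m := by exact_mod_cast hm
  unfold Form.U QE Form.D
  push_cast
  have : (0 : ℝ) < (m : ℝ) / (4 * m - 4) := by
    apply div_pos <;> linarith
  exact mul_pos (by norm_num) (Real.sqrt_pos.2 this)

/-- the cap of the ellipse is contained in a narrow sector -/
theorem cap {m : ℕ} (hm : 2 ≤ m) {t R x y : ℝ} (ht : t = 1 - 1 / (16 * m)) (hR : 0 < R)
    (h1 : t * ((QE m).U * R) ≤ x) (h2 : x ^ 2 - 2 * (x * y) + m * y ^ 2 < R ^ 2) :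
    0 < x ∧ 0 < y ∧ y ≤ x ∧ 2 * m * y ≤ 3 * x ∧ x ^ 2 ≤ 2 * R ^ 2 ∧ 3 / 4 * R ^ 2 ≤ x ^ 2 := by
  have hm' : (2 : ℝ) ≤ m := by exact_mod_cast hm
  have hU := U_sq hm
  have hU0 := U_pos hm
  set U := (QE m).U with hUdef
  have hm1 : (0 : ℝ) < m := by linarith
  have ht0 : 1 / (16 * (m : ℝ)) ≤ 1 / 32 := by
    apply one_div_le_one_div_of_le (by norm_num)
    linarith
  have ht1 : 31 / 32 ≤ t := by rw [ht]; linarith
  have ht2 : t ≤ 1 := by
    rw [ht]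
    have : (0 : ℝ) ≤ 1 / (16 * m) := by positivity
    linarith
  have hx0 : 0 < x := lt_of_lt_of_le (by positivity) h1
  have hx1 : t ^ 2 * U ^ 2 * R ^ 2 ≤ x ^ 2 := by
    have h3 : 0 ≤ t * (U * R) := by positivity
    calc t ^ 2 * U ^ 2 * R ^ 2 = (t * (U * R)) ^ 2 := by ring
      _ ≤ x ^ 2 := pow_le_pow_left₀ h3 h1 2
  have ht3 : (1 - t ^ 2) * m ≤ 1 / 8 := by
    have e : (1 - t) * m = 1 / 16 := by
      rw [ht]; field_simp; ring
    have : (1 - t ^ 2) * m = (1 - t) * m * (1 + t) := by ring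
    rw [this, e]; linarith
  have hR2 : 0 < R ^ 2 := by positivity
  -- (m - 1) x² ≥ m t² R²
  have h4 : m * (t ^ 2 * R ^ 2) ≤ (m - 1) * x ^ 2 := by
    calc (m : ℝ) * (t ^ 2 * R ^ 2) = ((m - 1) * U ^ 2) * (t ^ 2 * R ^ 2) := by rw [hU]
      _ = (m - 1) * (t ^ 2 * U ^ 2 * R ^ 2) := by ring
      _ ≤ (m - 1) * x ^ 2 := mul_le_mul_of_nonneg_left hx1 (by linarith)
  have h5 : (m * y - x) ^ 2 + (m - 1) * x ^ 2 < m * R ^ 2 := by
    have : (m * y - x) ^ 2 + (m - 1) * x ^ 2 = m * (x ^ 2 - 2 * (x * y) + m * y ^ 2) := by ring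
    rw [this]
    exact mul_lt_mul_of_pos_left h2 hm1
  have h6 : (m * y - x) ^ 2 ≤ 1 / 8 * R ^ 2 := by
    have : (m * y - x) ^ 2 ≤ ((1 - t ^ 2) * m) * R ^ 2 := by nlinarith
    exact this.trans (mul_le_mul_of_nonneg_right ht3 hR2.le)
  have h7 : 3 / 4 * R ^ 2 ≤ x ^ 2 := by
    have h8 : (3 : ℝ) / 4 ≤ t ^ 2 := by nlinarith
    have h9 : (m - 1) * (3 / 4 * R ^ 2) ≤ (m - 1) * x ^ 2 := by
      refine le_trans ?_ h4
      have h10 : 3 / 4 * R ^ 2 ≤ t ^ 2 * R ^ 2 := mul_le_mul_of_nonneg_right h8 hR2.le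
      nlinarith
    exact le_of_mul_le_mul_left h9 (by linarith)
  have h8 : |m * y - x| ≤ x / 2 := by
    apply abs_le_of_sq_le_sq _ (by linarith)
    nlinarith
  have h9 := abs_le.1 h8
  have hy0 : 0 < y := by
    have : 0 < m * y := by linarith [h9.1]
    exact (mul_pos_iff_of_pos_left hm1).1 this
  refine ⟨hx0, hy0, ?_, by linarith [h9.2], ?_, h7⟩
  · have : 2 * y ≤ m * y := mul_le_mul_of_nonneg_right hm' hy0.le
    linarith [h9.2]
  · have h10 : (m - 1) * x ^ 2 ≤ m * R ^ 2 := by nlinarith [sq_nonneg (m * y - x)]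
    nlinarith

theorem B_sq (Q : Form) (v w : V) : Q.B v w ^ 2 - 4 * Q.q v * Q.q w = -Q.D * wd v w ^ 2 := by
  unfold Form.B Form.q Form.D wd
  ring

/-- the set of frames is finite -/
theorem HF_fin {d : ℕ} {Q : Form} (hQ : Hyp d Q) {T : ℝ} (hT : 0 < T) (n s1 s2 : ℝ) :
    (HF Q T n s1 s2).Finite := by
  set n' : ℝ := max 1 (max n (s2 ^ 2 * n)) with hn'
  have hn1 : 1 ≤ n' := le_max_left _ _
  obtain ⟨C, hC, h1, h2, h3⟩ := stHcnt_84 d Q hQ T hT (1 / √n') (by positivity)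
  have hf1 := (h1 n' hn1).1
  have hsub : HF Q T n s1 s2 ⊆ ⋃ v ∈ {v : V | Sec Q T v ∧ (Q.q v : ℝ) ≤ n'},
      {f : V × V | f.1 = v ∧ Prim v ∧ Cn Q f.2 ∧ (Q.q f.2 : ℝ) ≤ n' ∧ wd v f.2 = 1} := by
    rintro f ⟨hw, hs, hc, hq, hB1, hB2⟩
    simp only [Set.mem_iUnion, exists_prop]
    have hqp : (0 : ℝ) < Q.q f.1 := by exact_mod_cast hs.1.q_pos hQ
    have hBp : (0 : ℝ) < Q.B f.1 f.2 := by exact_mod_cast hs.1.B_pos hQ hc
    refine ⟨f.1, ⟨hs, hq.trans ((le_max_left _ _).trans (le_max_right _ _))⟩, rfl, ?_, hc, ?_, hw⟩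
    · have h4 : Int.gcd f.1.1 f.1.2 = 1 := by
        have h5 : ((Int.gcd f.1.1 f.1.2 : ℕ) : ℤ) ∣ 1 := by
          have h6 : ((Int.gcd f.1.1 f.1.2 : ℕ) : ℤ) ∣ f.1.1 := Int.gcd_dvd_left ..
          have h7 : ((Int.gcd f.1.1 f.1.2 : ℕ) : ℤ) ∣ f.1.2 := Int.gcd_dvd_right ..
          rw [← hw]
          unfold wd
          exact dvd_sub (h6.mul_right _) (h7.mul_right _)
        exact Nat.dvd_one.1 (by exact_mod_cast h5)
      exact h4
    · have h4 : (4 : ℝ) * Q.q f.1 * Q.q f.2 = (Q.B f.1 f.2 : ℝ) ^ 2 - d := by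
        have h5 := B_sq Q f.1 f.2
        rw [hw, hQ.disc] at h5
        have h6 : ((Q.B f.1 f.2 : ℤ) : ℝ) ^ 2 - 4 * (Q.q f.1 : ℝ) * (Q.q f.2 : ℝ) = d := by
          have : (((Q.B f.1 f.2) ^ 2 - 4 * Q.q f.1 * Q.q f.2 : ℤ) : ℝ) = ((d : ℤ) : ℝ) := by
            rw [h5]; push_cast; ring
          push_cast at this
          exact this
        linarith
      have h5 : (Q.B f.1 f.2 : ℝ) ^ 2 ≤ (2 * s2 * Q.q f.1) ^ 2 := pow_le_pow_left₀ hBp.le hB2 2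
      have hd0 : (0 : ℝ) ≤ d := Nat.cast_nonneg d
      have h6 : (Q.q f.2 : ℝ) ≤ s2 ^ 2 * Q.q f.1 := by
        have h7 : (4 : ℝ) * Q.q f.1 * Q.q f.2 ≤ 4 * Q.q f.1 * (s2 ^ 2 * Q.q f.1) := by nlinarith
        exact le_of_mul_le_mul_left h7 (by linarith)
      calc (Q.q f.2 : ℝ) ≤ s2 ^ 2 * Q.q f.1 := h6
        _ ≤ s2 ^ 2 * n := mul_le_mul_of_nonneg_left hq (sq_nonneg _)
        _ ≤ n' := (le_max_right _ _).trans (le_max_right _ _)
  refine Set.Finite.subset (hf1.biUnion fun v hv => ?_) hsub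
  by_cases hp : Prim v
  · have hq1 : (1 / √n') ^ 2 * n' ≤ (Q.q v : ℝ) := by
      have h4 : (1 / √n') ^ 2 * n' = 1 := by
        rw [div_pow, Real.sq_sqrt (by linarith)]
        field_simp
      rw [h4]
      have h5 : (0 : ℤ) < Q.q v := hv.1.1.q_pos hQ
      exact_mod_cast h5
    have h4 := (h3 n' v 1 (by linarith) hp hv.1.1 hq1).1
    have h5 : {f : V × V | f.1 = v ∧ Prim v ∧ Cn Q f.2 ∧ (Q.q f.2 : ℝ) ≤ n' ∧ wd v f.2 = 1} ⊆
        (fun v' : V => (v, v')) '' {v' : V | Cn Q v' ∧ (Q.q v' : ℝ) ≤ n' ∧ wd v v' = 1} := by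
      rintro ⟨a, b⟩ ⟨h6, -, h7⟩
      exact ⟨b, h7, by simp only at h6; rw [h6]⟩
    exact (h4.image _).subset h5
  · have h5 : {f : V × V | f.1 = v ∧ Prim v ∧ Cn Q f.2 ∧ (Q.q f.2 : ℝ) ≤ n' ∧ wd v f.2 = 1} = ∅ := by
      ext f
      simp only [Set.mem_ofPred_eq, Set.mem_empty_iff_false, iff_false]
      exact fun h => hp h.2.1
    rw [h5]
    exact Set.finite_empty

/-- a wide condition for the sector -/
theorem sec_of {d : ℕ} {Q : Form} (hQ : Hyp d Q) {T : ℝ} (hT : 0 < T) {w : V} (hw : 0 < w.2)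
    (hP : (√(d : ℝ) * (1 + Real.exp (2 * T)) / (Real.exp (2 * T) - 1) + 1) * w.2 ≤
      2 * Q.a * w.1 + Q.b * w.2) : Sec Q T w := by
  have hE : 1 < Real.exp (2 * T) := Real.one_lt_exp_iff.2 (by linarith)
  set E := Real.exp (2 * T) with hEdef
  have hsa := hQ.sa
  have hsd := hQ.sd
  have hw' : (0 : ℝ) < w.2 := by exact_mod_cast hw
  set P : ℝ := 2 * Q.a * w.1 + Q.b * w.2 with hPdef
  have hX1 : hX Q w = P / (2 * √(Q.a : ℝ)) := by
    unfold hX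
    have h2 := hQ.sa_sq
    field_simp
    rw [h2]
    ring
  have hY1 : hY Q w = √(d : ℝ) * w.2 / (2 * √(Q.a : ℝ)) := hQ.hY_eq w
  have hL : (1 + E) * (√(d : ℝ) * w.2) < (E - 1) * P := by
    have h1 : (E - 1) * ((√(d : ℝ) * (1 + E) / (E - 1) + 1) * w.2) ≤ (E - 1) * P :=
      mul_le_mul_of_nonneg_left hP (by linarith)
    have h2 : (E - 1) * ((√(d : ℝ) * (1 + E) / (E - 1) + 1) * w.2) =
        (1 + E) * (√(d : ℝ) * w.2) + (E - 1) * w.2 := by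
      have : E - 1 ≠ 0 := by linarith
      field_simp
    have h3 : 0 < (E - 1) * w.2 := mul_pos (by linarith) hw'
    linarith
  have hdy : 0 < √(d : ℝ) * w.2 := mul_pos hsd hw'
  have hPd : √(d : ℝ) * w.2 < P := by
    have h1 : (E - 1) * (√(d : ℝ) * w.2) < (E - 1) * P := by
      refine lt_of_le_of_lt ?_ hL
      exact mul_le_mul_of_nonneg_right (by linarith) hdy.le
    exact lt_of_mul_lt_mul_left h1 (by linarith)
  have hYX : hY Q w < hX Q w := by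
    rw [hX1, hY1]
    exact div_lt_div_of_pos_right hPd (by positivity)
  have hY0 : 0 < hY Q w := by
    rw [hY1]; positivity
  have hLX : (1 + E) * hY Q w < (E - 1) * hX Q w := by
    rw [hX1, hY1, ← mul_div_assoc, ← mul_div_assoc]
    exact div_lt_div_of_pos_right hL (by positivity)
  have hd1 : 0 < hX Q w - hY Q w := by linarith
  refine ⟨?_, ?_, ?_⟩
  · unfold Cn
    rw [abs_of_pos hY0]; exact hYX
  · unfold ps
    apply div_nonneg _ (by norm_num)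
    apply Real.log_nonneg
    rw [le_div_iff₀ hd1]
    linarith
  · unfold ps
    rw [div_lt_iff₀ (by norm_num : (0 : ℝ) < 2), Real.log_lt_iff_lt_exp (div_pos (by linarith) hd1),
      div_lt_iff₀ hd1, show T * 2 = 2 * T by ring, ← hEdef]
    linarith

/-- lower bound for the value of the form -/
theorem q_ge {d : ℕ} {Q : Form} (hQ : Hyp d Q) {L x : ℝ} {w : V} (hw : 0 < w.2) (hx : 0 < x)
    (hL : √(d : ℝ) ≤ L) (hP : x + L * w.2 ≤ 2 * Q.a * w.1 + Q.b * w.2) :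
    x ^ 2 ≤ 4 * Q.a * Q.q w := by
  have hw' : (0 : ℝ) < w.2 := by exact_mod_cast hw
  have e : 4 * (Q.a : ℝ) * Q.q w = (2 * Q.a * w.1 + Q.b * w.2) ^ 2 - d * (w.2 : ℝ) ^ 2 := by
    have h4 : (d : ℝ) = (Q.b : ℝ) ^ 2 - 4 * Q.a * Q.c := by
      have h5 := hQ.negD
      unfold Form.D at h5
      push_cast at h5
      linarith
    rw [h4]
    unfold Form.q
    push_cast
    ring
  rw [e]
  have hL0 : 0 ≤ L := (Real.sqrt_nonneg _).trans hL
  have h1 : (x + L * w.2) ^ 2 ≤ (2 * Q.a * w.1 + Q.b * w.2) ^ 2 :=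
    pow_le_pow_left₀ (by positivity) hP 2
  have h2 : (d : ℝ) * (w.2 : ℝ) ^ 2 ≤ (L * w.2) ^ 2 := by
    rw [mul_pow, ← Hyp.sd_sq d]
    exact mul_le_mul_of_nonneg_right (pow_le_pow_left₀ (Real.sqrt_nonneg _) hL 2) (sq_nonneg _)
  have h3 : 0 ≤ x * (L * w.2) := by positivity
  nlinarith

/-- the polar form against the first coordinate -/
theorem B_id (Q : Form) (v w : V) (h : wd v w = 1) :
    v.1 * Q.B v w = 2 * w.1 * Q.q v + (Q.b * v.1 + 2 * Q.c * v.2) := by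
  have : v.1 * Q.B v w = 2 * w.1 * Q.q v + (Q.b * v.1 + 2 * Q.c * v.2) * wd v w := by
    unfold Form.B Form.q wd
    ring
  rw [this, h, mul_one]

/-- upper bound for the value of the form -/
theorem q_le (Q : Form) {v : V} (h0 : 0 ≤ v.2) (h1 : v.2 ≤ v.1) :
    (Q.q v : ℝ) ≤ (|(Q.a : ℝ)| + |(Q.b : ℝ)| + |(Q.c : ℝ)|) * (v.1 : ℝ) ^ 2 := by
  have h0' : (0 : ℝ) ≤ v.2 := by exact_mod_cast h0
  have h1' : (v.2 : ℝ) ≤ v.1 := by exact_mod_cast h1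
  have hv1 : (0 : ℝ) ≤ v.1 := h0'.trans h1'
  unfold Form.q
  push_cast
  have e1 : (Q.a : ℝ) * (v.1 : ℝ) ^ 2 ≤ |(Q.a : ℝ)| * (v.1 : ℝ) ^ 2 :=
    mul_le_mul_of_nonneg_right (le_abs_self _) (sq_nonneg _)
  have e2 : (Q.b : ℝ) * v.1 * v.2 ≤ |(Q.b : ℝ)| * (v.1 : ℝ) ^ 2 := by
    calc (Q.b : ℝ) * v.1 * v.2 = Q.b * (v.1 * v.2) := by ring
      _ ≤ |(Q.b : ℝ)| * (v.1 * v.2) :=
        mul_le_mul_of_nonneg_right (le_abs_self _) (mul_nonneg hv1 h0')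
      _ ≤ |(Q.b : ℝ)| * (v.1 : ℝ) ^ 2 := by
        apply mul_le_mul_of_nonneg_left _ (abs_nonneg _)
        rw [sq]; exact mul_le_mul_of_nonneg_left h1' hv1
  have e3 : (Q.c : ℝ) * (v.2 : ℝ) ^ 2 ≤ |(Q.c : ℝ)| * (v.1 : ℝ) ^ 2 := by
    calc (Q.c : ℝ) * (v.2 : ℝ) ^ 2 ≤ |(Q.c : ℝ)| * (v.2 : ℝ) ^ 2 :=
        mul_le_mul_of_nonneg_right (le_abs_self _) (sq_nonneg _)
      _ ≤ |(Q.c : ℝ)| * (v.1 : ℝ) ^ 2 :=
        mul_le_mul_of_nonneg_left (pow_le_pow_left₀ h0' h1' 2) (abs_nonneg _)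
  linarith

theorem shv_shv (h : ℤ) (v : V) : shv h (shv (-h) v) = v := by
  unfold shv
  ext
  · simp
  · simp

/-- the box is mapped into the set of frames -/
theorem box_sub {d : ℕ} {Q : Form} (hQ : Hyp d Q) {T : ℝ} (hT : 0 < T) {K : ℕ} {γ : Mat}
    {s1 s2 : ℝ} (h1 : 0 < s1) {N : ℕ} {γ' : Mat} {h : ℤ}
    (hc : ∀ f : V × V, Cls N γ' (shv h f.1, shv h f.2) → Cls K γ f)
    {m : ℕ} (hm : 2 ≤ m) {t : ℝ} (ht : t = 1 - 1 / (16 * m))
    (hmL : 3 * (2 * |(h : ℝ)| + |(Q.b : ℝ)| +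
      (√(d : ℝ) * (1 + Real.exp (2 * T)) / (Real.exp (2 * T) - 1) + 1)) ≤ 2 * m)
    {r : ℝ} (hr : 0 < r)
    (hrS : 2 * (|((shQ Q h).a : ℝ)| + |((shQ Q h).b : ℝ)| + |((shQ Q h).c : ℝ)|) * r ^ 2 ≤ 1)
    {η : ℝ} (hη : 0 < η) {n : ℕ} (hn : 0 < n)
    (hn1 : |((shQ Q h).b : ℝ)| + 2 * |((shQ Q h).c : ℝ)| ≤ 2 * η * (3 * r ^ 2 * n / (16 * Q.a)))
    (hn2 : (d : ℝ) + 1 ≤ 2 * s1 * (3 * r ^ 2 * n / (16 * Q.a)))
    {g : V × V} (hg : g ∈ boxS (QE m) N γ' t r (s1 + η) (s2 - η) n) :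
    (shv (-h) g.1, shv (-h) g.2) ∈ {f | f ∈ HF Q T n s1 s2 ∧ Cls K γ f} := by
  obtain ⟨hw, hcl, hx1, hq1, hs1, hs2⟩ := hg
  obtain ⟨⟨x, y⟩, ⟨x', y'⟩⟩ := g
  simp only at hw hcl hx1 hq1 hs1 hs2 ⊢
  have hn' : (0 : ℝ) < n := by exact_mod_cast hn
  have hsn : 0 < √(n : ℝ) := Real.sqrt_pos.2 hn'
  have hR : 0 < r * √(n : ℝ) := mul_pos hr hsn
  have hR2 : (r * √(n : ℝ)) ^ 2 = r ^ 2 * n := by rw [mul_pow, Real.sq_sqrt hn'.le]
  have hqE : (((QE m).q (x, y) : ℤ) : ℝ) = (x : ℝ) ^ 2 - 2 * ((x : ℝ) * y) + m * (y : ℝ) ^ 2 := by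
    unfold QE Form.q
    push_cast
    ring
  rw [hqE, ← hR2] at hq1
  obtain ⟨c1, c2, c3, c4, c5, c6⟩ := cap hm ht hR (by rw [← mul_assoc (QE m).U]; exact hx1) hq1
  rw [hR2] at c5 c6
  set L0 : ℝ := √(d : ℝ) * (1 + Real.exp (2 * T)) / (Real.exp (2 * T) - 1) + 1 with hL0
  have hy : 0 < y := by exact_mod_cast c2
  have hyx : y ≤ x := by exact_mod_cast c3
  have hx : 0 < x := by exact_mod_cast c1
  have ha1 : (1 : ℝ) ≤ Q.a := by exact_mod_cast hQ.apos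
  have ha0 : (0 : ℝ) < Q.a := by linarith
  -- L0 is at least √d
  have hE : 1 < Real.exp (2 * T) := Real.one_lt_exp_iff.2 (by linarith)
  have hLd : √(d : ℝ) ≤ L0 := by
    have h3 : √(d : ℝ) ≤ √(d : ℝ) * (1 + Real.exp (2 * T)) / (Real.exp (2 * T) - 1) := by
      rw [le_div_iff₀ (by linarith)]
      exact mul_le_mul_of_nonneg_left (by linarith) (Real.sqrt_nonneg _)
    rw [hL0]; linarith
  have hL00 : 0 ≤ L0 := (Real.sqrt_nonneg _).trans hLd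
  -- the key inequality
  have hkey : (x : ℝ) + L0 * y ≤ 2 * Q.a * ((x : ℝ) - h * y) + Q.b * y := by
    have k1 : (2 * |(h : ℝ)| + |(Q.b : ℝ)| + L0) * y ≤ x := by
      have : 3 * ((2 * |(h : ℝ)| + |(Q.b : ℝ)| + L0) * y) ≤ 3 * x := by
        calc 3 * ((2 * |(h : ℝ)| + |(Q.b : ℝ)| + L0) * y)
            = 3 * (2 * |(h : ℝ)| + |(Q.b : ℝ)| + L0) * y := by ring
          _ ≤ 2 * m * y := mul_le_mul_of_nonneg_right hmL c2.le
          _ ≤ 3 * x := c4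
      linarith
    have k2 : Q.a * ((2 * |(h : ℝ)| + |(Q.b : ℝ)| + L0) * y) ≤ Q.a * x :=
      mul_le_mul_of_nonneg_left k1 ha0.le
    have k3 : Q.a * ((h : ℝ) * y) ≤ Q.a * (|(h : ℝ)| * y) :=
      mul_le_mul_of_nonneg_left (mul_le_mul_of_nonneg_right (le_abs_self _) c2.le) ha0.le
    have k4 : -(|(Q.b : ℝ)| * y) ≤ Q.b * y := by
      have := mul_le_mul_of_nonneg_right (neg_abs_le (Q.b : ℝ)) c2.le
      linarith
    have k5 : (|(Q.b : ℝ)| + L0) * y ≤ Q.a * ((|(Q.b : ℝ)| + L0) * y) :=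
      le_mul_of_one_le_left (by positivity) ha1
    have k6 : (x : ℝ) ≤ Q.a * x := le_mul_of_one_le_left c1.le ha1
    nlinarith
  have hf1 : shv (-h) (x, y) = (x - h * y, y) := by
    unfold shv
    ext
    · simp only
      ring
    · rfl
  have hcast : (((x - h * y : ℤ) : ℝ)) = (x : ℝ) - h * y := by push_cast; ring
  have hsec : Sec Q T (shv (-h) (x, y)) := by
    rw [hf1]
    apply sec_of hQ hT (by simpa using hy)
    simp only
    rw [hcast, ← hL0]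
    linarith
  have hqge : (x : ℝ) ^ 2 ≤ 4 * Q.a * Q.q (shv (-h) (x, y)) := by
    rw [hf1]
    apply q_ge hQ (by simpa using hy) c1 hLd
    simp only
    rw [hcast]
    exact hkey
  have hqn : 3 * r ^ 2 * n / (16 * Q.a) ≤ (Q.q (shv (-h) (x, y)) : ℝ) := by
    rw [div_le_iff₀ (by positivity)]
    linarith
  -- the sheared form
  have hqs : Q.q (shv (-h) (x, y)) = (shQ Q h).q (x, y) := by
    rw [← sh_q Q h, shv_shv]
  have hBs : Q.B (shv (-h) (x, y)) (shv (-h) (x', y')) = (shQ Q h).B (x, y) (x', y') := by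
    rw [← sh_B Q h, shv_shv, shv_shv]
  have hws : wd (shv (-h) (x, y)) (shv (-h) (x', y')) = 1 := by rw [sh_wd]; exact hw
  set q0 : ℝ := (Q.q (shv (-h) (x, y)) : ℝ) with hq0
  have hq0p : 0 < q0 := lt_of_lt_of_le (by positivity) hqn
  set A := shQ Q h with hA
  have hid : (x : ℝ) * (Q.B (shv (-h) (x, y)) (shv (-h) (x', y')) : ℝ) =
      2 * x' * q0 + ((A.b : ℝ) * x + 2 * A.c * y) := by
    have h3 := B_id A (x, y) (x', y') hw
    rw [hq0, hqs, hBs]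
    exact_mod_cast h3
  set B0 : ℝ := (Q.B (shv (-h) (x, y)) (shv (-h) (x', y')) : ℝ) with hB0
  have hrem : |(A.b : ℝ) * x + 2 * A.c * y| ≤ (|(A.b : ℝ)| + 2 * |(A.c : ℝ)|) * x := by
    calc |(A.b : ℝ) * x + 2 * A.c * y| ≤ |(A.b : ℝ) * x| + |2 * (A.c : ℝ) * y| := abs_add_le _ _
      _ = |(A.b : ℝ)| * x + 2 * |(A.c : ℝ)| * y := by
        rw [abs_mul, abs_mul, abs_mul, abs_of_pos c1, abs_of_pos c2, abs_two]
      _ ≤ |(A.b : ℝ)| * x + 2 * |(A.c : ℝ)| * x := by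
        have := mul_le_mul_of_nonneg_left c3 (mul_nonneg zero_le_two (abs_nonneg (A.c : ℝ)))
        linarith
      _ = (|(A.b : ℝ)| + 2 * |(A.c : ℝ)|) * x := by ring
  have hrem' := abs_le.1 hrem
  have hS2 : (|(A.b : ℝ)| + 2 * |(A.c : ℝ)|) * x ≤ 2 * η * q0 * x := by
    apply mul_le_mul_of_nonneg_right _ c1.le
    exact hn1.trans (mul_le_mul_of_nonneg_left hqn (by linarith))
  have hlow : 2 * s1 * q0 ≤ B0 := by
    have h3 : (x : ℝ) * (2 * s1 * q0) ≤ x * B0 := by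
      rw [hid]
      have h4 : 2 * q0 * ((s1 + η) * x) ≤ 2 * q0 * x' :=
        mul_le_mul_of_nonneg_left hs1 (by linarith)
      linarith [hrem'.1]
    exact le_of_mul_le_mul_left h3 c1
  have hupp : B0 ≤ 2 * s2 * q0 := by
    have h3 : (x : ℝ) * B0 ≤ x * (2 * s2 * q0) := by
      rw [hid]
      have h4 : 2 * q0 * x' ≤ 2 * q0 * ((s2 - η) * x) :=
        mul_le_mul_of_nonneg_left hs2.le (by linarith)
      linarith [hrem'.2]
    exact le_of_mul_le_mul_left h3 c1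
  have hBd : (d : ℝ) + 1 ≤ B0 :=
    (hn2.trans (mul_le_mul_of_nonneg_left hqn (by linarith))).trans hlow
  have hB0p : 0 < B0 := by
    have : (0 : ℝ) ≤ d := Nat.cast_nonneg d
    linarith
  have hqq : 0 < Q.q (shv (-h) (x', y')) := by
    have h5 := B_sq Q (shv (-h) (x, y)) (shv (-h) (x', y'))
    rw [hws, hQ.disc] at h5
    have h6 : B0 ^ 2 - 4 * q0 * (Q.q (shv (-h) (x', y')) : ℝ) = d := by
      have h7 : (((Q.B (shv (-h) (x, y)) (shv (-h) (x', y'))) ^ 2 -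
          4 * Q.q (shv (-h) (x, y)) * Q.q (shv (-h) (x', y')) : ℤ) : ℝ) = ((d : ℤ) : ℝ) := by
        rw [h5]; push_cast; ring
      push_cast at h7
      exact h7
    have h8 : (0 : ℝ) < 4 * q0 * (Q.q (shv (-h) (x', y')) : ℝ) := by
      have h9 : (0 : ℝ) ≤ d := Nat.cast_nonneg d
      have h10 : ((d : ℝ) + 1) ^ 2 ≤ B0 ^ 2 := pow_le_pow_left₀ (by linarith) hBd 2
      have h11 := sq_nonneg (d : ℝ)
      linarith
    have h9 : (0 : ℝ) < Q.q (shv (-h) (x', y')) :=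
      (mul_pos_iff_of_pos_left (by linarith)).1 h8
    exact_mod_cast h9
  have hBi : 0 < Q.B (shv (-h) (x, y)) (shv (-h) (x', y')) := by
    rw [hB0] at hB0p
    exact_mod_cast hB0p
  have hcn : Cn Q (shv (-h) (x', y')) := Cn.of_pos hQ hsec.1 hqq hBi
  refine ⟨⟨hws, hsec, hcn, ?_, hlow, hupp⟩, ?_⟩
  · have h3 := q_le A (v := (x, y)) hy.le hyx
    simp only at h3
    rw [← hqs, ← hq0] at h3
    have h4 : (|(A.a : ℝ)| + |(A.b : ℝ)| + |(A.c : ℝ)|) * (x : ℝ) ^ 2 ≤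
        (|(A.a : ℝ)| + |(A.b : ℝ)| + |(A.c : ℝ)|) * (2 * (r ^ 2 * n)) :=
      mul_le_mul_of_nonneg_left c5 (by positivity)
    have h5 : (|(A.a : ℝ)| + |(A.b : ℝ)| + |(A.c : ℝ)|) * (2 * (r ^ 2 * n)) =
        (2 * (|(A.a : ℝ)| + |(A.b : ℝ)| + |(A.c : ℝ)|) * r ^ 2) * n := by ring
    have h6 : (2 * (|(A.a : ℝ)| + |(A.b : ℝ)| + |(A.c : ℝ)|) * r ^ 2) * n ≤ 1 * n :=
      mul_le_mul_of_nonneg_right hrS hn'.le
    linarith
  · apply hc
    simp only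
    rw [shv_shv, shv_shv]
    exact hcl

theorem int_pos {t : ℝ} (h0 : 0 < t) (h1 : t < 1) : 0 < ∫ x in t..1, √(1 - x ^ 2) := by
  apply intervalIntegral.intervalIntegral_pos_of_pos_on
  · apply Continuous.intervalIntegrable
    fun_prop
  · intro x hx
    apply Real.sqrt_pos.2
    have := hx.1
    have := hx.2
    nlinarith
  · exact h1

end Low7

open Low7 in
/-- (F4) the lower bound for the number of frames in a class -/
theorem stHlow_of_box (hBox : StBox) : StHlow := by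
  intro d Q hQ T hT K hK γ hγ s1 s2 h1 h12
  obtain ⟨N, γ', h, hN, hNe, hdet, hgcd, hc⟩ := prep K hK γ hγ
  obtain ⟨κ, hκ, -, hB⟩ := hBox N hN hNe
  set L : ℝ := 3 * (2 * |(h : ℝ)| + |(Q.b : ℝ)| +
      (√(d : ℝ) * (1 + Real.exp (2 * T)) / (Real.exp (2 * T) - 1) + 1)) with hL
  obtain ⟨m0, hm0⟩ := exists_nat_ge L
  set m : ℕ := m0 + 2 with hm
  have hm2 : 2 ≤ m := by omega
  have hmL : L ≤ 2 * m := by
    have h3 : (m : ℝ) = m0 + 2 := by rw [hm]; push_cast; ring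
    have h4 : (0 : ℝ) ≤ m0 := Nat.cast_nonneg _
    rw [h3]; linarith
  have hm' : (2 : ℝ) ≤ m := by exact_mod_cast hm2
  set t : ℝ := 1 - 1 / (16 * m) with ht
  have ht0 : 0 < t := by
    have : 1 / (16 * (m : ℝ)) ≤ 1 / 32 :=
      one_div_le_one_div_of_le (by norm_num) (by linarith)
    rw [ht]; linarith
  have ht1 : t < 1 := by
    have : 0 < 1 / (16 * (m : ℝ)) := by positivity
    rw [ht]; linarith
  set S : ℝ := |((R7.shQ Q h).a : ℝ)| + |((R7.shQ Q h).b : ℝ)| + |((R7.shQ Q h).c : ℝ)| with hS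
  have hS0 : 0 ≤ S := by positivity
  set r : ℝ := 1 / (2 * S + 2) with hr
  have hr0 : 0 < r := by positivity
  have hrS : 2 * S * r ^ 2 ≤ 1 := by
    rw [hr, div_pow, one_pow, mul_one_div, div_le_one (by positivity)]
    nlinarith
  set η : ℝ := (s2 - s1) / 3 with hη
  have hη0 : 0 < η := by rw [hη]; linarith
  have hlt : s1 + η < s2 - η := by rw [hη]; linarith
  obtain ⟨hfin, hlim⟩ := hB (QE m) (QE_pos hm2) γ' hdet hgcd t r (s1 + η) (s2 - η) ht0 ht1 hr0 hlt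
  set Λ : ℝ := κ / (N : ℝ) ^ 3 * (s2 - η - (s1 + η)) * (4 * r ^ 2 / √((QE m).D : ℝ)) *
    ∫ x in t..1, √(1 - x ^ 2) with hΛ
  have hΛ0 : 0 < Λ := by
    have h3 := int_pos ht0 ht1
    have h4 : (0 : ℝ) < √((QE m).D : ℝ) := Real.sqrt_pos.2 (by exact_mod_cast (QE_pos hm2).2)
    have h5 : (0 : ℝ) < N := by exact_mod_cast hN
    have h6 : 0 < s2 - η - (s1 + η) := by linarith
    rw [hΛ]
    positivity
  have ha0 : (0 : ℝ) < Q.a := by exact_mod_cast hQ.apos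
  refine ⟨Λ / 2, by positivity, ?_⟩
  have ev1 : ∀ᶠ n : ℕ in atTop, Λ / 2 < ((boxS (QE m) N γ' t r (s1 + η) (s2 - η) n).ncard : ℝ) / n :=
    hlim.eventually_const_lt (by linarith)
  have hk : 0 < 3 * r ^ 2 / (16 * Q.a) := by positivity
  have ev2 : ∀ A B : ℝ, 0 < B → ∀ᶠ n : ℕ in atTop, A ≤ B * n := by
    intro A B hB0
    have := (tendsto_natCast_atTop_atTop (R := ℝ)).const_mul_atTop hB0
    exact this.eventually_ge_atTop A
  filter_upwards [ev1, ev2 (|((R7.shQ Q h).b : ℝ)| + 2 * |((R7.shQ Q h).c : ℝ)|)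
    (2 * η * (3 * r ^ 2 / (16 * Q.a))) (by positivity),
    ev2 ((d : ℝ) + 1) (2 * s1 * (3 * r ^ 2 / (16 * Q.a))) (by positivity),
    eventually_gt_atTop 0] with n e1 e2 e3 e4
  have hn' : (0 : ℝ) < n := by exact_mod_cast e4
  rw [lt_div_iff₀ hn'] at e1
  refine e1.le.trans ?_
  have hF : ({f ∈ HF Q T n s1 s2 | Cls K γ f}).Finite :=
    (HF_fin hQ hT n s1 s2).subset (fun f hf => hf.1)
  have hle : (boxS (QE m) N γ' t r (s1 + η) (s2 - η) n).ncard ≤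
      ({f ∈ HF Q T n s1 s2 | Cls K γ f}).ncard := by
    refine Set.ncard_le_ncard_of_injOn
      (fun g : V × V => (R7.shv (-h) g.1, R7.shv (-h) g.2)) ?_ ?_ hF
    · intro g hg
      refine box_sub hQ hT h1 hc hm2 ht hmL hr0 hrS hη0 e4 ?_ ?_ hg
      · refine e2.trans (le_of_eq ?_)
        ring
      · refine e3.trans (le_of_eq ?_)
        ring
    · intro f _ g _ hfg
      have h3 := Prod.ext_iff.1 hfg
      exact Prod.ext (R7.shv_inj (-h) h3.1) (R7.shv_inj (-h) h3.2)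
  exact_mod_cast hle

/-- (F4), without hypotheses -/
theorem stHlow_7 : StHlow := stHlow_of_box (stBox_79 stRow_79 stTot_7 stRS_90)

end Pool.Agent.Lib.MP_a17b09_nt.HY
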