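import Pool.Agent.Lib.MP_a17b09_nt.HY.Stmts20

/-!
Project HY, F7: lower bound for the number of pairs.
-/

set_option autoImplicit false

open Filter Topology Finset

namespace Pool.Agent.Lib.MP_a17b09_nt.HY

open Pool.Agent.Lib.MP_a17b09_nt.CH

namespace Ol20

/-- every class contributes at most its weight -/
theorem ncard_le {ι : Type} [Fintype ι] (m : ι → ℕ) (w : ι → ℕ) (hw : ∀ i, 0 < w i)
    (h : ∑ i, ((m i : ℂ) / w i) = 1) (i : ι) : m i ≤ w i := by
  have h1 : ∑ i, ((m i : ℝ) / w i) = 1 := by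
    have h2 : ((∑ i, ((m i : ℝ) / w i) : ℝ) : ℂ) = ((1 : ℝ) : ℂ) := by
      push_cast
      exact h
    exact_mod_cast h2
  have h2 : (m i : ℝ) / w i ≤ 1 := by
    rw [← h1]
    exact Finset.single_le_sum (f := fun i => (m i : ℝ) / w i) (fun j _ => by positivity)
      (Finset.mem_univ i)
  have h3 : (0 : ℝ) < w i := by exact_mod_cast hw i
  rw [div_le_one h3] at h2
  exact_mod_cast h2

theorem exists_pos {ι : Type} [Fintype ι] (m : ι → ℕ) (w : ι → ℕ)
    (h : ∑ i, ((m i : ℂ) / w i) = 1) : ∃ i, 0 < m i := by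
  by_contra hc
  push Not at hc
  have h1 : ∀ i, m i = 0 := fun i => by have := hc i; omega
  simp [h1] at h

/-- values of a frame in a class -/
theorem cls_vals {Q : Form} {K : ℕ} {f g : V × V} (h : Cls K ⟨g.1.1, g.2.1, g.1.2, g.2.2⟩ f) :
    (K : ℤ) ∣ Q.B f.1 f.2 - Q.B g.1 g.2 ∧ (K : ℤ) ∣ Q.q f.2 - Q.q g.2 := by
  obtain ⟨h1, h2, h3, h4⟩ := h
  simp only at h1 h2 h3 h4
  rw [← ZMod.intCast_zmod_eq_zero_iff_dvd] at h1 h2 h3 h4
  push_cast at h1 h2 h3 h4
  have e1 : (f.1.1 : ZMod K) = g.1.1 := sub_eq_zero.1 h1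
  have e2 : (f.1.2 : ZMod K) = g.1.2 := sub_eq_zero.1 h2
  have e3 : (f.2.1 : ZMod K) = g.2.1 := sub_eq_zero.1 h3
  have e4 : (f.2.2 : ZMod K) = g.2.2 := sub_eq_zero.1 h4
  constructor
  · rw [← ZMod.intCast_zmod_eq_zero_iff_dvd]
    unfold Form.B
    push_cast
    rw [e1, e2, e3, e4, sub_self]
  · rw [← ZMod.intCast_zmod_eq_zero_iff_dvd]
    unfold Form.q
    push_cast
    rw [e3, e4, sub_self]

/-- the pair of a frame: arithmetic -/
theorem pair_of {Q : Form} {d : ℕ} (hQ : Hyp d Q) {a b c : ℤ} (ha : 0 < a)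
    (hd : b ^ 2 - 4 * a * c = d) {h : ℕ} {T : ℤ} {f : V × V} (hwd : wd f.1 f.2 = 1)
    (h1 : Cn Q f.1) (h2 : Cn Q f.2)
    (hB : 2 * a * h ∣ Q.B f.1 f.2 - (2 * a * T + b))
    (hq : 2 * a * h ∣ Q.q f.2 - a * (a * T ^ 2 + b * T + c)) :
    ∃ t : ℤ, Q.B f.1 f.2 = 2 * a * t + b ∧ (h : ℤ) ∣ t - T ∧ 0 < a * t ^ 2 + b * t + c ∧
      Q.q f.1 ∣ a * t ^ 2 + b * t + c ∧ Q.q f.1 * Q.q f.2 = a * (a * t ^ 2 + b * t + c) := by
  obtain ⟨z, hz⟩ := hB
  obtain ⟨y, hy⟩ := hq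
  refine ⟨T + h * z, by linarith, ⟨z, by ring⟩, ?_⟩
  set t : ℤ := T + h * z with ht
  have hBt : Q.B f.1 f.2 = 2 * a * t + b := by rw [ht]; linarith
  have hkey := Q.key f.1 f.2
  rw [hwd, hQ.disc, hBt] at hkey
  have h5 : Q.q f.1 * Q.q f.2 = a * (a * t ^ 2 + b * t + c) := by
    have : 4 * (Q.q f.1 * Q.q f.2) = 4 * (a * (a * t ^ 2 + b * t + c)) := by
      linear_combination hkey + hd
    linarith
  have hm : Q.q f.2 = a * (a * T ^ 2 + b * T + c + 2 * h * y) := by linarith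
  set m : ℤ := a * T ^ 2 + b * T + c + 2 * h * y with hmd
  have h6 : Q.q f.1 * m = a * t ^ 2 + b * t + c := by
    have h7 : a * (Q.q f.1 * m) = a * (a * t ^ 2 + b * t + c) := by
      rw [← h5, hm]; ring
    exact mul_left_cancel₀ ha.ne' h7
  have hq1 := h1.q_pos hQ
  have hq2 := h2.q_pos hQ
  have hm0 : 0 < m := by
    rw [hm] at hq2
    exact (mul_pos_iff_of_pos_left ha).1 hq2
  refine ⟨?_, ⟨m, h6.symm⟩, h5⟩
  rw [← h6]
  exact mul_pos hq1 hm0

end Ol20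

open Ol20

/-- F7 -/
theorem stHOl_20 (hSys : StHSys) (hLow : StHlow) (hUp : StHup) : StHOl := by
  intro a b c ha d hd hnsq h hh t0 α β hα hαβ
  classical
  obtain ⟨ι, hι, S, w, u, hSd, hu, hw, -, hrep⟩ := hSys d hnsq
  obtain ⟨s, Q0⟩ : ∃ s : ℕ, s = S.d := ⟨_, rfl⟩
  have hHyp : ∀ i, Hyp d (S.Q i) := fun i => hSd ▸ S.hyp i
  have haR : (0 : ℝ) < a := by exact_mod_cast ha
  -- the reference point
  obtain ⟨T, hT⟩ : ∃ T : ℤ, T = t0 + h * (|b| + |c| + 1) := ⟨_, rfl⟩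
  have hh1 : (1 : ℤ) ≤ h := by exact_mod_cast hh
  have hb0 : 0 ≤ |b| := abs_nonneg b
  have hc0 : 0 ≤ |c| := abs_nonneg c
  have hTge : |b| + |c| + 1 ≤ T := by
    have h1 : 1 * (|b| + |c| + 1) ≤ h * (|b| + |c| + 1) :=
      mul_le_mul_of_nonneg_right hh1 (by linarith)
    have h2 : (0 : ℤ) ≤ t0 := Int.natCast_nonneg t0
    linarith
  have hb1 := neg_abs_le b
  have hc1 := neg_abs_le c
  have hfT : 0 < a * T ^ 2 + b * T + c := by
    have hT0 : 0 < T := by linarith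
    have h1 : T * T ≤ a * T ^ 2 := by
      have : 1 * (T ^ 2) ≤ a * T ^ 2 := mul_le_mul_of_nonneg_right (by linarith) (by positivity)
      linarith [sq T]
    have h2 : -|b| * T ≤ b * T := mul_le_mul_of_nonneg_right hb1 hT0.le
    have h3 : T * 1 ≤ T * (T - |b|) := mul_le_mul_of_nonneg_left (by linarith) hT0.le
    linarith
  have hBT : 0 < 2 * a * T + b := by
    have h1 : 1 * T ≤ a * T := mul_le_mul_of_nonneg_right (by linarith) (by linarith)
    linarith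
  obtain ⟨i, hi⟩ := exists_pos _ w (hrep ⟨1, 2 * a * T + b, a * (a * T ^ 2 + b * T + c)⟩
    (by norm_num) hBT (mul_pos ha hfT) (by unfold Form.D; simp only; linear_combination -hd)).2
  obtain ⟨g, hg⟩ := Set.nonempty_of_ncard_ne_zero hi.ne'
  obtain ⟨g1, g2, g3, g4, g5, g6⟩ := hg
  simp only at g4 g5 g6
  have hQ := hHyp i
  -- modulus
  obtain ⟨K, hK⟩ : ∃ K : ℕ, K = 2 * a.toNat * h := ⟨_, rfl⟩
  have hKz : (K : ℤ) = 2 * a * h := by
    rw [hK]; push_cast; rw [Int.toNat_of_nonneg ha.le]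
  have hK0 : 0 < K := by
    have : (0 : ℤ) < K := by rw [hKz]; positivity
    exact_mod_cast this
  -- constants
  obtain ⟨α', hα'⟩ : ∃ α' : ℝ, α' = (2 * α + β) / 3 := ⟨_, rfl⟩
  obtain ⟨β', hβ'⟩ : ∃ β' : ℝ, β' = (α + 2 * β) / 3 := ⟨_, rfl⟩
  have ha1 : α < α' := by rw [hα']; linarith
  have ha2 : α' < β' := by rw [hα', hβ']; linarith
  have ha3 : β' < β := by rw [hβ']; linarith
  have hα'0 : 0 < α' := by linarith
  have hβ'0 : 0 < β' := by linarith
  have hs12 : (a : ℝ) / β' < a / α' := div_lt_div_of_pos_left haR hα'0 ha2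
  obtain ⟨κ, hκ, hev⟩ := hLow d (S.Q i) hQ (per u) (per_pos hu) K hK0
    ⟨g.1.1, g.2.1, g.1.2, g.2.2⟩
    (by
      have : (⟨g.1.1, g.2.1, g.1.2, g.2.2⟩ : Mat).det = 1 := by
        unfold Mat.det
        simp only
        have := g1
        unfold wd at this
        linarith
      rw [this, sub_self]; exact dvd_zero _)
    ((a : ℝ) / β') ((a : ℝ) / α') (by positivity) hs12
  obtain ⟨n0, hn0⟩ := eventually_atTop.1 hev
  obtain ⟨hfin, -⟩ := hUp d (S.Q i) hQ (per u) (per_pos hu)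
  -- the bound of `t`
  obtain ⟨t1, ht1⟩ : ∃ t1 : ℝ, t1 = 3 * β * |(b : ℝ)| / (2 * a * (β - α)) + 1 := ⟨_, rfl⟩
  have hβα : 0 < β - α := by linarith
  have hbR : 0 ≤ |(b : ℝ)| := abs_nonneg _
  have hβ0 : 0 < β := by linarith
  have ht1' : 1 ≤ t1 := by
    rw [ht1]
    have : 0 ≤ 3 * β * |(b : ℝ)| / (2 * a * (β - α)) := by positivity
    linarith
  obtain ⟨n1, hn1⟩ : ∃ n1 : ℝ, n1 = β' * (2 * a * t1 + |(b : ℝ)|) / (2 * a) := ⟨_, rfl⟩
  obtain ⟨C1, hC1⟩ : ∃ C1 : ℕ, C1 = (HF (S.Q i) (per u) n1 ((a : ℝ) / β') ((a : ℝ) / α')).ncard :=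
    ⟨_, rfl⟩
  have hwi : (0 : ℝ) < w i := by exact_mod_cast hw i
  refine ⟨κ * α / (4 * w i), by positivity, ?_⟩
  -- large `N`
  have hE1 : ∀ᶠ N : ℕ in atTop, |(b : ℝ)| / (2 * a) ≤ (1 - α / α') * N := by
    have h1 : 0 < 1 - α / α' := by
      have : α / α' < 1 := (div_lt_one hα'0).2 ha1
      linarith
    filter_upwards [eventually_ge_atTop ⌈|(b : ℝ)| / (2 * a) / (1 - α / α')⌉₊] with N hN
    have h2 := (Nat.ceil_le.1 hN)
    rw [div_le_iff₀ h1] at h2
    linarith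
  have hE2 : ∀ᶠ N : ℕ in atTop, (n0 : ℝ) + 1 ≤ α * N := by
    filter_upwards [eventually_ge_atTop ⌈((n0 : ℝ) + 1) / α⌉₊] with N hN
    have h2 := (Nat.ceil_le.1 hN)
    rw [div_le_iff₀ hα] at h2
    linarith
  have hE3 : ∀ᶠ N : ℕ in atTop, κ + C1 ≤ κ * α / 2 * N := by
    have h1 : 0 < κ * α / 2 := by positivity
    filter_upwards [eventually_ge_atTop ⌈(κ + C1) / (κ * α / 2)⌉₊] with N hN
    have h2 := (Nat.ceil_le.1 hN)
    rw [div_le_iff₀ h1] at h2
    linarith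
  filter_upwards [hE1, hE2, hE3] with N h1 h2 h3
  obtain ⟨n, hn⟩ : ∃ n : ℕ, n = ⌊α * N⌋₊ := ⟨_, rfl⟩
  have hαN : 0 ≤ α * N := by positivity
  have hnle : (n : ℝ) ≤ α * N := by rw [hn]; exact Nat.floor_le hαN
  have hnge : α * N - 1 ≤ n := by
    rw [hn]
    have := Nat.lt_floor_add_one (α * N)
    linarith
  have hnn0 : n0 ≤ n := by
    have : (n0 : ℝ) ≤ n := by linarith
    exact_mod_cast this
  have hcount := hn0 n hnn0
  have hfA : (HF (S.Q i) (per u) n ((a : ℝ) / β') ((a : ℝ) / α')).Finite := hfin _ _ _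
  have hfA' : {f ∈ HF (S.Q i) (per u) n ((a : ℝ) / β') ((a : ℝ) / α') |
    Cls K ⟨g.1.1, g.2.1, g.1.2, g.2.2⟩ f}.Finite := hfA.subset fun f hf => hf.1
  obtain ⟨A, hA⟩ : ∃ A : Finset (V × V), A = hfA'.toFinset := ⟨_, rfl⟩
  have hAcard : ({f ∈ HF (S.Q i) (per u) n ((a : ℝ) / β') ((a : ℝ) / α') |
    Cls K ⟨g.1.1, g.2.1, g.1.2, g.2.2⟩ f}.ncard : ℝ) = (A.card : ℝ) := by
    rw [hA, Set.ncard_eq_toFinset_card _ hfA']
  rw [hAcard] at hcount
  -- the frames of small and of large parameter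
  obtain ⟨tz, htz⟩ : ∃ tz : V × V → ℤ, tz = fun f => ((S.Q i).B f.1 f.2 - b) / (2 * a) :=
    ⟨_, rfl⟩
  have hmemA : ∀ f ∈ A, f ∈ HF (S.Q i) (per u) n ((a : ℝ) / β') ((a : ℝ) / α') ∧
      (S.Q i).B f.1 f.2 = 2 * a * tz f + b ∧ (h : ℤ) ∣ tz f - T ∧
      0 < a * tz f ^ 2 + b * tz f + c ∧ (S.Q i).q f.1 ∣ a * tz f ^ 2 + b * tz f + c ∧
      (S.Q i).q f.1 * (S.Q i).q f.2 = a * (a * tz f ^ 2 + b * tz f + c) := by
    intro f hf
    rw [hA, Set.Finite.mem_toFinset] at hf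
    obtain ⟨hf1, hf2⟩ := hf
    obtain ⟨c1, c2⟩ := cls_vals (Q := S.Q i) hf2
    rw [g5, hKz] at c1
    rw [g6, hKz] at c2
    obtain ⟨t, e1, e2, e3, e4, e5⟩ := pair_of hQ ha hd hf1.1 hf1.2.1.1 hf1.2.2.1 c1 c2
    have e6 : tz f = t := by
      rw [htz]
      simp only
      rw [e1]
      rw [show 2 * a * t + b - b = 2 * a * t by ring]
      exact Int.mul_ediv_cancel_left _ (by positivity)
    rw [e6]
    exact ⟨hf1, e1, e2, e3, e4, e5⟩
  -- real inequalities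
  have hineq : ∀ f ∈ A, ((S.Q i).q f.1 : ℝ) ≤ β' * ((tz f : ℝ) + b / (2 * a)) ∧
      α' * ((tz f : ℝ) + b / (2 * a)) ≤ ((S.Q i).q f.1 : ℝ) := by
    intro f hf
    obtain ⟨hf1, e1, -⟩ := hmemA f hf
    obtain ⟨-, -, -, -, i1, i2⟩ := hf1
    have e2 : ((S.Q i).B f.1 f.2 : ℝ) = 2 * a * tz f + b := by exact_mod_cast e1
    rw [e2] at i1 i2
    constructor
    · have h5 : 2 * ((a : ℝ) / β') * ((S.Q i).q f.1 : ℝ) * β' ≤ (2 * a * tz f + b) * β' :=
        mul_le_mul_of_nonneg_right i1 hβ'0.le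
      have h6 : 2 * ((a : ℝ) / β') * ((S.Q i).q f.1 : ℝ) * β' = 2 * a * ((S.Q i).q f.1 : ℝ) := by
        field_simp
      have h7 : β' * ((tz f : ℝ) + b / (2 * a)) = (2 * a * tz f + b) * β' / (2 * a) := by
        field_simp
      rw [h7, le_div_iff₀ (by positivity)]
      linarith
    · have h5 : (2 * a * tz f + b) * α' ≤ 2 * ((a : ℝ) / α') * ((S.Q i).q f.1 : ℝ) * α' :=
        mul_le_mul_of_nonneg_right i2 hα'0.le
      have h6 : 2 * ((a : ℝ) / α') * ((S.Q i).q f.1 : ℝ) * α' = 2 * a * ((S.Q i).q f.1 : ℝ) := by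
        field_simp
      have h7 : α' * ((tz f : ℝ) + b / (2 * a)) = (2 * a * tz f + b) * α' / (2 * a) := by
        field_simp
      rw [h7, div_le_iff₀ (by positivity)]
      linarith
  -- small parameters
  have hsmall : ((A.filter (fun f => ¬ t1 ≤ (tz f : ℝ))).card : ℝ) ≤ C1 := by
    rw [hC1]
    have h5 : ((A.filter (fun f => ¬ t1 ≤ (tz f : ℝ))) : Set (V × V)) ⊆
        HF (S.Q i) (per u) n1 ((a : ℝ) / β') ((a : ℝ) / α') := by
      intro f hf
      rw [Finset.mem_coe, Finset.mem_filter] at hf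
      obtain ⟨hf1, hf2⟩ := hf
      obtain ⟨⟨j1, j2, j3, -, j5, j6⟩, -⟩ := hmemA f hf1
      refine ⟨j1, j2, j3, ?_, j5, j6⟩
      refine (hineq f hf1).1.trans ?_
      rw [hn1]
      push Not at hf2
      have h6 : (b : ℝ) / (2 * a) ≤ |(b : ℝ)| / (2 * a) :=
        div_le_div_of_nonneg_right (le_abs_self _) (by positivity)
      have h7 : β' * (2 * a * t1 + |(b : ℝ)|) / (2 * a) = β' * (t1 + |(b : ℝ)| / (2 * a)) := by
        field_simp
      rw [h7]
      exact mul_le_mul_of_nonneg_left (by linarith) hβ'0.le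
    have h6 := Set.ncard_le_ncard h5 (hfin _ _ _)
    rw [Set.ncard_coe_finset] at h6
    exact_mod_cast h6
  -- large parameters
  obtain ⟨P, hP⟩ : ∃ P : Finset (Σ _ : ℕ, ℕ), P =
    ((Finset.Icc 1 N).filter (fun t => t ≡ t0 [MOD h])).sigma (fun t => nearG a b c α β t) :=
    ⟨_, rfl⟩
  have hPcard : P.card = ∑ t ∈ (Finset.Icc 1 N).filter (fun t => t ≡ t0 [MOD h]),
      (nearG a b c α β t).card := by rw [hP, Finset.card_sigma]
  have hlarge : (A.filter (fun f => t1 ≤ (tz f : ℝ))).card ≤ w i * P.card := by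
    apply Finset.card_le_mul_card_image_of_maps_to
      (f := fun f => (⟨(tz f).toNat, ((S.Q i).q f.1).toNat⟩ : Σ _ : ℕ, ℕ))
    · intro f hf
      rw [Finset.mem_filter] at hf
      obtain ⟨hf1, hf2⟩ := hf
      obtain ⟨hfH, e1, e2, e3, e4, e5⟩ := hmemA f hf1
      obtain ⟨i1, i2⟩ := hineq f hf1
      have hq1 : 0 < (S.Q i).q f.1 := hfH.2.1.1.q_pos hQ
      have ht0' : (1 : ℝ) ≤ tz f := ht1'.trans hf2
      have htz1 : 1 ≤ tz f := by exact_mod_cast ht0'
      have htR : (((tz f).toNat : ℕ) : ℝ) = (tz f : ℝ) := by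
        have : (((tz f).toNat : ℕ) : ℤ) = tz f := Int.toNat_of_nonneg (by omega)
        exact_mod_cast this
      have htZ : (((tz f).toNat : ℕ) : ℤ) = tz f := Int.toNat_of_nonneg (by omega)
      have hqR : ((((S.Q i).q f.1).toNat : ℕ) : ℝ) = ((S.Q i).q f.1 : ℝ) := by
        have : ((((S.Q i).q f.1).toNat : ℕ) : ℤ) = (S.Q i).q f.1 := Int.toNat_of_nonneg hq1.le
        exact_mod_cast this
      have hqZ : ((((S.Q i).q f.1).toNat : ℕ) : ℤ) = (S.Q i).q f.1 := Int.toNat_of_nonneg hq1.le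
      rw [hP, Finset.mem_sigma, Finset.mem_filter, Finset.mem_Icc]
      simp only
      have hkey1 : 3 * β * |(b : ℝ)| / (2 * a * (β - α)) ≤ tz f := by
        have := hf2
        rw [ht1] at this
        linarith
      have hkey : β * |(b : ℝ)| / (2 * a) ≤ (β - α) / 3 * tz f := by
        rw [div_le_iff₀ (by positivity)] at hkey1
        rw [div_le_iff₀ (by positivity)]
        linarith
      have hb3 : |(b : ℝ) / (2 * a)| = |(b : ℝ)| / (2 * a) := by
        rw [abs_div, abs_of_pos (by positivity : (0 : ℝ) < 2 * a)]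
      have hb4 := abs_le.1 (le_refl |(b : ℝ) / (2 * a)|)
      rw [hb3] at hb4
      have hbb : 0 ≤ |(b : ℝ)| / (2 * a) := by positivity
      have hkey' : β * (|(b : ℝ)| / (2 * a)) ≤ (β - α) / 3 * tz f := by
        rw [← mul_div_assoc]; exact hkey
      refine ⟨⟨⟨by omega, ?_⟩, ?_⟩, ?_⟩
      · have h6 : (tz f : ℝ) ≤ N := by
          have h7 : α' * ((tz f : ℝ) + b / (2 * a)) ≤ α * N := by
            refine i2.trans (le_trans ?_ hnle)
            exact hfH.2.2.2.1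
          have h8 : (tz f : ℝ) + b / (2 * a) ≤ α / α' * N := by
            rw [div_mul_eq_mul_div, le_div_iff₀ hα'0]
            linarith
          linarith [hb4.1]
        have h7 : (((tz f).toNat : ℕ) : ℝ) ≤ N := by rw [htR]; exact h6
        exact_mod_cast h7
      · have h6 : (h : ℤ) ∣ ((tz f).toNat : ℤ) - t0 := by
          rw [htZ]
          have h7 : tz f - t0 = (tz f - T) + h * (|b| + |c| + 1) := by rw [hT]; ring
          rw [h7]
          exact dvd_add e2 (dvd_mul_right _ _)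
        exact ((Nat.modEq_iff_dvd).2 h6).symm
      · unfold nearG
        rw [Finset.mem_filter, Nat.mem_divisors]
        have hfv : fv a b c (tz f).toNat = a * tz f ^ 2 + b * tz f + c := by
          unfold fv; rw [htZ]
        refine ⟨⟨?_, ?_⟩, ?_, ?_⟩
        · rw [← Int.natCast_dvd_natCast, hqZ, Int.dvd_natAbs, hfv]
          exact e4
        · rw [hfv]
          exact Int.natAbs_ne_zero.2 e3.ne'
        · rw [hqR, htR]
          refine le_trans ?_ i2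
          have h6 : α' * (|(b : ℝ)| / (2 * a)) ≤ β * (|(b : ℝ)| / (2 * a)) :=
            mul_le_mul_of_nonneg_right (by linarith) hbb
          have h7 : α' * (-(|(b : ℝ)| / (2 * a))) ≤ α' * ((b : ℝ) / (2 * a)) :=
            mul_le_mul_of_nonneg_left hb4.1 hα'0.le
          have h8 : (α' - α) * tz f = (β - α) / 3 * tz f := by rw [hα']; ring
          linarith
        · rw [hqR, htR]
          refine i1.trans ?_
          have h6 : β' * (|(b : ℝ)| / (2 * a)) ≤ β * (|(b : ℝ)| / (2 * a)) :=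
            mul_le_mul_of_nonneg_right (by linarith) hbb
          have h7 : β' * ((b : ℝ) / (2 * a)) ≤ β' * (|(b : ℝ)| / (2 * a)) :=
            mul_le_mul_of_nonneg_left hb4.2 hβ'0.le
          have h8 : (β - β') * tz f = (β - α) / 3 * tz f := by rw [hβ']; ring
          linarith
    · rintro ⟨t, e⟩ hte
      -- the fibre
      rcases Finset.eq_empty_or_nonempty ((A.filter (fun f => t1 ≤ (tz f : ℝ))).filter
        (fun f => (⟨(tz f).toNat, ((S.Q i).q f.1).toNat⟩ : Σ _ : ℕ, ℕ) = ⟨t, e⟩)) with h0 | ⟨f0, hf0⟩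
      · rw [h0]; simp
      · have hprop : ∀ f ∈ (A.filter (fun f => t1 ≤ (tz f : ℝ))).filter
            (fun f => (⟨(tz f).toNat, ((S.Q i).q f.1).toNat⟩ : Σ _ : ℕ, ℕ) = ⟨t, e⟩),
            f ∈ A ∧ tz f = t ∧ (S.Q i).q f.1 = e := by
          intro f hf
          rw [Finset.mem_filter, Finset.mem_filter] at hf
          obtain ⟨⟨hf1, hf2⟩, hf3⟩ := hf
          rw [Sigma.mk.injEq] at hf3
          obtain ⟨hf4, hf5⟩ := hf3
          have ht0' : (1 : ℝ) ≤ tz f := ht1'.trans hf2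
          have htz1 : 1 ≤ tz f := by exact_mod_cast ht0'
          have hq1 : 0 < (S.Q i).q f.1 := (hmemA f hf1).1.2.1.1.q_pos hQ
          refine ⟨hf1, ?_, ?_⟩
          · rw [← hf4, Int.toNat_of_nonneg (by omega)]
          · rw [← eq_of_heq hf5, Int.toNat_of_nonneg hq1.le]
        obtain ⟨f1, f2, f3⟩ := hprop f0 hf0
        obtain ⟨fH, e1, e2, e3, e4, e5⟩ := hmemA f0 f1
        have hq1 : 0 < (S.Q i).q f0.1 := fH.2.1.1.q_pos hQ
        have hq2 : 0 < (S.Q i).q f0.2 := fH.2.2.1.q_pos hQ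
        have hBp : 0 < (S.Q i).B f0.1 f0.2 := fH.2.1.1.B_pos hQ fH.2.2.1
        have hD : (⟨e, 2 * a * t + b, (S.Q i).q f0.2⟩ : Form).D = -(d : ℤ) := by
          unfold Form.D
          simp only
          rw [← f3, ← f2, ← e1]
          have := (S.Q i).key f0.1 f0.2
          rw [fH.1, hQ.disc] at this
          linarith
        have hle := ncard_le _ w hw (hrep ⟨e, 2 * a * t + b, (S.Q i).q f0.2⟩
          (by simp only; rw [← f3]; exact hq1) (by simp only; rw [← f2, ← e1]; exact hBp)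
          hq2 hD).2 i
        have hfs := (hrep ⟨e, 2 * a * t + b, (S.Q i).q f0.2⟩
          (by simp only; rw [← f3]; exact hq1) (by simp only; rw [← f2, ← e1]; exact hBp)
          hq2 hD).1 i
        refine le_trans ?_ hle
        rw [← Set.ncard_coe_finset]
        apply Set.ncard_le_ncard _ hfs
        intro f hf
        rw [Finset.mem_coe] at hf
        obtain ⟨k1, k2, k3⟩ := hprop f hf
        obtain ⟨kH, l1, l2, l3, l4, l5⟩ := hmemA f k1
        refine ⟨kH.1, kH.2.1, kH.2.2.1, k3, ?_, ?_⟩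
        · rw [l1, k2]
        · have h6 : (S.Q i).q f.1 * (S.Q i).q f.2 = (S.Q i).q f.1 * (S.Q i).q f0.2 := by
            rw [l5, k2, k3, ← f3, e5, f2]
          have hq3 : 0 < (S.Q i).q f.1 := kH.2.1.1.q_pos hQ
          exact mul_left_cancel₀ hq3.ne' h6
  -- conclusion
  have hsplit : (A.card : ℝ) ≤ w i * (P.card : ℝ) + C1 := by
    have h5 := Finset.card_filter_add_card_filter_not (s := A) (fun f => t1 ≤ (tz f : ℝ))
    have h6 : (A.card : ℝ) = ((A.filter (fun f => t1 ≤ (tz f : ℝ))).card : ℝ) +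
        ((A.filter (fun f => ¬ t1 ≤ (tz f : ℝ))).card : ℝ) := by
      rw [← h5]; push_cast; rfl
    rw [h6]
    have h7 : ((A.filter (fun f => t1 ≤ (tz f : ℝ))).card : ℝ) ≤ w i * (P.card : ℝ) := by
      exact_mod_cast hlarge
    linarith
  rw [← hPcard]
  have h9 : κ * (α * N - 1) ≤ κ * n := mul_le_mul_of_nonneg_left hnge hκ.le
  have h10 : κ * α / (4 * w i) * N * w i = κ * α / 4 * N := by field_simp
  have h11 : 0 ≤ κ * α * N := by positivity
  have h12 : κ * α / (4 * w i) * N * w i ≤ (P.card : ℝ) * w i := by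
    rw [h10]
    linarith
  exact le_of_mul_le_mul_right h12 hwi

end Pool.Agent.Lib.MP_a17b09_nt.HY
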