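import Pool.Agent.Lib.MP_a17b09_nt.HY.Stmts20
import Pool.Agent.Lib.MP_a17b09_nt.CH.One26
import Pool.Agent.Lib.MP_a17b09_nt.CH.E0_17

/-!
Project HY, E8: all primitive classes modulo `N` have the same mean.
-/

set_option autoImplicit false

open Filter Topology Finset

namespace Pool.Agent.Lib.MP_a17b09_nt.HY

open Pool.Agent.Lib.MP_a17b09_nt.CH

namespace One73

/-! ### Moebius inversion and translations -/

/-- the congruence -/
def Cg (N : ℕ) (a v : V) : Prop := (N : ℤ) ∣ v.1 - a.1 ∧ (N : ℤ) ∣ v.2 - a.2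

/-- divisibility -/
def Dv (e : ℕ) (v : V) : Prop := (e : ℤ) ∣ v.1 ∧ (e : ℤ) ∣ v.2

open Classical in
theorem mob (v : V) (hv : v ≠ 0) (M : ℕ) (hM : Int.gcd v.1 v.2 ≤ M) :
    ∑ e ∈ Finset.Icc 1 M, (if Dv e v then (ArithmeticFunction.moebius e : ℝ) else 0) =
      if Prim v then 1 else 0 := by
  have hg : 0 < Int.gcd v.1 v.2 := by
    rw [Nat.pos_iff_ne_zero]
    intro h
    rw [Int.gcd_eq_zero_iff] at h
    exact hv (Prod.ext h.1 h.2)
  rw [← Finset.sum_filter]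
  have h1 : (Finset.Icc 1 M).filter (fun e => Dv e v) = (Int.gcd v.1 v.2).divisors := by
    ext e
    rw [Finset.mem_filter, Finset.mem_Icc, Nat.mem_divisors]
    constructor
    · rintro ⟨-, h1, h2⟩
      exact ⟨Int.natCast_dvd_natCast.1 (Int.dvd_coe_gcd h1 h2), hg.ne'⟩
    · rintro ⟨h1, -⟩
      have h2 : (e : ℤ) ∣ (Int.gcd v.1 v.2 : ℤ) := Int.natCast_dvd_natCast.2 h1
      exact ⟨⟨Nat.pos_of_dvd_of_pos h1 hg, (Nat.le_of_dvd hg h1).trans hM⟩,
        h2.trans (Int.gcd_dvd_left _ _), h2.trans (Int.gcd_dvd_right _ _)⟩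
  rw [h1]
  have h2 : ∑ e ∈ (Int.gcd v.1 v.2).divisors, ArithmeticFunction.moebius e =
      if Int.gcd v.1 v.2 = 1 then 1 else 0 := by
    rw [← ArithmeticFunction.coe_mul_zeta_apply, ArithmeticFunction.moebius_mul_coe_zeta,
      ArithmeticFunction.one_apply]
  have h3 : (∑ e ∈ (Int.gcd v.1 v.2).divisors, (ArithmeticFunction.moebius e : ℝ)) =
      ((∑ e ∈ (Int.gcd v.1 v.2).divisors, ArithmeticFunction.moebius e : ℤ) : ℝ) := by
    push_cast; rfl
  rw [h3, h2]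
  unfold Prim
  split_ifs <;> simp

open Classical in
/-- the part divisible by `e` -/
noncomputable def Te (K : V → ℝ) (S : Finset V) (N : ℕ) (a : V) (e : ℕ) : ℝ :=
  ∑ v ∈ S, if Dv e v ∧ Cg N a v then K v else 0

open Classical in
theorem mob_sum (K : V → ℝ) (S : Finset V) (h0 : K 0 = 0) (M : ℕ)
    (hM : ∀ v, K v ≠ 0 → Int.gcd v.1 v.2 ≤ M) (N : ℕ) (a : V) :
    ∑ v ∈ S, (if Prim v ∧ Cg N a v then K v else 0) =
      ∑ e ∈ Finset.Icc 1 M, (ArithmeticFunction.moebius e : ℝ) * Te K S N a e := by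
  have h1 : ∀ e ∈ Finset.Icc 1 M, (ArithmeticFunction.moebius e : ℝ) * Te K S N a e =
      ∑ v ∈ S, (if Cg N a v then K v else 0) *
        (if Dv e v then (ArithmeticFunction.moebius e : ℝ) else 0) := by
    intro e _
    unfold Te
    rw [Finset.mul_sum]
    refine Finset.sum_congr rfl fun v _ => ?_
    by_cases h1 : Dv e v <;> by_cases h2 : Cg N a v <;> simp [h1, h2, mul_comm]
  rw [Finset.sum_congr rfl h1, Finset.sum_comm]
  refine Finset.sum_congr rfl fun v _ => ?_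
  rw [← Finset.mul_sum]
  by_cases hK : K v = 0
  · simp [hK]
  · have hv : v ≠ 0 := by
      rintro rfl
      exact hK h0
    rw [mob v hv M (hM v hK)]
    by_cases h1 : Prim v <;> by_cases h2 : Cg N a v <;> simp [h1, h2]

/-- the translations -/
theorem shift_ex (N : ℕ) (a b : V) (e : ℕ) (he : Nat.Coprime e N) :
    ∃ s : V, Dv e s ∧ (N : ℤ) ∣ s.1 - (b.1 - a.1) ∧ (N : ℤ) ∣ s.2 - (b.2 - a.2) := by
  have h1 : (1 : ℤ) = e * Int.gcdA e N + N * Int.gcdB e N := by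
    have h2 := Int.gcd_eq_gcd_ab (e : ℤ) (N : ℤ)
    rw [← h2]
    have h3 : Int.gcd (e : ℤ) (N : ℤ) = 1 := by
      rw [Int.gcd_natCast_natCast]; exact he
    rw [h3]; rfl
  refine ⟨(e * Int.gcdA e N * (b.1 - a.1), e * Int.gcdA e N * (b.2 - a.2)), ⟨?_, ?_⟩, ?_, ?_⟩
  · exact ⟨Int.gcdA e N * (b.1 - a.1), by ring⟩
  · exact ⟨Int.gcdA e N * (b.2 - a.2), by ring⟩
  · exact ⟨-(Int.gcdB e N * (b.1 - a.1)), by linear_combination (-(b.1 - a.1)) * h1⟩
  · exact ⟨-(Int.gcdB e N * (b.2 - a.2)), by linear_combination (-(b.2 - a.2)) * h1⟩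

/-- the translation for `e`, zero if there is none -/
theorem shift_fun (N : ℕ) (a b : V) : ∃ s : ℕ → V, ∀ e : ℕ, Nat.Coprime e N →
    Dv e (s e) ∧ (N : ℤ) ∣ (s e).1 - (b.1 - a.1) ∧ (N : ℤ) ∣ (s e).2 - (b.2 - a.2) := by
  classical
  refine ⟨fun e => if h : Nat.Coprime e N then (shift_ex N a b e h).choose else 0, fun e he => ?_⟩
  simp only [dif_pos he]
  exact (shift_ex N a b e he).choose_spec

theorem summ {f : V → ℝ} {S : Finset V} (h : ∀ v, f v ≠ 0 → v ∈ S) : Summable f :=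
  summable_of_ne_finset_zero (s := S) fun v hv => by
    by_contra h1
    exact hv (h v h1)

theorem summ_shift {K : V → ℝ} {S : Finset V} (h : ∀ v, K v ≠ 0 → v ∈ S) (s : V) :
    Summable fun v => K (v + s) :=
  (Equiv.addRight s).summable_iff.2 (summ h)

open Classical in
theorem Te_diff (K : V → ℝ) (S : Finset V) (hS : ∀ v, K v ≠ 0 → v ∈ S) (N : ℕ) (a b : V)
    (e : ℕ) (s : V) (hs : Dv e s ∧ (N : ℤ) ∣ s.1 - (b.1 - a.1) ∧ (N : ℤ) ∣ s.2 - (b.2 - a.2)) :
    |Te K S N a e - Te K S N b e| ≤ ∑' v, |K v - K (v + s)| := by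
  obtain ⟨⟨hs1, hs2⟩, hs3, hs4⟩ := hs
  have e1 : ∀ c : V, Te K S N c e = ∑' v, if Dv e v ∧ Cg N c v then K v else 0 := by
    intro c
    unfold Te
    rw [tsum_eq_sum]
    intro v hv
    by_cases h : Dv e v ∧ Cg N c v
    · rw [if_pos h]
      by_contra h1
      exact hv (hS v h1)
    · rw [if_neg h]
  have e2 : Te K S N b e = ∑' v, if Dv e v ∧ Cg N a v then K (v + s) else 0 := by
    rw [e1 b, ← (Equiv.addRight s).tsum_eq]
    refine tsum_congr fun v => ?_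
    have h1 : (Dv e (v + s) ∧ Cg N b (v + s)) ↔ (Dv e v ∧ Cg N a v) := by
      unfold Dv Cg
      simp only [Prod.fst_add, Prod.snd_add]
      have g1 : (e : ℤ) ∣ v.1 + s.1 ↔ (e : ℤ) ∣ v.1 := (Int.dvd_add_left hs1)
      have g2 : (e : ℤ) ∣ v.2 + s.2 ↔ (e : ℤ) ∣ v.2 := (Int.dvd_add_left hs2)
      have g3 : (N : ℤ) ∣ v.1 + s.1 - b.1 ↔ (N : ℤ) ∣ v.1 - a.1 := by
        have : v.1 + s.1 - b.1 = (v.1 - a.1) + (s.1 - (b.1 - a.1)) := by ring
        rw [this]
        exact Int.dvd_add_left hs3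
      have g4 : (N : ℤ) ∣ v.2 + s.2 - b.2 ↔ (N : ℤ) ∣ v.2 - a.2 := by
        have : v.2 + s.2 - b.2 = (v.2 - a.2) + (s.2 - (b.2 - a.2)) := by ring
        rw [this]
        exact Int.dvd_add_left hs4
      rw [g1, g2, g3, g4]
    show (if Dv e (v + s) ∧ Cg N b (v + s) then K (v + s) else 0) = _
    by_cases h : Dv e v ∧ Cg N a v
    · rw [if_pos h, if_pos (h1.2 h)]
    · rw [if_neg h, if_neg (fun h2 => h (h1.1 h2))]
  have s1 : Summable fun v => if Dv e v ∧ Cg N a v then K v else 0 := by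
    refine summ (S := S) fun v h => hS v fun h1 => h ?_
    rw [h1, ite_self]
  have s3 : Summable fun v => K (v + s) := summ_shift hS s
  have s2 : Summable fun v => if Dv e v ∧ Cg N a v then K (v + s) else 0 := by
    refine Summable.of_norm_bounded s3.norm fun v => ?_
    by_cases h : Dv e v ∧ Cg N a v
    · rw [if_pos h]
    · rw [if_neg h, norm_zero]
      exact norm_nonneg _
  have s4 : Summable fun v => |K v - K (v + s)| := ((summ hS).sub s3).abs
  rw [e1 a, e2, ← s1.tsum_sub s2]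
  have h5 : ∀ v, |(if Dv e v ∧ Cg N a v then K v else 0) -
      (if Dv e v ∧ Cg N a v then K (v + s) else 0)| ≤ |K v - K (v + s)| := by
    intro v
    by_cases h : Dv e v ∧ Cg N a v
    · rw [if_pos h, if_pos h]
    · rw [if_neg h, if_neg h, sub_zero, abs_zero]
      exact abs_nonneg _
  have s5 := Summable.of_nonneg_of_le (fun v => abs_nonneg _) h5 s4
  rw [← Real.norm_eq_abs]
  have s6 : Summable fun v => ‖(if Dv e v ∧ Cg N a v then K v else 0) -
      (if Dv e v ∧ Cg N a v then K (v + s) else 0)‖ := by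
    simpa only [Real.norm_eq_abs] using s5
  have h6 : ∀ v, ‖(if Dv e v ∧ Cg N a v then K v else 0) -
      (if Dv e v ∧ Cg N a v then K (v + s) else 0)‖ ≤ |K v - K (v + s)| := by
    intro v
    rw [Real.norm_eq_abs]
    exact h5 v
  exact (norm_tsum_le_tsum_norm s6).trans (s6.tsum_le_tsum h6 s4)

theorem Te_zero (K : V → ℝ) (S : Finset V) (N : ℕ) (a : V) (ha : Prim a) (e : ℕ)
    (he : ¬ Nat.Coprime e N) : Te K S N a e = 0 := by
  classical
  unfold Te
  refine Finset.sum_eq_zero fun v _ => ?_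
  rw [if_neg]
  rintro ⟨⟨h1, h2⟩, h3, h4⟩
  apply he
  have g1 : (Nat.gcd e N : ℤ) ∣ e := Int.natCast_dvd_natCast.2 (Nat.gcd_dvd_left e N)
  have g2 : (Nat.gcd e N : ℤ) ∣ N := Int.natCast_dvd_natCast.2 (Nat.gcd_dvd_right e N)
  have g3 : (Nat.gcd e N : ℤ) ∣ a.1 := by
    have : a.1 = v.1 - (v.1 - a.1) := by ring
    rw [this]
    exact dvd_sub (g1.trans h1) (g2.trans h3)
  have g4 : (Nat.gcd e N : ℤ) ∣ a.2 := by
    have : a.2 = v.2 - (v.2 - a.2) := by ring
    rw [this]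
    exact dvd_sub (g1.trans h2) (g2.trans h4)
  have g5 : (Nat.gcd e N : ℤ) ∣ (Int.gcd a.1 a.2 : ℤ) := Int.dvd_coe_gcd g3 g4
  unfold Prim at ha
  rw [ha] at g5
  exact Nat.dvd_one.1 (Int.natCast_dvd_natCast.1 g5)

open Classical in
theorem Te_abs (K : V → ℝ) (S : Finset V) (N : ℕ) (a : V) (e : ℕ) :
    |Te K S N a e| ≤ ∑ v ∈ S, if Dv e v then |K v| else 0 := by
  unfold Te
  refine (Finset.abs_sum_le_sum_abs _ _).trans (Finset.sum_le_sum fun v _ => ?_)
  by_cases h1 : Dv e v <;> by_cases h2 : Cg N a v <;> simp [h1, h2]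

open Classical in
/-- the comparison of two classes -/
theorem cmp (N : ℕ) (a b : V) (ha : Prim a) (hb : Prim b) : ∃ s : ℕ → V,
    ∀ (K : V → ℝ) (S : Finset V) (M E : ℕ), (∀ v, K v ≠ 0 → v ∈ S) → K 0 = 0 →
    (∀ v, K v ≠ 0 → Int.gcd v.1 v.2 ≤ M) →
    |∑ v ∈ S, (if Prim v ∧ Cg N a v then K v else 0) -
      ∑ v ∈ S, (if Prim v ∧ Cg N b v then K v else 0)| ≤
      ∑ e ∈ Finset.Icc 1 E, ∑' v, |K v - K (v + s e)| +
      2 * ∑ e ∈ Finset.Ioc E M, ∑ v ∈ S, if Dv e v then |K v| else 0 := by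
  obtain ⟨s, hs⟩ := shift_fun N a b
  refine ⟨s, fun K S M E hS h0 hM => ?_⟩
  rw [mob_sum K S h0 M hM N a, mob_sum K S h0 M hM N b, ← Finset.sum_sub_distrib]
  have hmu : ∀ e : ℕ, |(ArithmeticFunction.moebius e : ℝ)| ≤ 1 := by
    intro e
    have := ArithmeticFunction.abs_moebius_le_one (n := e)
    exact_mod_cast this
  have hpos : ∀ e, 0 ≤ ∑' v, |K v - K (v + s e)| := fun e => tsum_nonneg fun v => abs_nonneg _
  have hpos' : ∀ e, 0 ≤ ∑ v ∈ S, if Dv e v then |K v| else 0 := fun e =>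
    Finset.sum_nonneg fun v _ => by split_ifs <;> simp
  have hterm : ∀ e : ℕ, |(ArithmeticFunction.moebius e : ℝ) * Te K S N a e -
      (ArithmeticFunction.moebius e : ℝ) * Te K S N b e| ≤
      if e ≤ E then ∑' v, |K v - K (v + s e)| else 2 * ∑ v ∈ S, if Dv e v then |K v| else 0 := by
    intro e
    have h1 : |(ArithmeticFunction.moebius e : ℝ) * Te K S N a e -
      (ArithmeticFunction.moebius e : ℝ) * Te K S N b e| ≤ |Te K S N a e - Te K S N b e| := by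
      rw [← mul_sub, abs_mul]
      exact mul_le_of_le_one_left (abs_nonneg _) (hmu e)
    refine h1.trans ?_
    by_cases hE : e ≤ E
    · rw [if_pos hE]
      by_cases hc : Nat.Coprime e N
      · exact Te_diff K S hS N a b e (s e) (hs e hc)
      · rw [Te_zero K S N a ha e hc, Te_zero K S N b hb e hc, sub_zero, abs_zero]
        exact hpos e
    · rw [if_neg hE]
      have h2 := abs_sub (Te K S N a e) (Te K S N b e)
      have h3 := Te_abs K S N a e
      have h4 := Te_abs K S N b e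
      linarith
  refine (Finset.abs_sum_le_sum_abs _ _).trans ((Finset.sum_le_sum fun e _ => hterm e).trans ?_)
  rw [Finset.sum_ite]
  have h1 : ∑ e ∈ (Finset.Icc 1 M).filter (fun e => e ≤ E), ∑' v, |K v - K (v + s e)| ≤
      ∑ e ∈ Finset.Icc 1 E, ∑' v, |K v - K (v + s e)| := by
    refine Finset.sum_le_sum_of_subset_of_nonneg ?_ fun e _ _ => hpos e
    intro e he
    rw [Finset.mem_filter, Finset.mem_Icc] at he
    rw [Finset.mem_Icc]
    exact ⟨he.1.1, he.2⟩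
  have h2 : ∑ e ∈ (Finset.Icc 1 M).filter (fun e => ¬ e ≤ E),
      2 * ∑ v ∈ S, (if Dv e v then |K v| else 0) ≤
      2 * ∑ e ∈ Finset.Ioc E M, ∑ v ∈ S, if Dv e v then |K v| else 0 := by
    rw [Finset.mul_sum]
    refine Finset.sum_le_sum_of_subset_of_nonneg ?_ fun e _ _ => mul_nonneg two_pos.le (hpos' e)
    intro e he
    rw [Finset.mem_filter, Finset.mem_Icc] at he
    rw [Finset.mem_Ioc]
    exact ⟨by omega, he.1.2⟩
  exact add_le_add h1 h2


/-! ### elementary inequalities -/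

theorem exp_lip {a b M : ℝ} (ha : a ≤ M) (hb : b ≤ M) :
    |Real.exp a - Real.exp b| ≤ Real.exp M * |a - b| := by
  have key : ∀ a b : ℝ, a ≤ M → b ≤ a → Real.exp a - Real.exp b ≤ Real.exp M * (a - b) := by
    intro a b ha hab
    have h1 := Real.add_one_le_exp (b - a)
    have h2 : Real.exp b = Real.exp a * Real.exp (b - a) := by
      rw [← Real.exp_add]; congr 1; ring
    have h3 : Real.exp a ≤ Real.exp M := Real.exp_le_exp.2 ha
    have h4 := Real.exp_pos a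
    calc Real.exp a - Real.exp b = Real.exp a * (1 - Real.exp (b - a)) := by rw [h2]; ring
      _ ≤ Real.exp a * (a - b) := mul_le_mul_of_nonneg_left (by linarith) h4.le
      _ ≤ Real.exp M * (a - b) := mul_le_mul_of_nonneg_right h3 (by linarith)
  rcases le_total b a with h | h
  · rw [abs_of_nonneg (by linarith [Real.exp_le_exp.2 h]), abs_of_nonneg (by linarith)]
    exact key a b ha h
  · rw [abs_sub_comm, abs_sub_comm a b, abs_of_nonneg (by linarith [Real.exp_le_exp.2 h]),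
      abs_of_nonneg (by linarith)]
    exact key b a hb h

theorem cosh_lip {a b M : ℝ} (ha : |a| ≤ M) (hb : |b| ≤ M) :
    |Real.cosh a - Real.cosh b| ≤ Real.exp M * |a - b| := by
  rw [abs_le] at ha hb
  have h1 := exp_lip (a := a) (b := b) (M := M) ha.2 hb.2
  have h2 := exp_lip (a := -a) (b := -b) (M := M) (by linarith) (by linarith)
  have h3 : |-a - -b| = |a - b| := by rw [← abs_neg]; congr 1; ring
  rw [h3] at h2
  rw [Real.cosh_eq, Real.cosh_eq]
  have h4 : (Real.exp a + Real.exp (-a)) / 2 - (Real.exp b + Real.exp (-b)) / 2 =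
      ((Real.exp a - Real.exp b) + (Real.exp (-a) - Real.exp (-b))) / 2 := by ring
  rw [h4, abs_div, abs_of_pos (two_pos : (0 : ℝ) < 2)]
  have h5 := abs_add_le (Real.exp a - Real.exp b) (Real.exp (-a) - Real.exp (-b))
  linarith

theorem sinh_lip {a b M : ℝ} (ha : |a| ≤ M) (hb : |b| ≤ M) :
    |Real.sinh a - Real.sinh b| ≤ Real.exp M * |a - b| := by
  rw [abs_le] at ha hb
  have h1 := exp_lip (a := a) (b := b) (M := M) ha.2 hb.2
  have h2 := exp_lip (a := -a) (b := -b) (M := M) (by linarith) (by linarith)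
  have h3 : |-a - -b| = |a - b| := by rw [← abs_neg]; congr 1; ring
  rw [h3] at h2
  rw [Real.sinh_eq, Real.sinh_eq]
  have h4 : (Real.exp a - Real.exp (-a)) / 2 - (Real.exp b - Real.exp (-b)) / 2 =
      ((Real.exp a - Real.exp b) - (Real.exp (-a) - Real.exp (-b))) / 2 := by ring
  rw [h4, abs_div, abs_of_pos (two_pos : (0 : ℝ) < 2)]
  have h5 := abs_sub (Real.exp a - Real.exp b) (Real.exp (-a) - Real.exp (-b))
  linarith

theorem abs_sinh_le_mul {a M : ℝ} (ha : |a| ≤ M) : |Real.sinh a| ≤ Real.exp M * |a| := by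
  have h := sinh_lip (a := a) (b := 0) (M := M) ha (by rw [abs_zero]; exact (abs_nonneg a).trans ha)
  rwa [Real.sinh_zero, sub_zero, sub_zero] at h

theorem cosh_le {a M : ℝ} (ha : |a| ≤ M) : Real.cosh a ≤ Real.exp M := by
  rw [abs_le] at ha
  have h1 : Real.exp a ≤ Real.exp M := Real.exp_le_exp.2 ha.2
  have h2 : Real.exp (-a) ≤ Real.exp M := Real.exp_le_exp.2 (by linarith)
  rw [Real.cosh_eq]
  linarith

theorem sinh_le {a M : ℝ} (ha : |a| ≤ M) : |Real.sinh a| ≤ Real.exp M := by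
  have h := cosh_le ha
  have h1 : |Real.sinh a| ≤ Real.cosh a := by
    rw [Real.abs_sinh, ← Real.cosh_abs]
    exact (Real.sinh_lt_cosh _).le
  exact h1.trans h

theorem log_lip {a b c : ℝ} (hc : 0 < c) (ha : c ≤ a) (hb : c ≤ b) :
    |Real.log a - Real.log b| ≤ |a - b| / c := by
  have key : ∀ a b : ℝ, c ≤ a → c ≤ b → b ≤ a → Real.log a - Real.log b ≤ (a - b) / c := by
    intro a b ha hb hab
    have hb0 : 0 < b := hc.trans_le hb
    have ha0 : 0 < a := hc.trans_le ha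
    rw [← Real.log_div ha0.ne' hb0.ne']
    have h1 := Real.log_le_sub_one_of_pos (div_pos ha0 hb0)
    have h2 : a / b - 1 = (a - b) / b := by field_simp
    rw [h2] at h1
    refine h1.trans ?_
    exact div_le_div_of_nonneg_left (by linarith) hc hb
  rcases le_total b a with h | h
  · rw [abs_of_nonneg (by linarith [Real.log_le_log (hc.trans_le hb) h]),
      abs_of_nonneg (by linarith)]
    exact key a b ha hb h
  · rw [abs_sub_comm, abs_sub_comm a b,
      abs_of_nonneg (by linarith [Real.log_le_log (hc.trans_le ha) h]),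
      abs_of_nonneg (by linarith)]
    exact key b a hb ha h

theorem sqrt_lip {a b c : ℝ} (hb : 0 ≤ b) (hc : 0 < c) (hca : c ≤ √a) :
    |√a - √b| ≤ |a - b| / c := by
  have ha : 0 ≤ a := by
    by_contra h
    push Not at h
    rw [Real.sqrt_eq_zero_of_nonpos h.le] at hca
    linarith
  rw [le_div_iff₀ hc]
  have h1 : a - b = (√a - √b) * (√a + √b) := by
    have h2 := Real.sq_sqrt ha
    have h3 := Real.sq_sqrt hb
    nlinarith
  rw [h1, abs_mul]
  refine mul_le_mul_of_nonneg_left ?_ (abs_nonneg _)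
  rw [abs_of_nonneg (by positivity)]
  linarith [Real.sqrt_nonneg b]

theorem hyp_two {u : ℝ} (hu : |u| ≤ 1) : Real.cosh u ≤ 4 ∧ |Real.sinh u| ≤ 4 * |u| := by
  have h1 : Real.exp 1 ≤ 4 := by
    have := Real.exp_one_lt_d9
    linarith
  exact ⟨(cosh_le hu).trans h1,
    (abs_sinh_le_mul hu).trans (mul_le_mul_of_nonneg_right h1 (abs_nonneg u))⟩

/-- integral of a function that vanishes outside a short interval -/
theorem int_any {F : ℝ → ℝ} (hF : Continuous F) {t M : ℝ} (ht : 0 ≤ t)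
    (hM : ∀ u, |u| ≤ t → |F u| ≤ M) (h0 : ∀ u, t ≤ |u| → F u = 0) (α β : ℝ) :
    |∫ u in α..β, F u| ≤ M * (2 * t) := by
  have hi : ∀ a b, IntervalIntegrable F MeasureTheory.volume a b := fun a b =>
    hF.intervalIntegrable a b
  set c : ℝ → ℝ := fun α => max (-t) (min α t) with hc
  have hc1 : ∀ α, -t ≤ c α := fun α => le_max_left _ _
  have hc2 : ∀ α, c α ≤ t := fun α => max_le (by linarith) (min_le_right _ _)
  have hz : ∀ α, ∫ u in α..(c α), F u = 0 := by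
    intro α
    rcases le_total α (-t) with h | h
    · have h1 : c α = -t := by
        simp only [hc]
        rw [min_eq_left (by linarith), max_eq_left h]
      rw [h1]
      have : ∫ u in α..(-t), F u = ∫ u in α..(-t), (0 : ℝ) := by
        apply intervalIntegral.integral_congr
        intro u hu
        rw [Set.uIcc_of_le h] at hu
        show F u = 0
        apply h0
        rw [abs_of_nonpos (by linarith [hu.2])]
        linarith [hu.2]
      rw [this, intervalIntegral.integral_zero]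
    · rcases le_total α t with h' | h'
      · have h1 : c α = α := by
          simp only [hc]
          rw [min_eq_left h', max_eq_right h]
        rw [h1, intervalIntegral.integral_same]
      · have h1 : c α = t := by
          simp only [hc]
          rw [min_eq_right h', max_eq_right (by linarith)]
        rw [h1]
        have : ∫ u in α..t, F u = ∫ u in α..t, (0 : ℝ) := by
          apply intervalIntegral.integral_congr
          intro u hu
          rw [Set.uIcc_of_ge h'] at hu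
          show F u = 0
          apply h0
          rw [abs_of_nonneg (by linarith [hu.1])]
          linarith [hu.1]
        rw [this, intervalIntegral.integral_zero]
  have h3 : ∫ u in α..β, F u = ∫ u in (c α)..(c β), F u := by
    rw [← intervalIntegral.integral_add_adjacent_intervals (hi α (c α)) (hi (c α) β),
      ← intervalIntegral.integral_add_adjacent_intervals (hi (c α) (c β)) (hi (c β) β), hz α,
      intervalIntegral.integral_symm β (c β), hz β]
    ring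
  rw [h3, ← Real.norm_eq_abs]
  have hM0 : 0 ≤ M := (abs_nonneg _).trans (hM 0 (by rw [abs_zero]; exact ht))
  have h4 := intervalIntegral.norm_integral_le_of_norm_le_const (a := c α) (b := c β) (f := F)
    (C := M) (fun x hx => by
      rw [Real.norm_eq_abs]
      have h5 : x ∈ Set.uIcc (c α) (c β) := Set.uIoc_subset_uIcc hx
      have h6 : Set.uIcc (c α) (c β) ⊆ Set.Icc (-t) t :=
        Set.uIcc_subset_Icc ⟨hc1 _, hc2 _⟩ ⟨hc1 _, hc2 _⟩
      exact hM x (abs_le.2 (h6 h5)))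
  refine h4.trans (mul_le_mul_of_nonneg_left ?_ hM0)
  rw [abs_le]
  constructor <;> linarith [hc1 α, hc1 β, hc2 α, hc2 β]

theorem int_far {F : ℝ → ℝ} {t : ℝ} (h0 : ∀ u, t ≤ |u| → F u = 0) {α β : ℝ}
    (h : (t ≤ α ∧ t ≤ β) ∨ (α ≤ -t ∧ β ≤ -t)) : ∫ u in α..β, F u = 0 := by
  have : ∫ u in α..β, F u = ∫ u in α..β, (0 : ℝ) := by
    apply intervalIntegral.integral_congr
    intro u hu
    show F u = 0
    apply h0
    rcases h with ⟨h1, h2⟩ | ⟨h1, h2⟩
    · have h3 := (Set.uIcc_subset_Icc (a₂ := t) (b₂ := max α β) ⟨h1, le_max_left _ _⟩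
        ⟨h2, le_max_right _ _⟩ hu).1
      exact h3.trans (le_abs_self u)
    · have h3 := (Set.uIcc_subset_Icc (a₂ := min α β) (b₂ := -t) ⟨min_le_left _ _, h1⟩
        ⟨min_le_right _ _, h2⟩ hu).2
      have := neg_le_abs u
      linarith
  rw [this, intervalIntegral.integral_zero]


/-! ### local weights -/

open PE (TM ec sm Sup Lip GT ind)
open One26 (bdG contc)

/-- the local weight of a vector -/
noncomputable def fg (Q : Form) (τ : ℝ) (G : ℝ → ℝ → ℝ) (L x θ : ℝ) (v : V) : ℝ :=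
  G (hlx Q τ x θ v) (hly Q τ x θ v / L)

/-- the integral over the angle -/
noncomputable def Kf (Q : Form) (τ : ℝ) (G : ℝ → ℝ → ℝ) (L x : ℝ) (v : V) : ℝ :=
  ∫ θ in (0 : ℝ)..(2 * Real.pi), fg Q τ G L x θ v

theorem fg_cont {Q : Form} {τ : ℝ} {G : ℝ → ℝ → ℝ} (hG : Lip G) (L x : ℝ) (v : V) :
    Continuous fun θ => fg Q τ G L x θ v := by
  unfold fg
  apply contc hG
  · unfold hlx
    have h1 : Continuous fun θ : ℝ => Real.cosh (τ * θ) :=
      Real.continuous_cosh.comp (continuous_const.mul continuous_id)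
    have h2 : Continuous fun θ : ℝ => Real.sinh (τ * θ) :=
      Real.continuous_sinh.comp (continuous_const.mul continuous_id)
    exact ((h1.mul continuous_const).sub (h2.mul continuous_const)).div_const _
  · unfold hly
    have h1 : Continuous fun θ : ℝ => Real.cosh (τ * θ) :=
      Real.continuous_cosh.comp (continuous_const.mul continuous_id)
    have h2 : Continuous fun θ : ℝ => Real.sinh (τ * θ) :=
      Real.continuous_sinh.comp (continuous_const.mul continuous_id)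
    exact (continuous_const.mul ((h1.mul continuous_const).sub (h2.mul continuous_const))).div_const _

theorem inv_XY (Q : Form) (τ θ : ℝ) {x : ℝ} (hx : 0 < x) (v : V) :
    hX Q v = √x * (Real.cosh (τ * θ) * hlx Q τ x θ v + Real.sinh (τ * θ) * (hly Q τ x θ v / x)) ∧
    hY Q v = √x * (Real.sinh (τ * θ) * hlx Q τ x θ v + Real.cosh (τ * θ) * (hly Q τ x θ v / x)) := by
  have hs : 0 < √x := Real.sqrt_pos.2 hx
  have hsx : √x * √x = x := Real.mul_self_sqrt hx.le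
  have h1 := Real.cosh_sq (τ * θ)
  have e1 : √x * hlx Q τ x θ v = Real.cosh (τ * θ) * hX Q v - Real.sinh (τ * θ) * hY Q v := by
    unfold hlx
    field_simp
  have e2 : √x * (hly Q τ x θ v / x) =
      Real.cosh (τ * θ) * hY Q v - Real.sinh (τ * θ) * hX Q v := by
    unfold hly
    rw [← mul_div_assoc, ← mul_assoc, hsx]
    field_simp
  constructor
  · have : √x * (Real.cosh (τ * θ) * hlx Q τ x θ v + Real.sinh (τ * θ) * (hly Q τ x θ v / x)) =
        Real.cosh (τ * θ) * (√x * hlx Q τ x θ v) +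
          Real.sinh (τ * θ) * (√x * (hly Q τ x θ v / x)) := by ring
    rw [this, e1, e2]
    linear_combination (-hX Q v) * h1
  · have : √x * (Real.sinh (τ * θ) * hlx Q τ x θ v + Real.cosh (τ * θ) * (hly Q τ x θ v / x)) =
        Real.sinh (τ * θ) * (√x * hlx Q τ x θ v) +
          Real.cosh (τ * θ) * (√x * (hly Q τ x θ v / x)) := by ring
    rw [this, e1, e2]
    linear_combination (-hY Q v) * h1

/-- the support lies in a box -/
theorem boxXY (Q : Form) {τ : ℝ} (hτ : 0 < τ) {B : ℝ} {G : ℝ → ℝ → ℝ} (hG : GT B G) {L : ℝ}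
    (hL : 1 ≤ L) : ∃ R : ℝ, 0 < R ∧ ∀ x θ : ℝ, 1 ≤ x → 0 ≤ θ → θ ≤ 2 * Real.pi → ∀ v : V,
      fg Q τ G L x θ v ≠ 0 → |hX Q v| ≤ R * √x ∧ |hY Q v| ≤ R * √x := by
  obtain ⟨hB, hS, -⟩ := hG
  have hB0 : 0 < B := by linarith
  have hL0 : 0 < L := by linarith
  have hE := Real.exp_pos (τ * (2 * Real.pi))
  refine ⟨Real.exp (τ * (2 * Real.pi)) * (B + B * L), by positivity,
    fun x θ hx h1 h2 v hv => ?_⟩
  have hx0 : 0 < x := by linarith
  obtain ⟨g1, g2, g3⟩ := hS _ _ hv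
  have g4 : |hlx Q τ x θ v| ≤ B := by
    rw [abs_of_nonneg (le_trans (by positivity) g1)]; exact g2
  have g5 : |hly Q τ x θ v / x| ≤ B * L := by
    rw [abs_div, abs_of_pos hL0, div_le_iff₀ hL0] at g3
    rw [abs_div, abs_of_pos hx0, div_le_iff₀ hx0]
    nlinarith [abs_nonneg (hly Q τ x θ v), mul_pos hB0 hL0]
  have hM : |τ * θ| ≤ τ * (2 * Real.pi) := by
    rw [abs_of_nonneg (mul_nonneg hτ.le h1)]
    exact mul_le_mul_of_nonneg_left h2 hτ.le
  have hc : |Real.cosh (τ * θ)| ≤ Real.exp (τ * (2 * Real.pi)) := by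
    rw [abs_of_pos (Real.cosh_pos _)]; exact cosh_le hM
  have hs := sinh_le hM
  obtain ⟨e1, e2⟩ := inv_XY Q τ θ hx0 v
  have key : ∀ p q : ℝ, |p| ≤ Real.exp (τ * (2 * Real.pi)) → |q| ≤ Real.exp (τ * (2 * Real.pi)) →
      |√x * (p * hlx Q τ x θ v + q * (hly Q τ x θ v / x))| ≤
        Real.exp (τ * (2 * Real.pi)) * (B + B * L) * √x := by
    intro p q hp hq
    rw [abs_mul, abs_of_nonneg (Real.sqrt_nonneg x), mul_comm]
    refine mul_le_mul_of_nonneg_right ?_ (Real.sqrt_nonneg x)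
    refine (abs_add_le _ _).trans ?_
    rw [abs_mul, abs_mul, mul_add]
    exact add_le_add (mul_le_mul hp g4 (abs_nonneg _) hE.le)
      (mul_le_mul hq g5 (abs_nonneg _) hE.le)
  constructor
  · rw [e1]; exact key _ _ hc hs
  · rw [e2]; exact key _ _ hs hc

/-- coordinates -/
theorem coord_le {d : ℕ} {Q : Form} (hQ : Hyp d Q) : ∃ c : ℝ, 0 < c ∧ (∀ v : V,
    |(v.1 : ℝ)| ≤ c * (|hX Q v| + |hY Q v|) ∧ |(v.2 : ℝ)| ≤ c * (|hX Q v| + |hY Q v|)) ∧
    ∀ v : V, |hX Q v| ≤ c * (|(v.1 : ℝ)| + |(v.2 : ℝ)|) ∧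
      |hY Q v| ≤ c * (|(v.1 : ℝ)| + |(v.2 : ℝ)|) := by
  have h1 := hQ.sa
  have h2 := hQ.sd
  set p := √(Q.a : ℝ) with hp
  set q := √(d : ℝ) with hq
  refine ⟨2 * p / q + 1 / p + |(Q.b : ℝ)| / (q * p) + p + |(Q.b : ℝ)| / (2 * p) + q / (2 * p),
    by positivity, fun v => ?_, fun v => ?_⟩
  · have e2 : (v.2 : ℝ) = 2 * p / q * hY Q v := by
      rw [hQ.hY_eq, ← hp, ← hq]
      field_simp
    have e1 : (v.1 : ℝ) = 1 / p * hX Q v - Q.b / (q * p) * hY Q v := by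
      rw [hQ.hY_eq]
      unfold hX
      rw [← hp, ← hq]
      field_simp
      ring
    have t1 : 0 ≤ 2 * p / q := by positivity
    have t2 : 0 ≤ 1 / p := by positivity
    have t3 : 0 ≤ |(Q.b : ℝ)| / (q * p) := by positivity
    have t4 : 0 ≤ |(Q.b : ℝ)| / (2 * p) := by positivity
    have t5 : 0 ≤ q / (2 * p) := by positivity
    constructor
    · have g1 : |(v.1 : ℝ)| ≤ 1 / p * |hX Q v| + |(Q.b : ℝ)| / (q * p) * |hY Q v| := by
        rw [e1]
        refine (abs_sub _ _).trans (le_of_eq ?_)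
        rw [abs_mul, abs_mul, abs_of_nonneg t2, abs_div, abs_of_pos (mul_pos h2 h1)]
      refine g1.trans ?_
      nlinarith [abs_nonneg (hX Q v), abs_nonneg (hY Q v),
        mul_nonneg t1 (abs_nonneg (hX Q v)), mul_nonneg t1 (abs_nonneg (hY Q v)),
        mul_nonneg t2 (abs_nonneg (hX Q v)), mul_nonneg t2 (abs_nonneg (hY Q v)),
        mul_nonneg t3 (abs_nonneg (hX Q v)), mul_nonneg t3 (abs_nonneg (hY Q v)),
        mul_nonneg t4 (abs_nonneg (hX Q v)), mul_nonneg t4 (abs_nonneg (hY Q v)),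
        mul_nonneg t5 (abs_nonneg (hX Q v)), mul_nonneg t5 (abs_nonneg (hY Q v)),
        mul_nonneg h1.le (abs_nonneg (hX Q v)), mul_nonneg h1.le (abs_nonneg (hY Q v))]
    · have g1 : |(v.2 : ℝ)| ≤ 2 * p / q * |hY Q v| := by
        rw [e2]
        refine le_of_eq ?_
        rw [abs_mul, abs_of_nonneg t1]
      refine g1.trans ?_
      nlinarith [abs_nonneg (hX Q v), abs_nonneg (hY Q v),
        mul_nonneg t1 (abs_nonneg (hX Q v)), mul_nonneg t1 (abs_nonneg (hY Q v)),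
        mul_nonneg t2 (abs_nonneg (hX Q v)), mul_nonneg t2 (abs_nonneg (hY Q v)),
        mul_nonneg t3 (abs_nonneg (hX Q v)), mul_nonneg t3 (abs_nonneg (hY Q v)),
        mul_nonneg t4 (abs_nonneg (hX Q v)), mul_nonneg t4 (abs_nonneg (hY Q v)),
        mul_nonneg t5 (abs_nonneg (hX Q v)), mul_nonneg t5 (abs_nonneg (hY Q v)),
        mul_nonneg h1.le (abs_nonneg (hX Q v)), mul_nonneg h1.le (abs_nonneg (hY Q v))]
  · have t1 : 0 ≤ 2 * p / q := by positivity
    have t2 : 0 ≤ 1 / p := by positivity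
    have t3 : 0 ≤ |(Q.b : ℝ)| / (q * p) := by positivity
    have t4 : 0 ≤ |(Q.b : ℝ)| / (2 * p) := by positivity
    have t5 : 0 ≤ q / (2 * p) := by positivity
    have n1 := abs_nonneg (v.1 : ℝ)
    have n2 := abs_nonneg (v.2 : ℝ)
    constructor
    · have e1 : hX Q v = p * v.1 + Q.b / (2 * p) * v.2 := by
        unfold hX
        rw [← hp]
        ring
      have g1 : |hX Q v| ≤ p * |(v.1 : ℝ)| + |(Q.b : ℝ)| / (2 * p) * |(v.2 : ℝ)| := by
        rw [e1]
        refine (abs_add_le _ _).trans (le_of_eq ?_)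
        rw [abs_mul, abs_mul, abs_of_pos h1, abs_div, abs_of_pos (mul_pos two_pos h1)]
      refine g1.trans ?_
      nlinarith [mul_nonneg t1 n1, mul_nonneg t1 n2, mul_nonneg t2 n1, mul_nonneg t2 n2,
        mul_nonneg t3 n1, mul_nonneg t3 n2, mul_nonneg t4 n1, mul_nonneg t4 n2,
        mul_nonneg t5 n1, mul_nonneg t5 n2, mul_nonneg h1.le n1, mul_nonneg h1.le n2]
    · have e1 : hY Q v = q / (2 * p) * v.2 := by
        rw [hQ.hY_eq]
        ring
      have g1 : |hY Q v| ≤ q / (2 * p) * |(v.2 : ℝ)| := by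
        rw [e1, abs_mul, abs_of_nonneg t5]
      refine g1.trans ?_
      nlinarith [mul_nonneg t1 n1, mul_nonneg t1 n2, mul_nonneg t2 n1, mul_nonneg t2 n2,
        mul_nonneg t3 n1, mul_nonneg t3 n2, mul_nonneg t4 n1, mul_nonneg t4 n2,
        mul_nonneg t5 n1, mul_nonneg t5 n2, mul_nonneg h1.le n1, mul_nonneg h1.le n2]

/-- the support lies in the cone -/
theorem supp_cone (Q : Form) {τ : ℝ} {B : ℝ} {G : ℝ → ℝ → ℝ} (hG : GT B G) {L : ℝ}
    (hL : 1 ≤ L) {x θ : ℝ} (hx : B ^ 2 * L < x) {v : V} (h : fg Q τ G L x θ v ≠ 0) : Cn Q v := by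
  obtain ⟨hB, hS, -⟩ := hG
  have hB0 : 0 < B := by linarith
  have hL0 : 0 < L := by linarith
  have hx0 : 0 < x := lt_trans (by positivity) hx
  obtain ⟨g1, g2, g3⟩ := hS _ _ h
  have g5 : |hly Q τ x θ v / x| < hlx Q τ x θ v := by
    rw [abs_div, abs_of_pos hL0, div_le_iff₀ hL0] at g3
    rw [abs_div, abs_of_pos hx0, div_lt_iff₀ hx0]
    have h1 : B * L < 1 / B * x := by
      rw [one_div, ← div_eq_inv_mul, lt_div_iff₀ hB0]
      nlinarith
    have h2 : 1 / B * x ≤ hlx Q τ x θ v * x := mul_le_mul_of_nonneg_right g1 hx0.le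
    linarith
  rw [abs_lt] at g5
  obtain ⟨e1, e2⟩ := inv_XY Q τ θ hx0 v
  rw [cn_iff, e1, e2]
  have hs : 0 < √x := Real.sqrt_pos.2 hx0
  have e3 : √x * (Real.cosh (τ * θ) * hlx Q τ x θ v + Real.sinh (τ * θ) * (hly Q τ x θ v / x)) +
      √x * (Real.sinh (τ * θ) * hlx Q τ x θ v + Real.cosh (τ * θ) * (hly Q τ x θ v / x)) =
      √x * ((Real.cosh (τ * θ) + Real.sinh (τ * θ)) *
        (hlx Q τ x θ v + hly Q τ x θ v / x)) := by ring
  have e4 : √x * (Real.cosh (τ * θ) * hlx Q τ x θ v + Real.sinh (τ * θ) * (hly Q τ x θ v / x)) -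
      √x * (Real.sinh (τ * θ) * hlx Q τ x θ v + Real.cosh (τ * θ) * (hly Q τ x θ v / x)) =
      √x * ((Real.cosh (τ * θ) - Real.sinh (τ * θ)) *
        (hlx Q τ x θ v - hly Q τ x θ v / x)) := by ring
  rw [e3, e4, Real.cosh_add_sinh, Real.cosh_sub_sinh]
  have p1 : 0 < hlx Q τ x θ v + hly Q τ x θ v / x := by linarith
  have p2 : 0 < hlx Q τ x θ v - hly Q τ x θ v / x := by linarith
  exact ⟨by positivity, by positivity⟩


/-! ### polar coordinates -/

/-- the weight in polar coordinates -/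
noncomputable def Hh (G : ℝ → ℝ → ℝ) (L x ρ u : ℝ) : ℝ :=
  G (ρ * Real.cosh u) (x * ρ * Real.sinh u / L)

theorem Hh_cont {G : ℝ → ℝ → ℝ} (hG : Lip G) (L x ρ : ℝ) : Continuous (Hh G L x ρ) := by
  unfold Hh
  exact contc hG (continuous_const.mul Real.continuous_cosh)
    ((continuous_const.mul Real.continuous_sinh).div_const _)

theorem fg_polar {d : ℕ} {Q : Form} (hQ : Hyp d Q) (τ : ℝ) (G : ℝ → ℝ → ℝ) (L : ℝ) {x : ℝ}
    (hx : 0 < x) (θ : ℝ) {v : V} (hv : Cn Q v) :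
    fg Q τ G L x θ v = Hh G L x (√((Q.q v : ℝ) / x)) (ps Q v - τ * θ) := by
  obtain ⟨h1, h2⟩ := polar hQ hv
  have hs : 0 < √x := Real.sqrt_pos.2 hx
  have hsx : √x * √x = x := Real.mul_self_sqrt hx.le
  have hq : √((Q.q v : ℝ) / x) = √(Q.q v : ℝ) / √x := Real.sqrt_div' _ hx.le
  unfold fg Hh hlx hly
  rw [hq, h1, h2, Real.cosh_sub, Real.sinh_sub]
  congr 1
  · ring
  · congr 1
    have : x * (√(Q.q v : ℝ) / √x) = √x * √(Q.q v : ℝ) := by
      nth_rewrite 1 [← hsx]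
      field_simp
    rw [this]
    ring

theorem Hh_supp {B : ℝ} {G : ℝ → ℝ → ℝ} (hB : 1 ≤ B) (hS : Sup B G) {L x ρ u : ℝ} (hL : 1 ≤ L)
    (hx : 2 * B ^ 2 * L ≤ x) (hρ : 0 ≤ ρ) (h : Hh G L x ρ u ≠ 0) :
    |u| < 3 * (B ^ 2 * L) / x ∧ 1 / (2 * B) ≤ ρ ∧ ρ ≤ B := by
  obtain ⟨h1, h2, h3⟩ := hS _ _ h
  have hB0 : 0 < B := by linarith
  have hL0 : 0 < L := by linarith
  have hx0 : 0 < x := lt_of_lt_of_le (by positivity) hx
  have hc := Real.one_le_cosh u
  have hc0 := Real.cosh_pos u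
  have hρ0 : 0 < ρ := by
    rcases hρ.lt_or_eq with h4 | h4
    · exact h4
    · rw [← h4, zero_mul] at h1
      have : 0 < 1 / B := by positivity
      linarith
  have hκ0 : 0 < B ^ 2 * L / x := by positivity
  have hκ : B ^ 2 * L / x ≤ 1 / 2 := by
    rw [div_le_iff₀ hx0]
    linarith
  set κ := B ^ 2 * L / x with hκd
  have hs : |Real.sinh u| ≤ κ * Real.cosh u := by
    rw [abs_div, abs_of_pos hL0, div_le_iff₀ hL0, abs_mul, abs_of_pos (mul_pos hx0 hρ0)] at h3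
    have h5 : |Real.sinh u| * (x * (ρ * Real.cosh u)) ≤ B * L * Real.cosh u := by
      nlinarith [mul_le_mul_of_nonneg_right h3 hc0.le]
    have h6 : |Real.sinh u| * (x * (1 / B)) ≤ |Real.sinh u| * (x * (ρ * Real.cosh u)) :=
      mul_le_mul_of_nonneg_left (mul_le_mul_of_nonneg_left h1 hx0.le) (abs_nonneg _)
    have h7 := h6.trans h5
    rw [hκd]
    have h8 : |Real.sinh u| * (x * (1 / B)) = |Real.sinh u| * x / B := by ring
    rw [h8, div_le_iff₀ hB0] at h7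
    rw [div_mul_eq_mul_div, le_div_iff₀ hx0]
    nlinarith
  have hs0 := abs_nonneg (Real.sinh u)
  have hcs := Real.cosh_sq u
  have hsq : |Real.sinh u| ^ 2 ≤ κ ^ 2 * (Real.sinh u ^ 2 + 1) := by
    rw [← hcs, ← mul_pow]
    exact pow_le_pow_left₀ hs0 hs 2
  rw [sq_abs] at hsq
  have hk2 : κ ^ 2 ≤ 1 / 4 := by nlinarith
  have hsb : Real.sinh u ^ 2 ≤ (2 * κ) ^ 2 := by nlinarith [sq_nonneg (Real.sinh u)]
  have hs2 : |Real.sinh u| ≤ 2 * κ := by
    rw [← sq_abs] at hsb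
    exact (pow_le_pow_iff_left₀ hs0 (by positivity) two_ne_zero).1 hsb
  have hu : |u| ≤ |Real.sinh u| := by
    rw [Real.abs_sinh]
    exact Real.self_le_sinh_iff.2 (abs_nonneg u)
  have hc2 : Real.cosh u ≤ 2 := by nlinarith
  refine ⟨?_, ?_, ?_⟩
  · have : 3 * (B ^ 2 * L) / x = 3 * κ := by rw [hκd]; ring
    rw [this]
    linarith
  · rw [div_le_iff₀ (by positivity)]
    rw [div_le_iff₀ hB0] at h1
    nlinarith [mul_pos hρ0 hB0]
  · nlinarith

theorem Kf_polar {d : ℕ} {Q : Form} (hQ : Hyp d Q) {τ : ℝ} (hτ : 0 < τ) (G : ℝ → ℝ → ℝ) (L : ℝ)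
    {x : ℝ} (hx : 0 < x) {v : V} (hv : Cn Q v) :
    Kf Q τ G L x v = τ⁻¹ * ∫ u in (ps Q v - τ * (2 * Real.pi))..(ps Q v),
      Hh G L x (√((Q.q v : ℝ) / x)) u := by
  unfold Kf
  have h1 : ∫ θ in (0 : ℝ)..(2 * Real.pi), fg Q τ G L x θ v =
      ∫ θ in (0 : ℝ)..(2 * Real.pi), Hh G L x (√((Q.q v : ℝ) / x)) (ps Q v - τ * θ) := by
    apply intervalIntegral.integral_congr
    intro θ _
    exact fg_polar hQ τ G L hx θ hv
  rw [h1, intervalIntegral.integral_comp_sub_mul (fun u => Hh G L x (√((Q.q v : ℝ) / x)) u)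
    hτ.ne', smul_eq_mul, mul_zero, sub_zero]

/-- the vectors in the support of `Kf` -/
theorem Kf_supp {d : ℕ} {Q : Form} (hQ : Hyp d Q) {τ : ℝ} (hτ : 0 < τ) {B : ℝ} {G : ℝ → ℝ → ℝ}
    (hG : GT B G) {L : ℝ} (hL : 1 ≤ L) {x : ℝ} (hx : 2 * B ^ 2 * L ≤ x) {v : V}
    (h : Kf Q τ G L x v ≠ 0) : Cn Q v ∧ -2 ≤ ps Q v ∧ ps Q v ≤ τ * (2 * Real.pi) + 2 ∧
      1 / (2 * B) ≤ √((Q.q v : ℝ) / x) ∧ √((Q.q v : ℝ) / x) ≤ B ∧
      ∃ θ, 0 ≤ θ ∧ θ ≤ 2 * Real.pi ∧ fg Q τ G L x θ v ≠ 0 := by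
  have hB0 : 0 < B := by linarith [hG.1]
  have hL0 : 0 < L := by linarith
  have hx0 : 0 < x := lt_of_lt_of_le (by positivity) hx
  have hx1 : B ^ 2 * L < x := by nlinarith [mul_pos (pow_pos hB0 2) hL0]
  have h2pi : (0 : ℝ) ≤ 2 * Real.pi := by positivity
  obtain ⟨θ, hθ1, hθ2, hθ⟩ : ∃ θ, 0 ≤ θ ∧ θ ≤ 2 * Real.pi ∧ fg Q τ G L x θ v ≠ 0 := by
    by_contra hcon
    push Not at hcon
    apply h
    unfold Kf
    have : ∫ θ in (0 : ℝ)..(2 * Real.pi), fg Q τ G L x θ v =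
        ∫ θ in (0 : ℝ)..(2 * Real.pi), (0 : ℝ) := by
      apply intervalIntegral.integral_congr
      intro θ hθ
      rw [Set.uIcc_of_le h2pi] at hθ
      exact hcon θ hθ.1 hθ.2
    rw [this, intervalIntegral.integral_zero]
  have hcn := supp_cone Q hG hL hx1 hθ
  have hθ' := hθ
  rw [fg_polar hQ τ G L hx0 θ hcn] at hθ'
  obtain ⟨g1, g2, g3⟩ := Hh_supp hG.1 hG.2.1 hL hx (Real.sqrt_nonneg _) hθ'
  have g4 : 3 * (B ^ 2 * L) / x ≤ 2 := by
    rw [div_le_iff₀ hx0]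
    linarith
  have g5 := abs_lt.1 (g1.trans_le g4)
  have g6 : τ * θ ≤ τ * (2 * Real.pi) := mul_le_mul_of_nonneg_left hθ2 hτ.le
  have g7 : 0 ≤ τ * θ := mul_nonneg hτ.le hθ1
  exact ⟨hcn, by linarith [g5.1], by linarith [g5.2], g2, g3, θ, hθ1, hθ2, hθ⟩

theorem Kf_bd {d : ℕ} {Q : Form} (hQ : Hyp d Q) {τ : ℝ} (hτ : 0 < τ) {B : ℝ} {G : ℝ → ℝ → ℝ}
    (hG : GT B G) {L : ℝ} (hL : 1 ≤ L) : ∃ C : ℝ, 0 ≤ C ∧ ∀ x : ℝ, 2 * B ^ 2 * L ≤ x → ∀ v : V,
      |Kf Q τ G L x v| ≤ C / x := by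
  obtain ⟨hB, hS, hlip⟩ := hG
  obtain ⟨M, hM0, hM⟩ := bdG hB hS hlip
  have hB0 : 0 < B := by linarith
  have hL0 : 0 < L := by linarith
  refine ⟨τ⁻¹ * (M * (2 * (3 * (B ^ 2 * L)))), by positivity, fun x hx v => ?_⟩
  have hx0 : 0 < x := lt_of_lt_of_le (by positivity) hx
  by_cases h : Kf Q τ G L x v = 0
  · rw [h, abs_zero]
    positivity
  · obtain ⟨hcn, -⟩ := Kf_supp hQ hτ ⟨hB, hS, hlip⟩ hL hx h
    rw [Kf_polar hQ hτ G L hx0 hcn, abs_mul, abs_of_pos (inv_pos.2 hτ)]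
    have h1 := int_any (Hh_cont hlip L x (√((Q.q v : ℝ) / x))) (t := 3 * (B ^ 2 * L) / x) (M := M)
      (by positivity) (fun u _ => hM _ _) (fun u h2 => by
        by_contra h3
        have := (Hh_supp hB hS hL hx (Real.sqrt_nonneg _) h3).1
        linarith) (ps Q v - τ * (2 * Real.pi)) (ps Q v)
    calc τ⁻¹ * |∫ u in (ps Q v - τ * (2 * Real.pi))..(ps Q v),
          Hh G L x (√((Q.q v : ℝ) / x)) u| ≤ τ⁻¹ * (M * (2 * (3 * (B ^ 2 * L) / x))) :=
          mul_le_mul_of_nonneg_left h1 (inv_pos.2 hτ).le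
      _ = τ⁻¹ * (M * (2 * (3 * (B ^ 2 * L)))) / x := by ring

theorem Kf_zero {Q : Form} {τ : ℝ} {B : ℝ} {G : ℝ → ℝ → ℝ} (hG : GT B G) (L x : ℝ) :
    Kf Q τ G L x 0 = 0 := by
  unfold Kf
  have h1 : ∀ θ, fg Q τ G L x θ 0 = 0 := by
    intro θ
    by_contra h
    obtain ⟨h1, -, -⟩ := hG.2.1 _ _ h
    have h2 : hlx Q τ x θ 0 = 0 := by
      unfold hlx hX hY
      simp
    rw [h2] at h1
    have : 0 < 1 / B := by
      have := hG.1
      positivity
    linarith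
  simp only [h1, intervalIntegral.integral_zero]


/-! ### translations of a vector -/

theorem hX_add (Q : Form) (v s : V) : hX Q (v + s) = hX Q v + hX Q s := by
  unfold hX
  simp only [Prod.fst_add, Prod.snd_add]
  push_cast
  ring

theorem hY_add (Q : Form) (v s : V) : hY Q (v + s) = hY Q v + hY Q s := by
  unfold hY
  simp only [Prod.snd_add]
  push_cast
  ring

/-- the vectors near the two ends of the sector -/
def Bdy (Q : Form) (T C : ℝ) (v : V) : Prop :=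
  |hY Q v| ≤ C ∨ |hX Q v * Real.sinh T - hY Q v * Real.cosh T| ≤ C

open Classical in
theorem Kf_shift {d : ℕ} {Q : Form} (hQ : Hyp d Q) {τ : ℝ} (hτ : 0 < τ) {B : ℝ} {G : ℝ → ℝ → ℝ}
    (hG : GT B G) {L : ℝ} (hL : 1 ≤ L) (s : V) : ∃ C x0 : ℝ, 0 ≤ C ∧ 1 ≤ x0 ∧ ∀ x : ℝ, x0 ≤ x →
      ∀ v : V, Kf Q τ G L x v ≠ 0 → |Kf Q τ G L x v - Kf Q τ G L x (v + s)| ≤
        C / (x * √x) + if Bdy Q (τ * (2 * Real.pi)) C v then C / x else 0 := by
  have hG' := hG
  obtain ⟨hB, hS, hlip⟩ := hG'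
  obtain ⟨M, hM0, hM⟩ := bdG hB hS hlip
  have hlip' := hlip
  obtain ⟨CG, hCG⟩ := hlip'
  have hB0 : 0 < B := by linarith
  have hL0 : 0 < L := by linarith
  set T : ℝ := τ * (2 * Real.pi) with hT
  have hT0 : 0 < T := by positivity
  set Ex : ℝ := Real.exp (T + 2) with hEx
  have hEx0 : 0 < Ex := Real.exp_pos _
  have hEx1 : 1 ≤ Ex := Real.one_le_exp (by linarith)
  -- lower bound for the light cone coordinates
  set c : ℝ := 1 / (2 * B) / Ex with hc
  have hc0 : 0 < c := by positivity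
  set σ : ℝ := |hX Q s| + |hY Q s| with hσ
  have hσ0 : 0 ≤ σ := by positivity
  -- the constants
  set A1 : ℝ := 2 * σ / c with hA1
  have hA10 : 0 ≤ A1 := by positivity
  set A2 : ℝ := 2 * B * (σ * (2 * (B * Ex) + σ)) with hA2
  have hA20 : 0 ≤ A2 := by positivity
  set t0 : ℝ := 3 * (B ^ 2 * L) with ht0
  have ht00 : 0 < t0 := by positivity
  set C1 : ℝ := τ⁻¹ * (|CG| * (A2 * (4 + 4 * t0)) * (2 * t0)) with hC1
  have hC10 : 0 ≤ C1 := by positivity
  set C2 : ℝ := τ⁻¹ * (2 * (M * (2 * t0))) with hC2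
  have hC20 : 0 ≤ C2 := by positivity
  set C3 : ℝ := B * (Real.exp (2 * T + 2) * (t0 + A1)) with hC3
  have hC30 : 0 ≤ C3 := by positivity
  refine ⟨C1 + C2 + C3, max (2 * B ^ 2 * L) (max 1 (max t0 ((2 * σ / c) ^ 2))), by positivity,
    le_max_of_le_right (le_max_left _ _), fun x hx v hKv => ?_⟩
  have hx1 : 2 * B ^ 2 * L ≤ x := (le_max_left _ _).trans hx
  have hx2 : 1 ≤ x := ((le_max_left _ _).trans (le_max_right _ _)).trans hx
  have hx3 : t0 ≤ x := ((le_max_left _ _).trans ((le_max_right _ _).trans (le_max_right _ _))).trans hx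
  have hx4 : (2 * σ / c) ^ 2 ≤ x :=
    ((le_max_right _ _).trans ((le_max_right _ _).trans (le_max_right _ _))).trans hx
  have hx0 : 0 < x := by linarith
  have hs : 0 < √x := Real.sqrt_pos.2 hx0
  have hsx : √x * √x = x := Real.mul_self_sqrt hx0.le
  have hs1 : 1 ≤ √x := by rw [Real.one_le_sqrt]; exact hx2
  have hsle : √x ≤ x := (le_mul_of_one_le_right hs.le hs1).trans_eq hsx
  have hsc : 2 * σ ≤ c * √x := by
    have h1 : 2 * σ / c ≤ √x := Real.le_sqrt_of_sq_le hx4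
    rw [div_le_iff₀ hc0] at h1
    linarith
  obtain ⟨hcn, hps1, hps2, hr1, hr2, -⟩ := Kf_supp hQ hτ hG hL hx1 hKv
  set ρ : ℝ := √((Q.q v : ℝ) / x) with hρ
  set ψ : ℝ := ps Q v with hψ
  have hρ0 : 0 < ρ := lt_of_lt_of_le (by positivity) hr1
  have hqv : √(Q.q v : ℝ) = √x * ρ := by
    rw [hρ, Real.sqrt_div' _ hx0.le]
    field_simp
  obtain ⟨hX1, hY1⟩ := polar hQ hcn
  rw [hqv] at hX1 hY1
  -- light cone coordinates
  have hP : hX Q v + hY Q v = √x * ρ * Real.exp ψ := by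
    rw [hX1, hY1, ← mul_add, Real.cosh_add_sinh]
  have hN : hX Q v - hY Q v = √x * ρ * Real.exp (-ψ) := by
    rw [hX1, hY1, ← mul_sub, Real.cosh_sub_sinh]
  have hψ1 : Real.exp (-ψ) ≤ Ex ∧ Real.exp ψ ≤ Ex :=
    ⟨Real.exp_le_exp.2 (by linarith), Real.exp_le_exp.2 (by linarith)⟩
  have hψ2 : 1 / Ex ≤ Real.exp ψ ∧ 1 / Ex ≤ Real.exp (-ψ) := by
    rw [hEx, one_div, ← Real.exp_neg]
    exact ⟨Real.exp_le_exp.2 (by linarith), Real.exp_le_exp.2 (by linarith)⟩
  have hlow : ∀ E : ℝ, 1 / Ex ≤ E → c * √x ≤ √x * ρ * E := by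
    intro E hE
    have h1 : 1 / (2 * B) * (1 / Ex) ≤ ρ * E :=
      mul_le_mul hr1 hE (by positivity) hρ0.le
    have h2 : c * √x = √x * (1 / (2 * B) * (1 / Ex)) := by rw [hc]; ring
    rw [h2, mul_assoc]
    exact mul_le_mul_of_nonneg_left h1 hs.le
  have hhigh : ∀ E : ℝ, 0 ≤ E → E ≤ Ex → √x * ρ * E ≤ √x * (B * Ex) := by
    intro E hE0 hE
    rw [mul_assoc]
    exact mul_le_mul_of_nonneg_left (mul_le_mul hr2 hE hE0 hB0.le) hs.le
  have hP1 := hlow _ hψ2.1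
  have hN1 := hlow _ hψ2.2
  have hP2 := hhigh _ (Real.exp_pos _).le hψ1.2
  have hN2 := hhigh _ (Real.exp_pos _).le hψ1.1
  rw [← hP] at hP1 hP2
  rw [← hN] at hN1 hN2
  have hσ1 : |hX Q s + hY Q s| ≤ σ := abs_add_le _ _
  have hσ2 : |hX Q s - hY Q s| ≤ σ := abs_sub _ _
  have hσ1' := abs_le.1 hσ1
  have hσ2' := abs_le.1 hσ2
  have hP' : hX Q (v + s) + hY Q (v + s) = (hX Q v + hY Q v) + (hX Q s + hY Q s) := by
    rw [hX_add, hY_add]; ring
  have hN' : hX Q (v + s) - hY Q (v + s) = (hX Q v - hY Q v) + (hX Q s - hY Q s) := by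
    rw [hX_add, hY_add]; ring
  set P := hX Q v + hY Q v with hPd
  set N := hX Q v - hY Q v with hNd
  set P' := hX Q (v + s) + hY Q (v + s) with hP'd
  set N' := hX Q (v + s) - hY Q (v + s) with hN'd
  have hP0 : 0 < P := lt_of_lt_of_le (by positivity) hP1
  have hN0 : 0 < N := lt_of_lt_of_le (by positivity) hN1
  have hPP : |P - P'| ≤ σ := by
    rw [hP']
    have : P - (P + (hX Q s + hY Q s)) = -(hX Q s + hY Q s) := by ring
    rw [this, abs_neg]
    exact hσ1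
  have hNN : |N - N'| ≤ σ := by
    rw [hN']
    have : N - (N + (hX Q s - hY Q s)) = -(hX Q s - hY Q s) := by ring
    rw [this, abs_neg]
    exact hσ2
  have hP'1 : c / 2 * √x ≤ P' := by
    have := (abs_le.1 hPP).2
    linarith
  have hN'1 : c / 2 * √x ≤ N' := by
    have := (abs_le.1 hNN).2
    linarith
  have hcx : 0 < c / 2 * √x := by positivity
  have hP'0 : 0 < P' := hcx.trans_le hP'1
  have hN'0 : 0 < N' := hcx.trans_le hN'1
  have hcn' : Cn Q (v + s) := by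
    rw [cn_iff]
    exact ⟨hP'0, hN'0⟩
  set ψ' : ℝ := ps Q (v + s) with hψ'
  set ρ' : ℝ := √((Q.q (v + s) : ℝ) / x) with hρ'
  -- the angle
  have hang : |ψ - ψ'| ≤ A1 / √x := by
    have e1 : ψ = (Real.log P - Real.log N) / 2 := by
      rw [hψ]
      unfold ps
      rw [← hPd, ← hNd, Real.log_div hP0.ne' hN0.ne']
    have e2 : ψ' = (Real.log P' - Real.log N') / 2 := by
      rw [hψ']
      unfold ps
      rw [← hP'd, ← hN'd, Real.log_div hP'0.ne' hN'0.ne']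
    have g1 := log_lip (a := P) (b := P') hcx (by linarith [mul_pos hc0 hs]) hP'1
    have g2 := log_lip (a := N) (b := N') hcx (by linarith [mul_pos hc0 hs]) hN'1
    have g3 : |P - P'| / (c / 2 * √x) ≤ σ / (c / 2 * √x) := div_le_div_of_nonneg_right hPP hcx.le
    have g4 : |N - N'| / (c / 2 * √x) ≤ σ / (c / 2 * √x) := div_le_div_of_nonneg_right hNN hcx.le
    have e3 : ψ - ψ' = ((Real.log P - Real.log P') - (Real.log N - Real.log N')) / 2 := by
      rw [e1, e2]; ring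
    rw [e3, abs_div, abs_of_pos (two_pos : (0 : ℝ) < 2)]
    have g5 := abs_sub (Real.log P - Real.log P') (Real.log N - Real.log N')
    have e4 : A1 / √x = σ / (c / 2 * √x) := by
      rw [hA1]
      field_simp
    rw [e4]
    linarith
  -- the norm
  have hnorm : |ρ - ρ'| ≤ A2 / √x := by
    have e1 : (Q.q v : ℝ) = P * N := by rw [hQ.q_eq]; ring
    have e2 : (Q.q (v + s) : ℝ) = P' * N' := by rw [hQ.q_eq]; ring
    have g1 := sqrt_lip (a := (Q.q v : ℝ) / x) (b := (Q.q (v + s) : ℝ) / x) (c := 1 / (2 * B))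
      (by rw [e2]; positivity) (by positivity) hr1
    refine g1.trans ?_
    have e3 : (Q.q v : ℝ) / x - (Q.q (v + s) : ℝ) / x = (N * (P - P') + P' * (N - N')) / x := by
      rw [e1, e2]
      field_simp
      ring
    have hP'2 : P' ≤ √x * (B * Ex) + σ := by
      have := (abs_le.1 hPP).1
      linarith
    have g2 : |N * (P - P') + P' * (N - N')| ≤ σ * (√x * (2 * (B * Ex) + σ)) := by
      refine (abs_add_le _ _).trans ?_
      rw [abs_mul, abs_mul, abs_of_pos hN0, abs_of_pos hP'0]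
      have h1 : N * |P - P'| ≤ √x * (B * Ex) * σ :=
        mul_le_mul hN2 hPP (abs_nonneg _) (by positivity)
      have h2 : P' * |N - N'| ≤ (√x * (B * Ex) + σ) * σ :=
        mul_le_mul hP'2 hNN (abs_nonneg _) (by positivity)
      have h3 : σ * σ ≤ σ * (√x * σ) :=
        mul_le_mul_of_nonneg_left (le_mul_of_one_le_left hσ0 hs1) hσ0
      have e4 : σ * (√x * (2 * (B * Ex) + σ)) =
        √x * (B * Ex) * σ + (√x * (B * Ex) * σ + σ * (√x * σ)) := by ring
      have e5 : (√x * (B * Ex) + σ) * σ = √x * (B * Ex) * σ + σ * σ := by ring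
      rw [e4]
      rw [e5] at h2
      linarith
    rw [e3, abs_div, abs_of_pos hx0]
    have hdiv : √x / x = 1 / √x := Real.sqrt_div_self'
    have e4 : A2 / √x = 2 * B * (σ * (√x * (2 * (B * Ex) + σ)) / x) := by
      calc A2 / √x = A2 * (1 / √x) := by ring
        _ = A2 * (√x / x) := by rw [hdiv]
        _ = 2 * B * (σ * (√x * (2 * (B * Ex) + σ)) / x) := by rw [hA2]; ring
    rw [e4]
    have e5 : |N * (P - P') + P' * (N - N')| / x / (1 / (2 * B)) =
        2 * B * (|N * (P - P') + P' * (N - N')| / x) := by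
      field_simp
    rw [e5]
    exact mul_le_mul_of_nonneg_left (div_le_div_of_nonneg_right g2 hx0.le) (by positivity)
  -- the integrals
  set t : ℝ := t0 / x with ht
  have ht1 : 0 < t := by positivity
  have ht2 : t ≤ 1 := by rw [ht, div_le_one hx0]; exact hx3
  have hz : ∀ r : ℝ, 0 ≤ r → ∀ u, t ≤ |u| → Hh G L x r u = 0 := by
    intro r hr u hu
    by_contra h3
    have := (Hh_supp hB hS hL hx1 hr h3).1
    rw [ht, ht0] at hu
    linarith
  have hi : ∀ r a b, IntervalIntegrable (Hh G L x r) MeasureTheory.volume a b := fun r a b =>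
    (Hh_cont hlip L x r).intervalIntegrable a b
  have hρ'0 : 0 ≤ ρ' := Real.sqrt_nonneg _
  have hK : Kf Q τ G L x v - Kf Q τ G L x (v + s) =
      τ⁻¹ * ((∫ u in (ψ - T)..ψ, (Hh G L x ρ u - Hh G L x ρ' u)) +
        ((∫ u in (ψ - T)..(ψ' - T), Hh G L x ρ' u) - ∫ u in ψ..ψ', Hh G L x ρ' u)) := by
    rw [Kf_polar hQ hτ G L hx0 hcn, Kf_polar hQ hτ G L hx0 hcn', ← mul_sub]
    congr 1
    rw [intervalIntegral.integral_sub (hi _ _ _) (hi _ _ _)]
    have h1 := intervalIntegral.integral_interval_sub_interval_comm (hi ρ' (ψ - T) ψ)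
      (hi ρ' (ψ' - T) ψ') (hi ρ' (ψ - T) (ψ' - T))
    rw [← h1]
    ring
  have hI1 : |∫ u in (ψ - T)..ψ, (Hh G L x ρ u - Hh G L x ρ' u)| ≤
      |CG| * (A2 / √x * (4 + 4 * t0)) * (2 * t) := by
    refine int_any (F := fun u => Hh G L x ρ u - Hh G L x ρ' u)
      ((Hh_cont hlip L x ρ).sub (Hh_cont hlip L x ρ')) ht1.le (fun u hu => ?_)
      (fun u hu => by rw [hz ρ hρ0.le u hu, hz ρ' hρ'0 u hu, sub_zero]) _ _
    have h1 := hCG (ρ * Real.cosh u) (x * ρ * Real.sinh u / L) (ρ' * Real.cosh u)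
      (x * ρ' * Real.sinh u / L)
    obtain ⟨hch, hsh⟩ := hyp_two (hu.trans ht2)
    have h2 : |ρ * Real.cosh u - ρ' * Real.cosh u| ≤ A2 / √x * 4 := by
      rw [← sub_mul, abs_mul, abs_of_pos (Real.cosh_pos u)]
      exact mul_le_mul hnorm hch (Real.cosh_pos u).le (by positivity)
    have h3 : |x * ρ * Real.sinh u / L - x * ρ' * Real.sinh u / L| ≤ A2 / √x * (4 * t0) := by
      rw [show x * ρ * Real.sinh u / L - x * ρ' * Real.sinh u / L =
        (ρ - ρ') * (x * Real.sinh u / L) by ring, abs_mul]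
      refine mul_le_mul hnorm ?_ (abs_nonneg _) (by positivity)
      rw [abs_div, abs_of_pos hL0, abs_mul, abs_of_pos hx0, div_le_iff₀ hL0]
      have h4 : x * |u| ≤ t0 := by
        have := mul_le_mul_of_nonneg_left hu hx0.le
        rw [ht] at this
        rwa [mul_div_cancel₀ _ hx0.ne'] at this
      have h5 : x * |Real.sinh u| ≤ x * (4 * |u|) := mul_le_mul_of_nonneg_left hsh hx0.le
      have h6 : 4 * t0 ≤ 4 * t0 * L := le_mul_of_one_le_right (by positivity) hL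
      linarith
    calc |Hh G L x ρ u - Hh G L x ρ' u| ≤ CG * (|ρ * Real.cosh u - ρ' * Real.cosh u| +
          |x * ρ * Real.sinh u / L - x * ρ' * Real.sinh u / L|) := h1
      _ ≤ |CG| * (|ρ * Real.cosh u - ρ' * Real.cosh u| +
          |x * ρ * Real.sinh u / L - x * ρ' * Real.sinh u / L|) :=
          mul_le_mul_of_nonneg_right (le_abs_self CG) (by positivity)
      _ ≤ |CG| * (A2 / √x * 4 + A2 / √x * (4 * t0)) :=
          mul_le_mul_of_nonneg_left (add_le_add h2 h3) (abs_nonneg CG)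
      _ = |CG| * (A2 / √x * (4 + 4 * t0)) := by ring
  have hI2 : |(∫ u in (ψ - T)..(ψ' - T), Hh G L x ρ' u) - ∫ u in ψ..ψ', Hh G L x ρ' u| ≤
      2 * (M * (2 * t)) := by
    have h1 := int_any (Hh_cont hlip L x ρ') ht1.le (fun u _ => hM _ _) (hz ρ' hρ'0)
      (ψ - T) (ψ' - T)
    have h2 := int_any (Hh_cont hlip L x ρ') ht1.le (fun u _ => hM _ _) (hz ρ' hρ'0) ψ ψ'
    refine (abs_sub _ _).trans ?_
    linarith
  have hC1x : τ⁻¹ * (|CG| * (A2 / √x * (4 + 4 * t0)) * (2 * t)) = C1 / (x * √x) := by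
    rw [hC1, ht]
    field_simp
  have hC2x : τ⁻¹ * (2 * (M * (2 * t))) = C2 / x := by
    rw [hC2, ht]
    ring
  have hτi : 0 < τ⁻¹ := inv_pos.2 hτ
  have hmain : |Kf Q τ G L x v - Kf Q τ G L x (v + s)| ≤ C1 / (x * √x) +
      τ⁻¹ * |(∫ u in (ψ - T)..(ψ' - T), Hh G L x ρ' u) - ∫ u in ψ..ψ', Hh G L x ρ' u| := by
    rw [hK, abs_mul, abs_of_pos hτi, ← hC1x, ← mul_add]
    exact mul_le_mul_of_nonneg_left ((abs_add_le _ _).trans (add_le_add hI1 le_rfl)) hτi.le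
  have hle1 : C1 / (x * √x) ≤ (C1 + C2 + C3) / (x * √x) :=
    div_le_div_of_nonneg_right (by linarith) (by positivity)
  by_cases hbd : Bdy Q T (C1 + C2 + C3) v
  · rw [if_pos hbd]
    refine hmain.trans (add_le_add hle1 ?_)
    calc τ⁻¹ * |(∫ u in (ψ - T)..(ψ' - T), Hh G L x ρ' u) - ∫ u in ψ..ψ', Hh G L x ρ' u|
        ≤ τ⁻¹ * (2 * (M * (2 * t))) := mul_le_mul_of_nonneg_left hI2 hτi.le
      _ = C2 / x := hC2x
      _ ≤ (C1 + C2 + C3) / x := div_le_div_of_nonneg_right (by linarith) hx0.le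
  · rw [if_neg hbd, add_zero]
    have hb : ∀ ψ0 : ℝ, (ψ0 = 0 ∨ ψ0 = T) → t + |ψ - ψ'| < |ψ - ψ0| := by
      intro ψ0 hψ0
      by_contra hcon
      push Not at hcon
      apply hbd
      have h1 : |ψ - ψ0| ≤ (t0 + A1) / √x := by
        have h2 : t ≤ t0 / √x := div_le_div_of_nonneg_left ht00.le hs hsle
        rw [add_div]
        linarith
      have h3 : |ψ - ψ0| ≤ 2 * T + 2 := by
        have h4 : |ψ| ≤ T + 2 := abs_le.2 ⟨by linarith, by linarith⟩
        rcases hψ0 with h5 | h5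
        · rw [h5, sub_zero]
          linarith
        · rw [h5]
          refine (abs_sub _ _).trans ?_
          rw [abs_of_pos hT0]
          linarith
      have h4 := abs_sinh_le_mul h3
      have h5 : |√x * ρ * Real.sinh (ψ - ψ0)| ≤ C1 + C2 + C3 := by
        rw [abs_mul, abs_of_pos (mul_pos hs hρ0)]
        calc √x * ρ * |Real.sinh (ψ - ψ0)|
            ≤ √x * B * (Real.exp (2 * T + 2) * ((t0 + A1) / √x)) := by
              refine mul_le_mul (mul_le_mul_of_nonneg_left hr2 hs.le) ?_ (abs_nonneg _)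
                (by positivity)
              exact h4.trans (mul_le_mul_of_nonneg_left h1 (Real.exp_pos _).le)
          _ = C3 := by
              rw [hC3]
              field_simp
          _ ≤ C1 + C2 + C3 := by linarith
      unfold Bdy
      rcases hψ0 with h6 | h6
      · left
        rw [h6, sub_zero] at h5
        rw [hY1]
        exact h5
      · right
        rw [h6, Real.sinh_sub] at h5
        rw [hX1, hY1, ← abs_neg]
        refine le_trans (le_of_eq ?_) h5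
        congr 1
        ring
    have hfar : ∀ ψ0 : ℝ, (ψ0 = 0 ∨ ψ0 = T) →
        ∫ u in (ψ - ψ0)..(ψ' - ψ0), Hh G L x ρ' u = 0 := by
      intro ψ0 hψ0
      have h1 := hb ψ0 hψ0
      have h2 := abs_le.1 (le_refl |ψ - ψ'|)
      apply int_far (hz ρ' hρ'0)
      rcases lt_or_ge 0 (ψ - ψ0) with h3 | h3
      · left
        rw [abs_of_pos h3] at h1
        have := abs_nonneg (ψ - ψ')
        exact ⟨by linarith, by linarith [h2.2]⟩
      · right
        rw [abs_of_nonpos h3] at h1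
        have := abs_nonneg (ψ - ψ')
        exact ⟨by linarith, by linarith [h2.1]⟩
    have f1 := hfar T (Or.inr rfl)
    have f2 := hfar 0 (Or.inl rfl)
    rw [sub_zero, sub_zero] at f2
    rw [f1, f2, sub_zero, abs_zero, mul_zero, add_zero] at hmain
    exact hmain.trans hle1


/-! ### counting in boxes -/

/-- the box -/
noncomputable def Sb (r : ℕ) : Finset V := Finset.Icc (-(r : ℤ)) r ×ˢ Finset.Icc (-(r : ℤ)) r

theorem mem_Sb {R : ℝ} {v : V} (h1 : |(v.1 : ℝ)| ≤ R) (h2 : |(v.2 : ℝ)| ≤ R) : v ∈ Sb ⌊R⌋₊ := by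
  have key : ∀ m : ℤ, |(m : ℝ)| ≤ R → -((⌊R⌋₊ : ℕ) : ℤ) ≤ m ∧ m ≤ ((⌊R⌋₊ : ℕ) : ℤ) := by
    intro m hm
    have h3 : ((m.natAbs : ℕ) : ℝ) ≤ R := by
      rw [Nat.cast_natAbs, Int.cast_abs]
      exact hm
    have h4 := Nat.le_floor h3
    omega
  unfold Sb
  rw [Finset.mem_product, Finset.mem_Icc, Finset.mem_Icc]
  exact ⟨key _ h1, key _ h2⟩

theorem of_mem_Sb {r : ℕ} {v : V} (h : v ∈ Sb r) : |(v.1 : ℝ)| ≤ r ∧ |(v.2 : ℝ)| ≤ r := by
  unfold Sb at h
  rw [Finset.mem_product, Finset.mem_Icc, Finset.mem_Icc] at h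
  obtain ⟨⟨h1, h2⟩, h3, h4⟩ := h
  constructor
  · rw [abs_le]
    constructor
    · exact_mod_cast h1
    · exact_mod_cast h2
  · rw [abs_le]
    constructor
    · exact_mod_cast h3
    · exact_mod_cast h4

theorem card_Sb (r : ℕ) : (Sb r).card = (2 * r + 1) ^ 2 := by
  unfold Sb
  rw [Finset.card_product, Int.card_Icc]
  have : ((r : ℤ) + 1 - -(r : ℤ)).toNat = 2 * r + 1 := by omega
  rw [this]
  ring

open Classical in
theorem card_dv (r e : ℕ) (he : 1 ≤ e) :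
    (((Sb r).filter (fun v => Dv e v ∧ v ≠ 0)).card : ℝ) ≤ 8 * ((r : ℝ) / e) ^ 2 := by
  have he0 : (0 : ℤ) < e := by exact_mod_cast he
  have h1 : (Sb r).filter (fun v => Dv e v ∧ v ≠ 0) ⊆
      ((Sb (r / e)).erase 0).image (fun w : V => ((e : ℤ) * w.1, (e : ℤ) * w.2)) := by
    intro v hv
    rw [Finset.mem_filter] at hv
    obtain ⟨hv1, ⟨⟨a, ha⟩, ⟨b, hb⟩⟩, hv0⟩ := hv
    rw [Finset.mem_image]
    refine ⟨(a, b), ?_, Prod.ext ha.symm hb.symm⟩
    rw [Finset.mem_erase]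
    constructor
    · intro h
      apply hv0
      have h2 := congrArg Prod.fst h
      have h3 := congrArg Prod.snd h
      simp only [Prod.fst_zero, Prod.snd_zero] at h2 h3
      rw [h2, mul_zero] at ha
      rw [h3, mul_zero] at hb
      exact Prod.ext ha hb
    · unfold Sb at hv1 ⊢
      rw [Finset.mem_product, Finset.mem_Icc, Finset.mem_Icc] at hv1 ⊢
      obtain ⟨⟨h1, h2⟩, h3, h4⟩ := hv1
      rw [ha] at h1 h2
      rw [hb] at h3 h4
      have key : ∀ m : ℤ, -(r : ℤ) ≤ e * m → e * m ≤ r →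
          -((r / e : ℕ) : ℤ) ≤ m ∧ m ≤ ((r / e : ℕ) : ℤ) := by
        intro m g1 g2
        have g3 : ((r / e : ℕ) : ℤ) = (r : ℤ) / e := by push_cast; rfl
        rw [g3]
        constructor
        · have g4 : -m ≤ (r : ℤ) / e := by
            rw [Int.le_ediv_iff_mul_le he0]
            linarith
          linarith
        · rw [Int.le_ediv_iff_mul_le he0]
          linarith
      exact ⟨key _ h1 h2, key _ h3 h4⟩
  have h2 : ((Sb r).filter (fun v => Dv e v ∧ v ≠ 0)).card ≤ (2 * (r / e) + 1) ^ 2 - 1 := by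
    refine (Finset.card_le_card h1).trans (Finset.card_image_le.trans ?_)
    rw [Finset.card_erase_of_mem, card_Sb]
    unfold Sb
    rw [Finset.mem_product, Finset.mem_Icc, Finset.mem_Icc, Prod.fst_zero, Prod.snd_zero]
    have := Int.natCast_nonneg (r / e)
    exact ⟨⟨by linarith, this⟩, by linarith, this⟩
  have h3 : (((Sb r).filter (fun v => Dv e v ∧ v ≠ 0)).card : ℝ) ≤
      4 * ((r / e : ℕ) : ℝ) ^ 2 + 4 * ((r / e : ℕ) : ℝ) := by
    have h4 : (2 * (r / e) + 1) ^ 2 - 1 = 4 * (r / e) ^ 2 + 4 * (r / e) := by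
      rw [Nat.sub_eq_iff_eq_add (Nat.one_le_iff_ne_zero.2 (by positivity))]
      ring
    rw [h4] at h2
    exact_mod_cast h2
  have h5 : ((r / e : ℕ) : ℝ) ≤ (r : ℝ) / e := Nat.cast_div_le
  have h6 : ((r / e : ℕ) : ℝ) ≤ ((r / e : ℕ) : ℝ) ^ 2 := by
    have : (r / e) ≤ (r / e) ^ 2 := Nat.le_self_pow two_ne_zero _
    exact_mod_cast this
  have h7 : ((r / e : ℕ) : ℝ) ^ 2 ≤ ((r : ℝ) / e) ^ 2 :=
    pow_le_pow_left₀ (Nat.cast_nonneg _) h5 2
  linarith

theorem card_int {S : Finset ℤ} {α c y : ℝ} (hα : α ≠ 0) (hc : 0 ≤ c)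
    (h : ∀ m ∈ S, |α * m + y| ≤ c) : (S.card : ℝ) ≤ 2 * c / |α| + 1 := by
  have hα0 : 0 < |α| := abs_pos.2 hα
  have h1 : ∀ m ∈ S, -y / α - c / |α| ≤ m ∧ (m : ℝ) ≤ -y / α + c / |α| := by
    intro m hm
    have h2 := h m hm
    have h3 : α * m + y = α * (m - -y / α) := by field_simp; ring
    rw [h3, abs_mul, ← le_div_iff₀' hα0, abs_le] at h2
    constructor <;> linarith [h2.1, h2.2]
  have h2 : S ⊆ Finset.Icc ⌈-y / α - c / |α|⌉ ⌊-y / α + c / |α|⌋ := by
    intro m hm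
    rw [Finset.mem_Icc]
    exact ⟨Int.ceil_le.2 (h1 m hm).1, Int.le_floor.2 (h1 m hm).2⟩
  have h3 := Finset.card_le_card h2
  rw [Int.card_Icc] at h3
  have h4 : (((⌊-y / α + c / |α|⌋ + 1 - ⌈-y / α - c / |α|⌉).toNat : ℕ) : ℝ) ≤ 2 * c / |α| + 1 := by
    rcases le_total 0 (⌊-y / α + c / |α|⌋ + 1 - ⌈-y / α - c / |α|⌉) with h5 | h5
    · have h6 : (((⌊-y / α + c / |α|⌋ + 1 - ⌈-y / α - c / |α|⌉).toNat : ℕ) : ℝ) =
          ((⌊-y / α + c / |α|⌋ + 1 - ⌈-y / α - c / |α|⌉ : ℤ) : ℝ) := by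
        have := Int.toNat_of_nonneg h5
        exact_mod_cast congrArg (Int.cast : ℤ → ℝ) this
      rw [h6]
      push_cast
      have h7 := Int.floor_le (-y / α + c / |α|)
      have h8 := Int.le_ceil (-y / α - c / |α|)
      have h9 : 2 * c / |α| = c / |α| + c / |α| := by ring
      rw [h9]
      linarith
    · rw [Int.toNat_of_nonpos h5, Nat.cast_zero]
      positivity
  exact (by exact_mod_cast h3 : (S.card : ℝ) ≤ _).trans h4

open Classical in
theorem card_thin (α β c : ℝ) (h : α ≠ 0 ∨ β ≠ 0) (hc : 0 ≤ c) : ∃ C : ℝ, 0 ≤ C ∧ ∀ r : ℕ,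
    (((Sb r).filter (fun v => |α * v.1 + β * v.2| ≤ c)).card : ℝ) ≤ C * (2 * r + 1) := by
  have hI : ∀ r : ℕ, ((Finset.Icc (-(r : ℤ)) r).card : ℝ) = 2 * r + 1 := by
    intro r
    rw [Int.card_Icc]
    have : ((r : ℤ) + 1 - -(r : ℤ)).toNat = 2 * r + 1 := by omega
    rw [this]
    push_cast
    ring
  rcases h with h | h
  · refine ⟨2 * c / |α| + 1, by positivity, fun r => ?_⟩
    have h1 : ((Sb r).filter (fun v => |α * v.1 + β * v.2| ≤ c)).card =
        ∑ y ∈ Finset.Icc (-(r : ℤ)) r,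
          ((Finset.Icc (-(r : ℤ)) r).filter (fun x : ℤ => |α * x + β * y| ≤ c)).card := by
      rw [Finset.card_eq_sum_card_fiberwise (f := fun v : V => v.2)
        (t := Finset.Icc (-(r : ℤ)) r)]
      · refine Finset.sum_congr rfl fun y hy => ?_
        refine Finset.card_nbij' (fun v => v.1) (fun x => (x, y)) ?_ ?_ ?_ ?_
        · intro v hv
          simp only [Sb, Finset.coe_filter, Finset.mem_filter, Finset.mem_product,
            Set.mem_ofPred_eq] at hv ⊢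
          obtain ⟨⟨⟨h2, -⟩, h3⟩, h4⟩ := hv
          rw [h4] at h3
          exact ⟨h2, h3⟩
        · intro x hx
          simp only [Sb, Finset.coe_filter, Finset.mem_filter, Finset.mem_product,
            Set.mem_ofPred_eq] at hx ⊢
          exact ⟨⟨⟨hx.1, hy⟩, hx.2⟩, trivial⟩
        · intro v hv
          simp only [Finset.coe_filter, Finset.mem_filter, Set.mem_ofPred_eq] at hv
          exact Prod.ext rfl hv.2.symm
        · intro x _
          rfl
      · intro v hv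
        simp only [Sb, Finset.coe_filter, Finset.mem_product, Set.mem_ofPred_eq] at hv
        exact Finset.mem_coe.2 hv.1.2
    rw [h1]
    push_cast
    have h2 : ∀ y ∈ Finset.Icc (-(r : ℤ)) r,
        ((((Finset.Icc (-(r : ℤ)) r).filter (fun x : ℤ => |α * x + β * y| ≤ c)).card : ℕ) : ℝ) ≤
          2 * c / |α| + 1 := by
      intro y _
      apply card_int (y := β * y) h hc
      intro m hm
      rw [Finset.mem_filter] at hm
      exact hm.2
    refine (Finset.sum_le_sum h2).trans ?_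
    rw [Finset.sum_const, nsmul_eq_mul, hI]
    linarith
  · refine ⟨2 * c / |β| + 1, by positivity, fun r => ?_⟩
    have h1 : ((Sb r).filter (fun v => |α * v.1 + β * v.2| ≤ c)).card =
        ∑ x ∈ Finset.Icc (-(r : ℤ)) r,
          ((Finset.Icc (-(r : ℤ)) r).filter (fun y : ℤ => |α * x + β * y| ≤ c)).card := by
      rw [Finset.card_eq_sum_card_fiberwise (f := fun v : V => v.1)
        (t := Finset.Icc (-(r : ℤ)) r)]
      · refine Finset.sum_congr rfl fun x hx => ?_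
        refine Finset.card_nbij' (fun v => v.2) (fun y => (x, y)) ?_ ?_ ?_ ?_
        · intro v hv
          simp only [Sb, Finset.coe_filter, Finset.mem_filter, Finset.mem_product,
            Set.mem_ofPred_eq] at hv ⊢
          obtain ⟨⟨⟨-, h2⟩, h3⟩, h4⟩ := hv
          rw [h4] at h3
          exact ⟨h2, h3⟩
        · intro y hy
          simp only [Sb, Finset.coe_filter, Finset.mem_filter, Finset.mem_product,
            Set.mem_ofPred_eq] at hy ⊢
          exact ⟨⟨⟨hx, hy.1⟩, hy.2⟩, trivial⟩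
        · intro v hv
          simp only [Finset.coe_filter, Finset.mem_filter, Set.mem_ofPred_eq] at hv
          exact Prod.ext hv.2.symm rfl
        · intro y _
          rfl
      · intro v hv
        simp only [Sb, Finset.coe_filter, Finset.mem_product, Set.mem_ofPred_eq] at hv
        exact Finset.mem_coe.2 hv.1.1
    rw [h1]
    push_cast
    have h2 : ∀ x ∈ Finset.Icc (-(r : ℤ)) r,
        ((((Finset.Icc (-(r : ℤ)) r).filter (fun y : ℤ => |α * x + β * y| ≤ c)).card : ℕ) : ℝ) ≤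
          2 * c / |β| + 1 := by
      intro x _
      apply card_int (y := α * x) h hc
      intro m hm
      rw [Finset.mem_filter] at hm
      rw [add_comm]
      exact hm.2
    refine (Finset.sum_le_sum h2).trans ?_
    rw [Finset.sum_const, nsmul_eq_mul, hI]
    linarith

open Classical in
theorem card_bdy {d : ℕ} {Q : Form} (hQ : Hyp d Q) {T : ℝ} (hT : 0 < T) {c : ℝ} (hc : 0 ≤ c) :
    ∃ C : ℝ, 0 ≤ C ∧ ∀ r : ℕ, (((Sb r).filter (Bdy Q T c)).card : ℝ) ≤ C * (2 * r + 1) := by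
  have h1 := hQ.sa
  have h2 := hQ.sd
  set p := √(Q.a : ℝ) with hp
  set q := √(d : ℝ) with hq
  obtain ⟨C1, hC1, hC1'⟩ := card_thin 0 (q / (2 * p)) c (Or.inr (by positivity)) hc
  obtain ⟨C2, hC2, hC2'⟩ := card_thin (p * Real.sinh T)
    (Q.b / (2 * p) * Real.sinh T - q / (2 * p) * Real.cosh T) c
    (Or.inl (mul_pos h1 (Real.sinh_pos_iff.2 hT)).ne') hc
  refine ⟨C1 + C2, by positivity, fun r => ?_⟩
  have h3 : (Sb r).filter (Bdy Q T c) ⊆
      (Sb r).filter (fun v => |(0 : ℝ) * v.1 + q / (2 * p) * v.2| ≤ c) ∪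
      (Sb r).filter (fun v => |p * Real.sinh T * v.1 +
        (Q.b / (2 * p) * Real.sinh T - q / (2 * p) * Real.cosh T) * v.2| ≤ c) := by
    intro v hv
    rw [Finset.mem_filter] at hv
    rw [Finset.mem_union, Finset.mem_filter, Finset.mem_filter]
    obtain ⟨hv1, hv2⟩ := hv
    have e1 : hY Q v = q / (2 * p) * v.2 := by
      rw [hQ.hY_eq, ← hp, ← hq]
      ring
    have e2 : hX Q v = p * v.1 + Q.b / (2 * p) * v.2 := by
      unfold hX
      rw [← hp]
      ring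
    rcases hv2 with h4 | h4
    · left
      refine ⟨hv1, ?_⟩
      rw [e1] at h4
      rw [zero_mul, zero_add]
      exact h4
    · right
      refine ⟨hv1, ?_⟩
      rw [e1, e2] at h4
      refine le_trans (le_of_eq ?_) h4
      congr 1
      ring
  have h4 := (Finset.card_le_card h3).trans (Finset.card_union_le _ _)
  have h5 : (((Sb r).filter (Bdy Q T c)).card : ℝ) ≤
      (((Sb r).filter (fun v => |(0 : ℝ) * v.1 + q / (2 * p) * v.2| ≤ c)).card : ℝ) +
      (((Sb r).filter (fun v => |p * Real.sinh T * v.1 +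
        (Q.b / (2 * p) * Real.sinh T - q / (2 * p) * Real.cosh T) * v.2| ≤ c)).card : ℝ) := by
    exact_mod_cast h4
  have h6 := hC1' r
  have h7 := hC2' r
  linarith


/-! ### the sums -/

theorem Kf_box {d : ℕ} {Q : Form} (hQ : Hyp d Q) {τ : ℝ} (hτ : 0 < τ) {B : ℝ} {G : ℝ → ℝ → ℝ}
    (hG : GT B G) {L : ℝ} (hL : 1 ≤ L) : ∃ R : ℝ, 0 < R ∧
      (∀ x θ : ℝ, 1 ≤ x → 0 ≤ θ → θ ≤ 2 * Real.pi → ∀ v : V, fg Q τ G L x θ v ≠ 0 →
        v ∈ Sb ⌊R * √x⌋₊) ∧
      ∀ x : ℝ, 2 * B ^ 2 * L ≤ x → ∀ v : V, Kf Q τ G L x v ≠ 0 → v ∈ Sb ⌊R * √x⌋₊ := by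
  obtain ⟨R, hR, h1⟩ := boxXY Q hτ hG hL
  obtain ⟨c, hc, h2, -⟩ := coord_le hQ
  have key : ∀ x θ : ℝ, 1 ≤ x → 0 ≤ θ → θ ≤ 2 * Real.pi → ∀ v : V, fg Q τ G L x θ v ≠ 0 →
      v ∈ Sb ⌊c * (2 * R) * √x⌋₊ := by
    intro x θ hx h3 h4 v hv
    obtain ⟨g1, g2⟩ := h1 x θ hx h3 h4 v hv
    obtain ⟨g3, g4⟩ := h2 v
    have g5 : c * (|hX Q v| + |hY Q v|) ≤ c * (2 * R) * √x := by
      rw [mul_assoc]
      exact mul_le_mul_of_nonneg_left (by linarith) hc.le
    exact mem_Sb (g3.trans g5) (g4.trans g5)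
  refine ⟨c * (2 * R), by positivity, key, fun x hx v hv => ?_⟩
  obtain ⟨-, -, -, -, -, θ, hθ1, hθ2, hθ⟩ := Kf_supp hQ hτ hG hL hx hv
  have hx1 : 1 ≤ x := by
    have h3 := hG.1
    have h4 : 1 ≤ B ^ 2 := one_le_pow₀ h3
    nlinarith
  exact key x θ hx1 hθ1 hθ2 v hθ

theorem two_r {R x : ℝ} (hR : 0 < R) (hx : 1 ≤ x) :
    2 * ((⌊R * √x⌋₊ : ℕ) : ℝ) + 1 ≤ (2 * R + 1) * √x := by
  have h1 : ((⌊R * √x⌋₊ : ℕ) : ℝ) ≤ R * √x := Nat.floor_le (by positivity)
  have h2 : 1 ≤ √x := by rw [Real.one_le_sqrt]; exact hx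
  linarith

theorem sum_shift {d : ℕ} {Q : Form} (hQ : Hyp d Q) {τ : ℝ} (hτ : 0 < τ) {B : ℝ} {G : ℝ → ℝ → ℝ}
    (hG : GT B G) {L : ℝ} (hL : 1 ≤ L) (s : V) : ∃ C x0 : ℝ, 1 ≤ x0 ∧ ∀ x : ℝ, x0 ≤ x →
      ∑' v, |Kf Q τ G L x v - Kf Q τ G L x (v + s)| ≤ C / √x := by
  classical
  obtain ⟨R, hR, -, hbox⟩ := Kf_box hQ hτ hG hL
  have hT : 0 < τ * (2 * Real.pi) := by positivity
  have key : ∀ s : V, ∃ C x0 : ℝ, 0 ≤ C ∧ 1 ≤ x0 ∧ 2 * B ^ 2 * L ≤ x0 ∧ ∀ x : ℝ, x0 ≤ x →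
      ∃ g : V → ℝ, (∀ v, 0 ≤ g v) ∧ (∀ v, Kf Q τ G L x v ≠ 0 →
        |Kf Q τ G L x v - Kf Q τ G L x (v + s)| ≤ g v) ∧ Summable g ∧ ∑' v, g v ≤ C / √x := by
    intro s
    obtain ⟨C, x0, hC, hx0, h1⟩ := Kf_shift hQ hτ hG hL s
    obtain ⟨C', hC', h2⟩ := card_bdy hQ hT hC
    refine ⟨C * (2 * R + 1) ^ 2 + C * (C' * (2 * R + 1)), max x0 (2 * B ^ 2 * L), by positivity,
      le_max_of_le_left hx0, le_max_right _ _, fun x hx => ?_⟩
    have hxx0 : x0 ≤ x := (le_max_left _ _).trans hx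
    have hxB : 2 * B ^ 2 * L ≤ x := (le_max_right _ _).trans hx
    have hx1 : 1 ≤ x := hx0.trans hxx0
    have hxp : 0 < x := by linarith
    have hs : 0 < √x := Real.sqrt_pos.2 hxp
    have hsx : √x * √x = x := Real.mul_self_sqrt hxp.le
    set g : V → ℝ := fun v => if v ∈ Sb ⌊R * √x⌋₊ then
      C / (x * √x) + (if Bdy Q (τ * (2 * Real.pi)) C v then C / x else 0) else 0 with hg
    have hg0 : ∀ v, 0 ≤ g v := by
      intro v
      simp only [hg]
      split_ifs <;> positivity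
    refine ⟨g, hg0, ?_, summ (S := Sb ⌊R * √x⌋₊) ?_, ?_⟩
    · intro v hv
      simp only [hg]
      rw [if_pos (hbox x hxB v hv)]
      exact h1 x hxx0 v hv
    · intro v hv
      by_contra h3
      apply hv
      simp only [hg]
      rw [if_neg h3]
    · rw [tsum_eq_sum (s := Sb ⌊R * √x⌋₊)]
      · have e1 : ∑ v ∈ Sb ⌊R * √x⌋₊, g v = ((Sb ⌊R * √x⌋₊).card : ℝ) * (C / (x * √x)) +
            (((Sb ⌊R * √x⌋₊).filter (Bdy Q (τ * (2 * Real.pi)) C)).card : ℝ) * (C / x) := by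
          have e2 : ∀ v ∈ Sb ⌊R * √x⌋₊, g v = C / (x * √x) +
              (if Bdy Q (τ * (2 * Real.pi)) C v then C / x else 0) := by
            intro v hv
            simp only [hg]
            rw [if_pos hv]
          rw [Finset.sum_congr rfl e2, Finset.sum_add_distrib, Finset.sum_const, nsmul_eq_mul,
            ← Finset.sum_filter, Finset.sum_const, nsmul_eq_mul]
        rw [e1]
        have h3 := two_r hR hx1
        have h4 : ((Sb ⌊R * √x⌋₊).card : ℝ) ≤ ((2 * R + 1) * √x) ^ 2 := by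
          rw [card_Sb]
          push_cast
          exact pow_le_pow_left₀ (by positivity) h3 2
        have h5 : (((Sb ⌊R * √x⌋₊).filter (Bdy Q (τ * (2 * Real.pi)) C)).card : ℝ) ≤
            C' * ((2 * R + 1) * √x) := (h2 _).trans (mul_le_mul_of_nonneg_left h3 hC')
        have h6 : ((2 * R + 1) * √x) ^ 2 * (C / (x * √x)) = C * (2 * R + 1) ^ 2 / √x := by
          rw [mul_pow, Real.sq_sqrt hxp.le]
          field_simp
        have h7 : C' * ((2 * R + 1) * √x) * (C / x) = C * (C' * (2 * R + 1)) / √x := by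
          have : √x / x = 1 / √x := Real.sqrt_div_self'
          calc C' * ((2 * R + 1) * √x) * (C / x) = C * (C' * (2 * R + 1)) * (√x / x) := by ring
            _ = C * (C' * (2 * R + 1)) / √x := by rw [this]; ring
        have h8 : 0 ≤ C / (x * √x) := by positivity
        have h9 : 0 ≤ C / x := by positivity
        rw [add_div, ← h6, ← h7]
        exact add_le_add (mul_le_mul_of_nonneg_right h4 h8) (mul_le_mul_of_nonneg_right h5 h9)
      · intro v hv
        simp only [hg]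
        rw [if_neg hv]
  obtain ⟨C1, x1, hC1, hx1, hxB1, h1⟩ := key s
  obtain ⟨C2, x2, hC2, hx2, hxB2, h2⟩ := key (-s)
  refine ⟨C1 + C2, max x1 x2, le_max_of_le_left hx1, fun x hx => ?_⟩
  have hxx1 : x1 ≤ x := (le_max_left _ _).trans hx
  have hxx2 : x2 ≤ x := (le_max_right _ _).trans hx
  obtain ⟨g1, hg1, hg1', hs1, ht1⟩ := h1 x hxx1
  obtain ⟨g2, hg2, hg2', hs2, ht2⟩ := h2 x hxx2
  have hs2' : Summable fun v => g2 (v + s) := (Equiv.addRight s).summable_iff.2 hs2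
  have hpt : ∀ v, |Kf Q τ G L x v - Kf Q τ G L x (v + s)| ≤ g1 v + g2 (v + s) := by
    intro v
    by_cases h3 : Kf Q τ G L x v = 0
    · by_cases h4 : Kf Q τ G L x (v + s) = 0
      · rw [h3, h4, sub_zero, abs_zero]
        exact add_nonneg (hg1 _) (hg2 _)
      · have h5 := hg2' (v + s) h4
        rw [add_neg_cancel_right] at h5
        rw [abs_sub_comm]
        linarith [hg1 v]
    · have h5 := hg1' v h3
      linarith [hg2 (v + s)]
  have hs3 : Summable fun v => |Kf Q τ G L x v - Kf Q τ G L x (v + s)| :=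
    Summable.of_nonneg_of_le (fun v => abs_nonneg _) hpt (hs1.add hs2')
  calc ∑' v, |Kf Q τ G L x v - Kf Q τ G L x (v + s)| ≤ ∑' v, (g1 v + g2 (v + s)) :=
        hs3.tsum_le_tsum hpt (hs1.add hs2')
    _ = ∑' v, g1 v + ∑' v, g2 (v + s) := hs1.tsum_add hs2'
    _ = ∑' v, g1 v + ∑' v, g2 v := by
        congr 1
        exact (Equiv.addRight s).tsum_eq g2
    _ ≤ C1 / √x + C2 / √x := add_le_add ht1 ht2
    _ = (C1 + C2) / √x := by ring

/-- the large divisors -/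
theorem sum_div {d : ℕ} {Q : Form} (hQ : Hyp d Q) {τ : ℝ} (hτ : 0 < τ) {B : ℝ} {G : ℝ → ℝ → ℝ}
    (hG : GT B G) {L : ℝ} (hL : 1 ≤ L) {R : ℝ} (hR : 0 < R) : ∃ C : ℝ, 0 ≤ C ∧ ∀ x : ℝ,
      2 * B ^ 2 * L ≤ x → ∀ e : ℕ, 1 ≤ e →
      (∑ v ∈ Sb ⌊R * √x⌋₊, open Classical in if Dv e v then |Kf Q τ G L x v| else 0) ≤
        C / (e : ℝ) ^ 2 := by
  classical
  obtain ⟨C, hC, h1⟩ := Kf_bd hQ hτ hG hL
  refine ⟨8 * R ^ 2 * C, by positivity, fun x hx e he => ?_⟩
  have hx0 : 0 < x := by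
    have h3 := hG.1
    have h4 : 1 ≤ B ^ 2 := one_le_pow₀ h3
    nlinarith
  have he0 : (0 : ℝ) < e := by exact_mod_cast he
  have h2 : (∑ v ∈ Sb ⌊R * √x⌋₊, if Dv e v then |Kf Q τ G L x v| else 0) ≤
      ∑ v ∈ Sb ⌊R * √x⌋₊, if Dv e v ∧ v ≠ 0 then C / x else 0 := by
    refine Finset.sum_le_sum fun v _ => ?_
    by_cases h3 : Dv e v
    · by_cases h4 : v = 0
      · rw [if_pos h3, h4, Kf_zero hG, abs_zero]
        simp
      · rw [if_pos h3, if_pos ⟨h3, h4⟩]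
        exact h1 x hx v
    · rw [if_neg h3, if_neg (fun h => h3 h.1)]
  refine h2.trans ?_
  rw [← Finset.sum_filter, Finset.sum_const, nsmul_eq_mul]
  have h3 := card_dv ⌊R * √x⌋₊ e he
  have h4 : ((⌊R * √x⌋₊ : ℕ) : ℝ) ≤ R * √x := Nat.floor_le (by positivity)
  have h5 : (((⌊R * √x⌋₊ : ℕ) : ℝ) / e) ^ 2 ≤ (R * √x / e) ^ 2 :=
    pow_le_pow_left₀ (by positivity) (div_le_div_of_nonneg_right h4 he0.le) 2
  have h6 : 8 * (R * √x / e) ^ 2 * (C / x) = 8 * R ^ 2 * C / (e : ℝ) ^ 2 := by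
    rw [div_pow, mul_pow, Real.sq_sqrt hx0.le]
    field_simp
  rw [← h6]
  refine mul_le_mul_of_nonneg_right (h3.trans ?_) (by positivity)
  linarith

theorem tail_sum (E M : ℕ) (hE : 1 ≤ E) : ∑ e ∈ Finset.Ioc E M, 1 / (e : ℝ) ^ 2 ≤ 1 / (E : ℝ) := by
  have hE0 : (0 : ℝ) < E := by exact_mod_cast hE
  rcases le_total M E with h | h
  · rw [Finset.Ioc_eq_empty (by omega), Finset.sum_empty]
    positivity
  · have h1 : ∀ e ∈ Finset.Ioc E M, 1 / (e : ℝ) ^ 2 ≤ 1 / ((e : ℝ) - 1) - 1 / (e : ℝ) := by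
      intro e he
      rw [Finset.mem_Ioc] at he
      have h2 : (1 : ℝ) < e := by exact_mod_cast lt_of_le_of_lt hE he.1
      have h3 : (0 : ℝ) < e - 1 := by linarith
      rw [div_sub_div _ _ h3.ne' (by linarith), div_le_div_iff₀ (by positivity) (by positivity)]
      nlinarith
    refine (Finset.sum_le_sum h1).trans ?_
    have h4 : ∀ M : ℕ, E ≤ M → ∑ e ∈ Finset.Ioc E M, (1 / ((e : ℝ) - 1) - 1 / (e : ℝ)) =
        1 / (E : ℝ) - 1 / M := by
      intro M hM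
      induction M, hM using Nat.le_induction with
      | base => simp
      | succ m hm ih =>
        rw [Finset.sum_Ioc_succ_top hm, ih]
        push_cast
        ring
    rw [h4 M h]
    have : (0 : ℝ) ≤ 1 / M := by positivity
    linarith


/-- the difference of the integrals tends to zero -/
theorem main_int {d : ℕ} {Q : Form} (hQ : Hyp d Q) {τ : ℝ} (hτ : 0 < τ) {B : ℝ} {G : ℝ → ℝ → ℝ}
    (hG : GT B G) {L : ℝ} (hL : 1 ≤ L) {R : ℝ} (hR : 0 < R)
    (hbox : ∀ x : ℝ, 2 * B ^ 2 * L ≤ x → ∀ v : V, Kf Q τ G L x v ≠ 0 → v ∈ Sb ⌊R * √x⌋₊)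
    (N : ℕ) {a b : V} (ha : Prim a) (hb : Prim b) :
    Tendsto (fun n : ℕ => (∑ v ∈ Sb ⌊R * √(n : ℝ)⌋₊, open Classical in
        if Prim v ∧ Cg N a v then Kf Q τ G L n v else 0) -
      ∑ v ∈ Sb ⌊R * √(n : ℝ)⌋₊, open Classical in
        if Prim v ∧ Cg N b v then Kf Q τ G L n v else 0) atTop (𝓝 0) := by
  classical
  obtain ⟨s, hs⟩ := cmp N a b ha hb
  obtain ⟨C, hC, hC'⟩ := sum_div hQ hτ hG hL hR
  rw [Metric.tendsto_atTop]
  intro ε hε
  obtain ⟨E, hE⟩ := exists_nat_gt (max 1 (4 * C / ε))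
  have hE1 : 1 ≤ E := by
    have := (le_max_left 1 (4 * C / ε)).trans_lt hE
    have h2 : (1 : ℝ) < (E : ℝ) := this
    exact_mod_cast h2.le
  have hE0 : (0 : ℝ) < E := by exact_mod_cast hE1
  have hE2 : 2 * (C / E) < ε / 2 := by
    have h1 := (le_max_right 1 (4 * C / ε)).trans_lt hE
    rw [div_lt_iff₀ hε] at h1
    rw [← mul_div_assoc, div_lt_iff₀ hE0]
    linarith
  have hlim : Tendsto (fun n : ℕ => ∑ e ∈ Finset.Icc 1 E,
      ∑' v, |Kf Q τ G L n v - Kf Q τ G L n (v + s e)|) atTop (𝓝 0) := by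
    have h1 : Tendsto (fun n : ℕ => ∑ e ∈ Finset.Icc 1 E,
      ∑' v, |Kf Q τ G L n v - Kf Q τ G L n (v + s e)|) atTop
        (𝓝 (∑ e ∈ Finset.Icc 1 E, (0 : ℝ))) := by
      apply tendsto_finsetSum
      intro e _
      obtain ⟨C1, x0, hx0, h2⟩ := sum_shift hQ hτ hG hL (s e)
      have h3 : Tendsto (fun n : ℕ => C1 / √(n : ℝ)) atTop (𝓝 0) :=
        (Real.tendsto_sqrt_atTop.comp tendsto_natCast_atTop_atTop).const_div_atTop C1
      refine squeeze_zero' (Eventually.of_forall fun n => tsum_nonneg fun v => abs_nonneg _) ?_ h3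
      obtain ⟨n0, hn0⟩ := exists_nat_ge x0
      filter_upwards [eventually_ge_atTop n0] with n hn
      exact h2 n (hn0.trans (by exact_mod_cast hn))
    rwa [Finset.sum_const_zero] at h1
  obtain ⟨n1, hn1⟩ := (Metric.tendsto_atTop.1 hlim) (ε / 2) (by positivity)
  obtain ⟨n2, hn2⟩ := exists_nat_ge (2 * B ^ 2 * L)
  refine ⟨max n1 n2, fun n hn => ?_⟩
  have hnn1 := hn1 n ((le_max_left _ _).trans hn)
  have hnn2 : 2 * B ^ 2 * L ≤ (n : ℝ) :=
    hn2.trans (by exact_mod_cast (le_max_right n1 n2).trans hn)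
  rw [dist_zero_right, Real.norm_eq_abs] at hnn1 ⊢
  have hsup : ∀ v, Kf Q τ G L n v ≠ 0 → v ∈ Sb ⌊R * √(n : ℝ)⌋₊ := hbox n hnn2
  have h1 := hs (Kf Q τ G L n) (Sb ⌊R * √(n : ℝ)⌋₊) (⌊R * √(n : ℝ)⌋₊ + 1) E hsup
    (Kf_zero hG L n) (fun v hv => by
      have h2 := of_mem_Sb (hsup v hv)
      have hv0 : v ≠ 0 := by
        rintro rfl
        exact hv (Kf_zero hG L n)
      have h3 : v.1 ≠ 0 ∨ v.2 ≠ 0 := by
        by_contra hcon
        push Not at hcon
        exact hv0 (Prod.ext hcon.1 hcon.2)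
      rcases h3 with h3 | h3
      · have h4 : Int.gcd v.1 v.2 ≤ v.1.natAbs :=
          Nat.le_of_dvd (Int.natAbs_pos.2 h3) (Int.natCast_dvd.1 (Int.gcd_dvd_left _ _))
        have h5 : ((v.1.natAbs : ℕ) : ℝ) ≤ ((⌊R * √(n : ℝ)⌋₊ : ℕ) : ℝ) := by
          rw [Nat.cast_natAbs, Int.cast_abs]
          exact h2.1
        have h6 : v.1.natAbs ≤ ⌊R * √(n : ℝ)⌋₊ := by exact_mod_cast h5
        omega
      · have h4 : Int.gcd v.1 v.2 ≤ v.2.natAbs :=
          Nat.le_of_dvd (Int.natAbs_pos.2 h3) (Int.natCast_dvd.1 (Int.gcd_dvd_right _ _))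
        have h5 : ((v.2.natAbs : ℕ) : ℝ) ≤ ((⌊R * √(n : ℝ)⌋₊ : ℕ) : ℝ) := by
          rw [Nat.cast_natAbs, Int.cast_abs]
          exact h2.2
        have h6 : v.2.natAbs ≤ ⌊R * √(n : ℝ)⌋₊ := by exact_mod_cast h5
        omega)
  have h2 : ∑ e ∈ Finset.Ioc E (⌊R * √(n : ℝ)⌋₊ + 1), ∑ v ∈ Sb ⌊R * √(n : ℝ)⌋₊,
      (if Dv e v then |Kf Q τ G L n v| else 0) ≤ C / E := by
    refine (Finset.sum_le_sum fun e he => hC' n hnn2 e ?_).trans ?_
    · rw [Finset.mem_Ioc] at he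
      omega
    · have h3 : ∀ e ∈ Finset.Ioc E (⌊R * √(n : ℝ)⌋₊ + 1), C / (e : ℝ) ^ 2 =
          C * (1 / (e : ℝ) ^ 2) := fun e _ => by ring
      rw [Finset.sum_congr rfl h3, ← Finset.mul_sum]
      have h4 := mul_le_mul_of_nonneg_left (tail_sum E (⌊R * √(n : ℝ)⌋₊ + 1) hE1) hC
      calc _ ≤ C * (1 / (E : ℝ)) := h4
        _ = C / E := by ring
  have h3 := le_abs_self (∑ e ∈ Finset.Icc 1 E,
      ∑' v, |Kf Q τ G L n v - Kf Q τ G L n (v + s e)|)
  linarith

/-! ### Riemann sums -/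

theorem riem (φ : ℝ → ℝ) (Λ : ℝ) (hφ : Continuous φ)
    (hΛ : ∀ θ θ', 0 ≤ θ → θ ≤ 2 * Real.pi → 0 ≤ θ' → θ' ≤ 2 * Real.pi →
      |φ θ - φ θ'| ≤ Λ * |θ - θ'|) (N : ℕ) (hN : 0 < N) :
    |(∑ j ∈ Finset.range N, φ (2 * Real.pi * j / N)) / N -
      1 / (2 * Real.pi) * ∫ θ in (0 : ℝ)..(2 * Real.pi), φ θ| ≤ Λ * (2 * Real.pi) / N := by
  have hpi := Real.pi_pos
  have hN0 : (0 : ℝ) < N := by exact_mod_cast hN
  have hΛ0 : 0 ≤ Λ := by
    have := hΛ 0 1 le_rfl (by positivity) zero_le_one (by linarith [Real.pi_gt_three])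
    have h1 := (abs_nonneg _).trans this
    simpa using h1
  set a : ℕ → ℝ := fun j => 2 * Real.pi * j / N with ha
  have ha0 : ∀ j, 0 ≤ a j := fun j => by simp only [ha]; positivity
  have haN : ∀ j, j ≤ N → a j ≤ 2 * Real.pi := by
    intro j hj
    simp only [ha]
    rw [div_le_iff₀ hN0]
    exact mul_le_mul_of_nonneg_left (by exact_mod_cast hj) (by positivity)
  have hsum : ∑ j ∈ Finset.range N, ∫ θ in (a j)..(a (j + 1)), φ θ =
      ∫ θ in (0 : ℝ)..(2 * Real.pi), φ θ := by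
    rw [intervalIntegral.sum_integral_adjacent_intervals]
    · congr 1
      · simp [ha]
      · simp only [ha]; field_simp
    · intro k _
      exact hφ.intervalIntegrable _ _
  have hstep : ∀ j : ℕ, a (j + 1) - a j = 2 * Real.pi / N := by
    intro j
    simp only [ha]
    push_cast
    field_simp
    ring
  have hpiece : ∀ j ∈ Finset.range N, |(2 * Real.pi / N) * φ (a j) -
      ∫ θ in (a j)..(a (j + 1)), φ θ| ≤ Λ * (2 * Real.pi / N) * (2 * Real.pi / N) := by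
    intro j hj
    rw [Finset.mem_range] at hj
    have e1 : (2 * Real.pi / N) * φ (a j) = ∫ θ in (a j)..(a (j + 1)), φ (a j) := by
      rw [intervalIntegral.integral_const, hstep j, smul_eq_mul]
    have e1' : (∫ _θ in (a j)..(a (j + 1)), φ (a j)) - ∫ θ in (a j)..(a (j + 1)), φ θ =
        ∫ θ in (a j)..(a (j + 1)), (φ (a j) - φ θ) :=
      (intervalIntegral.integral_sub intervalIntegrable_const (hφ.intervalIntegrable _ _)).symm
    rw [e1, e1']
    have h2 : |a (j + 1) - a j| = 2 * Real.pi / N := by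
      rw [hstep j]; exact abs_of_pos (by positivity)
    have hle : a j ≤ a (j + 1) := by
      have := hstep j
      have h3 : 0 < 2 * Real.pi / N := by positivity
      linarith
    rw [← h2]
    have h4 : ∀ x ∈ Set.uIoc (a j) (a (j + 1)), ‖φ (a j) - φ x‖ ≤ Λ * |a (j + 1) - a j| := by
      intro x hx
      rw [Set.uIoc_of_le hle] at hx
      rw [Real.norm_eq_abs]
      refine (hΛ _ _ (ha0 j) (haN j hj.le) ((ha0 j).trans hx.1.le)
        (hx.2.trans (haN (j + 1) hj))).trans ?_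
      refine mul_le_mul_of_nonneg_left ?_ hΛ0
      rw [abs_of_nonneg (by linarith [hx.1, hx.2] : 0 ≤ a (j + 1) - a j), abs_le]
      constructor
      · linarith [hx.1, hx.2]
      · linarith [hx.1, hx.2]
    rw [← Real.norm_eq_abs]
    exact intervalIntegral.norm_integral_le_of_norm_le_const h4
  have hmain : |∑ j ∈ Finset.range N, ((2 * Real.pi / N) * φ (a j) -
      ∫ θ in (a j)..(a (j + 1)), φ θ)| ≤ N * (Λ * (2 * Real.pi / N) * (2 * Real.pi / N)) := by
    refine (Finset.abs_sum_le_sum_abs _ _).trans ?_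
    refine (Finset.sum_le_sum hpiece).trans ?_
    rw [Finset.sum_const, Finset.card_range, nsmul_eq_mul]
  rw [Finset.sum_sub_distrib, hsum, ← Finset.mul_sum] at hmain
  have e2 : (∑ j ∈ Finset.range N, φ (2 * Real.pi * j / N)) / N -
      1 / (2 * Real.pi) * ∫ θ in (0 : ℝ)..(2 * Real.pi), φ θ =
      1 / (2 * Real.pi) * ((2 * Real.pi / N) * ∑ j ∈ Finset.range N, φ (a j) -
        ∫ θ in (0 : ℝ)..(2 * Real.pi), φ θ) := by
    simp only [ha]
    field_simp
  rw [e2, abs_mul, abs_of_pos (by positivity : (0 : ℝ) < 1 / (2 * Real.pi))]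
  have h5 := mul_le_mul_of_nonneg_left hmain (by positivity : (0 : ℝ) ≤ 1 / (2 * Real.pi))
  refine h5.trans (le_of_eq ?_)
  field_simp

/-- the weights are Lipschitz in the angle -/
theorem fg_lip {d : ℕ} {Q : Form} (hQ : Hyp d Q) {τ : ℝ} (hτ : 0 < τ) {B : ℝ} {G : ℝ → ℝ → ℝ}
    (hG : GT B G) {L : ℝ} (hL : 1 ≤ L) {R : ℝ} (hR : 0 < R) : ∃ C : ℝ, 0 ≤ C ∧
      ∀ x : ℝ, 1 ≤ x → ∀ v ∈ Sb ⌊R * √x⌋₊, ∀ θ θ', 0 ≤ θ → θ ≤ 2 * Real.pi → 0 ≤ θ' →
        θ' ≤ 2 * Real.pi → |fg Q τ G L x θ v - fg Q τ G L x θ' v| ≤ C * x * |θ - θ'| := by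
  obtain ⟨-, -, CG, hCG⟩ := hG
  obtain ⟨c, hc, -, h2⟩ := coord_le hQ
  have hL0 : 0 < L := by linarith
  set T : ℝ := τ * (2 * Real.pi) with hT
  have hT0 : 0 < T := by positivity
  have hE := Real.exp_pos T
  refine ⟨|CG| * (2 * (Real.exp T * τ * (2 * (c * (2 * R))))), by positivity,
    fun x hx v hv θ θ' h3 h4 h5 h6 => ?_⟩
  have hx0 : 0 < x := by linarith
  have hs : 0 < √x := Real.sqrt_pos.2 hx0
  have hsx : √x * √x = x := Real.mul_self_sqrt hx0.le
  have hs1 : 1 ≤ √x := by rw [Real.one_le_sqrt]; exact hx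
  have hfl : ((⌊R * √x⌋₊ : ℕ) : ℝ) ≤ R * √x := Nat.floor_le (by positivity)
  obtain ⟨g1, g2⟩ := of_mem_Sb hv
  obtain ⟨g3, g4⟩ := h2 v
  have g5 : c * (|(v.1 : ℝ)| + |(v.2 : ℝ)|) ≤ c * (2 * R) * √x := by
    rw [mul_assoc]
    exact mul_le_mul_of_nonneg_left (by linarith) hc.le
  have hX1 : |hX Q v| ≤ c * (2 * R) * √x := g3.trans g5
  have hY1 : |hY Q v| ≤ c * (2 * R) * √x := g4.trans g5
  have hM : ∀ θ, 0 ≤ θ → θ ≤ 2 * Real.pi → |τ * θ| ≤ T := by
    intro θ h1 h2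
    rw [abs_of_nonneg (mul_nonneg hτ.le h1)]
    exact mul_le_mul_of_nonneg_left h2 hτ.le
  have hcl := cosh_lip (hM θ h3 h4) (hM θ' h5 h6)
  have hsl := sinh_lip (hM θ h3 h4) (hM θ' h5 h6)
  have e1 : |τ * θ - τ * θ'| = τ * |θ - θ'| := by
    rw [← mul_sub, abs_mul, abs_of_pos hτ]
  rw [e1, ← mul_assoc] at hcl hsl
  set D : ℝ := Real.exp T * τ * |θ - θ'| with hD
  have hD0 : 0 ≤ D := by positivity
  have key : ∀ p q X Y : ℝ, |p| ≤ D → |q| ≤ D → |X| ≤ c * (2 * R) * √x →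
      |Y| ≤ c * (2 * R) * √x → |p * X - q * Y| ≤ D * (2 * (c * (2 * R))) * √x := by
    intro p q X Y hp hq hX hY
    refine (abs_sub _ _).trans ?_
    rw [abs_mul, abs_mul]
    have h7 := mul_le_mul hp hX (abs_nonneg _) hD0
    have h8 := mul_le_mul hq hY (abs_nonneg _) hD0
    have h9 : D * (2 * (c * (2 * R))) * √x = D * (c * (2 * R) * √x) + D * (c * (2 * R) * √x) := by
      ring
    rw [h9]
    exact add_le_add h7 h8
  have hl1 : |hlx Q τ x θ v - hlx Q τ x θ' v| ≤ D * (2 * (c * (2 * R))) * x := by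
    have e2 : hlx Q τ x θ v - hlx Q τ x θ' v =
        ((Real.cosh (τ * θ) - Real.cosh (τ * θ')) * hX Q v -
          (Real.sinh (τ * θ) - Real.sinh (τ * θ')) * hY Q v) / √x := by
      unfold hlx
      ring
    rw [e2, abs_div, abs_of_pos hs, div_le_iff₀ hs]
    refine (key _ _ _ _ hcl hsl hX1 hY1).trans ?_
    have h7 : 0 ≤ D * (2 * (c * (2 * R))) := by positivity
    calc D * (2 * (c * (2 * R))) * √x ≤ D * (2 * (c * (2 * R))) * x * 1 := by
          rw [mul_one]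
          refine mul_le_mul_of_nonneg_left ?_ h7
          exact (le_mul_of_one_le_right hs.le hs1).trans_eq hsx
      _ ≤ D * (2 * (c * (2 * R))) * x * √x := mul_le_mul_of_nonneg_left hs1 (by positivity)
  have hl2 : |hly Q τ x θ v / L - hly Q τ x θ' v / L| ≤ D * (2 * (c * (2 * R))) * x := by
    have e2 : hly Q τ x θ v / L - hly Q τ x θ' v / L =
        √x * ((Real.cosh (τ * θ) - Real.cosh (τ * θ')) * hY Q v -
          (Real.sinh (τ * θ) - Real.sinh (τ * θ')) * hX Q v) / L := by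
      unfold hly
      ring
    rw [e2, abs_div, abs_of_pos hL0, abs_mul, abs_of_pos hs, div_le_iff₀ hL0]
    have h7 := mul_le_mul_of_nonneg_left (key _ _ _ _ hcl hsl hY1 hX1) hs.le
    have h8 : √x * (D * (2 * (c * (2 * R))) * √x) = D * (2 * (c * (2 * R))) * x := by
      calc √x * (D * (2 * (c * (2 * R))) * √x) = D * (2 * (c * (2 * R))) * (√x * √x) := by ring
        _ = D * (2 * (c * (2 * R))) * x := by rw [hsx]
    rw [h8] at h7
    refine h7.trans (le_mul_of_one_le_right ?_ hL)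
    positivity
  unfold fg
  calc |G (hlx Q τ x θ v) (hly Q τ x θ v / L) - G (hlx Q τ x θ' v) (hly Q τ x θ' v / L)|
      ≤ CG * (|hlx Q τ x θ v - hlx Q τ x θ' v| + |hly Q τ x θ v / L - hly Q τ x θ' v / L|) :=
        hCG _ _ _ _
    _ ≤ |CG| * (|hlx Q τ x θ v - hlx Q τ x θ' v| + |hly Q τ x θ v / L - hly Q τ x θ' v / L|) :=
        mul_le_mul_of_nonneg_right (le_abs_self CG) (by positivity)
    _ ≤ |CG| * (D * (2 * (c * (2 * R))) * x + D * (2 * (c * (2 * R))) * x) :=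
        mul_le_mul_of_nonneg_left (add_le_add hl1 hl2) (abs_nonneg CG)
    _ = |CG| * (2 * (Real.exp T * τ * (2 * (c * (2 * R))))) * x * |θ - θ'| := by
        rw [hD]
        ring

end One73

open One73 PE in
/-- E8 -/
theorem stHOne_73 (hMb : StHMb) : StHOne := by
  classical
  intro M d Q hQ τ hτ B G hG L hL N hN a b ha hb
  have hL0 : 0 < L := by linarith
  have hB0 : 0 < B := by linarith [hG.1]
  have hindp : ∀ (c : V) (v : V), ind N c v ≠ 0 → Prim v := by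
    intro c v h
    by_contra h0
    apply h
    unfold ind
    rw [if_neg (fun h1 => h0 h1.1)]
  have hindb : ∀ (c : V) (v : V), ‖ind N c v‖ ≤ 1 := by
    intro c v
    unfold ind
    split_ifs <;> simp
  obtain ⟨Mg, hMg0, hMg⟩ := One26.bdG hG.1 hG.2.1 hG.2.2
  have hbdd : ∀ c : V, CBdd (sm (hmm Q τ (ind N c) G L)) := by
    intro c
    obtain ⟨-, C, hC⟩ := hMb d Q hQ B hG.1
    exact ⟨C * Mg * 1, fun w => hC G Mg hG.2.1 hMg (ind N c) 1 (hindp c) (hindb c) τ L _ _ hL⟩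
  rw [ec_TM, ec_TM]
  apply M.EC_congr (cav_bdd (hbdd a)) (cav_bdd (hbdd b))
  obtain ⟨R, hR, hbox1, hbox2⟩ := Kf_box hQ hτ hG hL
  obtain ⟨CL, hCL0, hCL⟩ := fg_lip hQ hτ hG hL hR
  -- the real sums
  set W : ℕ → V → ℝ := fun n v => (∑ j ∈ Finset.range ((n + 1) ^ 3),
    fg Q τ G L n (2 * Real.pi * j / (((n + 1) ^ 3 : ℕ) : ℝ)) v) / (((n + 1) ^ 3 : ℕ) : ℝ) with hW
  have hcav : ∀ c : V, ∀ n : ℕ, 1 ≤ n → cav (sm (hmm Q τ (ind N c) G L)) n =
      (((1 / L) * ∑ v ∈ Sb ⌊R * √(n : ℝ)⌋₊, (if Prim v ∧ Cg N c v then W n v else 0) : ℝ) : ℂ) := by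
    intro c n hn
    have hn1 : (1 : ℝ) ≤ n := by exact_mod_cast hn
    have hcast : ((((n + 1) ^ 3 : ℕ) : ℝ)) = ((n : ℝ) + 1) ^ 3 := by push_cast; rfl
    have hp : (0 : ℝ) < ((n : ℝ) + 1) ^ 3 := by positivity
    have h1 : ∀ j ∈ Finset.range ((n + 1) ^ 3),
        sm (hmm Q τ (ind N c) G L) (n, 2 * Real.pi * j / ((n : ℝ) + 1) ^ 3) =
        (((1 / L) * ∑ v ∈ Sb ⌊R * √(n : ℝ)⌋₊, (if Prim v ∧ Cg N c v then
          fg Q τ G L n (2 * Real.pi * j / ((n : ℝ) + 1) ^ 3) v else 0) : ℝ) : ℂ) := by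
      intro j hj
      rw [Finset.mem_range] at hj
      have hθ0 : 0 ≤ 2 * Real.pi * j / ((n : ℝ) + 1) ^ 3 := by positivity
      have hθ1 : 2 * Real.pi * j / ((n : ℝ) + 1) ^ 3 ≤ 2 * Real.pi := by
        rw [div_le_iff₀ hp, ← hcast]
        exact mul_le_mul_of_nonneg_left (by exact_mod_cast hj.le) (by positivity)
      unfold sm hmm
      simp only
      rw [tsum_eq_sum (s := Sb ⌊R * √(n : ℝ)⌋₊)]
      · push_cast
        congr 1
        refine Finset.sum_congr rfl fun v _ => ?_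
        unfold ind fg Cg
        split_ifs <;> simp
      · intro v hv
        have h2 : fg Q τ G L n (2 * Real.pi * j / ((n : ℝ) + 1) ^ 3) v = 0 := by
          by_contra h3
          exact hv (hbox1 n _ hn1 hθ0 hθ1 v h3)
        unfold fg at h2
        rw [h2]
        simp
    unfold cav
    rw [Finset.sum_congr rfl h1, ← Complex.ofReal_sum]
    have e : ((n : ℂ) + 1) ^ 3 = (((n : ℝ) + 1) ^ 3 : ℝ) := by push_cast; rfl
    rw [e, ← Complex.ofReal_div]
    congr 1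
    rw [← Finset.mul_sum, mul_div_assoc, Finset.sum_comm, Finset.sum_div]
    congr 1
    refine Finset.sum_congr rfl fun v _ => ?_
    simp only [hW, hcast]
    by_cases h2 : Prim v ∧ Cg N c v
    · simp only [if_pos h2]
    · simp only [if_neg h2, Finset.sum_const_zero, zero_div]
  -- comparison with the integrals
  have hWK : ∀ n : ℕ, 1 ≤ n → ∀ v ∈ Sb ⌊R * √(n : ℝ)⌋₊,
      |W n v - 1 / (2 * Real.pi) * Kf Q τ G L n v| ≤ CL * (2 * Real.pi) / (n : ℝ) ^ 2 := by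
    intro n hn v hv
    have hn1 : (1 : ℝ) ≤ n := by exact_mod_cast hn
    have hn0 : (0 : ℝ) < n := by linarith
    have h1 := riem (fun θ => fg Q τ G L n θ v) (CL * n) (fg_cont hG.2.2 L n v)
      (fun θ θ' g1 g2 g3 g4 => hCL n hn1 v hv θ θ' g1 g2 g3 g4) ((n + 1) ^ 3) (by positivity)
    refine (show |W n v - 1 / (2 * Real.pi) * Kf Q τ G L n v| ≤ _ from h1).trans ?_
    push_cast
    rw [div_le_div_iff₀ (by positivity) (by positivity)]
    have h2 : (n : ℝ) ^ 3 ≤ ((n : ℝ) + 1) ^ 3 := pow_le_pow_left₀ hn0.le (by linarith) 3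
    calc CL * n * (2 * Real.pi) * (n : ℝ) ^ 2 = CL * (2 * Real.pi) * (n : ℝ) ^ 3 := by ring
      _ ≤ CL * (2 * Real.pi) * ((n : ℝ) + 1) ^ 3 := mul_le_mul_of_nonneg_left h2 (by positivity)
  have hdiff : ∀ c : V, ∀ n : ℕ, 1 ≤ n →
      |(∑ v ∈ Sb ⌊R * √(n : ℝ)⌋₊, if Prim v ∧ Cg N c v then W n v else 0) -
        1 / (2 * Real.pi) * ∑ v ∈ Sb ⌊R * √(n : ℝ)⌋₊,
          (if Prim v ∧ Cg N c v then Kf Q τ G L n v else 0)| ≤
        (2 * R + 1) ^ 2 * (CL * (2 * Real.pi)) / n := by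
    intro c n hn
    have hn1 : (1 : ℝ) ≤ n := by exact_mod_cast hn
    have hn0 : (0 : ℝ) < n := by linarith
    rw [Finset.mul_sum, ← Finset.sum_sub_distrib]
    have h1 : ∀ v ∈ Sb ⌊R * √(n : ℝ)⌋₊, |(if Prim v ∧ Cg N c v then W n v else 0) -
        1 / (2 * Real.pi) * (if Prim v ∧ Cg N c v then Kf Q τ G L n v else 0)| ≤
        CL * (2 * Real.pi) / (n : ℝ) ^ 2 := by
      intro v hv
      by_cases h2 : Prim v ∧ Cg N c v
      · rw [if_pos h2, if_pos h2]
        exact hWK n hn v hv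
      · rw [if_neg h2, if_neg h2, mul_zero, sub_zero, abs_zero]
        positivity
    refine (Finset.abs_sum_le_sum_abs _ _).trans ((Finset.sum_le_sum h1).trans ?_)
    rw [Finset.sum_const, nsmul_eq_mul]
    have h3 : ((Sb ⌊R * √(n : ℝ)⌋₊).card : ℝ) ≤ ((2 * R + 1) * √(n : ℝ)) ^ 2 := by
      rw [card_Sb]
      push_cast
      exact pow_le_pow_left₀ (by positivity) (two_r hR hn1) 2
    rw [mul_pow, Real.sq_sqrt hn0.le] at h3
    calc ((Sb ⌊R * √(n : ℝ)⌋₊).card : ℝ) * (CL * (2 * Real.pi) / (n : ℝ) ^ 2)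
        ≤ (2 * R + 1) ^ 2 * n * (CL * (2 * Real.pi) / (n : ℝ) ^ 2) :=
          mul_le_mul_of_nonneg_right h3 (by positivity)
      _ = (2 * R + 1) ^ 2 * (CL * (2 * Real.pi)) / n := by
          field_simp
  have hmain := main_int hQ hτ hG hL hR hbox2 N ha hb
  -- conclusion
  have hz : Tendsto (fun n : ℕ => (1 / L) * (2 * ((2 * R + 1) ^ 2 * (CL * (2 * Real.pi)) / (n : ℝ)) +
      1 / (2 * Real.pi) * |(∑ v ∈ Sb ⌊R * √(n : ℝ)⌋₊,
        if Prim v ∧ Cg N a v then Kf Q τ G L n v else 0) -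
      ∑ v ∈ Sb ⌊R * √(n : ℝ)⌋₊, if Prim v ∧ Cg N b v then Kf Q τ G L n v else 0|)) atTop
      (𝓝 0) := by
    have h1 : Tendsto (fun n : ℕ => (2 * R + 1) ^ 2 * (CL * (2 * Real.pi)) / (n : ℝ)) atTop
        (𝓝 0) := tendsto_const_div_atTop_nhds_zero_nat _
    have h2 := ((h1.const_mul 2).add (hmain.abs.const_mul (1 / (2 * Real.pi)))).const_mul (1 / L)
    rw [abs_zero, mul_zero, mul_zero, add_zero, mul_zero] at h2
    exact h2
  refine squeeze_zero_norm' ?_ hz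
  filter_upwards [eventually_ge_atTop 1] with n hn
  rw [hcav a n hn, hcav b n hn, ← Complex.ofReal_sub, Complex.norm_real, Real.norm_eq_abs,
    ← mul_sub, abs_mul, abs_of_pos (by positivity : 0 < 1 / L)]
  refine mul_le_mul_of_nonneg_left ?_ (by positivity)
  have h1 := hdiff a n hn
  have h2 := hdiff b n hn
  set SA := ∑ v ∈ Sb ⌊R * √(n : ℝ)⌋₊, if Prim v ∧ Cg N a v then W n v else 0
  set SB := ∑ v ∈ Sb ⌊R * √(n : ℝ)⌋₊, if Prim v ∧ Cg N b v then W n v else 0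
  set KA := ∑ v ∈ Sb ⌊R * √(n : ℝ)⌋₊, if Prim v ∧ Cg N a v then Kf Q τ G L n v else 0
  set KB := ∑ v ∈ Sb ⌊R * √(n : ℝ)⌋₊, if Prim v ∧ Cg N b v then Kf Q τ G L n v else 0
  have e : SA - SB = (SA - 1 / (2 * Real.pi) * KA) - (SB - 1 / (2 * Real.pi) * KB) +
      1 / (2 * Real.pi) * (KA - KB) := by ring
  rw [e]
  refine (abs_add_le _ _).trans ?_
  rw [abs_mul, abs_of_pos (by positivity : (0 : ℝ) < 1 / (2 * Real.pi))]
  have h3 := abs_sub (SA - 1 / (2 * Real.pi) * KA) (SB - 1 / (2 * Real.pi) * KB)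
  linarith

end Pool.Agent.Lib.MP_a17b09_nt.HY
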