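import Pool.Agent.Lib.MP_a17b09_nt.CH.PairD72
import Pool.Agent.Lib.MP_a17b09_nt.HY.Coord20

/-!
Project HY, E17, first half: the hyperbolic window and its integral over the line.
-/

set_option autoImplicit false

open Filter Topology Finset

namespace Pool.Agent.Lib.MP_a17b09_nt.HY

open Pool.Agent.Lib.MP_a17b09_nt.CH
open Pool.Agent.Lib.MP_a17b09_nt.CH.PE

namespace P97

/-! ### The hyperbolic tangent -/

/-- `sinh / cosh` -/
noncomputable def th (u : ℝ) : ℝ := Real.sinh u / Real.cosh u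

theorem th_cont : Continuous th :=
  Real.continuous_sinh.div Real.continuous_cosh fun u => (Real.cosh_pos u).ne'

theorem abs_sinh (u : ℝ) : |Real.sinh u| = Real.sinh |u| := by
  rcases le_total 0 u with h | h
  · rw [abs_of_nonneg h, abs_of_nonneg (Real.sinh_nonneg_iff.2 h)]
  · rw [abs_of_nonpos h, Real.sinh_neg, abs_of_nonpos (Real.sinh_nonpos_iff.2 h)]

theorem abs_th (u : ℝ) : |th u| = Real.sinh |u| / Real.cosh |u| := by
  unfold th
  rw [abs_div, abs_sinh, abs_of_pos (Real.cosh_pos u), Real.cosh_abs]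

theorem sinh_le (u : ℝ) (hu : 0 ≤ u) : Real.sinh u ≤ u * Real.cosh u := by
  have h1 : MonotoneOn (fun u : ℝ => u * Real.cosh u - Real.sinh u) (Set.Ici 0) := by
    apply monotoneOn_of_deriv_nonneg (convex_Ici 0)
    · exact ((continuous_id.mul Real.continuous_cosh).sub Real.continuous_sinh).continuousOn
    · intro x _
      exact ((differentiable_id.mul Real.differentiable_cosh).sub
        Real.differentiable_sinh).differentiableAt.differentiableWithinAt
    · intro x hx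
      rw [interior_Ici, Set.mem_Ioi] at hx
      have h2 : HasDerivAt (fun u : ℝ => u * Real.cosh u - Real.sinh u)
          (1 * Real.cosh x + x * Real.sinh x - Real.cosh x) x :=
        ((hasDerivAt_id x).mul (Real.hasDerivAt_cosh x)).sub (Real.hasDerivAt_sinh x)
      rw [h2.deriv]
      have : 0 < Real.sinh x := Real.sinh_pos_iff.2 hx
      nlinarith
  have h3 := h1 (Set.mem_Ici.2 le_rfl) (Set.mem_Ici.2 hu) hu
  simp only [Real.sinh_zero, zero_mul, sub_zero] at h3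
  linarith

theorem th_le (u : ℝ) : |th u| ≤ |u| := by
  rw [abs_th, div_le_iff₀ (Real.cosh_pos _)]
  exact sinh_le _ (abs_nonneg u)

theorem th_ge {u u0 : ℝ} (hu : |u| ≤ u0) : |u| ≤ Real.cosh u0 * |th u| := by
  rw [abs_th]
  have h1 : |u| ≤ Real.sinh |u| := Real.self_le_sinh_iff.2 (abs_nonneg u)
  have h2 : Real.cosh |u| ≤ Real.cosh u0 := by
    rw [Real.cosh_le_cosh, abs_abs]
    exact hu.trans (le_abs_self _)
  have h3 : 0 < Real.cosh |u| := Real.cosh_pos _
  have h4 : 0 ≤ Real.sinh |u| := Real.sinh_nonneg_iff.2 (abs_nonneg u)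
  rw [mul_div_assoc', le_div_iff₀ h3]
  calc |u| * Real.cosh |u| ≤ Real.sinh |u| * Real.cosh |u| := mul_le_mul_of_nonneg_right h1 h3.le
    _ ≤ Real.sinh |u| * Real.cosh u0 := mul_le_mul_of_nonneg_left h2 h4
    _ = Real.cosh u0 * Real.sinh |u| := by ring

theorem th_far {u u0 : ℝ} (hu : u0 ≤ |u|) : Real.sinh u0 / Real.cosh u0 ≤ |th u| := by
  rw [abs_th, div_le_div_iff₀ (Real.cosh_pos _) (Real.cosh_pos _)]
  have h1 : 0 ≤ Real.sinh (|u| - u0) := Real.sinh_nonneg_iff.2 (by linarith)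
  rw [Real.sinh_sub] at h1
  linarith

/-! ### The window -/

/-- the window -/
noncomputable def wh (n c u : ℝ) : ℝ := Hat72 (n * th u / c)

theorem wh_nonneg (n c u : ℝ) : 0 ≤ wh n c u := hat72_nonneg _

theorem wh_cont (n c : ℝ) : Continuous (wh n c) :=
  hat72_cont.comp ((continuous_const.mul th_cont).div_const c)

theorem hat_integrable : MeasureTheory.Integrable Hat72 := by
  apply hat72_cont.integrable_of_hasCompactSupport
  apply HasCompactSupport.intro (isCompact_Icc (a := (-1 : ℝ)) (b := 1))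
  intro x hx
  apply hat72_eq_zero
  rw [Set.mem_Icc, ← abs_le] at hx
  push Not at hx
  exact hx.le

theorem hat_integral : ∫ s : ℝ, Hat72 s = 1 := by
  have h1 := hat72_int (le_refl (1 : ℝ))
  rw [intervalIntegral.integral_of_le (by norm_num)] at h1
  rw [← h1]
  symm
  apply MeasureTheory.setIntegral_eq_integral_of_forall_compl_eq_zero
  intro x hx
  apply hat72_eq_zero
  by_contra hc
  push Not at hc
  have := abs_lt.1 hc
  exact hx ⟨this.1, this.2.le⟩

theorem hat_mul_integral {k : ℝ} (hk : 0 < k) :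
    MeasureTheory.Integrable (fun s : ℝ => Hat72 (k * s)) ∧ ∫ s : ℝ, Hat72 (k * s) = 1 / k := by
  refine ⟨hat_integrable.comp_mul_left' hk.ne', ?_⟩
  rw [MeasureTheory.Measure.integral_comp_mul_left, hat_integral, abs_of_pos (inv_pos.2 hk),
    smul_eq_mul, mul_one, one_div]

/-- the integral of the window over the line -/
theorem wh_asym {c ε : ℝ} (hc : 0 < c) (hε : 0 < ε) : ∃ n0 : ℝ, 1 ≤ n0 ∧ ∀ n : ℝ, n0 ≤ n →
    MeasureTheory.Integrable (wh n c) ∧ |n * (∫ u : ℝ, wh n c u) - c| ≤ ε * c := by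
  obtain ⟨u0, hu0, hcosh⟩ : ∃ u0 : ℝ, 0 < u0 ∧ Real.cosh u0 ≤ 1 + ε := by
    have h1 : Tendsto Real.cosh (𝓝 0) (𝓝 (Real.cosh 0)) := Real.continuous_cosh.tendsto 0
    rw [Real.cosh_zero] at h1
    have h2 := h1.eventually (gt_mem_nhds (show (1 : ℝ) < 1 + ε by linarith))
    rw [Metric.eventually_nhds_iff] at h2
    obtain ⟨r, hr, h3⟩ := h2
    refine ⟨r / 2, by linarith, (h3 ?_).le⟩
    rw [Real.dist_eq, sub_zero, abs_of_pos (by linarith)]
    linarith
  set t0 : ℝ := Real.sinh u0 / Real.cosh u0 with ht0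
  have ht0p : 0 < t0 := div_pos (Real.sinh_pos_iff.2 hu0) (Real.cosh_pos _)
  refine ⟨max 1 (c / t0), le_max_left _ _, fun n hn => ?_⟩
  have hn1 : 1 ≤ n := (le_max_left _ _).trans hn
  have hn2 : c / t0 ≤ n := (le_max_right _ _).trans hn
  have hn0 : 0 < n := by linarith
  have h1ε : 0 < 1 + ε := by linarith
  obtain ⟨i1, i2⟩ := hat_mul_integral (k := n / (c * (1 + ε))) (by positivity)
  obtain ⟨j1, j2⟩ := hat_mul_integral (k := n / c) (by positivity)
  have hup : ∀ u, wh n c u ≤ Hat72 (n / (c * (1 + ε)) * u) := by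
    intro u
    rcases le_total |u| u0 with h | h
    · apply hat72_anti
      have h1 := th_ge h
      have h2 : |u| ≤ (1 + ε) * |th u| :=
        h1.trans (mul_le_mul_of_nonneg_right hcosh (abs_nonneg _))
      rw [abs_mul, abs_div, abs_div, abs_mul, abs_mul, abs_of_pos hn0, abs_of_pos hc,
        abs_of_pos h1ε]
      rw [div_mul_eq_mul_div, div_le_div_iff₀ (by positivity) hc]
      calc n * |u| * c ≤ n * ((1 + ε) * |th u|) * c := by gcongr
        _ = n * |th u| * (c * (1 + ε)) := by ring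
    · have h1 : wh n c u = 0 := by
        apply hat72_eq_zero
        have h2 := th_far h
        rw [abs_div, abs_mul, abs_of_pos hn0, abs_of_pos hc, le_div_iff₀ hc, one_mul]
        rw [div_le_iff₀ ht0p] at hn2
        exact hn2.trans (mul_le_mul_of_nonneg_left h2 hn0.le)
      rw [h1]
      exact hat72_nonneg _
  have hlo : ∀ u, Hat72 (n / c * u) ≤ wh n c u := by
    intro u
    apply hat72_anti
    rw [abs_mul, abs_div, abs_div, abs_mul, abs_of_pos hn0, abs_of_pos hc, div_mul_eq_mul_div]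
    exact div_le_div_of_nonneg_right (mul_le_mul_of_nonneg_left (th_le u) hn0.le) hc.le
  have hint : MeasureTheory.Integrable (wh n c) := by
    apply i1.mono' (wh_cont n c).aestronglyMeasurable
    refine Filter.Eventually.of_forall fun u => ?_
    rw [Real.norm_of_nonneg (wh_nonneg _ _ _)]
    exact hup u
  refine ⟨hint, ?_⟩
  have k1 : ∫ u : ℝ, wh n c u ≤ 1 / (n / (c * (1 + ε))) := by
    rw [← i2]
    exact MeasureTheory.integral_mono hint i1 hup
  have k2 : 1 / (n / c) ≤ ∫ u : ℝ, wh n c u := by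
    rw [← j2]
    exact MeasureTheory.integral_mono j1 hint hlo
  have k3 := mul_le_mul_of_nonneg_left k1 hn0.le
  have k4 := mul_le_mul_of_nonneg_left k2 hn0.le
  have e1 : n * (1 / (n / (c * (1 + ε)))) = c * (1 + ε) := by field_simp
  have e2 : n * (1 / (n / c)) = c := by field_simp
  rw [e1] at k3
  rw [e2] at k4
  rw [abs_le]
  constructor
  · nlinarith [mul_pos hε hc]
  · linarith

/-- change of variable -/
theorem wh_shift (n c ψ : ℝ) {τ : ℝ} (hτ : 0 < τ) (hi : MeasureTheory.Integrable (wh n c)) :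
    MeasureTheory.Integrable (fun θ : ℝ => wh n c (ψ - τ * θ)) ∧
    ∫ θ : ℝ, wh n c (ψ - τ * θ) = (1 / τ) * ∫ u : ℝ, wh n c u := by
  have h1 : MeasureTheory.Integrable (fun y : ℝ => wh n c (ψ - y)) := hi.comp_sub_left ψ
  refine ⟨h1.comp_mul_left' hτ.ne', ?_⟩
  rw [MeasureTheory.Measure.integral_comp_mul_left (fun y => wh n c (ψ - y)) τ,
    MeasureTheory.integral_sub_left_eq_self (fun u => wh n c u), abs_of_pos (inv_pos.2 hτ),
    smul_eq_mul, one_div]

/-! ### The cone in the local coordinates -/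

theorem cn_of_local (Q : Form) (τ θ : ℝ) {x : ℝ} (hx : 0 < x) (v : V)
    (h : |hly Q τ x θ v / x| < hlx Q τ x θ v) : Cn Q v := by
  have hs : 0 < √x := Real.sqrt_pos.2 hx
  have hs2 : √x * √x = x := Real.mul_self_sqrt hx.le
  set X := hX Q v
  set Y := hY Q v
  have e1 : hly Q τ x θ v / x = (Real.cosh (τ * θ) * Y - Real.sinh (τ * θ) * X) / √x := by
    unfold hly
    rw [div_eq_div_iff hx.ne' hs.ne']
    calc √x * (Real.cosh (τ * θ) * Y - Real.sinh (τ * θ) * X) * √x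
        = (Real.cosh (τ * θ) * Y - Real.sinh (τ * θ) * X) * (√x * √x) := by ring
      _ = _ := by rw [hs2]
  rw [e1] at h
  unfold hlx at h
  rw [abs_div, abs_of_pos hs] at h
  have h1 := (div_lt_div_iff_of_pos_right hs).1 h
  obtain ⟨h2, h3⟩ := abs_lt.1 h1
  have hc1 : Real.cosh (τ * θ) + Real.sinh (τ * θ) = Real.exp (τ * θ) := Real.cosh_add_sinh _
  have hc2 : Real.cosh (τ * θ) - Real.sinh (τ * θ) = Real.exp (-(τ * θ)) := Real.cosh_sub_sinh _
  have h4 : 0 < Real.exp (-(τ * θ)) * (X + Y) := by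
    rw [← hc2]
    linarith
  have h5 : 0 < Real.exp (τ * θ) * (X - Y) := by
    rw [← hc1]
    linarith
  rw [cn_iff]
  exact ⟨(mul_pos_iff_of_pos_left (Real.exp_pos _)).1 h4,
    (mul_pos_iff_of_pos_left (Real.exp_pos _)).1 h5⟩

/-- the quotient of the local coordinates -/
theorem ratio_local {d : ℕ} {Q : Form} (hQ : Hyp d Q) {v : V} (hv : Cn Q v) (τ θ : ℝ) {n : ℝ}
    (hn : 0 < n) : 0 < hlx Q τ n θ v ∧
      hly Q τ n θ v / hlx Q τ n θ v = n * th (ps Q v - τ * θ) := by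
  obtain ⟨e1, e2⟩ := hlx_ps hQ hv τ hn θ
  have hq : (0 : ℝ) < Q.q v := by exact_mod_cast hv.q_pos hQ
  have h1 : 0 < √(Q.q v / n) := Real.sqrt_pos.2 (by positivity)
  have h2 : 0 < Real.cosh (ps Q v - τ * θ) := Real.cosh_pos _
  have h3 : √(n * Q.q v) = n * √(Q.q v / n) := by
    rw [show n * (Q.q v : ℝ) = n ^ 2 * (Q.q v / n) by field_simp,
      Real.sqrt_mul (by positivity), Real.sqrt_sq hn.le]
  rw [e1, e2]
  refine ⟨mul_pos h1 h2, ?_⟩
  unfold th
  rw [h3]
  field_simp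

theorem hlx_cont (Q : Form) (τ n : ℝ) (v : V) : Continuous (fun θ => hlx Q τ n θ v) := by
  unfold hlx
  have h1 : Continuous (fun θ : ℝ => Real.cosh (τ * θ)) :=
    Real.continuous_cosh.comp (continuous_const.mul continuous_id)
  have h2 : Continuous (fun θ : ℝ => Real.sinh (τ * θ)) :=
    Real.continuous_sinh.comp (continuous_const.mul continuous_id)
  exact ((h1.mul continuous_const).sub (h2.mul continuous_const)).div_const _

theorem hly_cont (Q : Form) (τ n : ℝ) (v : V) : Continuous (fun θ => hly Q τ n θ v) := by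
  unfold hly
  have h1 : Continuous (fun θ : ℝ => Real.cosh (τ * θ)) :=
    Real.continuous_cosh.comp (continuous_const.mul continuous_id)
  have h2 : Continuous (fun θ : ℝ => Real.sinh (τ * θ)) :=
    Real.continuous_sinh.comp (continuous_const.mul continuous_id)
  exact continuous_const.mul ((h1.mul continuous_const).sub (h2.mul continuous_const))

/-! ### Real estimates -/

/-- one vector, from the coordinates to the norm -/
theorem real_c {x a δ t n q : ℝ} (hn : 0 < n) (hδ : 0 < δ) (hδ1 : δ ≤ 1)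
    (ht : t ^ 2 ≤ δ ^ 2 / 200) (h1 : 3 * δ / 4 ≤ x) (h2 : x ≤ 5 / 4) (ha : |a| ≤ 2 * t)
    (hq : x ^ 2 - a ^ 2 = q / n) : (δ / 2) ^ 2 * n ≤ q ∧ q ≤ 4 * n ∧ |a| < x := by
  have ha2 : a ^ 2 ≤ 4 * t ^ 2 := by
    rw [← sq_abs]; nlinarith [abs_nonneg a]
  have hδ2 : δ ^ 2 ≤ 1 := by nlinarith
  refine ⟨?_, ?_, ?_⟩
  · rw [← le_div_iff₀ hn, ← hq]
    nlinarith
  · rw [← div_le_iff₀ hn, ← hq]
    nlinarith [sq_nonneg a]
  · apply abs_lt_of_sq_lt_sq _ (by linarith)
    nlinarith [mul_pos hδ hδ]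

/-- from the normalised length to the norm -/
theorem real_e {d : ℕ} {Q : Form} (hQ : Hyp d Q) {δ n : ℝ} {u : V} (hu : Cn Q u) (hn : 0 < n)
    (hδ : 0 < δ) (hu1 : δ ≤ Q.nr n u) (hu2 : Q.nr n u ≤ 1) :
    (δ / 2) ^ 2 * n ≤ Q.q u ∧ (Q.q u : ℝ) ≤ 4 * n := by
  unfold Form.nr at hu1 hu2
  have hq0 : (0 : ℝ) ≤ Q.q u / n :=
    div_nonneg (by exact_mod_cast (hu.q_pos hQ).le) hn.le
  have h3 : √((Q.q u : ℝ) / n) ^ 2 = Q.q u / n := Real.sq_sqrt hq0
  constructor
  · rw [← le_div_iff₀ hn, ← h3]; nlinarith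
  · rw [← div_le_iff₀ hn, ← h3]; nlinarith [Real.sqrt_nonneg ((Q.q u : ℝ) / n)]

/-- the coordinate is close to the norm -/
theorem real_b {x a ρ δ t ε : ℝ} (hδ : 0 < δ) (hδ1 : δ ≤ 1) (hε : 0 < ε)
    (ht : t ^ 2 ≤ δ ^ 2 * ε / 100) (hx : 0 < x)
    (hxa : x ^ 2 - a ^ 2 = ρ ^ 2) (hρ : δ / 2 ≤ ρ) (ha : |a| ≤ 2 * t) :
    |x - ρ| ≤ ε / 2 := by
  have ha2 : a ^ 2 ≤ 4 * t ^ 2 := by
    rw [← sq_abs]; nlinarith [abs_nonneg a]
  have hxρ : ρ ≤ x := by
    by_contra hc
    push Not at hc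
    nlinarith [sq_nonneg a]
  rw [abs_of_nonneg (by linarith)]
  have h1 : (x - ρ) * δ ≤ (x - ρ) * (x + ρ) :=
    mul_le_mul_of_nonneg_left (by linarith) (by linarith)
  have h2 : (x - ρ) * (x + ρ) = a ^ 2 := by linarith
  have h3 : (x - ρ) * δ ≤ (δ * ε / 25) * δ := by nlinarith
  have h4 : x - ρ ≤ δ * ε / 25 := le_of_mul_le_mul_right h3 hδ
  nlinarith [mul_pos hδ hε]

/-- the two vectors in the main case -/
theorem real_f {x x' a b s s' δ t ε κ D P n ρ ρ' S2 M : ℝ} (hδ : 0 < δ) (hδ1 : δ ≤ 1)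
    (hε : 0 < ε) (ht0 : 0 < t) (ht1 : t ^ 2 ≤ δ ^ 2 * ε / 100) (ht2 : t ^ 2 ≤ δ ^ 2 / 200)
    (hM : 1 ≤ M) (hx : 0 < x) (hx' : 0 < x') (hs : |s| < x / M) (ha : a = P * s / n)
    (hb : b = P * s' / n) (hn : 0 < n) (hP : 0 < P) (hκ : 0 < κ)
    (hD : x * s' - x' * s = D) (hD0 : 0 < D) (hD2 : D ≤ 2 * κ)
    (hxa : x ^ 2 - a ^ 2 = ρ ^ 2) (hxb : x' ^ 2 - b ^ 2 = ρ' ^ 2)
    (h1 : δ / 2 ≤ ρ) (h1' : δ / 2 ≤ ρ') (hcase : (x ≤ 5 / 4 ∧ x' ≤ 5 / 4) ∨ (ρ ≤ 1 ∧ ρ' ≤ 1))
    (hS2 : S2 = (2 * κ + 4) * 3 / δ) (hP1 : 2 * P ≤ 2 * t * n) (hP2 : P * S2 ≤ t * n) :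
    x ≤ 2 ∧ x' ≤ 2 ∧ |x - ρ| ≤ ε / 2 ∧ |x' - ρ'| ≤ ε / 2 := by
  have hMp : 0 < M := by linarith
  have hδ2 : δ ^ 2 ≤ 1 := by nlinarith
  have hPn : P / n ≤ t := by
    rw [div_le_iff₀ hn]; linarith
  have hPn0 : 0 < P / n := by positivity
  have hsx : |s| ≤ x := by
    have : x / M ≤ x := div_le_self hx.le hM
    linarith
  have hat : |a| ≤ t * x := by
    rw [ha, show P * s / n = P / n * s by ring, abs_mul, abs_of_pos hPn0]
    exact mul_le_mul hPn hsx (abs_nonneg _) ht0.le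
  have hx2 : x ≤ 2 := by
    rcases hcase with hc | hc
    · linarith [hc.1]
    · have h2 : a ^ 2 ≤ (t * x) ^ 2 := by
        rw [← sq_abs]
        exact pow_le_pow_left₀ (abs_nonneg _) hat 2
      have h3 : ρ ^ 2 ≤ 1 := pow_le_one₀ (by linarith) hc.1
      have h4 : (t * x) ^ 2 ≤ x ^ 2 / 200 := by
        rw [mul_pow]
        have : t ^ 2 * x ^ 2 ≤ 1 / 200 * x ^ 2 :=
          mul_le_mul_of_nonneg_right (by linarith) (sq_nonneg x)
        linarith
      have h5 : x ^ 2 ≤ 2 ^ 2 := by linarith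
      exact le_of_sq_le_sq h5 (by norm_num)
  have hρx : δ / 2 ≤ x := by
    have h2 : (δ / 2) ^ 2 ≤ ρ ^ 2 := pow_le_pow_left₀ (by positivity) h1 2
    have h3 : (δ / 2) ^ 2 ≤ x ^ 2 := by linarith [sq_nonneg a]
    exact le_of_sq_le_sq h3 hx.le
  have hs2 : |s| ≤ 2 := by linarith
  have ha1 : |a| ≤ 2 * t := by
    rw [mul_comm 2 t]
    exact hat.trans (mul_le_mul_of_nonneg_left hx2 ht0.le)
  have hs' : |s'| ≤ 2 * (2 * κ + 2 * x') / δ := by
    have e1 : x * s' = D + x' * s := by linarith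
    have e2 : |x * s'| ≤ 2 * κ + 2 * x' := by
      rw [e1]
      refine (abs_add_le _ _).trans ?_
      rw [abs_mul, abs_of_pos hD0, abs_of_pos hx']
      have : x' * |s| ≤ x' * 2 := mul_le_mul_of_nonneg_left hs2 hx'.le
      linarith
    rw [abs_mul, abs_of_pos hx] at e2
    rw [le_div_iff₀ hδ]
    have : δ / 2 * |s'| ≤ x * |s'| := mul_le_mul_of_nonneg_right hρx (abs_nonneg _)
    linarith
  have hb1 : |b| ≤ t * (1 + x' / 3) := by
    have e1 : |b| ≤ P / n * (2 * (2 * κ + 2 * x') / δ) := by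
      rw [hb, show P * s' / n = P / n * s' by ring, abs_mul, abs_of_pos hPn0]
      exact mul_le_mul_of_nonneg_left hs' hPn0.le
    have e2 : 2 * (2 * κ + 2 * x') / δ ≤ S2 * (1 + x' / 3) := by
      rw [hS2, div_mul_eq_mul_div, div_le_div_iff_of_pos_right hδ]
      nlinarith [mul_pos hκ hx']
    have e3 : P / n * S2 ≤ t := by
      rw [div_mul_eq_mul_div, div_le_iff₀ hn]; exact hP2
    calc |b| ≤ P / n * (2 * (2 * κ + 2 * x') / δ) := e1
      _ ≤ P / n * (S2 * (1 + x' / 3)) := mul_le_mul_of_nonneg_left e2 hPn0.le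
      _ = P / n * S2 * (1 + x' / 3) := by ring
      _ ≤ t * (1 + x' / 3) := mul_le_mul_of_nonneg_right e3 (by positivity)
  have hx'2 : x' ≤ 2 := by
    rcases hcase with hc | hc
    · linarith [hc.2]
    · by_contra hcon
      push Not at hcon
      have h2 : b ^ 2 ≤ (t * (1 + x' / 3)) ^ 2 := by
        rw [← sq_abs]
        exact pow_le_pow_left₀ (abs_nonneg _) hb1 2
      have h3 : ρ' ^ 2 ≤ 1 := pow_le_one₀ (by linarith) hc.2
      have h5 : (1 + x' / 3) ^ 2 ≤ x' ^ 2 := pow_le_pow_left₀ (by positivity) (by linarith) 2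
      have h4 : (t * (1 + x' / 3)) ^ 2 ≤ x' ^ 2 / 200 := by
        rw [mul_pow]
        have : t ^ 2 * (1 + x' / 3) ^ 2 ≤ 1 / 200 * x' ^ 2 :=
          mul_le_mul (by linarith) h5 (sq_nonneg _) (by norm_num)
        linarith
      have h6 : x' ^ 2 ≤ 2 ^ 2 := by linarith
      exact absurd (le_of_sq_le_sq h6 (by norm_num)) (by linarith)
  have hb2 : |b| ≤ 2 * t := by
    rw [mul_comm 2 t]
    exact hb1.trans (mul_le_mul_of_nonneg_left (by linarith) ht0.le)
  exact ⟨hx2, hx'2, real_b hδ hδ1 hε ht1 hx hxa h1 ha1, real_b hδ hδ1 hε ht1 hx' hxb h1' hb2⟩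

end P97

end Pool.Agent.Lib.MP_a17b09_nt.HY
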