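import Pool.Agent.Lib.MP_a17b09_nt.HY.Stmts20
import Pool.Agent.Lib.MP_a17b09_nt.CH.PsiS22

/-!
Project HY (MP_a17b09), E16: the bilinear function of the level is small in mean.
-/

set_option autoImplicit false

open Filter Topology Finset

namespace Pool.Agent.Lib.MP_a17b09_nt.HY

open Pool.Agent.Lib.MP_a17b09_nt.CH
open Pool.Agent.Lib.MP_a17b09_nt.CH.PE

open Pool.Agent.Lib.MP_a17b09_nt.CH.PE.PsiS22 in
/-- E16 -/
theorem stHPsiS_1 (hA : StHPsA) (hT : StTri) (hP : StHPsv) : StHPsiS := by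
  intro M ι _ S z1 z2 h1 h2 h12 K _ hK a ha haK om hW B G1 G2 hG1 hG2
  obtain ⟨C1, hC1⟩ := hP ι S z1 z2 h1 h2 K a ha haK om hW B G1 G2 hG1 hG2
  obtain ⟨C2, hC20, hC2⟩ := hA ι S z1 z2 h1 h2 K hK a ha haK om hW B G1 G2 hG1 hG2
  have hC10 : 0 ≤ C1 := (norm_nonneg _).trans ((hC1 1 le_rfl).1 0)
  have hz : ‖z1 * z2‖ = 1 := by rw [norm_mul, h1, h2, one_mul]
  have hc : 0 < ‖1 - z1 * z2‖ := norm_pos_iff.2 (sub_ne_zero.2 (Ne.symm h12))
  set z := z1 * z2 with hzd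
  set c := ‖1 - z‖ with hcd
  rw [Metric.tendsto_atTop]
  intro ε hε
  set ε1 := c * ε / 8 with hε1d
  have hε1 : 0 < ε1 := by positivity
  set η := c * ε / (8 * (C1 + 1)) with hηd
  have hη : 0 < η := by positivity
  have hCη : C1 * η ≤ c * ε / 8 := by
    have h3 : (C1 + 1) * η = c * ε / 8 := by
      rw [hηd]
      field_simp
    nlinarith
  obtain ⟨κ, hκ, hκR⟩ := hT K (NeZero.pos K) η hη
  obtain ⟨R, hRp, hRW, hRD⟩ := hκR (max 1 ((2 * C2 / (κ * ε1) ^ 2) ^ 2))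
  obtain ⟨L0, hL0, hL⟩ := hC2 M R hRp
  refine ⟨L0, fun L hLL => ?_⟩
  have hL1 : 1 ≤ L := hL0.trans hLL
  obtain ⟨hb, x0, hx0, hs⟩ := hC1 L hL1
  have hI := hL L hLL
  set W := ∑ p ∈ R, 1 / (p : ℝ) with hWd
  have hW1 : 1 ≤ W := (le_max_left _ _).trans hRW
  have hW2 : (2 * C2 / (κ * ε1) ^ 2) ^ 2 ≤ W := (le_max_right _ _).trans hRW
  set Ee : ℕ → ℝ := fun p => M.E (fun n => ‖HPsN S (tauH a) z1 z2 K om G1 G2 L n -
    z * HPsN S (tauH a) z1 z2 K om G1 G2 L ((n : ℝ) / p)‖) with hEe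
  have hEbd : ∀ p : ℕ, Bdd (fun n : ℕ => ‖HPsN S (tauH a) z1 z2 K om G1 G2 L n -
      z * HPsN S (tauH a) z1 z2 K om G1 G2 L ((n : ℝ) / p)‖) := by
    intro p
    refine ⟨2 * C1, fun n => ?_⟩
    rw [abs_of_nonneg (norm_nonneg _)]
    refine (norm_sub_le _ _).trans ?_
    rw [norm_mul, hz, one_mul]
    linarith [hb (n : ℝ), hb ((n : ℝ) / p)]
  have hE0 : ∀ p, 0 ≤ Ee p := fun p => M.nonneg _ (hEbd p) fun n => norm_nonneg _
  have hI' : (∑ p ∈ R, (1 / (p : ℝ)) * Ee p) ^ 2 ≤ C2 * W * (√W + 1) := hI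
  have hD : ∑ p ∈ R.filter (fun p => ε1 < Ee p), 1 / (p : ℝ) ≤ κ * W := by
    set D := R.filter (fun p => ε1 < Ee p) with hDd
    have h3 : ε1 * ∑ p ∈ D, 1 / (p : ℝ) ≤ ∑ p ∈ R, (1 / (p : ℝ)) * Ee p := by
      rw [mul_sum]
      refine (sum_le_sum fun p hp => ?_).trans (sum_le_sum_of_subset_of_nonneg (filter_subset _ _)
        fun p _ _ => mul_nonneg (by positivity) (hE0 p))
      rw [mul_comm]
      exact mul_le_mul_of_nonneg_left (mem_filter.1 hp).2.le (by positivity)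
    have h4 : 0 ≤ ∑ p ∈ D, 1 / (p : ℝ) := sum_nonneg fun p _ => by positivity
    have h5 : √W + 1 ≤ 2 * √W := by
      have : 1 ≤ √W := Real.one_le_sqrt.2 hW1
      linarith
    have h6 : 2 * C2 / (κ * ε1) ^ 2 ≤ √W := Real.le_sqrt_of_sq_le hW2
    have h7 : 2 * C2 ≤ √W * (κ * ε1) ^ 2 := by rwa [div_le_iff₀ (by positivity)] at h6
    have h8 : √W * √W = W := Real.mul_self_sqrt (by linarith)
    have h9 : C2 * W * (√W + 1) ≤ (κ * ε1 * W) ^ 2 := by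
      have hW0 : 0 ≤ W := by linarith
      calc C2 * W * (√W + 1) ≤ C2 * W * (2 * √W) := by gcongr
        _ = (2 * C2) * (W * √W) := by ring
        _ ≤ (√W * (κ * ε1) ^ 2) * (W * √W) := by gcongr
        _ = (κ * ε1) ^ 2 * W * (√W * √W) := by ring
        _ = (κ * ε1 * W) ^ 2 := by rw [h8]; ring
    have h10 : (∑ p ∈ R, (1 / (p : ℝ)) * Ee p) ≤ κ * ε1 * W :=
      abs_le_of_sq_le_sq' (hI'.trans h9) (by positivity) |>.2
    have h11 : ε1 * ∑ p ∈ D, 1 / (p : ℝ) ≤ ε1 * (κ * W) := by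
      calc _ ≤ _ := h3
        _ ≤ _ := h10
        _ = _ := by ring
    exact le_of_mul_le_mul_left h11 hε1
  obtain ⟨p1, hp1, p2, hp2, p3, hp3, h4, h5⟩ := hRD _ (filter_subset _ _) hD
  have good : ∀ p, p ∈ R \ R.filter (fun p => ε1 < Ee p) → 0 < p ∧ Ee p ≤ ε1 := by
    intro p hp
    have h6 := mem_sdiff.1 hp
    refine ⟨(hRp p h6.1).1.pos, ?_⟩
    by_contra h7
    exact h6.2 (mem_filter.2 ⟨h6.1, not_le.1 h7⟩)
  have h6 := abstract M (HPsN S (tauH a) z1 z2 K om G1 G2 L) hx0 hb hs hz (good p1 hp1).1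
    (good p2 hp2).1 (good p3 hp3).1 (good p1 hp1).2 (good p2 hp2).2 (good p3 hp3).2 h4 h5
  have hb0 : Bdd (fun n : ℕ => ‖HPsN S (tauH a) z1 z2 K om G1 G2 L n‖) :=
    ⟨C1, fun n => by rw [abs_of_nonneg (norm_nonneg _)]; exact hb _⟩
  have h7 := M.nonneg _ hb0 fun n => norm_nonneg _
  rw [Real.dist_eq, sub_zero, abs_of_nonneg h7]
  have h8 : c * M.E (fun n : ℕ => ‖HPsN S (tauH a) z1 z2 K om G1 G2 L n‖) < c * ε := by
    refine lt_of_le_of_lt h6 ?_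
    have h9 : 0 < c * ε := by positivity
    rw [hε1d]
    linarith
  exact lt_of_mul_lt_mul_left h8 hc.le

end Pool.Agent.Lib.MP_a17b09_nt.HY
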