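import Pool.Agent.Lib.MP_a17b09_nt.HY.Stmts20
import Pool.Agent.Lib.MP_a17b09_nt.CH.Sim70
import Pool.Agent.Lib.MP_a17b09_nt.CH.Sys86

/-!
Project HY (MP_a17b09), module E11: the transformation `v = A u` for indefinite forms.
-/

set_option autoImplicit false

open Filter Topology Finset

namespace Pool.Agent.Lib.MP_a17b09_nt.HY

open Pool.Agent.Lib.MP_a17b09_nt.CH
open Pool.Agent.Lib.MP_a17b09_nt.CH.PE (TM Good ec n2 sm Sup Lip GT Ug ind pin wt cl az adj wz rz gc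
  UK rc StTri)

namespace Sim49

/-- the action of a solution through the square root -/
theorem act_eq {d : ℕ} (Q : Form) (a : Pell.Solution₁ (d : ℤ)) (v : V) :
    act Q a v = a.x • v + a.y • (Sys86.J Q).app v := by
  unfold act au Sys86.J Mat.app
  ext <;> simp only [Prod.fst_add, Prod.snd_add, Prod.smul_fst, Prod.smul_snd, smul_eq_mul] <;>
    ring

/-- a similitude commutes with the square roots -/
theorem app_J {Q Q' : Form} {A : Mat} {p : ℕ} (hp : p.Prime) (hA : A.det = p)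
    (h : ∀ u, Q.q (A.app u) = p * Q'.q u) (v : V) :
    A.app ((Sys86.J Q').app v) = (Sys86.J Q).app (A.app v) := by
  have hpz : (p : ℤ) ≠ 0 := by exact_mod_cast hp.ne_zero
  have ht : Sys86.tr Q A = ⟨p * Q'.a, p * Q'.b, p * Q'.c⟩ :=
    Sys86.form_ext fun v => by
      rw [Sys86.tr_q, h]
      unfold Form.q
      simp only
      ring
  have h1 := Sys86.J_tr Q A v
  rw [ht, hA] at h1
  have h2 : (Sys86.J ⟨p * Q'.a, p * Q'.b, p * Q'.c⟩).app v = (p : ℤ) • (Sys86.J Q').app v := by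
    unfold Sys86.J Mat.app
    ext <;> simp only [Prod.smul_fst, Prod.smul_snd, smul_eq_mul] <;> ring
  rw [h2, Sys86.app_smul] at h1
  exact Sys86.smul_cancel hpz h1

theorem app_act {d : ℕ} {Q Q' : Form} {A : Mat} {p : ℕ} (hp : p.Prime) (hA : A.det = p)
    (h : ∀ u, Q.q (A.app u) = p * Q'.q u) (a : Pell.Solution₁ (d : ℤ)) (u : V) :
    A.app (act Q' a u) = act Q a (A.app u) := by
  rw [act_eq, act_eq, Sys86.app_add, Sys86.app_smul, Sys86.app_smul, app_J hp hA h]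

/-- the product of the light cone coordinates -/
theorem prod_eq {d : ℕ} {Q : Form} (hQ : Hyp d Q) (v w : V) :
    (hX Q v + hY Q v) * (hX Q w - hY Q w) = ((Q.B v w : ℝ) - √(d : ℝ) * wd v w) / 2 := by
  have h1 := hQ.B_eq v w
  have h2 := hQ.wd_eq v w
  linear_combination (-1 / 2 : ℝ) * h1 - h2

/-- hyperbolic rotation -/
theorem rot {d : ℕ} {Q Q' : Form} (hQ : Hyp d Q) (hQ' : Hyp d Q') {A : Mat} {p : ℕ}
    (hp : p.Prime) (hA : A.det = p) (h : ∀ u, Q.q (A.app u) = p * Q'.q u)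
    (hc : ∀ u, Cn Q (A.app u) ↔ Cn Q' u) : ∃ s : ℝ, ∀ u,
      hX Q (A.app u) + hY Q (A.app u) = √(p : ℝ) * Real.exp s * (hX Q' u + hY Q' u) ∧
      hX Q (A.app u) - hY Q (A.app u) = √(p : ℝ) * Real.exp (-s) * (hX Q' u - hY Q' u) := by
  have hp0 : (0 : ℝ) < p := by exact_mod_cast hp.pos
  have hsp : 0 < √(p : ℝ) := Real.sqrt_pos.2 hp0
  have hspp : √(p : ℝ) * √(p : ℝ) = p := Real.mul_self_sqrt hp0.le
  -- products
  have hprod : ∀ v w : V, (hX Q (A.app v) + hY Q (A.app v)) * (hX Q (A.app w) - hY Q (A.app w)) =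
      p * ((hX Q' v + hY Q' v) * (hX Q' w - hY Q' w)) := by
    intro v w
    rw [prod_eq hQ, prod_eq hQ', Dil70.B_app h, Dil70.wd_app, hA]
    push_cast
    ring
  -- a vector of the cone
  have hw0 : Cn Q' (1, 0) := by
    unfold Cn
    rw [hQ'.hY_eq]
    unfold hX
    have := hQ'.sa
    simpa using this
  obtain ⟨a1, a2⟩ := (cn_iff _ _).1 hw0
  obtain ⟨b1, b2⟩ := (cn_iff _ _).1 ((hc _).2 hw0)
  set w0 : V := (1, 0) with hw0'
  obtain ⟨P, hP⟩ : ∃ P, P = hX Q (A.app w0) + hY Q (A.app w0) := ⟨_, rfl⟩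
  obtain ⟨M, hM⟩ : ∃ M, M = hX Q (A.app w0) - hY Q (A.app w0) := ⟨_, rfl⟩
  obtain ⟨P', hP'⟩ : ∃ P', P' = hX Q' w0 + hY Q' w0 := ⟨_, rfl⟩
  obtain ⟨M', hM'⟩ : ∃ M', M' = hX Q' w0 - hY Q' w0 := ⟨_, rfl⟩
  rw [← hP] at b1
  rw [← hM] at b2
  rw [← hP'] at a1
  rw [← hM'] at a2
  have h00 := hprod w0 w0
  rw [← hP, ← hM, ← hP', ← hM'] at h00
  have hr : 0 < P / (√(p : ℝ) * P') := by positivity
  refine ⟨Real.log (P / (√(p : ℝ) * P')), fun u => ⟨?_, ?_⟩⟩
  · rw [Real.exp_log hr]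
    have h1 := hprod u w0
    rw [← hM, ← hM'] at h1
    apply mul_right_cancel₀ b2.ne'
    rw [h1]
    have e : √(p : ℝ) * (P / (√(p : ℝ) * P')) = P / P' := by field_simp
    rw [e]
    have e2 : P / P' * (hX Q' u + hY Q' u) * M = (P * M) * (hX Q' u + hY Q' u) / P' := by ring
    rw [e2, h00]
    field_simp
  · rw [Real.exp_neg, Real.exp_log hr]
    have h1 := hprod w0 u
    rw [← hP, ← hP'] at h1
    apply mul_left_cancel₀ b1.ne'
    rw [h1]
    have e : P * (√(p : ℝ) * (P / (√(p : ℝ) * P'))⁻¹ * (hX Q' u - hY Q' u)) =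
        (√(p : ℝ) * √(p : ℝ)) * (P' * (hX Q' u - hY Q' u)) := by field_simp
    rw [e, hspp]

theorem cs (t X Y : ℝ) : Real.cosh t * X - Real.sinh t * Y =
    (Real.exp (-t) * (X + Y) + Real.exp t * (X - Y)) / 2 := by
  rw [Real.cosh_eq, Real.sinh_eq]
  ring

theorem sc (t X Y : ℝ) : Real.cosh t * Y - Real.sinh t * X =
    (Real.exp (-t) * (X + Y) - Real.exp t * (X - Y)) / 2 := by
  rw [Real.cosh_eq, Real.sinh_eq]
  ring

theorem hlx_rot {Q Q' : Form} {A : Mat} {p : ℕ} (hp : 0 < p) {τ φ : ℝ}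
    (h : ∀ u, hX Q (A.app u) + hY Q (A.app u) =
        √(p : ℝ) * Real.exp (τ * φ) * (hX Q' u + hY Q' u) ∧
      hX Q (A.app u) - hY Q (A.app u) =
        √(p : ℝ) * Real.exp (-(τ * φ)) * (hX Q' u - hY Q' u))
    (x θ : ℝ) (u : V) : hlx Q τ x θ (A.app u) = hlx Q' τ (x / p) (θ - φ) u ∧
      hly Q τ x θ (A.app u) = p * hly Q' τ (x / p) (θ - φ) u := by
  have hp0 : (0 : ℝ) < p := by exact_mod_cast hp
  have hs : √(p : ℝ) ≠ 0 := (Real.sqrt_pos.2 hp0).ne'
  have hs2 : √(p : ℝ) * √(p : ℝ) = p := Real.mul_self_sqrt hp0.le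
  obtain ⟨h1, h2⟩ := h u
  have e1 : Real.exp (-(τ * (θ - φ))) = Real.exp (-(τ * θ)) * Real.exp (τ * φ) := by
    rw [← Real.exp_add]
    congr 1
    ring
  have e2 : Real.exp (τ * (θ - φ)) = Real.exp (τ * θ) * Real.exp (-(τ * φ)) := by
    rw [← Real.exp_add]
    congr 1
    ring
  unfold hlx hly
  rw [cs, cs, sc, sc, h1, h2, e1, e2, Real.sqrt_div' x hp0.le]
  constructor
  · rcases eq_or_ne (√x) 0 with h0 | h0
    · rw [h0]
      simp
    · field_simp
  · nth_rewrite 3 [← hs2]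
    field_simp

end Sim49

open Sim49 in
/-- (E11) the transformation `v = A u` -/
theorem stHSim_49 : StHSim := by
  intro d Q Q' hQ hQ' p A hp hA h hc
  refine ⟨?_, PE.lat70 hp hA, ?_, fun u hu => Dil70.prim_of_app hu,
    fun a u => app_act hp hA h a u, ?_⟩
  · have hA' : (adj A).det = p := by rw [PE.det_adj70, hA]
    obtain ⟨l, hl1, hl2⟩ := PE.lat70 hp hA'
    exact ⟨l, hl1, fun v => (PE.im_iff70 hp hA v).trans (hl2 v)⟩
  · intro u hu
    constructor
    · rintro h1 ⟨h2, h3⟩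
      unfold Prim at h1
      have h4 : (p : ℤ) ∣ ((Int.gcd (A.app u).1 (A.app u).2 : ℕ) : ℤ) := Int.dvd_coe_gcd h2 h3
      rw [h1] at h4
      have h5 : p ∣ 1 := by exact_mod_cast h4
      exact hp.one_lt.ne' (Nat.dvd_one.1 h5)
    · intro h1
      by_contra h2
      exact h1 (PE.notprim70 hp hA hu h2)
  · intro τ hτ
    obtain ⟨s, hs⟩ := rot hQ hQ' hp hA h hc
    have hp0 : (0 : ℝ) < p := by exact_mod_cast hp.pos
    have hpc : (p : ℂ) ≠ 0 := by exact_mod_cast hp.ne_zero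
    have hsτ : τ * (s / τ) = s := by field_simp
    refine ⟨s / τ, fun u hu => ?_, fun B G _ g L x θ hg hL => ?_⟩
    · obtain ⟨c1, c2⟩ := (cn_iff _ _).1 hu
      obtain ⟨h1, h2⟩ := hs u
      have hsp : 0 < √(p : ℝ) := Real.sqrt_pos.2 hp0
      unfold ps
      rw [hsτ, h1, h2]
      have e1 : √(p : ℝ) * Real.exp s * (hX Q' u + hY Q' u) /
          (√(p : ℝ) * Real.exp (-s) * (hX Q' u - hY Q' u)) =
          Real.exp (2 * s) * ((hX Q' u + hY Q' u) / (hX Q' u - hY Q' u)) := by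
        have e2 : Real.exp (2 * s) = Real.exp s * Real.exp s := by
          rw [← Real.exp_add]; congr 1; ring
        have e3 : Real.exp (-s) * Real.exp s = 1 := by
          rw [← Real.exp_add]; simp
        have e4 := (Real.exp_pos s).ne'
        rw [Real.exp_neg, e2]
        field_simp
      rw [e1, Real.log_mul (Real.exp_pos _).ne' (div_pos c1 c2).ne', Real.log_exp]
      ring
    · have hs' : ∀ u, hX Q (A.app u) + hY Q (A.app u) =
          √(p : ℝ) * Real.exp (τ * (s / τ)) * (hX Q' u + hY Q' u) ∧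
        hX Q (A.app u) - hY Q (A.app u) =
          √(p : ℝ) * Real.exp (-(τ * (s / τ))) * (hX Q' u - hY Q' u) := by
        rw [hsτ]; exact hs
      have hinj : Function.Injective A.app := fun u u' he =>
        Dil70.app_inj (by rw [hA]; exact_mod_cast hp.ne_zero) he
      unfold hmm
      have e1 : ∑' v : V, ((G (hlx Q τ x θ v) (hly Q τ x θ v / L) : ℝ) : ℂ) * g v =
          ∑' u : V, ((G (hlx Q τ x θ (A.app u)) (hly Q τ x θ (A.app u) / L) : ℝ) : ℂ) *
            g (A.app u) := by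
        symm
        refine hinj.tsum_eq
          (f := fun v => ((G (hlx Q τ x θ v) (hly Q τ x θ v / L) : ℝ) : ℂ) * g v) ?_
        intro v hv
        rw [Function.mem_support] at hv
        obtain ⟨u, hu⟩ := hg v (right_ne_zero_of_mul hv)
        exact ⟨u, hu⟩
      rw [e1]
      have e2 : ∀ u, ((G (hlx Q τ x θ (A.app u)) (hly Q τ x θ (A.app u) / L) : ℝ) : ℂ) *
          g (A.app u) = ((G (hlx Q' τ (x / p) (θ - s / τ) u)
            (hly Q' τ (x / p) (θ - s / τ) u / (L / p)) : ℝ) : ℂ) * g (A.app u) := by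
        intro u
        obtain ⟨h1, h2⟩ := hlx_rot hp.pos hs' x θ u
        rw [h1, h2]
        congr 3
        field_simp
      rw [tsum_congr e2, ← mul_assoc]
      congr 1
      have hLc : (L : ℂ) ≠ 0 := by exact_mod_cast hL.ne'
      push_cast
      field_simp

end Pool.Agent.Lib.MP_a17b09_nt.HY
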