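import Pool.Agent.Lib.MP_a17b09_nt.HY.Defs20
import Pool.Agent.Lib.MP_a17b09_nt.CH.StmtsR79

/-!
Project HY (MP_a17b09): positive discriminant.  Statements of the modules.
Paper text: /team-store/CH20.md.  `M` is always a logarithmic mean, `τ = per a / (2 π)`.
-/

set_option autoImplicit false

open Filter Topology Finset

namespace Pool.Agent.Lib.MP_a17b09_nt.HY

open Pool.Agent.Lib.MP_a17b09_nt.CH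
open Pool.Agent.Lib.MP_a17b09_nt.CH.PE (TM Good ec n2 sm Sup Lip GT Ug ind pin wt cl az adj wz rz gc
  UK rc StTri)

/-! ### A. Sector sums, approximation by definite forms, decoupling -/

/-- (A1) counting in the sector: vectors, vectors of a lattice, vectors on a line -/
def StHcnt : Prop := ∀ (d : ℕ) (Q : Form), Hyp d Q → ∀ T : ℝ, 0 < T → ∀ δ : ℝ, 0 < δ →
  ∃ C : ℝ, 0 < C ∧
  (∀ n : ℝ, 1 ≤ n → {v : V | Sec Q T v ∧ (Q.q v : ℝ) ≤ n}.Finite ∧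
    ({v : V | Sec Q T v ∧ (Q.q v : ℝ) ≤ n}.ncard : ℝ) ≤ C * n) ∧
  (∀ (p n : ℕ), p.Prime → ∀ L : V → Prop, IsLat p L →
    ({v : V | Sec Q T v ∧ L v ∧ Q.q v ≤ n}.ncard : ℝ) ≤ C * (n / p + √n + 1)) ∧
  ∀ (n : ℝ) (v : V) (k : ℤ), 0 < n → Prim v → Cn Q v → δ ^ 2 * n ≤ (Q.q v : ℝ) →
    {v' : V | Cn Q v' ∧ (Q.q v' : ℝ) ≤ n ∧ wd v v' = k}.Finite ∧
    ({v' : V | Cn Q v' ∧ (Q.q v' : ℝ) ≤ n ∧ wd v v' = k}.ncard : ℝ) ≤ C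

/-- (A2) the sector sums are finite, bounded and slowly varying (from `StHcnt`) -/
def StHC0 : Prop := ∀ (d : ℕ) (Q : Form), Hyp d Q → ∀ T : ℝ, 0 < T →
  ∀ (δ : ℝ) (h : ℝ → ℝ → ℝ), 0 < δ → Test δ h →
  (∀ (U : V → V → ℂ) (k : ℤ) (n : ℝ), (Function.support (hkk Q T h U k n)).Finite) ∧
  (∃ C : ℝ, ∀ (k : ℤ) (n : ℝ) (U : V → V → ℂ) (c : ℝ), (∀ v v', ‖U v v'‖ ≤ c) →
    ‖Hk Q T h U k n‖ ≤ C * c) ∧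
  ∀ (k : ℤ) (U : V → V → ℂ) (c : ℝ), (∀ v v', ‖U v v'‖ ≤ c) → ∃ C : ℝ, SVc C (Hk Q T h U k)

open Classical in
/-- restriction to the pairs whose first vector lies in a cell -/
noncomputable def rcell (P : V → Prop) (U : V → V → ℂ) (v v' : V) : ℂ := if P v then U v v' else 0

/-- (A3) approximation of the sector sum by sums for definite forms, cell by cell
(from `StHcnt`; the second part is the form needed for lattices of prime index) -/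
def StAP : Prop := ∀ (d : ℕ) (Q : Form), Hyp d Q → ∀ T : ℝ, 0 < T →
  ∀ (δ : ℝ) (h : ℝ → ℝ → ℝ), 0 < δ → Test δ h → ∀ ε : ℝ, 0 < ε →
  ∃ (N r : ℕ) (F : Fin r → Form) (cell : Fin r → V → Prop), 0 < N ∧ (∀ c, (F c).Pos) ∧
  (∀ k : ℤ, ∃ n0 : ℕ, ∀ n : ℕ, n0 ≤ n → ∀ U : V → V → ℂ, (∀ v v', ‖U v v'‖ ≤ 1) →
    ‖Hk Q T h U k n - ((N : ℂ) / (T : ℂ)) *
      ∑ c, Dk (F c) h (rcell (cell c) U) k ((N : ℝ) * n)‖ ≤ ε) ∧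
  ∀ (k : ℤ) (p : ℕ), p.Prime → ∃ n0 : ℕ, ∀ n : ℕ, n0 ≤ n → ∀ L : V → Prop, IsLat p L →
    ∀ U : V → V → ℂ, (∀ v v', ‖U v v'‖ ≤ 1) →
    ‖(p : ℂ) * (Hk Q T h (res L U) k n - ((N : ℂ) / (T : ℂ)) *
      ∑ c, Dk (F c) h (rcell (cell c) (res L U)) k ((N : ℝ) * n))‖ ≤ ε

/-- (A4) Theorem B (from `StBs`, `StAP`, `StHC0`, `StC0`, `StMd`) -/
def StHBs : Prop := ∀ (M : LMean) (ι : Type) [Fintype ι] (d : ℕ) (Q : ι → Form),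
  (∀ i, Hyp d (Q i)) → ∀ T : ℝ, 0 < T →
  ∀ (Λ : Type) [Fintype Λ] [DecidableEq Λ] (lam : ι → V → Λ) (u : ι → Λ → Λ → ℂ)
    (K : ℕ), 0 < K → ∀ (L : ℕ → ι → V → Prop),
    (∀ p : ℕ, p.Prime → p ≡ 1 [MOD K] → ∀ i, IsLat p (L p i)) →
    ∀ (δ : ℝ) (h : ℝ → ℝ → ℝ), 0 < δ → Test δ h → ∀ ε : ℝ, 0 < ε → ∀ e0 : ℕ,
    ∃ e : ℕ, e0 ≤ e ∧ ∀ i, ∑ p ∈ QQ K e, M.E (fun n =>
      ‖(p : ℂ) * Hk (Q i) T h (res (L p i) (fun v v' => u i (lam i v) (lam i v'))) (p : ℤ) n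
        - Hk (Q i) T h (fun v v' => u i (lam i v) (lam i v')) (p : ℤ) n‖)
        ≤ ε * ((QQ K e).card : ℝ)

/-- (A5) Theorem D (from `StD`, `StAP`) -/
def StHD : Prop := ∀ (d : ℕ) (Q : Form), Hyp d Q → ∀ T : ℝ, 0 < T →
  ∀ (δ : ℝ) (h : ℝ → ℝ → ℝ), 0 < δ → Test δ h →
  ∀ ε : ℝ, 0 < ε → ∃ w : ℕ, ∀ K : ℕ, 0 < K → (∀ l : ℕ, l.Prime → l ≤ w → l ∣ K) →
  ∃ e1 : ℕ, ∀ e : ℕ, e1 ≤ e → ∃ n1 : ℕ, ∀ n : ℕ, n1 ≤ n → ∀ G G' : V → ℂ,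
    (∀ v, ‖G v‖ ≤ 1) → (∀ v, ‖G' v‖ ≤ 1) →
    ‖(1 / ((QQ K e).card : ℂ)) * ∑ p ∈ QQ K e, Hk Q T h (fun v v' => G v * G' v') (p : ℤ) n
      - (1 / (2 : ℂ) ^ e) * ∑ k ∈ NN K e, (K : ℂ) * Hk Q T h (fun v v' => G v * G' v') (k : ℤ) n‖
      ≤ ε

/-- (A6) dilation (from `StHcnt`, `StHC0`) -/
def StHDils : Prop := ∀ (ι : Type) [Fintype ι] (S : HSystem ι) (z1 z2 : ℂ) (k : ℕ), 0 < k →
  z1 ^ k = 1 → z2 ^ k = 1 → ∀ (K : ℕ), 0 < K → ∀ om : ι → V → V → ℂ, HWt S K om →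
  ∀ a : Pell.Solution₁ (S.d : ℤ), PP a →
  ∀ (δ : ℝ) (h : ℝ → ℝ → ℝ), 0 < δ → Test δ h → ∃ C : ℝ, ∀ p : ℕ, p.Prime →
  p ≡ 1 [MOD 4 * S.d] → p ≡ 1 [MOD K] → ∃ n0 : ℕ, ∀ n : ℕ, n0 ≤ n → ∀ i,
  ‖(p : ℂ) * Hk (S.Q i) (per a) h (res (Im (S.M p i)) (kerH S z1 z2 om i)) (p : ℤ) n
    - z1 * z2 * Hk (S.Q (S.s p i)) (per a) h (kerH S z1 z2 om (S.s p i)) 1 ((n : ℝ) / p)‖
      ≤ C / p

/-- (A7) change of the period (from `StHC0`) -/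
def StHper : Prop := ∀ (d : ℕ) (Q : Form), Hyp d Q → ∀ a : Pell.Solution₁ (d : ℤ), PP a →
  ∀ m : ℕ, 0 < m → PP (a ^ m) ∧ per (a ^ m) = m * per a ∧
  ∀ (δ : ℝ) (h : ℝ → ℝ → ℝ), 0 < δ → Test δ h → ∀ U : V → V → ℂ, AInv Q a U →
  ∀ (k : ℤ) (n : ℝ), Hk Q (per (a ^ m)) h U k n = Hk Q (per a) h U k n

/-- a solution congruent to `1` modulo `K` -/
def PK {d : ℕ} (K : ℕ) (a : Pell.Solution₁ (d : ℤ)) : Prop :=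
  (K : ℤ) ∣ a.x - 1 ∧ (K : ℤ) ∣ a.y

/-- (A8) some power is congruent to `1` modulo `K` -/
def StHpow : Prop := ∀ (d : ℕ) (a : Pell.Solution₁ (d : ℤ)) (K : ℕ), 0 < K →
  ∃ m : ℕ, 0 < m ∧ PK K (a ^ m)

/-- the conclusion of Theorem A for a mean -/
def HNullM (M : LMean) {ι : Type} [Fintype ι] (Q : ι → Form) (T : ℝ) (U : ι → V → V → ℂ) : Prop :=
  ∀ (δ : ℝ) (h : ℝ → ℝ → ℝ), 0 < δ → Test δ h →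
    M.E (fun n : ℕ => ‖∑ i, Hk (Q i) T h (U i) 1 n‖) = 0

/-- the conclusion of Theorem E for one system, one pair of roots of unity -/
def HEsFor {ι : Type} [Fintype ι] (S : HSystem ι) (z1 z2 : ℂ) : Prop :=
  ∀ (M : LMean) (K : ℕ), 0 < K → 4 * S.d ∣ K → ∀ a : Pell.Solution₁ (S.d : ℤ), PP a → PK K a →
  ∀ om : ι → V → V → ℂ, HWt S K om → ∀ (δ : ℝ) (h : ℝ → ℝ → ℝ), 0 < δ → Test δ h →
  Tendsto (fun e : ℕ => M.E (fun n => ‖∑ i, (1 / (2 : ℂ) ^ e) * ∑ j ∈ NN K e,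
    (K : ℂ) * Hk (S.Q i) (per a) h (kerH S z1 z2 om i) (j : ℤ) n‖)) atTop (𝓝 0)

/-- (A9) Theorem A from Theorem E for one system and one pair of roots of unity
(from `StHC0`, `StHDils`, `StHBs`, `StHD`, `StHper`, `StHpow`, `StPri`, `StTel`, `StMd`) -/
def StHAm : Prop := ∀ (ι : Type) [Fintype ι] (S : HSystem ι) (z1 z2 : ℂ) (k : ℕ), 0 < k →
  z1 ^ k = 1 → z2 ^ k = 1 → HEsFor S z1 z2 → ∀ (K : ℕ), 0 < K → ∀ om : ι → V → V → ℂ,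
  HWt S K om → ∀ a : Pell.Solution₁ (S.d : ℤ), PP a → ∀ M : LMean,
  HNullM M S.Q (per a) (kerH S z1 z2 om)

/-! ### E. Local sums -/

/-- first local coordinate -/
noncomputable def hlx (Q : Form) (τ x θ : ℝ) (v : V) : ℝ :=
  (Real.cosh (τ * θ) * hX Q v - Real.sinh (τ * θ) * hY Q v) / √x

/-- second local coordinate -/
noncomputable def hly (Q : Form) (τ x θ : ℝ) (v : V) : ℝ :=
  √x * (Real.cosh (τ * θ) * hY Q v - Real.sinh (τ * θ) * hX Q v)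

/-- `τ` of a solution -/
noncomputable def tauH {d : ℕ} (a : Pell.Solution₁ (d : ℤ)) : ℝ := per a / (2 * Real.pi)

/-- (E1) geometry of the local coordinates -/
def StHCoord : Prop := ∀ (d : ℕ) (Q : Form), Hyp d Q → ∀ (v w : V) (τ x θ : ℝ), 0 < x →
  (hlx Q τ x θ v ^ 2 - (hly Q τ x θ v / x) ^ 2 = Q.q v / x) ∧
  (hlx Q τ x θ v * hly Q τ x θ w - hlx Q τ x θ w * hly Q τ x θ v = √(d : ℝ) / 2 * wd v w) ∧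
  (2 * x * (hlx Q τ x θ v * hlx Q τ x θ w - hly Q τ x θ v * hly Q τ x θ w / x ^ 2) = Q.B v w) ∧
  (∀ c : ℝ, hlx Q τ x (θ + c) v =
      Real.cosh (τ * c) * hlx Q τ x θ v - Real.sinh (τ * c) * (hly Q τ x θ v / x) ∧
    hly Q τ x (θ + c) v = Real.cosh (τ * c) * hly Q τ x θ v - x * Real.sinh (τ * c) * hlx Q τ x θ v) ∧
  (∀ y : ℝ, 0 < y → hlx Q τ y θ v = hlx Q τ x θ v * √(x / y) ∧
    hly Q τ y θ v = hly Q τ x θ v * √(y / x)) ∧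
  (∀ a : Pell.Solution₁ (d : ℤ), PP a → hlx Q (tauH a) x (θ + 2 * Real.pi) (act Q a v) =
    hlx Q (tauH a) x θ v ∧ hly Q (tauH a) x (θ + 2 * Real.pi) (act Q a v) = hly Q (tauH a) x θ v) ∧
  (Cn Q v → hlx Q τ x θ v = √(Q.q v / x) * Real.cosh (ps Q v - τ * θ) ∧
    hly Q τ x θ v = √(x * Q.q v) * Real.sinh (ps Q v - τ * θ))

/-- (E2) counting primitive vectors in a local box -/
def StHCnt : Prop := ∀ (d : ℕ) (Q : Form), Hyp d Q → ∀ B : ℝ, 1 ≤ B → ∃ C : ℝ,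
  ∀ τ L : ℝ, 1 ≤ L → ∀ x θ : ℝ,
  {v : V | Prim v ∧ 1 / B ≤ hlx Q τ x θ v ∧ hlx Q τ x θ v ≤ B ∧ |hly Q τ x θ v| ≤ B * L}.Finite ∧
  ({v : V | Prim v ∧ 1 / B ≤ hlx Q τ x θ v ∧ hlx Q τ x θ v ≤ B ∧
    |hly Q τ x θ v| ≤ B * L}.ncard : ℝ) ≤ C * L

/-- the local sums -/
noncomputable def hmm (Q : Form) (τ : ℝ) (g : V → ℂ) (G : ℝ → ℝ → ℝ) (L x θ : ℝ) : ℂ :=
  (1 / (L : ℂ)) * ∑' v : V, ((G (hlx Q τ x θ v) (hly Q τ x θ v / L) : ℝ) : ℂ) * g v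

/-- (E3) the sums are finite and bounded (from `StHCnt`) -/
def StHMb : Prop := ∀ (d : ℕ) (Q : Form), Hyp d Q → ∀ B : ℝ, 1 ≤ B →
  (∀ (G : ℝ → ℝ → ℝ) (g : V → ℂ) (τ L x θ : ℝ), 1 ≤ L → Sup B G → (∀ v, g v ≠ 0 → Prim v) →
    (Function.support (fun v : V =>
      ((G (hlx Q τ x θ v) (hly Q τ x θ v / L) : ℝ) : ℂ) * g v)).Finite) ∧
  ∃ C : ℝ, ∀ (G : ℝ → ℝ → ℝ) (ε : ℝ), Sup B G → (∀ x y, |G x y| ≤ ε) →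
    ∀ (g : V → ℂ) (c : ℝ), (∀ v, g v ≠ 0 → Prim v) → (∀ v, ‖g v‖ ≤ c) →
    ∀ τ L x θ : ℝ, 1 ≤ L → ‖hmm Q τ g G L x θ‖ ≤ C * ε * c

/-- (E4) the sums of invariant functions are good functions (from `StHCoord`, `StHCnt`) -/
def StHMg : Prop := ∀ (d : ℕ) (Q : Form), Hyp d Q → ∀ a : Pell.Solution₁ (d : ℤ), PP a →
  ∀ (B : ℝ) (G : ℝ → ℝ → ℝ), GT B G → ∀ g : V → ℂ, (∃ c : ℝ, ∀ v, ‖g v‖ ≤ c) →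
  (∀ v, g v ≠ 0 → Prim v) → AI Q a g → ∀ L : ℝ, 1 ≤ L → Good (hmm Q (tauH a) g G L)

/-- (E5) slow variation in `x`, uniformly in `L` -/
def StHSvu : Prop := ∀ (d : ℕ) (Q : Form), Hyp d Q → ∀ (B : ℝ) (G : ℝ → ℝ → ℝ), GT B G →
  ∀ τ : ℝ, ∃ C : ℝ, ∀ L : ℝ, 1 ≤ L → ∃ x0 : ℝ, 1 ≤ x0 ∧ ∀ g : V → ℂ, Ug g → ∀ x y θ : ℝ,
    x0 ≤ x → x ≤ y → ‖hmm Q τ g G L x θ - hmm Q τ g G L y θ‖ ≤ C * (y - x) / x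

/-- (E6) shift by `u L / x` -/
def StHShift : Prop := ∀ (d : ℕ) (Q : Form), Hyp d Q → ∀ (B : ℝ) (G : ℝ → ℝ → ℝ), GT B G →
  ∀ τ L u : ℝ, 0 < τ → 1 ≤ L → ∀ ε : ℝ, 0 < ε → ∃ x0 : ℝ, 1 ≤ x0 ∧ ∀ g : V → ℂ, Ug g →
  ∀ x θ : ℝ, x0 ≤ x → ‖hmm Q τ g G L x (θ + u * L / x) -
    hmm Q τ g (fun s t => G s (t - τ * u * s)) L x θ‖ ≤ ε

/-- (E7) the plateau (from `StHShift`, `StHMg`, `StHMb`, `StGood`, `StInv`, `StHil`) -/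
def StHPlat : Prop := ∀ (M : LMean) (d : ℕ) (Q : Form), Hyp d Q →
  ∀ a : Pell.Solution₁ (d : ℤ), PP a → ∀ (B : ℝ) (G : ℝ → ℝ → ℝ), GT B G →
  ∀ g : V → ℂ, Ug g → AI Q a g → ∀ p : ℕ, 0 < p →
  Tendsto (fun L : ℝ => n2 (TM M) (fun w => sm (hmm Q (tauH a) g G L) w -
    sm (hmm Q (tauH a) g G (L / p)) w)) atTop (𝓝 0)

/-- (E8) all primitive classes modulo `N` have the same mean (no period is needed: the sector may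
have any length; `v` runs through the vectors of all residue classes) -/
def StHOne : Prop := ∀ (M : LMean) (d : ℕ) (Q : Form), Hyp d Q → ∀ τ : ℝ, 0 < τ →
  ∀ (B : ℝ) (G : ℝ → ℝ → ℝ), GT B G → ∀ L : ℝ, 1 ≤ L → ∀ N : ℕ, 0 < N →
  ∀ a b : V, Prim a → Prim b →
  ec (TM M) (sm (hmm Q τ (ind N a) G L)) = ec (TM M) (sm (hmm Q τ (ind N b) G L))

/-- (E9) densities of one and two lattices (from `StHOne`, `StHMb`) -/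
def StHDens : Prop := ∀ (M : LMean) (d : ℕ) (Q : Form), Hyp d Q → ∀ τ : ℝ, 0 < τ →
  ∀ (B : ℝ) (G : ℝ → ℝ → ℝ), GT B G →
  ∀ L : ℝ, 1 ≤ L → ∀ (p : ℕ) (A : V → Prop), p.Prime → IsLat p A →
  ec (TM M) (sm (hmm Q τ (pin A) G L)) =
    (1 / ((p : ℂ) + 1)) * ec (TM M) (sm (hmm Q τ (pin fun _ => True) G L)) ∧
  ∀ (q : ℕ) (A' : V → Prop), q.Prime → q ≠ p → IsLat q A' →
  ec (TM M) (sm (hmm Q τ (pin fun v => A v ∧ A' v) G L)) =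
    (1 / (((p : ℂ) + 1) * ((q : ℂ) + 1))) * ec (TM M) (sm (hmm Q τ (pin fun _ => True) G L))

/-- (E10) Turan-Kubilius (from `StHDens`, `StHMb`, `StHil`) -/
def StHTK : Prop := ∀ (d : ℕ) (Q : Form), Hyp d Q → ∀ τ : ℝ, 0 < τ →
  ∀ (B : ℝ) (G : ℝ → ℝ → ℝ), GT B G → ∃ C : ℝ,
  ∀ (M : LMean) (R : Finset ℕ) (A : ℕ → V → Prop), (∀ p ∈ R, p.Prime ∧ IsLat p (A p)) →
  ∀ c : ℕ → ℂ, (∀ p, ‖c p‖ ≤ 1) → ∀ g : V → ℂ, Ug g → ∀ L : ℝ, 1 ≤ L →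
  (TM M).E (fun w => ‖sm (hmm Q τ (fun v => g v * wt R A c v) G L) w‖) ≤
    C * √(∑ p ∈ R, 1 / (p : ℝ))

/-- (E11) the transformation `v = A u` -/
def StHSim : Prop := ∀ (d : ℕ) (Q Q' : Form), Hyp d Q → Hyp d Q' → ∀ (p : ℕ) (A : Mat), p.Prime →
  A.det = p → (∀ u, Q.q (A.app u) = p * Q'.q u) → (∀ u, Cn Q (A.app u) ↔ Cn Q' u) →
  IsLat p (Im A) ∧ IsLat p (fun u => (p : ℤ) ∣ (A.app u).1 ∧ (p : ℤ) ∣ (A.app u).2) ∧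
  (∀ u, Prim u → (Prim (A.app u) ↔ ¬ ((p : ℤ) ∣ (A.app u).1 ∧ (p : ℤ) ∣ (A.app u).2))) ∧
  (∀ u, Prim (A.app u) → Prim u) ∧
  (∀ (a : Pell.Solution₁ (d : ℤ)) (u : V), A.app (act Q' a u) = act Q a (A.app u)) ∧
  ∀ τ : ℝ, 0 < τ → ∃ φ : ℝ, (∀ u, Cn Q' u → ps Q (A.app u) = ps Q' u + τ * φ) ∧
    ∀ (B : ℝ) (G : ℝ → ℝ → ℝ), GT B G → ∀ (g : V → ℂ) (L x θ : ℝ), (∀ v, g v ≠ 0 → Im A v) →
    0 < L → hmm Q τ g G L x θ =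
      (1 / (p : ℂ)) * hmm Q' τ (fun u => g (A.app u)) G (L / p) (x / p) (θ - φ)

/-- (E12) the operator inequality (from `StHTK`, `StHSim`, `StHDens`, `StHMb`, `StHMg`, `StInv`) -/
def StHOp : Prop := ∀ (ι : Type) [Fintype ι] (S : HSystem ι) (K : ℕ), 0 < K → 4 * S.d ∣ K →
  ∀ a : Pell.Solution₁ (S.d : ℤ), PP a → PK K a → ∃ φ : ℕ → ι → ℝ, ∀ (ζ : ℂ), ‖ζ‖ = 1 →
  ∀ (B : ℝ) (G : ℝ → ℝ → ℝ), GT B G → ∃ C : ℝ, ∀ (M : LMean) (R : Finset ℕ),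
  (∀ p ∈ R, p.Prime ∧ p ≡ 1 [MOD K]) →
  ∀ c : ℕ → ℂ, (∀ p, ‖c p‖ ≤ 1) → ∀ L : ℝ, (∀ p ∈ R, (p : ℝ) ≤ L) → 1 ≤ L →
  ∀ (i : ι) (α : ZMod K × ZMod K), (TM M).E (fun w => ‖∑ p ∈ R, (c p / (p : ℂ)) *
    (sm (hmm (S.Q i) (tauH a) (gc ζ (S.Q i) K α) G L) w -
      ζ * hmm (S.Q (S.s p i)) (tauH a) (gc ζ (S.Q (S.s p i)) K (az (adj (S.M p i)) α)) G (L / p)
        ((w.1 : ℝ) / p) (w.2 - φ p i))‖) ≤ C * (√(∑ p ∈ R, 1 / (p : ℝ)) + 1)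

/-- (E13) the functions are almost invariant under most similitudes
(from `StHOp`, `StHPlat`, `StInv`, `StGood`, `StHil`, `StHMg`, `StHMb`) -/
def StHSq : Prop := ∀ (ι : Type) [Fintype ι] (S : HSystem ι) (K : ℕ) [NeZero K], 4 * S.d ∣ K →
  ∀ a : Pell.Solution₁ (S.d : ℤ), PP a → PK K a →
  ∃ φ : ℕ → ι → ℝ, ∀ (ζ : ℂ), ‖ζ‖ = 1 → ∀ (B : ℝ) (G : ℝ → ℝ → ℝ), GT B G → ∃ C : ℝ, 0 < C ∧
  ∀ (M : LMean) (R : Finset ℕ), (∀ p ∈ R, p.Prime ∧ p ≡ 1 [MOD K]) → ∃ L0 : ℝ, 1 ≤ L0 ∧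
  ∀ L : ℝ, L0 ≤ L → ∑ p ∈ R, (1 / (p : ℝ)) * ∑ i, ∑ α : ZMod K × ZMod K,
    (TM M).E (fun w => ‖sm (hmm (S.Q i) (tauH a) (gc ζ (S.Q i) K α) G L) w -
      ζ * hmm (S.Q (S.s p i)) (tauH a) (gc ζ (S.Q (S.s p i)) K (az (adj (S.M p i)) α)) G L
        ((w.1 : ℝ) / p) (w.2 - φ p i)‖ ^ 2) ≤ C * (√(∑ p ∈ R, 1 / (p : ℝ)) + 1)

/-- the bilinear function of the level for two roots of unity -/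
noncomputable def HPsN {ι : Type} [Fintype ι] (S : HSystem ι) (τ : ℝ) (z1 z2 : ℂ) (K : ℕ)
    [NeZero K] (om : ι → V → V → ℂ) (G1 G2 : ℝ → ℝ → ℝ) (L x : ℝ) : ℂ :=
  ∑ i, ∑ α : ZMod K × ZMod K, ∑ β : ZMod K × ZMod K, if wz α β = 1 then
    om i (rz α) (rz β) * ((1 / (2 * Real.pi) : ℂ) * ∫ θ in (0 : ℝ)..(2 * Real.pi),
      hmm (S.Q i) τ (gc z1 (S.Q i) K α) G1 L x θ *
        hmm (S.Q i) τ (gc z2 (S.Q i) K β) G2 L x θ) else 0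

/-- (E14) the bilinear function is bounded and varies slowly in `x`, uniformly in `L`
(from `StHMb`, `StHMg`, `StHSvu`) -/
def StHPsv : Prop := ∀ (ι : Type) [Fintype ι] (S : HSystem ι) (z1 z2 : ℂ), ‖z1‖ = 1 → ‖z2‖ = 1 →
  ∀ (K : ℕ) [NeZero K] (a : Pell.Solution₁ (S.d : ℤ)), PP a → PK K a →
  ∀ (om : ι → V → V → ℂ), HWt S K om → ∀ (B : ℝ) (G1 G2 : ℝ → ℝ → ℝ),
  GT B G1 → GT B G2 → ∃ C : ℝ, ∀ L : ℝ, 1 ≤ L →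
    (∀ x, ‖HPsN S (tauH a) z1 z2 K om G1 G2 L x‖ ≤ C) ∧
    ∃ x0 : ℝ, 1 ≤ x0 ∧ ∀ x y : ℝ, x0 ≤ x → x ≤ y →
      ‖HPsN S (tauH a) z1 z2 K om G1 G2 L x - HPsN S (tauH a) z1 z2 K om G1 G2 L y‖ ≤
        C * (y - x) / x

/-- (E15) almost invariance of the bilinear function (from `StHSq`, `StHPsv`, `StInv`, ...) -/
def StHPsA : Prop := ∀ (ι : Type) [Fintype ι] (S : HSystem ι) (z1 z2 : ℂ), ‖z1‖ = 1 → ‖z2‖ = 1 →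
  ∀ (K : ℕ) [NeZero K], 4 * S.d ∣ K → ∀ a : Pell.Solution₁ (S.d : ℤ), PP a → PK K a →
  ∀ om : ι → V → V → ℂ, HWt S K om →
  ∀ (B : ℝ) (G1 G2 : ℝ → ℝ → ℝ), GT B G1 → GT B G2 → ∃ C : ℝ, 0 < C ∧ ∀ (M : LMean)
  (R : Finset ℕ), (∀ p ∈ R, p.Prime ∧ p ≡ 1 [MOD K]) → ∃ L0 : ℝ, 1 ≤ L0 ∧ ∀ L : ℝ, L0 ≤ L →
  (∑ p ∈ R, (1 / (p : ℝ)) * M.E (fun n => ‖HPsN S (tauH a) z1 z2 K om G1 G2 L n -
    z1 * z2 * HPsN S (tauH a) z1 z2 K om G1 G2 L ((n : ℝ) / p)‖)) ^ 2 ≤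
    C * (∑ p ∈ R, 1 / (p : ℝ)) * (√(∑ p ∈ R, 1 / (p : ℝ)) + 1)

/-- (E16) (from `StHPsA`, `StTri`, `StHPsv`) -/
def StHPsiS : Prop := ∀ (M : LMean) (ι : Type) [Fintype ι] (S : HSystem ι) (z1 z2 : ℂ),
  ‖z1‖ = 1 → ‖z2‖ = 1 → z1 * z2 ≠ 1 → ∀ (K : ℕ) [NeZero K], 4 * S.d ∣ K →
  ∀ a : Pell.Solution₁ (S.d : ℤ), PP a → PK K a → ∀ om : ι → V → V → ℂ,
  HWt S K om → ∀ (B : ℝ) (G1 G2 : ℝ → ℝ → ℝ), GT B G1 → GT B G2 →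
  Tendsto (fun L : ℝ => M.E (fun n => ‖HPsN S (tauH a) z1 z2 K om G1 G2 L n‖)) atTop (𝓝 0)

/-- (E17) one pair of vectors.  `I` is the integral over the whole line of the kernel. -/
def StHPair : Prop := ∀ (d : ℕ), ¬ IsSquare d → ∀ (τ δ : ℝ) (h : ℝ → ℝ → ℝ), 0 < τ → 0 < δ →
  δ ≤ 1 → Test δ h →
  ∃ C : ℝ, 2 ≤ C ∧ ∀ ε : ℝ, 0 < ε → ε < 1 / 2 → ∃ (r : ℕ) (G1 G2 : Fin r → ℝ → ℝ → ℝ) (B : ℝ),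
    (∀ j, GT B (G1 j) ∧ GT B (G2 j)) ∧ ∀ Q : Form, Hyp d Q → ∀ P : ℝ, 1 ≤ P →
    ∃ n0 : ℕ, ∀ n : ℕ, n0 ≤ n → ∀ v v' : V, ∀ I : ℝ,
    I = (1 / (2 * Real.pi)) * ∫ θ : ℝ, ∑ j,
      G1 j (hlx Q τ n θ v) (hly Q τ n θ v / P) * G2 j (hlx Q τ n θ v') (hly Q τ n θ v' / P) →
    (¬ (Cn Q v ∧ Cn Q v' ∧ (δ / 2) ^ 2 * n ≤ Q.q v ∧ (Q.q v : ℝ) ≤ 4 * n ∧
      (δ / 2) ^ 2 * n ≤ Q.q v' ∧ (Q.q v' : ℝ) ≤ 4 * n ∧ 0 < wd v v' ∧ (wd v v' : ℝ) ≤ C * P) →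
      I = 0) ∧
    (Cn Q v → Cn Q v' →
      |n * I - P / (2 * Real.pi * τ) * (if P < (wd v v' : ℝ) ∧ (wd v v' : ℝ) ≤ 2 * P
        then h (Q.nr n v) (Q.nr n v') else 0)| ≤ P * (C * ε +
        (if |(wd v v' : ℝ) - P| ≤ ε * P ∨ |(wd v v' : ℝ) - 2 * P| ≤ ε * P then C else 0)))

open Classical in
/-- (E18) the reduction for fixed large `n` (from `StHPair`, `StHcnt`) -/
def StHRedPt : Prop := ∀ (d : ℕ), ¬ IsSquare d → ∀ (τ δ : ℝ) (h : ℝ → ℝ → ℝ), 0 < τ → 0 < δ →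
  δ ≤ 1 → Test δ h →
  ∀ (K : ℕ), 0 < K → ∀ ε : ℝ, 0 < ε → ∃ (r : ℕ) (G1 G2 : Fin r → ℝ → ℝ → ℝ) (B : ℝ),
    (∀ j, GT B (G1 j) ∧ GT B (G2 j)) ∧ ∀ Q : Form, Hyp d Q →
    ∃ e0 : ℕ, ∀ e : ℕ, e0 ≤ e → ∃ n0 : ℕ, ∀ n : ℕ, n0 ≤ n → ∀ U : V → V → ℂ,
    (∀ v v', ‖U v v'‖ ≤ 1) →
    ‖(1 / (2 : ℂ) ^ e) * ∑ k ∈ NN K e, (K : ℂ) * Hk Q (2 * Real.pi * τ) h U (k : ℤ) n -
      (1 / (2 : ℂ) ^ e) ^ 2 * ∑' f : V × V,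
        if Prim f.1 ∧ Prim f.2 ∧ Sec Q (2 * Real.pi * τ) f.1 then
        ((1 / (2 * Real.pi) * ∫ θ : ℝ, ∑ j,
          G1 j (hlx Q τ n θ f.1) (hly Q τ n θ f.1 / 2 ^ e) *
            G2 j (hlx Q τ n θ f.2) (hly Q τ n θ f.2 / 2 ^ e) : ℝ) : ℂ) * UK K U f.1 f.2 else 0‖ ≤ ε

open Classical in
/-- (E19) unfolding (from `StHCoord`, `StHCnt`) -/
def StHUnf : Prop := ∀ (d : ℕ) (Q : Form), Hyp d Q → ∀ a : Pell.Solution₁ (d : ℤ), PP a →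
  ∀ (B : ℝ) (G1 G2 : ℝ → ℝ → ℝ), GT B G1 → GT B G2 → ∀ L : ℝ, 1 ≤ L → ∃ n0 : ℕ, ∀ n : ℕ, n0 ≤ n →
  ∀ g g' : V → ℂ, Ug g → Ug g' → AI Q a g → AI Q a g' →
  (Function.support (fun f : V × V => if Prim f.1 ∧ Prim f.2 ∧ Sec Q (per a) f.1 then
    ((∫ θ : ℝ, G1 (hlx Q (tauH a) n θ f.1) (hly Q (tauH a) n θ f.1 / L) *
      G2 (hlx Q (tauH a) n θ f.2) (hly Q (tauH a) n θ f.2 / L) : ℝ) : ℂ) * (g f.1 * g' f.2)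
    else 0)).Finite ∧
  (∫ θ in (0 : ℝ)..(2 * Real.pi), hmm Q (tauH a) g G1 L n θ * hmm Q (tauH a) g' G2 L n θ) =
    (1 / (L : ℂ)) ^ 2 * ∑' f : V × V, if Prim f.1 ∧ Prim f.2 ∧ Sec Q (per a) f.1 then
      ((∫ θ : ℝ, G1 (hlx Q (tauH a) n θ f.1) (hly Q (tauH a) n θ f.1 / L) *
        G2 (hlx Q (tauH a) n θ f.2) (hly Q (tauH a) n θ f.2 / L) : ℝ) : ℂ) * (g f.1 * g' f.2)
      else 0

/-- (E20) the reduction, two functions (from `StHRedPt`, `StHUnf`) -/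
def StHRedS : Prop := ∀ (d : ℕ), ¬ IsSquare d → ∀ (a : Pell.Solution₁ (d : ℤ)), PP a →
  ∀ (K : ℕ) [NeZero K], PK K a → ∀ (δ : ℝ) (h : ℝ → ℝ → ℝ), 0 < δ →
  Test δ h → ∀ (c ε : ℝ), 0 < ε → ∃ (r : ℕ) (G1 G2 : Fin r → ℝ → ℝ → ℝ) (B : ℝ),
    (∀ j, GT B (G1 j) ∧ GT B (G2 j)) ∧
  ∀ Q : Form, Hyp d Q → ∀ (g g' : V → ℂ), (∀ v, ‖g v‖ ≤ 1) → (∀ v, ‖g' v‖ ≤ 1) →
    AI Q a g → AI Q a g' → ∀ om : V → V → ℂ, (∀ v v', ‖om v v'‖ ≤ c) →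
    (∀ v v' b b', om (v + (K : ℤ) • b) (v' + (K : ℤ) • b') = om v v') →
  ∃ e0 : ℕ, ∀ e : ℕ, e0 ≤ e → ∃ n0 : ℕ, ∀ n : ℕ, n0 ≤ n →
    ‖(1 / (2 : ℂ) ^ e) * ∑ j ∈ NN K e,
        (K : ℂ) * Hk Q (per a) h (fun v v' => om v v' * g v * g' v') (j : ℤ) n
      - ∑ j : Fin r, ∑ α : ZMod K × ZMod K, ∑ β : ZMod K × ZMod K, (if wz α β = 1 then
        om (rz α) (rz β) * ((1 / (2 * Real.pi) : ℂ) * ∫ θ in (0 : ℝ)..(2 * Real.pi),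
          hmm Q (tauH a) (rc g α) (G1 j) (2 ^ e) n θ *
            hmm Q (tauH a) (rc g' β) (G2 j) (2 ^ e) n θ) else 0)‖ ≤ ε

/-- (E21) Theorem E (from `StHPsiS`, `StHRedS`) -/
def StHEs : Prop := ∀ (ι : Type) [Fintype ι] (S : HSystem ι) (z1 z2 : ℂ) (k : ℕ),
  0 < k → z1 ^ k = 1 → z2 ^ k = 1 → z1 * z2 ≠ 1 → HEsFor S z1 z2

/-! ### F. Polynomials -/

/-- (F1) systems for every nonsquare positive discriminant -/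
def StHSys : Prop := ∀ d : ℕ, ¬ IsSquare d → ∃ (ι : Type) (_ : Fintype ι) (S : HSystem ι)
  (w : ι → ℕ) (a : Pell.Solution₁ (S.d : ℤ)), S.d = d ∧ PP a ∧ (∀ i, 0 < w i) ∧
  (∀ p : ℕ, p.Prime → p ≡ 1 [MOD 4 * d] → ∀ i, w (S.s p i) = w i) ∧
  ∀ F : Form, 0 < F.a → 0 < F.b → 0 < F.c → F.D = -(d : ℤ) →
    (∀ i, {f : V × V | wd f.1 f.2 = 1 ∧ Sec (S.Q i) (per a) f.1 ∧ Cn (S.Q i) f.2 ∧
      (S.Q i).q f.1 = F.a ∧ (S.Q i).B f.1 f.2 = F.b ∧ (S.Q i).q f.2 = F.c}.Finite) ∧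
    ∑ i, (({f : V × V | wd f.1 f.2 = 1 ∧ Sec (S.Q i) (per a) f.1 ∧ Cn (S.Q i) f.2 ∧
      (S.Q i).q f.1 = F.a ∧ (S.Q i).B f.1 f.2 = F.b ∧ (S.Q i).q f.2 = F.c}.ncard : ℂ) / w i) = 1

/-- (F2) weights modulo `K` -/
def StHWt : Prop := ∀ (ι : Type) [Fintype ι] (S : HSystem ι) (w : ι → ℕ),
  (∀ p : ℕ, p.Prime → p ≡ 1 [MOD 4 * S.d] → ∀ i, w (S.s p i) = w i) →
  ∀ (K : ℕ), 0 < K → ∀ φ : ℤ → ℤ → ℤ → ℂ,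
  (∀ x y z u v t : ℤ, φ (x + K * u) (y + K * v) (z + K * t) = φ x y z) →
  HWt S K (fun i v v' => (1 / (w i : ℂ)) * φ ((S.Q i).q v) ((S.Q i).B v v') ((S.Q i).q v'))

/-- frames with first vector in the sector, `q v ≤ n`, `s1 ≤ B / (2 q v) ≤ s2` -/
def HF (Q : Form) (T n s1 s2 : ℝ) : Set (V × V) :=
  {f | wd f.1 f.2 = 1 ∧ Sec Q T f.1 ∧ Cn Q f.2 ∧ (Q.q f.1 : ℝ) ≤ n ∧
    2 * s1 * (Q.q f.1 : ℝ) ≤ (Q.B f.1 f.2 : ℝ) ∧ (Q.B f.1 f.2 : ℝ) ≤ 2 * s2 * (Q.q f.1 : ℝ)}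

/-- (F3) upper bounds: trivial, and for short ranges of `s` (from `StR` for a definite majorant) -/
def StHup : Prop := ∀ (d : ℕ) (Q : Form), Hyp d Q → ∀ T : ℝ, 0 < T →
  (∀ n s1 s2 : ℝ, (HF Q T n s1 s2).Finite) ∧ ∃ C : ℝ, 0 < C ∧
  (∀ n s1 s2 : ℝ, 1 ≤ n → s1 ≤ s2 → ((HF Q T n s1 s2).ncard : ℝ) ≤ C * (s2 - s1 + 1) * n) ∧
  ∀ s1 s2 : ℝ, 0 ≤ s1 → s1 < s2 → ∀ᶠ n : ℕ in atTop,
    ((HF Q T n s1 s2).ncard : ℝ) ≤ C * (s2 - s1) * n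

/-- (F4) lower bound in a class modulo `K` (from `StRow`, `StTot`) -/
def StHlow : Prop := ∀ (d : ℕ) (Q : Form), Hyp d Q → ∀ T : ℝ, 0 < T → ∀ (K : ℕ), 0 < K →
  ∀ γ : Mat, (K : ℤ) ∣ γ.det - 1 → ∀ s1 s2 : ℝ, 0 < s1 → s1 < s2 → ∃ c : ℝ, 0 < c ∧
  ∀ᶠ n : ℕ in atTop, c * n ≤ (({f ∈ HF Q T n s1 s2 | Cls K γ f}.ncard : ℕ) : ℝ)

/-- frames with `T0 ≤ t ≤ N` and `α t ≤ q v ≤ β t`, `t = (B - b) / (2 a)` -/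
def HFG (Q : Form) (T : ℝ) (a b : ℤ) (α β : ℝ) (T0 N : ℕ) : Set (V × V) :=
  {f | wd f.1 f.2 = 1 ∧ Sec Q T f.1 ∧ Cn Q f.2 ∧ (T0 : ℝ) ≤ tp Q a b f ∧ tp Q a b f ≤ N ∧
    α * tp Q a b f ≤ (Q.q f.1 : ℝ) ∧ (Q.q f.1 : ℝ) ≤ β * tp Q a b f}

/-- (F5) the sandwich (from `StHup`, `StHC0`, `StMd`) -/
def StHFm : Prop := ∀ (M : LMean) (ι : Type) [Fintype ι] (d : ℕ) (Q : ι → Form),
  (∀ i, Hyp d (Q i)) → ∀ T : ℝ, 0 < T →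
  ∀ U : ι → V → V → ℂ, (∃ C : ℝ, ∀ i v v', ‖U i v v'‖ ≤ C) → HNullM M Q T U →
  ∀ (a b : ℤ) (α β : ℝ), 0 < a → 0 < α → α < β → ∀ T0 : ℕ, 0 < T0 →
  (∀ i N, (HFG (Q i) T a b α β T0 N).Finite) ∧
  Bdd (fun N : ℕ => ‖∑ i, ∑ᶠ f ∈ HFG (Q i) T a b α β T0 N, U i f.1 f.2‖ / N) ∧
  M.E (fun N : ℕ => ‖∑ i, ∑ᶠ f ∈ HFG (Q i) T a b α β T0 N, U i f.1 f.2‖ / N) = 0

/-- (F6) the number of pairs is `O(N)` (from `StHSys`, `StHup`) -/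
def StHOn : Prop := ∀ a b c : ℤ, 0 < a → ∀ d : ℕ, b ^ 2 - 4 * a * c = d → ¬ IsSquare d →
  ∀ (h : ℕ), 0 < h → ∀ (t0 : ℕ) (α β : ℝ), 0 < α → α < β → ∃ C : ℝ, ∀ N : ℕ,
  ((∑ t ∈ (Finset.Icc 1 N).filter (fun t => t ≡ t0 [MOD h]), (nearG a b c α β t).card : ℕ) : ℝ)
    ≤ C * N

/-- (F7) lower bound for the number of pairs (from `StHSys`, `StHlow`) -/
def StHOl : Prop := ∀ a b c : ℤ, 0 < a → ∀ d : ℕ, b ^ 2 - 4 * a * c = d → ¬ IsSquare d →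
  ∀ (h : ℕ), 0 < h → ∀ (t0 : ℕ) (α β : ℝ), 0 < α → α < β → ∃ κ : ℝ, 0 < κ ∧ ∀ᶠ N : ℕ in atTop,
  κ * N ≤ ((∑ t ∈ (Finset.Icc 1 N).filter (fun t => t ≡ t0 [MOD h]),
    (nearG a b c α β t).card : ℕ) : ℝ)

/-- (F8) the twisted theorem (from `StHAm`, `StHEs`, `StHFm`, `StHOn`, `StHSys`, `StHWt`) -/
def StHTwM : Prop := ∀ a b c : ℤ, 0 < a → ∀ d : ℕ, b ^ 2 - 4 * a * c = d → ¬ IsSquare d →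
  ∀ (z1 z2 : ℂ) (k : ℕ), 0 < k →
  z1 ^ k = 1 → z2 ^ k = 1 → z1 * z2 ≠ 1 → ∀ (h : ℕ), 0 < h → ∀ (t0 : ℕ) (α β : ℝ), 0 < α →
  α < β → ∀ M : LMean, M.E (fun N : ℕ => ‖TwN a b c α β h t0 z1 z2 N‖ / N) = 0

/-- (F9) the law of the pair is invariant under `(1,1)` (from `StHTwM`, `StHOn`) -/
def StHFinM : Prop := ∀ a b c : ℤ, 0 < a → ∀ d : ℕ, b ^ 2 - 4 * a * c = d → ¬ IsSquare d →
  ∀ (k : ℕ), 0 < k → ∀ (h t0 : ℕ) (α β : ℝ), 0 < h → 0 < α → α < β → ∀ r s : ℕ, ∀ M : LMean,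
  M.E (fun N : ℕ =>
    |(CST a b c α β h t0 k r s N : ℝ) - CST a b c α β h t0 k (r + 1) (s + 1) N| / N) = 0

end Pool.Agent.Lib.MP_a17b09_nt.HY
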