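import Pool.Agent.Lib.MP_a17b09_nt.HY.TopH20
import Pool.Agent.Lib.MP_a17b09_nt.HY.GlueH20
import Pool.Agent.Lib.MP_a17b09_nt.MRH.All90
import Pool.Agent.Lib.MP_a17b09_nt.MRH.Tkh79

/-!
Projects HY and MRH: the final theorem for positive nonsquare discriminants and every `k`.
-/

set_option autoImplicit false

open Filter Topology Finset

namespace Pool.Agent.Lib.MP_a17b09_nt.HY

open Pool.Agent.Lib.MP_a17b09_nt.CH

namespace TopJ20

/-- Theorem E for all pairs of roots of unity different from `(1, 1)` -/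
theorem hEsAll (d : ℕ) : MRH.HEsAll d :=
  stHGlue_20 TopH20.hRedS TopH20.hC0 d (MRH.stMrsH_all90 (fun D _ => MRH.stTkhG_79 D))

/-- the theorem for every positive nonsquare discriminant and every `k` -/
theorem top_HJ (a b c : ℤ) (ha : 0 < a)
    (hD0 : 0 ≤ b ^ 2 - 4 * a * c) (hns : ¬ IsSquare (b ^ 2 - 4 * a * c)) (h t₀ : ℕ) (hh : 0 < h)
    (α β : ℝ) (hα : 0 < α) (hαβ : α < β) :
    ∃ κ : ℝ, 0 < κ ∧
      Tendsto (fun N : ℕ => (pairCount a b c h t₀ α β (fun _ _ => True) N : ℝ) / N) atTop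
        (𝓝 κ) ∧
      ∀ k : ℕ, 0 < k →
        (∀ r s : ℕ,
          (∀ ε : ℝ, 0 < ε → LogNull {N | ε < |(pairCount a b c h t₀ α β (fun t d =>
            ArithmeticFunction.cardFactors d ≡ r [MOD k] ∧
            ArithmeticFunction.cardFactors ((a * (t : ℤ) ^ 2 + b * t + c).natAbs / d) ≡ s
              [MOD k]) N : ℝ) / N - κ / k ^ 2|}) ∧
          (∃ η : ℝ, 0 < η ∧ ∀ᶠ N : ℕ in atTop, η * N ≤ pairCount a b c h t₀ α β (fun t d =>
            ArithmeticFunction.cardFactors d ≡ r [MOD k] ∧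
            ArithmeticFunction.cardFactors ((a * (t : ℤ) ^ 2 + b * t + c).natAbs / d) ≡ s
              [MOD k]) N) ∧
          Tendsto (fun X : ℕ => pairSum a b c h t₀ α β (fun t d =>
            ArithmeticFunction.cardFactors d ≡ r [MOD k] ∧
            ArithmeticFunction.cardFactors ((a * (t : ℤ) ^ 2 + b * t + c).natAbs / d) ≡ s
              [MOD k]) X / Real.log X) atTop (𝓝 (κ / k ^ 2))) ∧
        (∀ r : ℕ,
          (∀ ε : ℝ, 0 < ε → LogNull {N | ε < |(pairCount a b c h t₀ α β (fun t _ =>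
            ArithmeticFunction.cardFactors (a * (t : ℤ) ^ 2 + b * t + c).natAbs ≡ r [MOD k])
              N : ℝ) / N - κ / k|}) ∧
          (∃ η : ℝ, 0 < η ∧ ∀ᶠ N : ℕ in atTop, η * N ≤ pairCount a b c h t₀ α β (fun t _ =>
            ArithmeticFunction.cardFactors (a * (t : ℤ) ^ 2 + b * t + c).natAbs ≡ r [MOD k])
              N) ∧
          Tendsto (fun X : ℕ => pairSum a b c h t₀ α β (fun t _ =>
            ArithmeticFunction.cardFactors (a * (t : ℤ) ^ 2 + b * t + c).natAbs ≡ r [MOD k])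
              X / Real.log X) atTop (𝓝 (κ / k))) := by
  obtain ⟨d, hd⟩ : ∃ d : ℕ, b ^ 2 - 4 * a * c = d := ⟨_, (Int.toNat_of_nonneg hD0).symm⟩
  have hns' : ¬ IsSquare d := by
    rintro ⟨s, hs⟩
    apply hns
    refine ⟨s, ?_⟩
    rw [hd, hs]
    push_cast
    ring
  exact endHJ stMeanU_70 stMean_70 a b c (TopH20.fv_ne hns) h t₀ α β
    (TopH20.hMainS a b c ha d hd hns' h hh t₀ α β hα hαβ)
    (TopH20.hOn a b c ha d hd hns' h hh t₀ α β hα hαβ)
    (fun z1 z2 k hk hz1 hz2 hne M => twH_68 TopH20.hAm TopH20.hFm hk hz1 hz2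
      (fun ι _ S => hEsAll S.d ι S rfl z1 z2 k hk hz1 hz2 hne) ha hd hns' hh t₀ hα hαβ M)

end TopJ20

end Pool.Agent.Lib.MP_a17b09_nt.HY
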