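import Pool.Agent.Lib.MP_a17b09_nt.HY.TopJ20
import Pool.Agent.Lib.MP_a17b09_nt.MRS.EndK90

/-!
The final statement for positive nonsquare discriminants, in the form `Joint`.
-/

set_option autoImplicit false

namespace Pool.Agent.Lib.MP_a17b09_nt.HY

open Pool.Agent.Lib.MP_a17b09_nt.CH

theorem joint_20 {a b c : ℤ} (ha : 0 < a) (hD0 : 0 ≤ b ^ 2 - 4 * a * c)
    (hns : ¬ IsSquare (b ^ 2 - 4 * a * c)) {h : ℕ} (hh : 0 < h) (t₀ : ℕ)
    {α β : ℝ} (hα : 0 < α) (hαβ : α < β) : Joint a b c h t₀ α β :=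
  TopJ20.top_HJ a b c ha hD0 hns h t₀ hh α β hα hαβ

end Pool.Agent.Lib.MP_a17b09_nt.HY
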